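import Mathlib

namespace Pool.Agent.Q147.CCSub

open Set Filter Topology Cardinal

/-- The combinatorial statement `𝔭 > ω₁`. -/
def PseudoGt : Prop :=
  ∀ (ι : Type) (S : ι → Set ℕ), Cardinal.mk ι ≤ Cardinal.aleph 1 →
    (∀ F : Finset ι, (⋂ i ∈ F, S i).Infinite) →
      ∃ P : Set ℕ, P.Infinite ∧ ∀ i, (P \ S i).Finite

/-- Countable compactness of a subset: every countable open cover has a finite subcover. -/
def CtblyCompact {X : Type} [TopologicalSpace X] (D : Set X) : Prop :=
  ∀ U : ℕ → Set X, (∀ n, IsOpen (U n)) → D ⊆ ⋃ n, U n → ∃ t : Finset ℕ, D ⊆ ⋃ n ∈ t, U n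

theorem lim_mem {X : Type} [TopologicalSpace X] [T2Space X] {D : Set X} (hD : CtblyCompact D)
    {b : ℕ → X} (hb : Function.Injective b) (hbD : ∀ n, b n ∈ D) {z : X}
    (hz : Tendsto b atTop (𝓝 z)) : z ∈ D := by
  by_contra hzD
  let U : ℕ → Set X := fun n => (insert z (range fun j => b (j + n)))ᶜ
  have hU : ∀ n, IsOpen (U n) := by
    intro n
    have h1 : Tendsto (fun j => b (j + n)) atTop (𝓝 z) :=
      hz.comp (tendsto_add_atTop_nat n)
    exact (h1.isCompact_insert_range).isClosed.isOpen_compl
  have hcov : D ⊆ ⋃ n, U n := by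
    intro d hd
    rw [mem_iUnion]
    have hdz : d ≠ z := fun h => hzD (h ▸ hd)
    by_contra hno
    push Not at hno
    have h2 : ∀ n, d ∈ range fun j => b (j + n) := by
      intro n
      have := hno n
      simp only [U, mem_compl_iff, not_not] at this
      rcases this with h | h
      · exact absurd h hdz
      · exact h
    obtain ⟨j0, hj0⟩ := h2 0
    obtain ⟨j1, hj1⟩ := h2 (j0 + 1)
    have h3 : b (j0 + 0) = b (j1 + (j0 + 1)) := by
      simp only at hj0 hj1
      rw [hj0, hj1]
    have := hb h3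
    omega
  obtain ⟨t, ht⟩ := hD U hU hcov
  have h4 := ht (hbD (t.sup id))
  simp only [mem_iUnion] at h4
  obtain ⟨n, hn, hn2⟩ := h4
  apply hn2
  right
  have hle : n ≤ t.sup id := Finset.le_sup (f := id) hn
  exact ⟨t.sup id - n, by simp only; rw [Nat.sub_add_cancel hle]⟩

theorem uncountable_of_compact_group {G : Type} [AddCommGroup G] [TopologicalSpace G]
    [IsTopologicalAddGroup G] [T2Space G] (C : AddSubgroup G) (hC : IsCompact (C : Set G))
    (hinf : (C : Set G).Infinite) : ¬ (C : Set G).Countable := by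
  intro hcount
  have : CompactSpace C := isCompact_iff_compactSpace.mp hC
  have : Countable C := hcount.to_subtype
  obtain ⟨x, hx⟩ := nonempty_interior_of_iUnion_of_closed (X := C) (f := fun x : C => ({x} : Set C))
    (fun x => isClosed_singleton) (by ext x; simp)
  have hxo : IsOpen ({x} : Set C) := by
    have h1 : interior ({x} : Set C) = {x} := by
      apply subset_antisymm interior_subset
      obtain ⟨y, hy⟩ := hx
      have hyx : y ∈ ({x} : Set C) := interior_subset hy
      rw [mem_singleton_iff] at hyx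
      intro w hw
      rw [mem_singleton_iff] at hw
      rw [hw]
      have hy2 : x ∈ interior ({x} : Set C) := by
        have hy3 := hy
        rw [hyx] at hy3
        exact hy3
      exact hy2
    rw [← h1]
    exact isOpen_interior
  have h0 : IsOpen ({0} : Set C) := by
    have h2 : ({0} : Set C) = (fun y => x + y) ⁻¹' {x} := by
      ext y
      simp
    rw [h2]
    exact hxo.preimage (continuous_const.add continuous_id)
  have := discreteTopology_of_isOpen_singleton_zero h0
  have : Finite C := finite_of_compact_of_discrete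
  exact hinf (Set.toFinite _)

theorem main {K : Type} [AddCommGroup K] [TopologicalSpace K] [IsTopologicalAddGroup K]
    [T2Space K] [CompactSpace K] [FirstCountableTopology K] {I : Type}
    (hI : Cardinal.mk I ≤ Cardinal.aleph 1) (hp : PseudoGt) (D : AddSubgroup (I → K))
    (hinf : (D : Set (I → K)).Infinite) (hcc : CtblyCompact (D : Set (I → K))) :
    ∃ C : Set (I → K), C ⊆ (D : Set (I → K)) ∧ IsCompact C ∧ ¬ C.Countable := by
  classical
  obtain ⟨e⟩ : Nonempty (ℕ ↪ (D : Set (I → K))) := ⟨hinf.natEmbedding _⟩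
  let L : (ℕ →₀ ℤ) →ₗ[ℤ] (I → K) := Finsupp.linearCombination ℤ (fun n => ((e n : (D : Set (I → K))) : I → K))
  let A : AddSubgroup (I → K) := L.toAddMonoidHom.range
  have hAD : ∀ x ∈ A, x ∈ D := by
    rintro x ⟨f, rfl⟩
    change L f ∈ D
    simp only [L, Finsupp.linearCombination_apply]
    exact D.sum_mem (fun n _ => D.zsmul_mem (e n).2 _)
  have heA : ∀ n, ((e n : (D : Set (I → K))) : I → K) ∈ A := by
    intro n
    refine ⟨Finsupp.single n 1, ?_⟩
    change L (Finsupp.single n 1) = _
    simp [L]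
  have hAinf : (A : Set (I → K)).Infinite := by
    have : (range fun n => ((e n : (D : Set (I → K))) : I → K)).Infinite :=
      infinite_range_of_injective (Subtype.val_injective.comp e.injective)
    exact this.mono (by rintro _ ⟨n, rfl⟩; exact heA n)
  have hAc : (A : Set (I → K)).Countable := by
    have : (A : Set (I → K)) = range L := by
      ext x
      rfl
    rw [this]
    exact countable_range _
  obtain ⟨hden⟩ := Set.countable_infinite_iff_nonempty_denumerable.mp ⟨hAc, hAinf⟩
  let q : ℕ ≃ (A : Set (I → K)) := (Denumerable.eqv (A : Set (I → K))).symm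
  let a : ℕ → (I → K) := fun n => (q n : I → K)
  have ha_inj : Function.Injective a := Subtype.val_injective.comp q.injective
  have ha_A : ∀ n, a n ∈ A := fun n => (q n).2
  have ha_surj : ∀ x ∈ A, ∃ n, a n = x := by
    intro x hx
    obtain ⟨n, hn⟩ := q.surjective ⟨x, hx⟩
    exact ⟨n, by simp only [a]; rw [hn]⟩
  let C : AddSubgroup (I → K) := A.topologicalClosure
  have hCc : IsCompact (C : Set (I → K)) := (AddSubgroup.isClosed_topologicalClosure A).isCompact
  have hCinf : (C : Set (I → K)).Infinite := hAinf.mono (AddSubgroup.le_topologicalClosure A)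
  refine ⟨C, ?_, hCc, uncountable_of_compact_group C hCc hCinf⟩
  intro z hz
  by_cases hzA : z ∈ A
  · exact hAD z hzA
  have hzcl : z ∈ closure (A : Set (I → K)) := hz
  have hb : ∀ i, ∃ B : ℕ → Set K, (𝓝 (z i)).HasAntitoneBasis B := fun i =>
    (𝓝 (z i)).exists_antitone_basis
  choose B hB using hb
  let S : I × ℕ → Set ℕ := fun w => {k | a k w.1 ∈ B w.1 w.2}
  have hcard : Cardinal.mk (I × ℕ) ≤ Cardinal.aleph 1 := by
    rw [Cardinal.mk_prod, Cardinal.lift_id, Cardinal.lift_id, Cardinal.mk_nat]
    calc Cardinal.mk I * ℵ₀ ≤ Cardinal.aleph 1 * Cardinal.aleph 1 :=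
          mul_le_mul' hI (Cardinal.aleph0_le_aleph 1)
      _ = Cardinal.aleph 1 := Cardinal.mul_eq_self (Cardinal.aleph0_le_aleph 1)
  have hfin : ∀ F : Finset (I × ℕ), (⋂ w ∈ F, S w).Infinite := by
    intro F
    let W : Set (I → K) := ⋂ w ∈ F, (fun x : I → K => x w.1) ⁻¹' (B w.1 w.2)
    have hW : W ∈ 𝓝 z := by
      refine (Filter.biInter_finset_mem F).mpr ?_
      intro w _
      exact (continuous_apply w.1).continuousAt.preimage_mem_nhds ((hB w.1).1.mem_of_mem trivial)
    intro hf
    -- the finitely many points can be avoided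
    let T : Set (I → K) := a '' (⋂ w ∈ F, S w)
    have hT : T.Finite := hf.image a
    have hzT : z ∉ T := by
      rintro ⟨k, _, hk⟩
      exact hzA (hk ▸ ha_A k)
    have hV : W ∩ Tᶜ ∈ 𝓝 z := inter_mem hW (hT.isClosed.isOpen_compl.mem_nhds hzT)
    obtain ⟨x, ⟨hxW, hxT⟩, hxA⟩ := mem_closure_iff_nhds.mp hzcl _ hV
    obtain ⟨k, rfl⟩ := ha_surj x hxA
    apply hxT
    refine ⟨k, ?_, rfl⟩
    simp only [W, mem_iInter] at hxW ⊢
    intro w hw
    exact hxW w hw
  obtain ⟨P, hPinf, hP⟩ := hp (I × ℕ) S hcard hfin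
  have : Infinite P := hPinf.to_subtype
  let φ : ℕ → ℕ := Nat.nth (· ∈ P)
  have hφ : StrictMono φ := Nat.nth_strictMono hPinf
  have hφP : ∀ n, φ n ∈ P := Nat.nth_mem_of_infinite hPinf
  have hlim : Tendsto (fun n => a (φ n)) atTop (𝓝 z) := by
    rw [tendsto_pi_nhds]
    intro i
    rw [(hB i).1.tendsto_right_iff]
    intro m _
    have h1 := hP (i, m)
    have h2 : ((fun n => φ n) ⁻¹' (P \ S (i, m))).Finite := h1.preimage hφ.injective.injOn
    have h3 := h2.compl_mem_cofinite
    rw [Nat.cofinite_eq_atTop] at h3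
    filter_upwards [h3] with n hn
    by_contra hno
    exact hn ⟨hφP n, hno⟩
  exact lim_mem hcc (ha_inj.comp hφ.injective) (fun n => hAD _ (ha_A _)) hlim

theorem infinite_of_dense {K : Type} [AddCommGroup K] [TopologicalSpace K] [T2Space K]
    [Nontrivial K] {I : Type} [Infinite I] (D : Set (I → K)) (hD : Dense D) : D.Infinite := by
  intro hf
  have h1 : D = Set.univ := by
    have := hD.closure_eq
    rwa [hf.isClosed.closure_eq] at this
  rw [h1] at hf
  have : Infinite (I → K) := Pi.infinite_of_left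
  exact infinite_univ hf

end Pool.Agent.Q147.CCSub
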