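import Mathlib

/-!
# Algebra for a c-minimal group with elementary abelian discrete quotient
-/

noncomputable section

namespace Pool.Agent.Q147.CMin

open Set Topology

instance : Fact (Nat.Prime 2) := ⟨Nat.prime_two⟩

/-- The countable elementary abelian 2-group. -/
def V : Type := ℕ →₀ ZMod 2

instance : AddCommGroup V := inferInstanceAs (AddCommGroup (ℕ →₀ ZMod 2))
instance : Module (ZMod 2) V := inferInstanceAs (Module (ZMod 2) (ℕ →₀ ZMod 2))
instance : Countable V := inferInstanceAs (Countable (ℕ →₀ ZMod 2))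

/-- `V` is discrete. -/
instance : TopologicalSpace V := ⊥
instance : DiscreteTopology V := ⟨rfl⟩

/-- The coordinates. -/
def co (v : V) (n : ℕ) : ZMod 2 := (show ℕ →₀ ZMod 2 from v) n

/-- The unit vectors. -/
def e (n : ℕ) : V := (Finsupp.single n 1 : ℕ →₀ ZMod 2)

theorem co_add (v w : V) (n : ℕ) : co (v + w) n = co v n + co w n := Finsupp.add_apply _ _ _

theorem co_zero (n : ℕ) : co 0 n = 0 := rfl

theorem ext_co {v w : V} (h : ∀ n, co v n = co w n) : v = w := Finsupp.ext h

theorem co_e (n m : ℕ) : co (e n) m = if n = m then 1 else 0 := by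
  classical
  exact Finsupp.single_apply

/-- Sum of a family weighted by the coordinates: `∑ₙ vₙ f(n)`. -/
def wsum (f : ℕ → ZMod 2) (v : V) : ZMod 2 := (show ℕ →₀ ZMod 2 from v).sum fun n a => a * f n

theorem wsum_add_right (f : ℕ → ZMod 2) (v w : V) : wsum f (v + w) = wsum f v + wsum f w :=
  Finsupp.sum_add_index' (fun _ => zero_mul _) (fun _ _ _ => add_mul _ _ _)

theorem wsum_zero_right (f : ℕ → ZMod 2) : wsum f 0 = 0 := Finsupp.sum_zero_index

theorem wsum_neg_right (f : ℕ → ZMod 2) (v : V) : wsum f (-v) = - wsum f v := by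
  have := wsum_add_right f (-v) v
  rw [neg_add_cancel, wsum_zero_right] at this
  exact eq_neg_of_add_eq_zero_left this.symm

theorem wsum_add_left (f g : ℕ → ZMod 2) (v : V) : wsum (f + g) v = wsum f v + wsum g v := by
  simp [wsum, Finsupp.sum, mul_add, Finset.sum_add_distrib]

theorem wsum_smul_left (a : ZMod 2) (f : ℕ → ZMod 2) (v : V) : wsum (a • f) v = a * wsum f v := by
  simp only [wsum, Finsupp.sum, Finset.mul_sum, Pi.smul_apply, smul_eq_mul]
  exact Finset.sum_congr rfl fun n _ => by ring

theorem wsum_e (f : ℕ → ZMod 2) (n : ℕ) : wsum f (e n) = f n := by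
  unfold wsum e
  rw [Finsupp.sum_single_index (zero_mul _), one_mul]

theorem continuous_wsum (v : V) : Continuous fun f : ℕ → ZMod 2 => wsum f v := by
  unfold wsum Finsupp.sum
  refine continuous_finsetSum _ fun n _ => ?_
  exact (continuous_of_discreteTopology (f := fun x : ZMod 2 => _ * x)).comp
    (continuous_apply n)

/-- An additive functional is given by its values on the unit vectors. -/
theorem wsum_eq (f : V →+ ZMod 2) (v : V) : wsum (fun n => f (e n)) v = f v := by
  have h : (⟨⟨wsum (fun n => f (e n)), wsum_zero_right _⟩, wsum_add_right _⟩ :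
      (ℕ →₀ ZMod 2) →+ ZMod 2) = (f : (ℕ →₀ ZMod 2) →+ ZMod 2) := by
    apply Finsupp.addHom_ext
    intro n a
    have ha : a = 0 ∨ a = 1 := by
      have : ∀ a : ZMod 2, a = 0 ∨ a = 1 := by decide
      exact this a
    rcases ha with rfl | rfl
    · rw [Finsupp.single_zero, map_zero, map_zero]
    · change wsum (fun n => f (e n)) (e n) = f (e n)
      rw [wsum_e]
  exact DFunLike.congr_fun h v

/-- The sum of the coordinates. -/
def sg (v : V) : ZMod 2 := wsum (fun _ => 1) v

theorem sg_add (v w : V) : sg (v + w) = sg v + sg w := wsum_add_right _ _ _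
theorem sg_zero : sg 0 = 0 := wsum_zero_right _
theorem sg_e (n : ℕ) : sg (e n) = 1 := wsum_e _ _

/-- The bilinear form `∑_{n < m} xₙ yₘ`. -/
def b0 (x y : V) : ZMod 2 := wsum (fun n => wsum (fun m => if n < m then 1 else 0) y) x

theorem b0_add_left (x x' y : V) : b0 (x + x') y = b0 x y + b0 x' y := wsum_add_right _ _ _

theorem b0_add_right (x y y' : V) : b0 x (y + y') = b0 x y + b0 x y' := by
  unfold b0
  rw [← wsum_add_left]
  congr 1
  funext n
  exact wsum_add_right _ _ _

theorem b0_zero_left (y : V) : b0 0 y = 0 := wsum_zero_right _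

theorem b0_zero_right (x : V) : b0 x 0 = 0 := by
  have := b0_add_right x 0 0
  rw [add_zero] at this
  exact left_eq_add.1 this

/-- `b0 (e k) t + b0 t (e k) = sg t - t_k`. -/
theorem b0_e (k : ℕ) (t : V) : b0 (e k) t + b0 t (e k) + co t k = sg t := by
  have h1 : b0 (e k) t = wsum (fun m => if k < m then 1 else 0) t := by
    unfold b0; rw [wsum_e]
  have h2 : b0 t (e k) = wsum (fun n => if n < k then 1 else 0) t := by
    unfold b0
    congr 1
    funext n
    rw [wsum_e]
  have h3 : co t k = wsum (fun n => if n = k then 1 else 0) t := by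
    have h := wsum_eq (⟨⟨fun v => co v k, co_zero k⟩, fun v w => co_add v w k⟩ : V →+ ZMod 2) t
    have h' : (fun n => (⟨⟨fun v => co v k, co_zero k⟩, fun v w => co_add v w k⟩ :
        V →+ ZMod 2) (e n)) = fun n => if n = k then (1 : ZMod 2) else 0 := by
      funext n
      change co (e n) k = _
      rw [co_e]
    rw [h'] at h
    exact h.symm
  rw [h1, h2, h3, ← wsum_add_left, ← wsum_add_left]
  unfold sg
  congr 1
  funext n
  simp only [Pi.add_apply]
  rcases lt_trichotomy n k with h | h | h
  · rw [if_neg (not_lt.2 h.le), if_pos h, if_neg h.ne]; simp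
  · subst h; simp
  · rw [if_pos h, if_neg (not_lt.2 h.le), if_neg h.ne']; simp

/-- The key nondegeneracy. -/
theorem key_nondeg (t : V)
    (h : ∀ x y : V, sg x * (b0 y t + b0 t y) = sg y * (b0 x t + b0 t x)) : t = 0 := by
  have h1 : ∀ k m, co t k = co t m := by
    intro k m
    have h2 := h (e k) (e m)
    rw [sg_e, sg_e, one_mul, one_mul] at h2
    have h3 := b0_e k t
    have h4 := b0_e m t
    rw [h2] at h4
    exact add_left_cancel (h3.trans h4.symm)
  apply ext_co
  intro n
  rw [co_zero]
  by_contra hne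
  have h2 : (Set.univ : Set ℕ) ⊆ ((show ℕ →₀ ZMod 2 from t).support : Set ℕ) := by
    intro m _
    refine Finset.mem_coe.2 (Finsupp.mem_support_iff.2 ?_)
    change co t m ≠ 0
    rw [h1 m n]
    exact hne
  exact Set.infinite_univ (Set.Finite.subset (Finset.finite_toSet _) h2)

/-- An infinite subgroup of `V` is carried bijectively onto `V` by some additive endomorphism. -/
theorem exists_psi (W : AddSubgroup V) (hW : Infinite W) :
    ∃ ψ : V →+ V, (∀ w ∈ W, ψ w = 0 → w = 0) ∧ ∀ x : V, ∃ w ∈ W, ψ w = x := by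
  let S : Submodule (ZMod 2) V := AddSubgroup.toZModSubmodule 2 W
  have hS : Infinite S := hW
  have hrV : Module.rank (ZMod 2) V = Cardinal.aleph0 := by
    have h1 : Module.rank (ZMod 2) (ℕ →₀ ZMod 2) = Cardinal.aleph0 := by
      rw [rank_finsupp_self']
      simp
    exact h1
  have hle : Module.rank (ZMod 2) S ≤ Cardinal.aleph0 := by
    rw [← hrV]; exact Submodule.rank_le S
  have hge : Cardinal.aleph0 ≤ Module.rank (ZMod 2) S := by
    by_contra hlt
    rw [not_le, Module.rank_lt_aleph0_iff] at hlt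
    have : Finite S := Module.finite_of_finite (ZMod 2)
    exact not_finite S
  have heq : Module.rank (ZMod 2) S = Module.rank (ZMod 2) V := by
    rw [hrV]; exact le_antisymm hle hge
  obtain ⟨ε⟩ := nonempty_linearEquiv_of_rank_eq heq
  obtain ⟨g, hg⟩ := LinearMap.exists_extend (ε : S →ₗ[ZMod 2] V)
  have hg' : ∀ w : S, g w = ε w := fun w => LinearMap.congr_fun hg w
  refine ⟨g.toAddMonoidHom, ?_, ?_⟩
  · intro w hw h0
    have h1 : ε ⟨w, hw⟩ = 0 := by rw [← hg']; exact h0
    have h2 := ε.map_eq_zero_iff.1 h1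
    exact congrArg Subtype.val h2
  · intro x
    refine ⟨(ε.symm x).1, (ε.symm x).2, ?_⟩
    have := hg' (ε.symm x)
    rw [ε.apply_symm_apply] at this
    exact this

end Pool.Agent.Q147.CMin
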