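import Mathlib
import Pool.Agent.Q147.CMinAlg

/-!
# The c-minimal group
-/

noncomputable section

namespace Pool.Agent.Q147.CMin

open Set Topology

/-- The index set: all additive endomorphisms of `V`. -/
abbrev J : Type := V →+ V

/-- `ℓ_ψ(u)`. -/
def ell (ψ : J) (u : V) : ZMod 2 := sg (ψ u)

/-- `γ_ψ(v, w)`. -/
def gam (ψ : J) (v w : V) : ZMod 2 := b0 (ψ v) (ψ w) + b0 (ψ w) (ψ v)

/-- `q_ψ(v)`. -/
def qq (ψ : J) (v : V) : ZMod 2 := b0 (ψ v) (ψ v)

/-- `γ_ψ(v, ·)` in coordinates. -/
def gamv (ψ : J) (v : V) : ℕ → ZMod 2 := fun n => gam ψ v (e n)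

theorem ell_add (ψ : J) (u v : V) : ell ψ (u + v) = ell ψ u + ell ψ v := by
  unfold ell; rw [map_add, sg_add]

theorem ell_zero (ψ : J) : ell ψ 0 = 0 := by
  unfold ell; rw [map_zero, sg_zero]

theorem gam_add_left (ψ : J) (u v w : V) : gam ψ (u + v) w = gam ψ u w + gam ψ v w := by
  unfold gam; rw [map_add, b0_add_left, b0_add_right]; ring

theorem gam_add_right (ψ : J) (u v w : V) : gam ψ u (v + w) = gam ψ u v + gam ψ u w := by
  unfold gam; rw [map_add, b0_add_left, b0_add_right]; ring

theorem gam_zero_left (ψ : J) (w : V) : gam ψ 0 w = 0 := by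
  unfold gam; rw [map_zero, b0_zero_left, b0_zero_right, add_zero]

theorem gam_zero_right (ψ : J) (w : V) : gam ψ w 0 = 0 := by
  unfold gam; rw [map_zero, b0_zero_left, b0_zero_right, add_zero]

theorem qq_add (ψ : J) (v w : V) : qq ψ (v + w) = qq ψ v + qq ψ w + gam ψ v w := by
  unfold qq gam; rw [map_add, b0_add_left, b0_add_right, b0_add_right]; ring

theorem qq_zero (ψ : J) : qq ψ 0 = 0 := by
  unfold qq; rw [map_zero, b0_zero_left]

theorem gamv_add (ψ : J) (v w : V) : gamv ψ (v + w) = gamv ψ v + gamv ψ w := by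
  funext n; exact gam_add_left _ _ _ _

theorem gamv_zero (ψ : J) : gamv ψ 0 = 0 := by
  funext n; exact gam_zero_left _ _

theorem wsum_gamv (ψ : J) (v w : V) : wsum (gamv ψ v) w = gam ψ v w :=
  wsum_eq (⟨⟨fun w => gam ψ v w, gam_zero_right ψ v⟩, fun w w' => gam_add_right ψ v w w'⟩ :
    V →+ ZMod 2) w

/-- The group. -/
@[ext] structure G where
  /-- the component in `V` -/
  v : V
  /-- the functionals -/
  χ : J → ℕ → ZMod 2
  /-- the central components -/
  z : J → ZMod 2

instance : Mul G := ⟨fun g h => ⟨g.v + h.v,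
  fun ψ => g.χ ψ + h.χ ψ + ell ψ g.v • gamv ψ h.v,
  fun ψ => g.z ψ + h.z ψ + wsum (g.χ ψ) h.v + ell ψ g.v * qq ψ h.v⟩⟩
instance : One G := ⟨⟨0, fun _ => 0, fun _ => 0⟩⟩

theorem mul_v (g h : G) : (g * h).v = g.v + h.v := rfl
theorem mul_χ (g h : G) (ψ : J) : (g * h).χ ψ = g.χ ψ + h.χ ψ + ell ψ g.v • gamv ψ h.v := rfl
theorem mul_z (g h : G) (ψ : J) :
    (g * h).z ψ = g.z ψ + h.z ψ + wsum (g.χ ψ) h.v + ell ψ g.v * qq ψ h.v := rfl
theorem one_v : (1 : G).v = 0 := rfl
theorem one_χ (ψ : J) : (1 : G).χ ψ = 0 := rfl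
theorem one_z (ψ : J) : (1 : G).z ψ = 0 := rfl

theorem wsum_zero_left (v : V) : wsum 0 v = 0 := by
  have := wsum_add_left 0 0 v
  rw [add_zero] at this
  exact left_eq_add.1 this

instance : Inv G := ⟨fun g => ⟨-g.v,
  fun ψ => -g.χ ψ - ell ψ (-g.v) • gamv ψ g.v,
  fun ψ => -g.z ψ - wsum (-g.χ ψ - ell ψ (-g.v) • gamv ψ g.v) g.v - ell ψ (-g.v) * qq ψ g.v⟩⟩

theorem inv_v (g : G) : g⁻¹.v = -g.v := rfl
theorem inv_χ (g : G) (ψ : J) : g⁻¹.χ ψ = -g.χ ψ - ell ψ (-g.v) • gamv ψ g.v := rfl
theorem inv_z (g : G) (ψ : J) : g⁻¹.z ψ =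
    -g.z ψ - wsum (-g.χ ψ - ell ψ (-g.v) • gamv ψ g.v) g.v - ell ψ (-g.v) * qq ψ g.v := rfl

instance : Group G := Group.ofLeftAxioms
  (by
    intro a b c
    ext1
    · simp only [mul_v, add_assoc]
    · funext ψ
      simp only [mul_v, mul_χ, ell_add, gamv_add, smul_add, add_smul]
      abel
    · funext ψ
      simp only [mul_v, mul_χ, mul_z, ell_add, qq_add, wsum_add_left, wsum_add_right,
        wsum_smul_left, wsum_gamv]
      ring)
  (by
    intro a
    ext1
    · exact zero_add _
    · funext ψ
      rw [mul_χ, one_χ, one_v, ell_zero, zero_smul, add_zero, zero_add]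
    · funext ψ
      rw [mul_z, one_z, one_v, one_χ, ell_zero, zero_mul, add_zero, zero_add, wsum_zero_left,
        add_zero])
  (by
    intro a
    ext1
    · exact neg_add_cancel _
    · funext ψ
      rw [mul_χ, inv_χ, inv_v, one_χ]
      abel
    · funext ψ
      rw [mul_z, inv_z, inv_v, inv_χ, one_z]
      ring)

/-- The product space underlying `G`. -/
def tup (g : G) : V × (J → ℕ → ZMod 2) × (J → ZMod 2) := (g.v, g.χ, g.z)

/-- The inverse of `tup`. -/
def untup (p : V × (J → ℕ → ZMod 2) × (J → ZMod 2)) : G := ⟨p.1, p.2.1, p.2.2⟩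

instance : TopologicalSpace G := TopologicalSpace.induced tup inferInstance

theorem continuous_tup : Continuous tup := continuous_induced_dom

theorem continuous_untup : Continuous untup := by
  rw [continuous_induced_rng]
  exact continuous_id

/-- `G` is homeomorphic to the product. -/
def homeo : G ≃ₜ V × (J → ℕ → ZMod 2) × (J → ZMod 2) where
  toFun := tup
  invFun := untup
  left_inv _ := rfl
  right_inv _ := rfl
  continuous_toFun := continuous_tup
  continuous_invFun := continuous_untup

theorem continuous_v : Continuous (fun g : G => g.v) := continuous_fst.comp continuous_tup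
theorem continuous_χ (ψ : J) : Continuous (fun g : G => g.χ ψ) :=
  (continuous_apply ψ).comp (continuous_fst.comp (continuous_snd.comp continuous_tup))
theorem continuous_z (ψ : J) : Continuous (fun g : G => g.z ψ) :=
  (continuous_apply ψ).comp (continuous_snd.comp (continuous_snd.comp continuous_tup))

instance : T2Space G := homeo.symm.t2Space

theorem continuous_wsum_pair : Continuous fun p : (ℕ → ZMod 2) × V => wsum p.1 p.2 := by
  rw [continuous_prod_of_discrete_right]
  intro v
  exact continuous_wsum v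

instance : IsTopologicalGroup G where
  continuous_mul := by
    have hv1 : Continuous fun p : G × G => p.1.v := continuous_v.comp continuous_fst
    have hv2 : Continuous fun p : G × G => p.2.v := continuous_v.comp continuous_snd
    rw [continuous_induced_rng]
    refine Continuous.prodMk ?_ (Continuous.prodMk ?_ ?_)
    · exact (continuous_of_discreteTopology (f := fun q : V × V => q.1 + q.2)).comp
        (hv1.prodMk hv2)
    · refine continuous_pi fun ψ => ?_
      have h1 : Continuous fun p : G × G => p.1.χ ψ := (continuous_χ ψ).comp continuous_fst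
      have h2 : Continuous fun p : G × G => p.2.χ ψ := (continuous_χ ψ).comp continuous_snd
      have h3 : Continuous fun p : G × G => ell ψ p.1.v • gamv ψ p.2.v :=
        (continuous_of_discreteTopology (f := fun q : V × V => ell ψ q.1 • gamv ψ q.2)).comp
          (hv1.prodMk hv2)
      exact (h1.add h2).add h3
    · refine continuous_pi fun ψ => ?_
      have h1 : Continuous fun p : G × G => p.1.z ψ := (continuous_z ψ).comp continuous_fst
      have h2 : Continuous fun p : G × G => p.2.z ψ := (continuous_z ψ).comp continuous_snd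
      have h3 : Continuous fun p : G × G => ell ψ p.1.v * qq ψ p.2.v :=
        (continuous_of_discreteTopology (f := fun q : V × V => ell ψ q.1 * qq ψ q.2)).comp
          (hv1.prodMk hv2)
      have h4 : Continuous fun p : G × G => wsum (p.1.χ ψ) p.2.v :=
        continuous_wsum_pair.comp (((continuous_χ ψ).comp continuous_fst).prodMk hv2)
      exact ((h1.add h2).add h4).add h3
  continuous_inv := by
    rw [continuous_induced_rng]
    have hχ : ∀ ψ : J, Continuous fun g : G => -g.χ ψ - ell ψ (-g.v) • gamv ψ g.v := fun ψ =>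
      (continuous_χ ψ).neg.sub
        ((continuous_of_discreteTopology (f := fun q : V => ell ψ (-q) • gamv ψ q)).comp
          continuous_v)
    refine Continuous.prodMk ?_ (Continuous.prodMk ?_ ?_)
    · exact (continuous_of_discreteTopology (f := fun q : V => -q)).comp continuous_v
    · exact continuous_pi fun ψ => hχ ψ
    · refine continuous_pi fun ψ => ?_
      have h1 : Continuous fun g : G => wsum (-g.χ ψ - ell ψ (-g.v) • gamv ψ g.v) g.v :=
        continuous_wsum_pair.comp ((hχ ψ).prodMk continuous_v)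
      have h2 : Continuous fun g : G => ell ψ (-g.v) * qq ψ g.v :=
        (continuous_of_discreteTopology (f := fun q : V => ell ψ (-q) * qq ψ q)).comp
          continuous_v
      exact ((continuous_z ψ).neg.sub h1).sub h2

/-- The compact open normal subgroup. -/
def N : Subgroup G where
  carrier := {g | g.v = 0}
  one_mem' := rfl
  mul_mem' := by
    intro a b ha hb
    change a.v + b.v = 0
    rw [show a.v = 0 from ha, show b.v = 0 from hb, add_zero]
  inv_mem' := by
    intro a ha
    change -a.v = 0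
    rw [show a.v = 0 from ha, neg_zero]

theorem mem_N {g : G} : g ∈ N ↔ g.v = 0 := Iff.rfl

instance : N.Normal where
  conj_mem := by
    intro n hn g
    rw [mem_N, mul_v, mul_v, inv_v, mem_N.1 hn, add_zero, add_neg_cancel]

theorem isOpen_N : IsOpen (N : Set G) := (isOpen_discrete {(0 : V)}).preimage continuous_v

/-- Sets of elements with `V`-component in a finite set are compact. -/
theorem isCompact_of_finite (A : Set V) (hA : A.Finite) : IsCompact {g : G | g.v ∈ A} := by
  have h1 : {g : G | g.v ∈ A} = homeo ⁻¹' (A ×ˢ univ) := by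
    ext g
    constructor
    · intro h; exact ⟨h, Set.mem_univ _⟩
    · intro h; exact h.1
  rw [h1, homeo.isCompact_preimage]
  exact hA.isCompact.prod isCompact_univ

theorem isCompact_N : IsCompact (N : Set G) := by
  have := isCompact_of_finite {0} (Set.finite_singleton 0)
  exact this

/-! ### Commutators -/

/-- The functional of the commutator `g h g⁻¹ h⁻¹`. -/
theorem comm_χ (g h : G) (ψ : J) :
    (g * h * g⁻¹ * h⁻¹).v = 0 ∧
    (g * h * g⁻¹ * h⁻¹).χ ψ = ell ψ g.v • gamv ψ h.v - ell ψ h.v • gamv ψ g.v := by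
  -- write `c = g h g⁻¹ h⁻¹`, so `c (h g) = g h`
  have hc : g * h * g⁻¹ * h⁻¹ * (h * g) = g * h := by group
  have hv : (g * h * g⁻¹ * h⁻¹).v = 0 := by
    have := congrArg G.v hc
    rw [mul_v _ (h * g), mul_v h g, mul_v g h, add_comm h.v g.v] at this
    exact add_eq_right.1 this
  refine ⟨hv, ?_⟩
  have h1 : (g * h * g⁻¹ * h⁻¹ * (h * g)).χ ψ = (g * h).χ ψ := by rw [hc]
  rw [mul_χ _ (h * g), hv, ell_zero, zero_smul, add_zero, mul_χ h g, mul_χ g h] at h1
  rw [eq_sub_iff_add_eq]
  have h2 := h1
  have h3 : ∀ c a b s t : ℕ → ZMod 2, c + (a + b + s) = b + a + t → c + s = t := by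
    intro c a b s t h
    have : (b + a) + (c + s) = (b + a) + t := by rw [← h]; abel
    exact add_left_cancel this
  exact h3 _ _ _ _ _ h2

/-- The commutator with an element of `N`. -/
theorem comm_z (g n : G) (hn : n.v = 0) (ψ : J) :
    (g * n * g⁻¹ * n⁻¹).z ψ = - wsum (n.χ ψ) g.v := by
  have hc : g * n * g⁻¹ * n⁻¹ * (n * g) = g * n := by group
  obtain ⟨hv, hχ⟩ := comm_χ g n ψ
  rw [hn, gamv_zero, ell_zero, smul_zero, zero_smul, sub_zero] at hχ
  have h1 : (g * n * g⁻¹ * n⁻¹ * (n * g)).z ψ = (g * n).z ψ := by rw [hc]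
  rw [mul_z _ (n * g), hv, hχ, ell_zero, zero_mul, add_zero, wsum_zero_left, add_zero,
    mul_z n g, mul_z g n, hn, ell_zero, zero_mul, add_zero, wsum_zero_right, qq_zero, mul_zero,
    add_zero, add_zero] at h1
  have h3 : ∀ c a b s : ZMod 2, c + (a + b + s) = b + a → c = -s := by
    intro c a b s h
    have : c + s = 0 := by
      have h5 : (b + a) + (c + s) = c + (a + b + s) := by ring
      have h4 : (b + a) + (c + s) = (b + a) + 0 := by rw [h5, h, add_zero]
      exact add_left_cancel h4
    exact eq_neg_of_add_eq_zero_left this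
  exact h3 _ _ _ _ h1

end Pool.Agent.Q147.CMin
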