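import Mathlib

/-!
# Orbit equivalence relations of countable groups on the Cantor space: finite orbits
-/

namespace Pool.Agent.Q147.CAR

open Set Topology Filter

/-- the Cantor space has no isolated points -/
theorem cantor_infinite (x : ℕ → Bool) {U : Set (ℕ → Bool)} (hU : U ∈ 𝓝 x) : U.Infinite := by
  classical
  -- the points that differ from `x` in one far place
  let y : ℕ → (ℕ → Bool) := fun n => Function.update x n (!x n)
  have hy : Tendsto y atTop (𝓝 x) := by
    rw [tendsto_pi_nhds]
    intro m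
    refine tendsto_const_nhds.congr' ?_
    filter_upwards [eventually_gt_atTop m] with n hn
    simp [y, Function.update_of_ne hn.ne]
  have hinj : Function.Injective y := by
    intro a b hab
    by_contra hne
    have h1 := congrFun hab a
    simp [y, Function.update_of_ne hne] at h1
  obtain ⟨N, hN⟩ := (eventually_atTop.1 (hy.eventually hU))
  have h2 : (y '' Set.Ici N).Infinite := (Set.Ici_infinite N).image hinj.injOn
  refine h2.mono ?_
  rintro _ ⟨n, hn, rfl⟩
  exact hN n hn

section
variable {G C : Type} [Group G] [MulAction G C] [TopologicalSpace C] [T2Space C] [CompactSpace C]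

/-- near a point with a finite orbit all orbits stay near this orbit, if all the other orbits have
exactly `l` points -/
theorem orbit_near (hc : ∀ g : G, Continuous fun x : C => g • x) {z : C} {l : ℕ}
    (hz : (MulAction.orbit G z).Finite)
    (hl : ∀ y, y ∉ MulAction.orbit G z → (MulAction.orbit G y).Finite ∧
      (MulAction.orbit G y).ncard = l)
    {V : Set C} (hV : IsOpen V) (hzV : MulAction.orbit G z ⊆ V) :
    ∃ U ∈ 𝓝 z, ∀ y ∈ U, MulAction.orbit G y ⊆ V := by
  have hK : IsCompact Vᶜ := hV.isClosed_compl.isCompact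
  have key : ∃ U ∈ 𝓝 z, ∀ y ∈ U, ∀ w ∈ Vᶜ, w ∉ MulAction.orbit G y := by
    refine hK.induction_on (p := fun s => ∃ U ∈ 𝓝 z, ∀ y ∈ U, ∀ w ∈ s, w ∉ MulAction.orbit G y)
      ⟨univ, univ_mem, by simp⟩ ?_ ?_ ?_
    · rintro s t hst ⟨U, hU, h⟩
      exact ⟨U, hU, fun y hy w hw => h y hy w (hst hw)⟩
    · rintro s t ⟨U, hU, h⟩ ⟨U', hU', h'⟩
      refine ⟨U ∩ U', inter_mem hU hU', fun y hy w hw => ?_⟩
      rcases hw with hw | hw
      · exact h y hy.1 w hw
      · exact h' y hy.2 w hw
    · intro w hw
      have hwz : w ∉ MulAction.orbit G z := fun h => hw (hzV h)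
      obtain ⟨hfin, hcard⟩ := hl w hwz
      obtain ⟨W, hW1, hW2⟩ := (hfin.union (Set.finite_singleton z)).t2_separation
      -- the elements moving `w` to the points of its orbit
      have hch : ∀ v : MulAction.orbit G w, ∃ g : G, g • w = v.1 := fun v => v.2
      choose h hh using hch
      have hfin' : Finite (MulAction.orbit G w) := hfin
      let N : Set C := (⋂ v : MulAction.orbit G w, {u | h v • u ∈ W v.1}) ∩
        (MulAction.orbit G z)ᶜ
      have hN : N ∈ 𝓝 w := by
        refine inter_mem ?_ ?_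
        · refine (Filter.iInter_mem).2 fun v => ?_
          refine ((hW1 v.1).2.preimage (hc (h v))).mem_nhds ?_
          change h v • w ∈ W v.1
          rw [hh v]
          exact (hW1 v.1).1
        · exact hz.isClosed.isOpen_compl.mem_nhds hwz
      refine ⟨N, mem_nhdsWithin_of_mem_nhds hN, W z, (hW1 z).2.mem_nhds (hW1 z).1, ?_⟩
      rintro y hy u ⟨hu1, hu2⟩ huy
      -- the orbit of `u` consists of the points `h v • u`
      obtain ⟨hfu, hcu⟩ := hl u hu2
      have hinj : Function.Injective fun v : MulAction.orbit G w => h v • u := by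
        intro v v' hvv
        by_contra hne
        have hd := hW2 (Or.inl v.2) (Or.inl v'.2) (fun h => hne (Subtype.ext h))
        rw [Set.mem_iInter] at hu1
        have e1 : h v • u ∈ W v.1 := hu1 v
        have e2 : h v' • u ∈ W v'.1 := hu1 v'
        simp only at hvv
        rw [← hvv] at e2
        exact (Set.disjoint_left.1 hd e1) e2
      have hrange : (Set.range fun v : MulAction.orbit G w => h v • u) = MulAction.orbit G u := by
        refine Set.eq_of_subset_of_ncard_le ?_ ?_ hfu
        · rintro _ ⟨v, rfl⟩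
          exact ⟨h v, rfl⟩
        · rw [hcu, ← hcard, ← Set.image_univ, Set.ncard_image_of_injective _ hinj,
            Set.ncard_univ, Nat.card_coe_set_eq]
      have hyu : y ∈ MulAction.orbit G u := by
        rwa [MulAction.mem_orbit_symm]
      rw [← hrange] at hyu
      obtain ⟨v, hv⟩ := hyu
      simp only at hv
      rw [Set.mem_iInter] at hu1
      have e1 : h v • u ∈ W v.1 := hu1 v
      rw [hv] at e1
      have hne : v.1 ≠ z := by
        intro h
        apply hwz
        rw [MulAction.mem_orbit_symm, ← h]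
        exact v.2
      exact (Set.disjoint_left.1 (hW2 (Or.inl v.2) (Or.inr rfl) hne) e1) hy
  obtain ⟨U, hU, h⟩ := key
  refine ⟨U, hU, fun y hy w hw => ?_⟩
  by_contra hwV
  exact h y hy w hwV hw

/-- the size of the orbits near an orbit of size `k` is divisible by `k` -/
theorem dvd_of_orbits (hc : ∀ g : G, Continuous fun x : C => g • x) {z : C} {l : ℕ}
    (hz : (MulAction.orbit G z).Finite)
    (hl : ∀ y, y ∉ MulAction.orbit G z → (MulAction.orbit G y).Finite ∧
      (MulAction.orbit G y).ncard = l)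
    (hacc : ∀ U ∈ 𝓝 z, U.Infinite) :
    (MulAction.orbit G z).ncard ∣ l := by
  classical
  obtain ⟨W, hW1, hW2⟩ := hz.t2_separation
  have hch : ∀ v : MulAction.orbit G z, ∃ g : G, g • z = v.1 := fun v => v.2
  choose h hh using hch
  have hfin' : Finite (MulAction.orbit G z) := hz
  let U0 : Set C := ⋂ v : MulAction.orbit G z, {u | h v • u ∈ W v.1}
  have hU0 : IsOpen U0 := isOpen_iInter_of_finite fun v => (hW1 v.1).2.preimage (hc (h v))
  have hzU : z ∈ U0 := by
    rw [Set.mem_iInter]
    intro v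
    change h v • z ∈ W v.1
    rw [hh v]
    exact (hW1 v.1).1
  let V : Set C := ⋃ v : MulAction.orbit G z, {u | (h v)⁻¹ • u ∈ U0}
  have hV : IsOpen V := isOpen_iUnion fun v => hU0.preimage (hc (h v)⁻¹)
  have hzV : MulAction.orbit G z ⊆ V := by
    intro v hv
    rw [Set.mem_iUnion]
    refine ⟨⟨v, hv⟩, ?_⟩
    change (h ⟨v, hv⟩)⁻¹ • v ∈ U0
    have : v = h ⟨v, hv⟩ • z := (hh ⟨v, hv⟩).symm
    rw [inv_smul_eq_iff.2 this]
    exact hzU
  obtain ⟨U', hU', hU2⟩ := orbit_near hc hz hl hV hzV
  obtain ⟨y, hy1, hy2⟩ := ((hacc U' hU').sdiff hz).nonempty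
  obtain ⟨hfy, hcy⟩ := hl y hy2
  have hyV := hU2 y hy1
  let A : Set C := MulAction.orbit G y ∩ U0
  have : Nonempty (MulAction.orbit G z × A ≃ MulAction.orbit G y) := by
    refine ⟨Equiv.ofBijective
      (fun p => ⟨h p.1 • p.2.1, MulAction.mem_orbit_of_mem_orbit (h p.1) p.2.2.1⟩) ⟨?_, ?_⟩⟩
    · rintro ⟨v, a⟩ ⟨v', a'⟩ hp
      have hp' : h v • a.1 = h v' • a'.1 := congrArg Subtype.val hp
      have ha : h v • a.1 ∈ W v.1 := (Set.mem_iInter.1 a.2.2) v
      have ha' : h v' • a'.1 ∈ W v'.1 := (Set.mem_iInter.1 a'.2.2) v'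
      have hvv : v = v' := by
        by_contra hne
        have hd := hW2 v.2 v'.2 (fun h => hne (Subtype.ext h))
        rw [← hp'] at ha'
        exact (Set.disjoint_left.1 hd ha) ha'
      subst hvv
      have : a.1 = a'.1 := smul_left_cancel _ hp'
      rw [Subtype.ext this]
    · rintro ⟨w, hw⟩
      obtain ⟨v, hv⟩ := Set.mem_iUnion.1 (hyV hw)
      refine ⟨⟨v, ⟨(h v)⁻¹ • w, MulAction.mem_orbit_of_mem_orbit _ hw, hv⟩⟩, ?_⟩
      simp
  obtain ⟨e⟩ := this
  have hcard := Nat.card_congr e
  rw [Nat.card_prod, Nat.card_coe_set_eq, Nat.card_coe_set_eq, Nat.card_coe_set_eq, hcy] at hcard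
  exact ⟨A.ncard, hcard.symm⟩

end

end Pool.Agent.Q147.CAR
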