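import Mathlib

/-!
# Free topological groups over `ω`-narrow uniform spaces and the Tukey order: tools

A combinatorial fusion lemma for functions with countable support, an `ω`-narrow uniform space on
the disjoint union of an uncountable set and the natural numbers, and a family of homomorphisms
from its free group to a metrizable matrix group.
-/

namespace Pool.Agent.Q147.FreeTukey

open Set Filter Topology

/-! ### Fusion -/

section Fusion

/-- A function with countable domain. -/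
structure Cond (T : Type) where
  dom : Set T
  ctbl : dom.Countable
  val : T → ℕ
  off : ∀ t, t ∉ dom → val t = 0

variable {T : Type}

def Ext (q p : Cond T) : Prop := q.dom ⊆ p.dom ∧ ∀ t ∈ q.dom, p.val t = q.val t

theorem Ext.refl (q : Cond T) : Ext q q := ⟨subset_rfl, fun _ _ => rfl⟩

theorem Ext.trans {a b c : Cond T} (h : Ext a b) (h' : Ext b c) : Ext a c :=
  ⟨h.1.trans h'.1, fun t ht => (h'.2 t (h.1 ht)).trans (h.2 t ht)⟩

theorem ext_of_le (r : ℕ → Cond T) (h : ∀ n, Ext (r n) (r (n + 1))) {m n : ℕ} (hmn : m ≤ n) :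
    Ext (r m) (r n) := by
  induction n, hmn using Nat.le_induction with
  | base => exact Ext.refl _
  | succ n _ ih => exact ih.trans (h n)

open Classical in
theorem exists_union (r : ℕ → Cond T) (h : ∀ n, Ext (r n) (r (n + 1))) :
    ∃ s : Cond T, ∀ n, Ext (r n) s := by
  refine ⟨⟨⋃ n, (r n).dom, countable_iUnion fun n => (r n).ctbl,
    fun t => if H : ∃ n, t ∈ (r n).dom then (r (Nat.find H)).val t else 0, ?_⟩, ?_⟩
  · intro t ht
    rw [dif_neg]
    rintro ⟨n, hn⟩
    exact ht (mem_iUnion.2 ⟨n, hn⟩)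
  · intro n
    refine ⟨subset_iUnion (fun n => (r n).dom) n, ?_⟩
    intro t ht
    have H : ∃ n, t ∈ (r n).dom := ⟨n, ht⟩
    change (if H : ∃ n, t ∈ (r n).dom then (r (Nat.find H)).val t else 0) = _
    rw [dif_pos H]
    exact ((ext_of_le r h (Nat.find_min' H ht)).2 t (Nat.find_spec H)).symm

theorem step (φ : Cond T → ℕ) (D : Set (Cond T)) (q : Cond T)
    (hD : ∀ q', Ext q q' → ∃ p, Ext q' p ∧ p ∈ D) :
    ∃ m q', Ext q q' ∧ ∀ q'', Ext q' q'' → ∃ p, Ext q'' p ∧ p ∈ D ∧ φ p = m := by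
  by_contra! H
  have H' : ∀ m q', Ext q q' → ∃ q'', Ext q' q'' ∧ ∀ p, Ext q'' p → p ∈ D → φ p ≠ m :=
    fun m q' h => H m q' h
  choose! nx hnx hnx' using H'
  let r : ℕ → Cond T := fun n => Nat.rec q (fun n s => nx n s) n
  have hr : ∀ n, Ext q (r n) ∧ Ext (r n) (r (n + 1)) := by
    intro n
    induction n with
    | zero => exact ⟨Ext.refl _, hnx 0 q (Ext.refl _)⟩
    | succ n ih =>
      have h1 : Ext q (r (n + 1)) := ih.1.trans ih.2
      exact ⟨h1, hnx (n + 1) (r (n + 1)) h1⟩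
  obtain ⟨s, hs⟩ := exists_union r fun n => (hr n).2
  obtain ⟨p, hp, hpD⟩ := hD s ((hr 0).1.trans (hs 0))
  exact hnx' (φ p) (r (φ p)) (hr _).1 p ((hs (φ p + 1)).trans hp) hpD rfl

theorem fusion [Uncountable T] (φ : Cond T → ℕ → ℕ) :
    ∃ (ξ : T) (p : ℕ → Cond T) (g : ℕ → ℕ), (∀ k, (p k).val ξ = k) ∧ ∀ k i, φ (p k) i ≤ g i := by
  classical
  -- dense conditions
  let Dn : ℕ → Cond T → (ℕ → ℕ) → Prop := fun n q g =>
    ∀ q', Ext q q' → ∃ p, Ext q' p ∧ ∀ i < n, φ p i = g i
  have hstep : ∀ n (q : Cond T) (g : ℕ → ℕ), Dn n q g →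
      ∃ (q' : Cond T) (g' : ℕ → ℕ), Ext q q' ∧ (∀ i < n, g' i = g i) ∧ Dn (n + 1) q' g' := by
    intro n q g hq
    obtain ⟨m, q', hqq', h⟩ := step (fun p => φ p n) {p | ∀ i < n, φ p i = g i} q hq
    refine ⟨q', Function.update g n m, hqq', ?_, ?_⟩
    · intro i hi
      exact Function.update_of_ne hi.ne _ _
    · intro q'' hq''
      obtain ⟨p, hp, hpD, hpm⟩ := h q'' hq''
      refine ⟨p, hp, ?_⟩
      intro i hi
      rcases Nat.lt_succ_iff_lt_or_eq.1 hi with hi | rfl
      · rw [Function.update_of_ne hi.ne]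
        exact hpD i hi
      · rw [Function.update_self]
        exact hpm
  choose! nq ng h1 h2 h3 using hstep
  let e : Cond T := ⟨∅, countable_empty, fun _ => 0, fun _ _ => rfl⟩
  let st : ℕ → Cond T × (ℕ → ℕ) := fun n =>
    Nat.rec (e, fun _ => 0) (fun n s => (nq n s.1 s.2, ng n s.1 s.2)) n
  have hst : ∀ n, Dn n (st n).1 (st n).2 := by
    intro n
    induction n with
    | zero =>
      intro q' _
      exact ⟨q', Ext.refl _, fun i hi => absurd hi (Nat.not_lt_zero i)⟩
    | succ n ih => exact h3 n _ _ ih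
  have hE : ∀ n, Ext (st n).1 (st (n + 1)).1 := fun n => h1 n _ _ (hst n)
  have hg : ∀ n, ∀ i < n, (st (n + 1)).2 i = (st n).2 i := fun n => h2 n _ _ (hst n)
  have hg' : ∀ n m, n ≤ m → ∀ i < n, (st m).2 i = (st n).2 i := by
    intro n m hnm i hi
    induction m, hnm using Nat.le_induction with
    | base => rfl
    | succ m hm ih => exact (hg m i (lt_of_lt_of_le hi hm)).trans ih
  obtain ⟨s, hs⟩ := exists_union (fun n => (st n).1) hE
  obtain ⟨ξ, hξ⟩ : ∃ ξ, ξ ∉ s.dom := by
    by_contra! hcon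
    have : (univ : Set T).Countable := s.ctbl.mono fun t _ => hcon t
    exact not_countable_univ this
  -- extend `s` by the value `k` at `ξ`
  have hext : ∀ k : ℕ, ∃ p : Cond T, Ext s p ∧ ξ ∈ p.dom ∧ p.val ξ = k := by
    intro k
    refine ⟨⟨insert ξ s.dom, s.ctbl.insert ξ, Function.update s.val ξ k, ?_⟩, ⟨?_, ?_⟩, ?_, ?_⟩
    · intro t ht
      rw [mem_insert_iff, not_or] at ht
      rw [Function.update_of_ne ht.1]
      exact s.off t ht.2
    · exact subset_insert _ _
    · intro t ht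
      have : t ≠ ξ := fun h => hξ (h ▸ ht)
      exact Function.update_of_ne this _ _
    · exact mem_insert _ _
    · change Function.update s.val ξ k ξ = k
      rw [Function.update_self]
  choose s' hs' hξ' hval using hext
  have hp : ∀ k, ∃ p, Ext (s' k) p ∧ ∀ i < k, φ p i = (st k).2 i := fun k =>
    hst k (s' k) ((hs k).trans (hs' k))
  choose p hp1 hp2 using hp
  refine ⟨ξ, p, fun i => (st (i + 1)).2 i + ∑ k ∈ Finset.range (i + 1), φ (p k) i, ?_, ?_⟩
  · intro k
    rw [(hp1 k).2 ξ (hξ' k), hval k]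
  · intro k i
    rcases lt_or_ge i k with hik | hki
    · rw [hp2 k i hik, hg' (i + 1) k hik i (Nat.lt_succ_self i)]
      exact Nat.le_add_right _ _
    · have : φ (p k) i ≤ ∑ k ∈ Finset.range (i + 1), φ (p k) i :=
        Finset.single_le_sum (f := fun k => φ (p k) i) (fun _ _ => Nat.zero_le _)
          (Finset.mem_range.2 (Nat.lt_succ_of_le hki))
      exact this.trans (Nat.le_add_left _ _)

end Fusion

/-! ### The uniform space -/

/-- The disjoint union of `T` and `ℕ`. -/
inductive Pt (T : Type) where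
  | left (t : T)
  | nat (n : ℕ)

/-- The filter of sets with countable complement in `T` and finite complement in `ℕ`. -/
def bigF (T : Type) : Filter (Pt T) where
  sets := {F | {t | Pt.left t ∉ F}.Countable ∧ {n : ℕ | Pt.nat n ∉ F}.Finite}
  univ_sets := by
    refine ⟨?_, ?_⟩
    · convert countable_empty using 1
      ext; simp
    · convert finite_empty using 1
      ext; simp
  sets_of_superset := by
    rintro F G ⟨h1, h2⟩ h
    exact ⟨h1.mono fun t ht hF => ht (h hF), h2.subset fun t ht hF => ht (h hF)⟩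
  inter_sets := by
    rintro F G ⟨h1, h2⟩ ⟨h3, h4⟩
    refine ⟨(h1.union h3).mono ?_, (h2.union h4).subset ?_⟩
    · intro t ht
      by_contra hcon
      rw [mem_union, not_or] at hcon
      exact ht ⟨not_not.1 hcon.1, not_not.1 hcon.2⟩
    · intro t ht
      by_contra hcon
      rw [mem_union, not_or] at hcon
      exact ht ⟨not_not.1 hcon.1, not_not.1 hcon.2⟩

theorem mem_bigF {T : Type} {F : Set (Pt T)} :
    F ∈ bigF T ↔ {t | Pt.left t ∉ F}.Countable ∧ {n : ℕ | Pt.nat n ∉ F}.Finite := Iff.rfl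

/-- the equivalence relation whose only nontrivial class is `F` -/
def ent {X : Type} (F : Set X) : Set (X × X) := {p | p.1 = p.2 ∨ (p.1 ∈ F ∧ p.2 ∈ F)}

theorem ent_mono {X : Type} {F G : Set X} (h : F ⊆ G) : ent F ⊆ ent G := by
  rintro p (hp | hp)
  · exact Or.inl hp
  · exact Or.inr ⟨h hp.1, h hp.2⟩

/-- the filter generated by the relations `ent F`, `F ∈ f` -/
def entF {X : Type} (f : Filter X) : Filter (X × X) where
  sets := {U | ∃ F ∈ f, ent F ⊆ U}
  univ_sets := ⟨univ, univ_mem, subset_univ _⟩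
  sets_of_superset := by
    rintro U V ⟨F, hF, h⟩ hUV
    exact ⟨F, hF, h.trans hUV⟩
  inter_sets := by
    rintro U V ⟨F, hF, h⟩ ⟨G, hG, h'⟩
    exact ⟨F ∩ G, inter_mem hF hG,
      subset_inter ((ent_mono inter_subset_left).trans h) ((ent_mono inter_subset_right).trans h')⟩

theorem mem_entF {X : Type} {f : Filter X} {U : Set (X × X)} :
    U ∈ entF f ↔ ∃ F ∈ f, ent F ⊆ U := Iff.rfl

/-- The uniformity on `X` generated by the relations `ent F`, `F ∈ f`. -/
@[instance_reducible]
def unif {X : Type} (f : Filter X) : UniformSpace X := UniformSpace.ofCore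
  (UniformSpace.Core.mk' (entF f)
    (by
      rintro U ⟨F, hF, h⟩ x
      exact h (Or.inl rfl))
    (by
      rintro U ⟨F, hF, h⟩
      refine ⟨F, hF, ?_⟩
      rintro ⟨x, y⟩ (hp | hp)
      · exact h (Or.inl (Eq.symm hp))
      · exact h (Or.inr ⟨hp.2, hp.1⟩))
    (by
      rintro U ⟨F, hF, h⟩
      refine ⟨ent F, ⟨F, hF, subset_rfl⟩, ?_⟩
      rintro ⟨x, z⟩ ⟨y, hxy, hyz⟩
      apply h
      have hxy' : x = y ∨ (x ∈ F ∧ y ∈ F) := hxy
      have hyz' : y = z ∨ (y ∈ F ∧ z ∈ F) := hyz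
      rcases hxy' with rfl | hxy'
      · exact hyz'
      · rcases hyz' with rfl | hyz'
        · exact Or.inr hxy'
        · exact Or.inr ⟨hxy'.1, hyz'.2⟩))

theorem mem_unif {X : Type} {f : Filter X} {U : Set (X × X)} :
    U ∈ @uniformity X (unif f) ↔ ∃ F ∈ f, ent F ⊆ U := Iff.rfl

end Pool.Agent.Q147.FreeTukey
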