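import Mathlib

/-!
# Null-finite sets and the set `∏ C_n^*` in `∏ C_n`
-/

noncomputable section

namespace Pool.Agent.Q147.NF

open Set Filter Topology MeasureTheory

/-- `A` is null-finite: there is a null-sequence `(x k)` such that for every `a` only finitely many
`k` satisfy `a + x k ∈ A`. -/
def NullFinite {X : Type} [AddCommGroup X] [TopologicalSpace X] (A : Set X) : Prop :=
  ∃ x : ℕ → X, Tendsto x atTop (𝓝 0) ∧ ∀ a : X, {k | a + x k ∈ A}.Finite

/-- `∏_{n ≥ 2} C_n`; the factor with index `n` is `ℤ/(n+2)`. -/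
abbrev X0 : Type := (n : ℕ) → ZMod (n + 2)

/-- `∏_{n ≥ 2} C_n^*`. -/
def A0 : Set X0 := {x | ∀ n, x n ≠ 0}

/-- The probability space. -/
abbrev Om : Type := (l : ℕ) → ZMod (l + 2)

/-- The uniform measure. -/
def unif (l : ℕ) : Measure (ZMod (l + 2)) := ((l : ENNReal) + 2)⁻¹ • Measure.count

theorem unif_singleton (l : ℕ) (a : ZMod (l + 2)) : unif l {a} = ((l : ENNReal) + 2)⁻¹ := by
  simp [unif]

instance (l : ℕ) : IsProbabilityMeasure (unif l) := by
  constructor
  have h1 : (Measure.count : Measure (ZMod (l + 2))) univ = (l : ENNReal) + 2 := by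
    rw [Measure.count_apply MeasurableSet.univ, Set.encard_univ, ENat.card_eq_coe_fintype_card,
      ZMod.card]
    simp
  rw [unif, Measure.smul_apply, h1, smul_eq_mul]
  refine ENNReal.inv_mul_cancel ?_ ?_
  · simp
  · exact ENNReal.add_ne_top.2 ⟨ENNReal.natCast_ne_top l, by simp⟩

theorem unif_map (l : ℕ) : (unif l).map (fun a => a + 1) = unif l := by
  rw [Measure.ext_iff_singleton]
  intro a
  rw [Measure.map_apply (measurable_of_finite _) (measurableSet_singleton a)]
  have : (fun a : ZMod (l + 2) => a + 1) ⁻¹' {a} = {a - 1} := by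
    ext b
    exact (eq_sub_iff_add_eq).symm
  rw [this, unif_singleton, unif_singleton]

/-- The product probability. -/
def P : Measure Om := Measure.infinitePi unif

instance : IsProbabilityMeasure P := by unfold P; infer_instance

theorem P_singleton (l : ℕ) (a : ZMod (l + 2)) : P {ω | ω l = a} = ((l : ENNReal) + 2)⁻¹ := by
  have h1 : (Measure.infinitePi unif).map (fun ω : Om => ω l) = unif l :=
    Measure.infinitePi_map_eval unif l
  have h2 : ((Measure.infinitePi unif).map (fun ω : Om => ω l)) {a} = unif l {a} := by rw [h1]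
  rw [Measure.map_apply (measurable_pi_apply l) (measurableSet_singleton a), unif_singleton] at h2
  exact h2

/-- Shift of one coordinate. -/
def shift (l : ℕ) (ω : Om) : Om := fun j => if j = l then ω j + 1 else ω j

theorem P_shift (l : ℕ) : P.map (shift l) = P := by
  have h1 := Measure.infinitePi_map_pi (μ := unif)
    (f := fun j => if j = l then (fun a : ZMod (j + 2) => a + 1) else id)
    (fun j => by exact measurable_of_finite _)
  have h2 : (fun (ω : Om) (j : ℕ) =>
      (if j = l then (fun a : ZMod (j + 2) => a + 1) else id) (ω j)) = shift l := by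
    funext ω j
    unfold shift
    split_ifs <;> rfl
  have h3 : (fun j => (unif j).map (if j = l then (fun a : ZMod (j + 2) => a + 1) else id)) =
      unif := by
    funext j
    split_ifs
    · exact unif_map j
    · exact Measure.map_id
  rw [h2] at h1
  unfold P
  rw [h1]
  congr 1

theorem measurable_shift (l : ℕ) : Measurable (shift l) := by
  refine measurable_pi_iff.2 fun j => ?_
  unfold shift
  split_ifs
  · exact (measurable_of_finite (fun a : ZMod (j + 2) => a + 1)).comp (measurable_pi_apply j)
  · exact measurable_pi_apply j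

/-! ### The random element -/

section

variable (z : ℕ → X0) (hz : ∀ l n, n + 2 ≤ (l + 2).factorial → z l n = 0) (y : X0)

/-- The random element of `X0`. -/
def Y (ω : Om) : X0 := fun n => y n + ∑ l ∈ Finset.range (n + 1), (ω l).val • z l n

theorem measurable_Y : Measurable (Y z y) := by
  refine measurable_pi_iff.2 fun n => ?_
  have h1 : Measurable fun ω : Om => fun l : Finset.range (n + 1) => ω l :=
    measurable_pi_iff.2 fun l => measurable_pi_apply _
  have h2 : (fun ω : Om => Y z y ω n) =
      (fun a : (l : Finset.range (n + 1)) → ZMod ((l : ℕ) + 2) =>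
        y n + ∑ l ∈ (Finset.range (n + 1)).attach, (a l).val • z l n) ∘
      fun ω : Om => fun l : Finset.range (n + 1) => ω l := by
    funext ω
    simp only [Function.comp]
    rw [Finset.sum_attach (Finset.range (n + 1)) (fun l => (ω l).val • z l n)]
    rfl
  rw [h2]
  exact (measurable_of_finite _).comp h1

include hz in
theorem Y_shift (l : ℕ) (ω : Om) (hω : ω l ≠ -1) : Y z y (shift l ω) = Y z y ω + z l := by
  have hval : (ω l + 1).val = (ω l).val + 1 := by
    have h1 : ((1 : ZMod (l + 2))).val = 1 := by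
      have : Fact (1 < l + 2) := ⟨by omega⟩
      exact ZMod.val_one (l + 2)
    have h2 : (ω l).val + (1 : ZMod (l + 2)).val < l + 2 := by
      rw [h1]
      have h3 := ZMod.val_lt (ω l)
      rcases Nat.lt_or_ge ((ω l).val + 1) (l + 2) with h | h
      · exact h
      · exfalso
        apply hω
        have h4 : (ω l).val + 1 = l + 2 := by omega
        have h5 : ω l + 1 = 0 := by
          rw [← ZMod.natCast_zmod_val (ω l), ← Nat.cast_one, ← Nat.cast_add, h4]
          exact ZMod.natCast_self (l + 2)
        exact eq_neg_of_add_eq_zero_left h5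
    rw [ZMod.val_add_of_lt h2, h1]
  funext n
  change y n + ∑ j ∈ Finset.range (n + 1), (shift l ω j).val • z j n =
    y n + ∑ j ∈ Finset.range (n + 1), (ω j).val • z j n + z l n
  rw [add_assoc]
  congr 1
  by_cases hl : l ∈ Finset.range (n + 1)
  · rw [← Finset.add_sum_erase _ _ hl, ← Finset.add_sum_erase _ _ hl]
    have h6 : ∑ j ∈ (Finset.range (n + 1)).erase l, (shift l ω j).val • z j n =
        ∑ j ∈ (Finset.range (n + 1)).erase l, (ω j).val • z j n := by
      refine Finset.sum_congr rfl fun j hj => ?_
      have : shift l ω j = ω j := if_neg (Finset.ne_of_mem_erase hj)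
      rw [this]
    have h7 : shift l ω l = ω l + 1 := if_pos rfl
    rw [h6, h7, hval, succ_nsmul]
    abel
  · have h6 : z l n = 0 := by
      apply hz
      have h7 : n + 1 ≤ l := by simpa using hl
      have h8 := Nat.self_le_factorial (l + 2)
      omega
    rw [h6, add_zero]
    refine Finset.sum_congr rfl fun j hj => ?_
    have : shift l ω j = ω j := if_neg (by rintro rfl; exact hl hj)
    rw [this]

include hz in
/-- The measure of a set changes little under the translation by `z l`. -/
theorem measure_le (B : Set X0) (hB : MeasurableSet B) (l : ℕ) :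
    P (Y z y ⁻¹' B) ≤ P {ω | Y z y ω + z l ∈ B} + ((l : ENNReal) + 2)⁻¹ := by
  have hY := measurable_Y z y
  have h1 : P (Y z y ⁻¹' B) = P (shift l ⁻¹' (Y z y ⁻¹' B)) := by
    conv_lhs => rw [← P_shift l]
    rw [Measure.map_apply (measurable_shift l) (hY hB)]
  rw [h1]
  have h2 : shift l ⁻¹' (Y z y ⁻¹' B) ⊆ {ω | Y z y ω + z l ∈ B} ∪ {ω | ω l = -1} := by
    intro ω hω
    by_cases h : ω l = -1
    · exact Or.inr h
    · left
      change Y z y ω + z l ∈ B
      rw [← Y_shift z hz y l ω h]
      exact hω
  refine (measure_mono h2).trans ((measure_union_le _ _).trans ?_)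
  rw [P_singleton]

/-- The values of the random sum at a coordinate do not exhaust the group. -/
theorem exists_avoid (n : ℕ) (w : ℕ → ZMod (n + 2))
    (hw : ∀ l, n + 2 ≤ (l + 2).factorial → w l = 0) :
    ∃ c : ZMod (n + 2), ∀ ω : Om, c + ∑ l ∈ Finset.range (n + 1), (ω l).val • w l ≠ 0 := by
  classical
  have hex : ∃ m, n + 2 ≤ (m + 2).factorial := ⟨n, Nat.self_le_factorial (n + 2)⟩
  let m := Nat.find hex
  have hm : n + 2 ≤ (m + 2).factorial := Nat.find_spec hex
  have hmn : m ≤ n + 1 := (Nat.find_min' hex (Nat.self_le_factorial (n + 2))).trans (Nat.le_succ n)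
  -- only the first `m` terms matter
  have hsum : ∀ ω : Om, ∑ l ∈ Finset.range (n + 1), (ω l).val • w l =
      ∑ l ∈ Finset.range m, (ω l).val • w l := by
    intro ω
    symm
    refine Finset.sum_subset (Finset.range_subset_range.2 hmn) ?_
    intro l _ hl
    have h1 : m ≤ l := by simpa using hl
    rw [hw l (hm.trans (Nat.factorial_le (by omega))), smul_zero]
  let g : ((l : Fin m) → ZMod ((l : ℕ) + 2)) → ZMod (n + 2) :=
    fun a => - ∑ l : Fin m, (a l).val • w l
  have hcard : Fintype.card ((l : Fin m) → ZMod ((l : ℕ) + 2)) < Fintype.card (ZMod (n + 2)) := by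
    rw [ZMod.card, Fintype.card_pi]
    have h1 : ∏ l : Fin m, Fintype.card (ZMod ((l : ℕ) + 2)) = (m + 1).factorial := by
      have h2 : ∀ l : Fin m, Fintype.card (ZMod ((l : ℕ) + 2)) = (l : ℕ) + 2 :=
        fun l => ZMod.card _
      rw [Finset.prod_congr rfl fun l _ => h2 l, Fin.prod_univ_eq_prod_range (fun l => l + 2) m,
        ← Finset.prod_range_add_one_eq_factorial, Finset.prod_range_succ']
      simp
    rw [h1]
    rcases Nat.eq_zero_or_pos m with h0 | hpos
    · rw [h0]; simp
    · have h3 := Nat.find_min hex (m := m - 1) (by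
        change m - 1 < m
        omega)
      have h4 : m - 1 + 2 = m + 1 := by omega
      rw [h4] at h3
      omega
  have hns : ¬ Function.Surjective g := fun hs =>
    absurd (Fintype.card_le_of_surjective g hs) (not_le.2 hcard)
  rw [Function.Surjective] at hns
  push Not at hns
  obtain ⟨c, hc⟩ := hns
  refine ⟨c, fun ω h => ?_⟩
  apply hc (fun l => ω l)
  rw [hsum] at h
  change - ∑ l : Fin m, (ω l).val • w l = c
  rw [Fin.sum_univ_eq_sum_range (fun l => (ω l).val • w l) m]
  exact (eq_neg_of_add_eq_zero_left h).symm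

end

/-- If `B` is Borel and null-finite with null-sequence `x`, then the measures of the events
`Y + x k ∈ B` tend to zero. -/
theorem tendsto_measure (B : Set X0) (hB : MeasurableSet B) (x : ℕ → X0)
    (hx : ∀ a : X0, {k | a + x k ∈ B}.Finite) (V : Om → X0) (hV : Measurable V) :
    Tendsto (fun k => P {ω | V ω + x k ∈ B}) atTop (𝓝 0) := by
  have hm : ∀ k, MeasurableSet {ω | V ω + x k ∈ B} := fun k => by
    have h1 : Measurable fun ω => V ω + x k := by
      refine measurable_pi_iff.2 fun n => ?_
      exact (measurable_of_finite (fun a : ZMod (n + 2) => a + x k n)).comp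
        ((measurable_pi_apply n).comp hV)
    exact h1 hB
  let E : ℕ → Set Om := fun K => ⋃ k ∈ Set.Ici K, {ω | V ω + x k ∈ B}
  have hE : ∀ K, MeasurableSet (E K) := fun K =>
    MeasurableSet.biUnion (Set.to_countable _) fun k _ => hm k
  have hanti : Antitone E := by
    intro K L hKL
    exact Set.biUnion_subset_biUnion_left (Set.Ici_subset_Ici.2 hKL)
  have hempty : ⋂ K, E K = ∅ := by
    rw [Set.eq_empty_iff_forall_notMem]
    intro ω hω
    rw [Set.mem_iInter] at hω
    obtain ⟨K, hK⟩ := (hx (V ω)).bddAbove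
    obtain ⟨k, hk, hmem⟩ := Set.mem_iUnion₂.1 (hω (K + 1))
    have h1 : k ≤ K := hK hmem
    have h2 : K + 1 ≤ k := hk
    omega
  have hlim := tendsto_measure_iInter_atTop (μ := P) (s := E)
    (fun K => (hE K).nullMeasurableSet) hanti ⟨0, measure_ne_top P _⟩
  rw [hempty, measure_empty] at hlim
  refine tendsto_of_tendsto_of_tendsto_of_le_of_le tendsto_const_nhds hlim (fun _ => zero_le) ?_
  intro k
  exact measure_mono fun ω hω => Set.mem_biUnion (show k ∈ Set.Ici k from le_refl k) hω

/-- The main theorem: `∏ C_n^*` is not covered by countably many Borel null-finite sets. -/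
theorem not_covered (B : ℕ → Set X0) (hB : ∀ i, MeasurableSet[borel X0] (B i))
    (hN : ∀ i, NullFinite (B i)) : ¬ A0 ⊆ ⋃ i, B i := by
  classical
  have hB' : ∀ i, MeasurableSet (B i) := fun i => by
    have h1 : MeasurableSpace.pi = borel X0 := BorelSpace.measurable_eq
    have h2 := hB i
    rwa [← h1] at h2
  choose x hx hfin using hN
  -- choose the indices
  have hk : ∀ l, ∃ k, l ≤ k ∧ ∀ n, n + 2 ≤ (l + 2).factorial → x l.unpair.1 k n = 0 := by
    intro l
    have h1 : ∀ n, ∀ᶠ k in atTop, x l.unpair.1 k n = 0 := by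
      intro n
      have h2 := (tendsto_pi_nhds.1 (hx l.unpair.1)) n
      exact h2 ((isOpen_discrete {(0 : ZMod (n + 2))}).mem_nhds rfl)
    have h3 : ∀ᶠ k in atTop, ∀ n ∈ Finset.range ((l + 2).factorial), x l.unpair.1 k n = 0 :=
      (Finset.range ((l + 2).factorial)).eventually_all.2 fun n _ => h1 n
    obtain ⟨k, hk1, hk2⟩ := ((eventually_ge_atTop l).and h3).exists
    exact ⟨k, hk1, fun n hn => hk2 n (Finset.mem_range.2 (by omega))⟩
  choose k hkl hkz using hk
  let z : ℕ → X0 := fun l => x l.unpair.1 (k l)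
  have hz : ∀ l n, n + 2 ≤ (l + 2).factorial → z l n = 0 := fun l n h => hkz l n h
  have hy : ∀ n, ∃ c : ZMod (n + 2), ∀ ω : Om,
      c + ∑ l ∈ Finset.range (n + 1), (ω l).val • z l n ≠ 0 := fun n =>
    exists_avoid n (fun l => z l n) fun l h => hz l n h
  choose y hy using hy
  have hYA : ∀ ω, Y z y ω ∈ A0 := fun ω n => hy n ω
  -- each `B i` has measure zero
  have hzero : ∀ i, P (Y z y ⁻¹' B i) = 0 := by
    intro i
    have h1 := tendsto_measure (B i) (hB' i) (x i) (hfin i) (Y z y) (measurable_Y z y)
    -- along `l = pair i N`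
    have h2 : Tendsto (fun N => k (Nat.pair i N)) atTop atTop :=
      tendsto_atTop_mono (fun N => (Nat.right_le_pair i N).trans (hkl _)) tendsto_id
    have h3 := h1.comp h2
    have h4 : Tendsto (fun N : ℕ => (((Nat.pair i N : ℕ) : ENNReal) + 2)⁻¹) atTop (𝓝 0) := by
      have h5 : Tendsto (fun N : ℕ => ((N : ENNReal))⁻¹) atTop (𝓝 0) :=
        ENNReal.tendsto_inv_nat_nhds_zero
      refine tendsto_of_tendsto_of_tendsto_of_le_of_le tendsto_const_nhds h5
        (fun _ => zero_le) ?_
      intro N
      refine ENNReal.inv_le_inv.2 ?_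
      have h6 : (N : ENNReal) ≤ (Nat.pair i N : ℕ) := by
        exact_mod_cast Nat.right_le_pair i N
      exact h6.trans le_self_add
    have h7 := h3.add h4
    rw [add_zero] at h7
    have h8 : P (Y z y ⁻¹' B i) ≤ 0 := by
      refine ge_of_tendsto h7 (Filter.Eventually.of_forall fun N => ?_)
      have h9 := measure_le z hz y (B i) (hB' i) (Nat.pair i N)
      have h10 : z (Nat.pair i N) = x i (k (Nat.pair i N)) := by
        change x (Nat.pair i N).unpair.1 (k (Nat.pair i N)) = _
        rw [Nat.unpair_pair]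
      rw [h10] at h9
      exact h9
    exact le_antisymm h8 zero_le
  intro hcov
  have h1 : (univ : Set Om) ⊆ ⋃ i, Y z y ⁻¹' B i := by
    intro ω _
    obtain ⟨i, hi⟩ := Set.mem_iUnion.1 (hcov (hYA ω))
    exact Set.mem_iUnion.2 ⟨i, hi⟩
  have h2 : P univ ≤ 0 := (measure_mono h1).trans (by
    rw [measure_iUnion_null hzero])
  rw [measure_univ] at h2
  exact absurd h2 (by simp)

end Pool.Agent.Q147.NF
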