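import Mathlib
import Pool.Agent.Q147.NullFinite

/-!
# `∏ C_n^*` is closed, Haar-null and Haar-meager
-/

noncomputable section

namespace Pool.Agent.Q147.NF

open Set Filter Topology MeasureTheory

/-- `B` is Haar-null: some Borel probability measure `μ` satisfies `μ(B + x) = 0` for all `x`. -/
def HaarNull {X : Type} [AddCommGroup X] [TopologicalSpace X] (B : Set X) : Prop :=
  ∃ μ : @Measure X (borel X), @IsProbabilityMeasure X (borel X) μ ∧
    ∀ x : X, μ ((fun b => b + x) '' B) = 0

/-- `B` is Haar-meager: there are a nonempty compact metrizable space `K` and a continuous map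
`f : K → X` such that `f⁻¹(B + x)` is meager in `K` for every `x`. -/
def HaarMeager {X : Type} [AddCommGroup X] [TopologicalSpace X] (B : Set X) : Prop :=
  ∃ (K : Type) (_ : TopologicalSpace K), Nonempty K ∧ CompactSpace K ∧
    TopologicalSpace.MetrizableSpace K ∧ ∃ f : K → X, Continuous f ∧
      ∀ x : X, IsMeagre (f ⁻¹' ((fun b => b + x) '' B))

theorem isClosed_A0 : IsClosed A0 := by
  have : A0 = ⋂ n, {x : X0 | x n ≠ 0} := by
    ext x; simp [A0]
  rw [this]
  refine isClosed_iInter fun n => ?_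
  have hc : Continuous fun x : X0 => x n := continuous_apply n
  exact (isClosed_discrete {a : ZMod (n + 2) | a ≠ 0}).preimage hc

theorem unif_compl (n : ℕ) (a : ZMod (n + 2)) :
    unif n {a}ᶜ = ((n : ENNReal) + 2)⁻¹ * ((n : ENNReal) + 1) := by
  have h1 : unif n {a} + unif n {a}ᶜ = 1 := by
    rw [measure_add_measure_compl (measurableSet_singleton a), measure_univ]
  rw [unif_singleton] at h1
  have hne : ((n : ENNReal) + 2)⁻¹ ≠ ⊤ := ENNReal.inv_ne_top.2 (by simp)
  have h2 : ((n : ENNReal) + 2)⁻¹ + ((n : ENNReal) + 2)⁻¹ * ((n : ENNReal) + 1) = 1 := by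
    have h3 : ((n : ENNReal) + 2)⁻¹ + ((n : ENNReal) + 2)⁻¹ * ((n : ENNReal) + 1) =
        ((n : ENNReal) + 2)⁻¹ * ((n : ENNReal) + 2) := by ring
    rw [h3]
    exact ENNReal.inv_mul_cancel (by simp)
      (ENNReal.add_ne_top.2 ⟨ENNReal.natCast_ne_top n, by simp⟩)
  exact (ENNReal.add_right_inj hne).1 (h1.trans h2.symm)

theorem prod_unif (x : X0) (N : ℕ) :
    ∏ n ∈ Finset.range N, unif n {x n}ᶜ = ((N : ENNReal) + 1)⁻¹ := by
  induction N with
  | zero => simp
  | succ N ih =>
    rw [Finset.prod_range_succ, ih, unif_compl]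
    have h1 : ((N : ENNReal) + 1)⁻¹ * (((N : ENNReal) + 2)⁻¹ * ((N : ENNReal) + 1)) =
        (((N : ENNReal) + 1)⁻¹ * ((N : ENNReal) + 1)) * ((N : ENNReal) + 2)⁻¹ := by ring
    rw [h1, ENNReal.inv_mul_cancel (by simp)
      (ENNReal.add_ne_top.2 ⟨ENNReal.natCast_ne_top N, by simp⟩), one_mul]
    push_cast
    congr 1
    ring

theorem P_translate (x : X0) : P ((fun b : X0 => b + x) '' A0) = 0 := by
  have h1 : ∀ N : ℕ, P ((fun b : X0 => b + x) '' A0) ≤ ((N : ENNReal))⁻¹ := by
    intro N
    have h2 : (fun b : X0 => b + x) '' A0 ⊆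
        Set.pi (Finset.range N : Set ℕ) (fun n => ({x n}ᶜ : Set (ZMod (n + 2)))) := by
      rintro _ ⟨b, hb, rfl⟩ n _ h
      apply hb n
      have h3 : b n + x n = x n := h
      simpa using h3
    have h3 : P (Set.pi (Finset.range N : Set ℕ) (fun n => ({x n}ᶜ : Set (ZMod (n + 2))))) =
        ∏ n ∈ Finset.range N, unif n {x n}ᶜ :=
      Measure.infinitePi_pi unif fun n _ => (measurableSet_singleton _).compl
    refine (measure_mono h2).trans ?_
    rw [h3, prod_unif]
    exact ENNReal.inv_le_inv.2 le_self_add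
  have h2 : Tendsto (fun N : ℕ => ((N : ENNReal))⁻¹) atTop (𝓝 0) :=
    ENNReal.tendsto_inv_nat_nhds_zero
  exact le_antisymm (ge_of_tendsto h2 (Filter.Eventually.of_forall h1)) zero_le

theorem haarNull_A0 : HaarNull A0 := by
  have h1 : MeasurableSpace.pi = borel X0 := BorelSpace.measurable_eq
  unfold HaarNull
  rw [← h1]
  exact ⟨P, inferInstance, P_translate⟩

theorem haarMeager_A0 : HaarMeager A0 := by
  refine ⟨X0, inferInstance, inferInstance, inferInstance, inferInstance, id, continuous_id, ?_⟩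
  intro x
  have hcl : IsClosed ((fun b : X0 => b + x) '' A0) :=
    (Homeomorph.addRight x).isClosedMap _ isClosed_A0
  rw [Set.preimage_id]
  refine IsNowhereDense.isMeagre ?_
  rw [hcl.isNowhereDense_iff, Set.eq_empty_iff_forall_notMem]
  intro w hw
  obtain ⟨F, u, hu, hsub⟩ := isOpen_pi_iff.1 isOpen_interior w hw
  classical
  obtain ⟨n, hn⟩ := Infinite.exists_notMem_finset F
  have h2 : Function.update w n (x n) ∈ interior ((fun b : X0 => b + x) '' A0) := by
    apply hsub
    intro i hi
    have : i ≠ n := fun h => hn (h ▸ hi)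
    rw [Function.update_of_ne this]
    exact (hu i hi).2
  obtain ⟨b, hb, hbx⟩ := interior_subset h2
  apply hb n
  have h3 : b n + x n = Function.update w n (x n) n := congrFun hbx n
  rw [Function.update_self] at h3
  simpa using h3

end Pool.Agent.Q147.NF
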