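import Mathlib

/-!
# The semi-Zariski topology, double centralizers, finitary permutations of `ℕ`
-/

namespace Pool.Agent.Q147.SemiZar

open Set Topology

/-- The semi-Zariski topology on a semigroup `S`: the topology generated by the sets
`{x | a x b ≠ c}` and `{x | a x b ≠ c x d}` with `a, b, c, d ∈ S¹`, where `S¹ = WithOne S` is `S`
with an external identity adjoined. -/
@[instance_reducible] def semiZariski (S : Type) [Semigroup S] : TopologicalSpace S :=
  TopologicalSpace.generateFrom
    ({U | ∃ a b c : WithOne S, U = {x : S | a * (x : WithOne S) * b ≠ c}} ∪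
     {U | ∃ a b c d : WithOne S,
        U = {x : S | a * (x : WithOne S) * b ≠ c * (x : WithOne S) * d}})

/-- `Cent(T) = {g ∈ S : g f = f g for all f ∈ T}`. -/
def Cent {S : Type} [Semigroup S] (T : Set S) : Set S := {g | ∀ f ∈ T, g * f = f * g}

/-- Finite double centralizers: `Cent(Cent(F))` is finite for every finite `F ⊆ S`. -/
def FiniteDoubleCentralizers (S : Type) [Semigroup S] : Prop :=
  ∀ F : Set S, F.Finite → (Cent (Cent F)).Finite

/-- `S_{≤ n} = {f ∈ S : |Cent(Cent(f))| ≤ n}`. -/
def Sle (S : Type) [Semigroup S] (n : ℕ) : Set S := {f | (Cent (Cent {f})).encard ≤ n}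

/-- The subset `Y` of the space `(X, t)` is a countable union of subspaces, each discrete in its
induced topology. -/
def SigmaDiscreteOn {X : Type} (t : TopologicalSpace X) (Y : Set X) : Prop :=
  ∃ A : ℕ → Set X, Y = ⋃ n, A n ∧
    ∀ n, @DiscreteTopology (A n) (@instTopologicalSpaceSubtype X (fun x => x ∈ A n) t)

/-! ### Groups -/

/-- The homomorphism `G¹ → G`. -/
def low {G : Type} [Group G] : WithOne G →* G := WithOne.lift (MulHom.id G)

theorem mul_coe_mul {G : Type} [Group G] (a b : WithOne G) (x : G) :
    a * (x : WithOne G) * b = ((low a * x * low b : G) : WithOne G) := by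
  induction a using WithOne.recOneCoe with
  | one =>
    induction b using WithOne.recOneCoe with
    | one => simp [low]
    | coe b => simp [low]
  | coe a =>
    induction b using WithOne.recOneCoe with
    | one => simp [low]
    | coe b => simp [low]

/-- A Hausdorff topology on a group with continuous translations refines the semi-Zariski
topology. -/
theorem le_semiZariski {G : Type} [Group G] (t : TopologicalSpace G) (h2 : @T2Space G t)
    (hl : ∀ a b : G, @Continuous G G t t fun x => a * x * b) : t ≤ semiZariski G := by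
  apply le_generateFrom
  rintro U (⟨a, b, c, rfl⟩ | ⟨a, b, c, d, rfl⟩)
  · induction c using WithOne.recOneCoe with
    | one =>
      have : {x : G | a * (x : WithOne G) * b ≠ 1} = univ := by
        rw [Set.eq_univ_iff_forall]
        intro x
        change a * (x : WithOne G) * b ≠ 1
        rw [mul_coe_mul]
        exact WithOne.coe_ne_one
      rw [this]
      exact isOpen_univ
    | coe c =>
      have : {x : G | a * (x : WithOne G) * b ≠ c} = (fun x => low a * x * low b) ⁻¹' {c}ᶜ := by
        ext x
        change a * (x : WithOne G) * b ≠ c ↔ _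
        rw [mul_coe_mul]
        exact not_congr WithOne.coe_inj
      rw [this]
      exact (isClosed_singleton.isOpen_compl).preimage (hl _ _)
  · have : {x : G | a * (x : WithOne G) * b ≠ c * (x : WithOne G) * d} =
        {x : G | low a * x * low b = low c * x * low d}ᶜ := by
      ext x
      change a * (x : WithOne G) * b ≠ c * (x : WithOne G) * d ↔ _
      rw [mul_coe_mul, mul_coe_mul]
      exact not_congr WithOne.coe_inj
    rw [this]
    exact (isClosed_eq (hl _ _) (hl _ _)).isOpen_compl

/-- Points of a group whose every pair of finite sets of conditions can be met by members of `D`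
lie in the closure of `D`. -/
theorem mem_closure_of {G : Type} [Group G] (D : Set G) (f₀ : G)
    (h : ∀ (P : Finset G) (Q : Finset (G × G)), ∃ f ∈ D, (∀ p ∈ P, f ≠ p) ∧
      ∀ q ∈ Q, q.1 * f₀ ≠ f₀ * q.2 → q.1 * f ≠ f * q.2) :
    f₀ ∈ @closure G (semiZariski G) D := by
  classical
  let _ : TopologicalSpace G := semiZariski G
  -- the family of good neighbourhoods
  have key : ∀ U : Set G, IsOpen U → f₀ ∈ U → ∃ (P : Finset G) (Q : Finset (G × G)),
      ∀ f : G, (∀ p ∈ P, f ≠ p) → (∀ q ∈ Q, q.1 * f₀ ≠ f₀ * q.2 → q.1 * f ≠ f * q.2) →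
        f ∈ U := by
    intro U hU
    change TopologicalSpace.GenerateOpen _ U at hU
    induction hU with
    | basic s hs =>
      intro hf
      rcases hs with (⟨a, b, c, rfl⟩ | ⟨a, b, c, d, rfl⟩)
      · induction c using WithOne.recOneCoe with
        | one =>
          refine ⟨∅, ∅, fun f _ _ => ?_⟩
          change a * (f : WithOne G) * b ≠ 1
          rw [mul_coe_mul]
          exact WithOne.coe_ne_one
        | coe c =>
          refine ⟨{(low a)⁻¹ * c * (low b)⁻¹}, ∅, fun f hP _ => ?_⟩
          change a * (f : WithOne G) * b ≠ c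
          rw [mul_coe_mul]
          intro heq
          have h1 : low a * f * low b = c := WithOne.coe_inj.1 heq
          apply hP _ (Finset.mem_singleton_self _)
          rw [← h1]; group
      · refine ⟨∅, {((low c)⁻¹ * low a, low d * (low b)⁻¹)}, fun f _ hQ => ?_⟩
        change a * (f : WithOne G) * b ≠ c * (f : WithOne G) * d
        change a * (f₀ : WithOne G) * b ≠ c * (f₀ : WithOne G) * d at hf
        rw [mul_coe_mul, mul_coe_mul] at hf ⊢
        have equiv : ∀ x : G, ((low c)⁻¹ * low a) * x = x * (low d * (low b)⁻¹) ↔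
            low a * x * low b = low c * x * low d := by
          intro x
          constructor
          · intro h
            have := congrArg (fun z => low c * z * low b) h
            simpa [mul_assoc] using this
          · intro h
            have := congrArg (fun z => (low c)⁻¹ * z * (low b)⁻¹) h
            simpa [mul_assoc] using this
        intro heq
        have h1 := (equiv f).2 (WithOne.coe_inj.1 heq)
        refine hQ _ (Finset.mem_singleton_self _) ?_ h1
        intro h2
        exact hf (WithOne.coe_inj.2 ((equiv f₀).1 h2))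
    | univ => exact fun _ => ⟨∅, ∅, fun _ _ _ => Set.mem_univ _⟩
    | inter s t _ _ ihs iht =>
      rintro ⟨hs, ht⟩
      obtain ⟨P, Q, h1⟩ := ihs hs
      obtain ⟨P', Q', h2⟩ := iht ht
      refine ⟨P ∪ P', Q ∪ Q', fun f hP hQ => ⟨?_, ?_⟩⟩
      · exact h1 f (fun p hp => hP p (Finset.mem_union_left _ hp))
          fun q hq => hQ q (Finset.mem_union_left _ hq)
      · exact h2 f (fun p hp => hP p (Finset.mem_union_right _ hp))
          fun q hq => hQ q (Finset.mem_union_right _ hq)
    | sUnion 𝒮 _ ih =>
      rintro ⟨s, hs, hf⟩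
      obtain ⟨P, Q, h1⟩ := ih s hs hf
      exact ⟨P, Q, fun f hP hQ => ⟨s, hs, h1 f hP hQ⟩⟩
  rw [mem_closure_iff]
  intro U hU hf
  obtain ⟨P, Q, hPQ⟩ := key U hU hf
  obtain ⟨f, hfD, hfP, hfQ⟩ := h P Q
  exact ⟨f, hPQ f hfP hfQ, hfD⟩

/-! ### Finitary permutations of `ℕ` -/

/-- The group of finitely supported permutations of `ℕ`. -/
def FS : Subgroup (Equiv.Perm ℕ) where
  carrier := {σ | {x | σ x ≠ x}.Finite}
  one_mem' := by simp
  mul_mem' := by
    intro a b ha hb
    refine (Set.Finite.union ha hb).subset ?_
    intro x hx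
    by_contra hcon
    simp only [Set.mem_union, Set.mem_ofPred_eq, not_or, not_not] at hcon
    apply hx
    rw [Equiv.Perm.mul_apply, hcon.2, hcon.1]
  inv_mem' := by
    intro a ha
    refine Set.Finite.subset ha ?_
    intro x hx h
    apply hx
    rw [Equiv.Perm.inv_eq_iff_eq]
    exact h.symm

theorem swap_mem_FS (a b : ℕ) : Equiv.swap a b ∈ FS := by
  refine (Set.toFinite ({a, b} : Set ℕ)).subset ?_
  intro x hx
  by_contra h
  simp only [Set.mem_insert_iff, Set.mem_singleton_iff, not_or] at h
  exact hx (Equiv.swap_apply_of_ne_of_ne h.1 h.2)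

/-- A permutation commuting with a transposition preserves the pair. -/
theorem pair_of_comm {g : Equiv.Perm ℕ} {a b : ℕ} (hab : a ≠ b)
    (h : g * Equiv.swap a b = Equiv.swap a b * g) : g a = a ∨ g a = b := by
  by_contra hcon
  push Not at hcon
  have h1 := congrArg (fun σ : Equiv.Perm ℕ => σ a) h
  simp only [Equiv.Perm.mul_apply, Equiv.swap_apply_left] at h1
  rw [Equiv.swap_apply_of_ne_of_ne hcon.1 hcon.2] at h1
  exact hab (g.injective h1).symm

/-- A permutation commuting with all transpositions outside a finite set `A` is supported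
in `A`. -/
theorem fixed_of_comm {g : Equiv.Perm ℕ} (A : Set ℕ) (hA : A.Finite)
    (h : ∀ a b, a ∉ A → b ∉ A → a ≠ b → g * Equiv.swap a b = Equiv.swap a b * g) (z : ℕ)
    (hz : z ∉ A) : g z = z := by
  obtain ⟨b, hb⟩ := (hA.union (Set.finite_singleton z)).exists_notMem
  obtain ⟨c, hc⟩ := (hA.union (Set.toFinite ({z, b} : Set ℕ))).exists_notMem
  simp only [Set.mem_union, Set.mem_singleton_iff, Set.mem_insert_iff, not_or] at hb hc
  rcases pair_of_comm (Ne.symm hb.2) (h z b hz hb.1 (Ne.symm hb.2)) with h1 | h1
  · exact h1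
  · rcases pair_of_comm (Ne.symm hc.2.1) (h z c hz hc.1 (Ne.symm hc.2.1)) with h2 | h2
    · exact h2
    · exact absurd (h2.symm.trans h1) hc.2.2

/-- Permutations supported in a finite set form a finite set. -/
theorem finite_supported (A : Set ℕ) (hA : A.Finite) :
    {g : FS | ∀ z, z ∉ A → g.1 z = z}.Finite := by
  have : Finite A := hA
  -- such `g` maps `A` to `A`
  have hmap : ∀ g ∈ {g : FS | ∀ z, z ∉ A → g.1 z = z}, ∀ z : A, g.1 z ∈ A := by
    intro g hg z
    by_contra hcon
    have h1 := hg _ hcon
    have h2 := g.1.injective h1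
    rw [h2] at hcon
    exact hcon z.2
  classical
  refine Set.Finite.of_injOn (f := fun g : FS => fun z : A => if h : g.1 z ∈ A then
    (⟨g.1 z, h⟩ : A) else z) (t := Set.univ) (fun _ _ => Set.mem_univ _) ?_ (Set.toFinite _)
  intro g hg g' hg' heq
  ext z
  by_cases hz : z ∈ A
  · have h1 := congrFun heq ⟨z, hz⟩
    simp only [hmap g hg ⟨z, hz⟩, hmap g' hg' ⟨z, hz⟩, dif_pos] at h1
    exact congrArg Subtype.val h1
  · rw [hg z hz, hg' z hz]

/-- Transpositions outside the supports. -/
theorem FS_centCent {F : Set FS} (hF : F.Finite) {g : FS} (hg : g ∈ Cent (Cent F)) (z : ℕ)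
    (hz : z ∉ ⋃ f ∈ F, {x | f.1 x ≠ x}) : g.1 z = z := by
  refine fixed_of_comm (⋃ f ∈ F, {x | f.1 x ≠ x}) (hF.biUnion fun f _ => f.2) ?_ z hz
  intro a b ha hb _
  have hs : (⟨Equiv.swap a b, swap_mem_FS a b⟩ : FS) ∈ Cent F := by
    intro f hf
    apply Subtype.ext
    change Equiv.swap a b * f.1 = f.1 * Equiv.swap a b
    have ha' : f.1 a = a := by
      by_contra hne
      exact ha (Set.mem_biUnion hf hne)
    have hb' : f.1 b = b := by
      by_contra hne
      exact hb (Set.mem_biUnion hf hne)
    ext x
    simp only [Equiv.Perm.mul_apply]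
    by_cases hxa : x = a
    · subst hxa; rw [ha']; simp [hb']
    · by_cases hxb : x = b
      · subst hxb; rw [hb']; simp [ha']
      · rw [Equiv.swap_apply_of_ne_of_ne hxa hxb, Equiv.swap_apply_of_ne_of_ne]
        · intro h; rw [← ha'] at h; exact hxa (f.1.injective h)
        · intro h; rw [← hb'] at h; exact hxb (f.1.injective h)
  exact congrArg Subtype.val (hg _ hs)

theorem FS_finiteDoubleCentralizers : FiniteDoubleCentralizers FS := by
  intro F hF
  refine (finite_supported _ (hF.biUnion fun f _ => f.2)).subset ?_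
  intro g hg z hz
  exact FS_centCent hF hg z hz

end Pool.Agent.Q147.SemiZar
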