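import Mathlib
import Pool.Agent.Q147.SemiZar

/-!
# A Heisenberg group over `ZMod 2` with finite double centralizers, not `σ`-discrete
-/

noncomputable section

namespace Pool.Agent.Q147.Heis

open Set Topology Pool.Agent.Q147.SemiZar

/-- The pairing of `ℕ → ZMod 2` with `ℕ →₀ ZMod 2`. -/
def pr (φ : ℕ → ZMod 2) (w : ℕ →₀ ZMod 2) : ZMod 2 := w.sum fun n a => a * φ n

theorem pr_add_left (φ ψ : ℕ → ZMod 2) (w : ℕ →₀ ZMod 2) : pr (φ + ψ) w = pr φ w + pr ψ w := by
  simp [pr, Finsupp.sum, mul_add, Finset.sum_add_distrib]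

theorem pr_smul_left (a : ZMod 2) (φ : ℕ → ZMod 2) (w : ℕ →₀ ZMod 2) :
    pr (a • φ) w = a * pr φ w := by
  simp only [pr, Finsupp.sum, Finset.mul_sum, Pi.smul_apply, smul_eq_mul]
  exact Finset.sum_congr rfl fun n _ => by ring

theorem pr_add_right (φ : ℕ → ZMod 2) (w v : ℕ →₀ ZMod 2) : pr φ (w + v) = pr φ w + pr φ v := by
  classical
  exact Finsupp.sum_add_index' (fun n => zero_mul _) (fun n a b => add_mul _ _ _)

theorem pr_smul_right (a : ZMod 2) (φ : ℕ → ZMod 2) (w : ℕ →₀ ZMod 2) :
    pr φ (a • w) = a * pr φ w := by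
  simp only [pr]
  rw [Finsupp.sum_smul_index (fun n => zero_mul _), Finsupp.sum, Finsupp.sum, Finset.mul_sum]
  exact Finset.sum_congr rfl fun n _ => by ring

theorem pr_zero_left (w : ℕ →₀ ZMod 2) : pr 0 w = 0 := by
  simp [pr, Finsupp.sum]

theorem pr_zero_right (φ : ℕ → ZMod 2) : pr φ 0 = 0 := by
  simp [pr]

theorem pr_single (φ : ℕ → ZMod 2) (n : ℕ) : pr φ (Finsupp.single n 1) = φ n := by
  simp [pr, Finsupp.sum_single_index]

theorem pr_neg_left (φ : ℕ → ZMod 2) (w : ℕ →₀ ZMod 2) : pr (-φ) w = - pr φ w := by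
  have := pr_add_left (-φ) φ w
  rw [neg_add_cancel, pr_zero_left] at this
  exact eq_neg_of_add_eq_zero_left this.symm

theorem continuous_pr (w : ℕ →₀ ZMod 2) : Continuous fun φ : ℕ → ZMod 2 => pr φ w := by
  unfold pr Finsupp.sum
  refine continuous_finsetSum _ fun n _ => ?_
  exact (continuous_of_discreteTopology (f := fun x : ZMod 2 => w n * x)).comp
    (continuous_apply n)

/-- The Heisenberg group. -/
@[ext] structure Hs where
  /-- first coordinate -/
  w : ℕ →₀ ZMod 2
  /-- second coordinate -/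
  φ : ℕ → ZMod 2
  /-- central coordinate -/
  c : ZMod 2

instance : Mul Hs := ⟨fun x y => ⟨x.w + y.w, x.φ + y.φ, x.c + y.c + pr x.φ y.w⟩⟩
instance : One Hs := ⟨⟨0, 0, 0⟩⟩
instance : Inv Hs := ⟨fun x => ⟨-x.w, -x.φ, -x.c + pr x.φ x.w⟩⟩

theorem mul_w (x y : Hs) : (x * y).w = x.w + y.w := rfl
theorem mul_φ (x y : Hs) : (x * y).φ = x.φ + y.φ := rfl
theorem mul_c (x y : Hs) : (x * y).c = x.c + y.c + pr x.φ y.w := rfl

instance : Group Hs := Group.ofLeftAxioms
  (by
    intro a b c
    ext1
    · simp only [mul_w, add_assoc]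
    · simp only [mul_φ, add_assoc]
    · simp only [mul_w, mul_φ, mul_c, pr_add_left, pr_add_right]
      ring)
  (by
    intro a
    ext1
    · exact zero_add _
    · exact zero_add _
    · change 0 + a.c + pr 0 a.w = a.c
      rw [pr_zero_left]; simp)
  (by
    intro a
    ext1
    · exact neg_add_cancel _
    · exact neg_add_cancel _
    · change -a.c + pr a.φ a.w + a.c + pr (-a.φ) a.w = 0
      rw [pr_neg_left]; ring)

/-- The vector part. -/
def vec (x : Hs) : (ℕ →₀ ZMod 2) × (ℕ → ZMod 2) := (x.w, x.φ)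

theorem comm_iff (x y : Hs) : x * y = y * x ↔ pr x.φ y.w = pr y.φ x.w := by
  constructor
  · intro h
    have := congrArg Hs.c h
    rw [mul_c, mul_c, add_comm y.c x.c] at this
    exact add_left_cancel this
  · intro h
    ext1
    · exact add_comm _ _
    · exact add_comm _ _
    · rw [mul_c, mul_c, h, add_comm x.c y.c]

/-- The symplectic form as a linear map to the dual. -/
def B : ((ℕ →₀ ZMod 2) × (ℕ → ZMod 2)) →ₗ[ZMod 2]
    (((ℕ →₀ ZMod 2) × (ℕ → ZMod 2)) →ₗ[ZMod 2] ZMod 2) :=
  LinearMap.mk₂ (ZMod 2) (fun u v => pr u.2 v.1 - pr v.2 u.1)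
    (by intro u u' v; simp only [Prod.snd_add, Prod.fst_add, pr_add_left, pr_add_right]; ring)
    (by intro a u v; simp only [Prod.smul_snd, Prod.smul_fst, pr_smul_left, pr_smul_right,
          smul_eq_mul]; ring)
    (by intro u v v'; simp only [Prod.snd_add, Prod.fst_add, pr_add_left, pr_add_right]; ring)
    (by intro a u v; simp only [Prod.smul_snd, Prod.smul_fst, pr_smul_left, pr_smul_right,
          smul_eq_mul]; ring)

theorem B_apply (u v : (ℕ →₀ ZMod 2) × (ℕ → ZMod 2)) : B u v = pr u.2 v.1 - pr v.2 u.1 := rfl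

theorem B_injective : Function.Injective B := by
  rw [injective_iff_map_eq_zero]
  rintro ⟨w, φ⟩ h
  have h1 : φ = 0 := by
    funext n
    have := LinearMap.congr_fun h (Finsupp.single n 1, 0)
    rw [B_apply] at this
    simpa [pr_single, pr_zero_left] using this
  have h2 : w = 0 := by
    ext n
    have := LinearMap.congr_fun h (0, Pi.single n 1)
    rw [B_apply] at this
    simp only [pr_zero_right, zero_sub, LinearMap.zero_apply, neg_eq_zero] at this
    have h3 : pr (Pi.single n 1) w = w n := by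
      simp only [pr, Finsupp.sum]
      rw [Finset.sum_eq_single n]
      · simp
      · intro b _ hb; simp [hb]
      · intro hn
        rw [Finsupp.notMem_support_iff.1 hn]; simp
    rw [h3] at this
    simpa using this
  rw [h1, h2]; rfl

/-- Elements of the double centralizer of a finite set have vector part in the span. -/
theorem vec_mem_span {F : Set Hs} (hF : F.Finite) {g : Hs} (hg : g ∈ Cent (Cent F)) :
    vec g ∈ Submodule.span (ZMod 2) (vec '' F) := by
  have : Finite F := hF
  have : Fintype F := Fintype.ofFinite F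
  have h1 : B (vec g) ∈ Submodule.span (ZMod 2) (Set.range fun f : F => B (vec f)) := by
    apply mem_span_of_iInf_ker_le_ker
    intro v hv
    rw [Submodule.mem_iInf] at hv
    -- the element with vector part `v` centralizes `F`
    have h2 : (⟨v.1, v.2, 0⟩ : Hs) ∈ Cent F := by
      intro f hf
      have h3 := hv ⟨f, hf⟩
      rw [LinearMap.mem_ker, B_apply] at h3
      rw [comm_iff]
      exact (sub_eq_zero.1 h3).symm
    have h4 := (comm_iff _ _).1 (hg _ h2)
    rw [LinearMap.mem_ker, B_apply]
    exact sub_eq_zero.2 h4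
  have h5 : (Set.range fun f : F => B (vec f)) = B '' (vec '' F) := by
    ext x
    constructor
    · rintro ⟨f, rfl⟩
      exact ⟨_, ⟨f, f.2, rfl⟩, rfl⟩
    · rintro ⟨_, ⟨f, hf, rfl⟩, rfl⟩
      exact ⟨⟨f, hf⟩, rfl⟩
  rw [h5, ← Submodule.map_span] at h1
  obtain ⟨v, hv, hvB⟩ := h1
  rwa [← B_injective hvB]

theorem finiteDoubleCentralizers : FiniteDoubleCentralizers Hs := by
  intro F hF
  have hfin : ((Submodule.span (ZMod 2) (vec '' F) :
      Submodule (ZMod 2) ((ℕ →₀ ZMod 2) × (ℕ → ZMod 2))) :
      Set ((ℕ →₀ ZMod 2) × (ℕ → ZMod 2))).Finite := by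
    have : Module.Finite (ZMod 2) (Submodule.span (ZMod 2) (vec '' F)) :=
      Module.Finite.span_of_finite _ (hF.image vec)
    have h2 : Finite (Submodule.span (ZMod 2) (vec '' F)) := Module.finite_of_finite (ZMod 2)
    exact h2
  have hfin' := hfin.prod (Set.toFinite (univ : Set (ZMod 2)))
  refine Set.Finite.of_injOn (f := fun g : Hs => (vec g, g.c)) ?_ ?_ hfin'
  · intro g hg
    exact ⟨vec_mem_span hF hg, Set.mem_univ _⟩
  · intro g _ g' _ h
    simp only [vec, Prod.mk.injEq] at h
    ext1
    · exact h.1.1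
    · exact h.1.2
    · exact h.2

theorem Sle_four : Sle Hs 4 = univ := by
  rw [Set.eq_univ_iff_forall]
  intro f
  change (Cent (Cent {f})).encard ≤ (4 : ℕ)
  have hsub : Cent (Cent {f}) ⊆
      (fun p : ZMod 2 × ZMod 2 => (⟨p.1 • f.w, p.1 • f.φ, p.2⟩ : Hs)) '' univ := by
    intro g hg
    have h1 := vec_mem_span (Set.finite_singleton f) hg
    rw [Set.image_singleton, Submodule.mem_span_singleton] at h1
    obtain ⟨a, ha⟩ := h1
    refine ⟨(a, g.c), Set.mem_univ _, ?_⟩
    have h2 := congrArg Prod.fst ha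
    have h3 := congrArg Prod.snd ha
    ext1
    · exact h2
    · exact h3
    · rfl
  refine (Set.encard_le_encard hsub).trans ((Set.encard_image_le _ _).trans ?_)
  rw [Set.encard_univ, ENat.card_eq_coe_fintype_card]
  simp

/-- The Hausdorff second countable topology on the Heisenberg group. -/
@[instance_reducible] def topT : TopologicalSpace Hs :=
  TopologicalSpace.induced (fun x => (x.w, x.φ, x.c))
    (@instTopologicalSpaceProd _ _ (⊥ : TopologicalSpace (ℕ →₀ ZMod 2)) inferInstance)

theorem topT_injective : Function.Injective (fun x : Hs => (x.w, x.φ, x.c)) := by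
  intro x y h
  simp only [Prod.mk.injEq] at h
  ext1
  · exact h.1
  · exact h.2.1
  · exact h.2.2

theorem topT_t2 : @T2Space Hs topT := by
  let _ : TopologicalSpace (ℕ →₀ ZMod 2) := ⊥
  have : DiscreteTopology (ℕ →₀ ZMod 2) := ⟨rfl⟩
  exact @T2Space.of_injective_continuous _ _ topT _ _ _ topT_injective continuous_induced_dom

theorem topT_sc : @SecondCountableTopology Hs topT := by
  let _ : TopologicalSpace (ℕ →₀ ZMod 2) := ⊥
  have : DiscreteTopology (ℕ →₀ ZMod 2) := ⟨rfl⟩
  exact TopologicalSpace.secondCountableTopology_induced Hs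
    ((ℕ →₀ ZMod 2) × (ℕ → ZMod 2) × ZMod 2) (fun x => (x.w, x.φ, x.c))

theorem topT_cont (a b : Hs) : @Continuous Hs Hs topT topT fun x => a * x * b := by
  let _ : TopologicalSpace (ℕ →₀ ZMod 2) := ⊥
  have : DiscreteTopology (ℕ →₀ ZMod 2) := ⟨rfl⟩
  let _ : TopologicalSpace Hs := topT
  rw [continuous_induced_rng]
  have hw : Continuous fun x : Hs => x.w :=
    continuous_fst.comp (continuous_induced_dom (f := fun x : Hs => (x.w, x.φ, x.c)))
  have hφ : Continuous fun x : Hs => x.φ :=
    continuous_fst.comp (continuous_snd.comp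
      (continuous_induced_dom (f := fun x : Hs => (x.w, x.φ, x.c))))
  have hc : Continuous fun x : Hs => x.c :=
    continuous_snd.comp (continuous_snd.comp
      (continuous_induced_dom (f := fun x : Hs => (x.w, x.φ, x.c))))
  have h1 : Continuous fun x : Hs => a.w + x.w + b.w :=
    (continuous_of_discreteTopology (f := fun w : ℕ →₀ ZMod 2 => a.w + w + b.w)).comp hw
  have h2 : Continuous fun x : Hs => a.φ + x.φ + b.φ :=
    (continuous_const.add hφ).add continuous_const
  have h3 : Continuous fun x : Hs => a.c + x.c + pr a.φ x.w + b.c + pr (a.φ + x.φ) b.w := by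
    have e1 : Continuous fun x : Hs => pr a.φ x.w :=
      (continuous_of_discreteTopology (f := fun w : ℕ →₀ ZMod 2 => pr a.φ w)).comp hw
    have e2 : Continuous fun x : Hs => pr (a.φ + x.φ) b.w :=
      (continuous_pr b.w).comp (continuous_const.add hφ)
    exact (((continuous_const.add hc).add e1).add continuous_const).add e2
  exact h1.prodMk (h2.prodMk h3)

theorem topT_le : topT ≤ semiZariski Hs := le_semiZariski topT topT_t2 topT_cont

/-- In a topology coarser than a second countable one, `σ`-discrete subsets are countable. -/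
theorem countable_of_sigmaDiscreteOn {X : Type} (t z : TopologicalSpace X) (htz : t ≤ z)
    (sc : @SecondCountableTopology X t) {Y : Set X} (h : SigmaDiscreteOn z Y) :
    Y.Countable := by
  obtain ⟨A, rfl, hA⟩ := h
  refine Set.countable_iUnion fun n => ?_
  have h1 : @DiscreteTopology (A n) (@instTopologicalSpaceSubtype X (fun x => x ∈ A n) t) := by
    refine @DiscreteTopology.mk _ (@instTopologicalSpaceSubtype X (fun x => x ∈ A n) t)
      (le_antisymm ?_ bot_le)
    have h2 := (hA n).eq_bot
    rw [← h2]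
    exact induced_mono htz
  have h3 : @SecondCountableTopology (A n)
      (@instTopologicalSpaceSubtype X (fun x => x ∈ A n) t) :=
    @TopologicalSpace.secondCountableTopology_induced (A n) X t sc Subtype.val
  let _ : TopologicalSpace X := t
  have h4 : Countable (A n) := countable_of_Lindelof_of_discrete
  exact h4

theorem not_countable_univ : ¬ (univ : Set Hs).Countable := by
  intro h
  have h1 : Countable Hs := Set.countable_univ_iff.1 h
  have h2 : Function.Injective (fun φ : ℕ → ZMod 2 => (⟨0, φ, 0⟩ : Hs)) := by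
    intro φ ψ h
    exact congrArg Hs.φ h
  have h3 : Countable (ℕ → ZMod 2) := h2.countable
  classical
  have h4 : Function.Injective (fun s : Set ℕ => (fun n => if n ∈ s then 1 else 0 : ℕ → ZMod 2)) := by
    intro s s' hs
    ext n
    have := congrFun hs n
    by_cases h1 : n ∈ s <;> by_cases h2 : n ∈ s' <;> simp_all
  have h5 : Countable (Set ℕ) := h4.countable
  obtain ⟨f, hf⟩ := exists_surjective_nat (Set ℕ)
  exact Function.cantor_surjective f hf

theorem not_sigmaDiscrete : ¬ SigmaDiscreteOn (semiZariski Hs) (univ : Set Hs) := fun h =>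
  not_countable_univ (countable_of_sigmaDiscreteOn _ _ topT_le topT_sc h)

end Pool.Agent.Q147.Heis
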