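import Mathlib

set_option autoImplicit false

/-!
# Sets hiding infinite sets: the core argument in a space of countable dimension
-/

open Set Topology Filter

namespace Pool.Agent.Q147.Hide

/-- The space of finitely supported sequences. -/
abbrev A := ℕ →₀ ℝ

/-- A nonnegative sublinear functional. -/
structure Sub (p : A → ℝ) : Prop where
  nn : ∀ x, 0 ≤ p x
  add : ∀ x y, p (x + y) ≤ p x + p y
  smul : ∀ (t : ℝ) (x : A), 0 ≤ t → p (t • x) = t * p x

/-- Extension by zero. -/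
noncomputable def ext (s : ℕ) : (Fin s → ℝ) →ₗ[ℝ] A :=
  Fintype.linearCombination ℝ (fun i : Fin s => Finsupp.single (i : ℕ) (1 : ℝ))

/-- Restriction. -/
noncomputable def res (s : ℕ) : A →ₗ[ℝ] (Fin s → ℝ) :=
  LinearMap.pi (fun i => Finsupp.lapply (i : ℕ))

theorem ext_apply_lt (s : ℕ) (t : Fin s → ℝ) (i : Fin s) : ext s t i = t i := by
  rw [ext, Fintype.linearCombination_apply, Finsupp.finsetSum_apply, Finset.sum_eq_single i]
  · simp
  · intro b _ hb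
    rw [Finsupp.smul_apply, Finsupp.single_apply, if_neg, smul_zero]
    exact fun h => hb (Fin.ext h)
  · intro h
    exact absurd (Finset.mem_univ i) h

theorem ext_apply_ge (s : ℕ) (t : Fin s → ℝ) (n : ℕ) (hn : s ≤ n) : ext s t n = 0 := by
  rw [ext, Fintype.linearCombination_apply, Finsupp.finsetSum_apply]
  refine Finset.sum_eq_zero fun b _ => ?_
  rw [Finsupp.smul_apply, Finsupp.single_apply, if_neg, smul_zero]
  intro h
  have := b.2
  omega

theorem res_apply (s : ℕ) (x : A) (i : Fin s) : res s x i = x i := rfl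

theorem res_ext (s : ℕ) (t : Fin s → ℝ) : res s (ext s t) = t := by
  funext i
  rw [res_apply, ext_apply_lt]

/-- `x` has its support below `s`. -/
def Low (s : ℕ) (x : A) : Prop := ∀ n, s ≤ n → x n = 0

theorem ext_res (s : ℕ) (x : A) (hx : Low s x) : ext s (res s x) = x := by
  ext n
  rcases lt_or_ge n s with h | h
  · exact ext_apply_lt s (res s x) ⟨n, h⟩
  · rw [ext_apply_ge s _ n h, hx n h]

theorem low_ext (s : ℕ) (t : Fin s → ℝ) : Low s (ext s t) := ext_apply_ge s t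

theorem Low.add {s : ℕ} {x y : A} (hx : Low s x) (hy : Low s y) : Low s (x + y) := by
  intro n hn
  rw [Finsupp.add_apply, hx n hn, hy n hn, add_zero]

theorem Low.smul {s : ℕ} {x : A} (hx : Low s x) (t : ℝ) : Low s (t • x) := by
  intro n hn
  rw [Finsupp.smul_apply, hx n hn, smul_zero]

theorem Low.mono {s s' : ℕ} {x : A} (hx : Low s x) (h : s ≤ s') : Low s' x :=
  fun n hn => hx n (h.trans hn)

theorem exists_low (x : A) : ∃ s, Low s x := by
  refine ⟨x.support.sup id + 1, fun n hn => ?_⟩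
  by_contra hcon
  have h1 : n ∈ x.support := Finsupp.mem_support_iff.2 hcon
  have h2 : n ≤ x.support.sup id := Finset.le_sup (f := id) h1
  omega

theorem exists_low_finset (S : Finset A) : ∃ s, ∀ x ∈ S, Low s x := by
  choose f hf using exists_low
  refine ⟨S.sup f, fun x hx => (hf x).mono (Finset.le_sup hx)⟩

section

variable {p : A → ℝ} (hp : Sub p)

include hp

theorem Sub.zero : p 0 = 0 := by
  have := hp.smul 0 0 le_rfl
  simpa using this

/-- The functional in the coordinates. -/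
theorem Sub.sum_le {ι : Type*} (S : Finset ι) (f : ι → A) : p (∑ i ∈ S, f i) ≤ ∑ i ∈ S, p (f i) := by
  classical
  induction S using Finset.induction_on with
  | empty => simp [hp.zero]
  | insert a S ha ih =>
    rw [Finset.sum_insert ha, Finset.sum_insert ha]
    exact (hp.add _ _).trans (by linarith)

end

/-- The functional on `Fin s → ℝ`. -/
noncomputable def hh (p : A → ℝ) (s : ℕ) : (Fin s → ℝ) → ℝ := fun t => p (ext s t)

section

variable {p : A → ℝ} (hp : Sub p)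

include hp

theorem hh_add (s : ℕ) (t u : Fin s → ℝ) : hh p s (t + u) ≤ hh p s t + hh p s u := by
  unfold hh
  rw [map_add]
  exact hp.add _ _

theorem hh_smul (s : ℕ) (c : ℝ) (t : Fin s → ℝ) (hc : 0 ≤ c) : hh p s (c • t) = c * hh p s t := by
  unfold hh
  rw [map_smul]
  exact hp.smul _ _ hc

theorem hh_bound (s : ℕ) : ∃ M : ℝ, 0 ≤ M ∧ ∀ t : Fin s → ℝ, hh p s t ≤ M * ‖t‖ := by
  refine ⟨∑ i : Fin s, (p (Finsupp.single (i : ℕ) 1) + p (-Finsupp.single (i : ℕ) 1)),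
    Finset.sum_nonneg fun i _ => add_nonneg (hp.nn _) (hp.nn _), fun t => ?_⟩
  have h1 : hh p s t ≤ ∑ i : Fin s, p (t i • Finsupp.single (i : ℕ) (1 : ℝ)) := by
    unfold hh
    rw [ext, Fintype.linearCombination_apply]
    exact hp.sum_le _ _
  refine h1.trans ?_
  rw [Finset.sum_mul]
  refine Finset.sum_le_sum fun i _ => ?_
  have h2 : |t i| ≤ ‖t‖ := norm_le_pi_norm t i
  have h3 := hp.nn (Finsupp.single (i : ℕ) (1 : ℝ))
  have h4 := hp.nn (-Finsupp.single (i : ℕ) (1 : ℝ))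
  rcases le_or_gt 0 (t i) with h | h
  · rw [hp.smul _ _ h]
    rw [abs_of_nonneg h] at h2
    nlinarith [mul_le_mul_of_nonneg_right h2 h3, mul_nonneg h4 (norm_nonneg t)]
  · have h5 : t i • Finsupp.single (i : ℕ) (1 : ℝ) = (-t i) • (-Finsupp.single (i : ℕ) (1 : ℝ)) := by
      rw [smul_neg, neg_smul, neg_neg]
    rw [h5, hp.smul _ _ (by linarith)]
    rw [abs_of_neg h] at h2
    nlinarith [mul_le_mul_of_nonneg_right h2 h4, mul_nonneg h3 (norm_nonneg t)]

theorem hh_lipschitz (s : ℕ) : ∃ C, LipschitzWith C (hh p s) := by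
  obtain ⟨M, hM, hb⟩ := hh_bound hp s
  refine ⟨⟨M, hM⟩, LipschitzWith.of_dist_le_mul fun t u => ?_⟩
  rw [Real.dist_eq, dist_eq_norm, abs_sub_le_iff]
  have h1 := hh_add hp s u (t - u)
  have h2 := hh_add hp s t (u - t)
  rw [add_sub_cancel] at h1 h2
  have h3 := hb (t - u)
  have h4 := hb (u - t)
  rw [norm_sub_rev] at h4
  change hh p s t - hh p s u ≤ M * ‖t - u‖ ∧ hh p s u - hh p s t ≤ M * ‖t - u‖
  constructor <;> linarith

theorem exists_diff (s : ℕ) (y : Fin s → ℝ) (δ : ℝ) (hδ : 0 < δ) :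
    ∃ z, DifferentiableAt ℝ (hh p s) z ∧ hh p s (z - y) < δ ∧ hh p s (y - z) < δ := by
  obtain ⟨M, hM, hb⟩ := hh_bound hp s
  obtain ⟨C, hC⟩ := hh_lipschitz hp s
  have h1 := hC.ae_differentiableAt (μ := MeasureTheory.volume)
  have h2 := MeasureTheory.Measure.dense_of_ae h1
  obtain ⟨z, hz, hz'⟩ := h2.exists_dist_lt y (ε := δ / (M + 1)) (by positivity)
  refine ⟨z, hz, ?_, ?_⟩
  · refine (hb _).trans_lt ?_
    rw [← dist_eq_norm, dist_comm]
    rw [lt_div_iff₀ (by positivity)] at hz'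
    nlinarith [dist_nonneg (x := y) (y := z)]
  · refine (hb _).trans_lt ?_
    rw [← dist_eq_norm]
    rw [lt_div_iff₀ (by positivity)] at hz'
    nlinarith [dist_nonneg (x := y) (y := z)]

omit hp in
theorem slope_tendsto (s : ℕ) (z y : Fin s → ℝ) (hz : DifferentiableAt ℝ (hh p s) z) :
    Tendsto (fun t : ℝ => t⁻¹ * (hh p s (z + t • y) - hh p s z)) (𝓝[>] 0)
      (𝓝 (fderiv ℝ (hh p s) z y)) :=
  (hz.hasFDerivAt.hasLineDerivAt y).tendsto_slope_zero_right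

theorem fderiv_le (s : ℕ) (z y : Fin s → ℝ) (hz : DifferentiableAt ℝ (hh p s) z) :
    fderiv ℝ (hh p s) z y ≤ hh p s y := by
  refine le_of_tendsto (slope_tendsto s z y hz) ?_
  filter_upwards [self_mem_nhdsWithin] with t ht
  have ht' : (0 : ℝ) < t := ht
  have h1 := hh_add hp s z (t • y)
  rw [hh_smul hp s t y ht'.le] at h1
  rw [inv_mul_le_iff₀ ht']
  linarith

theorem fderiv_self (s : ℕ) (z : Fin s → ℝ) (hz : DifferentiableAt ℝ (hh p s) z) :
    fderiv ℝ (hh p s) z z = hh p s z := by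
  refine tendsto_nhds_unique (slope_tendsto s z z hz) ?_
  refine (tendsto_const_nhds (x := hh p s z)).congr' ?_
  filter_upwards [self_mem_nhdsWithin] with t ht
  have ht' : (0 : ℝ) < t := ht
  have h1 : z + t • z = (1 + t) • z := by rw [add_smul, one_smul]
  rw [h1, hh_smul hp s _ z (by linarith)]
  field_simp
  ring

theorem fderiv_lt (s : ℕ) (z a : Fin s → ℝ) (hz : DifferentiableAt ℝ (hh p s) z)
    (hP : 0 < hh p s z) (ha : fderiv ℝ (hh p s) z a < 1) :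
    ∃ t : ℝ, 0 < t ∧ t < 1 ∧ hh p s ((1 - t) • ((hh p s z)⁻¹ • z) + t • a) < 1 := by
  have h1 := slope_tendsto s z (hh p s z • a - z) hz
  have h2 : fderiv ℝ (hh p s) z (hh p s z • a - z) < 0 := by
    rw [map_sub, map_smul, fderiv_self hp s z hz, smul_eq_mul]
    nlinarith
  have h3 := h1.eventually (gt_mem_nhds h2)
  have h4 : ∀ᶠ t : ℝ in 𝓝[>] 0, t < 1 := by
    refine mem_nhdsWithin_of_mem_nhds ?_
    exact gt_mem_nhds one_pos
  obtain ⟨t, ⟨ht1, ht2⟩, ht3⟩ := ((h3.and h4).and self_mem_nhdsWithin).exists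
  have ht0 : (0 : ℝ) < t := ht3
  refine ⟨t, ht0, ht2, ?_⟩
  have h5 : (1 - t) • ((hh p s z)⁻¹ • z) + t • a
      = (hh p s z)⁻¹ • (z + t • (hh p s z • a - z)) := by
    funext i
    simp only [Pi.add_apply, Pi.smul_apply, Pi.sub_apply, smul_eq_mul]
    field_simp
    ring
  rw [h5, hh_smul hp s _ _ (inv_nonneg.2 hP.le), inv_mul_lt_iff₀ hP, mul_one]
  rw [inv_mul_lt_iff₀ ht0, mul_zero] at ht1
  linarith

end

/-- Smooth points at level `s`. -/
def Sm (p : A → ℝ) (s : ℕ) (x : A) : Prop :=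
  Low s x ∧ DifferentiableAt ℝ (hh p s) (res s x)

/-- The derivative at `x` applied to `a`. -/
noncomputable def phi (p : A → ℝ) (s : ℕ) (x a : A) : ℝ := fderiv ℝ (hh p s) (res s x) (res s a)

theorem phi_comb (p : A → ℝ) (s : ℕ) (x a b : A) (α β : ℝ) :
    phi p s x (α • a + β • b) = α * phi p s x a + β * phi p s x b := by
  unfold phi
  simp only [map_add, map_smul, smul_eq_mul]

theorem phi_smul (p : A → ℝ) (s : ℕ) (x a : A) (α : ℝ) :
    phi p s x (α • a) = α * phi p s x a := by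
  unfold phi
  simp only [map_smul, smul_eq_mul]

theorem phi_le {p : A → ℝ} (hp : Sub p) {s : ℕ} {x a : A} (hx : Sm p s x) (ha : Low s a) :
    phi p s x a ≤ p a := by
  have h1 := fderiv_le hp s (res s x) (res s a) hx.2
  rwa [hh, ext_res s a ha] at h1

theorem phi_self {p : A → ℝ} (hp : Sub p) {s : ℕ} {x : A} (hx : Sm p s x) :
    phi p s x x = p x := by
  have h1 := fderiv_self hp s (res s x) hx.2
  rw [hh, ext_res s x hx.1] at h1
  exact h1

theorem phi_lt {p : A → ℝ} (hp : Sub p) {s : ℕ} {x a : A} (hx : Sm p s x) (ha : Low s a)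
    (h0 : 0 < p x) (h : phi p s x a < 1) :
    ∃ t : ℝ, 0 < t ∧ t < 1 ∧ p ((1 - t) • ((p x)⁻¹ • x) + t • a) < 1 := by
  have h1 : hh p s (res s x) = p x := by rw [hh, ext_res s x hx.1]
  obtain ⟨t, ht0, ht1, ht2⟩ := fderiv_lt hp s (res s x) (res s a) hx.2 (by rw [h1]; exact h0) h
  refine ⟨t, ht0, ht1, ?_⟩
  rw [h1, hh, map_add, map_smul, map_smul, map_smul, ext_res s x hx.1, ext_res s a ha] at ht2
  exact ht2

/-- The set `B` is covered by `m` functionals below `p` on the level `s`. -/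
def Cov (p : A → ℝ) (s : ℕ) (B : Set A) (m : ℕ) : Prop :=
  ∃ T : Finset ((Fin s → ℝ) →ₗ[ℝ] ℝ), T.card ≤ m ∧ (∀ f ∈ T, ∀ t, f t ≤ hh p s t) ∧
    ∀ x ∈ B, ∃ f ∈ T, 1 < f (res s x)

theorem Cov.union {p : A → ℝ} {s : ℕ} {B B' : Set A} {m m' : ℕ} (h : Cov p s B m)
    (h' : Cov p s B' m') : Cov p s (B ∪ B') (m + m') := by
  classical
  obtain ⟨T, h1, h2, h3⟩ := h
  obtain ⟨T', h1', h2', h3'⟩ := h'
  refine ⟨T ∪ T', (Finset.card_union_le _ _).trans (by omega), ?_, ?_⟩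
  · intro f hf
    rcases Finset.mem_union.1 hf with hf | hf
    · exact h2 f hf
    · exact h2' f hf
  · rintro x (hx | hx)
    · obtain ⟨f, hf, hf'⟩ := h3 x hx
      exact ⟨f, Finset.mem_union_left _ hf, hf'⟩
    · obtain ⟨f, hf, hf'⟩ := h3' x hx
      exact ⟨f, Finset.mem_union_right _ hf, hf'⟩

theorem Cov.mono {p : A → ℝ} {s : ℕ} {B B' : Set A} {m m' : ℕ} (h : Cov p s B m)
    (hB : B' ⊆ B) (hm : m ≤ m') : Cov p s B' m' := by
  obtain ⟨T, h1, h2, h3⟩ := h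
  exact ⟨T, h1.trans hm, h2, fun x hx => h3 x (hB hx)⟩

/-- The points outside. -/
def W (p : A → ℝ) (D : Set A) : Set A := {x | x ∈ D ∧ 1 < p x}

/-- The smooth points outside which see the finite set `F`. -/
def BB (p : A → ℝ) (D : Set A) (s : ℕ) (F : Finset A) : Set A :=
  {x | x ∈ W p D ∧ Sm p s x ∧ ∀ a ∈ F, phi p s x a < 1}

/-- The finite set `F` can be extended in many ways. -/
def Big (p : A → ℝ) (D : Set A) (F : Finset A) : Prop :=
  ∀ m k : ℕ, ∃ s, k ≤ s ∧ ¬ Cov p s (BB p D s F) m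

theorem low_zero (s : ℕ) : Low s 0 := fun _ _ => rfl

section

variable {p : A → ℝ} (hp : Sub p) {D : Set A} (hD : Convex ℝ D) (hC : ∀ x, p x ≤ 1 → x ∈ D)

include hp hD hC

/-- Starting point: nothing chosen yet. -/
theorem big_empty
    (H : ∀ m : ℕ, ∃ S : Finset A, (∀ x ∈ S, x ∈ D ∧ 1 < p x) ∧
      ∀ c : A → Fin m, ∃ i, ∃ z ∈ convexHull ℝ {x | x ∈ S ∧ c x = i}, p z ≤ 1) :
    Big p D ∅ := by
  classical
  intro m k
  obtain ⟨S, hS, hS'⟩ := H (m + 1)
  obtain ⟨s₀, hs₀⟩ := exists_low_finset S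
  refine ⟨max k s₀, le_max_left _ _, ?_⟩
  set s := max k s₀
  rintro ⟨T, hT1, hT2, hT3⟩
  have hlow : ∀ x ∈ S, Low s x := fun x hx => (hs₀ x hx).mono (le_max_right _ _)
  have key : ∀ x ∈ S, ∃ f ∈ T, 1 < f (res s x) := by
    intro x hx
    obtain ⟨hxD, hx1⟩ := hS x hx
    obtain ⟨l, hl1, hl2⟩ : ∃ l : ℝ, (p x)⁻¹ < l ∧ l < 1 := exists_between (inv_lt_one_of_one_lt₀ hx1)
    have hl0 : 0 < l := (inv_pos.2 (by linarith)).trans hl1
    have hl3 : 1 < l * p x := by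
      rw [inv_lt_iff_one_lt_mul₀ (by linarith)] at hl1
      linarith
    obtain ⟨z, hz, hz1, hz2⟩ := exists_diff hp s (l • res s x) (min (1 - l) (l * p x - 1))
      (lt_min (by linarith) (by linarith))
    have hz3 : p (ext s z - l • x) < min (1 - l) (l * p x - 1) := by
      rw [hh, map_sub, map_smul, ext_res s x (hlow x hx)] at hz1
      exact hz1
    have hz4 : p (l • x - ext s z) < min (1 - l) (l * p x - 1) := by
      rw [hh, map_sub, map_smul, ext_res s x (hlow x hx)] at hz2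
      exact hz2
    have hz5 : 1 < p (ext s z) := by
      have h1 := hp.add (ext s z) (l • x - ext s z)
      rw [add_sub_cancel, hp.smul l x hl0.le] at h1
      have h2 := min_le_right (1 - l) (l * p x - 1)
      linarith
    have hz6 : ext s z ∈ D := by
      have h1 : ext s z = l • x + (1 - l) • ((1 - l)⁻¹ • (ext s z - l • x)) := by
        rw [smul_smul, mul_inv_cancel₀ (by linarith), one_smul]
        abel
      rw [h1]
      refine hD hxD (hC _ ?_) hl0.le (by linarith) (by ring)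
      rw [hp.smul _ _ (inv_nonneg.2 (by linarith)), inv_mul_le_iff₀ (by linarith), mul_one]
      exact (hz3.trans_le (min_le_left _ _)).le
    obtain ⟨f, hf, hf'⟩ := hT3 (ext s z) ⟨⟨hz6, hz5⟩, ⟨low_ext s z, by rw [res_ext]; exact hz⟩,
      fun a ha => absurd ha (Finset.notMem_empty a)⟩
    refine ⟨f, hf, ?_⟩
    rw [res_ext] at hf'
    have h1 := hT2 f hf (z - l • res s x)
    rw [map_sub, map_smul, smul_eq_mul] at h1
    have h2 : hh p s (z - l • res s x) < 1 - l := hz1.trans_le (min_le_left _ _)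
    nlinarith
  have hcard : ∃ g : ((Fin s → ℝ) →ₗ[ℝ] ℝ) → Fin (m + 1), ∀ f ∈ T, ∀ f' ∈ T, g f = g f' → f = f' := by
    have e := T.equivFin
    refine ⟨fun f => if hf : f ∈ T then ⟨(e ⟨f, hf⟩ : ℕ), by have := (e ⟨f, hf⟩).2; omega⟩ else 0,
      fun f hf f' hf' h => ?_⟩
    simp only [hf, hf', dif_pos, Fin.mk.injEq] at h
    have h1 := e.injective (Fin.ext h)
    exact congrArg Subtype.val h1
  obtain ⟨g, hg⟩ := hcard
  choose! F hF hF' using key
  obtain ⟨i, z, hz, hz'⟩ := hS' (fun x => g (F x))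
  have hne : {x | x ∈ S ∧ g (F x) = i}.Nonempty := by
    rw [← convexHull_nonempty_iff (𝕜 := ℝ)]
    exact ⟨z, hz⟩
  obtain ⟨y, hy, hyi⟩ := hne
  have hsub : {x | x ∈ S ∧ g (F x) = i} ⊆ {x | Low s x ∧ 1 < F y (res s x)} := by
    rintro x ⟨hx, hxi⟩
    refine ⟨hlow x hx, ?_⟩
    have h1 : F x = F y := hg _ (hF x hx) _ (hF y hy) (hxi.trans hyi.symm)
    rw [← h1]
    exact hF' x hx
  have hconv : Convex ℝ {x | Low s x ∧ 1 < F y (res s x)} := by
    rintro a ⟨ha, ha'⟩ b ⟨hb, hb'⟩ α β hα hβ hαβ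
    refine ⟨(ha.smul α).add (hb.smul β), ?_⟩
    rw [map_add, map_add, map_smul, map_smul, map_smul, map_smul, smul_eq_mul, smul_eq_mul]
    rcases hα.eq_or_lt with h | h
    · have h2 : β = 1 := by linarith
      rw [← h, h2]
      linarith
    · nlinarith
  obtain ⟨hz1, hz2⟩ := convexHull_min hsub hconv hz
  have h1 := hT2 _ (hF y hy) (res s z)
  rw [hh, ext_res s z hz1] at h1
  linarith

/-- One step of the construction. -/
theorem step (F : Finset A) (hF : Big p D F) :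
    ∃ b ∈ W p D, (∀ a ∈ F, ∃ t : ℝ, 0 ≤ t ∧ t ≤ 1 ∧ p ((1 - t) • a + t • b) ≤ 1) ∧
      ∃ F' : Finset A, (∀ x, x ∈ F' ↔ x = b ∨ x ∈ F) ∧ Big p D F' := by
  classical
  obtain ⟨s₀, hs₀⟩ := exists_low_finset F
  obtain ⟨s, hs, hcov⟩ := hF 1 s₀
  have hlow : ∀ x ∈ F, Low s x := fun x hx => (hs₀ x hx).mono hs
  obtain ⟨x₁, hx₁⟩ : ∃ x₁, x₁ ∈ BB p D s F := by
    by_contra hcon
    push Not at hcon
    exact hcov ⟨∅, by simp, by simp, fun x hx => absurd hx (hcon x)⟩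
  obtain ⟨x₂, hx₂, hx₂'⟩ : ∃ x₂ ∈ BB p D s F, phi p s x₁ x₂ ≤ 1 := by
    by_contra hcon
    push Not at hcon
    refine hcov ⟨{(fderiv ℝ (hh p s) (res s x₁) : (Fin s → ℝ) →ₗ[ℝ] ℝ)}, by simp, ?_, ?_⟩
    · intro f hf t
      rw [Finset.mem_singleton] at hf
      rw [hf]
      exact fderiv_le hp s _ _ hx₁.2.1.2
    · intro x hx
      exact ⟨_, Finset.mem_singleton_self _, hcon x hx⟩
  have hP₁ : 1 < p x₁ := hx₁.1.2
  have hP₂ : 1 < p x₂ := hx₂.1.2
  set q₁ := (p x₁)⁻¹ • x₁ with hq₁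
  set q₂ := (p x₂)⁻¹ • x₂ with hq₂
  have hpq₁ : p q₁ = 1 := by
    rw [hq₁, hp.smul _ _ (inv_nonneg.2 (by linarith))]
    exact inv_mul_cancel₀ (by linarith)
  have hpq₂ : p q₂ = 1 := by
    rw [hq₂, hp.smul _ _ (inv_nonneg.2 (by linarith))]
    exact inv_mul_cancel₀ (by linarith)
  have hL₁ : Low s q₁ := hx₁.2.1.1.smul _
  have hL₂ : Low s q₂ := hx₂.2.1.1.smul _
  obtain ⟨t, ht0, ht1, ht⟩ := phi_lt hp hx₁.2.1 hL₂ (by linarith) (by
    rw [hq₂, phi_smul]
    rw [inv_mul_lt_iff₀ (by linarith), mul_one]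
    linarith)
  rw [← hq₁] at ht
  -- adjacency with the points of `F`, uniformly
  have hadj : ∀ x ∈ BB p D s F, ∀ a ∈ F, ∀ᶠ ε : ℝ in 𝓝[>] 0,
      ∃ t : ℝ, 0 ≤ t ∧ t ≤ 1 ∧ p ((1 - t) • a + t • ((1 + ε) • ((p x)⁻¹ • x))) ≤ 1 := by
    intro x hx a ha
    have hx1 : 1 < p x := hx.1.2
    obtain ⟨r, hr0, hr1, hr⟩ := phi_lt hp hx.2.1 (hlow a ha) (by linarith) (hx.2.2 a ha)
    have h1 : ∀ᶠ ε : ℝ in 𝓝[>] 0, ε < 1 - p ((1 - r) • ((p x)⁻¹ • x) + r • a) :=
      mem_nhdsWithin_of_mem_nhds (gt_mem_nhds (by linarith))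
    filter_upwards [h1, self_mem_nhdsWithin] with ε hε hε0
    have hε0' : (0 : ℝ) < ε := hε0
    refine ⟨1 - r, by linarith, by linarith, ?_⟩
    have h2 : (1 - (1 - r)) • a + (1 - r) • ((1 + ε) • ((p x)⁻¹ • x))
        = ((1 - r) • ((p x)⁻¹ • x) + r • a) + ((1 - r) * ε) • ((p x)⁻¹ • x) := by
      rw [sub_sub_cancel, add_smul (1 : ℝ) ε, one_smul, smul_add, smul_smul (1 - r) ε]
      abel
    rw [h2]
    refine (hp.add _ _).trans ?_
    rw [hp.smul _ ((p x)⁻¹ • x) (by nlinarith), hp.smul _ x (inv_nonneg.2 (by linarith)),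
      inv_mul_cancel₀ (by linarith)]
    nlinarith
  have hadj' : ∀ x ∈ BB p D s F, ∀ᶠ ε : ℝ in 𝓝[>] 0, ∀ a ∈ F,
      ∃ t : ℝ, 0 ≤ t ∧ t ≤ 1 ∧ p ((1 - t) • a + t • ((1 + ε) • ((p x)⁻¹ • x))) ≤ 1 := by
    intro x hx
    rw [Finset.eventually_all]
    exact hadj x hx
  have hW : ∀ x ∈ BB p D s F, ∀ᶠ ε : ℝ in 𝓝[>] 0, (1 + ε) • ((p x)⁻¹ • x) ∈ W p D := by
    intro x hx
    have hx1 : 1 < p x := hx.1.2
    have h1 : ∀ᶠ ε : ℝ in 𝓝[>] 0, ε < p x - 1 :=
      mem_nhdsWithin_of_mem_nhds (gt_mem_nhds (by linarith))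
    filter_upwards [h1, self_mem_nhdsWithin] with ε hε hε0
    have hε0' : (0 : ℝ) < ε := hε0
    have h0 : (0 : A) ∈ D := hC 0 (by rw [hp.zero]; exact zero_le_one)
    constructor
    · rw [smul_smul]
      have h2 : (1 + ε) * (p x)⁻¹ ≤ 1 := by
        rw [mul_inv_le_iff₀ (by linarith)]
        linarith
      have h3 : 0 ≤ (1 + ε) * (p x)⁻¹ := mul_nonneg (by linarith) (inv_nonneg.2 (by linarith))
      exact hD.smul_mem_of_zero_mem h0 hx.1.1 ⟨h3, h2⟩
    · rw [hp.smul _ _ (by linarith), hp.smul _ _ (inv_nonneg.2 (by linarith)),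
        inv_mul_cancel₀ (by linarith)]
      linarith
  have hq : ∀ᶠ ε : ℝ in 𝓝[>] 0, (1 + ε) * p ((1 - t) • q₁ + t • q₂) < 1 := by
    have h1 : Tendsto (fun ε : ℝ => (1 + ε) * p ((1 - t) • q₁ + t • q₂)) (𝓝 0)
        (𝓝 ((1 + 0) * p ((1 - t) • q₁ + t • q₂))) :=
      ((continuous_const.add continuous_id).mul continuous_const).tendsto 0
    exact (h1.mono_left nhdsWithin_le_nhds).eventually (gt_mem_nhds (by linarith))
  obtain ⟨ε, ⟨⟨⟨⟨⟨hε1, hε2⟩, hε3⟩, hε4⟩, hε5⟩, hε0⟩⟩ :=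
    (((((((hadj' x₁ hx₁).and (hadj' x₂ hx₂)).and (hW x₁ hx₁)).and (hW x₂ hx₂)).and hq).and
      self_mem_nhdsWithin)).exists
  have hε0' : (0 : ℝ) < ε := hε0
  set b₁ := (1 + ε) • q₁ with hb₁
  set b₂ := (1 + ε) • q₂ with hb₂
  have hLb₁ : Low s b₁ := hL₁.smul _
  have hLb₂ : Low s b₂ := hL₂.smul _
  have hbb : p ((1 - t) • b₁ + t • b₂) < 1 := by
    have h1 : (1 - t) • b₁ + t • b₂ = (1 + ε) • ((1 - t) • q₁ + t • q₂) := by
      rw [hb₁, hb₂, smul_add, smul_comm (1 + ε) (1 - t), smul_comm (1 + ε) t]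
    rw [h1, hp.smul _ _ (by linarith)]
    exact hε5
  by_cases hbig : Big p D (insert b₁ F)
  · exact ⟨b₁, hε3, hε1, insert b₁ F, fun x => Finset.mem_insert, hbig⟩
  by_cases hbig' : Big p D (insert b₂ F)
  · exact ⟨b₂, hε4, hε2, insert b₂ F, fun x => Finset.mem_insert, hbig'⟩
  exfalso
  unfold Big at hbig hbig'
  push Not at hbig hbig'
  obtain ⟨m₁, k₁, h₁⟩ := hbig
  obtain ⟨m₂, k₂, h₂⟩ := hbig'
  obtain ⟨r, hr, hrcov⟩ := hF (m₁ + m₂) (max (max k₁ k₂) s)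
  have hr1 : k₁ ≤ r := ((le_max_left _ _).trans (le_max_left _ _)).trans hr
  have hr2 : k₂ ≤ r := ((le_max_right _ _).trans (le_max_left _ _)).trans hr
  have hr3 : s ≤ r := (le_max_right _ _).trans hr
  apply hrcov
  refine ((h₁ r hr1).union (h₂ r hr2)).mono ?_ le_rfl
  intro x hx
  by_cases hx1 : phi p r x b₁ < 1
  · left
    refine ⟨hx.1, hx.2.1, fun a ha => ?_⟩
    rcases Finset.mem_insert.1 ha with rfl | ha
    · exact hx1
    · exact hx.2.2 a ha
  · right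
    refine ⟨hx.1, hx.2.1, fun a ha => ?_⟩
    rcases Finset.mem_insert.1 ha with rfl | ha
    · by_contra hx2
      have h3 := phi_le hp hx.2.1 (((hLb₁.mono hr3).smul (1 - t)).add ((hLb₂.mono hr3).smul t))
      rw [phi_comb] at h3
      push Not at hx1 hx2
      nlinarith
    · exact hx.2.2 a ha

/-- **The core theorem.** -/
theorem core
    (H : ∀ m : ℕ, ∃ S : Finset A, (∀ x ∈ S, x ∈ D ∧ 1 < p x) ∧
      ∀ c : A → Fin m, ∃ i, ∃ z ∈ convexHull ℝ {x | x ∈ S ∧ c x = i}, p z ≤ 1) :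
    ∃ a : ℕ → A, (∀ n, a n ∈ D ∧ 1 < p (a n)) ∧
      ∀ n m, n < m → ∃ t : ℝ, 0 ≤ t ∧ t ≤ 1 ∧ p ((1 - t) • a n + t • a m) ≤ 1 := by
  choose b hb hb1 F' hF' hbig using step hp hD hC
  let st : ℕ → {F : Finset A // Big p D F} := fun n =>
    Nat.rec ⟨∅, big_empty hp hD hC H⟩ (fun _ F => ⟨F' F.1 F.2, hbig F.1 F.2⟩) n
  have hst : ∀ n, (st (n + 1)).1 = F' (st n).1 (st n).2 := fun n => rfl
  have hmem : ∀ n m, n < m → b (st n).1 (st n).2 ∈ (st m).1 := by
    intro n m hnm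
    induction m with
    | zero => omega
    | succ m ih =>
      rw [hst, hF']
      rcases Nat.lt_succ_iff_lt_or_eq.1 hnm with h | h
      · exact Or.inr (ih h)
      · subst h
        exact Or.inl rfl
  refine ⟨fun n => b (st n).1 (st n).2, fun n => hb _ _, fun n m hnm => ?_⟩
  exact hb1 _ _ _ (hmem n m hnm)

end

end Pool.Agent.Q147.Hide
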