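import Pool.Agent.Q147.Hide
import Mathlib

set_option autoImplicit false

/-!
# Sets hiding infinite sets: the theorem in complete linear metric spaces
-/

open Set Topology Filter Pointwise

namespace Pool.Agent.Q147.HideX

open Pool.Agent.Q147.Hide

universe u

section center

variable {X : Type u} [AddCommGroup X] [Module ℝ X] [TopologicalSpace X]
  [IsTopologicalAddGroup X] [ContinuousSMul ℝ X] [TopologicalSpace.IsCompletelyMetrizableSpace X]

/-- A point of `C` which is central with respect to countably many points of `C`. -/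
theorem center (C : Set X) (hC : IsClosed C) (hCc : Convex ℝ C) (c : ℕ → X) (hc : ∀ n, c n ∈ C) :
    ∃ o ∈ C, ∀ n, ∃ β : ℝ, 0 < β ∧ o + β • (o - c n) ∈ C := by
  let _ := TopologicalSpace.upgradeIsCompletelyMetrizable X
  have h1 : ∀ (k : ℕ) (s : X), ∃ l : ℝ, 0 < l ∧ l ≤ (1 / 2) ^ (k + 2) ∧
      dist s ((1 - l) • s + l • c k) ≤ 1 * (1 / 2) ^ k := by
    intro k s
    have hcont : Continuous (fun l : ℝ => (1 - l) • s + l • c k) := by fun_prop
    have h2 : Tendsto (fun l : ℝ => dist s ((1 - l) • s + l • c k)) (𝓝 0) (𝓝 0) := by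
      have h3 := (continuous_const (y := s)).dist hcont |>.tendsto 0
      simpa using h3
    have h4 : ∀ᶠ l : ℝ in 𝓝[>] 0, dist s ((1 - l) • s + l • c k) < 1 * (1 / 2) ^ k :=
      (h2.mono_left nhdsWithin_le_nhds).eventually (gt_mem_nhds (by positivity))
    have h5 : ∀ᶠ l : ℝ in 𝓝[>] 0, l < (1 / 2) ^ (k + 2) :=
      mem_nhdsWithin_of_mem_nhds (gt_mem_nhds (by positivity))
    obtain ⟨l, ⟨hl1, hl2⟩, hl3⟩ := ((h4.and h5).and self_mem_nhdsWithin).exists
    exact ⟨l, hl3, hl2.le, hl1.le⟩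
  choose lam hlam0 hlam1 hlam2 using h1
  let s : ℕ → X := fun n => Nat.rec (c 0) (fun k x => (1 - lam k x) • x + lam k x • c k) n
  have hs : ∀ k, s (k + 1) = (1 - lam k (s k)) • s k + lam k (s k) • c k := fun k => rfl
  have hl4 : ∀ k (x : X), lam k x ≤ 1 / 4 := by
    intro k x
    refine (hlam1 k x).trans ?_
    have : ((1 : ℝ) / 2) ^ (k + 2) = (1 / 2) ^ k * (1 / 4) := by rw [pow_add]; norm_num
    rw [this]
    have h2 : ((1 : ℝ) / 2) ^ k ≤ 1 := pow_le_one₀ (by norm_num) (by norm_num)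
    nlinarith
  have hsC : ∀ k, s k ∈ C := by
    intro k
    induction k with
    | zero => exact hc 0
    | succ k ih =>
      rw [hs]
      exact hCc ih (hc k) (by linarith [hl4 k (s k)]) (hlam0 k (s k)).le (by ring)
  have hcau : CauchySeq s := cauchySeq_of_le_geometric (1 / 2) 1 (by norm_num) (fun n => by
    rw [hs]
    exact hlam2 n (s n))
  obtain ⟨o, ho⟩ := cauchySeq_tendsto_of_complete hcau
  refine ⟨o, hC.mem_of_tendsto ho (Eventually.of_forall hsC), fun n => ?_⟩
  set b := lam n (s n) with hb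
  have hb0 : 0 < b := hlam0 n (s n)
  have hb4 : b ≤ 1 / 4 := hl4 n (s n)
  have key : ∀ i : ℕ, ∃ (γ : ℝ) (z : X), b * (1 / 2 + (1 / 2) ^ (i + 1)) ≤ γ ∧ γ ≤ 1 / 4 ∧ z ∈ C ∧
      s (n + 1 + i) = γ • c n + (1 - γ) • z := by
    intro i
    induction i with
    | zero =>
      refine ⟨b, s n, by norm_num, hb4, hsC n, ?_⟩
      rw [add_zero, hs, ← hb, add_comm]
    | succ i ih =>
      obtain ⟨γ, z, hγ1, hγ2, hz, hsz⟩ := ih
      set l := lam (n + 1 + i) (s (n + 1 + i)) with hl
      have hl0 : 0 < l := hlam0 _ _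
      have hl1 : l ≤ 1 / 4 := hl4 _ _
      have hl2 : l ≤ (1 / 2) ^ (i + 3) := by
        refine (hlam1 _ _).trans ?_
        exact pow_le_pow_of_le_one (by norm_num) (by norm_num) (by omega)
      have hγ0 : 0 < γ := lt_of_lt_of_le (by positivity) hγ1
      have hd : 0 < 1 - (1 - l) * γ := by nlinarith
      refine ⟨(1 - l) * γ, ((1 - l) * (1 - γ) / (1 - (1 - l) * γ)) • z
        + (l / (1 - (1 - l) * γ)) • c (n + 1 + i), ?_, by nlinarith, ?_, ?_⟩
      · have hx : ((1 : ℝ) / 2) ^ (i + 1 + 1) = (1 / 2) ^ (i + 1) * (1 / 2) := pow_succ _ _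
        have hx3 : ((1 : ℝ) / 2) ^ (i + 3) = (1 / 2) ^ (i + 1) * (1 / 4) := by
          rw [show i + 3 = (i + 1) + 2 from rfl, pow_add]; norm_num
        have hx1 : ((1 : ℝ) / 2) ^ (i + 1) ≤ 1 := pow_le_one₀ (by norm_num) (by norm_num)
        have hx0 : 0 < ((1 : ℝ) / 2) ^ (i + 1) := by positivity
        rw [hx]
        rw [hx3] at hl2
        set x := ((1 : ℝ) / 2) ^ (i + 1)
        have h6 : b * (1 / 2 + x * (1 / 2)) ≤ (1 - l) * (b * (1 / 2 + x)) := by
          have h7 : 0 ≤ b * (x / 2 - l * (1 / 2 + x)) := by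
            apply mul_nonneg hb0.le
            nlinarith
          nlinarith
        refine h6.trans ?_
        exact mul_le_mul_of_nonneg_left hγ1 (by linarith)
      · refine hCc hz (hc _) (div_nonneg (mul_nonneg (by linarith) (by linarith)) hd.le)
          (div_nonneg hl0.le hd.le) ?_
        field_simp
        ring
      · rw [← add_assoc, hs, ← hl, hsz, smul_add (1 - (1 - l) * γ), smul_smul (1 - (1 - l) * γ),
          smul_smul (1 - (1 - l) * γ), mul_div_cancel₀ _ hd.ne', mul_div_cancel₀ _ hd.ne',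
          smul_add, smul_smul, smul_smul, add_assoc]
  refine ⟨b / 2, by linarith, ?_⟩
  have hlim : Tendsto (fun i => s (n + 1 + i) + (b / 2) • (s (n + 1 + i) - c n)) atTop
      (𝓝 (o + (b / 2) • (o - c n))) := by
    have h2 : Tendsto (fun i => s (n + 1 + i)) atTop (𝓝 o) := by
      have h3 := (tendsto_add_atTop_iff_nat (n + 1)).2 ho
      refine h3.congr fun i => ?_
      rw [add_comm]
    exact h2.add ((h2.sub tendsto_const_nhds).const_smul _)
  refine hC.mem_of_tendsto hlim (Eventually.of_forall fun i => ?_)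
  obtain ⟨γ, z, hγ1, hγ2, hz, hsz⟩ := key i
  have hγ3 : b / 2 ≤ γ := by
    have h2 : 0 < ((1 : ℝ) / 2) ^ (i + 1) := by positivity
    nlinarith
  have h4 : s (n + 1 + i) + (b / 2) • (s (n + 1 + i) - c n)
      = ((1 + b / 2) * γ - b / 2) • c n + ((1 + b / 2) * (1 - γ)) • z := by
    rw [hsz]
    module
  show s (n + 1 + i) + (b / 2) • (s (n + 1 + i) - c n) ∈ C
  rw [h4]
  exact hCc (hc n) hz (by nlinarith) (mul_nonneg (by linarith) (by linarith)) (by ring)

end center

section gaugepart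

variable {X : Type u} [AddCommGroup X] [Module ℝ X] [TopologicalSpace X]
  [IsTopologicalAddGroup X] [ContinuousSMul ℝ X]

/-- The pull back of `C` to the space of finitely supported sequences. -/
def pull (L : A →ₗ[ℝ] X) (o : X) (C : Set X) : Set A := {α | o + L α ∈ C}

omit [TopologicalSpace X] [IsTopologicalAddGroup X] [ContinuousSMul ℝ X] in
theorem pull_convex (L : A →ₗ[ℝ] X) (o : X) {C : Set X} (hC : Convex ℝ C) :
    Convex ℝ (pull L o C) := by
  intro a ha b hb s t hs ht hst
  show o + L (s • a + t • b) ∈ C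
  have h1 : o + L (s • a + t • b) = s • (o + L a) + t • (o + L b) := by
    rw [map_add, map_smul, map_smul, smul_add, smul_add]
    have h2 : o = s • o + t • o := by rw [← add_smul, hst, one_smul]
    nth_rw 1 [h2]
    abel
  rw [h1]
  exact hC ha hb hs ht hst

omit [TopologicalSpace X] [IsTopologicalAddGroup X] [ContinuousSMul ℝ X] in
theorem pull_absorbent (c : ℕ → X) (o : X) {C : Set X} (hC : Convex ℝ C) (ho : o ∈ C)
    (hc : ∀ n, c n ∈ C) (hβ : ∀ n, ∃ β : ℝ, 0 < β ∧ o + β • (o - c n) ∈ C) :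
    Absorbent ℝ (pull (Finsupp.linearCombination ℝ (fun n => c n - o)) o C) := by
  set L := Finsupp.linearCombination ℝ (fun n => c n - o) with hL
  have hconv := pull_convex L o hC
  have h0 : (0 : A) ∈ pull L o C := by
    show o + L 0 ∈ C
    rw [map_zero, add_zero]
    exact ho
  have key : ∀ x : A, ∃ ε : ℝ, 0 < ε ∧ ε • x ∈ pull L o C ∧ ε • (-x) ∈ pull L o C := by
    intro x
    induction x using Finsupp.induction_linear with
    | zero => exact ⟨1, one_pos, by simpa using h0, by simpa using h0⟩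
    | add f g hf hg =>
      obtain ⟨ε, hε, h1, h2⟩ := hf
      obtain ⟨ε', hε', h1', h2'⟩ := hg
      refine ⟨ε * ε' / (ε + ε'), by positivity, ?_, ?_⟩
      · have h3 : (ε * ε' / (ε + ε')) • (f + g)
            = (ε' / (ε + ε')) • (ε • f) + (ε / (ε + ε')) • (ε' • g) := by
          rw [smul_add, smul_smul, smul_smul]
          congr 2 <;> ring
        rw [h3]
        exact hconv h1 h1' (by positivity) (by positivity) (by field_simp; ring)
      · have h3 : (ε * ε' / (ε + ε')) • (-(f + g))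
            = (ε' / (ε + ε')) • (ε • (-f)) + (ε / (ε + ε')) • (ε' • (-g)) := by
          rw [neg_add, smul_add, smul_smul, smul_smul]
          congr 2 <;> ring
        rw [h3]
        exact hconv h2 h2' (by positivity) (by positivity) (by field_simp; ring)
    | single n r =>
      obtain ⟨β, hβ0, hβ1⟩ := hβ n
      have hp : Finsupp.single n (1 : ℝ) ∈ pull L o C := by
        show o + L (Finsupp.single n 1) ∈ C
        rw [hL, Finsupp.linearCombination_single, one_smul, add_sub_cancel]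
        exact hc n
      have hm : β • (-Finsupp.single n (1 : ℝ)) ∈ pull L o C := by
        show o + L (β • (-Finsupp.single n (1 : ℝ))) ∈ C
        rw [map_smul, map_neg, hL, Finsupp.linearCombination_single, one_smul, neg_sub]
        exact hβ1
      have hs : ∀ t : ℝ, 0 ≤ t → t ≤ 1 → t • Finsupp.single n (1 : ℝ) ∈ pull L o C :=
        fun t h1 h2 => hconv.smul_mem_of_zero_mem h0 hp ⟨h1, h2⟩
      have hs' : ∀ t : ℝ, 0 ≤ t → t ≤ β → t • (-Finsupp.single n (1 : ℝ)) ∈ pull L o C := by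
        intro t h1 h2
        have h3 := hconv.smul_mem_of_zero_mem h0 hm (t := t / β)
          ⟨by positivity, (div_le_one hβ0).2 h2⟩
        rwa [smul_smul, div_mul_cancel₀ _ hβ0.ne'] at h3
      have hr1 : Finsupp.single n r = r • Finsupp.single n (1 : ℝ) := by simp
      rcases le_or_gt 0 r with hr | hr
      · refine ⟨min 1 β / (r + 1), by positivity, ?_, ?_⟩
        · rw [hr1, smul_smul]
          apply hs _ (by positivity)
          rw [div_mul_eq_mul_div, div_le_one (by positivity)]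
          nlinarith [min_le_left 1 β, lt_min one_pos hβ0]
        · rw [hr1, ← smul_neg, smul_smul]
          apply hs' _ (by positivity)
          rw [div_mul_eq_mul_div, div_le_iff₀ (by positivity)]
          nlinarith [min_le_right 1 β, lt_min one_pos hβ0]
      · have hr' : 0 < -r := by linarith
        refine ⟨min 1 β / (-r + 1), by positivity, ?_, ?_⟩
        · have h5 : (min 1 β / (-r + 1)) • Finsupp.single n r
              = (min 1 β / (-r + 1) * (-r)) • (-Finsupp.single n (1 : ℝ)) := by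
            rw [hr1, smul_smul, smul_neg, ← neg_smul]
            congr 1
            ring
          rw [h5]
          apply hs' _ (by positivity)
          rw [div_mul_eq_mul_div, div_le_iff₀ (by positivity)]
          nlinarith [min_le_right 1 β, lt_min one_pos hβ0]
        · have h5 : (min 1 β / (-r + 1)) • (-Finsupp.single n r)
              = (min 1 β / (-r + 1) * (-r)) • (Finsupp.single n (1 : ℝ)) := by
            rw [hr1, smul_neg, smul_smul, ← neg_smul]
            congr 1
            ring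
          rw [h5]
          apply hs _ (by positivity)
          rw [div_mul_eq_mul_div, div_le_one (by positivity)]
          nlinarith [min_le_left 1 β, lt_min one_pos hβ0]
  have key2 : ∀ x : A, ∃ ε : ℝ, 0 < ε ∧ ∀ t : ℝ, |t| ≤ ε → t • x ∈ pull L o C := by
    intro x
    obtain ⟨ε, hε, h1, h2⟩ := key x
    refine ⟨ε, hε, fun t ht => ?_⟩
    rcases le_or_gt 0 t with h | h
    · rw [abs_of_nonneg h] at ht
      have h3 := hconv.smul_mem_of_zero_mem h0 h1 (t := t / ε)
        ⟨by positivity, (div_le_one hε).2 ht⟩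
      rwa [smul_smul, div_mul_cancel₀ _ hε.ne'] at h3
    · rw [abs_of_neg h] at ht
      have h3 := hconv.smul_mem_of_zero_mem h0 h2 (t := -t / ε)
        ⟨div_nonneg (by linarith) hε.le, (div_le_one hε).2 ht⟩
      rw [smul_smul, div_mul_cancel₀ _ hε.ne', smul_neg, neg_smul, neg_neg] at h3
      exact h3
  intro x
  obtain ⟨ε, hε, h⟩ := key2 x
  rw [absorbs_iff_norm]
  refine ⟨ε⁻¹, fun t ht => ?_⟩
  rw [Set.singleton_subset_iff]
  have ht0 : t ≠ 0 := by
    rintro rfl
    rw [norm_zero] at ht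
    exact absurd ht (not_le.2 (inv_pos.2 hε))
  rw [Set.mem_smul_set_iff_inv_smul_mem₀ ht0]
  apply h
  rw [abs_inv]
  rw [Real.norm_eq_abs] at ht
  rw [inv_le_comm₀ (abs_pos.2 ht0) hε]
  exact ht

omit [TopologicalSpace X] [IsTopologicalAddGroup X] [ContinuousSMul ℝ X]
  [AddCommGroup X] [Module ℝ X] in
theorem gauge_smul' (s : Set A) (r : ℝ) (hr : 0 ≤ r) (x : A) : gauge s (r • x) = r * gauge s x := by
  have h := gauge_smul_of_nonneg (α := ℝ) (s := s) hr x
  rw [smul_eq_mul] at h
  exact h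

theorem gauge_le_one_iff' (L : A →ₗ[ℝ] X) (o : X) {C : Set X} (hC : IsClosed C)
    (hCc : Convex ℝ C) (ho : o ∈ C) (habs : Absorbent ℝ (pull L o C)) (x : A) :
    gauge (pull L o C) x ≤ 1 ↔ x ∈ pull L o C := by
  have hconv := pull_convex L o hCc
  have h0 : (0 : A) ∈ pull L o C := by
    show o + L 0 ∈ C
    rw [map_zero, add_zero]
    exact ho
  refine ⟨fun h => ?_, gauge_le_one_of_mem⟩
  have h1 : ∀ r : ℝ, 0 < r → r < 1 → o + r • L x ∈ C := by
    intro r hr hr1
    have h2 : gauge (pull L o C) (r • x) < 1 := by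
      rw [gauge_smul' _ r hr.le]
      have := gauge_nonneg (s := pull L o C) x
      nlinarith
    obtain ⟨b, hb0, hb1, hb2⟩ := exists_lt_of_gauge_lt habs h2
    rw [Set.mem_smul_set] at hb2
    obtain ⟨y, hy, hy'⟩ := hb2
    have h3 : r • x ∈ pull L o C := by
      rw [← hy']
      exact hconv.smul_mem_of_zero_mem h0 hy ⟨hb0.le, hb1.le⟩
    have h4 : o + L (r • x) ∈ C := h3
    rwa [map_smul] at h4
  have h2 : Tendsto (fun r : ℝ => o + r • L x) (𝓝[<] 1) (𝓝 (o + (1 : ℝ) • L x)) := by
    have hcont : Continuous (fun r : ℝ => o + r • L x) := by fun_prop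
    exact (hcont.tendsto 1).mono_left nhdsWithin_le_nhds
  rw [one_smul] at h2
  refine hC.mem_of_tendsto h2 ?_
  have h3 : ∀ᶠ r : ℝ in 𝓝[<] 1, 0 < r := mem_nhdsWithin_of_mem_nhds (lt_mem_nhds one_pos)
  filter_upwards [h3, self_mem_nhdsWithin] with r hr hr1
  exact h1 r hr hr1

end gaugepart

section reduction

variable {X : Type u} [AddCommGroup X] [Module ℝ X] [TopologicalSpace X]
  [IsTopologicalAddGroup X] [ContinuousSMul ℝ X] [TopologicalSpace.IsCompletelyMetrizableSpace X]

theorem exists_infinite (C D : Set X) (hC : IsClosed C) (hCc : Convex ℝ C) (hDc : Convex ℝ D)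
    (hCD : C ⊆ D) (hne : C.Nonempty)
    (H : ∀ m : ℕ, ∃ S : Finset X, (∀ x ∈ S, x ∈ D ∧ x ∈ affineSpan ℝ C ∧ x ∉ C) ∧
      ∀ c : X → Fin m, ∃ i, ((convexHull ℝ {x | x ∈ S ∧ c x = i}) ∩ C).Nonempty) :
    ∃ B : Set X, B ⊆ D \ C ∧ B.Infinite ∧
      ∀ a ∈ B, ∀ b ∈ B, a ≠ b → (segment ℝ a b ∩ C).Nonempty := by
  classical
  choose S hS hS' using H
  obtain ⟨e, he⟩ := hne
  have h1 : ∀ x : X, x ∈ affineSpan ℝ C → ∃ T : Finset X, (T : Set X) ⊆ (· -ᵥ e) '' C ∧
      x - e ∈ Submodule.span ℝ (T : Set X) := by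
    intro x hx
    have h2 : x -ᵥ e ∈ (affineSpan ℝ C).direction :=
      AffineSubspace.vsub_mem_direction hx (mem_affineSpan ℝ he)
    rw [direction_affineSpan, vectorSpan_eq_span_vsub_set_right ℝ he] at h2
    exact Submodule.mem_span_finite_of_mem_span h2
  choose! T hT1 hT2 using h1
  let K : Set X := ⋃ m : ℕ, ⋃ x ∈ S m, (T x : Set X)
  have hKc : K.Countable := by
    refine Set.countable_iUnion fun m => ?_
    exact Set.Countable.biUnion (Finset.countable_toSet _) fun x _ => Finset.countable_toSet _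
  have hK : ∀ v ∈ K, e + v ∈ C := by
    intro v hv
    rw [Set.mem_iUnion] at hv
    obtain ⟨m, hv⟩ := hv
    rw [Set.mem_iUnion₂] at hv
    obtain ⟨x, hx, hv⟩ := hv
    obtain ⟨y, hy, hyv⟩ := hT1 x (hS m x hx).2.1 hv
    rw [← hyv]
    show e + (y - e) ∈ C
    rw [add_sub_cancel]
    exact hy
  obtain ⟨c, hc⟩ := (((hKc.image (fun v => e + v)).insert e)).exists_eq_range
    (Set.insert_nonempty _ _)
  have hcC : ∀ n, c n ∈ C := by
    intro n
    have h2 : c n ∈ insert e ((fun v => e + v) '' K) := by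
      rw [hc]
      exact Set.mem_range_self n
    rcases h2 with h2 | ⟨v, hv, h2⟩
    · rw [h2]
      exact he
    · rw [← h2]
      exact hK v hv
  obtain ⟨o, ho, hβ⟩ := center C hC hCc c hcC
  obtain ⟨j₀, hj₀⟩ : ∃ j, c j = e := by
    have h2 : e ∈ insert e ((fun v => e + v) '' K) := Set.mem_insert _ _
    rw [hc] at h2
    exact h2
  set L := Finsupp.linearCombination ℝ (fun n => c n - o) with hL
  have hrange : ∀ n, c n - o ∈ LinearMap.range L := by
    intro n
    rw [hL, Finsupp.range_linearCombination]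
    exact Submodule.subset_span (Set.mem_range_self n)
  have hmem : ∀ m, ∀ x ∈ S m, x - o ∈ LinearMap.range L := by
    intro m x hx
    have h2 : Submodule.span ℝ (T x : Set X) ≤ LinearMap.range L := by
      rw [Submodule.span_le]
      intro v hv
      have hvK : v ∈ K := Set.mem_iUnion.2 ⟨m, Set.mem_iUnion₂.2 ⟨x, hx, hv⟩⟩
      have h3 : e + v ∈ insert e ((fun v => e + v) '' K) :=
        Set.mem_insert_of_mem _ ⟨v, hvK, rfl⟩
      rw [hc] at h3
      obtain ⟨j, hj⟩ := h3
      have h4 : v = (c j - o) - (c j₀ - o) := by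
        rw [hj, hj₀]
        abel
      rw [h4]
      exact Submodule.sub_mem _ (hrange j) (hrange j₀)
    have h5 : x - o = (x - e) + (c j₀ - o) := by
      rw [hj₀]
      abel
    rw [h5]
    exact Submodule.add_mem _ (h2 (hT2 x (hS m x hx).2.1)) (hrange j₀)
  have hα : ∀ x : X, x - o ∈ LinearMap.range L → ∃ α, L α = x - o := fun x hx => hx
  choose! α hα using hα
  have habs : Absorbent ℝ (pull L o C) := pull_absorbent c o hCc ho hcC hβ
  have hconv := pull_convex L o hCc
  set p : A → ℝ := gauge (pull L o C) with hp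
  have hsub : Sub p :=
    ⟨fun x => gauge_nonneg x, fun x y => gauge_add_le hconv habs x y, fun t x ht => by
      rw [hp, gauge_smul' _ t ht]⟩
  have hp1 : ∀ x, p x ≤ 1 ↔ x ∈ pull L o C := gauge_le_one_iff' L o hC hCc ho habs
  obtain ⟨a, ha, ha'⟩ := core hsub (pull_convex L o hDc) (fun x hx => hCD ((hp1 x).1 hx)) (by
    intro m
    refine ⟨(S m).image α, ?_, ?_⟩
    · intro y hy
      obtain ⟨x, hx, rfl⟩ := Finset.mem_image.1 hy
      have h2 := hα x (hmem m x hx)
      have h3 : o + L (α x) = x := by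
        rw [h2, add_sub_cancel]
      constructor
      · show o + L (α x) ∈ D
        rw [h3]
        exact (hS m x hx).1
      · rw [← not_le, hp1]
        show ¬ (o + L (α x) ∈ C)
        rw [h3]
        exact (hS m x hx).2.2
    · intro col
      obtain ⟨i, z, hz, hzC⟩ := hS' m (fun x => col (α x))
      refine ⟨i, ?_⟩
      have h2 : convexHull ℝ {x | x ∈ S m ∧ col (α x) = i} ⊆ (fun y => o + y) '' (L ''
          (convexHull ℝ {y | y ∈ (S m).image α ∧ col y = i})) := by
        apply convexHull_min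
        · rintro x ⟨hx, hxi⟩
          refine ⟨L (α x), ⟨α x, subset_convexHull ℝ _ ⟨Finset.mem_image_of_mem α hx, hxi⟩, rfl⟩,
            ?_⟩
          show o + L (α x) = x
          rw [hα x (hmem m x hx), add_sub_cancel]
        · exact ((convex_convexHull ℝ _).linear_image L).translate o
      obtain ⟨y, ⟨w, hw, hwy⟩, hyz⟩ := h2 hz
      refine ⟨w, hw, ?_⟩
      rw [hp1]
      show o + L w ∈ C
      rw [hwy]
      have hyz' : o + y = z := hyz
      rw [hyz']
      exact hzC)
  have hout : ∀ n, o + L (a n) ∉ C := by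
    intro n h
    have h2 := (hp1 (a n)).2 h
    linarith [(ha n).2]
  have hseg : ∀ n m, n < m → (segment ℝ (o + L (a n)) (o + L (a m)) ∩ C).Nonempty := by
    intro n m hnm
    obtain ⟨t, ht0, ht1, ht⟩ := ha' n m hnm
    rw [hp1] at ht
    refine ⟨(1 - t) • (o + L (a n)) + t • (o + L (a m)),
      ⟨1 - t, t, by linarith, ht0, by ring, rfl⟩, ?_⟩
    have h2 : o + L ((1 - t) • a n + t • a m) ∈ C := ht
    have h3 : o + L ((1 - t) • a n + t • a m)
        = (1 - t) • (o + L (a n)) + t • (o + L (a m)) := by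
      rw [map_add, map_smul, map_smul]
      module
    rwa [h3] at h2
  have hinj : Function.Injective (fun n => o + L (a n)) := by
    intro n m hnm
    by_contra hne
    have hnm' : o + L (a n) = o + L (a m) := hnm
    rcases lt_or_gt_of_ne hne with h | h
    · obtain ⟨x, hx, hxC⟩ := hseg n m h
      rw [hnm', segment_same] at hx
      rw [Set.mem_singleton_iff.1 hx] at hxC
      exact hout m hxC
    · obtain ⟨x, hx, hxC⟩ := hseg m n h
      rw [hnm', segment_same] at hx
      rw [Set.mem_singleton_iff.1 hx] at hxC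
      exact hout m hxC
  refine ⟨Set.range (fun n => o + L (a n)), ?_, Set.infinite_range_of_injective hinj, ?_⟩
  · rintro _ ⟨n, rfl⟩
    exact ⟨(ha n).1, hout n⟩
  · rintro _ ⟨n, rfl⟩ _ ⟨m, rfl⟩ hne
    rcases lt_trichotomy n m with h | h | h
    · exact hseg n m h
    · exact absurd (by rw [h]) hne
    · rw [segment_symm]
      exact hseg m n h

end reduction

section compactness

variable {X : Type u} [AddCommGroup X] [Module ℝ X]

theorem polyhedric_of_colour (C D : Set X) (hCc : Convex ℝ C) (hDc : Convex ℝ D) (hCD : C ⊆ D)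
    (m : ℕ) (H : ∀ S : Finset X, (∀ x ∈ S, x ∈ D ∧ x ∉ C) →
      ∃ c : X → Fin m, ∀ i, (convexHull ℝ {x | x ∈ S ∧ c x = i}) ∩ C = ∅) :
    ∃ (n : ℕ) (K : Fin n → Set X), (∀ i, K i ⊆ D ∧ Convex ℝ (K i) ∧ Convex ℝ (D \ K i)) ∧
      C = ⋂ i, K i := by
  classical
  let Y := {x : X // x ∈ D ∧ x ∉ C}
  have h1 : ∀ t : Finset Y, ∃ c : Y → Fin m,
      ∀ i, (convexHull ℝ {x : X | ∃ h : x ∈ D ∧ x ∉ C, (⟨x, h⟩ : Y) ∈ t ∧ c ⟨x, h⟩ = i}) ∩ C = ∅ := by
    intro t
    obtain ⟨c, hc⟩ := H (t.image Subtype.val) (by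
      intro x hx
      obtain ⟨y, _, rfl⟩ := Finset.mem_image.1 hx
      exact y.2)
    refine ⟨fun y => c y.1, fun i => ?_⟩
    rw [← Set.subset_empty_iff, ← hc i]
    refine Set.inter_subset_inter_left _ (convexHull_mono ?_)
    rintro x ⟨h, hx, hxi⟩
    exact ⟨Finset.mem_image.2 ⟨_, hx, rfl⟩, hxi⟩
  choose g hg using h1
  obtain ⟨χ, hχ⟩ := Finset.rado_selection (β := fun _ : Y => Fin m) g
  have h2 : ∀ i : Fin m, (convexHull ℝ {x : X | ∃ h : x ∈ D ∧ x ∉ C, χ ⟨x, h⟩ = i}) ∩ C = ∅ := by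
    intro i
    rw [Set.eq_empty_iff_forall_notMem]
    rintro z ⟨hz, hzC⟩
    rw [convexHull_eq_union_convexHull_finite_subsets, Set.mem_iUnion₂] at hz
    obtain ⟨t, ht, hzt⟩ := hz
    let t' : Finset Y := t.attach.image (fun x => ⟨x.1, (ht x.2).choose⟩)
    obtain ⟨u, hu, hu'⟩ := hχ t'
    have h3 := hg u i
    rw [Set.eq_empty_iff_forall_notMem] at h3
    refine h3 z ⟨convexHull_mono ?_ hzt, hzC⟩
    intro x hx
    obtain ⟨hx1, hx2⟩ := ht hx
    have hx3 : (⟨x, hx1⟩ : Y) ∈ t' :=
      Finset.mem_image.2 ⟨⟨x, hx⟩, Finset.mem_attach _ _, rfl⟩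
    exact ⟨hx1, hu hx3, by rw [← hu' _ hx3]; exact hx2⟩
  have h4 : ∀ i : Fin m, ∃ P : Set X, Convex ℝ P ∧ Convex ℝ Pᶜ ∧ C ⊆ P ∧
      convexHull ℝ {x : X | ∃ h : x ∈ D ∧ x ∉ C, χ ⟨x, h⟩ = i} ⊆ Pᶜ := by
    intro i
    refine exists_convex_convex_compl_subset hCc (convex_convexHull ℝ _) ?_
    rw [Set.disjoint_iff_inter_eq_empty, Set.inter_comm]
    exact h2 i
  choose P hP1 hP2 hP3 hP4 using h4
  refine ⟨m + 1, Fin.cons D (fun i => P i ∩ D), fun i => ?_, ?_⟩
  · refine Fin.cases ?_ (fun i => ?_) i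
    · rw [Fin.cons_zero]
      refine ⟨subset_rfl, hDc, ?_⟩
      rw [Set.sdiff_self]
      exact convex_empty
    · rw [Fin.cons_succ]
      refine ⟨Set.inter_subset_right, (hP1 i).inter hDc, ?_⟩
      have h5 : D \ (P i ∩ D) = D ∩ (P i)ᶜ := by
        ext x
        simp only [Set.mem_sdiff, Set.mem_inter_iff, Set.mem_compl_iff]
        tauto
      rw [h5]
      exact hDc.inter (hP2 i)
  · apply Set.Subset.antisymm
    · intro x hx
      rw [Set.mem_iInter]
      intro i
      refine Fin.cases ?_ (fun i => ?_) i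
      · rw [Fin.cons_zero]
        exact hCD hx
      · rw [Fin.cons_succ]
        exact ⟨hP3 i hx, hCD hx⟩
    · intro x hx
      rw [Set.mem_iInter] at hx
      have hxD : x ∈ D := by
        have := hx 0
        rwa [Fin.cons_zero] at this
      by_contra hxC
      have h5 := hx (Fin.succ (χ ⟨x, hxD, hxC⟩))
      rw [Fin.cons_succ] at h5
      exact hP4 _ (subset_convexHull ℝ _ ⟨⟨hxD, hxC⟩, rfl⟩) h5.1

/-- At most two points outside the affine hull. -/
theorem outside (C : Set X) (a b d : X) (ha : a ∉ affineSpan ℝ C)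
    (hab : (segment ℝ a b ∩ C).Nonempty) (had : (segment ℝ a d ∩ C).Nonempty)
    (hbd : (segment ℝ b d ∩ C).Nonempty) (hb : b ∉ C) (hd : d ∉ C) : False := by
  obtain ⟨u, ⟨α, α', h0, h0', h1, hu⟩, huC⟩ := hab
  obtain ⟨v, ⟨β, β', g0, g0', g1, hv⟩, hvC⟩ := had
  obtain ⟨w, ⟨γ, γ', f0, f0', f1, hw⟩, hwC⟩ := hbd
  have haC : a ∉ C := fun h => ha (subset_affineSpan ℝ C h)
  have hα' : 0 < α' := by
    rcases h0'.eq_or_lt with h | h
    · exfalso
      have : α = 1 := by linarith
      rw [← h, this, one_smul, zero_smul, add_zero] at hu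
      exact haC (hu ▸ huC)
    · exact h
  have hα : 0 < α := by
    rcases h0.eq_or_lt with h | h
    · exfalso
      have : α' = 1 := by linarith
      rw [← h, this, one_smul, zero_smul, zero_add] at hu
      exact hb (hu ▸ huC)
    · exact h
  have hβ' : 0 < β' := by
    rcases g0'.eq_or_lt with h | h
    · exfalso
      have : β = 1 := by linarith
      rw [← h, this, one_smul, zero_smul, add_zero] at hv
      exact haC (hv ▸ hvC)
    · exact h
  have hβ : 0 < β := by
    rcases g0.eq_or_lt with h | h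
    · exfalso
      have : β' = 1 := by linarith
      rw [← h, this, one_smul, zero_smul, zero_add] at hv
      exact hd (hv ▸ hvC)
    · exact h
  have hu' := subset_affineSpan ℝ C huC
  have hv' := subset_affineSpan ℝ C hvC
  have hw' := subset_affineSpan ℝ C hwC
  -- `a = w + x (u - w) + y (v - w)`
  set δ := γ * α / α' + γ' * β / β' with hδ
  have hδ0 : 0 < δ := by
    rcases f0.eq_or_lt with h | h
    · have h2 : γ' = 1 := by linarith
      rw [hδ, ← h, h2]
      positivity
    · have h2 : 0 < γ * α / α' := by positivity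
      have h3 : 0 ≤ γ' * β / β' := by positivity
      linarith
  have hdir1 : u -ᵥ w ∈ (affineSpan ℝ C).direction := AffineSubspace.vsub_mem_direction hu' hw'
  have hdir2 : v -ᵥ w ∈ (affineSpan ℝ C).direction := AffineSubspace.vsub_mem_direction hv' hw'
  have h3 : a = ((δ⁻¹ * (γ / α')) • (u - w) + (δ⁻¹ * (γ' / β')) • (v - w)) + w := by
    have hb' : b = (1 / α') • u - (α / α') • a := by
      rw [← hu, smul_add, smul_smul, smul_smul]
      rw [one_div_mul_cancel hα'.ne', one_smul, one_div_mul_eq_div]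
      abel
    have hd' : d = (1 / β') • v - (β / β') • a := by
      rw [← hv, smul_add, smul_smul, smul_smul]
      rw [one_div_mul_cancel hβ'.ne', one_smul, one_div_mul_eq_div]
      abel
    have hw2 : w = (γ / α') • u + (γ' / β') • v - δ • a := by
      rw [← hw, hb', hd', hδ]
      module
    have h4 : δ • a = (γ / α') • u + (γ' / β') • v - w := by
      rw [hw2]
      abel
    have h5 : γ / α' + γ' / β' = 1 + δ := by
      rw [hδ]
      have e1 : γ / α' = γ + γ * α / α' := by
        rw [div_eq_iff hα'.ne', add_mul, div_mul_cancel₀ _ hα'.ne', ← mul_add, add_comm, h1,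
          mul_one]
      have e2 : γ' / β' = γ' + γ' * β / β' := by
        rw [div_eq_iff hβ'.ne', add_mul, div_mul_cancel₀ _ hβ'.ne', ← mul_add, add_comm β' β, g1,
          mul_one]
      linarith
    have h6 : δ • a = (γ / α') • (u - w) + (γ' / β') • (v - w) + δ • w := by
      rw [h4, smul_sub, smul_sub]
      have h7 : w = (1 : ℝ) • w := (one_smul ℝ w).symm
      have h8 : (γ / α') • w + (γ' / β') • w = w + δ • w := by
        rw [← add_smul, h5, add_smul, one_smul]
      calc (γ / α') • u + (γ' / β') • v - w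
          = (γ / α') • u + (γ' / β') • v - (w + δ • w) + δ • w := by abel
        _ = (γ / α') • u + (γ' / β') • v - ((γ / α') • w + (γ' / β') • w) + δ • w := by rw [h8]
        _ = _ := by abel
    have h7 : a = δ⁻¹ • (δ • a) := by rw [smul_smul, inv_mul_cancel₀ hδ0.ne', one_smul]
    rw [h7, h6, smul_add, smul_add, smul_smul, smul_smul, smul_smul, inv_mul_cancel₀ hδ0.ne',
      one_smul]
  apply ha
  rw [h3]
  exact AffineSubspace.vadd_mem_of_mem_direction
    (Submodule.add_mem _ (Submodule.smul_mem _ _ hdir1) (Submodule.smul_mem _ _ hdir2)) hw'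

theorem finite_of_polyhedric (C D : Set X) (n : ℕ) (K : Fin n → Set X)
    (hK : ∀ i, K i ⊆ D ∩ (affineSpan ℝ C : Set X) ∧ Convex ℝ (K i) ∧
      Convex ℝ ((D ∩ (affineSpan ℝ C : Set X)) \ K i)) (hC : C = ⋂ i, K i)
    (B : Set X) (hB : B ⊆ D \ C) (hBs : ∀ a ∈ B, ∀ b ∈ B, a ≠ b → (segment ℝ a b ∩ C).Nonempty) :
    B.Finite := by
  classical
  by_contra hinf
  have hinf : B.Infinite := hinf
  have h1 : (B \ (affineSpan ℝ C : Set X)).Finite := by
    by_contra h2
    have h2 : (B \ (affineSpan ℝ C : Set X)).Infinite := h2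
    obtain ⟨t, ht, htc⟩ := h2.exists_subset_card_eq 3
    obtain ⟨a, b, d, hab, had, hbd, rfl⟩ := Finset.card_eq_three.1 htc
    have ha := ht (by simp : a ∈ (({a, b, d} : Finset X) : Set X))
    have hb := ht (by simp : b ∈ (({a, b, d} : Finset X) : Set X))
    have hd := ht (by simp : d ∈ (({a, b, d} : Finset X) : Set X))
    exact outside C a b d ha.2 (hBs a ha.1 b hb.1 hab) (hBs a ha.1 d hd.1 had)
      (hBs b hb.1 d hd.1 hbd) (hB hb.1).2 (hB hd.1).2
  have h3 : (B ∩ (affineSpan ℝ C : Set X)).Infinite := by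
    intro h4
    apply hinf
    refine (h1.union h4).subset ?_
    intro x hx
    by_cases hx' : x ∈ (affineSpan ℝ C : Set X)
    · exact Or.inr ⟨hx, hx'⟩
    · exact Or.inl ⟨hx, hx'⟩
  have h4 : ∀ x ∈ B ∩ (affineSpan ℝ C : Set X), ∃ i, x ∉ K i := by
    rintro x ⟨hx, hx'⟩
    by_contra hcon
    push Not at hcon
    apply (hB hx).2
    rw [hC]
    exact Set.mem_iInter.2 hcon
  obtain ⟨x₀, hx₀⟩ := h3.nonempty
  obtain ⟨i₀, _⟩ := h4 x₀ hx₀
  have : Nonempty (Fin n) := ⟨i₀⟩
  choose! f hf using h4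
  obtain ⟨a, ha, b, hb, hab, hfab⟩ := h3.exists_ne_map_eq_of_mapsTo (f := f) (t := Set.univ)
    (fun _ _ => Set.mem_univ _) Set.finite_univ
  obtain ⟨x, hx, hxC⟩ := hBs a ha.1 b hb.1 hab
  have h5 : segment ℝ a b ⊆ (D ∩ (affineSpan ℝ C : Set X)) \ K (f a) := by
    apply (hK (f a)).2.2.segment_subset
    · exact ⟨⟨(hB ha.1).1, ha.2⟩, hf a ha⟩
    · refine ⟨⟨(hB hb.1).1, hb.2⟩, ?_⟩
      rw [hfab]
      exact hf b hb
  refine (h5 hx).2 ?_
  rw [hC] at hxC
  exact Set.mem_iInter.1 hxC (f a)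

end compactness

section main

variable {X : Type u} [AddCommGroup X] [Module ℝ X] [TopologicalSpace X]
  [IsTopologicalAddGroup X] [ContinuousSMul ℝ X] [TopologicalSpace.IsCompletelyMetrizableSpace X]

theorem main (C D : Set X) (hC : IsClosed C) (hCc : Convex ℝ C) (hDc : Convex ℝ D)
    (hCD : C ⊆ D) :
    (¬ ∃ B : Set X, B ⊆ D \ C ∧ B.Infinite ∧
      ∀ a ∈ B, ∀ b ∈ B, a ≠ b → (segment ℝ a b ∩ C).Nonempty) ↔
    ∃ (n : ℕ) (K : Fin n → Set X), (∀ i, K i ⊆ D ∩ (affineSpan ℝ C : Set X) ∧ Convex ℝ (K i) ∧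
      Convex ℝ ((D ∩ (affineSpan ℝ C : Set X)) \ K i)) ∧ C = ⋂ i, K i := by
  constructor
  · intro hno
    rcases C.eq_empty_or_nonempty with hemp | hne
    · refine ⟨1, fun _ => ∅, fun i => ⟨Set.empty_subset _, convex_empty, ?_⟩, ?_⟩
      · rw [hemp]
        simp only [AffineSubspace.span_empty, AffineSubspace.bot_coe, Set.inter_empty,
          Set.sdiff_self]
        exact convex_empty
      · rw [hemp]
        ext x
        simp
    · have hD' : Convex ℝ (D ∩ (affineSpan ℝ C : Set X)) :=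
        hDc.inter (AffineSubspace.convex _)
      have hCD' : C ⊆ D ∩ (affineSpan ℝ C : Set X) :=
        Set.subset_inter hCD (subset_affineSpan ℝ C)
      by_contra hcon
      apply hno
      apply exists_infinite C D hC hCc hDc hCD hne
      intro m
      by_contra hm
      apply hcon
      apply polyhedric_of_colour C _ hCc hD' hCD' m
      intro S hS
      by_contra hc
      apply hm
      refine ⟨S, fun x hx => ⟨(hS x hx).1.1, (hS x hx).1.2, (hS x hx).2⟩, fun c => ?_⟩
      by_contra hi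
      push Not at hi
      apply hc
      refine ⟨c, fun i => ?_⟩
      exact hi i
  · rintro ⟨n, K, hK, hCK⟩ ⟨B, hB, hinf, hBs⟩
    exact hinf (finite_of_polyhedric C D n K hK hCK B hB hBs)

end main

end Pool.Agent.Q147.HideX
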