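import Mathlib

/-!
# Functions of the first functional Lebesgue class: bounded versus unbounded extension

General definitions, and the construction of a space `X` with a countable subspace `E` which is
`K₁*`-embedded but not `K₁`-embedded.
-/

namespace Pool.Agent.Q147.K1Emb

open Set Filter Topology

section Defs

variable {X : Type*} [TopologicalSpace X]

/-- `A` is functionally closed: the zero set of a continuous function `X → [0,1]`. -/
def FunClosed (A : Set X) : Prop :=
  ∃ f : X → ℝ, Continuous f ∧ (∀ x, f x ∈ Icc (0:ℝ) 1) ∧ A = f ⁻¹' {0}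

/-- `A` is of the first functionally additive class: a countable union of functionally closed
sets. -/
def Add1 (A : Set X) : Prop := ∃ Z : ℕ → Set X, (∀ n, FunClosed (Z n)) ∧ A = ⋃ n, Z n

/-- The first functional Lebesgue class `K₁(X)`. -/
def K1 (f : X → ℝ) : Prop := ∀ V : Set ℝ, IsOpen V → Add1 (f ⁻¹' V)

/-- Bounded real functions. -/
def Bdd {Y : Type*} (f : Y → ℝ) : Prop := ∃ C : ℝ, ∀ x, |f x| ≤ C

/-- `E` is `K₁`-embedded in `X`. -/
def K1Embedded (E : Set X) : Prop :=
  ∀ f : E → ℝ, K1 f → ∃ g : X → ℝ, K1 g ∧ ∀ x : E, g x = f x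

/-- `E` is `K₁*`-embedded in `X`. -/
def K1StarEmbedded (E : Set X) : Prop :=
  ∀ f : E → ℝ, K1 f → Bdd f → ∃ g : X → ℝ, K1 g ∧ Bdd g ∧ ∀ x : E, g x = f x

end Defs

section General

variable {X : Type*} [TopologicalSpace X]

lemma FunClosed.isClosed {A : Set X} (h : FunClosed A) : IsClosed A := by
  obtain ⟨f, hf, -, rfl⟩ := h
  exact isClosed_singleton.preimage hf

lemma funClosed_iInter {K : ℕ → Set X} (hK : ∀ n, IsClopen (K n)) : FunClosed (⋂ n, K n) := by
  classical
  set u : ℕ → X → ℝ := fun n x => if x ∈ K n then 0 else (1/2:ℝ)^n with hu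
  have hcont : ∀ n, Continuous (u n) := by
    intro n
    refine Continuous.if ?_ continuous_const continuous_const
    intro a ha
    have : frontier (K n) = ∅ := (hK n).frontier_eq
    have h2 : a ∈ frontier (K n) := ha
    rw [this] at h2
    exact h2.elim
  have hnn : ∀ n x, 0 ≤ u n x := by
    intro n x
    simp only [hu]
    split_ifs
    · exact le_rfl
    · positivity
  have hle : ∀ n x, u n x ≤ (1/2:ℝ)^n := by
    intro n x
    simp only [hu]
    split_ifs
    · positivity
    · exact le_rfl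
  have hsum : Summable (fun n : ℕ => (1/2:ℝ)^n) := summable_geometric_two
  have hcs : Continuous (fun x => ∑' n, u n x) := by
    refine continuous_tsum hcont hsum ?_
    intro n x
    rw [Real.norm_eq_abs, abs_of_nonneg (hnn n x)]
    exact hle n x
  have hs : ∀ x, Summable (fun n => u n x) := fun x =>
    Summable.of_nonneg_of_le (fun n => hnn n x) (fun n => hle n x) hsum
  refine ⟨fun x => min 1 (∑' n, u n x), continuous_const.min hcs, ?_, ?_⟩
  · intro x
    exact ⟨le_min zero_le_one (tsum_nonneg fun n => hnn n x), min_le_left _ _⟩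
  · ext x
    simp only [mem_iInter, mem_preimage, mem_singleton_iff]
    constructor
    · intro h
      have : (∑' n, u n x) = 0 := by
        have : (fun n => u n x) = fun _ => 0 := by
          funext n
          simp [hu, h n]
        rw [this, tsum_zero]
      rw [this]
      exact min_eq_right zero_le_one
    · intro h n
      by_contra hn
      have h1 : u n x = (1/2:ℝ)^n := by simp [hu, hn]
      have h2 : u n x ≤ ∑' n, u n x := (hs x).le_tsum n (fun m _ => hnn m x)
      have h3 : (0:ℝ) < (1/2:ℝ)^n := by positivity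
      have h4 : (0:ℝ) < min 1 (∑' n, u n x) := lt_min one_pos (by linarith)
      linarith

lemma funClosed_clopen {K : Set X} (hK : IsClopen K) : FunClosed K := by
  have := funClosed_iInter (K := fun _ : ℕ => K) (fun _ => hK)
  rwa [iInter_const] at this

lemma FunClosed.inter {A B : Set X} (hA : FunClosed A) (hB : FunClosed B) :
    FunClosed (A ∩ B) := by
  obtain ⟨f, hf, hf1, rfl⟩ := hA
  obtain ⟨g, hg, hg1, rfl⟩ := hB
  refine ⟨fun x => max (f x) (g x), hf.max hg, ?_, ?_⟩
  · intro x
    exact ⟨(hf1 x).1.trans (le_max_left _ _), max_le (hf1 x).2 (hg1 x).2⟩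
  · ext x
    simp only [mem_inter_iff, mem_preimage, mem_singleton_iff]
    constructor
    · rintro ⟨h1, h2⟩
      rw [h1, h2, max_self]
    · intro h
      have h1 := (hf1 x).1
      have h2 := (hg1 x).1
      have h3 := le_max_left (f x) (g x)
      have h4 := le_max_right (f x) (g x)
      constructor <;> linarith

lemma FunClosed.add1 {A : Set X} (hA : FunClosed A) : Add1 A :=
  ⟨fun _ => A, fun _ => hA, (iUnion_const A).symm⟩

lemma add1_iUnion {A : ℕ → Set X} (hA : ∀ n, Add1 (A n)) : Add1 (⋃ n, A n) := by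
  choose Z hZ hAZ using hA
  refine ⟨fun k => Z (Nat.unpair k).1 (Nat.unpair k).2, fun k => hZ _ _, ?_⟩
  ext x
  simp only [mem_iUnion]
  constructor
  · rintro ⟨n, hn⟩
    rw [hAZ n, mem_iUnion] at hn
    obtain ⟨m, hm⟩ := hn
    exact ⟨Nat.pair n m, by simpa using hm⟩
  · rintro ⟨k, hk⟩
    refine ⟨(Nat.unpair k).1, ?_⟩
    rw [hAZ, mem_iUnion]
    exact ⟨_, hk⟩

lemma add1_iUnion' {ι : Type*} [Countable ι] [Nonempty ι] {A : ι → Set X}
    (hA : ∀ i, Add1 (A i)) : Add1 (⋃ i, A i) := by
  obtain ⟨f, hf⟩ := exists_surjective_nat ι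
  rw [← hf.iUnion_comp]
  exact add1_iUnion fun n => hA _

lemma Add1.inter {A B : Set X} (hA : Add1 A) (hB : Add1 B) : Add1 (A ∩ B) := by
  obtain ⟨Z, hZ, rfl⟩ := hA
  obtain ⟨W, hW, rfl⟩ := hB
  rw [iUnion_inter]
  refine add1_iUnion fun n => ?_
  rw [inter_iUnion]
  exact add1_iUnion fun m => ((hZ n).inter (hW m)).add1

lemma Add1.union {A B : Set X} (hA : Add1 A) (hB : Add1 B) : Add1 (A ∪ B) := by
  have : A ∪ B = ⋃ n : ℕ, (if n = 0 then A else B) := by
    ext x
    simp only [mem_union, mem_iUnion]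
    constructor
    · rintro (h | h)
      · exact ⟨0, by simpa using h⟩
      · exact ⟨1, by simpa using h⟩
    · rintro ⟨n, hn⟩
      split_ifs at hn
      · exact Or.inl hn
      · exact Or.inr hn
  rw [this]
  refine add1_iUnion fun n => ?_
  split_ifs
  · exact hA
  · exact hB

lemma FunClosed.add1_compl {A : Set X} (hA : FunClosed A) : Add1 Aᶜ := by
  obtain ⟨f, hf, hf1, rfl⟩ := hA
  refine ⟨fun n => {x | (1:ℝ) / (n + 1) ≤ f x}, ?_, ?_⟩
  · intro n
    have hpos : (0:ℝ) < 1 / (n + 1) := by positivity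
    have hle1 : (1:ℝ) / (n + 1) ≤ 1 := by
      rw [div_le_one (by positivity)]
      have : (0:ℝ) ≤ n := by positivity
      linarith
    refine ⟨fun x => max 0 ((1:ℝ) / (n + 1) - f x),
      continuous_const.max (continuous_const.sub hf), ?_, ?_⟩
    · intro x
      refine ⟨le_max_left _ _, max_le zero_le_one ?_⟩
      have := (hf1 x).1
      linarith
    · ext x
      simp only [mem_ofPred_eq, mem_preimage, mem_singleton_iff]
      constructor
      · intro h
        exact max_eq_left (by linarith)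
      · intro h
        have := le_max_right 0 ((1:ℝ) / (n + 1) - f x)
        linarith
  · ext x
    simp only [mem_compl_iff, mem_preimage, mem_singleton_iff, mem_iUnion, mem_ofPred_eq]
    constructor
    · intro h
      have hpos : 0 < f x := lt_of_le_of_ne (hf1 x).1 (Ne.symm h)
      obtain ⟨n, hn⟩ := exists_nat_one_div_lt hpos
      exact ⟨n, hn.le⟩
    · rintro ⟨n, hn⟩ h0
      have : (0:ℝ) < 1 / (n + 1) := by positivity
      linarith

lemma Add1.preimage_val {A : Set X} (E : Set X) (hA : Add1 A) :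
    Add1 ((Subtype.val : E → X) ⁻¹' A) := by
  obtain ⟨Z, hZ, rfl⟩ := hA
  rw [preimage_iUnion]
  refine ⟨fun n => Subtype.val ⁻¹' Z n, fun n => ?_, rfl⟩
  obtain ⟨f, hf, hf1, hfz⟩ := hZ n
  refine ⟨fun x => f x, hf.comp continuous_subtype_val, fun x => hf1 x, ?_⟩
  show Subtype.val ⁻¹' Z n = _
  rw [hfz]
  rfl

/-- Ambiguous sets of the first class. -/
def Amb (A : Set X) : Prop := Add1 A ∧ Add1 Aᶜ

lemma Amb.compl {A : Set X} (h : Amb A) : Amb Aᶜ := ⟨h.2, by rw [compl_compl]; exact h.1⟩

lemma Amb.inter {A B : Set X} (hA : Amb A) (hB : Amb B) : Amb (A ∩ B) :=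
  ⟨hA.1.inter hB.1, by rw [compl_inter]; exact hA.2.union hB.2⟩

lemma Amb.union {A B : Set X} (hA : Amb A) (hB : Amb B) : Amb (A ∪ B) :=
  ⟨hA.1.union hB.1, by rw [compl_union]; exact hA.2.inter hB.2⟩

lemma amb_clopen {A : Set X} (h : IsClopen A) : Amb A :=
  ⟨(funClosed_clopen h).add1, (funClosed_clopen h.compl).add1⟩

lemma amb_univ : Amb (univ : Set X) := amb_clopen isClopen_univ

/-- partial sums of `∑ 2^{-(i+1)} χ_{H i}`. -/
noncomputable def gpart (H : ℕ → Set X) (n : ℕ) (x : X) : ℝ :=
  open Classical in ∑ i ∈ Finset.range n, if x ∈ H i then (1/2:ℝ)^(i+1) else 0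

omit [TopologicalSpace X] in
lemma gpart_succ (H : ℕ → Set X) (n : ℕ) (x : X) :
    gpart H (n+1) x = gpart H n x + (open Classical in if x ∈ H n then (1/2:ℝ)^(n+1) else 0) := by
  unfold gpart
  rw [Finset.sum_range_succ]

lemma amb_gpart {H : ℕ → Set X} (hH : ∀ n, Amb (H n)) (n : ℕ) :
    ∀ V : Set ℝ, Amb (gpart H n ⁻¹' V) := by
  classical
  induction n with
  | zero =>
    intro V
    by_cases h : (0:ℝ) ∈ V
    · have : gpart H 0 ⁻¹' V = univ := by
        ext x; simp [gpart, h]
      rw [this]; exact amb_univ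
    · have : gpart H 0 ⁻¹' V = univᶜ := by
        ext x; simp [gpart, h]
      rw [this]; exact amb_univ.compl
  | succ n ih =>
    intro V
    have : gpart H (n+1) ⁻¹' V =
        (H n ∩ gpart H n ⁻¹' {t | t + (1/2:ℝ)^(n+1) ∈ V}) ∪ ((H n)ᶜ ∩ gpart H n ⁻¹' V) := by
      ext x
      simp only [mem_preimage, mem_union, mem_inter_iff, mem_compl_iff, mem_ofPred_eq]
      rw [gpart_succ]
      by_cases hx : x ∈ H n
      · simp [hx]
      · simp [hx]
    rw [this]
    exact ((hH n).inter (ih _)).union ((hH n).compl.inter (ih _))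

omit [TopologicalSpace X] in
lemma gpart_mono (H : ℕ → Set X) (x : X) : Monotone (fun n => gpart H n x) := by
  classical
  refine monotone_nat_of_le_succ fun n => ?_
  rw [gpart_succ]
  split_ifs
  · have : (0:ℝ) ≤ (1/2)^(n+1) := by positivity
    linarith
  · linarith

omit [TopologicalSpace X] in
lemma gpart_le (H : ℕ → Set X) (x : X) (n m : ℕ) :
    gpart H (n + m) x ≤ gpart H n x + ((1/2:ℝ)^n - (1/2)^(n+m)) := by
  classical
  induction m with
  | zero => simp
  | succ m ih =>
    rw [← Nat.add_assoc, gpart_succ]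
    have h : (if x ∈ H (n+m) then (1/2:ℝ)^(n+m+1) else 0) ≤ (1/2:ℝ)^(n+m+1) := by
      split_ifs
      · exact le_rfl
      · positivity
    have h2 : (1/2:ℝ)^(n+m) = 2 * (1/2:ℝ)^(n+m+1) := by
      rw [pow_succ]; ring
    linarith

/-- The limit function. -/
noncomputable def glim (H : ℕ → Set X) (x : X) : ℝ := ⨆ n, gpart H n x

omit [TopologicalSpace X] in
lemma gpart_bdd (H : ℕ → Set X) (x : X) : BddAbove (range fun n => gpart H n x) := by
  refine ⟨1, ?_⟩
  rintro _ ⟨n, rfl⟩
  have := gpart_le H x 0 n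
  simp only [Nat.zero_add, pow_zero] at this
  have h0 : gpart H 0 x = 0 := by simp [gpart]
  have h1 : (0:ℝ) ≤ (1/2)^n := by positivity
  show gpart H n x ≤ 1
  linarith

omit [TopologicalSpace X] in
lemma gpart_le_glim (H : ℕ → Set X) (x : X) (n : ℕ) : gpart H n x ≤ glim H x :=
  le_ciSup (gpart_bdd H x) n

omit [TopologicalSpace X] in
lemma glim_le (H : ℕ → Set X) (x : X) (n : ℕ) : glim H x ≤ gpart H n x + (1/2:ℝ)^n := by
  refine ciSup_le fun m => ?_
  rcases le_total m n with h | h
  · have h1 : gpart H m x ≤ gpart H n x := gpart_mono H x h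
    have h2 : (0:ℝ) ≤ (1/2)^n := by positivity
    linarith
  · obtain ⟨k, rfl⟩ := Nat.exists_eq_add_of_le h
    have h1 := gpart_le H x n k
    have h2 : (0:ℝ) ≤ (1/2)^(n+k) := by positivity
    linarith

lemma k1_glim {H : ℕ → Set X} (hH : ∀ n, Amb (H n)) : K1 (glim H) := by
  intro V hV
  have : glim H ⁻¹' V = ⋃ n : ℕ, gpart H n ⁻¹' {t | Metric.ball t (2 * (1/2:ℝ)^n) ⊆ V} := by
    ext x
    simp only [mem_preimage, mem_iUnion, mem_ofPred_eq]
    constructor
    · intro h
      obtain ⟨δ, hδ, hball⟩ := Metric.isOpen_iff.1 hV _ h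
      obtain ⟨n, hn⟩ := exists_pow_lt_of_lt_one (show (0:ℝ) < δ / 3 by positivity)
        (show (1/2:ℝ) < 1 by norm_num)
      refine ⟨n, fun y hy => hball ?_⟩
      rw [Metric.mem_ball, Real.dist_eq] at hy ⊢
      have h1 := gpart_le_glim H x n
      have h2 := glim_le H x n
      rw [abs_lt] at hy ⊢
      constructor <;> linarith [hy.1, hy.2]
    · rintro ⟨n, hn⟩
      apply hn
      rw [Metric.mem_ball, Real.dist_eq]
      have h1 := gpart_le_glim H x n
      have h2 := glim_le H x n
      have h3 : (0:ℝ) < (1/2)^n := by positivity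
      rw [abs_lt]
      constructor <;> linarith
  rw [this]
  exact add1_iUnion fun n => (amb_gpart hH n _).1

end General

end Pool.Agent.Q147.K1Emb
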