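import Mathlib
import Pool.Agent.Q147.K1Emb

/-!
# A countable subspace which is `K₁*`-embedded and not `K₁`-embedded

`N` is the countable set of finite subsets of `ℕ`, with a maximal algebra `𝔅` of subsets all of
whose nonempty members are infinite.  The points of `A` are the sequences in `N` converging to an
infinite subset of `ℕ`.
-/

namespace Pool.Agent.Q147.K1Space

open Set Filter Topology TopologicalSpace Pool.Agent.Q147.K1Emb

/-- The countable set of points of `E`. -/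
abbrev N : Type := Finset ℕ

/-- Algebras of subsets of `N` all of whose nonempty members are infinite. -/
structure Alg (B : Set (Set N)) : Prop where
  univ : Set.univ ∈ B
  compl : ∀ C ∈ B, Cᶜ ∈ B
  inter : ∀ C ∈ B, ∀ D ∈ B, C ∩ D ∈ B
  gen : ∀ n : ℕ, {q : N | n ∈ q} ∈ B
  inf : ∀ C ∈ B, C.Nonempty → C.Infinite

/-- The initial algebra. -/
def B0 : Set (Set N) :=
  {C | ∃ n : ℕ, ∀ q q' : N, (∀ i < n, (i ∈ q ↔ i ∈ q')) → (q ∈ C ↔ q' ∈ C)}

lemma alg_B0 : Alg B0 where
  univ := ⟨0, fun _ _ _ => by simp⟩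
  compl := by
    rintro C ⟨n, hn⟩
    exact ⟨n, fun q q' h => not_congr (hn q q' h)⟩
  inter := by
    rintro C ⟨n, hn⟩ D ⟨m, hm⟩
    refine ⟨max n m, fun q q' h => and_congr (hn q q' fun i hi => h i ?_)
      (hm q q' fun i hi => h i ?_)⟩
    · exact hi.trans_le (le_max_left _ _)
    · exact hi.trans_le (le_max_right _ _)
  gen := fun n => ⟨n + 1, fun q q' h => h n (Nat.lt_succ_self n)⟩
  inf := by
    rintro C ⟨n, hn⟩ ⟨q, hq⟩
    have hinj : Function.Injective
        (fun m : ℕ => (q.filter (· < n)) ∪ {n + m}) := by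
      intro m m' h
      have h1 : n + m ∈ (q.filter (· < n)) ∪ {n + m'} := by
        have h0 : n + m ∈ (q.filter (· < n)) ∪ {n + m} := by simp
        have h2 : (q.filter (· < n)) ∪ {n + m} = (q.filter (· < n)) ∪ {n + m'} := h
        rwa [h2] at h0
      simp only [Finset.mem_union, Finset.mem_filter, Finset.mem_singleton] at h1
      omega
    refine Set.infinite_of_injective_forall_mem hinj fun m => ?_
    refine (hn q _ fun i hi => ?_).1 hq
    simp only [Finset.mem_union, Finset.mem_filter, Finset.mem_singleton]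
    constructor
    · intro h; exact Or.inl ⟨h, hi⟩
    · rintro (h | h)
      · exact h.1
      · omega

lemma exists_max : ∃ B : Set (Set N), Alg B ∧ ∀ B' : Set (Set N), Alg B' → B ⊆ B' → B' ⊆ B := by
  obtain ⟨B, -, hB⟩ := zorn_subset_nonempty {B : Set (Set N) | Alg B} (by
    intro c hc hchain hne
    refine ⟨⋃₀ c, ?_, fun s hs => subset_sUnion_of_mem hs⟩
    obtain ⟨b, hb⟩ := hne
    refine ⟨?_, ?_, ?_, ?_, ?_⟩
    · exact ⟨b, hb, (hc hb).univ⟩
    · rintro C ⟨b', hb', hC⟩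
      exact ⟨b', hb', (hc hb').compl C hC⟩
    · rintro C ⟨b1, hb1, hC⟩ D ⟨b2, hb2, hD⟩
      rcases hchain.total hb1 hb2 with h | h
      · exact ⟨b2, hb2, (hc hb2).inter C (h hC) D hD⟩
      · exact ⟨b1, hb1, (hc hb1).inter C hC D (h hD)⟩
    · intro n
      exact ⟨b, hb, (hc hb).gen n⟩
    · rintro C ⟨b', hb', hC⟩
      exact (hc hb').inf C hC) B0 alg_B0
  exact ⟨B, hB.1, fun B' hB' h => hB.2 hB' h⟩

/-- The maximal algebra. -/
noncomputable def BB : Set (Set N) := exists_max.choose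

lemma alg : Alg BB := exists_max.choose_spec.1

lemma alg_max (B' : Set (Set N)) (h : Alg B') (hle : BB ⊆ B') : B' ⊆ BB :=
  exists_max.choose_spec.2 B' h hle

lemma empty_mem : (∅ : Set N) ∈ BB := by
  have := alg.compl _ alg.univ
  rwa [compl_univ] at this

/-- Crowded subsets of `N`. -/
def Crowded (G : Set N) : Prop := ∀ B ∈ BB, (B ∩ G).Nonempty → (B ∩ G).Infinite

lemma mem_of_crowded {S : Set N} (h1 : Crowded S) (h2 : Crowded Sᶜ) : S ∈ BB := by
  set B' : Set (Set N) := {D | ∃ B ∈ BB, ∃ C ∈ BB, D = (B ∩ S) ∪ (C ∩ Sᶜ)} with hB'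
  have halg : Alg B' := by
    refine ⟨?_, ?_, ?_, ?_, ?_⟩
    · exact ⟨univ, alg.univ, univ, alg.univ, by simp⟩
    · rintro _ ⟨B, hB, C, hC, rfl⟩
      refine ⟨Bᶜ, alg.compl B hB, Cᶜ, alg.compl C hC, ?_⟩
      ext q
      by_cases hq : q ∈ S <;> simp [hq]
    · rintro _ ⟨B, hB, C, hC, rfl⟩ _ ⟨B1, hB1, C1, hC1, rfl⟩
      refine ⟨B ∩ B1, alg.inter B hB B1 hB1, C ∩ C1, alg.inter C hC C1 hC1, ?_⟩
      ext q
      by_cases hq : q ∈ S <;> simp [hq]
    · intro n
      refine ⟨_, alg.gen n, _, alg.gen n, ?_⟩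
      ext q
      by_cases hq : q ∈ S <;> simp [hq]
    · rintro _ ⟨B, hB, C, hC, rfl⟩ ⟨q, hq⟩
      rcases hq with hq | hq
      · exact (h1 B hB ⟨q, hq⟩).mono subset_union_left
      · exact (h2 C hC ⟨q, hq⟩).mono subset_union_right
  refine alg_max B' halg ?_ ?_
  · intro B hB
    refine ⟨B, hB, B, hB, ?_⟩
    ext q
    by_cases hq : q ∈ S <;> simp [hq]
  · refine ⟨univ, alg.univ, ∅, empty_mem, ?_⟩
    simp

/-- closure in `N`. -/
def cl (P : Set N) : Set N := {q | ∀ B ∈ BB, q ∈ B → (B ∩ P).Nonempty}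

lemma subset_cl (P : Set N) : P ⊆ cl P := fun q hq B _ hqB => ⟨q, hqB, hq⟩

lemma crowded_compl_cl (P : Set N) : Crowded (cl P)ᶜ := by
  rintro B hB ⟨q, hqB, hq⟩
  have : ∃ B1 ∈ BB, q ∈ B1 ∧ B1 ∩ P = ∅ := by
    by_contra hcon
    apply hq
    intro B1 hB1 hqB1
    by_contra h
    exact hcon ⟨B1, hB1, hqB1, Set.not_nonempty_iff_eq_empty.1 h⟩
  obtain ⟨B1, hB1, hqB1, hemp⟩ := this
  refine (alg.inf (B ∩ B1) (alg.inter B hB B1 hB1) ⟨q, hqB, hqB1⟩).mono ?_
  rintro r ⟨hrB, hrB1⟩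
  refine ⟨hrB, fun hr => ?_⟩
  have := hr B1 hB1 hrB1
  rw [hemp] at this
  exact Set.not_nonempty_empty this

lemma cl_mem {P : Set N} (hP : Crowded P) : cl P ∈ BB := by
  refine mem_of_crowded ?_ (crowded_compl_cl P)
  rintro B hB ⟨q, hqB, hq⟩
  exact (hP B hB (hq B hB hqB)).mono (inter_subset_inter_right _ (subset_cl P))

lemma Crowded.union {P Q : Set N} (hP : Crowded P) (hQ : Crowded Q) : Crowded (P ∪ Q) := by
  rintro B hB ⟨q, hqB, hq | hq⟩
  · exact (hP B hB ⟨q, hqB, hq⟩).mono (inter_subset_inter_right _ subset_union_left)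
  · exact (hQ B hB ⟨q, hqB, hq⟩).mono (inter_subset_inter_right _ subset_union_right)

lemma cl_disj {P Q : Set N} (hP : Crowded P) (hQ : Crowded Q) (hPQ : ∀ q ∈ P, q ∉ Q) :
    ∀ q ∈ cl P, q ∉ Q := by
  have h1 : Crowded (cl P \ Q) := by
    rintro B hB ⟨q, hqB, hq, -⟩
    refine (hP B hB (hq B hB hqB)).mono (inter_subset_inter_right _ ?_)
    exact fun r hr => ⟨subset_cl P hr, hPQ r hr⟩
  have h2 : Crowded (cl P \ Q)ᶜ := by
    have : (cl P \ Q)ᶜ = (cl P)ᶜ ∪ Q := by
      ext q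
      simp only [mem_compl_iff, Set.mem_sdiff, mem_union]
      tauto
    rw [this]
    exact (crowded_compl_cl P).union hQ
  have h3 : (cl P \ Q)ᶜ ∈ BB := alg.compl _ (mem_of_crowded h1 h2)
  intro q hq hqQ
  obtain ⟨r, hr, hrP⟩ := hq _ h3 (fun h => h.2 hqQ)
  exact hr ⟨subset_cl P hrP, hPQ r hrP⟩

/-- largest crowded subset -/
def ker (S : Set N) : Set N := {q | ∃ G ⊆ S, Crowded G ∧ q ∈ G}

lemma crowded_ker (S : Set N) : Crowded (ker S) := by
  rintro B hB ⟨q, hqB, G, hG, hcr, hqG⟩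
  exact (hcr B hB ⟨q, hqB, hqG⟩).mono
    (inter_subset_inter_right _ fun r hr => ⟨G, hG, hcr, hr⟩)

lemma ker_subset (S : Set N) : ker S ⊆ S := fun _ ⟨_, hG, _, hq⟩ => hG hq

/-- Scattered subsets. -/
def Scat (R : Set N) : Prop := ∀ G ⊆ R, Crowded G → G = ∅

lemma Scat.mono {R R' : Set N} (h : Scat R) (hle : R' ⊆ R) : Scat R' :=
  fun G hG hc => h G (hG.trans hle) hc

lemma decomp (S : Set N) : ∃ C ∈ BB, Scat ((S \ C) ∪ (C \ S)) := by
  refine ⟨cl (ker S), cl_mem (crowded_ker S), fun G hG hcr => ?_⟩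
  have hC : cl (ker S) ∈ BB := cl_mem (crowded_ker S)
  have h1 : G ⊆ cl (ker S) := by
    have hcr1 : Crowded (G \ cl (ker S)) := by
      intro B hB hne
      have : B ∩ (G \ cl (ker S)) = (B ∩ (cl (ker S))ᶜ) ∩ G := by
        ext q; simp only [mem_inter_iff, Set.mem_sdiff, mem_compl_iff]; tauto
      rw [this] at hne ⊢
      exact hcr _ (alg.inter _ hB _ (alg.compl _ hC)) hne
    intro q hq
    by_contra hqn
    apply hqn
    apply subset_cl
    refine ⟨G \ cl (ker S), ?_, hcr1, hq, hqn⟩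
    rintro r ⟨hr, hrn⟩
    rcases hG hr with h | h
    · exact h.1
    · exact (hrn h.1).elim
  have h2 : ∀ q ∈ G, q ∉ S := by
    intro q hq
    rcases hG hq with h | h
    · exact (h.2 (h1 hq)).elim
    · exact h.2
  have h3 := cl_disj (crowded_ker S) hcr (fun q hq hqG => h2 q hqG (ker_subset S hq))
  ext q
  simp only [mem_empty_iff_false, iff_false]
  exact fun hq => h3 q (h1 hq) hq

/-- Sequences in `N` converging to an infinite subset of `ℕ`. -/
def A : Type :=
  {s : ℕ → N // ∃ y : Set ℕ, y.Infinite ∧ ∀ n, ∀ᶠ j in atTop, (n ∈ s j ↔ n ∈ y)}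

/-- The space. -/
inductive X : Type
  | pt : N → X
  | sq : A → X

/-- Basic clopen sets. -/
def T (B : Set N) : Set X :=
  {x | (∃ q ∈ B, x = X.pt q) ∨ (∃ a : A, x = X.sq a ∧ ∀ᶠ j in atTop, a.1 j ∈ B)}

lemma inl_mem_T {B : Set N} {q : N} : (X.pt q : X) ∈ T B ↔ q ∈ B := by
  constructor
  · rintro (⟨q', hq', h⟩ | ⟨a, h, -⟩)
    · rw [X.pt.inj h]; exact hq'
    · exact (X.noConfusion h)
  · intro h
    exact Or.inl ⟨q, h, rfl⟩

lemma inr_mem_T {B : Set N} {a : A} : (X.sq a : X) ∈ T B ↔ ∀ᶠ j in atTop, a.1 j ∈ B := by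
  constructor
  · rintro (⟨q', hq', h⟩ | ⟨a', h, h'⟩)
    · exact (X.noConfusion h)
    · rw [X.sq.inj h]; exact h'
  · intro h
    exact Or.inr ⟨a, rfl, h⟩

lemma T_mono {B C : Set N} (h : B ⊆ C) : T B ⊆ T C := by
  rintro x (⟨q, hq, rfl⟩ | ⟨a, rfl, ha⟩)
  · exact inl_mem_T.2 (h hq)
  · exact inr_mem_T.2 (ha.mono fun j hj => h hj)

instance : TopologicalSpace X where
  IsOpen U := ∀ q : N, (X.pt q : X) ∈ U → ∃ B ∈ BB, q ∈ B ∧ T B ⊆ U
  isOpen_univ := fun q _ => ⟨univ, alg.univ, mem_univ q, subset_univ _⟩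
  isOpen_inter := by
    intro U V hU hV q hq
    obtain ⟨B, hB, hqB, hBU⟩ := hU q hq.1
    obtain ⟨C, hC, hqC, hCV⟩ := hV q hq.2
    exact ⟨B ∩ C, alg.inter B hB C hC, ⟨hqB, hqC⟩,
      subset_inter ((T_mono inter_subset_left).trans hBU) ((T_mono inter_subset_right).trans hCV)⟩
  isOpen_sUnion := by
    rintro s hs q ⟨U, hU, hq⟩
    obtain ⟨B, hB, hqB, hBU⟩ := hs U hU q hq
    exact ⟨B, hB, hqB, hBU.trans (subset_sUnion_of_mem hU)⟩

lemma isOpen_iff {U : Set X} :
    IsOpen U ↔ ∀ q : N, (X.pt q : X) ∈ U → ∃ B ∈ BB, q ∈ B ∧ T B ⊆ U := Iff.rfl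

lemma isOpen_T {B : Set N} (hB : B ∈ BB) : IsOpen (T B) :=
  isOpen_iff.2 fun _ hq => ⟨B, hB, inl_mem_T.1 hq, Subset.rfl⟩

lemma isClopen_T {B : Set N} (hB : B ∈ BB) : IsClopen (T B) := by
  refine ⟨⟨isOpen_iff.2 fun q hq => ⟨Bᶜ, alg.compl B hB, fun h => hq (inl_mem_T.2 h), ?_⟩⟩,
    isOpen_T hB⟩
  rintro x (⟨q', hq', rfl⟩ | ⟨a, rfl, ha⟩)
  · exact fun h => hq' (inl_mem_T.1 h)
  · intro h
    obtain ⟨j, hj1, hj2⟩ := (ha.and (inr_mem_T.1 h)).exists
    exact hj1 hj2

/-- The copy of `R ⊆ N` in `X`. -/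
def img (R : Set N) : Set X := X.pt '' R

lemma inl_mem_img {R : Set N} {q : N} : (X.pt q : X) ∈ img R ↔ q ∈ R := by
  constructor
  · rintro ⟨q', hq', h⟩
    rwa [← X.pt.inj h]
  · exact fun h => ⟨q, h, rfl⟩

lemma inr_not_mem_img {R : Set N} {a : A} : (X.sq a : X) ∉ img R := by
  rintro ⟨q', hq', h⟩
  exact X.noConfusion h

/-- The basic set of points which agree with `q` at `n`. -/
def agree (q : N) (n : ℕ) : Set N := {q' | n ∈ q' ↔ n ∈ q}

lemma agree_mem (q : N) (n : ℕ) : agree q n ∈ BB := by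
  by_cases h : n ∈ q
  · have : agree q n = {q' | n ∈ q'} := by ext; simp [agree, h]
    rw [this]; exact alg.gen n
  · have : agree q n = {q' | n ∈ q'}ᶜ := by ext; simp [agree, h]
    rw [this]; exact alg.compl _ (alg.gen n)

lemma point_eq (q : N) : ({X.pt q} : Set X) = ⋂ n, T (agree q n) := by
  ext x
  simp only [mem_singleton_iff, mem_iInter]
  constructor
  · rintro rfl n
    exact inl_mem_T.2 Iff.rfl
  · intro h
    rcases x with q' | a
    · congr 1
      ext n
      exact inl_mem_T.1 (h n)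
    · exfalso
      obtain ⟨y, hy, hconv⟩ := a.2
      apply hy
      have : y = (q : Set ℕ) := by
        ext n
        obtain ⟨j, hj1, hj2⟩ := ((inr_mem_T.1 (h n)).and (hconv n)).exists
        exact hj2.symm.trans hj1
      rw [this]
      exact q.finite_toSet

lemma funClosed_point (q : N) : FunClosed ({X.pt q} : Set X) := by
  rw [point_eq]
  exact funClosed_iInter fun n => isClopen_T (agree_mem q n)

lemma amb_point (q : N) : Amb ({X.pt q} : Set X) :=
  ⟨(funClosed_point q).add1, (funClosed_point q).add1_compl⟩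

lemma amb_empty : Amb (∅ : Set X) := amb_clopen isClopen_empty

lemma add1_img (R : Set N) : Add1 (img R) := by
  classical
  have : img R = ⋃ q : N, (if q ∈ R then {X.pt q} else ∅) := by
    ext x
    simp only [mem_iUnion]
    constructor
    · rintro ⟨q, hq, rfl⟩
      exact ⟨q, by simp [hq]⟩
    · rintro ⟨q, hq⟩
      split_ifs at hq with h
      · exact ⟨q, h, hq.symm⟩
      · exact hq.elim
  rw [this]
  refine add1_iUnion' fun q => ?_
  split_ifs
  · exact (amb_point q).1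
  · exact amb_empty.1

/-- The complement of `H` is of the first additive class. -/
def GD (H : Set X) : Prop := Add1 Hᶜ

lemma GD.union {H K : Set X} (h : GD H) (k : GD K) : GD (H ∪ K) := by
  unfold GD at *
  rw [compl_union]; exact h.inter k

lemma gd_finite {F : Set N} (hF : F.Finite) : GD (img F) := by
  induction F, hF using Set.Finite.induction_on with
  | empty =>
    have : img ∅ = ∅ := by simp [img]
    rw [this]; exact amb_empty.2
  | @insert a s _ _ ih =>
    have : img (insert a s) = {X.pt a} ∪ img s := by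
      unfold img
      rw [image_insert_eq]; rfl
    rw [this]
    exact GD.union (amb_point a).2 ih

lemma gd_scat {R : Set N} (hR : Scat R) : GD (img R) := by
  classical
  set R' : Set N := {r | r ∈ R ∧ ∃ O : Set X, IsClopen O ∧ GD (O ∩ img R) ∧ X.pt r ∈ O} with hR'
  have hch : ∀ r : N, ∃ O : Set X, IsClopen O ∧ GD (O ∩ img R) ∧ (r ∈ R' → X.pt r ∈ O) := by
    intro r
    by_cases h : r ∈ R'
    · obtain ⟨-, O, hO, hgd, hr⟩ := h
      exact ⟨O, hO, hgd, fun _ => hr⟩
    · refine ⟨∅, isClopen_empty, ?_, fun h' => (h h').elim⟩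
      rw [empty_inter]; exact amb_empty.2
  choose O hO hgd hmem using hch
  have hU : GD ((⋃ r, O r) ∩ img R) := by
    have : ((⋃ r, O r) ∩ img R)ᶜ = (⋂ r, (O r)ᶜ) ∪ ⋃ r, (O r ∩ (O r ∩ img R)ᶜ) := by
      ext x
      simp only [mem_compl_iff, mem_inter_iff, mem_iUnion, mem_union, mem_iInter]
      constructor
      · intro h
        by_cases hx : ∃ r, x ∈ O r
        · right
          obtain ⟨r, hr⟩ := hx
          exact ⟨r, hr, fun h' => h ⟨⟨r, hr⟩, h'.2⟩⟩
        · left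
          exact fun r hr => hx ⟨r, hr⟩
      · rintro (h | ⟨r, hr, h⟩)
        · rintro ⟨⟨r, hr⟩, -⟩
          exact h r hr
        · rintro ⟨-, hx⟩
          exact h ⟨hr, hx⟩
    unfold GD
    rw [this]
    refine Add1.union ?_ ?_
    · obtain ⟨f, hf⟩ := exists_surjective_nat N
      rw [← hf.iInter_comp]
      exact (funClosed_iInter fun n => (hO _).compl).add1
    · exact add1_iUnion' fun r => (amb_clopen (hO r)).1.inter (hgd r)
  have hall : R ⊆ R' := by
    by_contra hcon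
    have hne : (R \ R').Nonempty := by
      rw [Set.not_subset] at hcon
      obtain ⟨r, hr, hr'⟩ := hcon
      exact ⟨r, hr, hr'⟩
    have hnc : ¬ Crowded (R \ R') := fun hc => hne.ne_empty (hR _ sdiff_subset hc)
    unfold Crowded at hnc
    push Not at hnc
    obtain ⟨B, hB, hBne, hfin⟩ := hnc
    have hfin' : (B ∩ (R \ R')).Finite := by
      simpa [Set.not_infinite] using hfin
    obtain ⟨r, hrB, hrR, hrn⟩ := hBne
    apply hrn
    refine ⟨hrR, T B, isClopen_T hB, ?_, inl_mem_T.2 hrB⟩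
    have : T B ∩ img R = (T B ∩ ((⋃ r, O r) ∩ img R)) ∪ img (B ∩ (R \ R')) := by
      ext x
      constructor
      · rintro ⟨hxT, q, hq, rfl⟩
        by_cases hq' : q ∈ R'
        · exact Or.inl ⟨hxT, mem_iUnion.2 ⟨q, hmem q hq'⟩, q, hq, rfl⟩
        · exact Or.inr (inl_mem_img.2 ⟨inl_mem_T.1 hxT, hq, hq'⟩)
      · rintro (⟨h1, h2, h3⟩ | ⟨q, ⟨hqB, hqR, -⟩, rfl⟩)
        · exact ⟨h1, h3⟩
        · exact ⟨inl_mem_T.2 hqB, inl_mem_img.2 hqR⟩
    rw [this]
    refine GD.union ?_ (gd_finite hfin')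
    unfold GD
    rw [compl_inter]
    exact (amb_clopen (isClopen_T hB)).2.union hU
  have : img R = (⋃ r, O r) ∩ img R := by
    ext x
    constructor
    · rintro ⟨q, hq, rfl⟩
      exact ⟨mem_iUnion.2 ⟨q, hmem q (hall hq)⟩, q, hq, rfl⟩
    · exact fun h => h.2
  rw [this]
  exact hU

/-- Every subset of `N` is the trace of an ambiguous set. -/
lemma exists_amb (S : Set N) : ∃ H : Set X, Amb H ∧ ∀ q : N, (X.pt q : X) ∈ H ↔ q ∈ S := by
  obtain ⟨C, hC, hsc⟩ := decomp S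
  have h1 : Amb (img (S \ C)) := ⟨add1_img _, gd_scat (hsc.mono subset_union_left)⟩
  have h2 : Amb (img (C \ S)) := ⟨add1_img _, gd_scat (hsc.mono subset_union_right)⟩
  refine ⟨(T C ∩ (img (C \ S))ᶜ) ∪ img (S \ C),
    ((amb_clopen (isClopen_T hC)).inter h2.compl).union h1, fun q => ?_⟩
  simp only [mem_union, mem_inter_iff, mem_compl_iff, inl_mem_T, inl_mem_img, Set.mem_sdiff]
  tauto

/-- Extension of `[0,1]`-valued functions. -/
lemma extend01 (f : N → ℝ) (hf : ∀ q, f q ∈ Icc (0:ℝ) 1) :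
    ∃ g : X → ℝ, K1 g ∧ (∀ x, g x ∈ Icc (0:ℝ) 1) ∧ ∀ q : N, g (X.pt q) = f q := by
  classical
  -- remainders
  let r : ℕ → N → ℝ := fun n => Nat.rec (motive := fun _ => N → ℝ) f (fun n rn q =>
    rn q - (if (1/2:ℝ)^(n+1) ≤ rn q then (1/2:ℝ)^(n+1) else 0)) n
  have hr0 : r 0 = f := rfl
  have hrs : ∀ n q, r (n+1) q = r n q - (if (1/2:ℝ)^(n+1) ≤ r n q then (1/2:ℝ)^(n+1) else 0) :=
    fun n q => rfl
  have hr : ∀ n q, r n q ∈ Icc (0:ℝ) ((1/2)^n) := by
    intro n
    induction n with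
    | zero => intro q; rw [hr0, pow_zero]; exact hf q
    | succ n ih =>
      intro q
      rw [hrs]
      have h1 := (ih q).1
      have h2 := (ih q).2
      have h3 : (1/2:ℝ)^n = 2 * (1/2:ℝ)^(n+1) := by rw [pow_succ]; ring
      split_ifs with h
      · constructor <;> linarith
      · push Not at h
        constructor <;> linarith
  have hamb : ∀ n : ℕ, ∃ H : Set X, Amb H ∧ ∀ q : N, (X.pt q : X) ∈ H ↔
      q ∈ {q | (1/2:ℝ)^(n+1) ≤ r n q} := fun n => exists_amb _
  choose H hH hHq using hamb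
  have hpart : ∀ n q, gpart H n (X.pt q) = f q - r n q := by
    intro n q
    induction n with
    | zero => simp [gpart, hr0]
    | succ n ih =>
      rw [gpart_succ, ih, hrs]
      have := hHq n q
      simp only [mem_ofPred_eq] at this
      by_cases h : (1/2:ℝ)^(n+1) ≤ r n q
      · rw [if_pos (this.2 h), if_pos h]; ring
      · rw [if_neg (fun h' => h (this.1 h')), if_neg h]; ring
  refine ⟨glim H, k1_glim hH, ?_, ?_⟩
  · intro x
    have h1 := gpart_le_glim H x 0
    have h2 := glim_le H x 0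
    have h0 : gpart H 0 x = 0 := by simp [gpart]
    rw [h0] at h1 h2
    simp only [pow_zero, zero_add] at h2
    exact ⟨h1, h2⟩
  · intro q
    refine le_antisymm ?_ ?_
    · refine ciSup_le fun n => ?_
      rw [hpart]
      linarith [(hr n q).1]
    · refine le_of_forall_pos_le_add fun ε hε => ?_
      obtain ⟨n, hn⟩ := exists_pow_lt_of_lt_one hε (show (1/2:ℝ) < 1 by norm_num)
      have h1 := gpart_le_glim H (X.pt q) n
      rw [hpart] at h1
      have h2 := (hr n q).2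
      linarith

/-- Extension of bounded functions. -/
lemma extend (f : N → ℝ) (hf : Bdd f) :
    ∃ g : X → ℝ, K1 g ∧ Bdd g ∧ ∀ q : N, g (X.pt q) = f q := by
  obtain ⟨C, hC⟩ := hf
  have hC0 : 0 ≤ C := (abs_nonneg _).trans (hC ∅)
  set M : ℝ := C + 1 with hM
  have hMpos : 0 < M := by positivity
  obtain ⟨g, hg, hg1, hgq⟩ := extend01 (fun q => (f q + M) / (2 * M)) (by
    intro q
    have := abs_le.1 (hC q)
    constructor
    · apply div_nonneg <;> linarith [this.1]
    · rw [div_le_one (by positivity)]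
      linarith [this.2])
  refine ⟨fun x => 2 * M * g x - M, ?_, ⟨M, ?_⟩, ?_⟩
  · intro V hV
    have hcont : Continuous (fun t : ℝ => 2 * M * t - M) := by fun_prop
    exact hg _ (hV.preimage hcont)
  · intro x
    have h1 := (hg1 x).1
    have h2 := (hg1 x).2
    rw [abs_le]
    constructor <;> nlinarith
  · intro q
    show 2 * M * g (X.pt q) - M = f q
    rw [hgq]
    field_simp
    ring

lemma forall_le_mem {F : ℕ → Set N} (hF : ∀ k, F k ∈ BB) (j : ℕ) :
    {q | ∀ k ≤ j, q ∈ F k} ∈ BB := by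
  induction j with
  | zero =>
    have : {q | ∀ k ≤ 0, q ∈ F k} = F 0 := by
      ext q
      simp only [mem_ofPred_eq]
      constructor
      · intro h; exact h 0 le_rfl
      · intro h k hk
        rw [Nat.le_zero.1 hk]; exact h
    rw [this]; exact hF 0
  | succ j ih =>
    have : {q | ∀ k ≤ j + 1, q ∈ F k} = {q | ∀ k ≤ j, q ∈ F k} ∩ F (j+1) := by
      ext q
      simp only [mem_ofPred_eq, mem_inter_iff]
      constructor
      · intro h; exact ⟨fun k hk => h k (by omega), h _ le_rfl⟩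
      · rintro ⟨h1, h2⟩ k hk
        rcases Nat.lt_or_ge k (j+1) with h | h
        · exact h1 k (by omega)
        · have : k = j + 1 := by omega
          rw [this]; exact h2
    rw [this]
    exact alg.inter _ ih _ (hF _)

/-- The set of the points of `A` is not of the first additive class. -/
theorem not_add1_A : ¬ Add1 ((img univ)ᶜ : Set X) := by
  rintro ⟨Z, hZ, hZU⟩
  have hB : ∀ (k : ℕ) (q : N), ∃ B ∈ BB, q ∈ B ∧ T B ⊆ (Z k)ᶜ := by
    intro k q
    have hop : IsOpen (Z k)ᶜ := (hZ k).isClosed.isOpen_compl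
    apply isOpen_iff.1 hop q
    intro hq
    have : (X.pt q : X) ∈ (img univ)ᶜ := by
      rw [hZU]; exact mem_iUnion.2 ⟨k, hq⟩
    exact this (inl_mem_img.2 (mem_univ q))
  choose B hBB hqB hBZ using hB
  let Good : ℕ → N × Set N → Prop := fun j p =>
    p.2 ⊆ {q | ∀ n ≤ max j (p.1.sup id), q ∈ agree p.1 n} ∧ p.2 ⊆ {q | ∀ k ≤ j, q ∈ B k p.1}
  have key : ∀ (j : ℕ) (s : N) (D : Set N), D ∈ BB → s ∈ D → 
      D ∩ ({q | ∀ n ≤ max j (s.sup id), q ∈ agree s n} ∩ {q | ∀ k ≤ j, q ∈ B k s}) ∈ BB ∧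
      s ∈ D ∩ ({q | ∀ n ≤ max j (s.sup id), q ∈ agree s n} ∩ {q | ∀ k ≤ j, q ∈ B k s}) := by
    intro j s D hD hs
    refine ⟨alg.inter _ hD _ (alg.inter _ (forall_le_mem (fun n => agree_mem s n) _) _
      (forall_le_mem (fun k => hBB k s) _)), hs, fun n _ => Iff.rfl, fun k _ => hqB k s⟩
  have step : ∀ (j : ℕ) (p : {p : N × Set N // p.1 ∈ p.2 ∧ p.2 ∈ BB}),
      ∃ p' : {p : N × Set N // p.1 ∈ p.2 ∧ p.2 ∈ BB},
        p'.1.1 ∈ p.1.2 ∧ p'.1.1 ≠ p.1.1 ∧ p'.1.2 ⊆ p.1.2 ∧ Good (j+1) p'.1 := by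
    rintro j ⟨⟨s, D⟩, hs, hD⟩
    have hinf : D.Infinite := alg.inf D hD ⟨s, hs⟩
    obtain ⟨s', hs', hne⟩ := hinf.exists_notMem_finset {s}
    obtain ⟨h1, h2⟩ := key (j+1) s' D hD hs'
    refine ⟨⟨⟨s', _⟩, h2, h1⟩, hs', by simpa using hne, inter_subset_left, ?_, ?_⟩
    · exact inter_subset_right.trans inter_subset_left
    · exact inter_subset_right.trans inter_subset_right
  choose nxt hn1 hn2 hn3 hn4 using step
  obtain ⟨k1, k2⟩ := key 0 ∅ univ alg.univ (mem_univ _)
  let p0 : {p : N × Set N // p.1 ∈ p.2 ∧ p.2 ∈ BB} := ⟨⟨∅, _⟩, k2, k1⟩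
  have hg0 : Good 0 p0.1 := ⟨inter_subset_right.trans inter_subset_left,
    inter_subset_right.trans inter_subset_right⟩
  let p : ℕ → {p : N × Set N // p.1 ∈ p.2 ∧ p.2 ∈ BB} := fun n => Nat.rec p0 (fun n q => nxt n q) n
  have hps : ∀ n, p (n+1) = nxt n (p n) := fun n => rfl
  have hgood : ∀ n, Good n (p n).1 := by
    intro n
    cases n with
    | zero => exact hg0
    | succ n => rw [hps]; exact hn4 n (p n)
  have hanti : ∀ n m, n ≤ m → (p m).1.2 ⊆ (p n).1.2 := by
    intro n m h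
    induction m, h using Nat.le_induction with
    | base => exact Subset.rfl
    | succ m _ ih =>
      rw [hps]
      exact (hn3 m (p m)).trans ih
  have hmem : ∀ n m, n ≤ m → (p m).1.1 ∈ (p n).1.2 := fun n m h => hanti n m h (p m).2.1
  have hstab : ∀ n l, n ≤ l → (n ∈ (p l).1.1 ↔ n ∈ (p n).1.1) := by
    intro n l h
    exact (hgood n).1 (hmem n l h) n (le_max_left _ _)
  set y : Set ℕ := {n | n ∈ (p n).1.1} with hy
  have hyinf : y.Infinite := by
    rw [Set.infinite_iff_exists_gt] 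
    intro j
    have h1 := (hgood j).1 (hmem j (j+1) (Nat.le_succ j))
    have h2 : (p (j+1)).1.1 ≠ (p j).1.1 := by rw [hps]; exact hn2 j (p j)
    have h3 : ∃ i, i ∈ (p (j+1)).1.1 ∧ max j ((p j).1.1.sup id) < i := by
      by_contra hcon
      push Not at hcon
      apply h2
      ext i
      constructor
      · intro hi
        exact (h1 i (hcon i hi)).1 hi
      · intro hi
        exact (h1 i ((Finset.le_sup (f := id) hi).trans (le_max_right _ _))).2 hi
    obtain ⟨i, hi, hlt⟩ := h3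
    have hji : j < i := (le_max_left _ _).trans_lt hlt
    refine ⟨i, ?_, hji⟩
    show i ∈ (p i).1.1
    have h4 := (hgood (j+1)).1 (hmem (j+1) i hji) i
      ((Finset.le_sup (f := id) hi).trans (le_max_right _ _))
    exact h4.2 hi
  let a : A := ⟨fun j => (p j).1.1, y, hyinf, fun n =>
    (eventually_ge_atTop n).mono fun l hl => hstab n l hl⟩
  have ha : (X.sq a : X) ∈ (img univ)ᶜ := inr_not_mem_img
  rw [hZU, mem_iUnion] at ha
  obtain ⟨k, hk⟩ := ha
  refine hBZ k (p k).1.1 ?_ hk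
  refine inr_mem_T.2 ((eventually_ge_atTop k).mono fun l hl => ?_)
  exact (hgood k).2 (hmem k l hl) k le_rfl

/-- The subspace `E`. -/
def E : Set X := img univ

lemma inl_mem_E (q : N) : (X.pt q : X) ∈ E := inl_mem_img.2 (mem_univ q)

theorem k1StarEmbedded : K1StarEmbedded E := by
  intro f _ hf
  obtain ⟨C, hC⟩ := hf
  obtain ⟨g, hg, hgb, hgq⟩ := extend (fun q => f ⟨X.pt q, inl_mem_E q⟩) ⟨C, fun q => hC _⟩
  refine ⟨g, hg, hgb, ?_⟩
  rintro ⟨x, q, hq, rfl⟩
  exact hgq q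

theorem not_k1Embedded : ¬ K1Embedded E := by
  intro h
  classical
  obtain ⟨e, he⟩ : ∃ e : N → ℕ, Function.Injective e := ⟨Encodable.encode, Encodable.encode_injective⟩
  let f : E → ℝ := fun x => match x.1 with
    | X.pt q => (e q : ℝ)
    | X.sq _ => 0
  have hf : K1 f := by
    intro V _
    have : f ⁻¹' V = (Subtype.val : E → X) ⁻¹' (img {q | (e q : ℝ) ∈ V}) := by
      ext ⟨x, q, hq, rfl⟩
      show (e q : ℝ) ∈ V ↔ X.pt q ∈ img {q | (e q : ℝ) ∈ V}
      rw [inl_mem_img]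
      rfl
    rw [this]
    exact (add1_img _).preimage_val E
  obtain ⟨g, hg, hgf⟩ := h f hf
  have hgq : ∀ q : N, g (X.pt q) = e q := fun q => hgf ⟨X.pt q, inl_mem_E q⟩
  apply not_add1_A
  have : ((img univ)ᶜ : Set X) = ⋃ k : ℕ, (g ⁻¹' (Iio (k:ℝ)) ∩ (img {q | e q < k})ᶜ) := by
    ext x
    simp only [mem_compl_iff, mem_iUnion, mem_inter_iff, mem_preimage, mem_Iio]
    constructor
    · intro hx
      obtain ⟨k, hk⟩ := exists_nat_gt (g x)
      refine ⟨k, hk, fun h' => hx ?_⟩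
      exact image_mono (subset_univ _) h'
    · rintro ⟨k, hk1, hk2⟩ ⟨q, -, rfl⟩
      apply hk2
      refine inl_mem_img.2 ?_
      rw [hgq] at hk1
      exact_mod_cast hk1
  rw [this]
  refine add1_iUnion fun k => (hg _ isOpen_Iio).inter ?_
  refine gd_finite ?_
  have : {q | e q < k} = e ⁻¹' (Iio k) := rfl
  rw [this]
  exact (finite_Iio k).preimage he.injOn

lemma exists_agree (q : N) (a : A) : ∃ n, X.sq a ∉ T (agree q n) := by
  by_contra h
  push Not at h
  have : X.sq a ∈ ({X.pt q} : Set X) := by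
    rw [point_eq]; exact mem_iInter.2 h
  exact X.noConfusion (show X.sq a = X.pt q from this)

lemma isClopen_sq (a : A) : IsClopen ({X.sq a} : Set X) := by
  refine ⟨⟨isOpen_iff.2 fun q _ => ?_⟩, isOpen_iff.2 fun q hq => ?_⟩
  · obtain ⟨n, hn⟩ := exists_agree q a
    refine ⟨agree q n, agree_mem q n, Iff.rfl, fun x hx hxa => hn ?_⟩
    rw [← (show x = X.sq a from hxa)]
    exact hx
  · exact X.noConfusion (show X.pt q = X.sq a from hq)

lemma sep {x y : X} (h : x ≠ y) : ∃ U : Set X, IsClopen U ∧ x ∈ U ∧ y ∉ U := by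
  cases x with
  | sq a => exact ⟨{X.sq a}, isClopen_sq a, rfl, fun h' => h (show y = X.sq a from h').symm⟩
  | pt q =>
    cases y with
    | sq a =>
      obtain ⟨n, hn⟩ := exists_agree q a
      exact ⟨T (agree q n), isClopen_T (agree_mem q n), inl_mem_T.2 Iff.rfl, hn⟩
    | pt q' =>
      by_contra hcon
      apply h
      congr 1
      ext n
      by_contra hn
      apply hcon
      refine ⟨T (agree q n), isClopen_T (agree_mem q n), inl_mem_T.2 Iff.rfl, fun h' => hn ?_⟩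
      exact (inl_mem_T.1 h').symm

instance : T2Space X := by
  refine ⟨fun x y h => ?_⟩
  obtain ⟨U, hU, hx, hy⟩ := sep h
  exact ⟨U, Uᶜ, hU.isOpen, hU.compl.isOpen, hx, hy, disjoint_compl_right⟩

lemma basis : IsTopologicalBasis {s : Set X | IsClopen s} := by
  refine isTopologicalBasis_of_isOpen_of_nhds (fun u hu => hu.isOpen) ?_
  intro x U hx hU
  cases x with
  | sq a => exact ⟨{X.sq a}, isClopen_sq a, rfl, singleton_subset_iff.2 hx⟩
  | pt q =>
    obtain ⟨B, hB, hq, hBU⟩ := isOpen_iff.1 hU q hx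
    exact ⟨T B, isClopen_T hB, inl_mem_T.2 hq, hBU⟩

lemma countable_E : E.Countable := countable_univ.image _

end Pool.Agent.Q147.K1Space
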