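import Mathlib

namespace Pool.Agent.Q147.QFun

open Set Filter Topology

/-- Quasicontinuous real functions. -/
def QuasiCont {X : Type*} [TopologicalSpace X] (f : X → ℝ) : Prop :=
  ∀ x : X, ∀ U : Set X, IsOpen U → x ∈ U → ∀ V : Set ℝ, IsOpen V → f x ∈ V →
    ∃ W : Set X, IsOpen W ∧ W.Nonempty ∧ W ⊆ U ∧ f '' W ⊆ V

/-- `Q_p(X,ℝ)`: the quasicontinuous functions with the topology of pointwise convergence. -/
abbrev Qp (X : Type*) [TopologicalSpace X] : Type _ := {f : X → ℝ // QuasiCont f}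

/-- The Fréchet-Urysohn property at a point. -/
def FUAt {Y : Type*} [TopologicalSpace Y] (y : Y) : Prop :=
  ∀ A : Set Y, y ∈ closure A → ∃ u : ℕ → Y, (∀ n, u n ∈ A) ∧ Tendsto u atTop (𝓝 y)

/-- The Fréchet-Urysohn property. -/
def FU (Y : Type*) [TopologicalSpace Y] : Prop := ∀ y : Y, FUAt y

theorem QuasiCont.exists_small {X : Type*} [TopologicalSpace X] {f : X → ℝ} (hf : QuasiCont f)
    {x : X} {U : Set X} (hU : IsOpen U) (hx : x ∈ U) {ε : ℝ} (hε : 0 < ε) :
    ∃ W : Set X, IsOpen W ∧ W.Nonempty ∧ W ⊆ U ∧ ∀ y ∈ W, |f y - f x| < ε := by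
  obtain ⟨W, h1, h2, h3, h4⟩ := hf x U hU hx (Metric.ball (f x) ε) Metric.isOpen_ball
    (Metric.mem_ball_self hε)
  refine ⟨W, h1, h2, h3, ?_⟩
  intro y hy
  have := h4 ⟨y, hy, rfl⟩
  rwa [Metric.mem_ball, Real.dist_eq] at this

theorem quasiCont_of_small {X : Type*} [TopologicalSpace X] {f : X → ℝ}
    (h : ∀ x : X, ∀ U : Set X, IsOpen U → x ∈ U → ∀ ε > 0, ∃ W : Set X, IsOpen W ∧ W.Nonempty ∧
      W ⊆ U ∧ ∀ y ∈ W, |f y - f x| < ε) : QuasiCont f := by
  intro x U hU hx V hV hfx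
  obtain ⟨ε, hε, hball⟩ := Metric.isOpen_iff.mp hV _ hfx
  obtain ⟨W, h1, h2, h3, h4⟩ := h x U hU hx ε hε
  refine ⟨W, h1, h2, h3, ?_⟩
  rintro _ ⟨y, hy, rfl⟩
  apply hball
  rw [Metric.mem_ball, Real.dist_eq]
  exact h4 y hy

theorem approx {X : Type*} [TopologicalSpace X] {A : Set (Qp X)} {f : Qp X} (hf : f ∈ closure A)
    (F : Set X) (hF : F.Finite) {ε : ℝ} (hε : 0 < ε) :
    ∃ h ∈ A, ∀ x ∈ F, |h.1 x - f.1 x| < ε := by
  let W : Set (Qp X) := ⋂ x ∈ F, (fun h : Qp X => h.1 x) ⁻¹' (Metric.ball (f.1 x) ε)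
  have hW : IsOpen W := by
    refine hF.isOpen_biInter ?_
    intro x _
    exact Metric.isOpen_ball.preimage ((continuous_apply x).comp continuous_subtype_val)
  have hfW : f ∈ W := by
    simp only [W, mem_iInter]
    intro x _
    exact Metric.mem_ball_self hε
  obtain ⟨h, hh, hA⟩ := mem_closure_iff.mp hf W hW hfW
  refine ⟨h, hA, ?_⟩
  intro x hx
  simp only [W, mem_iInter] at hh
  have := hh x hx
  rwa [mem_preimage, Metric.mem_ball, Real.dist_eq] at this

theorem mem_closure_of_approx {X : Type*} [TopologicalSpace X] {A : Set (Qp X)} {f : Qp X}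
    (h : ∀ F : Set X, F.Finite → ∃ g ∈ A, ∀ x ∈ F, g.1 x = f.1 x) : f ∈ closure A := by
  rw [mem_closure_iff_nhds]
  intro t ht
  rw [nhds_subtype_eq_comap, mem_comap] at ht
  obtain ⟨s, hs, hst⟩ := ht
  rw [nhds_pi, Filter.mem_pi] at hs
  obtain ⟨F, hF, V, hV, hVs⟩ := hs
  obtain ⟨g, hg, hgf⟩ := h F hF
  refine ⟨g, hst (hVs ?_), hg⟩
  intro x hx
  rw [hgf x hx]
  exact mem_of_mem_nhds (hV x)

theorem tendsto_of_pointwise {X : Type*} [TopologicalSpace X] {u : ℕ → Qp X} {f : Qp X}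
    (h : ∀ x, Tendsto (fun n => (u n).1 x) atTop (𝓝 (f.1 x))) : Tendsto u atTop (𝓝 f) := by
  rw [tendsto_subtype_rng, tendsto_pi_nhds]
  exact h

theorem pointwise_of_tendsto {X : Type*} [TopologicalSpace X] {u : ℕ → Qp X} {f : Qp X}
    (h : Tendsto u atTop (𝓝 f)) : ∀ x, Tendsto (fun n => (u n).1 x) atTop (𝓝 (f.1 x)) := by
  rw [tendsto_subtype_rng, tendsto_pi_nhds] at h
  exact h

theorem exists_countable_closed {X : Type*} (Φ : Finset X → Set X) (hΦ : ∀ F, (Φ F).Countable)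
    (S0 : Set X) (hS0 : S0.Countable) :
    ∃ S : Set X, S0 ⊆ S ∧ S.Countable ∧ ∀ F : Finset X, (F : Set X) ⊆ S → Φ F ⊆ S := by
  classical
  have hfin : ∀ S : Set X, S.Countable → {F : Finset X | (F : Set X) ⊆ S}.Countable := by
    intro S hS
    have h1 : Countable S := hS.to_subtype
    have h2 : (range fun F : Finset S => F.map (Function.Embedding.subtype (· ∈ S))).Countable :=
      countable_range _
    refine h2.mono ?_
    intro F hF
    refine ⟨F.subtype (· ∈ S), ?_⟩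
    ext x
    simp only [Finset.mem_map, Finset.mem_subtype, Function.Embedding.subtype_apply]
    constructor
    · rintro ⟨a, ha, rfl⟩
      exact ha
    · intro hx
      exact ⟨⟨x, hF hx⟩, hx, rfl⟩
  let T : ℕ → Set X := fun n => Nat.rec S0 (fun _ S => S ∪ ⋃ F ∈ {F : Finset X | (F : Set X) ⊆ S}, Φ F) n
  have hT0 : T 0 = S0 := rfl
  have hTs : ∀ n, T (n + 1) = T n ∪ ⋃ F ∈ {F : Finset X | (F : Set X) ⊆ T n}, Φ F := fun n => rfl
  have hTc : ∀ n, (T n).Countable := by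
    intro n
    induction n with
    | zero => exact hS0
    | succ n ih =>
      rw [hTs]
      exact ih.union ((hfin _ ih).biUnion (fun F _ => hΦ F))
  have hTm : Monotone T := monotone_nat_of_le_succ (fun n => by rw [hTs]; exact subset_union_left)
  refine ⟨⋃ n, T n, ?_, countable_iUnion hTc, ?_⟩
  · rw [← hT0]
    exact subset_iUnion T 0
  · intro F hF
    have h1 : ∃ n, (F : Set X) ⊆ T n := by
      have h2 : ∀ x ∈ F, ∃ n, x ∈ T n := fun x hx => mem_iUnion.mp (hF hx)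
      choose! k hk using h2
      refine ⟨F.sup k, ?_⟩
      intro x hx
      exact hTm (Finset.le_sup (f := k) hx) (hk x hx)
    obtain ⟨n, hn⟩ := h1
    refine Subset.trans ?_ (subset_iUnion T (n + 1))
    rw [hTs]
    refine Subset.trans ?_ subset_union_right
    exact subset_biUnion_of_mem (u := fun F => Φ F) hn

/-- If every quasicontinuous function is constant off a countable set, `Q_p` is
Fréchet-Urysohn. -/
theorem fu_of_const {X : Type*} [TopologicalSpace X] (p : X)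
    (hX : ∀ f : X → ℝ, QuasiCont f → {x | f x ≠ f p}.Countable) : FU (Qp X) := by
  classical
  intro f A hf
  have h1 : ∀ q : Finset X × ℕ, ∃ h ∈ A, ∀ x ∈ q.1, |h.1 x - f.1 x| < 1 / ((q.2 : ℝ) + 1) :=
    fun q => approx hf (q.1 : Set X) q.1.finite_toSet (by positivity)
  choose h hA hh using h1
  obtain ⟨S, hS0, hSc, hS⟩ := exists_countable_closed
    (fun F => ⋃ n : ℕ, {x | (h (F, n)).1 x ≠ (h (F, n)).1 p})
    (fun F => countable_iUnion (fun n => hX _ (h (F, n)).2))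
    (insert p {x | f.1 x ≠ f.1 p}) ((hX f.1 f.2).insert p)
  obtain ⟨e, he⟩ := hSc.exists_eq_range ⟨p, hS0 (mem_insert _ _)⟩
  let Fn : ℕ → Finset X := fun n => insert p ((Finset.range (n + 1)).image e)
  have hFn : ∀ n, (Fn n : Set X) ⊆ S := by
    intro n x hx
    simp only [Fn, Finset.coe_insert, mem_insert_iff, Finset.mem_coe, Finset.mem_image] at hx
    rcases hx with rfl | ⟨k, _, rfl⟩
    · exact hS0 (mem_insert _ _)
    · rw [he]; exact mem_range_self k
  refine ⟨fun n => h (Fn n, n), fun n => hA _, ?_⟩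
  apply tendsto_of_pointwise
  have hmain : ∀ x, (∃ N, ∀ n ≥ N, |(h (Fn n, n)).1 x - f.1 x| < 1 / ((n : ℝ) + 1)) →
      Tendsto (fun n => (h (Fn n, n)).1 x) atTop (𝓝 (f.1 x)) := by
    rintro x ⟨N, hN⟩
    rw [tendsto_iff_dist_tendsto_zero]
    refine squeeze_zero' (Eventually.of_forall fun n => dist_nonneg) ?_
      tendsto_one_div_add_atTop_nhds_zero_nat
    filter_upwards [eventually_ge_atTop N] with n hn
    rw [Real.dist_eq]
    exact (hN n hn).le
  intro x
  apply hmain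
  by_cases hx : x ∈ S
  · rw [he] at hx
    obtain ⟨k, rfl⟩ := hx
    refine ⟨k, fun n hn => ?_⟩
    apply hh (Fn n, n)
    simp only [Fn, Finset.mem_insert, Finset.mem_image, Finset.mem_range]
    right
    exact ⟨k, by omega, rfl⟩
  · refine ⟨0, fun n _ => ?_⟩
    have h2 : (h (Fn n, n)).1 x = (h (Fn n, n)).1 p := by
      by_contra hne
      exact hx (hS (Fn n) (hFn n) (mem_iUnion.mpr ⟨n, hne⟩))
    have h3 : f.1 x = f.1 p := by
      by_contra hne
      exact hx (hS0 (mem_insert_of_mem _ hne))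
    rw [h2, h3]
    apply hh (Fn n, n)
    simp [Fn]

end Pool.Agent.Q147.QFun
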