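import Mathlib

/-!
# Under CH there is a Tychonoff space `X` with `C_p(X)` separable and Fréchet–Urysohn but not
hereditarily separable
-/

namespace Pool.Agent.Q147.TowerSpace

open Set Filter Topology TopologicalSpace

/-- `C_p(X)`: the continuous real functions with the topology inherited from `ℝ^X`. -/
abbrev Cp (X : Type) [TopologicalSpace X] : Type := {f : X → ℝ // Continuous f}

/-! ### Combinatorics: an unbounded tower under CH -/

lemma step (D : ℕ → Set ℕ) (hD : Antitone D) (hinf : ∀ n, (D n).Infinite) (m : ℕ → ℕ) :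
    ∃ z : Set ℕ, z.Infinite ∧ (∀ n, (z \ D n).Finite) ∧ (∀ n, (D n \ z).Infinite) ∧
      (StrictMono m → ∃ᶠ n in atTop, ∀ k ∈ z, ¬ (m n ≤ k ∧ k < m (n+1))) := by
  have hw : ∀ k a, ∃ b ∈ D k, a < b := fun k a => (hinf k).exists_gt a
  choose w hwD hwa using hw
  let z : ℕ → ℕ := fun n => Nat.rec (motive := fun _ => ℕ) (w 0 0)
    (fun k zk => w (k+1) (max (w k zk) (m (zk+2)))) n
  have hzs : ∀ k, z (k+1) = w (k+1) (max (w k (z k)) (m (z k + 2))) := fun k => rfl
  have hzD : ∀ k, z k ∈ D k := by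
    intro k
    cases k with
    | zero => exact hwD 0 0
    | succ k => rw [hzs]; exact hwD _ _
  have h1 : ∀ k, z k < w k (z k) := fun k => hwa k (z k)
  have h2 : ∀ k, w k (z k) < z (k+1) := by
    intro k
    rw [hzs]
    exact (le_max_left _ _).trans_lt (hwa _ _)
  have h3 : ∀ k, m (z k + 2) < z (k+1) := by
    intro k
    rw [hzs]
    exact (le_max_right _ _).trans_lt (hwa _ _)
  have hmono : StrictMono z := strictMono_nat_of_lt_succ fun k => (h1 k).trans (h2 k)
  refine ⟨range z, infinite_range_of_injective hmono.injective, ?_, ?_, ?_⟩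
  · intro n
    refine ((finite_Iio n).image z).subset ?_
    rintro _ ⟨⟨k, rfl⟩, hk⟩
    refine ⟨k, ?_, rfl⟩
    by_contra hkn
    exact hk (hD (not_lt.1 hkn) (hzD k))
  · intro n
    have hinj : StrictMono (fun k => w (n+k) (z (n+k))) := by
      refine strictMono_nat_of_lt_succ fun k => ?_
      exact (h2 (n+k)).trans (h1 (n+k+1))
    refine Set.infinite_of_injective_forall_mem hinj.injective fun k => ⟨?_, ?_⟩
    · exact hD (Nat.le_add_right n k) (hwD _ _)
    · rintro ⟨j, hj⟩
      rcases Nat.lt_or_ge (n+k) j with h | h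
      · have : z (n+k+1) ≤ z j := hmono.monotone h
        have := h2 (n+k)
        have hj' : z j = w (n+k) (z (n+k)) := hj
        omega
      · have : z j ≤ z (n+k) := hmono.monotone h
        have := h1 (n+k)
        have hj' : z j = w (n+k) (z (n+k)) := hj
        omega
  · intro hm
    rw [frequently_atTop]
    intro N
    refine ⟨z N + 1, (hmono.le_apply).trans (Nat.le_succ _), ?_⟩
    rintro _ ⟨j, rfl⟩ ⟨ha, hb⟩
    rcases Nat.lt_or_ge N j with h | h
    · have h4 : z (N+1) ≤ z j := hmono.monotone h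
      have h5 := h3 N
      have h6 : m (z N + 1 + 1) = m (z N + 2) := rfl
      omega
    · have h4 : z j ≤ z N := hmono.monotone h
      have h5 : z N + 1 ≤ m (z N + 1) := hm.le_apply
      omega

/-- Data: a well order of type `ω₁` enumerating all sequences. -/
structure Enum (I : Type) [LinearOrder I] : Prop where
  wf : WellFoundedLT I
  ctb : ∀ i : I, (Iio i).Countable
  unc : Uncountable I
  surj : ∃ e : I → (ℕ → ℕ), Function.Surjective e

lemma exists_enum (CH : Cardinal.continuum.{0} = Cardinal.aleph 1) :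
    ∃ (I : Type) (_ : LinearOrder I), Enum I := by
  refine ⟨Cardinal.continuum.{0}.ord.ToType, inferInstance, inferInstance, ?_, ?_, ?_⟩
  · intro i
    rw [Cardinal.countable_iff_lt_aleph_one, ← CH]
    exact Cardinal.mk_Iio_toType_ord_lt i
  · rw [← Cardinal.aleph0_lt_mk_iff, Cardinal.mk_ord_toType]
    exact Cardinal.aleph0_lt_continuum
  · have : Cardinal.mk (Cardinal.continuum.{0}.ord.ToType) = Cardinal.mk (ℕ → ℕ) := by
      rw [Cardinal.mk_ord_toType]; simp
    obtain ⟨e⟩ := Cardinal.eq.1 this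
    exact ⟨e, e.surjective⟩

section Tower

variable {I : Type} [LinearOrder I]

/-- Countable subsets of `I` are bounded. -/
lemma Enum.bdd (h : Enum I) {S : Set I} (hS : S.Countable) : ∃ d, ∀ s ∈ S, s < d := by
  by_contra hcon
  push Not at hcon
  have : (univ : Set I) ⊆ ⋃ s ∈ S, insert s (Iio s) := by
    intro d _
    obtain ⟨s, hs, hds⟩ := hcon d
    refine mem_iUnion₂.2 ⟨s, hs, ?_⟩
    rcases hds.eq_or_lt with h' | h'
    · exact Or.inl h'
    · exact Or.inr h'
  have hc : (univ : Set I).Countable :=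
    (hS.biUnion fun s _ => (h.ctb s).insert s).mono this
  have := h.unc
  exact Set.not_countable_univ hc

/-- The requirement on the `i`-th element of the tower. -/
def Good (e : I → (ℕ → ℕ)) (i : I) (prev : ∀ j, j < i → Set ℕ) (z : Set ℕ) : Prop :=
  z.Infinite ∧ (∀ j (h : j < i), (z \ prev j h).Finite) ∧
    (∀ j (h : j < i), (prev j h \ z).Infinite) ∧
    (StrictMono (e i) → ∃ᶠ n in atTop, ∀ k ∈ z, ¬ (e i n ≤ k ∧ k < e i (n+1)))

open Classical in
/-- one step of the recursion -/
noncomputable def pick (e : I → (ℕ → ℕ)) (i : I) (prev : ∀ j, j < i → Set ℕ) : Set ℕ :=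
  if h : ∃ z, Good e i prev z then h.choose else ∅

lemma exists_tower (h : Enum I) (e : I → (ℕ → ℕ)) :
    ∃ x : I → Set ℕ, ∀ i, Good e i (fun j _ => x j) (x i) := by
  have hwf := h.wf
  let x : I → Set ℕ := hwf.wf.fix (pick e)
  have hx : ∀ i, x i = pick e i (fun j _ => x j) := fun i => hwf.wf.fix_eq _ i
  refine ⟨x, ?_⟩
  intro i
  induction i using hwf.induction with
  | ind i ih =>
  have key : ∃ z, Good e i (fun j _ => x j) z := by
    rcases (Iio i).eq_empty_or_nonempty with hemp | hne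
    · obtain ⟨z, hz1, -, -, hz4⟩ := step (fun _ => univ) (fun _ _ _ => le_rfl)
        (fun _ => infinite_univ) (e i)
      refine ⟨z, hz1, ?_, ?_, hz4⟩
      · intro j hj
        have : j ∈ Iio i := hj
        rw [hemp] at this; exact this.elim
      · intro j hj
        have : j ∈ Iio i := hj
        rw [hemp] at this; exact this.elim
    · obtain ⟨g, hg⟩ := (h.ctb i).exists_eq_range hne
      have hgi : ∀ n, g n < i := fun n => by
        have : g n ∈ Iio i := by rw [hg]; exact ⟨n, rfl⟩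
        exact this
      let D : ℕ → Set ℕ := fun n => {k | ∀ l ≤ n, k ∈ x (g l)}
      have hDanti : Antitone D := fun a b hab k hk l hl => hk l (hl.trans hab)
      have hlt : ∀ a b, a < b → b < i → (x b \ x a).Finite := by
        intro a b hab hb
        exact (ih b hb).2.1 a hab
      have hDinf : ∀ n, (D n).Infinite := by
        intro n
        have hmax : ∃ b ≤ n, ∀ l ≤ n, g l ≤ g b := by
          obtain ⟨b, hb, hbm⟩ := Finset.exists_max_image (Finset.range (n+1)) g ⟨0, by simp⟩
          exact ⟨b, by simpa [Nat.lt_succ_iff] using hb,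
            fun l hl => hbm l (by simpa [Nat.lt_succ_iff] using hl)⟩
        obtain ⟨b, hbn, hb⟩ := hmax
        have hfin : (⋃ l ∈ Iic n, (x (g b) \ x (g l))).Finite := by
          refine (finite_Iic n).biUnion fun l hl => ?_
          rcases (hb l hl).eq_or_lt with h' | h'
          · rw [h', sdiff_self]; exact finite_empty
          · exact hlt _ _ h' (hgi b)
        refine ((ih (g b) (hgi b)).1.sdiff hfin).mono ?_
        rintro k ⟨hk1, hk2⟩ l hl
        by_contra hkl
        exact hk2 (mem_iUnion₂.2 ⟨l, hl, hk1, hkl⟩)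
      obtain ⟨z, hz1, hz2, hz3, hz4⟩ := step D hDanti hDinf (e i)
      refine ⟨z, hz1, ?_, ?_, hz4⟩
      · intro j hj
        have : j ∈ Iio i := hj
        rw [hg] at this
        obtain ⟨n, rfl⟩ := this
        refine (hz2 n).subset ?_
        exact fun k hk => ⟨hk.1, fun h' => hk.2 (h' n le_rfl)⟩
      · intro j hj
        have : j ∈ Iio i := hj
        rw [hg] at this
        obtain ⟨n, rfl⟩ := this
        refine (hz3 n).mono ?_
        exact fun k hk => ⟨hk.1 n le_rfl, hk.2⟩
  rw [hx i]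
  unfold pick
  rw [dif_pos key]
  exact key.choose_spec

/-- Properties of the tower. -/
structure Tower (x : I → Set ℕ) : Prop where
  inf : ∀ i, (x i).Infinite
  lt : ∀ i j, i < j → (x j \ x i).Finite
  inj : Function.Injective x
  unb : ∀ m : ℕ → ℕ, StrictMono m →
    ∃ i, ∃ᶠ n in atTop, ∀ k ∈ x i, ¬ (m n ≤ k ∧ k < m (n+1))

lemma exists_tower' (h : Enum I) : ∃ x : I → Set ℕ, Tower x := by
  obtain ⟨e, he⟩ := h.surj
  obtain ⟨x, hx⟩ := exists_tower h e
  have hne : ∀ i j, i < j → x i ≠ x j := by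
    intro i j hij heq
    have := (hx j).2.2.1 i hij
    simp only [heq, sdiff_self] at this
    exact this finite_empty
  refine ⟨x, fun i => (hx i).1, fun i j hij => (hx j).2.1 i hij, ?_, ?_⟩
  · intro i j hij
    rcases lt_trichotomy i j with h' | h' | h'
    · exact (hne i j h' hij).elim
    · exact h'
    · exact (hne j i h' hij.symm).elim
  · intro m hm
    obtain ⟨i, rfl⟩ := he m
    exact ⟨i, (hx i).2.2.2 hm⟩

end Tower

/-! ### The space -/

/-- The space: the finite sets and the members of the tower. -/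
inductive Sp {I : Type} (x : I → Set ℕ) : Type
  | fin : Finset ℕ → Sp x
  | tw : I → Sp x

section Space

variable {I : Type} {x : I → Set ℕ}

/-- The set of natural numbers given by a point. -/
def val : Sp x → Set ℕ
  | Sp.fin s => s
  | Sp.tw i => x i

/-- `p` agrees with the set `s` below `n`. -/
def Ag (n : ℕ) (s : Set ℕ) : Set (Sp x) := {p | ∀ k < n, (k ∈ val p ↔ k ∈ s)}

lemma Ag_mono {n m : ℕ} (h : n ≤ m) (s : Set ℕ) : (Ag m s : Set (Sp x)) ⊆ Ag n s :=
  fun _ hp k hk => hp k (hk.trans_le h)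

instance : TopologicalSpace (Sp x) where
  IsOpen U := ∀ s : Finset ℕ, Sp.fin s ∈ U → ∃ n, Ag n (s : Set ℕ) ⊆ U
  isOpen_univ := fun s _ => ⟨0, subset_univ _⟩
  isOpen_inter := by
    intro U V hU hV s hs
    obtain ⟨n, hn⟩ := hU s hs.1
    obtain ⟨m, hm⟩ := hV s hs.2
    exact ⟨max n m, subset_inter ((Ag_mono (le_max_left _ _) _).trans hn)
      ((Ag_mono (le_max_right _ _) _).trans hm)⟩
  isOpen_sUnion := by
    rintro S hS s ⟨U, hU, hs⟩
    obtain ⟨n, hn⟩ := hS U hU s hs
    exact ⟨n, hn.trans (subset_sUnion_of_mem hU)⟩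

lemma isOpen_iff {U : Set (Sp x)} :
    IsOpen U ↔ ∀ s : Finset ℕ, Sp.fin s ∈ U → ∃ n, Ag n (s : Set ℕ) ⊆ U := Iff.rfl

lemma isClopen_Ag (n : ℕ) (s : Set ℕ) : IsClopen (Ag n s : Set (Sp x)) := by
  constructor
  · constructor
    refine isOpen_iff.2 fun t ht => ⟨n, fun p hp hp' => ht fun k hk => ?_⟩
    exact (hp k hk).symm.trans (hp' k hk)
  · refine isOpen_iff.2 fun t ht => ⟨n, fun p hp k hk => ?_⟩
    exact (hp k hk).trans (ht k hk)

lemma isOpen_tw (i : I) : IsOpen ({Sp.tw i} : Set (Sp x)) :=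
  isOpen_iff.2 fun s hs => nomatch (show (Sp.fin s : Sp x) = Sp.tw i from hs)

lemma val_inj (hinf : ∀ i, (x i).Infinite) (hinj : Function.Injective x) :
    Function.Injective (val : Sp x → Set ℕ) := by
  intro p q h
  cases p with
  | fin s =>
    cases q with
    | fin t => congr 1; exact Finset.coe_injective h
    | tw j => exact (hinf j ((show (s : Set ℕ) = x j from h) ▸ s.finite_toSet)).elim
  | tw i =>
    cases q with
    | fin t => exact (hinf i ((show x i = (t : Set ℕ) from h) ▸ t.finite_toSet)).elim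
    | tw j => congr 1; exact hinj h

lemma isClopen_tw (hinf : ∀ i, (x i).Infinite) (hinj : Function.Injective x) (i : I) :
    IsClopen ({Sp.tw i} : Set (Sp x)) := by
  refine ⟨⟨isOpen_iff.2 fun s _ => ?_⟩, isOpen_tw i⟩
  have hne : ∃ k, ¬ (k ∈ x i ↔ k ∈ s) := by
    by_contra hcon
    push Not at hcon
    have : x i = (s : Set ℕ) := by
      ext k; exact hcon k
    exact hinf i (this ▸ s.finite_toSet)
  obtain ⟨k, hk⟩ := hne
  refine ⟨k+1, fun p hp hpi => hk ?_⟩
  rw [show p = Sp.tw i from hpi] at hp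
  exact hp k (Nat.lt_succ_self k)

lemma exists_clopen (hinf : ∀ i, (x i).Infinite) (hinj : Function.Injective x)
    {U : Set (Sp x)} (hU : IsOpen U) {p : Sp x} (hp : p ∈ U) :
    ∃ C : Set (Sp x), IsClopen C ∧ p ∈ C ∧ C ⊆ U := by
  cases p with
  | fin s =>
    obtain ⟨n, hn⟩ := isOpen_iff.1 hU s hp
    exact ⟨Ag n s, isClopen_Ag n s, fun k _ => Iff.rfl, hn⟩
  | tw i => exact ⟨{Sp.tw i}, isClopen_tw hinf hinj i, rfl, singleton_subset_iff.2 hp⟩

open Classical in
lemma continuous_ite {X : Type} [TopologicalSpace X] {C : Set X} (hC : IsClopen C) (a b : ℝ) :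
    Continuous (fun p => if p ∈ C then a else b) := by
  refine Continuous.if ?_ continuous_const continuous_const
  intro p hp
  have : frontier C = ∅ := hC.frontier_eq
  have h2 : p ∈ frontier C := hp
  rw [this] at h2
  exact h2.elim

lemma t35 (hinf : ∀ i, (x i).Infinite) (hinj : Function.Injective x) : T35Space (Sp x) := by
  classical
  have hcr : CompletelyRegularSpace (Sp x) := by
    rw [completelyRegularSpace_iff_isOpen]
    intro p K hK hp
    obtain ⟨C, hC, hpC, hCK⟩ := exists_clopen hinf hinj hK hp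
    refine ⟨fun q => if q ∈ C then 0 else 1, ?_, by simp [hpC], ?_⟩
    · refine Continuous.if ?_ continuous_const continuous_const
      intro q hq
      have : frontier C = ∅ := hC.frontier_eq
      have h2 : q ∈ frontier C := hq
      rw [this] at h2
      exact h2.elim
    · intro q hq
      have : q ∉ C := fun h => hq (hCK h)
      simp [this]
  have ht0 : T0Space (Sp x) := by
    rw [t0Space_iff_exists_isOpen_xor_mem]
    intro p q hpq
    have hv : val p ≠ val q := fun h => hpq (val_inj hinf hinj h)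
    have : ∃ k, ¬ (k ∈ val p ↔ k ∈ val q) := by
      by_contra hcon
      push Not at hcon
      exact hv (by ext k; exact hcon k)
    obtain ⟨k, hk⟩ := this
    refine ⟨Ag (k+1) (val p), (isClopen_Ag _ _).isOpen, Or.inl ⟨fun _ _ => Iff.rfl, ?_⟩⟩
    intro h
    exact hk (h k (Nat.lt_succ_self k)).symm
  exact { }

/-! ### `C_p` -/

lemma cp_nhds {X : Type} [TopologicalSpace X] {U : Set (Cp X)} (hU : IsOpen U) {f : Cp X}
    (hf : f ∈ U) : ∃ (F : Finset X) (ε : ℝ), 0 < ε ∧
      ∀ g : Cp X, (∀ p ∈ F, |g.1 p - f.1 p| < ε) → g ∈ U := by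
  classical
  obtain ⟨V, hV, rfl⟩ := isOpen_induced_iff.1 hU
  obtain ⟨F, u, hu, hsub⟩ := isOpen_pi_iff.1 hV f.1 hf
  have hε : ∀ p ∈ F, ∃ ε > 0, Metric.ball (f.1 p) ε ⊆ u p := fun p hp =>
    Metric.isOpen_iff.1 (hu p hp).1 _ (hu p hp).2
  choose! ε hε hball using hε
  obtain ⟨δ, hδ, hδε⟩ : ∃ δ > 0, ∀ p ∈ F, δ ≤ ε p := by
    clear hsub hball hu hf
    induction F using Finset.induction_on with
    | empty => exact ⟨1, one_pos, by simp⟩
    | insert a s ha ih =>
      obtain ⟨δ, hδ, h⟩ := ih (fun p hp => hε p (Finset.mem_insert_of_mem hp))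
      refine ⟨min δ (ε a), lt_min hδ (hε a (Finset.mem_insert_self _ _)), fun p hp => ?_⟩
      rcases Finset.mem_insert.1 hp with rfl | hp
      · exact min_le_right _ _
      · exact (min_le_left _ _).trans (h p hp)
  refine ⟨F, δ, hδ, fun g hg => hsub fun p hp => hball p hp ?_⟩
  rw [Metric.mem_ball, Real.dist_eq]
  exact (hg p hp).trans_le (hδε p hp)

lemma cp_isOpen {X : Type} [TopologicalSpace X] (f : Cp X) (F : Finset X) (ε : ℝ) :
    IsOpen {g : Cp X | ∀ p ∈ F, |g.1 p - f.1 p| < ε} := by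
  have : {g : Cp X | ∀ p ∈ F, |g.1 p - f.1 p| < ε} =
      ⋂ p ∈ F, {g : Cp X | |g.1 p - f.1 p| < ε} := by
    ext g; simp
  rw [this]
  refine isOpen_biInter_finset fun p _ => ?_
  refine isOpen_lt ?_ continuous_const
  have : Continuous fun g : Cp X => g.1 p := (continuous_apply p).comp continuous_subtype_val
  exact (this.sub continuous_const).abs

lemma cp_closure {X : Type} [TopologicalSpace X] {A : Set (Cp X)} {f : Cp X}
    (hf : f ∈ closure A) (F : Finset X) {ε : ℝ} (hε : 0 < ε) :
    ∃ g ∈ A, ∀ p ∈ F, |g.1 p - f.1 p| < ε := by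
  obtain ⟨g, hg1, hg2⟩ := mem_closure_iff.1 hf _ (cp_isOpen f F ε) (fun p _ => by simpa using hε)
  exact ⟨g, hg2, hg1⟩

open Classical in
/-- The members of the countable dense set. -/
noncomputable def simple (n : ℕ) (L : Finset (Finset ℕ × ℚ)) : Cp (Sp x) :=
  ⟨fun p => ∑ c ∈ L, if p ∈ (Ag n (c.1 : Set ℕ) : Set (Sp x)) then (c.2 : ℝ) else 0,
    continuous_finsetSum _ fun _ _ => continuous_ite (isClopen_Ag n _) _ _⟩

lemma separable (hinf : ∀ i, (x i).Infinite) (hinj : Function.Injective x) :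
    SeparableSpace (Cp (Sp x)) := by
  classical
  refine ⟨range (fun c : ℕ × Finset (Finset ℕ × ℚ) => (simple c.1 c.2 : Cp (Sp x))),
    countable_range _, ?_⟩
  intro f
  rw [mem_closure_iff]
  intro U hU hf
  obtain ⟨F, ε, hε, hFU⟩ := cp_nhds hU hf
  -- separate the points of `F`
  obtain ⟨n, hn⟩ : ∃ n, ∀ p ∈ F, ∀ q ∈ F, p ≠ q → p ∉ (Ag n (val q) : Set (Sp x)) := by
    have h1 : ∀ c : Sp x × Sp x, ∃ n, c.1 ≠ c.2 → c.1 ∉ (Ag n (val c.2) : Set (Sp x)) := by
      rintro ⟨p, q⟩
      by_cases hpq : p = q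
      · exact ⟨0, fun h => (h hpq).elim⟩
      · have hv : val p ≠ val q := fun h => hpq (val_inj hinf hinj h)
        have : ∃ k, ¬ (k ∈ val p ↔ k ∈ val q) := by
          by_contra hcon
          push Not at hcon
          exact hv (by ext k; exact hcon k)
        obtain ⟨k, hk⟩ := this
        exact ⟨k+1, fun _ h => hk (h k (Nat.lt_succ_self k))⟩
    choose N hN using h1
    refine ⟨(F ×ˢ F).sup N, fun p hp q hq hpq h => ?_⟩
    refine hN (p, q) hpq (Ag_mono ?_ _ h)
    exact Finset.le_sup (f := N) (Finset.mem_product.2 ⟨hp, hq⟩)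
  -- rational approximations
  have hr : ∀ p : Sp x, ∃ r : ℚ, |(r : ℝ) - f.1 p| < ε := by
    intro p
    obtain ⟨r, hr1, hr2⟩ := exists_rat_btwn (show f.1 p < f.1 p + ε by linarith)
    exact ⟨r, by rw [abs_lt]; constructor <;> linarith⟩
  choose r hr using hr
  let tr : Sp x → Finset ℕ := fun p => (Finset.range n).filter (· ∈ val p)
  have htr : ∀ p q : Sp x, p ∈ (Ag n ((tr q : Finset ℕ) : Set ℕ) : Set (Sp x)) ↔
      p ∈ (Ag n (val q) : Set (Sp x)) := by
    intro p q
    refine forall_congr' fun k => forall_congr' fun hk => ?_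
    have : k ∈ ((tr q : Finset ℕ) : Set ℕ) ↔ k ∈ val q := by simp [tr, hk]
    rw [this]
  let L : Finset (Finset ℕ × ℚ) := F.image (fun p => (tr p, r p))
  refine ⟨simple n L, hFU _ ?_, ⟨(n, L), rfl⟩⟩
  intro p hp
  have hval : (simple n L : Cp (Sp x)).1 p = r p := by
    show (∑ c ∈ L, if p ∈ (Ag n (c.1 : Set ℕ) : Set (Sp x)) then (c.2 : ℝ) else 0) = r p
    rw [Finset.sum_eq_single (tr p, r p)]
    · have : p ∈ (Ag n ((tr p : Finset ℕ) : Set ℕ) : Set (Sp x)) :=
        (htr p p).2 (fun k _ => Iff.rfl)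
      rw [if_pos this]
    · rintro c hc hne
      rw [Finset.mem_image] at hc
      obtain ⟨q, hq, rfl⟩ := hc
      have hpq : p ≠ q := by rintro rfl; exact hne rfl
      rw [if_neg]
      rw [htr]
      exact hn p hp q hq hpq
    · intro h
      exact (h (Finset.mem_image.2 ⟨p, hp, rfl⟩)).elim
  rw [hval]
  exact hr p

lemma not_hs (hinf : ∀ i, (x i).Infinite) (hinj : Function.Injective x) (hunc : Uncountable I) :
    ∃ D : Set (Cp (Sp x)), ¬ SeparableSpace D := by
  classical
  let c : I → Cp (Sp x) := fun i =>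
    ⟨fun p => if p ∈ ({Sp.tw i} : Set (Sp x)) then 1 else 0,
      continuous_ite (isClopen_tw hinf hinj i) 1 0⟩
  have hc1 : ∀ i, (c i).1 (Sp.tw i) = 1 := fun i => by simp [c]
  have hc0 : ∀ i j, i ≠ j → (c i).1 (Sp.tw j) = 0 := fun i j h => by simp [c, Ne.symm h]
  have hcinj : Function.Injective c := by
    intro i j hij
    by_contra hne
    have h1 := hc1 j
    rw [← hij, hc0 i j hne] at h1
    exact zero_ne_one h1
  refine ⟨range c, fun hsep => ?_⟩
  have hdisc : DiscreteTopology (range c) := by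
    rw [discreteTopology_iff_isOpen_singleton]
    rintro ⟨_, i, rfl⟩
    have hop : IsOpen {g : Cp (Sp x) | ∀ p ∈ ({Sp.tw i} : Finset (Sp x)),
        |g.1 p - (c i).1 p| < 1} := cp_isOpen (c i) {Sp.tw i} 1
    refine isOpen_induced_iff.2 ⟨_, hop, ?_⟩
    ext ⟨_, j, rfl⟩
    simp only [mem_preimage, mem_ofPred_eq, Finset.mem_singleton, forall_eq, mem_singleton_iff,
      Subtype.mk.injEq]
    constructor
    · intro h
      by_contra hne
      have hji : j ≠ i := fun h' => hne (by rw [h'])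
      rw [hc0 j i hji, hc1] at h
      norm_num at h
    · intro h
      rw [h, sub_self, abs_zero]
      exact one_pos
  have hcount : Countable (range c) := separableSpace_iff_countable.1 hsep
  have : Countable I := by
    have h2 : (range c).Countable := hcount
    rw [← image_univ] at h2
    have h3 := Set.countable_of_injective_of_countable_image hcinj.injOn h2
    exact countable_univ_iff.1 h3
  exact (not_countable_iff.2 hunc) this

end Space

/-! ### Fréchet–Urysohn -/

section FU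

variable {I : Type} [LinearOrder I] {x : I → Set ℕ}

omit [LinearOrder I] in
lemma stepS {A : Set (Cp (Sp x))} {f : Cp (Sp x)} (hf : f ∈ closure A) (k : ℕ)
    (F : Finset (Sp x)) (m : ℕ) : ∃ (g : Cp (Sp x)) (m' : ℕ), g ∈ A ∧ m < m' ∧
      (∀ p ∈ F, |g.1 p - f.1 p| < 1 / ((k:ℝ) + 1)) ∧
      ∀ p : Sp x, (∀ j ∈ val p, ¬ (m ≤ j ∧ j < m')) → |g.1 p - f.1 p| < 1 / ((k:ℝ) + 1) := by
  classical
  have hpos : (0:ℝ) < 1 / ((k:ℝ) + 1) := by positivity
  obtain ⟨g, hgA, hg⟩ := cp_closure hf
    (F ∪ (Finset.range m).powerset.image (fun s => (Sp.fin s : Sp x))) hpos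
  set U : Set (Sp x) := {p | |g.1 p - f.1 p| < 1 / ((k:ℝ) + 1)} with hU
  have hUo : IsOpen U := by
    refine isOpen_lt ?_ continuous_const
    have h1 := g.2
    have h2 := f.2
    fun_prop
  have hN : ∀ s : Finset ℕ, ∃ n, s ∈ (Finset.range m).powerset →
      (Ag n (s : Set ℕ) : Set (Sp x)) ⊆ U := by
    intro s
    by_cases hs : s ∈ (Finset.range m).powerset
    · have : Sp.fin s ∈ U := hg _ (Finset.mem_union_right _ (Finset.mem_image.2 ⟨s, hs, rfl⟩))
      obtain ⟨n, hn⟩ := isOpen_iff.1 hUo s this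
      exact ⟨n, fun _ => hn⟩
    · exact ⟨0, fun h => (hs h).elim⟩
  choose N hN using hN
  refine ⟨g, max (m+1) ((Finset.range m).powerset.sup N), hgA,
    (Nat.lt_succ_self m).trans_le (le_max_left _ _),
    fun p hp => hg p (Finset.mem_union_left _ hp), ?_⟩
  intro p hp
  set s : Finset ℕ := (Finset.range m).filter (· ∈ val p) with hs
  have hsm : s ∈ (Finset.range m).powerset := Finset.mem_powerset.2 (Finset.filter_subset _ _)
  have hmem : p ∈ (Ag (N s) (s : Set ℕ) : Set (Sp x)) := by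
    intro j hj
    have hj' : j < max (m+1) ((Finset.range m).powerset.sup N) :=
      hj.trans_le ((Finset.le_sup (f := N) hsm).trans (le_max_right _ _))
    simp only [hs, Finset.coe_filter, Finset.mem_range, mem_ofPred_eq]
    constructor
    · intro hjp
      refine ⟨?_, hjp⟩
      by_contra hjm
      exact hp j hjp ⟨not_lt.1 hjm, hj'⟩
    · exact fun h => h.2
  exact hN s hsm hmem

/-- `C_p` of the space is Fréchet–Urysohn. -/
theorem frechet (hI : Enum I) (hx : Tower x) (A : Set (Cp (Sp x))) (f : Cp (Sp x))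
    (hf : f ∈ closure A) : ∃ a : ℕ → Cp (Sp x), (∀ n, a n ∈ A) ∧ Tendsto a atTop (𝓝 f) := by
  classical
  have hwf := hI.wf
  choose gS mS hgA hmS hS1 hS2 using fun k F m => stepS (x := x) hf k F m
  -- enumerations of the initial segments
  have hy : ∀ α : I, ∃ y : ℕ → Sp x, ∀ ξ < α, ∃ j, y j = Sp.tw ξ := by
    intro α
    rcases (Iio α).eq_empty_or_nonempty with hemp | hne
    · refine ⟨fun _ => Sp.fin ∅, fun ξ hξ => ?_⟩
      have : ξ ∈ Iio α := hξ
      rw [hemp] at this; exact this.elim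
    · obtain ⟨g, hg⟩ := (hI.ctb α).exists_eq_range hne
      refine ⟨fun j => Sp.tw (g j), fun ξ hξ => ?_⟩
      have : ξ ∈ Iio α := hξ
      rw [hg] at this
      obtain ⟨j, hj⟩ := this
      exact ⟨j, congrArg Sp.tw hj⟩
  choose y hy using hy
  let Fy : I → ℕ → Finset (Sp x) := fun α i => (Finset.range (i+1)).image (y α)
  let M : I → ℕ → ℕ → ℕ := fun α k n => Nat.rec (motive := fun _ => ℕ) 0
    (fun i mi => mS k (Fy α i) mi) n
  have hMs : ∀ α k i, M α k (i+1) = mS k (Fy α i) (M α k i) := fun _ _ _ => rfl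
  have hMmono : ∀ α k, StrictMono (M α k) := fun α k =>
    strictMono_nat_of_lt_succ fun i => by rw [hMs]; exact hmS _ _ _
  let G : I → ℕ → ℕ → Cp (Sp x) := fun α k i => gS k (Fy α i) (M α k i)
  choose φ hφ using fun α k => hx.unb (M α k) (hMmono α k)
  -- the sequence of ordinals
  have hnext : ∀ (α β : I), ∃ γ, α < γ ∧ β < γ := by
    intro α β
    obtain ⟨d, hd⟩ := hI.bdd (S := {α, β}) (by simp)
    exact ⟨d, hd α (by simp), hd β (by simp)⟩
  choose nx hnx1 hnx2 using hnext
  have hne : Nonempty I := by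
    have := hI.unc
    by_contra hcon
    rw [not_nonempty_iff] at hcon
    exact (not_countable_iff.2 hI.unc) inferInstance
  obtain ⟨α0⟩ := hne
  let al : ℕ → I := fun n => Nat.rec (motive := fun _ => I) α0 (fun k a => nx a (φ a k)) n
  have hals : ∀ k, al (k+1) = nx (al k) (φ (al k) k) := fun _ => rfl
  have hal1 : ∀ k, al k < al (k+1) := fun k => by rw [hals]; exact hnx1 _ _
  have hal2 : ∀ k, φ (al k) k < al (k+1) := fun k => by rw [hals]; exact hnx2 _ _
  -- the supremum
  have hdel : ∃ d : I, (∀ k, al k < d) ∧ ∀ ξ < d, ∃ k, ξ ≤ al k := by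
    obtain ⟨d0, hd0⟩ := hI.bdd (countable_range al)
    let S : Set I := {d | ∀ k, al k < d}
    have hSne : S.Nonempty := ⟨d0, fun k => hd0 _ ⟨k, rfl⟩⟩
    refine ⟨hwf.wf.min S hSne, hwf.wf.min_mem S hSne, fun ξ hξ => ?_⟩
    by_contra hcon
    push Not at hcon
    exact hwf.wf.not_lt_min S (x := ξ) hcon hξ
  obtain ⟨d, hd1, hd2⟩ := hdel
  -- good indices
  have hfreq : ∀ k, ∃ᶠ n in atTop, ∀ j ∈ x d, ¬ (M (al k) k n ≤ j ∧ j < M (al k) k (n+1)) := by
    intro k
    have h1 := hφ (al k) k
    have hfin : (x d \ x (φ (al k) k)).Finite := hx.lt _ _ ((hal2 k).trans (hd1 (k+1)))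
    obtain ⟨B, hB⟩ := hfin.bddAbove
    refine (h1.and_eventually (eventually_gt_atTop B)).mono ?_
    rintro n ⟨hn1, hn2⟩ j hj hj2
    by_cases hjx : j ∈ x (φ (al k) k)
    · exact hn1 j hjx hj2
    · have h3 : j ≤ B := hB ⟨hj, hjx⟩
      have h4 : n ≤ M (al k) k n := (hMmono _ _).le_apply
      omega
  let pos : ℕ → ℕ → ℕ := fun k j => if h : ∃ j', y (al k) j' = y d j then h.choose else 0
  have hpos : ∀ k j, (∃ j', y (al k) j' = y d j) → y (al k) (pos k j) = y d j := by
    intro k j h
    simp only [pos]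
    rw [dif_pos h]
    exact h.choose_spec
  have hn : ∀ k, ∃ n, k ≤ n ∧ (∀ j ≤ k, pos k j ≤ n) ∧
      ∀ j ∈ x d, ¬ (M (al k) k n ≤ j ∧ j < M (al k) k (n+1)) := by
    intro k
    obtain ⟨n, hn1, hn2⟩ := (frequently_atTop.1 (hfreq k))
      (max k ((Finset.range (k+1)).sup (pos k)))
    refine ⟨n, (le_max_left _ _).trans hn1, fun j hj => ?_, hn2⟩
    exact (Finset.le_sup (f := pos k) (Finset.mem_range.2 (Nat.lt_succ_of_le hj))).trans
      ((le_max_right _ _).trans hn1)
  choose n hn1 hn2 hn3 using hn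
  let h : ℕ → Cp (Sp x) := fun k => G (al k) k (n k)
  have hempty : ∀ (p : Sp x) (k : ℕ),
      (∀ j ∈ val p, ¬ (M (al k) k (n k) ≤ j ∧ j < M (al k) k (n k + 1))) →
      |(h k).1 p - f.1 p| < 1 / ((k:ℝ) + 1) := by
    intro p k hp
    exact hS2 k (Fy (al k) (n k)) (M (al k) k (n k)) p hp
  have hleft : ∀ k, k ≤ M (al k) k (n k) := fun k => (hn1 k).trans (hMmono _ _).le_apply
  have hev : ∀ p : Sp x, ∀ᶠ k in atTop, |(h k).1 p - f.1 p| < 1 / ((k:ℝ) + 1) := by
    intro p
    cases p with
    | fin s =>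
      obtain ⟨B, hB⟩ := s.finite_toSet.bddAbove
      filter_upwards [eventually_gt_atTop B] with k hk
      refine hempty _ k fun j hj hj2 => ?_
      have h1 : j ≤ B := hB hj
      have := hleft k
      omega
    | tw ξ =>
      rcases lt_or_ge ξ d with hξ | hξ
      · obtain ⟨k0, hk0⟩ := hd2 ξ hξ
        obtain ⟨j, hj⟩ := hy d ξ hξ
        have hmono : StrictMono al := strictMono_nat_of_lt_succ hal1
        filter_upwards [eventually_gt_atTop (max j k0)] with k hk
        have hk1 : j ≤ k := by omega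
        have hk2 : ξ < al k := hk0.trans_lt (hmono (by omega))
        have hex : ∃ j', y (al k) j' = y d j := by
          obtain ⟨j', hj'⟩ := hy (al k) ξ hk2
          exact ⟨j', hj'.trans hj.symm⟩
        have h1 := hpos k j hex
        refine hS1 k (Fy (al k) (n k)) (M (al k) k (n k)) _ ?_
        refine Finset.mem_image.2 ⟨pos k j, Finset.mem_range.2 ?_, h1.trans hj⟩
        exact Nat.lt_succ_of_le (hn2 k j hk1)
      · have hfin : (x ξ \ x d).Finite := by
          rcases hξ.eq_or_lt with h' | h'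
          · rw [h', Set.sdiff_self]; exact finite_empty
          · exact hx.lt _ _ h'
        obtain ⟨B, hB⟩ := hfin.bddAbove
        filter_upwards [eventually_gt_atTop B] with k hk
        refine hempty _ k fun j hj hj2 => ?_
        by_cases hjd : j ∈ x d
        · exact hn3 k j hjd hj2
        · have h1 : j ≤ B := hB ⟨hj, hjd⟩
          have := hleft k
          omega
  refine ⟨h, fun k => hgA _ _ _, ?_⟩
  rw [tendsto_subtype_rng, tendsto_pi_nhds]
  intro p
  rw [Metric.tendsto_atTop]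
  intro ε hε
  obtain ⟨N, hN⟩ := eventually_atTop.1 (hev p)
  obtain ⟨K, hK⟩ := exists_nat_one_div_lt hε
  refine ⟨max N K, fun k hk => ?_⟩
  rw [Real.dist_eq]
  refine (hN k ((le_max_left _ _).trans hk)).trans ?_
  refine lt_of_le_of_lt ?_ hK
  have h1 : (K:ℝ) ≤ k := by exact_mod_cast (le_max_right _ _).trans hk
  exact one_div_le_one_div_of_le (by positivity) (by linarith)

end FU

end Pool.Agent.Q147.TowerSpace
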