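import Mathlib
import Pool.Agent.Q147.TowerSpace
import Pool.Agent.Q147.QFun

/-!
# Under CH there is a Lusin space which is a `γ`-space
-/

namespace Pool.Agent.Q147.RTower

open Set Filter Topology TopologicalSpace Pool.Agent.Q147.TowerSpace

lemma stepR (D : ℕ → Set ℕ) (hD : Antitone D) (hinf : ∀ n, (D n).Infinite) (M : ℕ → ℕ) :
    ∃ z : Set ℕ, z.Infinite ∧ (∀ n, (z \ D n).Finite) ∧ (∀ n, (D n \ z).Infinite) ∧
      z ⊆ D 0 ∧ ∀ a ∈ z, ∀ b ∈ z, a < b → M a ≤ b := by
  have hw : ∀ k a, ∃ b ∈ D k, a < b := fun k a => (hinf k).exists_gt a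
  choose w hwD hwa using hw
  let S : ℕ → ℕ := fun a => (Finset.range (a + 1)).sup M
  have hS : ∀ a b, a ≤ b → M a ≤ S b := fun a b hab =>
    Finset.le_sup (f := M) (Finset.mem_range.mpr (by omega))
  let z : ℕ → ℕ := fun n => Nat.rec (motive := fun _ => ℕ) (w 0 0)
    (fun k zk => w (k+1) (max (w k zk) (S zk))) n
  have hzs : ∀ k, z (k+1) = w (k+1) (max (w k (z k)) (S (z k))) := fun k => rfl
  have hzD : ∀ k, z k ∈ D k := by
    intro k
    cases k with
    | zero => exact hwD 0 0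
    | succ k => rw [hzs]; exact hwD _ _
  have h1 : ∀ k, z k < w k (z k) := fun k => hwa k (z k)
  have h2 : ∀ k, w k (z k) < z (k+1) := by
    intro k
    rw [hzs]
    exact (le_max_left _ _).trans_lt (hwa _ _)
  have h3 : ∀ k, S (z k) < z (k+1) := by
    intro k
    rw [hzs]
    exact (le_max_right _ _).trans_lt (hwa _ _)
  have hmono : StrictMono z := strictMono_nat_of_lt_succ fun k => (h1 k).trans (h2 k)
  refine ⟨range z, infinite_range_of_injective hmono.injective, ?_, ?_, ?_, ?_⟩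
  · intro n
    refine ((finite_Iio n).image z).subset ?_
    rintro _ ⟨⟨k, rfl⟩, hk⟩
    refine ⟨k, ?_, rfl⟩
    by_contra hkn
    exact hk (hD (not_lt.1 hkn) (hzD k))
  · intro n
    have hinj : StrictMono (fun k => w (n+k) (z (n+k))) := by
      refine strictMono_nat_of_lt_succ fun k => ?_
      exact (h2 (n+k)).trans (h1 (n+k+1))
    refine Set.infinite_of_injective_forall_mem hinj.injective fun k => ⟨?_, ?_⟩
    · exact hD (Nat.le_add_right n k) (hwD _ _)
    · rintro ⟨j, hj⟩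
      rcases Nat.lt_or_ge (n+k) j with h | h
      · have : z (n+k+1) ≤ z j := hmono.monotone h
        have := h2 (n+k)
        have hj' : z j = w (n+k) (z (n+k)) := hj
        omega
      · have : z j ≤ z (n+k) := hmono.monotone h
        have := h1 (n+k)
        have hj' : z j = w (n+k) (z (n+k)) := hj
        omega
  · rintro _ ⟨k, rfl⟩
    exact hD (Nat.zero_le k) (hzD k)
  · rintro _ ⟨j, rfl⟩ _ ⟨k, rfl⟩ hjk
    have hjk' : j < k := hmono.lt_iff_lt.mp hjk
    have h4 : z (j+1) ≤ z k := hmono.monotone hjk'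
    have h5 := h3 j
    have h6 := hS (z j) (z j) le_rfl
    omega

lemma stepY (D : ℕ → Set ℕ) (hD : Antitone D) (hinf : ∀ n, (D n).Infinite) (M : ℕ → ℕ) :
    ∃ z : Set ℕ, z.Infinite ∧ (∀ n, (z \ D n).Finite) ∧ (∀ n, (D n \ z).Infinite) ∧
      ((∀ k ∈ z, M k = 0) ∨ ∀ k ∈ z, M k ≠ 0) ∧ ∀ a ∈ z, ∀ b ∈ z, a < b → M a ≤ b := by
  have key : ∀ Z : Set ℕ, (∀ n, (D n ∩ Z).Infinite) →
      ∃ z : Set ℕ, z.Infinite ∧ (∀ n, (z \ D n).Finite) ∧ (∀ n, (D n \ z).Infinite) ∧
      z ⊆ Z ∧ ∀ a ∈ z, ∀ b ∈ z, a < b → M a ≤ b := by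
    intro Z hZ
    obtain ⟨z, h1, h2, h3, h4, h5⟩ := stepR (fun n => D n ∩ Z)
      (fun a b hab => inter_subset_inter_left Z (hD hab)) hZ M
    refine ⟨z, h1, fun n => (h2 n).subset ?_, fun n => (h3 n).mono ?_, h4.trans inter_subset_right, h5⟩
    · rintro k ⟨hk1, hk2⟩
      exact ⟨hk1, fun h => hk2 h.1⟩
    · rintro k ⟨hk1, hk2⟩
      exact ⟨hk1.1, hk2⟩
  by_cases h : ∀ n, (D n ∩ {k | M k = 0}).Infinite
  · obtain ⟨z, h1, h2, h3, h4, h5⟩ := key _ h
    exact ⟨z, h1, h2, h3, Or.inl (fun k hk => h4 hk), h5⟩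
  · push Not at h
    obtain ⟨n0, hn0⟩ := h
    have h' : ∀ n, (D n ∩ {k | M k ≠ 0}).Infinite := by
      intro n
      have h1 : (D (max n n0) ∩ {k | M k ≠ 0}).Infinite := by
        have h2 : D (max n n0) \ (D n0 ∩ {k | M k = 0}) ⊆ D (max n n0) ∩ {k | M k ≠ 0} := by
          rintro k ⟨hk1, hk2⟩
          exact ⟨hk1, fun h => hk2 ⟨hD (le_max_right n n0) hk1, h⟩⟩
        exact ((hinf _).sdiff hn0).mono h2
      exact h1.mono (inter_subset_inter_left _ (hD (le_max_left n n0)))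
    obtain ⟨z, h1, h2, h3, h4, h5⟩ := key _ h'
    exact ⟨z, h1, h2, h3, Or.inr (fun k hk => h4 hk), h5⟩

section Tower

variable {I : Type} [LinearOrder I]

/-- The requirement on the `i`-th element of the tower. -/
def GoodR (e : I → (ℕ → ℕ)) (i : I) (prev : ∀ j, j < i → Set ℕ) (z : Set ℕ) : Prop :=
  z.Infinite ∧ (∀ j (h : j < i), (z \ prev j h).Finite) ∧
    (∀ j (h : j < i), (prev j h \ z).Infinite) ∧
    ((∀ k ∈ z, e i k = 0) ∨ ∀ k ∈ z, e i k ≠ 0) ∧ ∀ a ∈ z, ∀ b ∈ z, a < b → e i a ≤ b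

open Classical in
/-- one step of the recursion -/
noncomputable def pickR (e : I → (ℕ → ℕ)) (i : I) (prev : ∀ j, j < i → Set ℕ) : Set ℕ :=
  if h : ∃ z, GoodR e i prev z then h.choose else ∅

lemma exists_towerR (h : Enum I) (e : I → (ℕ → ℕ)) :
    ∃ x : I → Set ℕ, ∀ i, GoodR e i (fun j _ => x j) (x i) := by
  have hwf := h.wf
  let x : I → Set ℕ := hwf.wf.fix (pickR e)
  have hx : ∀ i, x i = pickR e i (fun j _ => x j) := fun i => hwf.wf.fix_eq _ i
  refine ⟨x, ?_⟩
  intro i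
  induction i using hwf.induction with
  | ind i ih =>
  have key : ∃ z, GoodR e i (fun j _ => x j) z := by
    rcases (Iio i).eq_empty_or_nonempty with hemp | hne
    · obtain ⟨z, hz1, -, -, hz4⟩ := stepY (fun _ => univ) (fun _ _ _ => le_rfl)
        (fun _ => infinite_univ) (e i)
      refine ⟨z, hz1, ?_, ?_, hz4⟩
      · intro j hj
        have : j ∈ Iio i := hj
        rw [hemp] at this; exact this.elim
      · intro j hj
        have : j ∈ Iio i := hj
        rw [hemp] at this; exact this.elim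
    · obtain ⟨g, hg⟩ := (h.ctb i).exists_eq_range hne
      have hgi : ∀ n, g n < i := fun n => by
        have : g n ∈ Iio i := by rw [hg]; exact ⟨n, rfl⟩
        exact this
      let D : ℕ → Set ℕ := fun n => {k | ∀ l ≤ n, k ∈ x (g l)}
      have hDanti : Antitone D := fun a b hab k hk l hl => hk l (hl.trans hab)
      have hlt : ∀ a b, a < b → b < i → (x b \ x a).Finite := by
        intro a b hab hb
        exact (ih b hb).2.1 a hab
      have hDinf : ∀ n, (D n).Infinite := by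
        intro n
        have hmax : ∃ b ≤ n, ∀ l ≤ n, g l ≤ g b := by
          obtain ⟨b, hb, hbm⟩ := Finset.exists_max_image (Finset.range (n+1)) g ⟨0, by simp⟩
          exact ⟨b, by simpa [Nat.lt_succ_iff] using hb,
            fun l hl => hbm l (by simpa [Nat.lt_succ_iff] using hl)⟩
        obtain ⟨b, hbn, hb⟩ := hmax
        have hfin : (⋃ l ∈ Iic n, (x (g b) \ x (g l))).Finite := by
          refine (finite_Iic n).biUnion fun l hl => ?_
          rcases (hb l hl).eq_or_lt with h' | h'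
          · rw [h', sdiff_self]; exact finite_empty
          · exact hlt _ _ h' (hgi b)
        refine ((ih (g b) (hgi b)).1.sdiff hfin).mono ?_
        rintro k ⟨hk1, hk2⟩ l hl
        by_contra hkl
        exact hk2 (mem_iUnion₂.2 ⟨l, hl, hk1, hkl⟩)
      obtain ⟨z, hz1, hz2, hz3, hz4⟩ := stepY D hDanti hDinf (e i)
      refine ⟨z, hz1, ?_, ?_, hz4⟩
      · intro j hj
        have : j ∈ Iio i := hj
        rw [hg] at this
        obtain ⟨n, rfl⟩ := this
        refine (hz2 n).subset ?_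
        exact fun k hk => ⟨hk.1, fun h' => hk.2 (h' n le_rfl)⟩
      · intro j hj
        have : j ∈ Iio i := hj
        rw [hg] at this
        obtain ⟨n, rfl⟩ := this
        refine (hz3 n).mono ?_
        exact fun k hk => ⟨hk.1 n le_rfl, hk.2⟩
  rw [hx i]
  unfold pickR
  rw [dif_pos key]
  exact key.choose_spec

/-- Properties of the tower: it generates a selective ultrafilter. -/
structure RT (x : I → Set ℕ) : Prop where
  inf : ∀ i, (x i).Infinite
  lt : ∀ i j, i < j → (x j \ x i).Finite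
  inj : Function.Injective x
  ultra : ∀ Y : Set ℕ, ∃ i, x i ⊆ Y ∨ x i ⊆ Yᶜ
  gap : ∀ g : ℕ → ℕ, ∃ i, ∀ a ∈ x i, ∀ b ∈ x i, a < b → g a ≤ b

lemma exists_RT (h : Enum I) : ∃ x : I → Set ℕ, RT x := by
  classical
  obtain ⟨e, he⟩ := h.surj
  obtain ⟨x, hx⟩ := exists_towerR h e
  have hne : ∀ i j, i < j → x i ≠ x j := by
    intro i j hij heq
    have := (hx j).2.2.1 i hij
    simp only [heq, sdiff_self] at this
    exact this finite_empty
  refine ⟨x, fun i => (hx i).1, fun i j hij => (hx j).2.1 i hij, ?_, ?_, ?_⟩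
  · intro i j hij
    rcases lt_trichotomy i j with h' | h' | h'
    · exact (hne i j h' hij).elim
    · exact h'
    · exact (hne j i h' hij.symm).elim
  · intro Y
    obtain ⟨i, hi⟩ := he (fun k => if k ∈ Y then 0 else 1)
    refine ⟨i, ?_⟩
    rcases (hx i).2.2.2.1 with h1 | h1
    · left
      intro k hk
      have h2 := h1 k hk
      rw [hi] at h2
      by_contra h3
      simp [h3] at h2
    · right
      intro k hk
      have h2 := h1 k hk
      rw [hi] at h2
      intro h3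
      simp [h3] at h2
  · intro g
    obtain ⟨i, hi⟩ := he g
    refine ⟨i, ?_⟩
    have := (hx i).2.2.2.2
    rw [hi] at this
    exact this

variable {x : I → Set ℕ}

lemma RT.le (h : RT x) {i j : I} (hij : i ≤ j) : (x j \ x i).Finite := by
  rcases hij.eq_or_lt with h' | h'
  · rw [h', sdiff_self]; exact finite_empty
  · exact h.lt i j h'

/-- Uniform bounds. -/
lemma RT.bd (h : RT x) {i j : I} (hij : i ≤ j) : ∃ n, ∀ k ∈ x j, n ≤ k → k ∈ x i := by
  obtain ⟨n, hn⟩ := (h.le hij).bddAbove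
  refine ⟨n + 1, fun k hk hnk => ?_⟩
  by_contra hki
  have := hn (show k ∈ x j \ x i from ⟨hk, hki⟩)
  omega

/-- Sets in the filter generated by the tower. -/
def InF (x : I → Set ℕ) (Y : Set ℕ) : Prop := ∃ i n, ∀ k ∈ x i, n ≤ k → k ∈ Y

lemma RT.inF_inter (h : RT x) {Y Z : Set ℕ} (hY : InF x Y) (hZ : InF x Z) : InF x (Y ∩ Z) := by
  obtain ⟨i, n, hi⟩ := hY
  obtain ⟨j, m, hj⟩ := hZ
  obtain ⟨a, ha⟩ := h.bd (le_max_left i j)
  obtain ⟨b, hb⟩ := h.bd (le_max_right i j)
  refine ⟨max i j, max (max n m) (max a b), fun k hk hnk => ?_⟩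
  simp only [max_le_iff] at hnk
  exact ⟨hi k (ha k hk hnk.2.1) hnk.1.1, hj k (hb k hk hnk.2.2) hnk.1.2⟩

omit [LinearOrder I] in
lemma RT.inF_mono {Y Z : Set ℕ} (hY : InF x Y) (hYZ : Y ⊆ Z) : InF x Z := by
  obtain ⟨i, n, hi⟩ := hY
  exact ⟨i, n, fun k hk hnk => hYZ (hi k hk hnk)⟩

lemma RT.inF_biInter (h : RT x) [Nonempty I] {α : Type} (s : Finset α) (Y : α → Set ℕ)
    (hY : ∀ a ∈ s, InF x (Y a)) : InF x {k | ∀ a ∈ s, k ∈ Y a} := by
  classical
  induction s using Finset.induction_on with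
  | empty => exact ⟨Classical.arbitrary I, 0, fun k _ _ a ha => absurd ha (Finset.notMem_empty a)⟩
  | insert a s _ ih =>
    refine RT.inF_mono (h.inF_inter (hY a (Finset.mem_insert_self a s))
      (ih (fun b hb => hY b (Finset.mem_insert_of_mem hb)))) ?_
    rintro k ⟨hk1, hk2⟩ b hb
    rcases Finset.mem_insert.mp hb with rfl | hb
    · exact hk1
    · exact hk2 b hb

/-- The diagonal property. -/
lemma RT.diag (h : RT x) (hE : Enum I) (B : ℕ → Set ℕ) (hB : ∀ b, InF x (B b)) :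
    ∃ i, ∀ j ≥ i, ∃ m, ∀ b ∈ x j, m ≤ b → ∀ a ∈ x j, b < a → a ∈ B b := by
  choose α ν hαν using hB
  obtain ⟨d, hd⟩ := hE.bdd (countable_range α)
  have h1 : ∀ b, ∃ g, ∀ k ∈ x d, g ≤ k → k ∈ B b := by
    intro b
    obtain ⟨n, hn⟩ := h.bd (hd (α b) (mem_range_self b)).le
    refine ⟨max n (ν b), fun k hk hgk => ?_⟩
    exact hαν b k (hn k hk ((le_max_left _ _).trans hgk)) ((le_max_right _ _).trans hgk)
  choose g hg using h1
  obtain ⟨i', hi'⟩ := h.gap g
  refine ⟨max d i', fun j hj => ?_⟩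
  obtain ⟨n1, hn1⟩ := h.bd ((le_max_left d i').trans hj)
  obtain ⟨n2, hn2⟩ := h.bd ((le_max_right d i').trans hj)
  refine ⟨max n1 n2, fun b hb hnb a ha hba => ?_⟩
  have hb' : b ∈ x i' := hn2 b hb ((le_max_right _ _).trans hnb)
  have ha' : a ∈ x i' := hn2 a ha ((le_max_right _ _).trans (hnb.trans hba.le))
  have ha'' : a ∈ x d := hn1 a ha ((le_max_left _ _).trans (hnb.trans hba.le))
  exact hg b a ha'' (hi' b hb' a ha' hba)

end Tower

end Pool.Agent.Q147.RTower
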