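import Mathlib
import Pool.Agent.Q147.RTower
import Pool.Agent.Q147.QFun

/-!
# Under CH there is a Lusin space which is a `γ`-space
-/

namespace Pool.Agent.Q147.LusinGamma

open Set Filter Topology TopologicalSpace
open Pool.Agent.Q147.TowerSpace (Enum exists_enum Enum.bdd)
open Pool.Agent.Q147.RTower

/-- The space: the finite sets and the members of the tower. -/
inductive LSp {I : Type} (x : I → Set ℕ) : Type
  | fin : Finset ℕ → LSp x
  | tw : I → LSp x

open LSp

variable {I : Type} {x : I → Set ℕ}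

/-- The set of natural numbers given by a point. -/
def val : LSp x → Set ℕ
  | fin s => s
  | tw i => x i

/-- The basic sets. -/
def B (x : I → Set ℕ) (S : Set ℕ) (n : ℕ) (i : I) : Set (LSp x) :=
  {q | (∀ k < n, (k ∈ val q ↔ k ∈ S)) ∧ ∀ k ∈ val q, n ≤ k → k ∈ x i}

instance : TopologicalSpace (LSp x) where
  IsOpen G := (∀ s : Finset ℕ, fin s ∈ G → ∃ (J : Finset I) (n : ℕ), (∀ k ∈ s, k < n) ∧
      ∀ q : LSp x, (∀ k < n, (k ∈ val q ↔ k ∈ s)) → (∀ k ∈ val q, n ≤ k → ∀ i ∈ J, k ∈ x i) → q ∈ G) ∧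
    ∀ j, tw j ∈ G → ∃ n : ℕ, B x (x j) n j ⊆ G
  isOpen_univ := ⟨fun s _ => ⟨∅, s.sup id + 1, fun k hk =>
    Nat.lt_succ_of_le (Finset.le_sup (f := id) hk), fun _ _ _ => trivial⟩,
    fun _ _ => ⟨0, subset_univ _⟩⟩
  isOpen_inter := by
    classical
    rintro G G' ⟨h1, h2⟩ ⟨h1', h2'⟩
    constructor
    · rintro s ⟨hs, hs'⟩
      obtain ⟨J, n, h3, h4⟩ := h1 s hs
      obtain ⟨J', n', h3', h4'⟩ := h1' s hs'
      refine ⟨J ∪ J', max n n', fun k hk => lt_max_of_lt_left (h3 k hk), ?_⟩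
      intro q hq1 hq2
      constructor
      · apply h4 q (fun k hk => hq1 k (lt_max_of_lt_left hk))
        intro k hk hnk i hi
        rcases lt_or_ge k (max n n') with h5 | h5
        · exact absurd (h3 k ((hq1 k h5).mp hk)) (not_lt.mpr hnk)
        · exact hq2 k hk h5 i (Finset.mem_union_left _ hi)
      · apply h4' q (fun k hk => hq1 k (lt_max_of_lt_right hk))
        intro k hk hnk i hi
        rcases lt_or_ge k (max n n') with h5 | h5
        · exact absurd (h3' k ((hq1 k h5).mp hk)) (not_lt.mpr hnk)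
        · exact hq2 k hk h5 i (Finset.mem_union_right _ hi)
    · rintro j ⟨hj, hj'⟩
      obtain ⟨n, hn⟩ := h2 j hj
      obtain ⟨n', hn'⟩ := h2' j hj'
      refine ⟨max n n', ?_⟩
      rintro q ⟨hq1, hq2⟩
      have hq3 : ∀ k ∈ val q, k ∈ x j := by
        intro k hk
        rcases lt_or_ge k (max n n') with h5 | h5
        · exact (hq1 k h5).mp hk
        · exact hq2 k hk h5
      exact ⟨hn ⟨fun k hk => hq1 k (lt_max_of_lt_left hk), fun k hk _ => hq3 k hk⟩,
        hn' ⟨fun k hk => hq1 k (lt_max_of_lt_right hk), fun k hk _ => hq3 k hk⟩⟩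
  isOpen_sUnion := by
    intro S hS
    constructor
    · rintro s ⟨G, hG, hs⟩
      obtain ⟨J, n, h3, h4⟩ := (hS G hG).1 s hs
      exact ⟨J, n, h3, fun q hq1 hq2 => ⟨G, hG, h4 q hq1 hq2⟩⟩
    · rintro j ⟨G, hG, hj⟩
      obtain ⟨n, hn⟩ := (hS G hG).2 j hj
      exact ⟨n, hn.trans (subset_sUnion_of_mem hG)⟩

theorem isOpen_iff {G : Set (LSp x)} : IsOpen G ↔
    (∀ s : Finset ℕ, fin s ∈ G → ∃ (J : Finset I) (n : ℕ), (∀ k ∈ s, k < n) ∧
      ∀ q : LSp x, (∀ k < n, (k ∈ val q ↔ k ∈ s)) → (∀ k ∈ val q, n ≤ k → ∀ i ∈ J, k ∈ x i) → q ∈ G) ∧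
    ∀ j, tw j ∈ G → ∃ n : ℕ, B x (x j) n j ⊆ G := Iff.rfl

theorem lt_sup (s : Finset ℕ) : ∀ k ∈ s, k < s.sup id + 1 := fun _ hk =>
  Nat.lt_succ_of_le (Finset.le_sup (f := id) hk)

theorem isOpen_mem (k : ℕ) : IsOpen {q : LSp x | k ∈ val q} := by
  rw [isOpen_iff]
  constructor
  · intro s hs
    refine ⟨∅, max (s.sup id + 1) (k + 1), fun a ha => lt_max_of_lt_left (lt_sup s a ha), ?_⟩
    intro q hq _
    exact (hq k (lt_max_of_lt_right (Nat.lt_succ_self k))).mpr hs
  · intro j hj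
    exact ⟨k + 1, fun q hq => (hq.1 k (Nat.lt_succ_self k)).mpr hj⟩

theorem isOpen_notMem (k : ℕ) : IsOpen {q : LSp x | k ∉ val q} := by
  rw [isOpen_iff]
  constructor
  · intro s hs
    refine ⟨∅, max (s.sup id + 1) (k + 1), fun a ha => lt_max_of_lt_left (lt_sup s a ha), ?_⟩
    intro q hq _ hk
    exact hs ((hq k (lt_max_of_lt_right (Nat.lt_succ_self k))).mp hk)
  · intro j hj
    exact ⟨k + 1, fun q hq hk => hj ((hq.1 k (Nat.lt_succ_self k)).mp hk)⟩

section RTsec

variable [LinearOrder I]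

theorem val_inj (h : RT x) : Function.Injective (val : LSp x → Set ℕ) := by
  intro p q hpq
  cases p with
  | fin s =>
    cases q with
    | fin t => congr 1; exact Finset.coe_injective hpq
    | tw j => exact (h.inf j ((show (s : Set ℕ) = x j from hpq) ▸ s.finite_toSet)).elim
  | tw i =>
    cases q with
    | fin t => exact (h.inf i ((show x i = (t : Set ℕ) from hpq) ▸ t.finite_toSet)).elim
    | tw j => congr 1; exact h.inj hpq

theorem t2 (h : RT x) : T2Space (LSp x) := by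
  refine ⟨?_⟩
  intro p q hpq
  have h1 : ∃ k, ¬ (k ∈ val p ↔ k ∈ val q) := by
    by_contra hno
    push Not at hno
    exact hpq (val_inj h (Set.ext hno))
  obtain ⟨k, hk⟩ := h1
  by_cases hkp : k ∈ val p
  · have hkq : k ∉ val q := fun h' => hk ⟨fun _ => h', fun _ => hkp⟩
    exact ⟨_, _, isOpen_mem k, isOpen_notMem k, hkp, hkq,
      Set.disjoint_left.mpr (fun r h1 h2 => h2 h1)⟩
  · have hkq : k ∈ val q := by
      by_contra h'
      exact hk ⟨fun h1 => absurd h1 hkp, fun h1 => absurd h1 h'⟩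
    exact ⟨_, _, isOpen_notMem k, isOpen_mem k, hkp, hkq,
      Set.disjoint_left.mpr (fun r h1 h2 => h1 h2)⟩

theorem open_fin (h : RT x) (hE : Enum I) {G : Set (LSp x)} (hG : IsOpen G) {s : Finset ℕ}
    (hs : fin s ∈ G) : ∃ i n, (∀ k ∈ s, k < n) ∧ B x (s : Set ℕ) n i ⊆ G := by
  obtain ⟨J, n, h1, h2⟩ := (isOpen_iff.mp hG).1 s hs
  obtain ⟨d, hd⟩ := hE.bdd (S := (J : Set I)) J.countable_toSet
  have h3 : ∀ i : I, ∃ m, i ∈ J → ∀ k ∈ x d, m ≤ k → k ∈ x i := by
    intro i
    by_cases hi : i ∈ J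
    · obtain ⟨m, hm⟩ := h.bd (hd i hi).le
      exact ⟨m, fun _ => hm⟩
    · exact ⟨0, fun h' => absurd h' hi⟩
  choose m hm using h3
  refine ⟨d, max n (J.sup m), fun k hk => lt_max_of_lt_left (h1 k hk), ?_⟩
  rintro q ⟨hq1, hq2⟩
  apply h2 q (fun k hk => hq1 k (lt_max_of_lt_left hk))
  intro k hk hnk i hi
  rcases lt_or_ge k (max n (J.sup m)) with h5 | h5
  · exact absurd (h1 k ((hq1 k h5).mp hk)) (not_lt.mpr hnk)
  · exact hm i hi k (hq2 k hk h5) ((Finset.le_sup (f := m) hi).trans ((le_max_right _ _).trans h5))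

omit [LinearOrder I] in
theorem isOpen_B (s : Finset ℕ) (n : ℕ) (i : I) : IsOpen (B x (s : Set ℕ) n i) := by
  rw [isOpen_iff]
  constructor
  · rintro t ⟨h1, h2⟩
    refine ⟨{i}, max n (t.sup id + 1), fun k hk => lt_max_of_lt_right (lt_sup t k hk), ?_⟩
    intro q hq1 hq2
    refine ⟨fun k hk => (hq1 k (lt_max_of_lt_left hk)).trans (h1 k hk), ?_⟩
    intro k hk hnk
    rcases lt_or_ge k (max n (t.sup id + 1)) with h5 | h5
    · exact h2 k ((hq1 k h5).mp hk) hnk
    · exact hq2 k hk h5 i (Finset.mem_singleton_self i)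
  · rintro j ⟨h1, h2⟩
    refine ⟨n, ?_⟩
    rintro q ⟨hq1, hq2⟩
    exact ⟨fun k hk => (hq1 k hk).trans (h1 k hk), fun k hk hnk => h2 k (hq2 k hk hnk) hnk⟩

omit [LinearOrder I] in
theorem exists_fin {G : Set (LSp x)} (hG : IsOpen G) (hne : G.Nonempty) : ∃ t, fin t ∈ G := by
  classical
  obtain ⟨q, hq⟩ := hne
  cases q with
  | fin s => exact ⟨s, hq⟩
  | tw j =>
    obtain ⟨n, hn⟩ := (isOpen_iff.mp hG).2 j hq
    refine ⟨(Finset.range n).filter (· ∈ x j), hn ⟨?_, ?_⟩⟩
    · intro k hk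
      simp only [val, Finset.coe_filter, Finset.mem_range, mem_ofPred_eq]
      exact ⟨fun h => h.2, fun h => ⟨hk, h⟩⟩
    · intro k hk hnk
      simp only [val, Finset.coe_filter, Finset.mem_range, mem_ofPred_eq] at hk
      omega

/-- All members of the tower below `t` and `i` are in `O`. -/
def Qt (O : Set (LSp x)) (t : Finset ℕ) : Prop :=
  ∃ i n, (∀ k ∈ t, k < n) ∧ ∀ j, tw j ∈ B x (t : Set ℕ) n i → tw j ∈ O

theorem qStep (h : RT x) (hE : Enum I) (O : Set (LSp x)) (t : Finset ℕ) (i : I)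
    (hi : ∀ a ∈ x i, Qt O (insert a t)) : Qt O t := by
  classical
  have h1 : ∀ a, ∃ (ia : I) (na : ℕ), a ∈ x i → (∀ k ∈ insert a t, k < na) ∧
      ∀ j, tw j ∈ B x ((insert a t : Finset ℕ) : Set ℕ) na ia → tw j ∈ O := by
    intro a
    by_cases ha : a ∈ x i
    · obtain ⟨ia, na, h1, h2⟩ := hi a ha
      exact ⟨ia, na, fun _ => ⟨h1, h2⟩⟩
    · exact ⟨i, 0, fun h => absurd h ha⟩
  choose ι ν hιν using h1
  obtain ⟨i', hi'⟩ := h.diag hE (fun a => {c | c ∈ x (ι a) ∧ ν a ≤ c})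
    (fun a => ⟨ι a, ν a, fun k hk hnk => ⟨hk, hnk⟩⟩)
  obtain ⟨m, hm⟩ := hi' (max i i') (le_max_right i i')
  obtain ⟨n1, hn1⟩ := h.bd (le_max_left i i')
  refine ⟨max i i', max (max m n1) (t.sup id + 1), fun k hk => lt_max_of_lt_right (lt_sup t k hk), ?_⟩
  rintro j ⟨hj1, hj2⟩
  set n := max (max m n1) (t.sup id + 1) with hn
  have hex : ∃ a, a ∈ x j ∧ n ≤ a := by
    obtain ⟨a, ha, ha2⟩ := (h.inf j).exists_gt n
    exact ⟨a, ha, ha2.le⟩
  let a := Nat.find hex
  obtain ⟨ha1, ha2⟩ : a ∈ x j ∧ n ≤ a := Nat.find_spec hex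
  have hmin : ∀ k ∈ x j, n ≤ k → a ≤ k := fun k hk hnk => Nat.find_min' hex ⟨hk, hnk⟩
  have had : a ∈ x (max i i') := hj2 a ha1 ha2
  have hmn : m ≤ n ∧ n1 ≤ n := ⟨(le_max_left m n1).trans (le_max_left _ _),
    (le_max_right m n1).trans (le_max_left _ _)⟩
  have hai : a ∈ x i := hn1 a had (hmn.2.trans ha2)
  obtain ⟨h3, h4⟩ := hιν a hai
  have hd : ∀ k ∈ x j, a < k → k ∈ x (ι a) ∧ ν a ≤ k := fun k hk hak =>
    hm a had (hmn.1.trans ha2) k (hj2 k hk (ha2.trans hak.le)) hak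
  apply h4
  constructor
  · intro k hk
    constructor
    · intro hkj
      rw [Finset.coe_insert]
      rcases lt_or_ge k n with h5 | h5
      · exact Or.inr ((hj1 k h5).mp hkj)
      · rcases (hmin k hkj h5).eq_or_lt with h6 | h6
        · exact Or.inl h6.symm
        · exact absurd hk (not_lt.mpr (hd k hkj h6).2)
    · intro hkt
      rw [Finset.coe_insert] at hkt
      rcases hkt with h6 | h6
      · rw [h6]; exact ha1
      · have h7 : k < n := lt_max_of_lt_right (lt_sup t k h6)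
        exact (hj1 k h7).mpr h6
  · intro k hkj hnk
    have h6 : a < k := (h3 a (Finset.mem_insert_self a t)).trans_le hnk
    exact (hd k hkj h6).1

theorem badStep (h : RT x) (hE : Enum I) (O : Set (LSp x)) (t : Finset ℕ) (ht : ¬ Qt O t) :
    ∃ i, ∀ a ∈ x i, ¬ Qt O (insert a t) := by
  obtain ⟨i, hi⟩ := h.ultra {a | Qt O (insert a t)}
  rcases hi with hi | hi
  · exact absurd (qStep h hE O t i hi) ht
  · exact ⟨i, fun a ha => hi ha⟩

theorem allQ (h : RT x) (hE : Enum I) [Nonempty I] (O : Set (LSp x)) (hO : IsOpen O)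
    (hd : Dense O) (s : Finset ℕ) : Qt O s := by
  classical
  by_contra hs
  obtain ⟨i1, hi1⟩ := h.diag hE (fun b => {a | ∀ t ∈ (Finset.range (b + 1)).powerset,
      a ∈ {a | ¬ Qt O t → ¬ Qt O (insert a t)}}) (by
    intro b
    apply h.inF_biInter
    intro t _
    by_cases ht : Qt O t
    · exact ⟨Classical.arbitrary I, 0, fun k _ _ h' => absurd ht h'⟩
    · obtain ⟨i, hi⟩ := badStep h hE O t ht
      exact ⟨i, 0, fun k hk _ _ => hi k hk⟩)
  obtain ⟨i2, hi2⟩ := badStep h hE O s hs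
  obtain ⟨m, hm⟩ := hi1 (max i1 i2) (le_max_left _ _)
  obtain ⟨n1, hn1⟩ := h.bd (le_max_right i1 i2)
  set n := max (max m n1) (s.sup id + 1) with hn
  have hmn : m ≤ n ∧ n1 ≤ n := ⟨(le_max_left m n1).trans (le_max_left _ _),
    (le_max_right m n1).trans (le_max_left _ _)⟩
  have hsn : ∀ k ∈ s, k < n := fun k hk => lt_max_of_lt_right (lt_sup s k hk)
  have claim : ∀ u : Finset ℕ, (∀ k ∈ u, k ∈ x (max i1 i2) ∧ n ≤ k) → ¬ Qt O (s ∪ u) := by
    intro u
    induction u using Finset.induction_on_max with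
    | empty => intro _; simpa using hs
    | insert a u hmax ih =>
      intro hu
      have hu' : ∀ k ∈ u, k ∈ x (max i1 i2) ∧ n ≤ k := fun k hk =>
        hu k (Finset.mem_insert_of_mem hk)
      have hua := hu a (Finset.mem_insert_self a u)
      have h1 := ih hu'
      rw [Finset.union_insert]
      rcases u.eq_empty_or_nonempty with hemp | hne
      · subst hemp
        rw [Finset.union_empty]
        exact hi2 a (hn1 a hua.1 (hmn.2.trans hua.2))
      · let b := u.max' hne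
        have hb : b ∈ u := u.max'_mem hne
        have h2 := hm b (hu' b hb).1 (hmn.1.trans (hu' b hb).2) a hua.1 (hmax b hb)
        apply h2 (s ∪ u) ?_ h1
        rw [Finset.mem_powerset]
        intro k hk
        rw [Finset.mem_range]
        rcases Finset.mem_union.mp hk with h3 | h3
        · have := hsn k h3
          have := (hu' b hb).2
          omega
        · exact Nat.lt_succ_of_le (u.le_max' k h3)
  obtain ⟨q, hq⟩ := hd.inter_open_nonempty _ (isOpen_B (x := x) s n (max i1 i2))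
    ⟨fin s, fun k _ => Iff.rfl, fun k hk hnk => absurd (hsn k hk) (not_lt.mpr hnk)⟩
  obtain ⟨t, ht1, ht2⟩ := exists_fin ((isOpen_B (x := x) s n (max i1 i2)).inter hO) ⟨q, hq⟩
  have hts : t = s ∪ t.filter (n ≤ ·) := by
    ext k
    rw [Finset.mem_union, Finset.mem_filter]
    constructor
    · intro hk
      rcases lt_or_ge k n with h5 | h5
      · exact Or.inl ((ht1.1 k h5).mp hk)
      · exact Or.inr ⟨hk, h5⟩
    · rintro (hk | hk)
      · exact (ht1.1 k (hsn k hk)).mpr hk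
      · exact hk.1
  have h1 : ¬ Qt O t := by
    rw [hts]
    apply claim
    intro k hk
    rw [Finset.mem_filter] at hk
    exact ⟨ht1.2 k hk.1 hk.2, hk.2⟩
  apply h1
  obtain ⟨i, m', h2, h3⟩ := open_fin h hE hO ht2
  exact ⟨i, m', h2, fun j hj => h3 hj⟩

/-- Nowhere dense sets are countable. -/
theorem lusin (h : RT x) (hE : Enum I) [Nonempty I] (N : Set (LSp x)) (hN : IsNowhereDense N) :
    N.Countable := by
  classical
  have hO : IsOpen (closure N)ᶜ := isClosed_closure.isOpen_compl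
  have hd : Dense (closure N)ᶜ := interior_eq_empty_iff_dense_compl.mp hN
  have hQ := allQ h hE _ hO hd
  choose ι ν hν hι using hQ
  obtain ⟨i0, hi0⟩ := h.diag hE (fun b => {a | ∀ t ∈ (Finset.range (b + 1)).powerset,
      a ∈ {a | a ∈ x (ι t) ∧ ν t ≤ a}}) (by
    intro b
    apply h.inF_biInter
    intro t _
    exact ⟨ι t, ν t, fun k hk hnk => ⟨hk, hnk⟩⟩)
  have key : ∀ j ≥ i0, tw j ∈ (closure N)ᶜ := by
    intro j hj
    obtain ⟨m, hm⟩ := hi0 j hj
    obtain ⟨c, hc, hmc⟩ := (h.inf j).exists_gt m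
    let t : Finset ℕ := (Finset.range (c + 1)).filter (· ∈ x j)
    have ht : t ∈ (Finset.range (c + 1)).powerset :=
      Finset.mem_powerset.mpr (Finset.filter_subset _ _)
    have htm : ∀ k, k ∈ t ↔ k ≤ c ∧ k ∈ x j := by
      intro k
      simp only [t, Finset.mem_filter, Finset.mem_range, Nat.lt_succ_iff]
    have hk : ∀ k ∈ x j, c < k → k ∈ x (ι t) ∧ ν t ≤ k := fun k hk hck =>
      hm c hc hmc.le k hk hck t ht
    apply hι t
    constructor
    · intro k hkn
      constructor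
      · intro hkj
        rcases le_or_gt k c with h5 | h5
        · exact (htm k).mpr ⟨h5, hkj⟩
        · exact absurd hkn (not_lt.mpr (hk k hkj h5).2)
      · intro hkt
        exact ((htm k).mp hkt).2
    · intro k hkj hnk
      have hct : c < ν t := hν t c ((htm c).mpr ⟨le_rfl, hc⟩)
      exact (hk k hkj (hct.trans_le hnk)).1
  have hsub : N ⊆ range fin ∪ tw '' Iio i0 := by
    intro q hq
    cases q with
    | fin s => exact Or.inl ⟨s, rfl⟩
    | tw j =>
      right
      refine ⟨j, ?_, rfl⟩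
      by_contra hj
      exact key j (not_lt.mp hj) (subset_closure hq)
  exact ((countable_range _).union ((hE.ctb i0).image _)).mono hsub

theorem not_isolated (h : RT x) (hE : Enum I) (q : LSp x) : ¬ IsOpen ({q} : Set (LSp x)) := by
  classical
  intro hq
  obtain ⟨t, ht⟩ := exists_fin hq ⟨q, rfl⟩
  obtain ⟨i, n, h1, h2⟩ := open_fin h hE hq ht
  obtain ⟨a, ha, hna⟩ := (h.inf i).exists_gt n
  have h3 : (fin (insert a t) : LSp x) ∈ B x (t : Set ℕ) n i := by
    constructor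
    · intro k hk
      simp only [val, Finset.coe_insert, mem_insert_iff]
      exact ⟨fun h' => h'.resolve_left (by omega), fun h' => Or.inr h'⟩
    · intro k hk hnk
      simp only [val, Finset.coe_insert, mem_insert_iff] at hk
      rcases hk with rfl | hk
      · exact ha
      · exact absurd (h1 k hk) (not_lt.mpr hnk)
  have h4 : (fin (insert a t) : LSp x) = q := h2 h3
  have h5 : (fin t : LSp x) = q := ht
  have h6 : (fin (insert a t) : LSp x) = fin t := h4.trans h5.symm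
  have h7 : insert a t = t := by injection h6
  have h8 : a ∈ t := h7 ▸ Finset.mem_insert_self a t
  exact absurd (h1 a h8) (not_lt.mpr hna.le)

/-- Every open `ω`-cover has a sequence converging to the whole space. -/
theorem gamma (h : RT x) (hE : Enum I) [Nonempty I] (𝒲 : Set (Set (LSp x)))
    (hW : ∀ W ∈ 𝒲, IsOpen W) (hω : ∀ F : Set (LSp x), F.Finite → ∃ W ∈ 𝒲, F ⊆ W) :
    ∃ V : ℕ → Set (LSp x), (∀ n, V n ∈ 𝒲) ∧ ∀ q, {n | q ∉ V n}.Finite := by
  classical
  have h1 : ∀ z : Finset (LSp x) × ℕ, ∃ W ∈ 𝒲,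
      ((z.1 : Set (LSp x)) ∪ fin '' ((Finset.range z.2).powerset : Set (Finset ℕ))) ⊆ W := fun z =>
    hω _ (z.1.finite_toSet.union ((Finset.finite_toSet _).image _))
  choose W hWm hWs using h1
  -- uniform neighbourhoods
  have h2 : ∀ z : Finset (LSp x) × ℕ, ∃ (i : I) (n : ℕ), z.2 ≤ n ∧
      ∀ s ∈ (Finset.range z.2).powerset, B x (s : Set ℕ) n i ⊆ W z := by
    intro z
    have h3 : ∀ s : Finset ℕ, ∃ (i : I) (n : ℕ), s ∈ (Finset.range z.2).powerset →
        (∀ k ∈ s, k < n) ∧ B x (s : Set ℕ) n i ⊆ W z := by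
      intro s
      by_cases hs : s ∈ (Finset.range z.2).powerset
      · obtain ⟨i, n, h4, h5⟩ := open_fin h hE (hW _ (hWm z)) (s := s)
          (hWs z (Or.inr ⟨s, hs, rfl⟩))
        exact ⟨i, n, fun _ => ⟨h4, h5⟩⟩
      · exact ⟨Classical.arbitrary I, 0, fun h' => absurd h' hs⟩
    choose ι ν hιν using h3
    obtain ⟨i, n', hi⟩ := h.inF_biInter (Finset.range z.2).powerset (fun s => x (ι s))
      (fun s _ => ⟨ι s, 0, fun k hk _ => hk⟩)
    refine ⟨i, max (max n' z.2) ((Finset.range z.2).powerset.sup ν),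
      (le_max_right n' z.2).trans (le_max_left _ _), ?_⟩
    intro s hs
    obtain ⟨h4, h5⟩ := hιν s hs
    refine Subset.trans ?_ h5
    rintro q ⟨hq1, hq2⟩
    have hνs : ν s ≤ max (max n' z.2) ((Finset.range z.2).powerset.sup ν) :=
      (Finset.le_sup (f := ν) hs).trans (le_max_right _ _)
    refine ⟨fun k hk => hq1 k (hk.trans_le hνs), ?_⟩
    intro k hk hnk
    rcases lt_or_ge k (max (max n' z.2) ((Finset.range z.2).powerset.sup ν)) with h6 | h6
    · exact absurd (h4 k ((hq1 k h6).mp hk)) (not_lt.mpr hnk)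
    · exact hi k (hq2 k hk h6) (((le_max_left n' z.2).trans (le_max_left _ _)).trans h6) s hs
  choose α ν hν1 hν2 using h2
  have star : ∀ G : Finset (LSp x), ∃ (β : I) (l0 : ℕ), ∀ l ≥ l0, ∀ q : LSp x,
      (∀ k ∈ val q, l ≤ k → k ∈ x β) → ∀ e ∈ x β, l ≤ e → q ∈ W (G, e + 1) := by
    intro G
    obtain ⟨d, hd⟩ := hE.bdd (countable_range (fun b : ℕ => α (G, b)))
    have h3 : ∀ b : ℕ, ∃ g, ν (G, b) ≤ g ∧ ∀ k ∈ x d, g ≤ k → k ∈ x (α (G, b)) := by
      intro b
      obtain ⟨n, hn⟩ := h.bd (hd (α (G, b)) (mem_range_self b)).le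
      exact ⟨max n (ν (G, b)), le_max_right _ _, fun k hk hgk => hn k hk ((le_max_left _ _).trans hgk)⟩
    choose g hg1 hg2 using h3
    obtain ⟨i', hi'⟩ := h.gap (fun e => g (e + 1))
    obtain ⟨n1, hn1⟩ := h.bd (le_max_left d i')
    obtain ⟨n2, hn2⟩ := h.bd (le_max_right d i')
    refine ⟨max d i', max n1 n2, ?_⟩
    intro l hl q hq e he hle
    have hl1 : n1 ≤ l := (le_max_left _ _).trans hl
    have hl2 : n2 ≤ l := (le_max_right _ _).trans hl
    let s : Finset ℕ := (Finset.range (e + 1)).filter (· ∈ val q)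
    have hsp : s ∈ (Finset.range (e + 1)).powerset := Finset.mem_powerset.mpr (Finset.filter_subset _ _)
    have hsm : ∀ k, k ∈ s ↔ k ≤ e ∧ k ∈ val q := by
      intro k
      simp only [s, Finset.mem_filter, Finset.mem_range, Nat.lt_succ_iff]
    have hbig : ∀ k ∈ val q, e < k → k ∈ x d ∧ g (e + 1) ≤ k := by
      intro k hk hek
      have h4 : k ∈ x (max d i') := hq k hk (hle.trans hek.le)
      refine ⟨hn1 k h4 (hl1.trans (hle.trans hek.le)), ?_⟩
      exact hi' e (hn2 e he (hl2.trans hle)) k (hn2 k h4 (hl2.trans (hle.trans hek.le))) hek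
    apply hν2 (G, e + 1) s hsp
    constructor
    · intro k hk
      constructor
      · intro hkq
        rcases le_or_gt k e with h5 | h5
        · exact (hsm k).mpr ⟨h5, hkq⟩
        · exact absurd hk (not_lt.mpr ((hg1 (e + 1)).trans (hbig k hkq h5).2))
      · intro hks
        exact ((hsm k).mp hks).2
    · intro k hk hnk
      have h5 : e < k := Nat.lt_of_succ_le ((hν1 (G, e + 1)).trans hnk)
      exact hg2 (e + 1) k (hbig k hk h5).1 (hbig k hk h5).2
  choose β l0 hβ using star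
  have hIic : ∀ i : I, (Iic i).Countable := by
    intro i
    rw [← Iio_insert]
    exact (hE.ctb i).insert i
  have twinj : Function.Injective (tw : I → LSp x) := by
    intro i j hij
    injection hij
  obtain ⟨S, hS0, hSc, hS⟩ := Pool.Agent.Q147.QFun.exists_countable_closed
    (fun G : Finset (LSp x) => tw '' Iic (β G) ∪ tw '' (⋃ i ∈ {i : I | tw i ∈ G}, Iic i))
    (fun G => ((hIic _).image _).union (Set.Countable.image
      (Set.Countable.biUnion ((G.finite_toSet.preimage twinj.injOn).countable) (fun i _ => hIic i)) _))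
    (range fin) (countable_range _)
  have hJc : {j : I | tw j ∈ S}.Countable := hSc.preimage_of_injOn twinj.injOn
  have hJdown : ∀ j, tw j ∈ S → ∀ j' ≤ j, tw j' ∈ S := by
    intro j hj j' hj'
    apply hS {tw j} (by simpa using hj)
    right
    refine ⟨j', ?_, rfl⟩
    simp only [mem_iUnion]
    exact ⟨j, Finset.mem_singleton_self _, hj'⟩
  obtain ⟨d0, hd0⟩ := hE.bdd hJc
  have hne : {j : I | tw j ∉ S}.Nonempty := ⟨d0, fun h' => lt_irrefl _ (hd0 d0 h')⟩
  have hwf := hE.wf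
  let αω := hwf.wf.min {j : I | tw j ∉ S} hne
  have hαω : tw αω ∉ S := hwf.wf.min_mem _ hne
  have hJlt : ∀ j, tw j ∈ S → j < αω := by
    intro j hj
    by_contra hno
    exact hαω (hJdown j hj αω (not_lt.mp hno))
  have hltJ : ∀ j, j < αω → tw j ∈ S := by
    intro j hj
    by_contra hno
    exact hwf.wf.not_lt_min _ hno hj
  have hβS : ∀ G : Finset (LSp x), (G : Set (LSp x)) ⊆ S → β G < αω := by
    intro G hG
    apply hJlt
    apply hS G hG
    exact Or.inl ⟨β G, mem_Iic.mpr le_rfl, rfl⟩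
  obtain ⟨eS, heS⟩ := hSc.exists_eq_range ⟨fin ∅, hS0 (mem_range_self _)⟩
  let Gn : ℕ → Finset (LSp x) := fun n => (Finset.range (n + 1)).image eS
  have hGn : ∀ n, (Gn n : Set (LSp x)) ⊆ S := by
    intro n q hq
    simp only [Gn, Finset.mem_coe, Finset.mem_image] at hq
    obtain ⟨k, _, rfl⟩ := hq
    rw [heS]; exact mem_range_self k
  have h4 : ∀ n, ∃ e ∈ x (β (Gn n)), n ≤ e ∧ l0 (Gn n) ≤ e ∧
      ∀ k ∈ x αω, e ≤ k → k ∈ x (β (Gn n)) := by
    intro n
    obtain ⟨m, hm⟩ := h.bd (hβS (Gn n) (hGn n)).le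
    obtain ⟨e, he, he2⟩ := (h.inf (β (Gn n))).exists_gt (max m (max n (l0 (Gn n))))
    simp only [max_lt_iff] at he2
    exact ⟨e, he, he2.2.1.le, he2.2.2.le, fun k hk hek => hm k hk (he2.1.le.trans hek)⟩
  choose ε hε1 hε2 hε3 hε4 using h4
  refine ⟨fun n => W (Gn n, ε n + 1), fun n => hWm _, ?_⟩
  intro q
  by_cases hq : q ∈ S
  · rw [heS] at hq
    obtain ⟨k, rfl⟩ := hq
    refine (finite_lt_nat k).subset ?_
    intro n hn
    by_contra hno
    have hno' : k ≤ n := not_lt.mp hno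
    apply hn
    apply hWs (Gn n, ε n + 1)
    left
    simp only [Gn, Finset.mem_coe, Finset.mem_image, Finset.mem_range]
    exact ⟨k, by omega, rfl⟩
  · cases q with
    | fin s => exact absurd (hS0 (mem_range_self s)) hq
    | tw j =>
      have hj : αω ≤ j := by
        by_contra hno
        exact hq (hltJ j (not_le.mp hno))
      obtain ⟨l, hl⟩ := h.bd hj
      refine (finite_lt_nat l).subset ?_
      intro n hn
      by_contra hno
      have hno' : l ≤ n := not_lt.mp hno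
      apply hn
      apply hβ (Gn n) (ε n) (hε3 n) (tw j) ?_ (ε n) (hε1 n) le_rfl
      intro k hk hek
      exact hε4 n k (hl k hk (hno'.trans ((hε2 n).trans hek))) hek

end RTsec

end Pool.Agent.Q147.LusinGamma
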