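import Mathlib

/-!
# Minimal topological groups: closed subgroups of abelian groups, compact extensions
-/

namespace Pool.Agent.Q147.MinGroup

open Set Filter Topology

universe u v

/-- The (Hausdorff) topological group `G` is minimal: there is no Hausdorff group topology on `G`
strictly coarser than the given one.  In Mathlib `t ≤ s` says that `s` is coarser than `t`. -/
def IsMinimalGroup (G : Type u) [Group G] [t : TopologicalSpace G] : Prop :=
  ¬ ∃ s : TopologicalSpace G, t ≤ s ∧ s ≠ t ∧ @IsTopologicalGroup G s _ ∧ @T2Space G s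

theorem IsMinimalGroup.eq {G : Type u} [Group G] [t : TopologicalSpace G] (h : IsMinimalGroup G)
    (s : TopologicalSpace G) (hts : t ≤ s) (hg : @IsTopologicalGroup G s _)
    (h2 : @T2Space G s) : s = t := by
  by_contra hne
  exact h ⟨s, hts, hne, hg, h2⟩

/-- The image topology under a surjective homomorphism. -/
theorem coinduced_open {E : Type u} {G : Type v} [Group E] [t : TopologicalSpace E]
    [IsTopologicalGroup E] [Group G] (f : E →* G) :
    @IsOpenMap E G t (TopologicalSpace.coinduced f t) f := by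
  intro U hU
  rw [isOpen_coinduced]
  have : f ⁻¹' (f '' U) = ⋃ n ∈ (f.ker : Set E), (fun x => x * n) ⁻¹' U := by
    ext x
    simp only [Set.mem_preimage, Set.mem_image, Set.mem_iUnion]
    constructor
    · rintro ⟨u, hu, hux⟩
      refine ⟨x⁻¹ * u, ?_, by simpa using hu⟩
      change f (x⁻¹ * u) = 1
      rw [map_mul, map_inv, hux, inv_mul_cancel]
    · rintro ⟨n, hn, hx⟩
      refine ⟨x * n, hx, ?_⟩
      rw [map_mul, show f n = 1 from hn, mul_one]
  rw [this]
  exact isOpen_biUnion fun n _ => hU.preimage (continuous_id.mul continuous_const)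

theorem coinduced_group {E : Type u} {G : Type v} [Group E] [t : TopologicalSpace E]
    [IsTopologicalGroup E] [Group G] (f : E →* G) (hf : Function.Surjective f) :
    @IsTopologicalGroup G (TopologicalSpace.coinduced f t) _ := by
  let c : TopologicalSpace G := TopologicalSpace.coinduced f t
  have hq : IsOpenQuotientMap f := ⟨hf, continuous_coinduced_rng, coinduced_open f⟩
  have hm : Continuous fun p : G × G => p.1 * p.2 := by
    rw [← (hq.prodMap hq).continuous_comp_iff]
    have : (fun p : G × G => p.1 * p.2) ∘ Prod.map f f = f ∘ fun p : E × E => p.1 * p.2 := by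
      ext p
      simp
    rw [this]
    exact hq.continuous.comp continuous_mul
  have hi : Continuous fun g : G => g⁻¹ := by
    rw [← hq.continuous_comp_iff]
    have : (fun g : G => g⁻¹) ∘ f = f ∘ fun x : E => x⁻¹ := by
      ext x
      simp
    rw [this]
    exact hq.continuous.comp continuous_inv
  exact { continuous_mul := hm, continuous_inv := hi }

theorem coinduced_t2 {E : Type u} {G : Type v} [Group E] [t : TopologicalSpace E]
    [IsTopologicalGroup E] [Group G] (f : E →* G) (hf : Function.Surjective f)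
    (hk : IsClosed (f.ker : Set E)) :
    @T2Space G (TopologicalSpace.coinduced f t) := by
  let c : TopologicalSpace G := TopologicalSpace.coinduced f t
  have hg : IsTopologicalGroup G := coinduced_group f hf
  have h1 : IsClosed ({1} : Set G) := by
    rw [isClosed_coinduced]
    exact hk
  have : T1Space G := IsTopologicalGroup.t1Space G h1
  infer_instance

/-- Key lemma on subgroups of minimal abelian groups, in terms of a homomorphism `j`
with closed range. -/
theorem inducing_of_minimal {A : Type u} [CommGroup A] [τ : TopologicalSpace A]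
    [IsTopologicalGroup A] (hA : IsMinimalGroup A) {H : Type v} [Group H]
    [σ : TopologicalSpace H] [IsTopologicalGroup H] [T2Space H] (j : H →* A)
    (hcl : IsClosed (Set.range j))
    (hle : TopologicalSpace.induced j τ ≤ σ) : σ = TopologicalSpace.induced j τ := by
  -- the homomorphism `(a, h) ↦ a * j h`
  let f : A × H →* A :=
    { toFun := fun p => p.1 * j p.2
      map_one' := by simp
      map_mul' := fun p q => by
        change p.1 * q.1 * j (p.2 * q.2) = p.1 * j p.2 * (q.1 * j q.2)
        rw [map_mul]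
        exact mul_mul_mul_comm _ _ _ _ }
  have hf : Function.Surjective f := fun a => ⟨(a, 1), by
    change a * j 1 = a
    rw [map_one, mul_one]⟩
  have hk : IsClosed (f.ker : Set (A × H)) := by
    -- work with an ultrafilter / nets: use that the closure points lie in the range
    rw [← closure_subset_iff_isClosed]
    rintro ⟨a, h⟩ hah
    have ha : a ∈ Set.range j := by
      rw [← hcl.closure_eq]
      have h1 : Prod.fst '' (f.ker : Set (A × H)) ⊆ Set.range j := by
        rintro _ ⟨⟨b, k⟩, hbk, rfl⟩
        have hbk' : b * j k = 1 := hbk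
        exact ⟨k⁻¹, by rw [map_inv]; exact (eq_inv_of_mul_eq_one_left hbk').symm⟩
      have h2 : a ∈ Prod.fst '' closure (f.ker : Set (A × H)) := ⟨(a, h), hah, rfl⟩
      exact closure_mono h1 (image_closure_subset_closure_image continuous_fst h2)
    obtain ⟨k, rfl⟩ := ha
    change j k * j h = 1
    -- suppose `k * h ≠ 1` and separate in `H`
    by_contra hne
    have hkh : k ≠ h⁻¹ := by
      intro h0
      apply hne
      rw [h0, ← map_mul, inv_mul_cancel, map_one]
    obtain ⟨U, V, hU, hV, hkU, hhV, hUV⟩ := t2_separation hkh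
    have hU' : IsOpen[TopologicalSpace.induced j τ] U := hle U hU
    obtain ⟨W, hW, hWU⟩ := isOpen_induced_iff.1 hU'
    have hO : IsOpen (W ×ˢ ((fun x : H => x⁻¹) ⁻¹' V)) := hW.prod (hV.preimage continuous_inv)
    have hmem : (j k, h) ∈ W ×ˢ ((fun x : H => x⁻¹) ⁻¹' V) := by
      refine ⟨?_, hhV⟩
      have : k ∈ j ⁻¹' W := by rw [hWU]; exact hkU
      exact this
    obtain ⟨⟨b, m⟩, ⟨hbW, hmV⟩, hbm⟩ := mem_closure_iff.1 hah _ hO hmem
    have hbm' : b * j m = 1 := hbm
    have hb : b = j m⁻¹ := by
      rw [map_inv]; exact eq_inv_of_mul_eq_one_left hbm'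
    have h3 : m⁻¹ ∈ U := by
      rw [← hWU]
      change j m⁻¹ ∈ W
      rw [← hb]
      exact hbW
    exact Set.disjoint_left.1 hUV h3 hmV
  have hc := hA.eq (TopologicalSpace.coinduced f instTopologicalSpaceProd) (by
    -- `τ ≤ c`
    intro U hU
    rw [isOpen_coinduced] at hU
    have h1 : Continuous fun a : A => (a, (1 : H)) := by fun_prop
    have h2 := hU.preimage h1
    have h3 : (fun a : A => (a, (1 : H))) ⁻¹' (f ⁻¹' U) = U := by
      ext a
      change a * j 1 ∈ U ↔ a ∈ U
      rw [map_one, mul_one]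
    rwa [h3] at h2) (coinduced_group f hf) (coinduced_t2 f hf hk)
  refine le_antisymm ?_ hle
  intro V hV
  obtain ⟨U, hU, hUV⟩ := isOpen_induced_iff.1 hV
  have hU' : IsOpen[TopologicalSpace.coinduced f instTopologicalSpaceProd] U := by
    rw [hc]; exact hU
  rw [isOpen_coinduced] at hU'
  have h2 : Continuous fun h : H => ((1 : A), h) := by fun_prop
  have h3 := hU'.preimage h2
  have h4 : (fun h : H => ((1 : A), h)) ⁻¹' (f ⁻¹' U) = V := by
    rw [← hUV]
    ext h
    change 1 * j h ∈ U ↔ j h ∈ U
    rw [one_mul]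
  rwa [h4] at h3

/-- Closed subgroups of minimal abelian groups are minimal. -/
theorem closed_subgroup_minimal {A : Type u} [CommGroup A] [TopologicalSpace A]
    [IsTopologicalGroup A] (hA : IsMinimalGroup A) (H : Subgroup A)
    (hH : IsClosed (H : Set A)) : IsMinimalGroup H := by
  have hr : IsClosed (Set.range H.subtype) := by
    have : Set.range H.subtype = (H : Set A) := Subtype.range_coe
    rw [this]; exact hH
  have key : ∀ σ : TopologicalSpace H, TopologicalSpace.induced H.subtype inferInstance ≤ σ →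
      @IsTopologicalGroup H σ _ → @T2Space H σ →
      σ = TopologicalSpace.induced H.subtype inferInstance := by
    intro σ hle hg h2
    exact inducing_of_minimal hA H.subtype hr hle
  intro h
  obtain ⟨σ, hle, hne, hg, h2⟩ := h
  exact hne (key σ hle hg h2)

/-- If `f : L → P` is a quotient homomorphism with compact kernel onto a minimal group, then every
continuous bijective homomorphism `e : L → L'` onto a Hausdorff group is a homeomorphism. -/
theorem nhds_of_compact_kernel {L L' : Type u} {P : Type v} [Group L] [TopologicalSpace L]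
    [IsTopologicalGroup L] [Group L'] [TopologicalSpace L'] [IsTopologicalGroup L'] [T2Space L']
    [Group P] [π : TopologicalSpace P] (e : L →* L') (he : Continuous e)
    (hbij : Function.Bijective e)
    (f : L →* P) (hf : IsQuotientMap f) (hk : IsCompact (f.ker : Set L))
    (hP : IsMinimalGroup P) (U : Set L) (hU : U ∈ 𝓝 (1 : L)) : e '' U ∈ 𝓝 (1 : L') := by
  let ε : L ≃* L' := MulEquiv.ofBijective e hbij
  have hε : ∀ x, ε x = e x := fun x => rfl
  let f' : L' →* P := f.comp ε.symm.toMonoidHom
  have hf'e : ∀ x, f' (e x) = f x := fun x => by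
    change f (ε.symm (ε x)) = f x
    rw [ε.symm_apply_apply]
  have hf's : Function.Surjective f' := fun p => by
    obtain ⟨x, rfl⟩ := hf.surjective p
    exact ⟨e x, hf'e x⟩
  -- the kernel is compact, hence closed
  have hker' : (f'.ker : Set L') = e '' (f.ker : Set L) := by
    ext y
    constructor
    · intro hy
      refine ⟨ε.symm y, hy, ε.apply_symm_apply y⟩
    · rintro ⟨x, hx, rfl⟩
      change f' (e x) = 1
      rw [hf'e]; exact hx
  have hkcl : IsClosed (f'.ker : Set L') := by
    rw [hker']; exact (hk.image he).isClosed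
  -- the image topology on `P`
  have hc : TopologicalSpace.coinduced f' inferInstance = π := by
    apply hP.eq
    · intro V hV
      rw [isOpen_coinduced] at hV
      rw [← hf.isOpen_preimage]
      have h1 : f ⁻¹' V = e ⁻¹' (f' ⁻¹' V) := by
        ext x
        change f x ∈ V ↔ f' (e x) ∈ V
        rw [hf'e]
      rw [h1]
      exact hV.preimage he
    · exact coinduced_group f' hf's
    · exact coinduced_t2 f' hf's hkcl
  have hf'c : Continuous f' := by
    have : @Continuous L' P _ (TopologicalSpace.coinduced f' inferInstance) f' :=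
      continuous_coinduced_rng
    rwa [hc] at this
  have hfo : IsOpenMap f := by
    have h7 := coinduced_open f
    rwa [← hf.eq_coinduced] at h7
  -- the topologies agree on the kernel
  have hker : ∀ V ∈ 𝓝 (1 : L), ∃ W ∈ 𝓝 (1 : L'), ∀ x ∈ f.ker, e x ∈ W → x ∈ V := by
    intro V hV
    obtain ⟨O, hOV, hO, h1O⟩ := mem_nhds_iff.1 hV
    have hcpt : IsCompact ((f.ker : Set L) \ O) := hk.diff hO
    have hcl : IsClosed (e '' ((f.ker : Set L) \ O)) := (hcpt.image he).isClosed
    refine ⟨(e '' ((f.ker : Set L) \ O))ᶜ, ?_, ?_⟩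
    · refine hcl.isOpen_compl.mem_nhds ?_
      rintro ⟨x, ⟨-, hxO⟩, hx1⟩
      have : x = 1 := hbij.1 (by rw [hx1, map_one])
      rw [this] at hxO
      exact hxO h1O
    · intro x hx hxW
      apply hOV
      by_contra hxO
      exact hxW ⟨x, ⟨hx, hxO⟩, rfl⟩
  -- choose `V * V ⊆ U`
  obtain ⟨V, hV, hVU⟩ := exists_nhds_one_split hU
  obtain ⟨W₀, hW₀, hW₀V⟩ := hker V hV
  -- `W⁻¹ * W ⊆ W₀`
  obtain ⟨W, hW, hWW⟩ : ∃ W ∈ 𝓝 (1 : L'), ∀ v ∈ W, ∀ w ∈ W, v⁻¹ * w ∈ W₀ := by
    have hcont : ContinuousAt (fun p : L' × L' => p.1⁻¹ * p.2) (1, 1) :=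
      (continuous_fst.inv.mul continuous_snd).continuousAt
    have h5 := hcont.tendsto
    rw [nhds_prod_eq] at h5
    have h6 : (fun p : L' × L' => p.1⁻¹ * p.2) ⁻¹' W₀ ∈ 𝓝 (1 : L') ×ˢ 𝓝 (1 : L') := by
      apply h5
      simpa using hW₀
    rw [Filter.mem_prod_same_iff] at h6
    obtain ⟨W, hW, hWW⟩ := h6
    refine ⟨W, hW, fun v hv w hw => ?_⟩
    have h7 : (v, w) ∈ (fun p : L' × L' => p.1⁻¹ * p.2) ⁻¹' W₀ := hWW ⟨hv, hw⟩
    exact h7
  -- `(V ∩ W) N` is a neighbourhood
  have hWe : e ⁻¹' W ∈ 𝓝 (1 : L) := by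
    apply he.continuousAt.preimage_mem_nhds
    rwa [map_one]
  have hVW : V ∩ e ⁻¹' W ∈ 𝓝 (1 : L) := Filter.inter_mem hV hWe
  have him : f '' (V ∩ e ⁻¹' W) ∈ 𝓝 (1 : P) := by
    have := hfo.image_mem_nhds hVW
    rwa [map_one] at this
  have hpre : f' ⁻¹' (f '' (V ∩ e ⁻¹' W)) ∈ 𝓝 (1 : L') := by
    apply hf'c.continuousAt.preimage_mem_nhds
    rwa [map_one]
  refine Filter.mem_of_superset (Filter.inter_mem hW hpre) ?_
  rintro w' ⟨hw, v, ⟨hv, hvW⟩, hvw⟩
  obtain ⟨w, rfl⟩ := hbij.2 w'
  rw [hf'e] at hvw
  have hn : v⁻¹ * w ∈ f.ker := by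
    change f (v⁻¹ * w) = 1
    rw [map_mul, map_inv, hvw, inv_mul_cancel]
  have hnV : v⁻¹ * w ∈ V := by
    apply hW₀V _ hn
    rw [map_mul, map_inv]
    exact hWW _ hvW _ hw
  have h10 := hVU v hv _ hnV
  rw [mul_inv_cancel_left] at h10
  exact ⟨w, h10, rfl⟩

/-- If `f : L → P` is a surjective quotient homomorphism with compact kernel onto a minimal group,
then `L` is minimal. -/
theorem minimal_of_compact_kernel {L : Type u} {P : Type v} [Group L] [τ : TopologicalSpace L]
    [IsTopologicalGroup L] [Group P] [TopologicalSpace P]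
    (f : L →* P) (hf : IsQuotientMap f) (hk : IsCompact (f.ker : Set L))
    (hP : IsMinimalGroup P) : IsMinimalGroup L := by
  have key : ∀ (σ : TopologicalSpace L), τ ≤ σ → @IsTopologicalGroup L σ _ → @T2Space L σ →
      ∀ U ∈ @nhds L τ 1, U ∈ @nhds L σ 1 := by
    intro σ hle hg h2 U hU
    have h1 := @nhds_of_compact_kernel L L P _ τ _ _ σ hg h2 _ _ (MonoidHom.id L)
      (continuous_id_iff_le.2 hle) Function.bijective_id f hf hk hP U hU
    have h3 : (MonoidHom.id L) '' U = U := Set.image_id U
    rwa [h3] at h1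
  have hτg : @IsTopologicalGroup L τ _ := inferInstance
  intro h
  obtain ⟨σ, hle, hne, hg, h2⟩ := h
  apply hne
  refine (@IsTopologicalGroup.ext_iff L _ σ τ hg hτg).2 ?_
  exact le_antisymm (fun U hU => key σ hle hg h2 U hU) (nhds_mono hle)

end Pool.Agent.Q147.MinGroup
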