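import Mathlib
import Pool.Agent.H894R3.Ana

/-!
# Dense Lebesgue null subgroups of the line are not plastic

Let `H` be a dense subgroup of `ℝ` of Lebesgue (outer) measure zero.  We construct a homeomorphism
`f x = x - g x` of `ℝ` with `g` monotone and `1/2`-Lipschitz, `f x ∈ H ↔ x ∈ H`, and `g` not
constant.  Hence `H` is not plastic.  In particular no dense analytic subgroup of `ℝ` is plastic.
-/

namespace Pool.Agent.Q147.Plastic

open Set MeasureTheory Topology

/-- A monotone `1`-Lipschitz function. -/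
structure IsGauge (Φ : ℝ → ℝ) : Prop where
  mono : ∀ s t, s ≤ t → Φ s ≤ Φ t
  lip : ∀ s t, s ≤ t → Φ t - Φ s ≤ t - s

lemma IsGauge.continuous {Φ : ℝ → ℝ} (h : IsGauge Φ) : Continuous Φ := by
  have : LipschitzWith 1 Φ := by
    apply LipschitzWith.of_le_add
    intro x y
    rw [Real.dist_eq]
    rcases le_total x y with hxy | hxy
    · have := h.mono x y hxy
      have := abs_nonneg (x - y)
      linarith
    · have := h.lip y x hxy
      have := le_abs_self (x - y)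
      linarith
  exact this.continuous

/-- The relation between consecutive pinned points. -/
def R (Φ : ℝ → ℝ) (p q : ℝ × ℝ) : Prop :=
  p.1 < q.1 ∧ p.2 ≤ q.2 ∧ (p.2 < q.2 → q.2 - p.2 <
    (1 / 2) * (((q.1 - Φ q.1) - (p.1 - Φ p.1)) - (Φ (q.1 - q.2) - Φ (p.1 - p.2))))

/-- The transitive relation between pinned points. -/
def T (Φ : ℝ → ℝ) (p q : ℝ × ℝ) : Prop :=
  p.1 < q.1 ∧ p.2 ≤ q.2 ∧ q.2 - p.2 ≤ (1 / 2) * ((q.1 - Φ q.1) - (p.1 - Φ p.1)) ∧
    q.2 - p.2 ≤ ((q.1 - q.2) - Φ (q.1 - q.2)) - ((p.1 - p.2) - Φ (p.1 - p.2))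

lemma T_of_R {Φ : ℝ → ℝ} (h : IsGauge Φ) {p q : ℝ × ℝ} (hR : R Φ p q) : T Φ p q := by
  obtain ⟨h1, h2, h3⟩ := hR
  have hA : Φ q.1 - Φ p.1 ≤ q.1 - p.1 := h.lip _ _ h1.le
  have hA' : Φ p.1 ≤ Φ q.1 := h.mono _ _ h1.le
  rcases eq_or_lt_of_le h2 with he | hlt
  · have hB := h.lip (p.1 - p.2) (q.1 - q.2) (by linarith)
    refine ⟨h1, h2, by linarith, by linarith⟩
  · have h3' := h3 hlt
    have hf : p.1 - p.2 ≤ q.1 - q.2 := by
      by_contra hn
      push Not at hn
      have hB := h.lip (q.1 - q.2) (p.1 - p.2) hn.le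
      linarith
    have hB := h.mono _ _ hf
    refine ⟨h1, h2, by linarith, by linarith⟩

lemma T_trans {Φ : ℝ → ℝ} {p q r : ℝ × ℝ} (h1 : T Φ p q) (h2 : T Φ q r) : T Φ p r := by
  obtain ⟨a1, a2, a3, a4⟩ := h1
  obtain ⟨b1, b2, b3, b4⟩ := h2
  exact ⟨a1.trans b1, a2.trans b2, by linarith, by linarith⟩

/-- Choice of the value at a new point between two consecutive pinned points. -/
lemma choose_val {Φ : ℝ → ℝ} (h : IsGauge Φ) {H : Set ℝ} (hd : Dense H) {p q : ℝ × ℝ}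
    (hR : R Φ p q) (hp : p.2 ∈ H) (hq : q.2 ∈ H) {y : ℝ} (h1 : p.1 < y) (h2 : y < q.1) :
    ∃ w ∈ H, R Φ p (y, w) ∧ R Φ (y, w) q := by
  obtain ⟨_, hle, hlt⟩ := hR
  rcases eq_or_lt_of_le hle with he | hv
  · exact ⟨p.2, hp, ⟨h1, le_rfl, fun hh => absurd hh (lt_irrefl _)⟩,
      ⟨h2, hle, fun hh => absurd he hh.ne⟩⟩
  have hc := hlt hv
  set a : ℝ → ℝ := fun w =>
    (1 / 2) * (((y - Φ y) - (p.1 - Φ p.1)) - (Φ (y - w) - Φ (p.1 - p.2))) - (w - p.2) with ha
  set b : ℝ → ℝ := fun w =>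
    (1 / 2) * (((q.1 - Φ q.1) - (y - Φ y)) - (Φ (q.1 - q.2) - Φ (y - w))) - (q.2 - w) with hb
  set c : ℝ := (1 / 2) * (((q.1 - Φ q.1) - (p.1 - Φ p.1)) - (Φ (q.1 - q.2) - Φ (p.1 - p.2)))
    - (q.2 - p.2) with hcdef
  have hcpos : 0 < c := by rw [hcdef]; linarith
  have hab : ∀ w, a w + b w = c := by
    intro w
    simp only [ha, hb, hcdef]
    ring
  have ha' : ∀ w, 0 < a w → (p.2 ≤ w) → R Φ p (y, w) := by
    intro w hw hpw
    refine ⟨h1, hpw, fun _ => ?_⟩
    simp only [ha] at hw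
    change w - p.2 < (1 / 2) * (((y - Φ y) - (p.1 - Φ p.1)) - (Φ (y - w) - Φ (p.1 - p.2)))
    linarith
  have hb' : ∀ w, 0 < b w → (w ≤ q.2) → R Φ (y, w) q := by
    intro w hw hwq
    refine ⟨h2, hwq, fun _ => ?_⟩
    simp only [hb] at hw
    change q.2 - w < (1 / 2) * (((q.1 - Φ q.1) - (y - Φ y)) - (Φ (q.1 - q.2) - Φ (y - w)))
    linarith
  by_cases hb0 : 0 < b p.2
  · exact ⟨p.2, hp, ⟨h1, le_rfl, fun hh => absurd hh (lt_irrefl _)⟩, hb' p.2 hb0 hle⟩
  by_cases ha0 : 0 < a q.2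
  · exact ⟨q.2, hq, ha' q.2 ha0 hle, ⟨h2, le_rfl, fun hh => absurd hh (lt_irrefl _)⟩⟩
  push Not at hb0 ha0
  have hap : c ≤ a p.2 := by
    have := hab p.2
    linarith
  have hacont : Continuous a := by
    have := h.continuous
    simp only [ha]
    fun_prop
  have hmem : c / 2 ∈ Icc (a q.2) (a p.2) := ⟨by linarith, by linarith⟩
  obtain ⟨w0, hw0, hw0c⟩ := intermediate_value_Icc' hle hacont.continuousOn hmem
  have hne1 : w0 ≠ p.2 := by
    intro he
    rw [he] at hw0c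
    linarith
  have hne2 : w0 ≠ q.2 := by
    intro he
    rw [he] at hw0c
    linarith
  have hopen : IsOpen ({w | p.2 < w} ∩ {w | w < q.2} ∩ {w | 0 < a w} ∩ {w | a w < c}) :=
    (((isOpen_lt continuous_const continuous_id).inter
      (isOpen_lt continuous_id continuous_const)).inter
      (isOpen_lt continuous_const hacont)).inter (isOpen_lt hacont continuous_const)
  have hne : ({w | p.2 < w} ∩ {w | w < q.2} ∩ {w | 0 < a w} ∩ {w | a w < c}).Nonempty := by
    refine ⟨w0, ⟨⟨?_, ?_⟩, ?_⟩, ?_⟩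
    · exact lt_of_le_of_ne hw0.1 hne1.symm
    · exact lt_of_le_of_ne hw0.2 hne2
    · change 0 < a w0
      rw [hw0c]; linarith
    · change a w0 < c
      rw [hw0c]; linarith
  obtain ⟨w, hwH, ⟨⟨hw1, hw2⟩, hw3⟩, hw4⟩ := hd.exists_mem_open hopen hne
  have hbw : 0 < b w := by
    have := hab w
    have hw4' : a w < c := hw4
    linarith
  exact ⟨w, hwH, ha' w hw3 (le_of_lt hw1), hb' w hbw (le_of_lt hw2)⟩

/-- Inserting a point in a chain. -/
lemma insert_point {Φ : ℝ → ℝ} (h : IsGauge Φ) {H : Set ℝ} (hd : Dense H) (y : ℝ) :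
    ∀ (l : List (ℝ × ℝ)) (a : ℝ × ℝ), List.IsChain (R Φ) (a :: l) → (∀ p ∈ a :: l, p.2 ∈ H) →
      a.1 ≤ y → (∃ p ∈ a :: l, y ≤ p.1) →
      ∃ l' : List (ℝ × ℝ), List.IsChain (R Φ) (a :: l') ∧ (∀ p ∈ a :: l', p.2 ∈ H) ∧
        (∀ p ∈ a :: l, p ∈ a :: l') ∧ ∃ w, (y, w) ∈ a :: l' := by
  intro l
  induction l with
  | nil =>
    intro a hch hH hay hex
    obtain ⟨p, hp, hyp⟩ := hex
    have hpa : p = a := by simpa using hp
    have : y = a.1 := le_antisymm (hpa ▸ hyp) hay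
    refine ⟨[], hch, hH, fun p hp => hp, a.2, ?_⟩
    rw [this]
    exact List.mem_cons_self
  | cons b t ih =>
    intro a hch hH hay hex
    rcases eq_or_lt_of_le hay with heq | hlt
    · refine ⟨b :: t, hch, hH, fun p hp => hp, a.2, ?_⟩
      rw [← heq]
      exact List.mem_cons_self
    · obtain ⟨hab, hbt⟩ := List.isChain_cons_cons.1 hch
      have hex' : ∃ p ∈ b :: t, y ≤ p.1 := by
        obtain ⟨p, hp, hyp⟩ := hex
        rcases List.mem_cons.1 hp with rfl | hp'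
        · exact absurd hyp (not_le.2 hlt)
        · exact ⟨p, hp', hyp⟩
      rcases le_or_gt b.1 y with hby | hby
      · obtain ⟨t', h1, h2, h3, w, h4⟩ := ih b hbt
          (fun p hp => hH p (List.mem_cons_of_mem _ hp)) hby hex'
        refine ⟨b :: t', List.isChain_cons_cons.2 ⟨hab, h1⟩, ?_, ?_, w,
          List.mem_cons_of_mem _ h4⟩
        · intro p hp
          rcases List.mem_cons.1 hp with rfl | hp'
          · exact hH _ List.mem_cons_self
          · exact h2 p hp'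
        · intro p hp
          rcases List.mem_cons.1 hp with rfl | hp'
          · exact List.mem_cons_self
          · exact List.mem_cons_of_mem _ (h3 p hp')
      · obtain ⟨w, hwH, hR1, hR2⟩ := choose_val h hd hab (hH a List.mem_cons_self)
          (hH b (List.mem_cons_of_mem _ List.mem_cons_self)) hlt hby
        refine ⟨(y, w) :: b :: t, List.isChain_cons_cons.2 ⟨hR1, List.isChain_cons_cons.2
          ⟨hR2, hbt⟩⟩, ?_, ?_, w, List.mem_cons_of_mem _ List.mem_cons_self⟩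
        · intro p hp
          rcases List.mem_cons.1 hp with rfl | hp'
          · exact hH _ List.mem_cons_self
          · rcases List.mem_cons.1 hp' with rfl | hp''
            · exact hwH
            · exact hH p (List.mem_cons_of_mem _ hp'')
        · intro p hp
          rcases List.mem_cons.1 hp with rfl | hp'
          · exact List.mem_cons_self
          · exact List.mem_cons_of_mem _ (List.mem_cons_of_mem _ hp')

lemma pairwise_of_chain {Φ : ℝ → ℝ} (h : IsGauge Φ) {l : List (ℝ × ℝ)}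
    (hl : List.IsChain (R Φ) l) : ∀ p ∈ l, ∀ q ∈ l, p = q ∨ T Φ p q ∨ T Φ q p := by
  have h1 : List.IsChain (T Φ) l := hl.imp fun a b hab => T_of_R h hab
  have _ : Trans (T Φ) (T Φ) (T Φ) := ⟨T_trans⟩
  have h2 : List.Pairwise (T Φ) l := List.isChain_iff_pairwise.1 h1
  have h3 : List.Pairwise (fun p q => p = q ∨ T Φ p q ∨ T Φ q p) l :=
    h2.imp fun hab => Or.inr (Or.inl hab)
  have _ : Std.Symm (fun p q => p = q ∨ T Φ p q ∨ T Φ q p) := ⟨by
    rintro p q (rfl | hh | hh)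
    · exact Or.inl rfl
    · exact Or.inr (Or.inr hh)
    · exact Or.inr (Or.inl hh)⟩
  intro p hp q hq
  exact List.Pairwise.forall_of_forall (R := fun p q : ℝ × ℝ => p = q ∨ T Φ p q ∨ T Φ q p)
    (fun x _ => Or.inl rfl) h3 hp hq

/-- The set of pinned points. -/
lemma exists_pinned {Φ : ℝ → ℝ} (h : IsGauge Φ) {H : Set ℝ} (hd : Dense H) (h0 : (0 : ℝ) ∈ H)
    {v : ℝ} (hv : v ∈ H) (hR : R Φ (0, 0) (1, v)) :
    ∃ G : Set (ℝ × ℝ), (0, 0) ∈ G ∧ (1, v) ∈ G ∧ (∀ p ∈ G, p.2 ∈ H) ∧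
      (∀ p ∈ G, ∀ q ∈ G, p = q ∨ T Φ p q ∨ T Φ q p) ∧
      ∀ z ∈ Icc (0 : ℝ) 1, ∀ ε > 0, ∃ p ∈ G, |p.1 - z| < ε := by
  classical
  let St : Type := {l : List (ℝ × ℝ) // List.IsChain (R Φ) ((0, 0) :: l) ∧
    (∀ p ∈ ((0, 0) : ℝ × ℝ) :: l, p.2 ∈ H) ∧ (1, v) ∈ ((0, 0) : ℝ × ℝ) :: l}
  let s0 : St := ⟨[(1, v)], List.isChain_cons_cons.2 ⟨hR, List.isChain_singleton _⟩, by
    intro p hp
    rcases List.mem_cons.1 hp with rfl | hp'
    · exact h0
    · have : p = (1, v) := by simpa using hp'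
      rw [this]
      exact hv, List.mem_cons_of_mem _ List.mem_cons_self⟩
  have step : ∀ (s : St) (y : ℝ), y ∈ Icc (0 : ℝ) 1 → ∃ s' : St,
      (∀ p ∈ ((0, 0) : ℝ × ℝ) :: s.1, p ∈ ((0, 0) : ℝ × ℝ) :: s'.1) ∧
      ∃ w, (y, w) ∈ ((0, 0) : ℝ × ℝ) :: s'.1 := by
    intro s y hy
    obtain ⟨l', a1, a2, a3, a4⟩ := insert_point h hd y s.1 (0, 0) s.2.1 s.2.2.1 hy.1
      ⟨(1, v), s.2.2.2, hy.2⟩
    exact ⟨⟨l', a1, a2, a3 _ s.2.2.2⟩, a3, a4⟩
  choose! nxt hn1 hn2 using step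
  let qs : ℕ → Icc (0 : ℝ) 1 := TopologicalSpace.denseSeq (Icc (0 : ℝ) 1)
  let seq : ℕ → St := fun n => Nat.rec s0 (fun n s => nxt s (qs n : ℝ)) n
  have hseq : ∀ n, seq (n + 1) = nxt (seq n) (qs n : ℝ) := fun n => rfl
  have hmono : ∀ m n, m ≤ n → ∀ p ∈ ((0, 0) : ℝ × ℝ) :: (seq m).1,
      p ∈ ((0, 0) : ℝ × ℝ) :: (seq n).1 := by
    intro m n hmn
    induction hmn with
    | refl => exact fun p hp => hp
    | @step n _ ih =>
      intro p hp
      have := hn1 (seq n) (qs n : ℝ) (qs n).2 p (ih p hp)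
      rw [← hseq] at this
      exact this
  refine ⟨{p | ∃ n, p ∈ ((0, 0) : ℝ × ℝ) :: (seq n).1}, ⟨0, List.mem_cons_self⟩,
    ⟨0, (seq 0).2.2.2⟩, ?_, ?_, ?_⟩
  · rintro p ⟨n, hp⟩
    exact (seq n).2.2.1 p hp
  · rintro p ⟨m, hp⟩ q ⟨n, hq⟩
    exact pairwise_of_chain h (seq (max m n)).2.1 p (hmono m _ (le_max_left _ _) p hp) q
      (hmono n _ (le_max_right _ _) q hq)
  · intro z hz ε hε
    obtain ⟨n, hn⟩ := (TopologicalSpace.denseRange_denseSeq (Icc (0 : ℝ) 1)).exists_dist_lt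
      ⟨z, hz⟩ hε
    obtain ⟨w, hw⟩ := hn2 (seq n) (qs n : ℝ) (qs n).2
    refine ⟨((qs n : ℝ), w), ⟨n + 1, ?_⟩, ?_⟩
    · rw [hseq]
      exact hw
    · change |(qs n : ℝ) - z| < ε
      rw [abs_sub_comm]
      exact hn

/-- The main construction, with `U` an open set on which the gauge `Φ` has slope one. -/
lemma exists_map {Φ : ℝ → ℝ} (h : IsGauge Φ) {H : Set ℝ} (hd : Dense H) (h0 : (0 : ℝ) ∈ H)
    {v : ℝ} (hv : v ∈ H) (hR : R Φ (0, 0) (1, v)) {U : Set ℝ} (hU : IsOpen U)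
    (hΦU : ∀ s t, s ≤ t → Icc s t ⊆ U → Φ t - Φ s = t - s) :
    ∃ g : ℝ → ℝ, Continuous g ∧ (∀ x ≤ 0, g x = 0) ∧ (∀ x, 1 ≤ x → g x = v) ∧
      (∀ x y, x ≤ y → g x ≤ g y) ∧ (∀ x y, x ≤ y → g y - g x ≤ (1 / 2) * (y - x)) ∧
      ∀ x, (x ∈ U ∨ x - g x ∈ U) → g x ∈ H := by
  classical
  obtain ⟨G, hG0, hG1, hGH, hGT, hGd⟩ := exists_pinned h hd h0 hv hR
  have huniq : ∀ x w w', (x, w) ∈ G → (x, w') ∈ G → w = w' := by
    intro x w w' hw hw'
    rcases hGT _ hw _ hw' with he | hT | hT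
    · exact congrArg Prod.snd he
    · exact absurd hT.1 (lt_irrefl _)
    · exact absurd hT.1 (lt_irrefl _)
  let g0 : ℝ → ℝ := fun x => if hx : ∃ w, (x, w) ∈ G then hx.choose else 0
  have hg0 : ∀ p ∈ G, g0 p.1 = p.2 := by
    intro p hp
    have hex : ∃ w, (p.1, w) ∈ G := ⟨p.2, hp⟩
    have : g0 p.1 = hex.choose := dif_pos hex
    rw [this]
    exact huniq p.1 _ _ hex.choose_spec hp
  have hslope : ∀ p ∈ G, ∀ q ∈ G, |p.2 - q.2| ≤ (1 / 2) * |p.1 - q.1| := by
    have key : ∀ p q, T Φ p q → |p.2 - q.2| ≤ (1 / 2) * |p.1 - q.1| := by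
      rintro p q ⟨t1, t2, t3, _⟩
      have hm := h.mono _ _ t1.le
      rw [abs_of_nonpos (by linarith : p.2 - q.2 ≤ 0), abs_of_neg (by linarith : p.1 - q.1 < 0)]
      linarith
    intro p hp q hq
    rcases hGT p hp q hq with rfl | hT | hT
    · simp
    · exact key p q hT
    · rw [abs_sub_comm, abs_sub_comm p.1]
      exact key q p hT
  have hlip : LipschitzOnWith (1 / 2) g0 (Prod.fst '' G) := by
    apply LipschitzOnWith.of_dist_le_mul
    rintro _ ⟨p, hp, rfl⟩ _ ⟨q, hq, rfl⟩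
    rw [hg0 p hp, hg0 q hq, Real.dist_eq, Real.dist_eq]
    have := hslope p hp q hq
    simpa using this
  obtain ⟨g1, hg1, hEq⟩ := hlip.extend_real
  have hg1G : ∀ p ∈ G, g1 p.1 = p.2 := fun p hp => by
    rw [← hEq ⟨p, hp, rfl⟩]
    exact hg0 p hp
  have hg1l : ∀ x y, |g1 x - g1 y| ≤ (1 / 2) * |x - y| := by
    intro x y
    have := hg1.dist_le_mul x y
    rw [Real.dist_eq, Real.dist_eq] at this
    simpa using this
  -- `g1` is monotone on `[0,1]`
  have hg1m : ∀ x ∈ Icc (0 : ℝ) 1, ∀ y ∈ Icc (0 : ℝ) 1, x ≤ y → g1 x ≤ g1 y := by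
    intro x hx y hy hxy
    by_contra hlt
    push Not at hlt
    have hxy' : x < y := lt_of_le_of_ne hxy fun he => by
      rw [he] at hlt
      exact lt_irrefl _ hlt
    set δ := min ((g1 x - g1 y) / 2) ((y - x) / 2) with hδ
    have hδpos : 0 < δ := lt_min (by linarith) (by linarith)
    have hδ1 : δ ≤ (g1 x - g1 y) / 2 := min_le_left _ _
    have hδ2 : δ ≤ (y - x) / 2 := min_le_right _ _
    obtain ⟨p, hp, hpx⟩ := hGd x hx δ hδpos
    obtain ⟨q, hq, hqy⟩ := hGd y hy δ hδpos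
    have hpx' := abs_lt.1 hpx
    have hqy' := abs_lt.1 hqy
    have hpq : p.1 < q.1 := by linarith
    have hle : p.2 ≤ q.2 := by
      rcases hGT p hp q hq with rfl | hT | hT
      · exact le_rfl
      · exact hT.2.1
      · exact absurd hT.1 (not_lt.2 hpq.le)
    have e1 := hg1l p.1 x
    have e2 := hg1l q.1 y
    rw [hg1G p hp] at e1
    rw [hg1G q hq] at e2
    have e1' := abs_le.1 e1
    have e2' := abs_le.1 e2
    linarith
  -- local constancy
  have hloc : ∀ z ∈ Icc (0 : ℝ) 1, (z ∈ U ∨ z - g1 z ∈ U) → g1 z ∈ H := by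
    intro z hz hzU
    obtain ⟨ε, hε, hconst⟩ : ∃ ε > 0, ∀ p ∈ G, ∀ q ∈ G, |p.1 - z| < ε → |q.1 - z| < ε →
        T Φ p q → p.2 = q.2 := by
      rcases hzU with hzU | hzU
      · obtain ⟨ε, hε, hball⟩ := Metric.isOpen_iff.1 hU z hzU
        refine ⟨ε, hε, fun p _ q _ hpz hqz hT => ?_⟩
        have hIcc : Icc p.1 q.1 ⊆ U := by
          intro t ht
          apply hball
          rw [Metric.mem_ball, Real.dist_eq, abs_lt]
          have := abs_lt.1 hpz
          have := abs_lt.1 hqz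
          constructor
          · linarith [ht.1]
          · linarith [ht.2]
        have := hΦU p.1 q.1 hT.1.le hIcc
        exact le_antisymm hT.2.1 (by linarith [hT.2.2.1])
      · obtain ⟨ε, hε, hball⟩ := Metric.isOpen_iff.1 hU _ hzU
        refine ⟨ε / 2, by linarith, fun p hp q hq hpz hqz hT => ?_⟩
        have hnear : ∀ r ∈ G, |r.1 - z| < ε / 2 → |(r.1 - r.2) - (z - g1 z)| < ε := by
          intro r hr hrz
          have e := hg1l r.1 z
          rw [hg1G r hr] at e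
          have e' := abs_le.1 e
          have e'' := abs_lt.1 hrz
          rw [abs_lt]
          constructor <;> linarith
        have hp' := abs_lt.1 (hnear p hp hpz)
        have hq' := abs_lt.1 (hnear q hq hqz)
        have hm := h.mono _ _ hT.1.le
        have hfle : p.1 - p.2 ≤ q.1 - q.2 := by
          linarith [hT.2.2.1, hT.1]
        have hIcc : Icc (p.1 - p.2) (q.1 - q.2) ⊆ U := by
          intro t ht
          apply hball
          rw [Metric.mem_ball, Real.dist_eq, abs_lt]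
          constructor
          · linarith [ht.1]
          · linarith [ht.2]
        have := hΦU _ _ hfle hIcc
        exact le_antisymm hT.2.1 (by linarith [hT.2.2.2])
    obtain ⟨p, hp, hpz⟩ := hGd z hz ε hε
    have hval : ∀ q ∈ G, |q.1 - z| < ε → q.2 = p.2 := by
      intro q hq hqz
      rcases hGT p hp q hq with rfl | hT | hT
      · rfl
      · exact (hconst p hp q hq hpz hqz hT).symm
      · exact hconst q hq p hp hqz hpz hT
    have hgz : g1 z = p.2 := by
      by_contra hne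
      have hpos : 0 < |g1 z - p.2| := abs_pos.2 (sub_ne_zero.2 hne)
      obtain ⟨q, hq, hqz⟩ := hGd z hz (min ε |g1 z - p.2|) (lt_min hε hpos)
      have h1 : |q.1 - z| < ε := hqz.trans_le (min_le_left _ _)
      have h2 : |q.1 - z| < |g1 z - p.2| := hqz.trans_le (min_le_right _ _)
      have e := hg1l q.1 z
      rw [hg1G q hq, hval q hq h1, abs_sub_comm] at e
      linarith [abs_nonneg (q.1 - z)]
    rw [hgz]
    exact hGH p hp
  -- the truncation
  have hproj : ∀ x : ℝ, max 0 (min x 1) ∈ Icc (0 : ℝ) 1 := fun x =>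
    ⟨le_max_left _ _, max_le zero_le_one (min_le_right _ _)⟩
  have hg10 : g1 0 = 0 := hg1G (0, 0) hG0
  have hg11 : g1 1 = v := hg1G (1, v) hG1
  have e0 : ∀ x ≤ (0 : ℝ), max 0 (min x 1) = 0 := fun x hx =>
    max_eq_left ((min_le_left _ _).trans hx)
  have e1 : ∀ x, (1 : ℝ) ≤ x → max 0 (min x 1) = 1 := fun x hx => by
    rw [min_eq_right hx]
    exact max_eq_right zero_le_one
  have e2 : ∀ x ∈ Icc (0 : ℝ) 1, max 0 (min x 1) = x := fun x hx => by
    rw [min_eq_left hx.2]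
    exact max_eq_right hx.1
  have hpm : ∀ x y : ℝ, x ≤ y → max 0 (min x 1) ≤ max 0 (min y 1) := fun x y hxy =>
    max_le_max le_rfl (min_le_min hxy le_rfl)
  have hpl : ∀ x y : ℝ, x ≤ y → max 0 (min y 1) - max 0 (min x 1) ≤ y - x := by
    intro x y hxy
    rcases le_total x 0 with hx | hx
    · rw [e0 x hx]
      rcases le_total y 0 with hy | hy
      · rw [e0 y hy]; linarith
      · rcases le_total y 1 with hy1 | hy1
        · rw [e2 y ⟨hy, hy1⟩]; linarith
        · rw [e1 y hy1]; linarith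
    · rcases le_total x 1 with hx1 | hx1
      · rw [e2 x ⟨hx, hx1⟩]
        rcases le_total y 1 with hy1 | hy1
        · rw [e2 y ⟨hx.trans hxy, hy1⟩]
        · rw [e1 y hy1]; linarith
      · rw [e1 x hx1, e1 y (hx1.trans hxy)]; linarith
  refine ⟨fun x => g1 (max 0 (min x 1)), ?_, ?_, ?_, ?_, ?_, ?_⟩
  · exact hg1.continuous.comp (by fun_prop)
  · intro x hx
    change g1 (max 0 (min x 1)) = 0
    rw [e0 x hx, hg10]
  · intro x hx
    change g1 (max 0 (min x 1)) = v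
    rw [e1 x hx, hg11]
  · intro x y hxy
    exact hg1m _ (hproj x) _ (hproj y) (hpm x y hxy)
  · intro x y hxy
    change g1 (max 0 (min y 1)) - g1 (max 0 (min x 1)) ≤ (1 / 2) * (y - x)
    have h1 := hg1l (max 0 (min y 1)) (max 0 (min x 1))
    rw [abs_of_nonneg (sub_nonneg.2 (hpm x y hxy))] at h1
    have h2 := (abs_le.1 h1).2
    have h3 := hpl x y hxy
    linarith
  · intro x hx
    change g1 (max 0 (min x 1)) ∈ H
    rcases le_total x 0 with hx0 | hx0
    · rw [e0 x hx0, hg10]; exact h0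
    · rcases le_total x 1 with hx1 | hx1
      · have he := e2 x ⟨hx0, hx1⟩
        rw [he]
        apply hloc x ⟨hx0, hx1⟩
        rcases hx with hx | hx
        · exact Or.inl hx
        · right
          have : x - g1 (max 0 (min x 1)) ∈ U := hx
          rw [he] at this
          exact this
      · rw [e1 x hx1, hg11]; exact hv

/-! ### The gauge of an open set of small measure -/

/-- `Φ t = λ(U ∩ (-∞, t])`. -/
noncomputable def gauge (U : Set ℝ) (t : ℝ) : ℝ := (volume (U ∩ Iic t)).toReal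

lemma gauge_sub {U : Set ℝ} (hU : MeasurableSet U) (hfin : volume U ≠ ⊤) {s t : ℝ} (hst : s ≤ t) :
    gauge U t - gauge U s = (volume (U ∩ Ioc s t)).toReal := by
  have hdis : Disjoint (U ∩ Iic s) (U ∩ Ioc s t) := by
    rw [Set.disjoint_left]
    rintro x ⟨_, h1⟩ ⟨_, h2⟩
    exact absurd h1 (not_le.2 h2.1)
  have hun : U ∩ Iic t = (U ∩ Iic s) ∪ (U ∩ Ioc s t) := by
    rw [← inter_union_distrib_left, Iic_union_Ioc_eq_Iic hst]
  have hf1 : volume (U ∩ Iic s) ≠ ⊤ := ne_top_of_le_ne_top hfin (measure_mono inter_subset_left)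
  have hf2 : volume (U ∩ Ioc s t) ≠ ⊤ := ne_top_of_le_ne_top hfin (measure_mono inter_subset_left)
  unfold gauge
  rw [hun, measure_union hdis (hU.inter measurableSet_Ioc), ENNReal.toReal_add hf1 hf2]
  ring

lemma isGauge_gauge {U : Set ℝ} (hU : MeasurableSet U) (hfin : volume U ≠ ⊤) :
    IsGauge (gauge U) where
  mono s t hst := by
    have := gauge_sub hU hfin hst
    have h2 : 0 ≤ (volume (U ∩ Ioc s t)).toReal := ENNReal.toReal_nonneg
    linarith
  lip s t hst := by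
    rw [gauge_sub hU hfin hst]
    have h1 : volume (U ∩ Ioc s t) ≤ ENNReal.ofReal (t - s) := by
      rw [← Real.volume_Ioc]
      exact measure_mono inter_subset_right
    have h2 := ENNReal.toReal_mono ENNReal.ofReal_ne_top h1
    rwa [ENNReal.toReal_ofReal (by linarith)] at h2

lemma gauge_Icc {U : Set ℝ} (hU : MeasurableSet U) (hfin : volume U ≠ ⊤) {s t : ℝ} (hst : s ≤ t)
    (h : Icc s t ⊆ U) : gauge U t - gauge U s = t - s := by
  rw [gauge_sub hU hfin hst, inter_eq_right.2 (Ioc_subset_Icc_self.trans h), Real.volume_Ioc,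
    ENNReal.toReal_ofReal (by linarith)]

lemma gauge_bdd {U : Set ℝ} (hU : volume U < ENNReal.ofReal (1 / 4)) (t : ℝ) :
    0 ≤ gauge U t ∧ gauge U t < 1 / 4 := by
  refine ⟨ENNReal.toReal_nonneg, ?_⟩
  have h1 : volume (U ∩ Iic t) < ENNReal.ofReal (1 / 4) :=
    (measure_mono inter_subset_left).trans_lt hU
  have h2 := (ENNReal.toReal_lt_toReal h1.ne_top ENNReal.ofReal_ne_top).2 h1
  rwa [ENNReal.toReal_ofReal (by norm_num)] at h2

/-- The homeomorphism of the line preserving a dense null subgroup. -/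
theorem exists_homeo (H : AddSubgroup ℝ) (hd : Dense (H : Set ℝ)) (h0 : volume (H : Set ℝ) = 0) :
    ∃ f : ℝ → ℝ, Function.Bijective f ∧ (∀ x y, |f x - f y| ≤ |x - y|) ∧
      (∀ x, f x ∈ H ↔ x ∈ H) ∧ ∃ x ∈ H, ∃ y ∈ H, |f x - f y| < |x - y| := by
  have hlt : volume (H : Set ℝ) < ENNReal.ofReal (1 / 4) := by
    rw [h0]
    exact ENNReal.ofReal_pos.2 (by norm_num)
  obtain ⟨U, hHU, hUo, hUv⟩ := Set.exists_isOpen_lt_of_lt _ _ hlt
  have hfin : volume U ≠ ⊤ := hUv.ne_top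
  have hgauge := isGauge_gauge hUo.measurableSet hfin
  obtain ⟨v, hvH, hv0, hv1⟩ : ∃ v ∈ (H : Set ℝ), 0 < v ∧ v < 1 / 4 := by
    obtain ⟨v, hv, h1, h2⟩ := hd.exists_between (show (0 : ℝ) < 1 / 4 by norm_num)
    exact ⟨v, hv, h1, h2⟩
  have hR : R (gauge U) (0, 0) (1, v) := by
    refine ⟨zero_lt_one, hv0.le, fun _ => ?_⟩
    have b1 := gauge_bdd hUv 1
    have b2 := gauge_bdd hUv 0
    have b3 := gauge_bdd hUv (1 - v)
    have b4 := gauge_bdd hUv (0 - 0)
    change v - 0 < (1 / 2) * (((1 - gauge U 1) - (0 - gauge U 0)) -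
      (gauge U (1 - v) - gauge U (0 - 0)))
    linarith
  obtain ⟨g, hgc, hg0, hg1, hgm, hgl, hgH⟩ := exists_map hgauge hd H.zero_mem hvH hR hUo
    (fun s t hst h => gauge_Icc hUo.measurableSet hfin hst h)
  have hmono : ∀ x y, x < y → x - g x < y - g y := by
    intro x y hxy
    have := hgl x y hxy.le
    linarith
  refine ⟨fun x => x - g x, ⟨?_, ?_⟩, ?_, ?_, ?_⟩
  · exact (show StrictMono fun x => x - g x from fun x y hxy => hmono x y hxy).injective
  · intro y
    have hb : ∀ x, 0 ≤ g x ∧ g x ≤ v := by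
      intro x
      constructor
      · rcases le_total x 0 with hx | hx
        · rw [hg0 x hx]
        · rw [← hg0 0 le_rfl]; exact hgm 0 x hx
      · rcases le_total x 1 with hx | hx
        · rw [← hg1 1 le_rfl]; exact hgm x 1 hx
        · rw [hg1 x hx]
    have hc : Continuous fun x => x - g x := continuous_id.sub hgc
    have h1 : y ∈ Icc (y - g y) ((y + v) - g (y + v)) := by
      refine ⟨?_, ?_⟩
      · linarith [(hb y).1]
      · linarith [(hb (y + v)).2]
    obtain ⟨x, _, hx⟩ := intermediate_value_Icc (by linarith : y ≤ y + v) hc.continuousOn h1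
    exact ⟨x, hx⟩
  · have key : ∀ x y, x ≤ y → |(x - g x) - (y - g y)| ≤ |x - y| := by
      intro x y hxy
      have h1 := hgm x y hxy
      have h2 := hgl x y hxy
      rw [abs_of_nonpos (by linarith : x - y ≤ 0), abs_of_nonpos (by linarith)]
      linarith
    intro x y
    rcases le_total x y with hxy | hxy
    · exact key x y hxy
    · rw [abs_sub_comm, abs_sub_comm x y]
      exact key y x hxy
  · intro x
    change x - g x ∈ H ↔ x ∈ H
    constructor
    · intro hx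
      have h1 : g x ∈ (H : Set ℝ) := hgH x (Or.inr (hHU hx))
      have h2 := H.add_mem hx h1
      rwa [sub_add_cancel] at h2
    · intro hx
      exact H.sub_mem hx (hgH x (Or.inl (hHU hx)))
  · obtain ⟨y, hyH, hy1, _⟩ := hd.exists_between (show (1 : ℝ) < 2 by norm_num)
    refine ⟨0, H.zero_mem, y, hyH, ?_⟩
    change |(0 - g 0) - (y - g y)| < |0 - y|
    rw [hg0 0 le_rfl, hg1 y hy1.le, abs_of_neg (by linarith : (0 : ℝ) - y < 0),
      abs_of_neg (by linarith)]
    linarith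

/-- Plasticity of a metric space. -/
def IsPlastic (X : Type*) [MetricSpace X] : Prop :=
  ∀ f : X → X, Function.Bijective f → (∀ x y, dist (f x) (f y) ≤ dist x y) →
    ∀ x y, dist (f x) (f y) = dist x y

theorem not_plastic_of_map (H : AddSubgroup ℝ) (f : ℝ → ℝ) (hf : Function.Bijective f)
    (hf1 : ∀ x y, |f x - f y| ≤ |x - y|) (hf2 : ∀ x, f x ∈ H ↔ x ∈ H)
    (hf3 : ∃ x ∈ H, ∃ y ∈ H, |f x - f y| < |x - y|) : ¬ IsPlastic H := by
  intro hpl
  obtain ⟨x, hx, y, hy, hxy⟩ := hf3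
  have h := hpl (fun z => ⟨f z, (hf2 z).2 z.2⟩) ⟨?_, ?_⟩ ?_ ⟨x, hx⟩ ⟨y, hy⟩
  · have h' : |f x - f y| = |x - y| := h
    exact absurd h' hxy.ne
  · intro a b hab
    exact Subtype.ext (hf.1 (congrArg Subtype.val hab))
  · rintro ⟨b, hb⟩
    obtain ⟨a, rfl⟩ := hf.2 b
    exact ⟨⟨a, (hf2 a).1 hb⟩, rfl⟩
  · intro a b
    exact hf1 a b

/-- A dense Lebesgue null subgroup of the line is not plastic. -/
theorem not_plastic_of_null (H : AddSubgroup ℝ) (hd : Dense (H : Set ℝ))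
    (h0 : volume (H : Set ℝ) = 0) : ¬ IsPlastic H := by
  obtain ⟨f, h1, h2, h3, h4⟩ := exists_homeo H hd h0
  exact not_plastic_of_map H f h1 h2 h3 h4

/-- The line is not plastic. -/
theorem not_plastic_top (H : AddSubgroup ℝ) (h : (H : Set ℝ) = univ) : ¬ IsPlastic H := by
  have hm : ∀ x, x ∈ H := fun x => by
    have : x ∈ (H : Set ℝ) := by rw [h]; trivial
    exact this
  apply not_plastic_of_map H (fun x => x / 2)
  · exact ⟨fun a b hab => by
      have : a / 2 = b / 2 := hab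
      linarith, fun b => ⟨2 * b, by ring⟩⟩
  · intro x y
    rw [← sub_div, abs_div, abs_two]
    linarith [abs_nonneg (x - y)]
  · intro x
    exact ⟨fun _ => hm _, fun _ => hm _⟩
  · refine ⟨0, hm _, 1, hm _, ?_⟩
    norm_num

/-- A subgroup of the line which is analytic is null or everything. -/
theorem null_or_univ (H : AddSubgroup ℝ) (hA : AnalyticSet (H : Set ℝ)) :
    volume (H : Set ℝ) = 0 ∨ (H : Set ℝ) = univ := by
  by_contra hcon
  push Not at hcon
  obtain ⟨h1, h2⟩ := hcon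
  -- a bounded piece of positive measure
  obtain ⟨n, hn⟩ : ∃ n : ℕ, volume ((H : Set ℝ) ∩ Icc (-(n : ℝ)) n) ≠ 0 := by
    by_contra hall
    push Not at hall
    apply h1
    have hun : (H : Set ℝ) ⊆ ⋃ n : ℕ, (H : Set ℝ) ∩ Icc (-(n : ℝ)) n := by
      intro x hx
      obtain ⟨n, hn⟩ := exists_nat_ge |x|
      exact mem_iUnion.2 ⟨n, hx, abs_le.1 hn⟩
    exact measure_mono_null hun (measure_iUnion_null hall)
  have hnull : NullMeasurableSet (H : Set ℝ) (volume.restrict (Icc (-(n : ℝ)) n)) :=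
    Pool.Agent.H894R3.Ana.analytic_nullMeasurable _ hA
  obtain ⟨E, hEH, hEm, hEeq⟩ := hnull.exists_measurable_subset_ae_eq
  have hpos : 0 < volume (E ∩ Icc (-(n : ℝ)) n) := by
    have h3 := measure_congr hEeq
    rw [Measure.restrict_apply hEm, Measure.restrict_apply₀' measurableSet_Icc.nullMeasurableSet]
      at h3
    rw [h3]
    exact pos_iff_ne_zero.2 hn
  have hsub := Measure.sub_mem_nhds_zero_of_addHaar_pos volume (E ∩ Icc (-(n : ℝ)) n)
    (hEm.inter measurableSet_Icc) hpos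
  have hH0 : (H : Set ℝ) ∈ 𝓝 (0 : ℝ) := by
    apply Filter.mem_of_superset hsub
    rintro _ ⟨a, ha, b, hb, rfl⟩
    exact H.sub_mem (hEH ha.1) (hEH hb.1)
  have hopen : IsOpen (H : Set ℝ) := H.isOpen_of_mem_nhds hH0
  have hclosed : IsClosed (H : Set ℝ) := AddSubgroup.isClosed_of_isOpen H hopen
  exact h2 (IsClopen.eq_univ ⟨hclosed, hopen⟩ ⟨0, H.zero_mem⟩)

/-- No dense analytic subgroup of the line is plastic. -/
theorem not_plastic_analytic (H : AddSubgroup ℝ) (hd : Dense (H : Set ℝ))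
    (hA : AnalyticSet (H : Set ℝ)) : ¬ IsPlastic H := by
  rcases null_or_univ H hA with h | h
  · exact not_plastic_of_null H hd h
  · exact not_plastic_top H h

end Pool.Agent.Q147.Plastic
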