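import Mathlib
import Pool.Agent.Q147.Plastic
import Pool.Agent.Helper647.FU.J8

/-!
# Martin's axiom and dense subgroups of the line of cardinality `ℵ₁`

Under `MA(ℵ₁)` every set of reals of cardinality at most `ℵ₁` is Lebesgue null (forcing with open
sets of small measure), so no dense subgroup of the line of cardinality `ℵ₁` is plastic.
-/

namespace Pool.Agent.Q147.PlasticMA

open Set MeasureTheory Topology Cardinal ENNReal
open Pool.Agent.Helper647.FU (MA1 CCC Compat MeetsAll)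

/-- The open sets of measure less than `ε`, ordered by reverse inclusion. -/
def Amoeba (ε : ℝ≥0∞) : Type := {U : Set ℝ // IsOpen U ∧ volume U < ε}

instance (ε : ℝ≥0∞) : PartialOrder (Amoeba ε) where
  le U V := V.1 ⊆ U.1
  le_refl U := subset_rfl
  le_trans U V W h1 h2 := h2.trans h1
  le_antisymm U V h1 h2 := Subtype.ext (subset_antisymm h2 h1)

/-- Finite unions of rational intervals. -/
def cell (s : Finset (ℚ × ℚ)) : Set ℝ := ⋃ p ∈ s, Ioo (p.1 : ℝ) (p.2 : ℝ)

lemma exists_cell {U : Set ℝ} (hU : IsOpen U) (hfin : volume U ≠ ⊤) {δ : ℝ≥0∞} (hδ : 0 < δ) :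
    ∃ s : Finset (ℚ × ℚ), cell s ⊆ U ∧ volume (U \ cell s) < δ := by
  classical
  let I : Set (ℚ × ℚ) := {p | Ioo (p.1 : ℝ) (p.2 : ℝ) ⊆ U}
  let V : Finset I → Set ℝ := fun s => ⋃ p ∈ s, Ioo (p.1.1 : ℝ) (p.1.2 : ℝ)
  have hVU : ∀ s, V s ⊆ U := fun s => iUnion₂_subset fun p _ => p.2
  have hVm : ∀ s, MeasurableSet (V s) := fun s => Finset.measurableSet_biUnion _ fun _ _ =>
    measurableSet_Ioo
  have hmono : Monotone V := fun s t hst => biUnion_subset_biUnion_left hst
  have hun : ⋃ s, V s = U := by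
    apply subset_antisymm (iUnion_subset hVU)
    intro x hx
    obtain ⟨ε, hε, hball⟩ := Metric.isOpen_iff.1 hU x hx
    obtain ⟨a, ha1, ha2⟩ := exists_rat_btwn (show x - ε < x by linarith)
    obtain ⟨b, hb1, hb2⟩ := exists_rat_btwn (show x < x + ε by linarith)
    have hmem : (a, b) ∈ I := by
      intro y hy
      apply hball
      rw [Metric.mem_ball, Real.dist_eq, abs_lt]
      have h1 : (a : ℝ) < y := hy.1
      have h2 : y < (b : ℝ) := hy.2
      constructor <;> linarith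
    refine mem_iUnion.2 ⟨{⟨(a, b), hmem⟩}, ?_⟩
    simp only [V, Finset.mem_singleton, iUnion_iUnion_eq_left]
    exact ⟨ha2, hb1⟩
  have htend := tendsto_measure_iUnion_atTop (μ := volume) hmono
  rw [hun] at htend
  have hdiff : ∀ s, volume (U \ V s) = volume U - volume (V s) := fun s =>
    measure_sdiff (hVU s) (hVm s).nullMeasurableSet (ne_top_of_le_ne_top hfin (measure_mono (hVU s)))
  have htend2 : Filter.Tendsto (fun s => volume U - volume (V s)) Filter.atTop (𝓝 0) := by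
    have := ENNReal.Tendsto.sub (tendsto_const_nhds (x := volume U)) htend (Or.inl hfin)
    rwa [tsub_self] at this
  obtain ⟨s, hs⟩ := ((tendsto_order.1 htend2).2 δ hδ).exists
  have he : cell (s.image Subtype.val) = V s := by
    ext x
    simp only [cell, V, Finset.mem_image, Subtype.exists, exists_and_right, exists_eq_right,
      mem_iUnion, exists_prop]
  refine ⟨s.image Subtype.val, ?_, ?_⟩
  · rw [he]
    exact hVU s
  · rw [he, hdiff]
    exact hs

lemma ccc_amoeba (ε : ℝ≥0∞) : CCC (Amoeba ε) := by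
  intro A hA
  -- each condition determines a finite union of rational intervals and a bound
  have key : ∀ U : Amoeba ε, ∃ (s : Finset (ℚ × ℚ)) (n : ℕ), cell s ⊆ U.1 ∧
      volume (U.1 \ cell s) < (n : ℝ≥0∞)⁻¹ ∧ volume U.1 + (n : ℝ≥0∞)⁻¹ < ε := by
    intro U
    have hpos : 0 < ε - volume U.1 := tsub_pos_of_lt U.2.2
    obtain ⟨n, hn⟩ := ENNReal.exists_inv_nat_lt hpos.ne'
    have hn0 : (0 : ℝ≥0∞) < (n : ℝ≥0∞)⁻¹ := ENNReal.inv_pos.2 (ENNReal.natCast_ne_top n)
    obtain ⟨s, hs1, hs2⟩ := exists_cell U.2.1 U.2.2.ne_top hn0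
    refine ⟨s, n, hs1, hs2, ?_⟩
    exact lt_tsub_iff_left.1 hn
  choose s n h1 h2 h3 using key
  have hinj : InjOn (fun U => (s U, n U)) A := by
    intro U hU V hV hUV
    by_contra hne
    apply hA U hU V hV hne
    have hs : s U = s V := congrArg Prod.fst hUV
    have hn : n U = n V := congrArg Prod.snd hUV
    refine ⟨⟨U.1 ∪ V.1, U.2.1.union V.2.1, ?_⟩, subset_union_left, subset_union_right⟩
    have hsub : U.1 ∪ V.1 ⊆ U.1 ∪ (V.1 \ cell (s V)) := by
      rintro x (hx | hx)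
      · exact Or.inl hx
      · by_cases hc : x ∈ cell (s V)
        · left
          rw [← hs] at hc
          exact h1 U hc
        · exact Or.inr ⟨hx, hc⟩
    calc volume (U.1 ∪ V.1) ≤ volume (U.1 ∪ (V.1 \ cell (s V))) := measure_mono hsub
      _ ≤ volume U.1 + volume (V.1 \ cell (s V)) := measure_union_le _ _
      _ ≤ volume U.1 + (n V : ℝ≥0∞)⁻¹ := by gcongr; exact (h2 V).le
      _ = volume U.1 + (n U : ℝ≥0∞)⁻¹ := by rw [hn]
      _ < ε := h3 U
  exact Set.MapsTo.countable_of_injOn (t := univ) (fun _ _ => mem_univ _) hinj countable_univ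

/-- Under `MA(ℵ₁)` sets of reals of cardinality at most `ℵ₁` are Lebesgue null. -/
theorem null_of_MA1 (hMA : MA1) (X : Set ℝ) (hX : #X ≤ ℵ₁) : volume X = 0 := by
  have main : ∀ ε : ℝ≥0∞, 0 < ε → volume X ≤ ε := by
    intro ε hε
    have _ : Nonempty (Amoeba ε) := ⟨⟨∅, isOpen_empty, by rw [measure_empty]; exact hε⟩⟩
    obtain ⟨G, hGne, _, hGdir, hGD⟩ := hMA (Amoeba ε) (ccc_amoeba ε)
      (range fun x : X => {U : Amoeba ε | (x : ℝ) ∈ U.1}) (mk_range_le.trans hX) (by
        rintro _ ⟨x, rfl⟩ U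
        have hpos : volume ({(x : ℝ)} : Set ℝ) < ε - volume U.1 := by
          rw [Real.volume_singleton]
          exact tsub_pos_of_lt U.2.2
        obtain ⟨W, hxW, hWo, hWv⟩ := Set.exists_isOpen_lt_of_lt _ _ hpos
        refine ⟨⟨U.1 ∪ W, U.2.1.union hWo, ?_⟩, Or.inr (hxW rfl), subset_union_left⟩
        exact (measure_union_le _ _).trans_lt (lt_tsub_iff_left.1 hWv))
    have hXO : X ⊆ ⋃ U : G, U.1.1 := by
      intro x hx
      obtain ⟨U, hUG, hU⟩ := hGD _ ⟨⟨x, hx⟩, rfl⟩
      exact mem_iUnion.2 ⟨⟨U, hUG⟩, hU⟩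
    refine (measure_mono hXO).trans ?_
    have hO : IsOpen (⋃ U : G, U.1.1) := isOpen_iUnion fun U => U.1.2.1
    rw [hO.measure_eq_iSup_isCompact]
    refine iSup₂_le fun K hK => iSup_le fun hKc => ?_
    have _ : Nonempty G := hGne.to_subtype
    obtain ⟨U, hU⟩ := hKc.elim_directed_cover (fun U : G => U.1.1) (fun U => U.1.2.1) hK (by
      rintro ⟨U, hU⟩ ⟨V, hV⟩
      obtain ⟨W, hW, h1, h2⟩ := hGdir U hU V hV
      exact ⟨⟨W, hW⟩, h1, h2⟩)
    exact (measure_mono hU).trans U.1.2.2.le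
  by_contra hne
  have hpos : 0 < volume X := pos_iff_ne_zero.2 hne
  have hfin : volume X ≠ ⊤ := ne_top_of_le_ne_top ENNReal.one_ne_top (main 1 one_pos)
  have h1 := main (volume X / 2) (ENNReal.half_pos hne)
  exact absurd h1 (not_le.2 (ENNReal.half_lt_self hne hfin))

/-- A set of reals is `ℵ₁`-dense if it meets every nonempty open set in exactly `ℵ₁` points. -/
def IsAleph1Dense (X : Set ℝ) : Prop :=
  ∀ U : Set ℝ, IsOpen U → U.Nonempty → #(X ∩ U : Set ℝ) = ℵ₁

/-- Under `MA(ℵ₁)` no `ℵ₁`-dense subgroup of the line is plastic. -/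
theorem not_plastic (hMA : MA1) (H : AddSubgroup ℝ) (hH : IsAleph1Dense (H : Set ℝ)) :
    ¬ Plastic.IsPlastic H := by
  apply Plastic.not_plastic_of_null
  · rw [dense_iff_inter_open]
    intro U hU hne
    have h1 := hH U hU hne
    by_contra hemp
    rw [not_nonempty_iff_eq_empty, inter_comm] at hemp
    rw [hemp, mk_eq_zero] at h1
    exact absurd h1 (aleph_pos 1).ne
  · apply null_of_MA1 hMA
    have h1 := hH univ isOpen_univ univ_nonempty
    rw [inter_univ] at h1
    exact h1.le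

end Pool.Agent.Q147.PlasticMA
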