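import Mathlib

/-!
# The core theorem on real functions on products of bornological sets
-/

noncomputable section

namespace Pool.Agent.Q147.ProdCore

open Set

universe u v

variable {X : Type u} {Y : Type v}

/-- `g : X → ℝ` is dominated by `f` in the first variable. -/
def DomX (f : X → Y → ℝ) (g : X → ℝ) : Prop :=
  ∀ x x' r, 0 ≤ r → (∀ y, |f x y - f x' y| ≤ r) → |g x - g x'| ≤ r

/-- `g : Y → ℝ` is dominated by `f` in the second variable. -/
def DomY (f : X → Y → ℝ) (g : Y → ℝ) : Prop :=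
  ∀ y y' r, 0 ≤ r → (∀ x, |f x y - f x y'| ≤ r) → |g y - g y'| ≤ r

/-- The hypotheses on the two ideals and the function. -/
structure Data (𝒳 : Set (Set X)) (𝒴 : Set (Set Y)) (f : X → Y → ℝ) : Prop where
  subX : ∀ B ∈ 𝒳, ∀ B' ⊆ B, B' ∈ 𝒳
  unionX : ∀ B ∈ 𝒳, ∀ B' ∈ 𝒳, B ∪ B' ∈ 𝒳
  subY : ∀ C ∈ 𝒴, ∀ C' ⊆ C, C' ∈ 𝒴
  unionY : ∀ C ∈ 𝒴, ∀ C' ∈ 𝒴, C ∪ C' ∈ 𝒴
  h1 : ∀ B ∈ 𝒳, ∃ C ∈ 𝒴, ∃ K : ℝ, ∀ x ∈ B, ∀ y, y ∉ C → |f x y| ≤ K
  h2 : ∀ C ∈ 𝒴, ∃ B ∈ 𝒳, ∃ K : ℝ, ∀ y ∈ C, ∀ x, x ∉ B → |f x y| ≤ K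
  h3 : ∀ g : X → ℝ, DomX f g → ∃ B ∈ 𝒳, ∃ K : ℝ, ∀ x, x ∉ B → |g x| ≤ K
  h4 : ∀ g : Y → ℝ, DomY f g → ∃ C ∈ 𝒴, ∃ K : ℝ, ∀ y, y ∉ C → |g y| ≤ K

/-- The family of all `B` off which `f(·, y)` is bounded. -/
def idx (𝒳 : Set (Set X)) (f : X → Y → ℝ) (y : Y) : Set (Set X) :=
  {B | B ∈ 𝒳 ∧ ∃ K : ℝ, ∀ x, x ∉ B → |f x y| ≤ K}

theorem idx_eq (𝒳 : Set (Set X)) (f : X → Y → ℝ) {y y' : Y} {r : ℝ}
    (h : ∀ x, |f x y - f x y'| ≤ r) : idx 𝒳 f y = idx 𝒳 f y' := by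
  ext B
  constructor
  · rintro ⟨hB, K, hK⟩
    refine ⟨hB, K + r, fun x hx => ?_⟩
    have h1 := h x
    have h2 := hK x hx
    have h3 : |f x y'| ≤ |f x y| + |f x y - f x y'| := by
      have := abs_sub_abs_le_abs_sub (f x y') (f x y)
      rw [abs_sub_comm (f x y') (f x y)] at this
      linarith
    linarith
  · rintro ⟨hB, K, hK⟩
    refine ⟨hB, K + r, fun x hx => ?_⟩
    have h1 := h x
    have h2 := hK x hx
    have h3 : |f x y| ≤ |f x y'| + |f x y - f x y'| := by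
      have := abs_sub_abs_le_abs_sub (f x y) (f x y')
      linarith
    linarith

section

variable {𝒳 : Set (Set X)} {𝒴 : Set (Set Y)} {f : X → Y → ℝ}

theorem mem_empty_Y (D : Data 𝒳 𝒴 f) : (∅ : Set Y) ∈ 𝒴 := by
  obtain ⟨C, hC, -⟩ := D.h4 (fun _ => 0) (fun _ _ r hr _ => by simpa using hr)
  exact D.subY C hC ∅ (Set.empty_subset _)

theorem mem_empty_X (D : Data 𝒳 𝒴 f) : (∅ : Set X) ∈ 𝒳 := by
  obtain ⟨C, hC, -⟩ := D.h3 (fun _ => 0) (fun _ _ r hr _ => by simpa using hr)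
  exact D.subX C hC ∅ (Set.empty_subset _)

/-- Every integer-valued function of the index is bounded off a small set. -/
theorem star (D : Data 𝒳 𝒴 f) (φ : Set (Set X) → ℕ) :
    ∃ n, {y | n ≤ φ (idx 𝒳 f y)} ∈ 𝒴 := by
  obtain ⟨C, hC, K, hK⟩ := D.h4 (fun y => (φ (idx 𝒳 f y) : ℝ)) (by
    intro y y' r hr h
    change |(φ (idx 𝒳 f y) : ℝ) - (φ (idx 𝒳 f y') : ℝ)| ≤ r
    rw [idx_eq 𝒳 f h, sub_self, abs_zero]
    exact hr)
  obtain ⟨n, hn⟩ := exists_nat_gt K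
  refine ⟨n, D.subY C hC _ ?_⟩
  intro y hy
  by_contra hyC
  have h1 := hK y hyC
  have h2 : (n : ℝ) ≤ (φ (idx 𝒳 f y) : ℝ) := by exact_mod_cast hy
  have h3 := le_abs_self ((φ (idx 𝒳 f y) : ℝ))
  linarith

/-- The second case of the proof. -/
theorem case_two (D : Data 𝒳 𝒴 f) (B : Set X) (hB : B ∈ 𝒳)
    (hC₁ : {y | B ∉ idx 𝒳 f y} ∈ 𝒴) :
    ∃ B ∈ 𝒳, ∃ C ∈ 𝒴, ∃ K : ℝ, ∀ x y, ¬ (x ∈ B ∧ y ∈ C) → |f x y| ≤ K := by
  let T : Y → Set ℝ := fun y => insert 0 ((fun x => |f x y|) '' Bᶜ)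
  have hTne : ∀ y, (T y).Nonempty := fun y => ⟨0, Set.mem_insert _ _⟩
  have hTb : ∀ y, B ∈ idx 𝒳 f y → BddAbove (T y) := by
    rintro y ⟨-, K, hK⟩
    refine ⟨max 0 K, ?_⟩
    rintro _ (rfl | ⟨x, hx, rfl⟩)
    · exact le_max_left _ _
    · exact (hK x hx).trans (le_max_right _ _)
  have hTb' : ∀ y, BddAbove (T y) → B ∈ idx 𝒳 f y := by
    rintro y ⟨K, hK⟩
    exact ⟨hB, K, fun x hx => hK (Set.mem_insert_of_mem _ ⟨x, hx, rfl⟩)⟩
  have hdom : DomY f fun y => sSup (T y) := by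
    intro y y' r hr h
    by_cases hy : BddAbove (T y)
    · have hy' : BddAbove (T y') := by
        apply hTb
        rw [← idx_eq 𝒳 f h]
        exact hTb' y hy
      have key : ∀ y y', BddAbove (T y') → (∀ x, |f x y - f x y'| ≤ r) →
          sSup (T y) ≤ sSup (T y') + r := by
        intro y y' hy' h
        refine csSup_le (hTne y) ?_
        rintro _ (rfl | ⟨x, hx, rfl⟩)
        · have : (0 : ℝ) ≤ sSup (T y') := le_csSup hy' (Set.mem_insert _ _)
          linarith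
        · have h1 : |f x y'| ≤ sSup (T y') := le_csSup hy' (Set.mem_insert_of_mem _ ⟨x, hx, rfl⟩)
          have h2 := abs_sub_abs_le_abs_sub (f x y) (f x y')
          have h3 := h x
          simp only
          linarith
      have h1 := key y y' hy' h
      have h2 := key y' y hy (fun x => by rw [abs_sub_comm]; exact h x)
      rw [abs_le]
      constructor <;> linarith
    · have hy' : ¬ BddAbove (T y') := by
        intro h'
        apply hy
        apply hTb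
        rw [idx_eq 𝒳 f h]
        exact hTb' y' h'
      simp only
      rw [Real.sSup_of_not_bddAbove hy, Real.sSup_of_not_bddAbove hy', sub_self, abs_zero]
      exact hr
  obtain ⟨C₂, hC₂, M, hM⟩ := D.h4 _ hdom
  obtain ⟨C₃, hC₃, K₃, hK₃⟩ := D.h1 B hB
  obtain ⟨B₃, hB₃, K₄, hK₄⟩ := D.h2 _ (D.unionY _ hC₁ _ hC₂)
  -- the estimate off `B` and off `C₁ ∪ C₂`
  have hest : ∀ x y, x ∉ B → y ∉ {y | B ∉ idx 𝒳 f y} ∪ C₂ → |f x y| ≤ M := by
    intro x y hx hy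
    simp only [Set.mem_union, not_or] at hy
    have h1 : B ∈ idx 𝒳 f y := by
      by_contra h; exact hy.1 h
    have h2 : |f x y| ≤ sSup (T y) := le_csSup (hTb y h1) (Set.mem_insert_of_mem _ ⟨x, hx, rfl⟩)
    exact h2.trans ((le_abs_self _).trans (hM y hy.2))
  refine ⟨B ∪ B₃, D.unionX _ hB _ hB₃, ({y | B ∉ idx 𝒳 f y} ∪ C₂) ∪ C₃,
    D.unionY _ (D.unionY _ hC₁ _ hC₂) _ hC₃, max M (max K₃ K₄), ?_⟩
  intro x y hxy
  by_cases hx : x ∈ B ∪ B₃
  · have hy : y ∉ ({y | B ∉ idx 𝒳 f y} ∪ C₂) ∪ C₃ := fun h => hxy ⟨hx, h⟩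
    have hy1 : y ∉ {y | B ∉ idx 𝒳 f y} ∪ C₂ := fun h => hy (Or.inl h)
    have hy2 : y ∉ C₃ := fun h => hy (Or.inr h)
    by_cases hxB : x ∈ B
    · exact (hK₃ x hxB y hy2).trans ((le_max_left _ _).trans (le_max_right _ _))
    · exact (hest x y hxB hy1).trans (le_max_left _ _)
  · have hxB : x ∉ B := fun h => hx (Or.inl h)
    have hxB3 : x ∉ B₃ := fun h => hx (Or.inr h)
    by_cases hy : y ∈ {y | B ∉ idx 𝒳 f y} ∪ C₂
    · exact (hK₄ y hy x hxB3).trans ((le_max_right _ _).trans (le_max_right _ _))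
    · exact (hest x y hxB hy).trans (le_max_left _ _)

/-- The filter of the first case. -/
def filt (D : Data 𝒳 𝒴 f) : Filter (Set (Set X)) where
  sets := {S | ∃ B ∈ 𝒳, {y | B ∉ idx 𝒳 f y ∧ idx 𝒳 f y ∉ S} ∈ 𝒴}
  univ_sets := by
    refine ⟨∅, mem_empty_X D, ?_⟩
    have : {y | (∅ : Set X) ∉ idx 𝒳 f y ∧ idx 𝒳 f y ∉ (univ : Set (Set (Set X)))} = ∅ := by
      ext y; simp
    rw [this]
    exact mem_empty_Y D
  sets_of_superset := by
    rintro S S' ⟨B, hB, h⟩ hS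
    refine ⟨B, hB, D.subY _ h _ ?_⟩
    rintro y ⟨h1, h2⟩
    exact ⟨h1, fun h3 => h2 (hS h3)⟩
  inter_sets := by
    rintro S S' ⟨B, hB, h⟩ ⟨B', hB', h'⟩
    refine ⟨B ∪ B', D.unionX _ hB _ hB', D.subY _ (D.unionY _ h _ h') _ ?_⟩
    rintro y ⟨h1, h2⟩
    have hb : B ∉ idx 𝒳 f y := by
      rintro ⟨-, K, hK⟩
      exact h1 ⟨D.unionX _ hB _ hB', K, fun x hx => hK x fun h => hx (Or.inl h)⟩
    have hb' : B' ∉ idx 𝒳 f y := by
      rintro ⟨-, K, hK⟩
      exact h1 ⟨D.unionX _ hB _ hB', K, fun x hx => hK x fun h => hx (Or.inr h)⟩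
    by_cases h3 : idx 𝒳 f y ∈ S
    · exact Or.inr ⟨hb', fun h4 => h2 ⟨h3, h4⟩⟩
    · exact Or.inl ⟨hb, h3⟩

/-- The independence lemma for ultrafilters. -/
theorem independent {P : Type*} (U : Ultrafilter P) (A₁ : Set P) (hA₁ : A₁ ∈ U)
    (R : P → P → Prop) (hsymm : ∀ a b, R a b → R b a)
    (hR : ∀ A ⊆ A₁, A ∉ U → {b | ∃ a ∈ A, R a b} ∉ U) :
    ∃ A₀ ∈ U, A₀ ⊆ A₁ ∧ ∀ a ∈ A₀, ∀ b ∈ A₀, a ≠ b → ¬ R a b := by
  classical
  let lt : P → P → Prop := WellOrderingRel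
  have hwo : IsWellOrder P lt := WellOrderingRel.isWellOrder
  have hwf : WellFounded lt := hwo.wf
  let S : Set P := {a | a ∈ A₁ ∧ ∃ b ∈ A₁, lt b a ∧ R b a}
  have hr : ∀ a, ∃ b, a ∈ S → b ∈ A₁ ∧ lt b a ∧ R b a := by
    intro a
    by_cases ha : a ∈ S
    · obtain ⟨-, b, hb, h1, h2⟩ := ha
      exact ⟨b, fun _ => ⟨hb, h1, h2⟩⟩
    · exact ⟨a, fun h => absurd h ha⟩
  choose r hr using hr
  -- the parity function
  let par : P → Bool := hwf.fix (fun a rec =>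
    if h : a ∈ S then ! rec (r a) (hr a h).2.1 else false)
  have hpar : ∀ a, a ∈ S → par a = ! par (r a) := by
    intro a ha
    change hwf.fix _ a = _
    rw [hwf.fix_eq]
    rw [dif_pos ha]
  have hS : S ∉ U := by
    intro hS
    -- one of the parity classes is large
    have hsplit : ∃ c : Bool, {a | a ∈ S ∧ par a = c} ∈ U := by
      by_cases h : {a | a ∈ S ∧ par a = true} ∈ U
      · exact ⟨true, h⟩
      · refine ⟨false, ?_⟩
        have h1 := Ultrafilter.compl_mem_iff_notMem.2 h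
        refine Filter.mem_of_superset (Filter.inter_mem hS h1) ?_
        rintro a ⟨ha, h2⟩
        refine ⟨ha, ?_⟩
        by_contra h3
        exact h2 ⟨ha, by simpa using h3⟩
    obtain ⟨c, hc⟩ := hsplit
    have hD : {b | b ∈ A₁ ∧ par b = !c} ∉ U := by
      intro h
      obtain ⟨a, h1, h2⟩ := (Ultrafilter.nonempty_of_mem (Filter.inter_mem hc h))
      have h3 := h1.2
      have h4 := h2.2
      rw [h3] at h4
      cases c <;> simp at h4
    have h1 := hR _ (fun b hb => hb.1) hD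
    apply h1
    refine Filter.mem_of_superset hc ?_
    rintro a ⟨ha, hpa⟩
    refine ⟨r a, ⟨(hr a ha).1, ?_⟩, (hr a ha).2.2⟩
    have h2 := hpar a ha
    rw [hpa] at h2
    rw [h2, Bool.not_not]
  refine ⟨A₁ \ S, ?_, Set.sdiff_subset, ?_⟩
  · exact Filter.inter_mem hA₁ (Ultrafilter.compl_mem_iff_notMem.2 hS)
  · intro a ha b hb hab hRab
    by_cases h1 : lt a b
    · exact hb.2 ⟨hb.1, a, ha.1, h1, hRab⟩
    · by_cases h2 : lt b a
      · exact ha.2 ⟨ha.1, b, hb.1, h2, hsymm _ _ hRab⟩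
      · exact hab (hwo.trichotomous a b h1 h2)

/-- The core theorem. -/
theorem core (D : Data 𝒳 𝒴 f) :
    ∃ B ∈ 𝒳, ∃ C ∈ 𝒴, ∃ K : ℝ, ∀ x y, ¬ (x ∈ B ∧ y ∈ C) → |f x y| ≤ K := by
  classical
  by_cases hcase : ∃ B ∈ 𝒳, {y | B ∉ idx 𝒳 f y} ∈ 𝒴
  · obtain ⟨B, hB, h⟩ := hcase
    exact case_two D B hB h
  · push Not at hcase
    exfalso
    have hne : (filt D).NeBot := by
      rw [Filter.neBot_iff]
      intro hbot
      have h1 : (∅ : Set (Set (Set X))) ∈ filt D := by rw [hbot]; exact Filter.mem_bot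
      obtain ⟨B, hB, h⟩ := h1
      apply hcase B hB
      refine D.subY _ h _ ?_
      intro y hy
      exact ⟨hy, fun h => h⟩
    let U : Ultrafilter (Set (Set X)) := Ultrafilter.of (filt D)
    have hU : ∀ S, S ∈ filt D → S ∈ U := fun S hS => Ultrafilter.of_le (filt D) hS
    have U1 : ∀ B ∈ 𝒳, {a : Set (Set X) | B ∉ a} ∈ U := by
      intro B hB
      apply hU
      refine ⟨B, hB, ?_⟩
      have : {y | B ∉ idx 𝒳 f y ∧ idx 𝒳 f y ∉ {a : Set (Set X) | B ∉ a}} = ∅ := by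
        ext y
        simp only [Set.mem_ofPred_eq, Set.mem_empty_iff_false, iff_false]
        rintro ⟨h1, h2⟩
        exact h2 h1
      rw [this]
      exact mem_empty_Y D
    have U2 : ∀ A : Set (Set (Set X)), {y | idx 𝒳 f y ∈ A} ∈ 𝒴 → A ∉ U := by
      intro A hA
      rw [← Ultrafilter.compl_mem_iff_notMem]
      apply hU
      refine ⟨∅, mem_empty_X D, D.subY _ hA _ ?_⟩
      rintro y ⟨-, h⟩
      by_contra h'
      exact h h'
    have U3 : ∀ A : ℕ → Set (Set (Set X)), (∀ n, A n ∉ U) → (⋃ n, A n) ∉ U := by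
      intro A hA hun
      let φ : Set (Set X) → ℕ := fun a => if h : ∃ n, a ∈ A n then Nat.find h else 0
      obtain ⟨n₀, hn₀⟩ := star D φ
      have h1 : {a | n₀ ≤ φ a} ∉ U := U2 _ hn₀
      have h2 : {a | n₀ ≤ φ a}ᶜ ∈ U := Ultrafilter.compl_mem_iff_notMem.2 h1
      have h3 : (⋃ k ∈ Set.Iio n₀, A k) ∈ U := by
        refine Filter.mem_of_superset (Filter.inter_mem hun h2) ?_
        rintro a ⟨ha, hφ⟩
        have hex : ∃ n, a ∈ A n := Set.mem_iUnion.1 ha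
        have h4 : φ a = Nat.find hex := dif_pos hex
        have h5 : Nat.find hex < n₀ := by
          rw [← h4]
          exact not_le.1 hφ
        exact Set.mem_biUnion h5 (Nat.find_spec hex)
      rw [Ultrafilter.finite_biUnion_mem_iff (Set.finite_Iio n₀)] at h3
      obtain ⟨k, -, hk⟩ := h3
      exact hA k hk
    have U4 : ∃ A₁ ∈ U, ∀ A ⊆ A₁, A ∉ U → {y | idx 𝒳 f y ∈ A} ∈ 𝒴 := by
      by_contra hcon
      push Not at hcon
      have hF : ∀ S : Set (Set (Set X)), ∃ A, S ∈ U → A ⊆ S ∧ A ∉ U ∧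
          {y | idx 𝒳 f y ∈ A} ∉ 𝒴 := by
        intro S
        by_cases hS : S ∈ U
        · obtain ⟨A, h1, h2, h3⟩ := hcon S hS
          exact ⟨A, fun _ => ⟨h1, h2, h3⟩⟩
        · exact ⟨∅, fun h => absurd h hS⟩
      choose F hF using hF
      obtain ⟨S, hS0, hSs⟩ : ∃ S : ℕ → Set (Set (Set X)), S 0 = univ ∧
          ∀ n, S (n + 1) = S n \ F (S n) :=
        ⟨fun n => Nat.rec univ (fun _ T => T \ F T) n, rfl, fun n => rfl⟩
      have hSU : ∀ n, S n ∈ U := by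
        intro n
        induction n with
        | zero => rw [hS0]; exact Filter.univ_mem
        | succ n ih =>
          rw [hSs]
          exact Filter.inter_mem ih (Ultrafilter.compl_mem_iff_notMem.2 (hF _ ih).2.1)
      have hanti : ∀ m n, m ≤ n → S n ⊆ S m := by
        intro m n hmn
        induction n, hmn using Nat.le_induction with
        | base => exact subset_rfl
        | succ n _ ih => rw [hSs]; exact Set.sdiff_subset.trans ih
      have hdis : ∀ m n a, m < n → a ∈ F (S n) → a ∉ F (S m) := by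
        intro m n a hmn ha ha'
        have h1 : a ∈ S n := (hF _ (hSU n)).1 ha
        have h2 : a ∈ S (m + 1) := hanti (m + 1) n hmn h1
        rw [hSs] at h2
        exact h2.2 ha'
      let φ : Set (Set X) → ℕ := fun a => if h : ∃ n, a ∈ F (S n) then Nat.find h else 0
      obtain ⟨n₀, hn₀⟩ := star D φ
      apply (hF _ (hSU n₀)).2.2
      refine D.subY _ hn₀ _ ?_
      intro y hy
      have hex : ∃ n, idx 𝒳 f y ∈ F (S n) := ⟨n₀, hy⟩
      have h4 : φ (idx 𝒳 f y) = Nat.find hex := dif_pos hex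
      change n₀ ≤ φ (idx 𝒳 f y)
      rw [h4]
      by_contra hlt
      exact hdis _ _ _ (not_le.1 hlt) hy (Nat.find_spec hex)
    obtain ⟨A₁, hA₁, hA₁'⟩ := U4
    have UB : ∀ C ∈ 𝒴, {a | ∃ y ∈ C, idx 𝒳 f y = a} ∉ U := by
      intro C hC hmem
      obtain ⟨B, hB, K, hK⟩ := D.h2 C hC
      obtain ⟨a, ⟨y, hy, rfl⟩, ha⟩ := Ultrafilter.nonempty_of_mem (Filter.inter_mem hmem (U1 B hB))
      exact ha ⟨hB, K, fun x hx => hK y hy x hx⟩
    let R : ℕ → Set (Set X) → Set (Set X) → Prop := fun n a b =>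
      ∃ y y' x, idx 𝒳 f y = a ∧ idx 𝒳 f y' = b ∧ (n : ℝ) < |f x y| ∧ (n : ℝ) < |f x y'|
    have hRmono : ∀ m n a b, m ≤ n → R n a b → R m a b := by
      rintro m n a b hmn ⟨y, y', x, h1, h2, h3, h4⟩
      have h5 : (m : ℝ) ≤ n := by exact_mod_cast hmn
      exact ⟨y, y', x, h1, h2, h5.trans_lt h3, h5.trans_lt h4⟩
    have U5 : ∀ A ⊆ A₁, A ∉ U → ∃ n₀ : ℕ, ∀ n, n₀ ≤ n → {b | ∃ a ∈ A, R n a b} ∉ U := by
      intro A hA hAU
      have hC := hA₁' A hA hAU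
      obtain ⟨B, hB, K, hK⟩ := D.h2 _ hC
      obtain ⟨C', hC', K', hK'⟩ := D.h1 B hB
      obtain ⟨n₀, hn₀⟩ := exists_nat_gt (max K K')
      refine ⟨n₀, fun n hn hmem => UB C' hC' (Filter.mem_of_superset hmem ?_)⟩
      rintro b ⟨a, ha, y, y', x, rfl, rfl, h1, h2⟩
      have h5 : (n₀ : ℝ) ≤ n := by exact_mod_cast hn
      have hKn : K < n := (le_max_left _ _).trans_lt (hn₀.trans_le h5)
      have hKn' : K' < n := (le_max_right _ _).trans_lt (hn₀.trans_le h5)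
      have hxB : x ∈ B := by
        by_contra hxB
        have := hK y ha x hxB
        linarith
      refine ⟨y', ?_, rfl⟩
      by_contra hyC
      have := hK' x hxB y' hyC
      linarith
    have U6 : ∃ n : ℕ, ∀ A ⊆ A₁, A ∉ U → {b | ∃ a ∈ A, R n a b} ∉ U := by
      by_contra hcon
      push Not at hcon
      choose A hA hAU hAR using hcon
      have h1 : (⋃ n, A n) ∉ U := U3 A hAU
      obtain ⟨n₀, hn₀⟩ := U5 _ (Set.iUnion_subset hA) h1
      apply hn₀ n₀ le_rfl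
      refine Filter.mem_of_superset (hAR n₀) ?_
      rintro b ⟨a, ha, hab⟩
      exact ⟨a, Set.mem_iUnion.2 ⟨n₀, ha⟩, hab⟩
    obtain ⟨n, hn⟩ := U6
    obtain ⟨A₀, hA₀, -, hind⟩ := independent U A₁ hA₁ (R n)
      (by
        rintro a b ⟨y, y', x, h1, h2, h3, h4⟩
        exact ⟨y', y, x, h2, h1, h4, h3⟩) hn
    -- representatives
    have hrange : {a | ∃ y, idx 𝒳 f y = a} ∈ U := by
      by_contra h
      have h1 := Ultrafilter.compl_mem_iff_notMem.2 h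
      refine U2 _ ?_ h1
      have : {y | idx 𝒳 f y ∈ {a | ∃ y, idx 𝒳 f y = a}ᶜ} = ∅ := by
        ext y
        simp only [Set.mem_ofPred_eq, Set.mem_empty_iff_false, iff_false]
        intro h2
        exact h2 ⟨y, rfl⟩
      rw [this]
      exact mem_empty_Y D
    obtain ⟨a₀, y₀, -⟩ := Ultrafilter.nonempty_of_mem hrange
    have hc : ∀ a : Set (Set X), ∃ y : Y, (∃ y', idx 𝒳 f y' = a) → idx 𝒳 f y = a := by
      intro a
      by_cases h : ∃ y', idx 𝒳 f y' = a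
      · obtain ⟨y', hy'⟩ := h
        exact ⟨y', fun _ => hy'⟩
      · exact ⟨y₀, fun h' => absurd h' h⟩
    choose c hc using hc
    let T : Set Y := {y | ∃ a ∈ A₀, (∃ y', idx 𝒳 f y' = a) ∧ y = c a}
    have hTuniq : ∀ x, ∀ y ∈ T, ∀ y' ∈ T, (n : ℝ) < |f x y| → (n : ℝ) < |f x y'| → y = y' := by
      rintro x _ ⟨a, ha, har, rfl⟩ _ ⟨b, hb, hbr, rfl⟩ h1 h2
      by_cases hab : a = b
      · rw [hab]
      · exfalso
        exact hind a ha b hb hab ⟨c a, c b, x, hc a har, hc b hbr, h1, h2⟩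
    let g : X → ℝ := fun x => if h : ∃ y ∈ T, (n : ℝ) < |f x y| then |f x h.choose| - n else 0
    have hg0 : ∀ x, 0 ≤ g x := by
      intro x
      change 0 ≤ if h : ∃ y ∈ T, (n : ℝ) < |f x y| then |f x h.choose| - n else 0
      split_ifs with h
      · have := h.choose_spec.2
        linarith
      · exact le_rfl
    have hgpos : ∀ x, ∀ y ∈ T, (n : ℝ) < |f x y| → g x = |f x y| - n := by
      intro x y hy h
      have hex : ∃ y ∈ T, (n : ℝ) < |f x y| := ⟨y, hy, h⟩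
      have h1 : g x = |f x hex.choose| - n := dif_pos hex
      rw [h1, hTuniq x _ hex.choose_spec.1 y hy hex.choose_spec.2 h]
    have hgle : ∀ x, ∀ y ∈ T, |f x y| - n ≤ g x := by
      intro x y hy
      by_cases h : (n : ℝ) < |f x y|
      · rw [hgpos x y hy h]
      · have := hg0 x
        linarith [not_lt.1 h]
    have hgcases : ∀ x, g x = 0 ∨ ∃ y ∈ T, g x = |f x y| - n := by
      intro x
      by_cases hex : ∃ y ∈ T, (n : ℝ) < |f x y|
      · obtain ⟨y, hy, h⟩ := hex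
        exact Or.inr ⟨y, hy, hgpos x y hy h⟩
      · exact Or.inl (dif_neg hex)
    have hdom : DomX f g := by
      have key : ∀ x x' r, 0 ≤ r → (∀ y, |f x y - f x' y| ≤ r) → g x ≤ g x' + r := by
        intro x x' r hr h
        rcases hgcases x with h0 | ⟨y, hy, h1⟩
        · rw [h0]
          have := hg0 x'
          linarith
        · rw [h1]
          have h2 := hgle x' y hy
          have h3 := h y
          have h4 := abs_sub_abs_le_abs_sub (f x y) (f x' y)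
          linarith
      intro x x' r hr h
      have h1 := key x x' r hr h
      have h2 := key x' x r hr (fun y => by rw [abs_sub_comm]; exact h y)
      rw [abs_le]
      constructor <;> linarith
    obtain ⟨B, hB, K, hK⟩ := D.h3 g hdom
    obtain ⟨a, ⟨ha₀, haB⟩, har⟩ :=
      Ultrafilter.nonempty_of_mem (Filter.inter_mem (Filter.inter_mem hA₀ (U1 B hB)) hrange)
    apply haB
    rw [← hc a har]
    refine ⟨hB, K + n, fun x hx => ?_⟩
    have h1 := hgle x (c a) ⟨a, ha₀, har, rfl⟩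
    have h2 := (le_abs_self _).trans (hK x hx)
    linarith

end

end Pool.Agent.Q147.ProdCore
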