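import Mathlib
import Pool.Agent.Q147.ProdCore

/-!
# From oscillation conditions on products to the core theorem; coarse structures
-/

namespace Pool.Agent.Q147.ProdApply

open Set Pool.Agent.Q147.ProdCore

universe u v

/-- Generic reduction to the core theorem. -/
theorem core_apply {X : Type u} {Y : Type v} (EX : Set (Set (X × X))) (EY : Set (Set (Y × Y)))
    (𝒳 : Set (Set X)) (𝒴 : Set (Set Y)) (f : X × Y → ℝ)
    (dX : ∃ E ∈ EX, ∀ x, (x, x) ∈ E) (dY : ∃ E ∈ EY, ∀ y, (y, y) ∈ E)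
    (subX : ∀ B ∈ 𝒳, ∀ B' ⊆ B, B' ∈ 𝒳) (unionX : ∀ B ∈ 𝒳, ∀ B' ∈ 𝒳, B ∪ B' ∈ 𝒳)
    (subY : ∀ C ∈ 𝒴, ∀ C' ⊆ C, C' ∈ 𝒴) (unionY : ∀ C ∈ 𝒴, ∀ C' ∈ 𝒴, C ∪ C' ∈ 𝒴)
    (bX : ∀ B ∈ 𝒳, ∃ E ∈ EX, ∃ x₀, (x₀, x₀) ∈ E ∧ ∀ x ∈ B, (x₀, x) ∈ E)
    (bY : ∀ C ∈ 𝒴, ∃ F ∈ EY, ∃ y₀, (y₀, y₀) ∈ F ∧ ∀ y ∈ C, (y₀, y) ∈ F)
    (hf : ∀ E ∈ EX, ∀ F ∈ EY, ∃ B ∈ 𝒳, ∃ C ∈ 𝒴, ∃ K : ℝ, ∀ x y, ¬ (x ∈ B ∧ y ∈ C) →
      ∀ u v s t, (x, u) ∈ E → (x, v) ∈ E → (y, s) ∈ F → (y, t) ∈ F →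
        |f (u, s) - f (v, t)| ≤ K)
    (h3 : ∀ g : X → ℝ, DomX (fun x y => f (x, y)) g → ∃ B ∈ 𝒳, ∃ K : ℝ, ∀ x, x ∉ B → |g x| ≤ K)
    (h4 : ∀ g : Y → ℝ, DomY (fun x y => f (x, y)) g → ∃ C ∈ 𝒴, ∃ K : ℝ, ∀ y, y ∉ C → |g y| ≤ K) :
    ∃ B ∈ 𝒳, ∃ C ∈ 𝒴, ∃ K : ℝ, ∀ x y, ¬ (x ∈ B ∧ y ∈ C) → |f (x, y)| ≤ K := by
  have D : Data 𝒳 𝒴 (fun x y => f (x, y)) :=
    { subX := subX
      unionX := unionX
      subY := subY
      unionY := unionY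
      h3 := h3
      h4 := h4
      h1 := by
        intro B hB
        obtain ⟨E, hE, x₀, h0, hx₀⟩ := bX B hB
        obtain ⟨F, hF, hFd⟩ := dY
        obtain ⟨B₀, -, C₀, hC₀, K, hK⟩ := hf E hE F hF
        obtain ⟨C₁, hC₁, K₁, hK₁⟩ := h4 (fun y => f (x₀, y)) (fun y y' r _ h => h x₀)
        refine ⟨C₀ ∪ C₁, unionY _ hC₀ _ hC₁, K + K₁, ?_⟩
        intro x hx y hy
        have h5 := hK x₀ y (fun h => hy (Or.inl h.2)) x x₀ y y (hx₀ x hx) h0 (hFd y) (hFd y)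
        have h6 := hK₁ y (fun h => hy (Or.inr h))
        have h7 := abs_sub_abs_le_abs_sub (f (x, y)) (f (x₀, y))
        change |f (x, y)| ≤ K + K₁
        linarith
      h2 := by
        intro C hC
        obtain ⟨F, hF, y₀, h0, hy₀⟩ := bY C hC
        obtain ⟨E, hE, hEd⟩ := dX
        obtain ⟨B₀, hB₀, C₀, -, K, hK⟩ := hf E hE F hF
        obtain ⟨B₁, hB₁, K₁, hK₁⟩ := h3 (fun x => f (x, y₀)) (fun x x' r _ h => h y₀)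
        refine ⟨B₀ ∪ B₁, unionX _ hB₀ _ hB₁, K + K₁, ?_⟩
        intro y hy x hx
        have h5 := hK x y₀ (fun h => hx (Or.inl h.1)) x x y y₀ (hEd x) (hEd x) (hy₀ y hy) h0
        have h6 := hK₁ x (fun h => hx (Or.inr h))
        have h7 := abs_sub_abs_le_abs_sub (f (x, y)) (f (x, y₀))
        change |f (x, y)| ≤ K + K₁
        linarith }
  exact core D

/-! ### Coarse structures -/

/-- A (connected) coarse structure on `X`: a family of subsets of `X × X` that contains the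
diagonal, is closed under subsets, finite unions, inverses and compositions, and such that every
pair of points lies in some entourage. -/
structure Coarse (X : Type u) where
  /-- the entourages -/
  ent : Set (Set (X × X))
  /-- the diagonal is an entourage -/
  diag : {p : X × X | p.1 = p.2} ∈ ent
  /-- subsets of entourages are entourages -/
  sub : ∀ E ∈ ent, ∀ F ⊆ E, F ∈ ent
  /-- unions of two entourages are entourages -/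
  union : ∀ E ∈ ent, ∀ F ∈ ent, E ∪ F ∈ ent
  /-- inverses of entourages are entourages -/
  inv : ∀ E ∈ ent, {p : X × X | (p.2, p.1) ∈ E} ∈ ent
  /-- compositions of entourages are entourages -/
  comp : ∀ E ∈ ent, ∀ F ∈ ent, {p : X × X | ∃ y, (p.1, y) ∈ E ∧ (y, p.2) ∈ F} ∈ ent
  /-- every pair of points lies in an entourage -/
  conn : ∀ x y : X, ∃ E ∈ ent, (x, y) ∈ E

/-- `B` is bounded if it is contained in a ball `E[x] = {y | (x, y) ∈ E}`. -/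
def Coarse.Bounded {X : Type u} (c : Coarse X) (B : Set X) : Prop :=
  ∃ E ∈ c.ent, ∃ x : X, B ⊆ {y | (x, y) ∈ E}

/-- The product coarse structure: all subsets of the sets
`{((x, y), (x', y')) | (x, x') ∈ E, (y, y') ∈ F}`. -/
def Coarse.prod {X : Type u} {Y : Type v} (c : Coarse X) (d : Coarse Y) : Coarse (X × Y) where
  ent := {W | ∃ E ∈ c.ent, ∃ F ∈ d.ent,
    W ⊆ {p : (X × Y) × (X × Y) | (p.1.1, p.2.1) ∈ E ∧ (p.1.2, p.2.2) ∈ F}}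
  diag := by
    refine ⟨_, c.diag, _, d.diag, ?_⟩
    rintro ⟨⟨x, y⟩, ⟨x', y'⟩⟩ h
    have h' : (x, y) = (x', y') := h
    rw [Prod.mk.injEq] at h'
    exact h'
  sub := by
    rintro W ⟨E, hE, F, hF, h⟩ W' hW'
    exact ⟨E, hE, F, hF, hW'.trans h⟩
  union := by
    rintro W ⟨E, hE, F, hF, h⟩ W' ⟨E', hE', F', hF', h'⟩
    refine ⟨_, c.union _ hE _ hE', _, d.union _ hF _ hF', ?_⟩
    rintro p (hp | hp)
    · exact ⟨Or.inl (h hp).1, Or.inl (h hp).2⟩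
    · exact ⟨Or.inr (h' hp).1, Or.inr (h' hp).2⟩
  inv := by
    rintro W ⟨E, hE, F, hF, h⟩
    refine ⟨_, c.inv _ hE, _, d.inv _ hF, ?_⟩
    rintro ⟨⟨x, y⟩, ⟨x', y'⟩⟩ hp
    exact h hp
  comp := by
    rintro W ⟨E, hE, F, hF, h⟩ W' ⟨E', hE', F', hF', h'⟩
    refine ⟨_, c.comp _ hE _ hE', _, d.comp _ hF _ hF', ?_⟩
    rintro ⟨⟨x, y⟩, ⟨x', y'⟩⟩ ⟨⟨a, b⟩, h1, h2⟩
    exact ⟨⟨a, (h h1).1, (h' h2).1⟩, ⟨b, (h h1).2, (h' h2).2⟩⟩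
  conn := by
    rintro ⟨x, y⟩ ⟨x', y'⟩
    obtain ⟨E, hE, h1⟩ := c.conn x x'
    obtain ⟨F, hF, h2⟩ := d.conn y y'
    exact ⟨_, ⟨E, hE, F, hF, subset_rfl⟩, h1, h2⟩

section

variable {X : Type u} (c : Coarse X)

theorem bounded_sub {B B' : Set X} (hB : c.Bounded B) (h : B' ⊆ B) : c.Bounded B' := by
  obtain ⟨E, hE, x, hx⟩ := hB
  exact ⟨E, hE, x, h.trans hx⟩

theorem bounded_union {B B' : Set X} (hB : c.Bounded B) (hB' : c.Bounded B') :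
    c.Bounded (B ∪ B') := by
  obtain ⟨E, hE, x, hx⟩ := hB
  obtain ⟨E', hE', x', hx'⟩ := hB'
  obtain ⟨D, hD, hxx⟩ := c.conn x x'
  refine ⟨_, c.union _ hE _ (c.comp _ hD _ hE'), x, ?_⟩
  rintro y (hy | hy)
  · exact Or.inl (hx hy)
  · exact Or.inr ⟨x', hxx, hx' hy⟩

theorem bounded_base {B : Set X} (hB : c.Bounded B) :
    ∃ E ∈ c.ent, ∃ x₀, (x₀, x₀) ∈ E ∧ ∀ x ∈ B, (x₀, x) ∈ E := by
  obtain ⟨E, hE, x, hx⟩ := hB
  exact ⟨_, c.union _ c.diag _ hE, x, Or.inl rfl, fun y hy => Or.inr (hx hy)⟩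

end

theorem bounded_prod {X : Type u} {Y : Type v} {c : Coarse X} {d : Coarse Y} {W : Set (X × Y)}
    (hW : (c.prod d).Bounded W) : ∃ B C, c.Bounded B ∧ d.Bounded C ∧ W ⊆ B ×ˢ C := by
  obtain ⟨V, ⟨E, hE, F, hF, hV⟩, ⟨x, y⟩, h⟩ := hW
  refine ⟨{x' | (x, x') ∈ E}, {y' | (y, y') ∈ F}, ⟨E, hE, x, subset_rfl⟩, ⟨F, hF, y, subset_rfl⟩,
    ?_⟩
  rintro ⟨x', y'⟩ hp
  exact hV (h hp)

theorem prod_bounded {X : Type u} {Y : Type v} {c : Coarse X} {d : Coarse Y} {B : Set X}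
    {C : Set Y} (hB : c.Bounded B) (hC : d.Bounded C) : (c.prod d).Bounded (B ×ˢ C) := by
  obtain ⟨E, hE, x, hx⟩ := hB
  obtain ⟨F, hF, y, hy⟩ := hC
  refine ⟨_, ⟨E, hE, F, hF, subset_rfl⟩, (x, y), ?_⟩
  rintro ⟨x', y'⟩ ⟨h1, h2⟩
  exact ⟨hx h1, hy h2⟩

end Pool.Agent.Q147.ProdApply
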