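import Mathlib

namespace Pool.Agent.Q147.QBase

open Set Filter Topology

/-- The index set of coordinates. -/
abbrev I : Type := ℕ → Bool

/-- `C` depends on finitely many values and has at least two elements. -/
def IsCl (C : Set I) : Prop :=
  C.Nontrivial ∧ ∃ (n : ℕ) (S : Set (Fin n → Bool)), C = {r | (fun k : Fin n => r k) ∈ S}

/-- The countable set of clopen subsets of the Cantor set with at least two elements. -/
def D : Type := {C : Set I // IsCl C}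

instance countable_D : Countable D := by
  have h : Function.Surjective (fun x : {x : (Σ n : ℕ, Set (Fin n → Bool)) //
      IsCl {r : I | (fun k : Fin x.1 => r k) ∈ x.2}} =>
      (⟨{r : I | (fun k : Fin x.1.1 => r k) ∈ x.1.2}, x.2⟩ : D)) := by
    rintro ⟨C, hC1, n, S, rfl⟩
    exact ⟨⟨⟨n, S⟩, ⟨hC1, n, S, rfl⟩⟩, rfl⟩
  exact h.countable

theorem exists_sep (H : Set I) (hH : H.Finite) :
    ∃ n : ℕ, ∀ a ∈ H, ∀ b ∈ H, (∀ k < n, a k = b k) → a = b := by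
  classical
  have h1 : ∀ q : I × I, ∃ k : ℕ, q.1 ≠ q.2 → q.1 k ≠ q.2 k := by
    intro q
    by_cases h : q.1 = q.2
    · exact ⟨0, fun h' => absurd h h'⟩
    · obtain ⟨k, hk⟩ := Function.ne_iff.mp h
      exact ⟨k, fun _ => hk⟩
  choose κ hκ using h1
  obtain ⟨n, hn⟩ := ((hH.prod hH).image κ).bddAbove
  refine ⟨n + 1, ?_⟩
  intro a ha b hb hab
  by_contra hne
  have h2 := hκ (a, b) hne
  apply h2
  apply hab
  have h3 : κ (a, b) ≤ n := hn ⟨(a, b), ⟨ha, hb⟩, rfl⟩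
  omega

theorem dens (F G : Set I) (hF : F.Finite) (hG : G.Finite) (hFG : ∀ a ∈ F, a ∉ G) :
    ∃ C : D, F ⊆ C.1 ∧ ∀ a ∈ G, a ∉ C.1 := by
  classical
  obtain ⟨a0, ha0⟩ := hG.exists_notMem
  let F' : Set I := insert a0 F
  have hF' : F'.Finite := hF.insert a0
  obtain ⟨n, hn⟩ := exists_sep (F' ∪ G) (hF'.union hG)
  let S : Set (Fin n → Bool) := {s | ∃ a ∈ F', ∀ k : Fin n, s k = a k}
  refine ⟨⟨{r | (fun k : Fin n => r k) ∈ S}, ?_, n, S, rfl⟩, ?_, ?_⟩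
  · refine ⟨a0, ⟨a0, mem_insert _ _, fun _ => rfl⟩, Function.update a0 n (!a0 n),
      ⟨a0, mem_insert _ _, ?_⟩, ?_⟩
    · intro k
      simp only
      rw [Function.update_of_ne (ne_of_lt k.2)]
    · intro h
      have h2 := congrFun h n
      rw [Function.update_self] at h2
      cases hh : a0 n <;> simp [hh] at h2
  · intro a ha
    exact ⟨a, mem_insert_of_mem _ ha, fun _ => rfl⟩
  · rintro a ha ⟨b, hb, hab⟩
    have h1 : a = b := hn a (Or.inr ha) b (Or.inl hb) (fun k hk => hab ⟨k, hk⟩)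
    rcases hb with hb | hb
    · exact ha0 (hb ▸ h1 ▸ ha)
    · exact hFG b hb (h1 ▸ ha)

/-- Open sets of `D` depending on the coordinates in `J`. -/
def JOpen (J : Set I) (O : Set D) : Prop :=
  ∀ C ∈ O, ∃ F : Set I, F.Finite ∧ F ⊆ J ∧ ∀ C' : D, (∀ r ∈ F, (r ∈ C'.1 ↔ r ∈ C.1)) → C' ∈ O

theorem JOpen.mono {J J' : Set I} (h : J ⊆ J') {O : Set D} (hO : JOpen J O) : JOpen J' O := by
  intro C hC
  obtain ⟨F, h1, h2, h3⟩ := hO C hC
  exact ⟨F, h1, h2.trans h, h3⟩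

theorem JOpen.inter {J : Set I} {O O' : Set D} (hO : JOpen J O) (hO' : JOpen J O') :
    JOpen J (O ∩ O') := by
  rintro C ⟨hC, hC'⟩
  obtain ⟨F, h1, h2, h3⟩ := hO C hC
  obtain ⟨F', h1', h2', h3'⟩ := hO' C hC'
  exact ⟨F ∪ F', h1.union h1', union_subset h2 h2', fun C' h => ⟨h3 C' (fun r hr => h r (Or.inl hr)),
    h3' C' (fun r hr => h r (Or.inr hr))⟩⟩

instance topD : TopologicalSpace D where
  IsOpen := JOpen univ
  isOpen_univ := fun _ _ => ⟨∅, finite_empty, empty_subset _, fun _ _ => trivial⟩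
  isOpen_inter := fun _ _ h h' => h.inter h'
  isOpen_sUnion := by
    rintro S hS C ⟨O, hO, hC⟩
    obtain ⟨F, h1, h2, h3⟩ := hS O hO C hC
    exact ⟨F, h1, h2, fun C' h => ⟨O, hO, h3 C' h⟩⟩

theorem JOpen.isOpen {J : Set I} {O : Set D} (hO : JOpen J O) : IsOpen O :=
  hO.mono (subset_univ _)

theorem exists_countable_supp {O : Set D} (hO : IsOpen O) :
    ∃ J : Set I, J.Countable ∧ JOpen J O := by
  classical
  have h1 : ∀ C : D, ∃ F : Set I, F.Finite ∧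
      (C ∈ O → ∀ C' : D, (∀ r ∈ F, (r ∈ C'.1 ↔ r ∈ C.1)) → C' ∈ O) := by
    intro C
    by_cases hC : C ∈ O
    · obtain ⟨F, h1, _, h3⟩ := hO C hC
      exact ⟨F, h1, fun _ => h3⟩
    · exact ⟨∅, finite_empty, fun h => absurd h hC⟩
  choose F hF1 hF2 using h1
  refine ⟨⋃ C, F C, countable_iUnion (fun C => (hF1 C).countable), ?_⟩
  intro C hC
  exact ⟨F C, hF1 C, subset_iUnion F C, hF2 C hC⟩

theorem jopen_mem (i : I) : JOpen {i} {C : D | i ∈ C.1} := by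
  intro C hC
  exact ⟨{i}, finite_singleton _, subset_rfl, fun C' h => (h i rfl).mpr hC⟩

theorem jopen_notMem (i : I) : JOpen {i} {C : D | i ∉ C.1} := by
  intro C hC
  exact ⟨{i}, finite_singleton _, subset_rfl, fun C' h => fun h' => hC ((h i rfl).mp h')⟩

theorem meet_mem {i : I} {O : Set D} (hO : JOpen {i}ᶜ O) (hne : O.Nonempty) :
    ∃ C ∈ O, i ∈ C.1 := by
  obtain ⟨C, hC⟩ := hne
  obtain ⟨F, h1, h2, h3⟩ := hO C hC
  obtain ⟨C', hC1, hC2⟩ := dens (insert i (F ∩ C.1)) (F \ C.1) ((h1.inter_of_left _).insert i)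
    (h1.subset Set.sdiff_subset) (by
      rintro a (rfl | ha) hb
      · exact h2 hb.1 rfl
      · exact hb.2 ha.2)
  refine ⟨C', h3 C' ?_, hC1 (mem_insert _ _)⟩
  intro r hr
  by_cases h : r ∈ C.1
  · exact ⟨fun _ => h, fun _ => hC1 (mem_insert_of_mem _ ⟨hr, h⟩)⟩
  · exact ⟨fun h' => absurd h' (hC2 r ⟨hr, h⟩), fun h' => absurd h' h⟩

/-- The filter generated by the sets `{C | i ∉ C}` and the dense open sets. -/
def baseF : Filter D where
  sets := {s | ∃ (F : Set I) (W : Set D), F.Finite ∧ IsOpen W ∧ Dense W ∧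
    {C : D | ∀ i ∈ F, i ∉ C.1} ∩ W ⊆ s}
  univ_sets := ⟨∅, univ, finite_empty, isOpen_univ, dense_univ, subset_univ _⟩
  sets_of_superset := by
    rintro s t ⟨F, W, h1, h2, h3, h4⟩ hst
    exact ⟨F, W, h1, h2, h3, h4.trans hst⟩
  inter_sets := by
    rintro s t ⟨F, W, h1, h2, h3, h4⟩ ⟨F', W', h1', h2', h3', h4'⟩
    refine ⟨F ∪ F', W ∩ W', h1.union h1', h2.inter h2', h3.inter_of_isOpen_left h3' h2, ?_⟩
    rintro C ⟨hC, hCW, hCW'⟩
    exact ⟨h4 ⟨fun i hi => hC i (Or.inl hi), hCW⟩, h4' ⟨fun i hi => hC i (Or.inr hi), hCW'⟩⟩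

instance baseF_neBot : NeBot baseF := by
  constructor
  intro h
  have h0 : (∅ : Set D) ∈ baseF := by rw [h]; exact mem_bot
  obtain ⟨F, W, h1, h2, h3, h4⟩ := h0
  have ho : IsOpen {C : D | ∀ i ∈ F, i ∉ C.1} := by
    intro C hC
    refine ⟨F, h1, subset_univ _, ?_⟩
    intro C' h' i hi hiC
    exact hC i hi ((h' i hi).mp hiC)
  obtain ⟨C, _, hC⟩ := dens ∅ F finite_empty h1 (fun a ha => absurd ha (notMem_empty a))
  obtain ⟨C', hC1, hC2⟩ := h3.inter_open_nonempty _ ho ⟨C, hC⟩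
  exact h4 ⟨hC1, hC2⟩

/-- The ultrafilter. -/
noncomputable def U : Ultrafilter D := Ultrafilter.of baseF

theorem U_notMem (i : I) : {C : D | i ∉ C.1} ∈ U := by
  apply Ultrafilter.of_le baseF
  exact ⟨{i}, univ, finite_singleton _, isOpen_univ, dense_univ, fun C hC => hC.1 i rfl⟩

theorem U_dense {W : Set D} (h1 : IsOpen W) (h2 : Dense W) : W ∈ U := by
  apply Ultrafilter.of_le baseF
  exact ⟨∅, W, finite_empty, h1, h2, fun C hC => hC.2⟩

theorem U_or {O : Set D} (hO : IsOpen O) : O ∈ U ∨ (closure O)ᶜ ∈ U := by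
  rw [← Ultrafilter.union_mem_iff]
  apply U_dense (hO.union isClosed_closure.isOpen_compl)
  rw [dense_iff_inter_open]
  intro V hV hne
  by_cases h : (V ∩ O).Nonempty
  · obtain ⟨C, hC1, hC2⟩ := h
    exact ⟨C, hC1, Or.inl hC2⟩
  · obtain ⟨C, hC⟩ := hne
    refine ⟨C, hC, Or.inr ?_⟩
    intro hcl
    obtain ⟨C', h1, h2⟩ := mem_closure_iff.mp hcl V hV hC
    exact h ⟨C', h1, h2⟩

theorem U_nonempty {s : Set D} (h : s ∈ U) : s.Nonempty := U.nonempty_of_mem h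

theorem exists_two (C : D) : ∃ i j : I, i ≠ j ∧ i ∈ C.1 ∧ j ∈ C.1 := by
  obtain ⟨i, hi, j, hj, hij⟩ := C.2.1
  exact ⟨i, j, hij, hi, hj⟩

end Pool.Agent.Q147.QBase
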