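import Mathlib
import Pool.Agent.Q147.QBase
import Pool.Agent.Q147.QFun

namespace Pool.Agent.Q147.QOne

open Set Filter Topology Pool.Agent.Q147.QBase Pool.Agent.Q147.QFun

/-- The points of the space: a countable dense set `D`, points `y i`, and the point `p`. -/
inductive X : Type
  | d (C : D) : X
  | y (i : I) : X
  | p : X

open X

/-- The topology. -/
instance topX : TopologicalSpace X where
  IsOpen G := IsOpen {C : D | d C ∈ G} ∧
    (∀ i, y i ∈ G → ∃ R ∈ U, JOpen {i}ᶜ R ∧ ∀ C ∈ R, i ∈ C.1 → d C ∈ G) ∧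
    (p ∈ G → (∃ R ∈ U, IsOpen R ∧ ∀ C ∈ R, d C ∈ G) ∧ {i | y i ∉ G}.Countable)
  isOpen_univ := by
    refine ⟨?_, fun i _ => ⟨univ, univ_mem, ?_, fun _ _ _ => trivial⟩, fun _ =>
      ⟨⟨univ, univ_mem, isOpen_univ, fun _ _ => trivial⟩, ?_⟩⟩
    · simp
    · exact fun _ _ => ⟨∅, finite_empty, empty_subset _, fun _ _ => trivial⟩
    · simp
  isOpen_inter := by
    rintro G G' ⟨h1, h2, h3⟩ ⟨h1', h2', h3'⟩
    refine ⟨h1.inter h1', ?_, ?_⟩
    · rintro i ⟨hi, hi'⟩
      obtain ⟨R, hR, hR2, hR3⟩ := h2 i hi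
      obtain ⟨R', hR', hR2', hR3'⟩ := h2' i hi'
      exact ⟨R ∩ R', inter_mem hR hR', hR2.inter hR2', fun C hC hiC =>
        ⟨hR3 C hC.1 hiC, hR3' C hC.2 hiC⟩⟩
    · rintro ⟨hp, hp'⟩
      obtain ⟨⟨R, hR, hR2, hR3⟩, hc⟩ := h3 hp
      obtain ⟨⟨R', hR', hR2', hR3'⟩, hc'⟩ := h3' hp'
      refine ⟨⟨R ∩ R', inter_mem hR hR', hR2.inter hR2', fun C hC => ⟨hR3 C hC.1, hR3' C hC.2⟩⟩, ?_⟩
      refine (hc.union hc').mono ?_
      intro i hi
      by_contra hno
      simp only [mem_union, mem_ofPred_eq, not_or, not_not] at hno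
      exact hi ⟨hno.1, hno.2⟩
  isOpen_sUnion := by
    intro S hS
    refine ⟨?_, ?_, ?_⟩
    · have : {C : D | d C ∈ ⋃₀ S} = ⋃ G ∈ S, {C : D | d C ∈ G} := by
        ext C
        simp
      rw [this]
      exact isOpen_biUnion (fun G hG => (hS G hG).1)
    · rintro i ⟨G, hG, hi⟩
      obtain ⟨R, hR, hR2, hR3⟩ := (hS G hG).2.1 i hi
      exact ⟨R, hR, hR2, fun C hC hiC => ⟨G, hG, hR3 C hC hiC⟩⟩
    · rintro ⟨G, hG, hp⟩
      obtain ⟨⟨R, hR, hR2, hR3⟩, hc⟩ := (hS G hG).2.2 hp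
      refine ⟨⟨R, hR, hR2, fun C hC => ⟨G, hG, hR3 C hC⟩⟩, hc.mono ?_⟩
      intro i hi hiG
      exact hi ⟨G, hG, hiG⟩

theorem isOpen_iff {G : Set X} : IsOpen G ↔ IsOpen {C : D | d C ∈ G} ∧
    (∀ i, y i ∈ G → ∃ R ∈ U, JOpen {i}ᶜ R ∧ ∀ C ∈ R, i ∈ C.1 → d C ∈ G) ∧
    (p ∈ G → (∃ R ∈ U, IsOpen R ∧ ∀ C ∈ R, d C ∈ G) ∧ {i | y i ∉ G}.Countable) := Iff.rfl

/-- `D` is dense. -/
theorem exists_d {G : Set X} (hG : IsOpen G) (hne : G.Nonempty) : ∃ C : D, d C ∈ G := by
  obtain ⟨h1, h2, h3⟩ := isOpen_iff.mp hG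
  obtain ⟨x, hx⟩ := hne
  cases x with
  | d C => exact ⟨C, hx⟩
  | y i =>
    obtain ⟨R, hR, hR2, hR3⟩ := h2 i hx
    obtain ⟨C, hC, hi⟩ := meet_mem hR2 (U_nonempty hR)
    exact ⟨C, hR3 C hC hi⟩
  | p =>
    obtain ⟨⟨R, hR, hR2, hR3⟩, hc⟩ := h3 hx
    obtain ⟨C, hC⟩ := U_nonempty hR
    exact ⟨C, hR3 C hC⟩

/-- The basic neighbourhoods of `p`. -/
def nbp (R : Set D) (J : Set I) : Set X := {x | match x with
  | d C => C ∈ R
  | y i => i ∉ J
  | p => True}

theorem isOpen_nbp {R : Set D} {J : Set I} (hR : R ∈ U) (hJ : J.Countable) (hRJ : JOpen J R) :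
    IsOpen (nbp R J) := by
  rw [isOpen_iff]
  refine ⟨hRJ.isOpen, ?_, fun _ => ⟨⟨R, hR, hRJ.isOpen, fun C hC => hC⟩, ?_⟩⟩
  · intro i hi
    refine ⟨R, hR, hRJ.mono ?_, fun C hC _ => hC⟩
    intro j hj hji
    rw [mem_singleton_iff] at hji
    exact hi (hji ▸ hj)
  · refine hJ.mono ?_
    intro i hi
    by_contra hno
    exact hi hno

theorem isOpen_nby (i : I) {R : Set D} (hR : R ∈ U) (hRJ : JOpen {i}ᶜ R) :
    IsOpen ({x | match x with
      | d C => C ∈ R ∧ i ∈ C.1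
      | y j => j = i
      | p => False} : Set X) := by
  rw [isOpen_iff]
  refine ⟨hRJ.isOpen.inter (jopen_mem i).isOpen, ?_, fun h => absurd h (by simp)⟩
  intro j hj
  obtain rfl : j = i := hj
  exact ⟨R, hR, hRJ, fun C hC hi => ⟨hC, hi⟩⟩

theorem isOpen_nbd {O : Set D} (hO : IsOpen O) : IsOpen (d '' O) := by
  rw [isOpen_iff]
  refine ⟨?_, fun i hi => ?_, fun h => ?_⟩
  · have : {C : D | d C ∈ d '' O} = O := by
      ext C
      constructor
      · rintro ⟨C', h, h'⟩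
        cases h'
        exact h
      · intro h
        exact ⟨C, h, rfl⟩
    rw [this]
    exact hO
  · obtain ⟨C', _, h'⟩ := hi
    cases h'
  · obtain ⟨C', _, h'⟩ := h
    cases h'

instance : T2Space X := by
  refine ⟨?_⟩
  -- enough: separate ordered pairs of kinds
  have hdd : ∀ C C' : D, C ≠ C' → ∃ V W : Set X, IsOpen V ∧ IsOpen W ∧ d C ∈ V ∧ d C' ∈ W ∧
      Disjoint V W := by
    intro C C' hne
    have h1 : ∃ i, ¬ (i ∈ C.1 ↔ i ∈ C'.1) := by
      by_contra hno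
      push Not at hno
      exact hne (Subtype.ext (Set.ext hno))
    obtain ⟨i, hi⟩ := h1
    by_cases hiC : i ∈ C.1
    · have hiC' : i ∉ C'.1 := fun h => hi ⟨fun _ => h, fun _ => hiC⟩
      refine ⟨d '' {C | i ∈ C.1}, d '' {C | i ∉ C.1}, isOpen_nbd (jopen_mem i).isOpen,
        isOpen_nbd (jopen_notMem i).isOpen, ⟨C, hiC, rfl⟩, ⟨C', hiC', rfl⟩, ?_⟩
      rw [Set.disjoint_left]
      rintro _ ⟨E, hE, rfl⟩ ⟨E', hE', h⟩
      cases h
      exact hE' hE
    · have hiC' : i ∈ C'.1 := by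
        by_contra h
        exact hi ⟨fun h' => absurd h' hiC, fun h' => absurd h' h⟩
      refine ⟨d '' {C | i ∉ C.1}, d '' {C | i ∈ C.1}, isOpen_nbd (jopen_notMem i).isOpen,
        isOpen_nbd (jopen_mem i).isOpen, ⟨C, hiC, rfl⟩, ⟨C', hiC', rfl⟩, ?_⟩
      rw [Set.disjoint_left]
      rintro _ ⟨E, hE, rfl⟩ ⟨E', hE', h⟩
      cases h
      exact hE hE'
  have hdy : ∀ (C : D) (i : I), ∃ V W : Set X, IsOpen V ∧ IsOpen W ∧ d C ∈ V ∧ y i ∈ W ∧
      Disjoint V W := by
    intro C i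
    obtain ⟨j, hj, hji⟩ : ∃ j, j ∈ C.1 ∧ j ≠ i := by
      obtain ⟨a, b, hab, ha, hb⟩ := exists_two C
      by_cases h : a = i
      · exact ⟨b, hb, fun h' => hab (h.trans h'.symm)⟩
      · exact ⟨a, ha, h⟩
    refine ⟨d '' {C | j ∈ C.1}, _, isOpen_nbd (jopen_mem j).isOpen,
      isOpen_nby i (U_notMem j) ((jopen_notMem j).mono ?_), ⟨C, hj, rfl⟩, rfl, ?_⟩
    · intro k hk hk2
      rw [mem_singleton_iff] at hk hk2
      exact hji (hk ▸ hk2)
    · rw [Set.disjoint_left]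
      rintro _ ⟨E, hE, rfl⟩ hE'
      exact hE'.1 hE
  have hdp : ∀ (C : D), ∃ V W : Set X, IsOpen V ∧ IsOpen W ∧ d C ∈ V ∧ p ∈ W ∧
      Disjoint V W := by
    intro C
    obtain ⟨j, _, _, hj, _⟩ := exists_two C
    refine ⟨d '' {C | j ∈ C.1}, _, isOpen_nbd (jopen_mem j).isOpen,
      isOpen_nbp (U_notMem j) (countable_singleton j) (jopen_notMem j), ⟨C, hj, rfl⟩, trivial, ?_⟩
    rw [Set.disjoint_left]
    rintro _ ⟨E, hE, rfl⟩ hE'
    exact hE' hE
  have hyp : ∀ (i : I), ∃ V W : Set X, IsOpen V ∧ IsOpen W ∧ y i ∈ V ∧ p ∈ W ∧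
      Disjoint V W := by
    intro i
    refine ⟨_, _, isOpen_nby i univ_mem (fun _ _ => ⟨∅, finite_empty, empty_subset _, fun _ _ => trivial⟩),
      isOpen_nbp (U_notMem i) (countable_singleton i) (jopen_notMem i), rfl, trivial, ?_⟩
    rw [Set.disjoint_left]
    intro x hx hx'
    cases x with
    | d C => exact hx' hx.2
    | y j => exact hx' hx
    | p => exact hx
  have hyy : ∀ (i j : I), i ≠ j → ∃ V W : Set X, IsOpen V ∧ IsOpen W ∧ y i ∈ V ∧ y j ∈ W ∧
      Disjoint V W := by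
    intro i j hij
    refine ⟨_, _, isOpen_nby i (U_notMem j) ((jopen_notMem j).mono ?_),
      isOpen_nby j univ_mem (fun _ _ => ⟨∅, finite_empty, empty_subset _, fun _ _ => trivial⟩), rfl, rfl, ?_⟩
    · intro k hk hk2
      rw [mem_singleton_iff] at hk hk2
      exact hij (hk2.symm.trans hk)
    rw [Set.disjoint_left]
    intro x hx hx'
    cases x with
    | d C => exact hx.1 hx'.2
    | y k => exact hij (Eq.trans (Eq.symm hx) hx')
    | p => exact hx
  intro x x' hne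
  have hsymm : ∀ {a b : X}, (∃ V W : Set X, IsOpen V ∧ IsOpen W ∧ a ∈ V ∧ b ∈ W ∧ Disjoint V W) →
      ∃ V W : Set X, IsOpen V ∧ IsOpen W ∧ b ∈ V ∧ a ∈ W ∧ Disjoint V W := by
    rintro a b ⟨V, W, h1, h2, h3, h4, h5⟩
    exact ⟨W, V, h2, h1, h4, h3, h5.symm⟩
  cases x with
  | d C =>
    cases x' with
    | d C' => exact hdd C C' (fun h => hne (by rw [h]))
    | y i => exact hdy C i
    | p => exact hdp C
  | y i =>
    cases x' with
    | d C' => exact hsymm (hdy C' i)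
    | y j => exact hyy i j (fun h => hne (by rw [h]))
    | p => exact hyp i
  | p =>
    cases x' with
    | d C' => exact hsymm (hdp C')
    | y j => exact hsymm (hyp j)
    | p => exact absurd rfl hne

/-- Quasicontinuous functions are constant off a countable set. -/
theorem const_off {f : X → ℝ} (hf : QuasiCont f) : {x | f x ≠ f p}.Countable := by
  have key : ∀ ε > 0, {x | ε < |f x - f p|}.Countable := by
    intro ε hε
    let O : Set X := ⋃₀ {V | IsOpen V ∧ ∀ x ∈ V, |f x - f p| < ε}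
    have hO : IsOpen O := isOpen_sUnion (fun V hV => hV.1)
    have hOf : ∀ x ∈ O, |f x - f p| < ε := by
      rintro x ⟨V, ⟨_, hV⟩, hx⟩
      exact hV x hx
    let R : Set D := {C | d C ∈ O}
    have hRo : IsOpen R := (isOpen_iff.mp hO).1
    have hRU : R ∈ U := by
      rcases U_or hRo with h | h
      · exact h
      · exfalso
        obtain ⟨J, hJ, hJR⟩ := exists_countable_supp (isClosed_closure (s := R)).isOpen_compl
        obtain ⟨W, hW1, hW2, hW3, hW4⟩ := hf.exists_small (x := p) (isOpen_nbp h hJ hJR) trivial hε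
        obtain ⟨C, hC⟩ := exists_d hW1 hW2
        have h1 : C ∈ (closure R)ᶜ := hW3 hC
        apply h1
        apply subset_closure
        exact ⟨W, ⟨hW1, hW4⟩, hC⟩
    obtain ⟨J, hJ, hJR⟩ := exists_countable_supp hRo
    have hG := isOpen_nbp hRU hJ hJR
    have hGf : ∀ x ∈ nbp R J, |f x - f p| ≤ ε := by
      intro x hx
      apply le_of_forall_pos_le_add
      intro δ hδ
      obtain ⟨W, hW1, hW2, hW3, hW4⟩ := hf.exists_small hG hx hδ
      obtain ⟨C, hC⟩ := exists_d hW1 hW2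
      have h1 : C ∈ R := hW3 hC
      have h2 := hOf _ h1
      have h3 := hW4 _ hC
      have h4 : |f x - f p| ≤ |f (d C) - f x| + |f (d C) - f p| := by
        have h5 : f x - f p = -(f (d C) - f x) + (f (d C) - f p) := by ring
        calc |f x - f p| = |-(f (d C) - f x) + (f (d C) - f p)| := by rw [← h5]
          _ ≤ |-(f (d C) - f x)| + |f (d C) - f p| := abs_add_le _ _
          _ = |f (d C) - f x| + |f (d C) - f p| := by rw [abs_neg]
      linarith
    have hsub : {x | ε < |f x - f p|} ⊆ range d ∪ y '' J := by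
      intro x hx
      have hx' : x ∉ nbp R J := fun h => absurd (hGf x h) (not_le.mpr hx)
      cases x with
      | d C => exact Or.inl ⟨C, rfl⟩
      | y i =>
        right
        refine ⟨i, ?_, rfl⟩
        by_contra hi
        exact hx' hi
      | p => exact absurd trivial hx'
    exact ((countable_range d).union (hJ.image y)).mono hsub
  have h1 : {x | f x ≠ f p} ⊆ ⋃ n : ℕ, {x | 1 / ((n : ℝ) + 1) < |f x - f p|} := by
    intro x hx
    have h2 : 0 < |f x - f p| := abs_pos.mpr (sub_ne_zero.mpr hx)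
    obtain ⟨n, hn⟩ := exists_nat_one_div_lt h2
    exact mem_iUnion.mpr ⟨n, hn⟩
  exact (countable_iUnion (fun n => key _ (by positivity))).mono h1

theorem fu : FU (Qp X) := fu_of_const p (fun _ hf => const_off hf)

theorem y_injective : Function.Injective y := by
  intro i j h
  cases h
  rfl

/-- The uncountable set of the points `y i` is nowhere dense. -/
theorem nowhereDense : IsNowhereDense (range y) := by
  rw [IsNowhereDense, Set.eq_empty_iff_forall_notMem]
  intro x hx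
  obtain ⟨C, hC⟩ := exists_d isOpen_interior ⟨x, hx⟩
  have h1 : d C ∈ closure (range y) := interior_subset hC
  obtain ⟨z, hz1, hz2⟩ := mem_closure_iff.mp h1 (d '' univ) (isOpen_nbd isOpen_univ) ⟨C, trivial, rfl⟩
  obtain ⟨E, _, rfl⟩ := hz1
  obtain ⟨i, hi⟩ := hz2
  cases hi

theorem not_countable : ¬ (range y).Countable := by
  intro h
  have h1 : (univ : Set I).Countable := by
    have := h.preimage_of_injOn (f := y) y_injective.injOn
    rwa [preimage_range] at this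
  obtain ⟨f, hf⟩ := h1.exists_eq_range ⟨fun _ => true, trivial⟩
  have h2 : (fun n => !(f n n)) ∈ range f := by rw [← hf]; trivial
  obtain ⟨n, hn⟩ := h2
  have h3 := congrFun hn n
  cases hh : f n n <;> simp [hh] at h3

end Pool.Agent.Q147.QOne
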