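import Mathlib

namespace Pool.Agent.Q147.QSel

open Set Filter Topology

/-- Minimally bounded sets. -/
def MinBdd {X : Type*} [TopologicalSpace X] (A : Set X) : Prop :=
  A ⊆ closure (interior A) ∧ interior (closure A) ⊆ A

/-- `ω`-covers by minimally bounded sets. -/
def OmegaS {X : Type*} [TopologicalSpace X] (𝒰 : Set (Set X)) : Prop :=
  (∀ V ∈ 𝒰, MinBdd V) ∧ ∀ F : Set X, F.Finite → ∃ V ∈ 𝒰, F ⊆ V

/-- `γ`-covers by minimally bounded sets. -/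
def GammaS {X : Type*} [TopologicalSpace X] (𝒰 : Set (Set X)) : Prop :=
  (∀ V ∈ 𝒰, MinBdd V) ∧ ⋃₀ 𝒰 = univ ∧ ∀ x : X, {V ∈ 𝒰 | x ∉ V}.Finite

/-- The selection principle `S₁(Ωˢ, Γˢ)`. -/
def SOne (X : Type*) [TopologicalSpace X] : Prop :=
  ∀ 𝒰 : ℕ → Set (Set X), (∀ n, OmegaS (𝒰 n)) →
    ∃ V : ℕ → Set X, (∀ n, V n ∈ 𝒰 n) ∧ GammaS (range V)

/-- The indexed (formally stronger) form of `S₁(Ωˢ, Γˢ)`. -/
def SOneIdx (X : Type*) [TopologicalSpace X] : Prop :=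
  ∀ 𝒰 : ℕ → Set (Set X), (∀ n, OmegaS (𝒰 n)) →
    ∃ V : ℕ → Set X, (∀ n, V n ∈ 𝒰 n) ∧ ∀ x : X, {n | x ∉ V n}.Finite

theorem SOneIdx.sOne {X : Type*} [TopologicalSpace X] (h : SOneIdx X) : SOne X := by
  intro 𝒰 h𝒰
  obtain ⟨V, hV, hV2⟩ := h 𝒰 h𝒰
  refine ⟨V, hV, ?_, ?_, ?_⟩
  · rintro _ ⟨n, rfl⟩
    exact (h𝒰 n).1 _ (hV n)
  · rw [eq_univ_iff_forall]
    intro x
    obtain ⟨n, hn⟩ := (hV2 x).exists_notMem
    rw [mem_ofPred_eq, not_not] at hn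
    exact ⟨V n, mem_range_self n, hn⟩
  · intro x
    refine ((hV2 x).image V).subset ?_
    rintro _ ⟨⟨n, rfl⟩, hn⟩
    exact ⟨n, hn, rfl⟩

end Pool.Agent.Q147.QSel
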