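import Mathlib
import Pool.Agent.Q147.QFun
import Pool.Agent.Q147.QSel

namespace Pool.Agent.Q147.QPos

open Set Filter Topology Pool.Agent.Q147.QFun Pool.Agent.Q147.QSel

universe u

/-- Open Whyburn spaces. -/
def OpenWhyburn (X : Type u) [TopologicalSpace X] : Prop :=
  ∀ A : Set X, IsOpen A → ∀ x ∈ closure A \ A, ∃ B : Set X, IsOpen B ∧ B ⊆ A ∧ closure B \ A = {x}

variable {X : Type u} [TopologicalSpace X]

theorem mem_closure_inter_open {G V : Set X} {x : X} (hx : x ∈ closure G) (hV : IsOpen V)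
    (hxV : x ∈ V) : x ∈ closure (G ∩ V) := by
  rw [mem_closure_iff] at hx ⊢
  intro o ho hxo
  obtain ⟨y, ⟨hy1, hy2⟩, hy3⟩ := hx (o ∩ V) (ho.inter hV) ⟨hxo, hxV⟩
  exact ⟨y, hy1, hy3, hy2⟩

theorem local_set [T2Space X] (hX : OpenWhyburn X) {G : Set X} (hG : IsOpen G) {x : X}
    (hx : x ∈ closure G) : ∃ B : Set X, IsOpen B ∧ B ⊆ G ∧ x ∈ closure B ∧
      closure B ⊆ insert x G := by
  by_cases hxG : x ∈ G
  · by_cases hiso : IsOpen ({x} : Set X)
    · refine ⟨{x}, hiso, singleton_subset_iff.mpr hxG, subset_closure rfl, ?_⟩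
      rw [closure_singleton]
      exact singleton_subset_iff.mpr (mem_insert _ _)
    · have hG' : IsOpen (G \ {x}) := hG.sdiff isClosed_singleton
      have hx' : x ∈ closure (G \ {x}) := by
        rw [mem_closure_iff]
        intro o ho hxo
        by_contra hno
        rw [not_nonempty_iff_eq_empty] at hno
        apply hiso
        have : ({x} : Set X) = o ∩ G := by
          ext y
          constructor
          · rintro rfl
            exact ⟨hxo, hxG⟩
          · rintro ⟨h1, h2⟩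
            by_contra h3
            have : y ∈ o ∩ (G \ {x}) := ⟨h1, h2, h3⟩
            rw [hno] at this
            exact this
        rw [this]
        exact ho.inter hG
      obtain ⟨B, hB1, hB2, hB3⟩ := hX _ hG' x ⟨hx', fun h => h.2 rfl⟩
      refine ⟨B, hB1, hB2.trans Set.sdiff_subset, ?_, ?_⟩
      · have : x ∈ closure B \ (G \ {x}) := by rw [hB3]; rfl
        exact this.1
      · intro y hy
        by_cases h : y ∈ G \ {x}
        · exact Or.inr h.1
        · have : y ∈ closure B \ (G \ {x}) := ⟨hy, h⟩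
          rw [hB3] at this
          exact Or.inl this
  · obtain ⟨B, hB1, hB2, hB3⟩ := hX _ hG x ⟨hx, hxG⟩
    refine ⟨B, hB1, hB2, ?_, ?_⟩
    · have : x ∈ closure B \ G := by rw [hB3]; rfl
      exact this.1
    · intro y hy
      by_cases h : y ∈ G
      · exact Or.inr h
      · have : y ∈ closure B \ G := ⟨hy, h⟩
        rw [hB3] at this
        exact Or.inl this

theorem local_set' [T2Space X] (hX : OpenWhyburn X) {G : Set X} (hG : IsOpen G) {x z : X}
    (hx : x ∈ closure G) (hxz : z ≠ x) : ∃ B : Set X, IsOpen B ∧ B ⊆ G ∧ x ∈ closure B ∧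
      closure B ⊆ insert x G ∧ z ∉ closure B := by
  obtain ⟨V, V', hV, hV', hxV, hzV', hd⟩ := t2_separation hxz.symm
  obtain ⟨B, hB1, hB2, hB3, hB4⟩ := local_set hX (hG.inter hV) (mem_closure_inter_open hx hV hxV)
  refine ⟨B, hB1, hB2.trans inter_subset_left, hB3, ?_, ?_⟩
  · exact hB4.trans (insert_subset_insert inter_subset_left)
  · intro hz
    rcases hB4 hz with h | h
    · exact hxz h
    · exact Set.disjoint_left.mp hd h.2 hzV'

theorem minBdd_of {O F : Set X} (hO : IsOpen O) (hF : F ⊆ closure O) :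
    MinBdd (interior (closure O) ∪ F) := by
  have h1 : O ⊆ interior (closure O) := hO.subset_interior_closure
  have h2 : interior (closure O) ⊆ interior (interior (closure O) ∪ F) :=
    interior_maximal subset_union_left isOpen_interior
  constructor
  · have h3 : closure O ⊆ closure (interior (interior (closure O) ∪ F)) :=
      closure_mono (h1.trans h2)
    exact union_subset (interior_subset.trans h3) (hF.trans h3)
  · have h3 : interior (closure O) ∪ F ⊆ closure O := union_subset interior_subset hF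
    have h4 : closure (interior (closure O) ∪ F) ⊆ closure O :=
      closure_minimal h3 isClosed_closure
    exact (interior_mono h4).trans subset_union_left

/-- The set of all small sets built from local pieces. -/
theorem build [T2Space X] (hX : OpenWhyburn X) (F : Set X) (hF : F.Finite) (G : X → Set X)
    (hG : ∀ x, IsOpen (G x)) (hxG : ∀ x ∈ F, x ∈ closure (G x)) (z : X) (hz : z ∉ F) :
    ∃ B : X → Set X, (∀ x, IsOpen (B x)) ∧ (∀ x, B x ⊆ G x) ∧
      (∀ x ∈ F, closure (B x) ⊆ insert x (G x)) ∧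
      MinBdd (interior (closure (⋃ x ∈ F, B x)) ∪ F) ∧
      z ∉ interior (closure (⋃ x ∈ F, B x)) ∪ F ∧
      interior (interior (closure (⋃ x ∈ F, B x)) ∪ F) ⊆ interior (closure (⋃ x ∈ F, B x)) := by
  classical
  have h1 : ∀ x, ∃ B : Set X, IsOpen B ∧ B ⊆ G x ∧
      (x ∈ F → x ∈ closure B ∧ closure B ⊆ insert x (G x) ∧ z ∉ closure B) := by
    intro x
    by_cases hx : x ∈ F
    · obtain ⟨B, h1, h2, h3, h4, h5⟩ := local_set' hX (hG x) (hxG x hx)
        (fun h => hz (h ▸ hx) : z ≠ x)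
      exact ⟨B, h1, h2, fun _ => ⟨h3, h4, h5⟩⟩
    · exact ⟨∅, isOpen_empty, empty_subset _, fun h => absurd h hx⟩
  choose B hB1 hB2 hB3 using h1
  have hFc : F ⊆ closure (⋃ x ∈ F, B x) := by
    intro x hx
    exact closure_mono (subset_biUnion_of_mem (u := fun x => B x) hx) (hB3 x hx).1
  refine ⟨B, hB1, hB2, fun x hx => (hB3 x hx).2.1, ?_, ?_,
    interior_mono (union_subset interior_subset hFc)⟩
  · exact minBdd_of (isOpen_biUnion (fun x _ => hB1 x)) hFc
  · rintro (h | h)
    · have h2 := interior_subset h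
      rw [hF.closure_biUnion] at h2
      simp only [mem_iUnion] at h2
      obtain ⟨x, hx, hx2⟩ := h2
      exact (hB3 x hx).2.2 hx2
    · exact hz h

/-- Under `S₁(Ωˢ,Γˢ)` closed nowhere dense sets are countable. -/
theorem countable_of_nwd [T2Space X] [Infinite X] (hX : OpenWhyburn X) (hS : SOne X) {N : Set X}
    (hN : IsClosed N) (hd : Dense Nᶜ) : N.Countable := by
  classical
  obtain ⟨V, hV, hV2⟩ := hS (fun _ => {W | MinBdd W ∧ (W ∩ N).Finite}) (by
    intro n
    refine ⟨fun W hW => hW.1, ?_⟩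
    intro F hF
    obtain ⟨z, hz⟩ := hF.exists_notMem
    obtain ⟨B, hB1, hB2, hB3, hB4, _, _⟩ := build hX F hF (fun _ => Nᶜ) (fun _ => hN.isOpen_compl)
      (fun x _ => hd x) z hz
    refine ⟨_, ⟨hB4, ?_⟩, subset_union_right⟩
    refine hF.subset ?_
    rintro y ⟨hy | hy, hyN⟩
    · have h2 := interior_subset hy
      rw [hF.closure_biUnion] at h2
      simp only [mem_iUnion] at h2
      obtain ⟨x, hx, hx2⟩ := h2
      rcases hB3 x hx hx2 with h | h
      · rw [h]; exact hx
      · exact absurd hyN h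
    · exact hy)
  have h1 : N ⊆ ⋃ n, (V n ∩ N) := by
    intro x hx
    have : x ∈ ⋃₀ range V := by rw [hV2.2.1]; trivial
    obtain ⟨_, ⟨n, rfl⟩, hn⟩ := this
    exact mem_iUnion.mpr ⟨n, hn, hx⟩
  exact (countable_iUnion (fun n => (hV n).2.countable)).mono h1

/-- The points where the oscillation of `f` is less than `ε`. -/
def Osc (f : X → ℝ) (ε : ℝ) : Set X := ⋃₀ {V | IsOpen V ∧ ∀ a ∈ V, ∀ b ∈ V, |f a - f b| < ε}

theorem isOpen_osc (f : X → ℝ) (ε : ℝ) : IsOpen (Osc f ε) := isOpen_sUnion (fun _ h => h.1)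

theorem dense_osc {f : X → ℝ} (hf : QuasiCont f) {ε : ℝ} (hε : 0 < ε) : Dense (Osc f ε) := by
  rw [dense_iff_inter_open]
  rintro T hT ⟨x, hx⟩
  obtain ⟨V, hV1, ⟨v, hv⟩, hV3, hV4⟩ := hf.exists_small hT hx (half_pos hε)
  refine ⟨v, hV3 hv, V, ⟨hV1, ?_⟩, hv⟩
  intro a ha b hb
  have h1 := hV4 a ha
  have h2 := hV4 b hb
  rw [abs_lt] at h1 h2 ⊢
  constructor <;> linarith

/-- At a point of large oscillation there is a one-sided neighbourhood. -/
theorem exists_side {f : X → ℝ} (hf : QuasiCont f) {ε : ℝ} (hε : 0 < ε) {x : X}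
    (hx : x ∉ Osc f ε) : ∃ A : Set X, IsOpen A ∧ x ∈ closure A ∧ x ∉ interior (closure A) := by
  let A : Set X := ⋃₀ {V | IsOpen V ∧ ∀ a ∈ V, |f a - f x| < ε / 4}
  have hA : IsOpen A := isOpen_sUnion (fun _ h => h.1)
  have hAf : ∀ a ∈ A, |f a - f x| < ε / 4 := by
    rintro a ⟨V, ⟨_, hV⟩, ha⟩
    exact hV a ha
  refine ⟨A, hA, ?_, ?_⟩
  · rw [mem_closure_iff]
    intro T hT hxT
    obtain ⟨V, hV1, ⟨v, hv⟩, hV3, hV4⟩ := hf.exists_small hT hxT (by positivity : 0 < ε / 4)
    exact ⟨v, hV3 hv, V, ⟨hV1, hV4⟩, hv⟩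
  · intro hxi
    apply hx
    refine ⟨interior (closure A), ⟨isOpen_interior, ?_⟩, hxi⟩
    have key : ∀ y ∈ interior (closure A), |f y - f x| < ε / 2 := by
      intro y hy
      obtain ⟨V, hV1, ⟨v, hv⟩, hV3, hV4⟩ := hf.exists_small isOpen_interior hy
        (by positivity : 0 < ε / 4)
      obtain ⟨w, hw1, hw2⟩ := mem_closure_iff.mp (interior_subset (hV3 hv)) V hV1 hv
      have h1 := hV4 w hw1
      have h2 := hAf w hw2
      rw [abs_lt] at h1 h2 ⊢
      constructor <;> linarith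
    intro a ha b hb
    have h1 := key a ha
    have h2 := key b hb
    rw [abs_lt] at h1 h2 ⊢
    constructor <;> linarith

omit [TopologicalSpace X] in
theorem finite_of_range {V : ℕ → Set X} {x : X} (h : {W ∈ range V | x ∉ W}.Finite)
    (hfib : ∀ m, {n | V n = V m}.Finite) : {n | x ∉ V n}.Finite := by
  have h1 : {n | x ∉ V n} ⊆ ⋃ W ∈ {W ∈ range V | x ∉ W}, {n | V n = W} := by
    intro n hn
    simp only [mem_iUnion]
    exact ⟨V n, ⟨mem_range_self n, hn⟩, rfl⟩
  refine (h.biUnion ?_).subset h1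
  rintro W ⟨⟨m, rfl⟩, _⟩
  exact hfib m

/-- The point-finite open sets accumulating to all discontinuities. -/
theorem exists_G [T2Space X] (hX : OpenWhyburn X) (hS : SOne X) {f : X → ℝ} (hf : QuasiCont f)
    (z : ℕ → X) (hz : Function.Injective z) :
    ∃ G : ℕ → Set X, (∀ n, IsOpen (G n)) ∧
      (∀ n : ℕ, (Osc f (1 / ((n : ℝ) + 1)))ᶜ ⊆ closure (G n)) ∧ ∀ x, {n | x ∈ G n}.Finite := by
  classical
  have hzinf : ∀ F : Set X, F.Finite → ∃ i, z i ∉ F := by
    intro F hF
    obtain ⟨i, hi⟩ := (hF.preimage (f := z) hz.injOn).exists_notMem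
    exact ⟨i, hi⟩
  obtain ⟨V, hV, hV2⟩ := hS (fun n => {W | MinBdd W ∧
      interior W ∩ (Osc f (1 / ((n : ℝ) + 1)))ᶜ = ∅ ∧ (∀ i ≤ n, z i ∈ W) ∧ ∃ i, z i ∉ W}) (by
    intro n
    refine ⟨fun W hW => hW.1, ?_⟩
    intro F0 hF0
    set N : Set X := (Osc f (1 / ((n : ℝ) + 1)))ᶜ with hNdef
    let F : Set X := F0 ∪ z '' {i | i ≤ n}
    have hF : F.Finite := hF0.union ((finite_le_nat n).image z)
    obtain ⟨i0, hi0⟩ := hzinf F hF
    have hNo : IsOpen Nᶜ := by rw [hNdef, compl_compl]; exact isOpen_osc _ _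
    have hNd : Dense Nᶜ := by rw [hNdef, compl_compl]; exact dense_osc hf (by positivity)
    have hside : ∀ x, ∃ G : Set X, IsOpen G ∧ G ⊆ Nᶜ ∧ x ∈ closure G ∧
        (x ∈ N → x ∉ interior (closure G)) := by
      intro x
      by_cases hx : x ∈ N
      · obtain ⟨A, hA1, hA2, hA3⟩ := exists_side hf (by positivity : (0 : ℝ) < 1 / ((n : ℝ) + 1)) hx
        refine ⟨A ∩ Nᶜ, hA1.inter hNo, inter_subset_right, ?_, ?_⟩
        · have h3 : closure A ⊆ closure (A ∩ Nᶜ) := by
            apply closure_minimal _ isClosed_closure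
            exact hNd.open_subset_closure_inter hA1
          exact h3 hA2
        · intro _ h
          exact hA3 (interior_mono (closure_mono inter_subset_left) h)
      · exact ⟨Nᶜ, hNo, subset_rfl, hNd x, fun h => absurd h hx⟩
    choose G hG1 hG2 hG3 hG4 using hside
    obtain ⟨B, hB1, hB2, hB3, hB4, hB5, hB6⟩ := build hX F hF G hG1 (fun x _ => hG3 x) (z i0) hi0
    refine ⟨_, ⟨hB4, ?_, ?_, i0, hB5⟩, subset_union_left.trans subset_union_right⟩
    · rw [eq_empty_iff_forall_notMem]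
      rintro y ⟨hy, hyN⟩
      have hy2 : y ∈ interior (closure (⋃ x ∈ F, B x)) := hB6 hy
      have hyc : ∀ x ∈ F, y ∈ closure (B x) → y = x := by
        intro x hx hyx
        rcases hB3 x hx hyx with h | h
        · exact h
        · exact absurd hyN (hG2 x h)
      let T : Set X := interior (closure (⋃ x ∈ F, B x)) ∩ (⋃ x ∈ F \ {y}, closure (B x))ᶜ
      have hT : IsOpen T := isOpen_interior.inter
        ((hF.subset Set.sdiff_subset).isClosed_biUnion (fun x _ => isClosed_closure)).isOpen_compl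
      have hyT : y ∈ T := by
        refine ⟨hy2, ?_⟩
        intro h
        simp only [mem_iUnion] at h
        obtain ⟨x, ⟨hx1, hx2⟩, hx3⟩ := h
        exact hx2 (hyc x hx1 hx3).symm
      have hTB : T ⊆ closure (G y) := by
        rintro t ⟨ht1, ht2⟩
        have h2 := interior_subset ht1
        rw [hF.closure_biUnion] at h2
        simp only [mem_iUnion] at h2
        obtain ⟨x, hx, hx2⟩ := h2
        by_cases hxy : x = y
        · subst hxy
          exact closure_mono (hB2 x) hx2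
        · exfalso
          apply ht2
          simp only [mem_iUnion]
          exact ⟨x, ⟨hx, hxy⟩, hx2⟩
      exact hG4 y hyN (interior_maximal hTB hT hyT)
    · intro i hi
      exact Or.inr (Or.inr ⟨i, hi, rfl⟩))
  refine ⟨fun n => (closure (V n))ᶜ, fun n => isClosed_closure.isOpen_compl, ?_, ?_⟩
  · intro n x hx
    rw [closure_compl, mem_compl_iff]
    intro hxi
    have h1 : x ∈ interior (V n) := interior_maximal (hV n).1.2 isOpen_interior hxi
    have h2 : x ∈ interior (V n) ∩ (Osc f (1 / ((n : ℝ) + 1)))ᶜ := ⟨h1, hx⟩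
    rw [(hV n).2.1] at h2
    exact h2
  · intro x
    have h1 : {n | x ∉ V n}.Finite := by
      apply finite_of_range (hV2.2.2 x)
      intro m
      obtain ⟨i, hi⟩ := (hV m).2.2.2
      refine (finite_lt_nat i).subset ?_
      intro n hn
      by_contra hno
      exact hi ((show V n = V m from hn) ▸ (hV n).2.2.1 i (not_lt.mp hno))
    refine h1.subset ?_
    intro n hn hxn
    exact hn (subset_closure hxn)

theorem main [T2Space X] (hX : OpenWhyburn X) (hS : SOne X) : FU (Qp X) := by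
  classical
  intro f A hfA
  by_cases hfin : Finite X
  · have hfc : FirstCountableTopology (Qp X) :=
      TopologicalSpace.Subtype.firstCountableTopology {f : X → ℝ | QuasiCont f}
    obtain ⟨u, hu1, hu2⟩ := mem_closure_iff_seq_limit.mp hfA
    exact ⟨u, hu1, hu2⟩
  have hinf : Infinite X := not_finite_iff_infinite.mp hfin
  let z : ℕ ↪ X := Infinite.natEmbedding X
  have hzinf : ∀ F : Set X, F.Finite → ∃ i, z i ∉ F := by
    intro F hF
    obtain ⟨i, hi⟩ := (hF.preimage (f := z) z.injective.injOn).exists_notMem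
    exact ⟨i, hi⟩
  let N : ℕ → Set X := fun n => (Osc f.1 (1 / ((n : ℝ) + 1)))ᶜ
  have hNc : ∀ n, (N n).Countable := by
    intro n
    apply countable_of_nwd hX hS
    · exact (isOpen_osc _ _).isClosed_compl
    · simp only [N, compl_compl]
      exact dense_osc f.2 (by positivity)
  have hNm : Monotone N := by
    intro m n hmn
    apply compl_subset_compl.mpr
    apply sUnion_subset_sUnion
    rintro V ⟨hV1, hV2⟩
    refine ⟨hV1, fun a ha b hb => (hV2 a ha b hb).trans_le ?_⟩
    apply one_div_le_one_div_of_le (by positivity)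
    have : (m : ℝ) ≤ n := by exact_mod_cast hmn
    linarith
  let E : Set X := ⋃ n, N n
  have hEc : E.Countable := countable_iUnion hNc
  obtain ⟨e, he⟩ := (hEc.insert (z 0)).exists_eq_range ⟨z 0, mem_insert _ _⟩
  obtain ⟨G, hG1, hG2, hG3⟩ := exists_G hX hS f.2 z z.injective
  -- continuity off `E`
  have hcont : ∀ x, x ∉ E → ∀ δ > 0, ∃ T : Set X, IsOpen T ∧ x ∈ T ∧ ∀ y ∈ T, |f.1 y - f.1 x| < δ := by
    intro x hx δ hδ
    obtain ⟨n, hn⟩ := exists_nat_one_div_lt hδ
    have h1 : x ∉ N n := fun h => hx (mem_iUnion.mpr ⟨n, h⟩)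
    simp only [N, mem_compl_iff, not_not] at h1
    obtain ⟨V, ⟨hV1, hV2⟩, hxV⟩ := h1
    exact ⟨V, hV1, hxV, fun y hy => (hV2 y hy x hxV).trans hn⟩
  obtain ⟨V, hV, hV2⟩ := hS (fun n => {W | MinBdd W ∧ (∀ i ≤ n, z i ∈ W) ∧ (∃ i, z i ∉ W) ∧
      ∃ h ∈ A, ∃ F : Set X, (∀ x ∈ F, |h.1 x - f.1 x| < 1 / ((n : ℝ) + 1)) ∧ (∀ i ≤ n, e i ∈ F) ∧
        ∃ j ≥ n, ∀ y ∈ W, y ∉ F → y ∉ E → y ∉ G j → |h.1 y - f.1 y| ≤ 1 / ((n : ℝ) + 1)}) (by
    intro n
    refine ⟨fun W hW => hW.1, ?_⟩
    intro F0 hF0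
    let F : Set X := F0 ∪ (z '' {i | i ≤ n} ∪ e '' {i | i ≤ n})
    have hF : F.Finite := hF0.union (((finite_le_nat n).image z).union ((finite_le_nat n).image e))
    obtain ⟨i0, hi0⟩ := hzinf F hF
    obtain ⟨h, hhA, hhF⟩ := approx hfA F hF (by positivity : (0 : ℝ) < 1 / ((n : ℝ) + 1))
    obtain ⟨k, hk⟩ : ∃ k, ∀ x ∈ F, x ∈ E → x ∈ N k := by
      have h1 : ∀ x, ∃ k, x ∈ E → x ∈ N k := by
        intro x
        by_cases hx : x ∈ E
        · obtain ⟨k, hk⟩ := mem_iUnion.mp hx
          exact ⟨k, fun _ => hk⟩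
        · exact ⟨0, fun h => absurd h hx⟩
      choose κ hκ using h1
      obtain ⟨k, hk⟩ := (hF.image κ).bddAbove
      exact ⟨k, fun x hx hxE => hNm (hk ⟨x, hx, rfl⟩) (hκ x hxE)⟩
    let j := max n k
    let H : Set X := ⋃₀ {V | IsOpen V ∧ ∀ y ∈ V, |h.1 y - f.1 y| < 1 / ((n : ℝ) + 1)}
    have hH : IsOpen H := isOpen_sUnion (fun _ h => h.1)
    have hHf : ∀ y ∈ H, |h.1 y - f.1 y| < 1 / ((n : ℝ) + 1) := by
      rintro y ⟨V, ⟨_, hV⟩, hy⟩
      exact hV y hy
    let Gx : X → Set X := fun x => if x ∈ E then G j else H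
    have hGx1 : ∀ x, IsOpen (Gx x) := by
      intro x
      simp only [Gx]
      split_ifs
      · exact hG1 j
      · exact hH
    have hGx2 : ∀ x ∈ F, x ∈ closure (Gx x) := by
      intro x hx
      by_cases hxE : x ∈ E
      · simp only [Gx, if_pos hxE]
        exact hG2 j (hNm (le_max_right n k) (hk x hx hxE))
      · simp only [Gx, if_neg hxE]
        rw [mem_closure_iff]
        intro T hT hxT
        have h1 := hhF x hx
        set δ : ℝ := (1 / ((n : ℝ) + 1) - |h.1 x - f.1 x|) / 2 with hδ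
        have hδ0 : 0 < δ := by rw [hδ]; linarith
        obtain ⟨T', hT'1, hT'2, hT'3⟩ := hcont x hxE δ hδ0
        obtain ⟨W, hW1, ⟨w, hw⟩, hW3, hW4⟩ := h.2.exists_small (hT.inter hT'1) ⟨hxT, hT'2⟩ hδ0
        refine ⟨w, (hW3 hw).1, W, ⟨hW1, ?_⟩, hw⟩
        intro y hy
        have h2 := hW4 y hy
        have h3 := hT'3 y (hW3 hy).2
        have h4 : h.1 y - f.1 y = (h.1 y - h.1 x) + (h.1 x - f.1 x) - (f.1 y - f.1 x) := by ring
        have h5 : |h.1 y - f.1 y| ≤ |h.1 y - h.1 x| + |h.1 x - f.1 x| + |f.1 y - f.1 x| := by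
          rw [h4]
          exact (abs_sub _ _).trans (add_le_add (abs_add_le _ _) le_rfl)
        linarith
    obtain ⟨B, hB1, hB2, hB3, hB4, hB5, hB6⟩ := build hX F hF Gx hGx1 hGx2 (z i0) hi0
    refine ⟨_, ⟨hB4, ?_, ⟨i0, hB5⟩, h, hhA, F, hhF, ?_, j, le_max_left n k, ?_⟩,
      subset_union_left.trans subset_union_right⟩
    · intro i hi
      exact Or.inr (Or.inr (Or.inl ⟨i, hi, rfl⟩))
    · intro i hi
      exact Or.inr (Or.inr ⟨i, hi, rfl⟩)
    · intro y hyW hyF hyE hyG
      have hy2 : y ∈ interior (closure (⋃ x ∈ F, B x)) := by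
        rcases hyW with h | h
        · exact h
        · exact absurd h hyF
      let T : Set X := interior (closure (⋃ x ∈ F, B x)) ∩ (⋃ x ∈ F ∩ E, closure (B x))ᶜ
      have hT : IsOpen T := isOpen_interior.inter
        ((hF.inter_of_left _).isClosed_biUnion (fun x _ => isClosed_closure)).isOpen_compl
      have hyT : y ∈ T := by
        refine ⟨hy2, ?_⟩
        intro h
        simp only [mem_iUnion] at h
        obtain ⟨x, ⟨hx1, hx2⟩, hx3⟩ := h
        rcases hB3 x hx1 hx3 with h4 | h4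
        · exact hyF (h4 ▸ hx1)
        · simp only [Gx, if_pos hx2] at h4
          exact hyG h4
      have hTH : T ⊆ closure H := by
        rintro t ⟨ht1, ht2⟩
        have h2 := interior_subset ht1
        rw [hF.closure_biUnion] at h2
        simp only [mem_iUnion] at h2
        obtain ⟨x, hx, hx2⟩ := h2
        by_cases hxE : x ∈ E
        · exfalso
          apply ht2
          simp only [mem_iUnion]
          exact ⟨x, ⟨hx, hxE⟩, hx2⟩
        · have h3 := hB2 x
          simp only [Gx, if_neg hxE] at h3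
          exact closure_mono h3 hx2
      apply le_of_forall_pos_le_add
      intro δ hδ
      obtain ⟨T', hT'1, hT'2, hT'3⟩ := hcont y hyE (δ / 2) (by positivity)
      obtain ⟨W, hW1, ⟨w, hw⟩, hW3, hW4⟩ := h.2.exists_small (hT.inter hT'1) ⟨hyT, hT'2⟩
        (by positivity : 0 < δ / 2)
      obtain ⟨v, hv1, hv2⟩ := mem_closure_iff.mp (hTH (hW3 hw).1) W hW1 hw
      have h1 := hHf v hv2
      have h2 := hW4 v hv1
      have h3 := hT'3 v (hW3 hv1).2
      have h4 : h.1 y - f.1 y = (h.1 v - f.1 v) - (h.1 v - h.1 y) + (f.1 v - f.1 y) := by ring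
      have h5 : |h.1 y - f.1 y| ≤ |h.1 v - f.1 v| + |h.1 v - h.1 y| + |f.1 v - f.1 y| := by
        rw [h4]
        exact (abs_add_le _ _).trans (add_le_add (abs_sub _ _) le_rfl)
      linarith)
  choose h1 h2 h3 h hhA F hF1 hF2 j hj1 hj2 using hV
  refine ⟨h, hhA, ?_⟩
  apply tendsto_of_pointwise
  intro x
  have hmain : (∃ M, ∀ n ≥ M, |(h n).1 x - f.1 x| ≤ 1 / ((n : ℝ) + 1)) →
      Tendsto (fun n => (h n).1 x) atTop (𝓝 (f.1 x)) := by
    rintro ⟨M, hM⟩
    rw [tendsto_iff_dist_tendsto_zero]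
    refine squeeze_zero' (Eventually.of_forall fun n => dist_nonneg) ?_
      tendsto_one_div_add_atTop_nhds_zero_nat
    filter_upwards [eventually_ge_atTop M] with n hn
    rw [Real.dist_eq]
    exact hM n hn
  apply hmain
  by_cases hxE : x ∈ E
  · have : x ∈ range e := by rw [← he]; exact mem_insert_of_mem _ hxE
    obtain ⟨k, rfl⟩ := this
    exact ⟨k, fun n hn => (hF1 n (e k) (hF2 n k hn)).le⟩
  · have hfin1 : {n | x ∉ V n}.Finite := by
      apply finite_of_range (hV2.2.2 x)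
      intro m
      obtain ⟨i, hi⟩ := h3 m
      refine (finite_lt_nat i).subset ?_
      intro n hn
      by_contra hno
      exact hi ((show V n = V m from hn) ▸ h2 n i (not_lt.mp hno))
    obtain ⟨M, hM⟩ := (hfin1.union (hG3 x)).bddAbove
    refine ⟨M + 1, fun n hn => ?_⟩
    have hxV : x ∈ V n := by
      by_contra hno
      have := hM (Or.inl hno)
      omega
    by_cases hxF : x ∈ F n
    · exact (hF1 n x hxF).le
    · apply hj2 n x hxV hxF hxE
      intro hxG
      have := hM (Or.inr hxG)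
      have := hj1 n
      omega

end Pool.Agent.Q147.QPos
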