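import Mathlib
import Pool.Agent.Q147.QBase
import Pool.Agent.Q147.QFun
import Pool.Agent.Q147.QSel

namespace Pool.Agent.Q147.QTwo

open Set Filter Topology Pool.Agent.Q147.QBase Pool.Agent.Q147.QFun Pool.Agent.Q147.QSel

/-- The points of the space. -/
inductive X : Type
  | d (b : Bool) (C : D) : X
  | y (i : I) : X
  | q (b : Bool) : X

open X

/-- The topology. -/
instance topX : TopologicalSpace X where
  IsOpen G := (∀ b, IsOpen {C : D | d b C ∈ G}) ∧
    (∀ i, y i ∈ G → ∃ R ∈ U, JOpen {i}ᶜ R ∧ ∀ b, ∀ C ∈ R, i ∈ C.1 → d b C ∈ G) ∧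
    (∀ b, q b ∈ G → ∃ R ∈ U, IsOpen R ∧ ∀ C ∈ R, d b C ∈ G)
  isOpen_univ := by
    refine ⟨?_, fun i _ => ⟨univ, univ_mem, ?_, fun _ _ _ _ => trivial⟩, fun _ _ =>
      ⟨univ, univ_mem, isOpen_univ, fun _ _ => trivial⟩⟩
    · simp
    · exact fun _ _ => ⟨∅, finite_empty, empty_subset _, fun _ _ => trivial⟩
  isOpen_inter := by
    rintro G G' ⟨h1, h2, h3⟩ ⟨h1', h2', h3'⟩
    refine ⟨fun b => (h1 b).inter (h1' b), ?_, ?_⟩
    · rintro i ⟨hi, hi'⟩
      obtain ⟨R, hR, hR2, hR3⟩ := h2 i hi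
      obtain ⟨R', hR', hR2', hR3'⟩ := h2' i hi'
      exact ⟨R ∩ R', inter_mem hR hR', hR2.inter hR2', fun b C hC hiC =>
        ⟨hR3 b C hC.1 hiC, hR3' b C hC.2 hiC⟩⟩
    · rintro b ⟨hp, hp'⟩
      obtain ⟨R, hR, hR2, hR3⟩ := h3 b hp
      obtain ⟨R', hR', hR2', hR3'⟩ := h3' b hp'
      exact ⟨R ∩ R', inter_mem hR hR', hR2.inter hR2', fun C hC => ⟨hR3 C hC.1, hR3' C hC.2⟩⟩
  isOpen_sUnion := by
    intro S hS
    refine ⟨?_, ?_, ?_⟩
    · intro b
      have : {C : D | d b C ∈ ⋃₀ S} = ⋃ G ∈ S, {C : D | d b C ∈ G} := by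
        ext C
        simp
      rw [this]
      exact isOpen_biUnion (fun G hG => (hS G hG).1 b)
    · rintro i ⟨G, hG, hi⟩
      obtain ⟨R, hR, hR2, hR3⟩ := (hS G hG).2.1 i hi
      exact ⟨R, hR, hR2, fun b C hC hiC => ⟨G, hG, hR3 b C hC hiC⟩⟩
    · rintro b ⟨G, hG, hp⟩
      obtain ⟨R, hR, hR2, hR3⟩ := (hS G hG).2.2 b hp
      exact ⟨R, hR, hR2, fun C hC => ⟨G, hG, hR3 C hC⟩⟩

theorem isOpen_iff {G : Set X} : IsOpen G ↔ (∀ b, IsOpen {C : D | d b C ∈ G}) ∧
    (∀ i, y i ∈ G → ∃ R ∈ U, JOpen {i}ᶜ R ∧ ∀ b, ∀ C ∈ R, i ∈ C.1 → d b C ∈ G) ∧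
    (∀ b, q b ∈ G → ∃ R ∈ U, IsOpen R ∧ ∀ C ∈ R, d b C ∈ G) := Iff.rfl

/-- The points `d b C` are dense. -/
theorem exists_d {G : Set X} (hG : IsOpen G) (hne : G.Nonempty) : ∃ (b : Bool) (C : D), d b C ∈ G := by
  obtain ⟨h1, h2, h3⟩ := isOpen_iff.mp hG
  obtain ⟨x, hx⟩ := hne
  cases x with
  | d b C => exact ⟨b, C, hx⟩
  | y i =>
    obtain ⟨R, hR, hR2, hR3⟩ := h2 i hx
    obtain ⟨C, hC, hi⟩ := meet_mem hR2 (U_nonempty hR)
    exact ⟨true, C, hR3 true C hC hi⟩
  | q b =>
    obtain ⟨R, hR, hR2, hR3⟩ := h3 b hx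
    obtain ⟨C, hC⟩ := U_nonempty hR
    exact ⟨b, C, hR3 C hC⟩

theorem isOpen_nbq (b : Bool) {R : Set D} (hR : R ∈ U) (hRo : IsOpen R) :
    IsOpen ({x | match x with
      | d b' C => b' = b ∧ C ∈ R
      | y _ => False
      | q b' => b' = b} : Set X) := by
  rw [isOpen_iff]
  refine ⟨?_, fun i hi => absurd hi (by simp), ?_⟩
  · intro b'
    by_cases h : b' = b
    · have : {C : D | d b' C ∈ ({x | match x with
        | d b' C => b' = b ∧ C ∈ R
        | y _ => False
        | q b' => b' = b} : Set X)} = R := by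
        ext C
        constructor
        · exact fun h' => h'.2
        · exact fun h' => ⟨h, h'⟩
      rw [this]
      exact hRo
    · have : {C : D | d b' C ∈ ({x | match x with
        | d b' C => b' = b ∧ C ∈ R
        | y _ => False
        | q b' => b' = b} : Set X)} = ∅ := by
        ext C
        constructor
        · exact fun h' => absurd h'.1 h
        · exact fun h' => absurd h' (notMem_empty _)
      rw [this]
      exact isOpen_empty
  · intro b' hb'
    obtain rfl : b' = b := hb'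
    exact ⟨R, hR, hRo, fun C hC => ⟨rfl, hC⟩⟩

theorem isOpen_nby (i : I) {R : Bool → Set D} (hR : ∀ b, R b ∈ U) (hRJ : ∀ b, JOpen {i}ᶜ (R b)) :
    IsOpen ({x | match x with
      | d b C => C ∈ R b ∧ i ∈ C.1
      | y j => j = i
      | q _ => False} : Set X) := by
  rw [isOpen_iff]
  refine ⟨fun b => (hRJ b).isOpen.inter (jopen_mem i).isOpen, ?_, fun b h => absurd h (by simp)⟩
  intro j hj
  obtain rfl : j = i := hj
  refine ⟨R true ∩ R false, inter_mem (hR true) (hR false), (hRJ true).inter (hRJ false), ?_⟩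
  intro b C hC hi
  cases b with
  | true => exact ⟨hC.1, hi⟩
  | false => exact ⟨hC.2, hi⟩

theorem isOpen_nbd (b : Bool) {O : Set D} (hO : IsOpen O) : IsOpen (d b '' O) := by
  rw [isOpen_iff]
  refine ⟨?_, fun i hi => ?_, fun b' h => ?_⟩
  · intro b'
    by_cases hb : b' = b
    · subst hb
      have : {C : D | d b' C ∈ d b' '' O} = O := by
        ext C
        constructor
        · rintro ⟨C', h, h'⟩
          cases h'
          exact h
        · intro h
          exact ⟨C, h, rfl⟩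
      rw [this]
      exact hO
    · have : {C : D | d b' C ∈ d b '' O} = ∅ := by
        ext C
        constructor
        · rintro ⟨C', h, h'⟩
          cases h'
          exact absurd rfl hb
        · exact fun h' => absurd h' (notMem_empty _)
      rw [this]
      exact isOpen_empty
  · obtain ⟨C', _, h'⟩ := hi
    cases h'
  · obtain ⟨C', _, h'⟩ := h
    cases h'

instance : T2Space X := by
  refine ⟨?_⟩
  have hdd : ∀ (b b' : Bool) (C C' : D), (b, C) ≠ (b', C') → ∃ V W : Set X, IsOpen V ∧ IsOpen W ∧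
      d b C ∈ V ∧ d b' C' ∈ W ∧ Disjoint V W := by
    intro b b' C C' hne
    by_cases hb : b = b'
    · subst hb
      have hCC : C ≠ C' := fun h => hne (by rw [h])
      have h1 : ∃ i, ¬ (i ∈ C.1 ↔ i ∈ C'.1) := by
        by_contra hno
        push Not at hno
        exact hCC (Subtype.ext (Set.ext hno))
      obtain ⟨i, hi⟩ := h1
      by_cases hiC : i ∈ C.1
      · have hiC' : i ∉ C'.1 := fun h => hi ⟨fun _ => h, fun _ => hiC⟩
        refine ⟨d b '' {C | i ∈ C.1}, d b '' {C | i ∉ C.1}, isOpen_nbd b (jopen_mem i).isOpen,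
          isOpen_nbd b (jopen_notMem i).isOpen, ⟨C, hiC, rfl⟩, ⟨C', hiC', rfl⟩, ?_⟩
        rw [Set.disjoint_left]
        rintro _ ⟨E, hE, rfl⟩ ⟨E', hE', h⟩
        cases h
        exact hE' hE
      · have hiC' : i ∈ C'.1 := by
          by_contra h
          exact hi ⟨fun h' => absurd h' hiC, fun h' => absurd h' h⟩
        refine ⟨d b '' {C | i ∉ C.1}, d b '' {C | i ∈ C.1}, isOpen_nbd b (jopen_notMem i).isOpen,
          isOpen_nbd b (jopen_mem i).isOpen, ⟨C, hiC, rfl⟩, ⟨C', hiC', rfl⟩, ?_⟩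
        rw [Set.disjoint_left]
        rintro _ ⟨E, hE, rfl⟩ ⟨E', hE', h⟩
        cases h
        exact hE hE'
    · refine ⟨d b '' univ, d b' '' univ, isOpen_nbd b isOpen_univ, isOpen_nbd b' isOpen_univ,
        ⟨C, trivial, rfl⟩, ⟨C', trivial, rfl⟩, ?_⟩
      rw [Set.disjoint_left]
      rintro _ ⟨E, hE, rfl⟩ ⟨E', hE', h⟩
      cases h
      exact hb rfl
  have hdy : ∀ (b : Bool) (C : D) (i : I), ∃ V W : Set X, IsOpen V ∧ IsOpen W ∧ d b C ∈ V ∧
      y i ∈ W ∧ Disjoint V W := by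
    intro b C i
    obtain ⟨j, hj, hji⟩ : ∃ j, j ∈ C.1 ∧ j ≠ i := by
      obtain ⟨a, b, hab, ha, hb⟩ := exists_two C
      by_cases h : a = i
      · exact ⟨b, hb, fun h' => hab (h.trans h'.symm)⟩
      · exact ⟨a, ha, h⟩
    have hjo : JOpen {i}ᶜ {C : D | j ∉ C.1} := (jopen_notMem j).mono (by
      intro k hk hk2
      rw [mem_singleton_iff] at hk hk2
      exact hji (hk ▸ hk2))
    refine ⟨d b '' {C | j ∈ C.1}, _, isOpen_nbd b (jopen_mem j).isOpen,
      isOpen_nby i (fun _ => U_notMem j) (fun _ => hjo), ⟨C, hj, rfl⟩, rfl, ?_⟩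
    rw [Set.disjoint_left]
    rintro _ ⟨E, hE, rfl⟩ hE'
    exact hE'.1 hE
  have hdq : ∀ (b : Bool) (C : D) (b' : Bool), ∃ V W : Set X, IsOpen V ∧ IsOpen W ∧ d b C ∈ V ∧
      q b' ∈ W ∧ Disjoint V W := by
    intro b C b'
    obtain ⟨j, _, _, hj, _⟩ := exists_two C
    refine ⟨d b '' {C | j ∈ C.1}, _, isOpen_nbd b (jopen_mem j).isOpen,
      isOpen_nbq b' (U_notMem j) (jopen_notMem j).isOpen, ⟨C, hj, rfl⟩, rfl, ?_⟩
    rw [Set.disjoint_left]
    rintro _ ⟨E, hE, rfl⟩ hE'
    exact hE'.2 hE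
  have htriv : ∀ i : I, JOpen {i}ᶜ (univ : Set D) :=
    fun _ _ _ => ⟨∅, finite_empty, empty_subset _, fun _ _ => trivial⟩
  have hyq : ∀ (i : I) (b : Bool), ∃ V W : Set X, IsOpen V ∧ IsOpen W ∧ y i ∈ V ∧ q b ∈ W ∧
      Disjoint V W := by
    intro i b
    refine ⟨_, _, isOpen_nby i (fun _ => univ_mem) (fun _ => htriv i),
      isOpen_nbq b (U_notMem i) (jopen_notMem i).isOpen, rfl, rfl, ?_⟩
    rw [Set.disjoint_left]
    intro x hx hx'
    cases x with
    | d b C => exact hx'.2 hx.2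
    | y j => exact hx'
    | q b => exact hx
  have hyy : ∀ (i j : I), i ≠ j → ∃ V W : Set X, IsOpen V ∧ IsOpen W ∧ y i ∈ V ∧ y j ∈ W ∧
      Disjoint V W := by
    intro i j hij
    have hjo : JOpen {i}ᶜ {C : D | j ∉ C.1} := (jopen_notMem j).mono (by
      intro k hk hk2
      rw [mem_singleton_iff] at hk hk2
      exact hij (hk2.symm.trans hk))
    refine ⟨_, _, isOpen_nby i (fun _ => U_notMem j) (fun _ => hjo),
      isOpen_nby j (fun _ => univ_mem) (fun _ => htriv j), rfl, rfl, ?_⟩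
    rw [Set.disjoint_left]
    intro x hx hx'
    cases x with
    | d b C => exact hx.1 hx'.2
    | y k => exact hij (Eq.trans (Eq.symm hx) hx')
    | q b => exact hx
  have hqq : ∀ (b b' : Bool), b ≠ b' → ∃ V W : Set X, IsOpen V ∧ IsOpen W ∧ q b ∈ V ∧ q b' ∈ W ∧
      Disjoint V W := by
    intro b b' hb
    refine ⟨_, _, isOpen_nbq b univ_mem isOpen_univ, isOpen_nbq b' univ_mem isOpen_univ, rfl, rfl, ?_⟩
    rw [Set.disjoint_left]
    intro x hx hx'
    cases x with
    | d c C => exact hb (Eq.trans (Eq.symm hx.1) hx'.1)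
    | y k => exact hx
    | q c => exact hb (Eq.trans (Eq.symm hx) hx')
  intro x x' hne
  have hsymm : ∀ {a b : X}, (∃ V W : Set X, IsOpen V ∧ IsOpen W ∧ a ∈ V ∧ b ∈ W ∧ Disjoint V W) →
      ∃ V W : Set X, IsOpen V ∧ IsOpen W ∧ b ∈ V ∧ a ∈ W ∧ Disjoint V W := by
    rintro a b ⟨V, W, h1, h2, h3, h4, h5⟩
    exact ⟨W, V, h2, h1, h4, h3, h5.symm⟩
  cases x with
  | d b C =>
    cases x' with
    | d b' C' => exact hdd b b' C C' (fun h => hne (by cases h; rfl))
    | y i => exact hdy b C i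
    | q b' => exact hdq b C b'
  | y i =>
    cases x' with
    | d b' C' => exact hsymm (hdy b' C' i)
    | y j => exact hyy i j (fun h => hne (by rw [h]))
    | q b => exact hyq i b
  | q b =>
    cases x' with
    | d b' C' => exact hsymm (hdq b' C' b)
    | y j => exact hsymm (hyq j b)
    | q b' => exact hqq b b' (fun h => hne (by rw [h]))

theorem minBdd_cocountable {W : Set X} (hW : MinBdd W) (hq : ∀ b, q b ∈ W) : Wᶜ.Countable := by
  let R : Bool → Set D := fun b => {C | d b C ∈ interior W}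
  have hRo : ∀ b, IsOpen (R b) := fun b => (isOpen_iff.mp (isOpen_interior (s := W))).1 b
  have hRU : ∀ b, R b ∈ U := by
    intro b
    rcases U_or (hRo b) with h | h
    · exact h
    · exfalso
      have h1 : q b ∈ closure (interior W) := hW.1 (hq b)
      have h2 := isOpen_nbq b h isClosed_closure.isOpen_compl
      have h3 := (mem_closure_iff.mp h1) _ h2 rfl
      obtain ⟨b', C, hC, hCW⟩ := exists_d (h2.inter isOpen_interior) h3
      obtain ⟨rfl, hC2⟩ := hC
      exact hC2 (subset_closure hCW)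
  have hJ : ∀ b, ∃ J : Set I, J.Countable ∧ JOpen J (R b) := fun b =>
    exists_countable_supp (hRo b)
  choose J hJc hJo using hJ
  have hsub : Wᶜ ⊆ (range fun z : Bool × D => d z.1 z.2) ∪ y '' (J true ∪ J false) := by
    intro x hx
    cases x with
    | d b C => exact Or.inl ⟨(b, C), rfl⟩
    | q b => exact absurd (hq b) hx
    | y i =>
      right
      refine ⟨i, ?_, rfl⟩
      by_contra hi
      have hij : ∀ b, i ∉ J b := by
        intro b hb
        cases b with
        | true => exact hi (Or.inl hb)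
        | false => exact hi (Or.inr hb)
      have hJo' : ∀ b, JOpen {i}ᶜ (R b) := fun b => (hJo b).mono (by
        intro j hj hji
        rw [mem_singleton_iff] at hji
        exact hij b (hji ▸ hj))
      apply hx
      apply hW.2
      rw [mem_interior]
      refine ⟨_, ?_, isOpen_nby i hRU hJo', rfl⟩
      intro x hx2
      cases x with
      | d b C => exact subset_closure (interior_subset hx2.1)
      | q b => exact absurd hx2 (by simp)
      | y j =>
        obtain rfl : j = i := hx2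
        rw [mem_closure_iff]
        intro G hG hyG
        obtain ⟨R', hR', hR2', hR3'⟩ := (isOpen_iff.mp hG).2.1 j hyG
        obtain ⟨C, hC, hiC⟩ := meet_mem (hR2'.inter (hJo' true))
          (U_nonempty (inter_mem hR' (hRU true)))
        exact ⟨d true C, hR3' true C hC.1 hiC, interior_subset hC.2⟩
  exact ((countable_range _).union (((hJc true).union (hJc false)).image y)).mono hsub

theorem sOneIdx : SOneIdx X := by
  classical
  intro 𝒰 h𝒰
  have h1 : ∀ z : Finset X × ℕ, ∃ V ∈ 𝒰 z.2, ((z.1 : Set X) ∪ range q) ⊆ V := fun z =>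
    (h𝒰 z.2).2 _ (z.1.finite_toSet.union (finite_range q))
  choose V hV hVs using h1
  obtain ⟨S, hS0, hSc, hS⟩ := exists_countable_closed
    (fun F => ⋃ n : ℕ, (V (F, n))ᶜ)
    (fun F => countable_iUnion (fun n => minBdd_cocountable ((h𝒰 n).1 _ (hV (F, n)))
      (fun b => hVs (F, n) (Or.inr (mem_range_self b)))))
    (range q) (countable_range q)
  obtain ⟨e, he⟩ := hSc.exists_eq_range ⟨q true, hS0 (mem_range_self _)⟩
  let Fn : ℕ → Finset X := fun n => (Finset.range (n + 1)).image e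
  have hFn : ∀ n, (Fn n : Set X) ⊆ S := by
    intro n x hx
    simp only [Fn, Finset.mem_coe, Finset.mem_image] at hx
    obtain ⟨k, _, rfl⟩ := hx
    rw [he]; exact mem_range_self k
  refine ⟨fun n => V (Fn n, n), fun n => hV (Fn n, n), ?_⟩
  intro x
  by_cases hx : x ∈ S
  · rw [he] at hx
    obtain ⟨k, rfl⟩ := hx
    refine (finite_lt_nat k).subset ?_
    intro n hn
    by_contra hno
    have hno' : k ≤ n := not_lt.mp hno
    apply hn
    apply hVs (Fn n, n)
    left
    simp only [Fn, Finset.mem_coe, Finset.mem_image, Finset.mem_range]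
    exact ⟨k, by omega, rfl⟩
  · have : {n | x ∉ V (Fn n, n)} = ∅ := by
      rw [eq_empty_iff_forall_notMem]
      intro n hn
      exact hx (hS (Fn n) (hFn n) (mem_iUnion.mpr ⟨n, hn⟩))
    rw [this]
    exact finite_empty

/-- The value on the two open halves. -/
def val (b : Bool) : ℝ := if b then 1 else 0

/-- The functions with values `v i` at the points `y i`. -/
def fn (v : I → Bool) : X → ℝ := fun x => match x with
  | d b _ => val b
  | y i => val (v i)
  | q b => val b

theorem quasiCont_fn (v : I → Bool) : QuasiCont (fn v) := by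
  apply quasiCont_of_small
  intro x G hG hx ε hε
  have key : ∀ b : Bool, (∃ C, d b C ∈ G) → fn v x = val b →
      ∃ W : Set X, IsOpen W ∧ W.Nonempty ∧ W ⊆ G ∧ ∀ z ∈ W, |fn v z - fn v x| < ε := by
    rintro b ⟨C, hC⟩ hv
    refine ⟨d b '' univ ∩ G, (isOpen_nbd b isOpen_univ).inter hG, ⟨d b C, ⟨C, trivial, rfl⟩, hC⟩,
      inter_subset_right, ?_⟩
    rintro _ ⟨⟨C', _, rfl⟩, _⟩
    rw [hv]
    change |val b - val b| < ε
    simpa using hε
  cases x with
  | d b C => exact key b ⟨C, hx⟩ rfl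
  | q b =>
    obtain ⟨R, hR, hR2, hR3⟩ := (isOpen_iff.mp hG).2.2 b hx
    obtain ⟨C, hC⟩ := U_nonempty hR
    exact key b ⟨C, hR3 C hC⟩ rfl
  | y i =>
    obtain ⟨R, hR, hR2, hR3⟩ := (isOpen_iff.mp hG).2.1 i hx
    obtain ⟨C, hC, hi⟩ := meet_mem hR2 (U_nonempty hR)
    exact key (v i) ⟨C, hR3 (v i) C hC hi⟩ rfl

theorem not_fu : ∃ f : Qp X, ¬ FUAt f := by
  classical
  refine ⟨⟨fn (fun _ => true), quasiCont_fn _⟩, ?_⟩
  intro h
  let g : Finset I → Qp X := fun F => ⟨fn (fun i => decide (i ∈ F)), quasiCont_fn _⟩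
  obtain ⟨u, hu, hlim⟩ := h (range g) (by
    apply mem_closure_of_approx
    intro F hF
    have hfin : (y ⁻¹' F).Finite := hF.preimage (by
      intro a _ b _ hab
      cases hab
      rfl)
    refine ⟨g hfin.toFinset, mem_range_self _, ?_⟩
    intro x hx
    cases x with
    | d b C => rfl
    | q b => rfl
    | y i =>
      change val (decide (i ∈ hfin.toFinset)) = val true
      have : i ∈ hfin.toFinset := by
        rw [Set.Finite.mem_toFinset]
        exact hx
      simp [this])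
  choose F hF using hu
  have h1 : ∀ i : I, ∃ n, i ∈ F n := by
    intro i
    have h2 := pointwise_of_tendsto hlim (y i)
    have h3 : ∀ᶠ n in atTop, (1 / 2 : ℝ) < (u n).1 (y i) := by
      apply h2.eventually
      apply eventually_gt_nhds
      change (1 / 2 : ℝ) < val true
      norm_num [val]
    obtain ⟨n, hn⟩ := h3.exists
    refine ⟨n, ?_⟩
    by_contra hno
    rw [← hF n] at hn
    change (1 / 2 : ℝ) < val (decide (i ∈ F n)) at hn
    rw [decide_eq_false hno] at hn
    norm_num [val] at hn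
  have h2 : (univ : Set I).Countable := by
    have h3 : (univ : Set I) = ⋃ n, (F n : Set I) := by
      symm
      rw [eq_univ_iff_forall]
      intro i
      exact mem_iUnion.mpr (h1 i)
    rw [h3]
    exact countable_iUnion (fun n => (F n).countable_toSet)
  obtain ⟨f, hf⟩ := h2.exists_eq_range ⟨fun _ => true, trivial⟩
  have h4 : (fun n => !(f n n)) ∈ range f := by rw [← hf]; trivial
  obtain ⟨n, hn⟩ := h4
  have h3 := congrFun hn n
  cases hh : f n n <;> simp [hh] at h3

end Pool.Agent.Q147.QTwo
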