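import Mathlib

/-!
# Reflexive precompact groups and their continuous images
-/

noncomputable section

namespace Pool.Agent.Q147.Reflexive

open Set Topology Filter

/-- The circle group `ℝ/ℤ`. -/
abbrev T : Type := AddCircle (1 : ℝ)

/-- The dual group: continuous characters with the compact-open topology. -/
abbrev Dual (G : Type*) [AddCommGroup G] [TopologicalSpace G] : Type _ := G →ₜ+ T

/-- The evaluation map `α_G : G → G^∧∧`, `α_G(g)(χ) = χ(g)`. -/
def alpha (G : Type*) [AddCommGroup G] [TopologicalSpace G] (g : G) : Dual (Dual G) where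
  toFun χ := χ g
  map_zero' := rfl
  map_add' _ _ := rfl
  continuous_toFun := by exact continuous_eval_const g

/-- `G` is reflexive if `α_G` is a topological isomorphism onto `G^∧∧` (it is always a
homomorphism). -/
def IsReflexive (G : Type*) [AddCommGroup G] [TopologicalSpace G] : Prop :=
  IsHomeomorph (alpha G)

/-- `G` is precompact: for every neighbourhood `U` of `0` there is a finite set `F ⊆ G` with
`F + U = G`. -/
def Precompact (G : Type*) [AddCommGroup G] [TopologicalSpace G] : Prop :=
  ∀ U ∈ 𝓝 (0 : G), ∃ F : Set G, F.Finite ∧ ∀ g : G, ∃ a ∈ F, ∃ u ∈ U, g = a + u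

/-- The topology induced by a homomorphism to a compact group is precompact. -/
theorem precompact_of_isInducing {H K : Type*} [AddCommGroup H] [TopologicalSpace H]
    [AddCommGroup K] [TopologicalSpace K] [IsTopologicalAddGroup K] [CompactSpace K]
    (f : H →+ K) (hf : IsInducing f) : Precompact H := by
  intro U hU
  rw [hf.nhds_eq_comap, map_zero] at hU
  obtain ⟨V, hV, hVU⟩ := mem_comap.1 hU
  obtain ⟨W, hW, hWV⟩ := exists_nhds_half_neg hV
  -- cover `K` by finitely many translates of `W`
  have hcov : ∃ F : Set K, F.Finite ∧ ∀ y : K, ∃ k ∈ F, y - k ∈ W := by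
    obtain ⟨O, hOW, hO, h0⟩ := mem_nhds_iff.1 hW
    have h1 : (univ : Set K) ⊆ ⋃ k : K, (fun y => y - k) ⁻¹' O := by
      intro y _
      exact Set.mem_iUnion.2 ⟨y, by simpa using h0⟩
    obtain ⟨t, ht⟩ := isCompact_univ.elim_finite_subcover _
      (fun k => hO.preimage (continuous_id.sub continuous_const)) h1
    refine ⟨t, t.finite_toSet, fun y => ?_⟩
    obtain ⟨k, hk, hy⟩ := Set.mem_iUnion₂.1 (ht (Set.mem_univ y))
    exact ⟨k, hk, hOW hy⟩
  obtain ⟨F, hF, hcov⟩ := hcov
  classical
  have hch : ∀ k : K, ∃ h : H, (∃ h' : H, f h' - k ∈ W) → f h - k ∈ W := by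
    intro k
    by_cases hk : ∃ h' : H, f h' - k ∈ W
    · obtain ⟨h', h1⟩ := hk
      exact ⟨h', fun _ => h1⟩
    · exact ⟨0, fun h1 => absurd h1 hk⟩
  choose c hc using hch
  refine ⟨c '' F, hF.image c, fun g => ?_⟩
  obtain ⟨k, hk, hg⟩ := hcov (f g)
  refine ⟨c k, ⟨k, hk, rfl⟩, g - c k, ?_, by abel⟩
  apply hVU
  change f (g - c k) ∈ V
  have h1 := hWV _ hg _ (hc k ⟨g, hg⟩)
  rw [map_sub]
  have h2 : f g - k - (f (c k) - k) = f g - f (c k) := by abel
  rwa [← h2]

/-- The polar of a compact set is open. -/
theorem isOpen_polar {A : Type*} [AddCommGroup A] [TopologicalSpace A] (K : Set A)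
    (hK : IsCompact K) : IsOpen {Φ : Dual A | ∀ a ∈ K, ‖Φ a‖ < 1 / 4} := by
  have h1 := ContinuousMap.isOpen_setOfPred_mapsTo hK
    (Metric.isOpen_ball (x := (0 : T)) (ε := 1 / 4))
  have h2 := h1.preimage (ContinuousAddMonoidHom.isInducing_toContinuousMap A T).continuous
  have h3 : {Φ : Dual A | ∀ a ∈ K, ‖Φ a‖ < 1 / 4} =
      ContinuousAddMonoidHom.toContinuousMap ⁻¹'
        {f : C(A, T) | MapsTo f K (Metric.ball (0 : T) (1 / 4))} := by
    ext Φ
    constructor
    · intro h a ha
      rw [mem_ball_zero_iff]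
      exact h a ha
    · intro h a ha
      have := h ha
      rwa [mem_ball_zero_iff] at this
  rw [h3]
  exact h2

/-- If `α_G` is continuous then the polar in `G` of a compact set of characters is a
neighbourhood of `0`. -/
theorem polar_mem_nhds {G : Type*} [AddCommGroup G] [TopologicalSpace G]
    (hα : Continuous (alpha G)) (K : Set (Dual G)) (hK : IsCompact K) :
    {g : G | ∀ χ ∈ K, ‖χ g‖ < 1 / 4} ∈ 𝓝 (0 : G) := by
  have h1 : IsOpen {g : G | ∀ χ ∈ K, ‖alpha G g χ‖ < 1 / 4} :=
    (isOpen_polar K hK).preimage hα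
  have h2 : {g : G | ∀ χ ∈ K, ‖χ g‖ < 1 / 4} = {g : G | ∀ χ ∈ K, ‖alpha G g χ‖ < 1 / 4} := rfl
  rw [h2]
  refine h1.mem_nhds ?_
  intro χ _
  have h3 : alpha G 0 χ = 0 := map_zero χ
  rw [h3, norm_zero]
  norm_num

/-- If `G` is precompact with `α_G` continuous and `π : G → H` is a continuous surjective
homomorphism then the polars of compact subsets of `H^∧` are big. -/
theorem big_polar {G H : Type*} [AddCommGroup G] [TopologicalSpace G] [AddCommGroup H]
    [TopologicalSpace H] (hG : Precompact G) (hα : Continuous (alpha G)) (π : G →ₜ+ H)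
    (hπ : Function.Surjective π) (K : Set (Dual H)) (hK : IsCompact K) :
    ∃ F : Set H, F.Finite ∧ ∀ h : H, ∃ a ∈ F, ∀ χ ∈ K, ‖χ (h - a)‖ < 1 / 4 := by
  have hK' : IsCompact ((fun χ : Dual H => χ.comp π) '' K) :=
    hK.image (ContinuousAddMonoidHom.continuous_comp_left π)
  obtain ⟨F, hF, hcov⟩ := hG _ (polar_mem_nhds hα _ hK')
  refine ⟨π '' F, hF.image π, fun h => ?_⟩
  obtain ⟨g, rfl⟩ := hπ h
  obtain ⟨a, ha, u, hu, rfl⟩ := hcov g
  refine ⟨π a, ⟨a, ha, rfl⟩, fun χ hχ => ?_⟩
  have h1 : ‖χ (π u)‖ < 1 / 4 := hu (χ.comp π) ⟨χ, hχ, rfl⟩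
  have h2 : π (a + u) - π a = π u := by rw [map_add]; abel
  rw [h2]
  exact h1

/-- If compact subsets of `H` are finite, then a pointwise continuous family of characters is
continuous for the compact-open topology. -/
theorem continuous_of_finite_compacts {H X : Type*} [AddCommGroup H] [TopologicalSpace H]
    [TopologicalSpace X] (hfin : ∀ C : Set H, IsCompact C → C.Finite) (b : X → Dual H)
    (hb : ∀ h : H, Continuous fun x => b x h) : Continuous b := by
  rw [(ContinuousAddMonoidHom.isInducing_toContinuousMap _ _).continuous_iff,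
    ContinuousMap.continuous_compactOpen]
  intro C hC U hU
  have : {x : X | MapsTo ((ContinuousAddMonoidHom.toContinuousMap ∘ b) x) C U} =
      ⋂ h ∈ C, {x | b x h ∈ U} := by
    ext x
    simp only [Set.mem_iInter]
    rfl
  rw [this]
  exact (hfin C hC).isOpen_biInter fun h _ => hU.preimage (hb h)

/-- The main obstruction. -/
theorem no_surjection {G H X : Type*} [AddCommGroup G] [TopologicalSpace G] [AddCommGroup H]
    [TopologicalSpace H] [TopologicalSpace X] [CompactSpace X] [Infinite H]
    (hfin : ∀ C : Set H, IsCompact C → C.Finite) (b : X → Dual H)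
    (hb : ∀ h : H, Continuous fun x => b x h)
    (hsep : ∀ h : H, (∀ x, ‖b x h‖ < 1 / 4) → h = 0)
    (hG : Precompact G) (hα : Continuous (alpha G)) (π : G →ₜ+ H)
    (hπ : Function.Surjective π) : False := by
  have hc := continuous_of_finite_compacts hfin b hb
  obtain ⟨F, hF, hcov⟩ := big_polar hG hα π hπ (Set.range b) (isCompact_range hc)
  have h1 : (univ : Set H) ⊆ F := by
    intro h _
    obtain ⟨a, ha, h2⟩ := hcov h
    have h3 := hsep (h - a) fun x => h2 _ ⟨x, rfl⟩
    rw [sub_eq_zero.1 h3]
    exact ha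
  exact Set.infinite_univ (hF.subset h1)

/-- In a space which is injected continuously into a metrizable space, without nontrivial
convergent sequences, compact sets are finite. -/
theorem finite_of_isCompact {H M : Type*} [TopologicalSpace H] [TopologicalSpace M]
    [TopologicalSpace.MetrizableSpace M] (f : H → M) (hf : Continuous f)
    (hinj : Function.Injective f)
    (hseq : ∀ (c : ℕ → H) (a : H), Function.Injective c → Tendsto c atTop (𝓝 a) → False)
    (C : Set H) (hC : IsCompact C) : C.Finite := by
  by_contra hinf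
  have hinf' : C.Infinite := hinf
  have hCs : CompactSpace C := isCompact_iff_compactSpace.1 hC
  have hemb : IsClosedEmbedding (fun x : C => f x) :=
    (hf.comp continuous_subtype_val).isClosedEmbedding
      (hinj.comp Subtype.val_injective)
  have hfc : FirstCountableTopology C := by
    have : TopologicalSpace.MetrizableSpace C := hemb.isEmbedding.metrizableSpace
    infer_instance
  let c : ℕ → C := hinf'.natEmbedding C
  have hcinj : Function.Injective c := (hinf'.natEmbedding C).injective
  obtain ⟨a, φ, hφ, hlim⟩ := CompactSpace.tendsto_subseq c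
  refine hseq (fun n => (c (φ n) : H)) a ?_ ?_
  · intro m n h
    exact hφ.injective (hcinj (Subtype.ext h))
  · exact (continuous_subtype_val.tendsto a).comp hlim

/-! ### The integers with the Bohr topology -/

/-- The group `ℤ` with its Bohr topology. -/
def ZB : Type := ℤ

instance : AddCommGroup ZB := inferInstanceAs (AddCommGroup ℤ)
instance : Infinite ZB := inferInstanceAs (Infinite ℤ)

/-- The homomorphism `n ↦ (θ ↦ n θ)`. -/
def zhom : ZB →+ (T → T) where
  toFun n := fun θ => (show ℤ from n) • θ
  map_zero' := by ext θ; exact zero_zsmul θ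
  map_add' _ _ := by ext θ; exact add_zsmul θ _ _

/-- The Bohr topology: the coarsest topology for which all characters of `ℤ` are continuous. -/
instance : TopologicalSpace ZB := TopologicalSpace.induced zhom inferInstance

instance : IsTopologicalAddGroup ZB := topologicalAddGroup_induced zhom

/-- The character `n ↦ n θ`. -/
def zchar (θ : T) : Dual ZB where
  toFun n := (show ℤ from n) • θ
  map_zero' := zero_zsmul θ
  map_add' _ _ := add_zsmul θ _ _
  continuous_toFun := (continuous_apply θ).comp (continuous_induced_dom (f := zhom))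

theorem zchar_sep (n : ZB) (h : ∀ θ, ‖zchar θ n‖ < 1 / 4) : n = 0 := by
  by_contra hne
  have hn : ((show ℤ from n) : ℝ) ≠ 0 := by
    intro h0
    have h1 : (show ℤ from n) = 0 := Int.cast_eq_zero.1 h0
    exact hne h1
  have h1 := h ((1 / (2 * ((show ℤ from n) : ℝ)) : ℝ) : T)
  have h2 : zchar ((1 / (2 * ((show ℤ from n) : ℝ)) : ℝ) : T) n = ((1 / 2 : ℝ) : T) := by
    change (show ℤ from n) • ((1 / (2 * ((show ℤ from n) : ℝ)) : ℝ) : T) = _
    rw [← AddCircle.coe_zsmul, zsmul_eq_mul]
    congr 1
    field_simp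
  rw [h2, AddCircle.norm_eq] at h1
  have h6 : round ((1 : ℝ)⁻¹ * (1 / 2)) = 1 := by
    rw [inv_one, one_mul, round_eq, Int.floor_eq_iff]
    norm_num
  rw [h6] at h1
  norm_num at h1

theorem zhom_injective : Function.Injective zhom := by
  rw [injective_iff_map_eq_zero]
  intro n hn
  apply zchar_sep
  intro θ
  have : zchar θ n = 0 := congrFun hn θ
  rw [this, norm_zero]; norm_num

instance : T2Space ZB := T2Space.of_injective_continuous zhom_injective continuous_induced_dom

theorem precompact_ZB : Precompact ZB :=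
  precompact_of_isInducing zhom ⟨rfl⟩

/-- No nontrivial convergent sequences in the Bohr topology of `ℤ`. -/
theorem ZB_no_seq (c : ℕ → ZB) (a : ZB) (hc : Function.Injective c)
    (hlim : Tendsto c atTop (𝓝 a)) : False := by
  -- pass to `d n = c n - a → 0`
  have h1 : Tendsto (fun n => c n - a) atTop (𝓝 0) := by
    have := hlim.sub_const a
    rwa [sub_self] at this
  have h2 : ∀ θ : T, Tendsto (fun n => zchar θ (c n - a)) atTop (𝓝 0) := by
    intro θ
    have := ((zchar θ).continuous_toFun.tendsto 0).comp h1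
    have h0 : (zchar θ).toFun 0 = 0 := map_zero (zchar θ)
    rw [h0] at this
    exact this
  -- integrate
  have hne : ∀ᶠ n in atTop, c n - a ≠ 0 := by
    by_cases hex : ∃ m, c m = a
    · obtain ⟨m, hm⟩ := hex
      filter_upwards [eventually_gt_atTop m] with n hn h0
      have : c n = c m := by rw [hm]; exact sub_eq_zero.1 h0
      exact absurd (hc this) (by omega)
    · exact Filter.Eventually.of_forall fun n h0 => hex ⟨n, sub_eq_zero.1 h0⟩
  have hfact : Fact ((0 : ℝ) < 1) := ⟨one_pos⟩
  have hF : ∀ (n : ℕ) (θ : T), fourier (T := 1) (show ℤ from (c n - a)) θ =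
      ((AddCircle.toCircle (zchar θ (c n - a)) : Circle) : ℂ) := fun n θ => by
    rw [fourier_apply]; rfl
  have h3 : Tendsto (fun n => ∫ θ : T, fourier (T := 1) (show ℤ from (c n - a)) θ
      ∂AddCircle.haarAddCircle) atTop (𝓝 (∫ _ : T, (1 : ℂ) ∂AddCircle.haarAddCircle)) := by
    refine MeasureTheory.tendsto_integral_of_dominated_convergence (fun _ => (1 : ℝ)) ?_ ?_ ?_ ?_
    · intro n
      exact (fourier (T := 1) (show ℤ from (c n - a))).continuous.aestronglyMeasurable
    · exact MeasureTheory.integrable_const _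
    · intro n
      filter_upwards with θ
      rw [hF]
      simp
    · filter_upwards with θ
      have h4 : Continuous fun t : T => ((AddCircle.toCircle t : Circle) : ℂ) :=
        continuous_subtype_val.comp AddCircle.continuous_toCircle
      have h5 := (h4.tendsto 0).comp (h2 θ)
      rw [AddCircle.toCircle_zero] at h5
      simp only [hF]
      exact h5
  have h6 : ∀ᶠ n in atTop, ∫ θ : T, fourier (T := 1) (show ℤ from (c n - a)) θ
      ∂AddCircle.haarAddCircle = 0 := by
    filter_upwards [hne] with n hn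
    exact MeasureTheory.integral_eq_zero_of_add_right_eq_neg (μ := AddCircle.haarAddCircle)
      (fourier_add_half_inv_index (show (show ℤ from (c n - a)) ≠ 0 from hn) hfact.elim)
  have h8 : Tendsto (fun n => ∫ θ : T, fourier (T := 1) (show ℤ from (c n - a)) θ
      ∂AddCircle.haarAddCircle) atTop (𝓝 0) :=
    tendsto_const_nhds.congr' (h6.mono fun n hn => hn.symm)
  have h9 := tendsto_nhds_unique h3 h8
  simp at h9

theorem ZB_compact_finite (C : Set ZB) (hC : IsCompact C) : C.Finite := by
  -- inject by an irrational rotation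
  refine finite_of_isCompact (M := T) (fun n => zchar ((Real.sqrt 2 : ℝ) : T) n) ?_ ?_
    ZB_no_seq C hC
  · exact (zchar _).continuous_toFun
  · intro m n h
    have h1 : zchar ((Real.sqrt 2 : ℝ) : T) (m - n) = 0 := by
      rw [map_sub]; exact sub_eq_zero.2 h
    have h2 : (((show ℤ from m - n) : ℝ) * Real.sqrt 2 : ℝ) ∈ Set.range fun k : ℤ => (k : ℝ) := by
      have h3 : (((show ℤ from m - n) : ℝ) * Real.sqrt 2 : ℝ) = (show ℤ from m - n) • Real.sqrt 2 :=
        by rw [zsmul_eq_mul]
      have h4 : ((((show ℤ from m - n) : ℝ) * Real.sqrt 2 : ℝ) : T) = 0 := by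
        rw [h3, AddCircle.coe_zsmul]; exact h1
      rw [AddCircle.coe_eq_zero_iff] at h4
      obtain ⟨k, hk⟩ := h4
      exact ⟨k, by simpa using hk⟩
    obtain ⟨k, hk⟩ := h2
    by_contra hne
    have h5 : (show ℤ from m - n) ≠ 0 := fun h => hne (sub_eq_zero.1 h)
    have h6 : Irrational (((show ℤ from m - n) : ℝ) * Real.sqrt 2) :=
      irrational_sqrt_two.intCast_mul h5
    exact h6 ⟨k, by simpa using hk⟩

/-- No precompact abelian group with continuous `α_G` admits a continuous homomorphism onto `ℤ`
with the Bohr topology. -/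
theorem ZB_no_surjection {G : Type*} [AddCommGroup G] [TopologicalSpace G] (hG : Precompact G)
    (hα : Continuous (alpha G)) (π : G →ₜ+ ZB) (hπ : Function.Surjective π) : False :=
  no_surjection ZB_compact_finite zchar (fun n => by
    change Continuous fun θ : T => (show ℤ from n) • θ
    exact continuous_zsmul _) zchar_sep hG hα π hπ

end Pool.Agent.Q147.Reflexive
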