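import Mathlib

set_option autoImplicit false

/-!
# Finitely many zero-dimensional metrizable extensions force finite covering dimension
-/

open Set Topology

namespace Pool.Agent.Q147.SNum

universe u v w

/-- Every open cover of `X` indexed by `ι` can be shrunk to an open cover such that every point
lies in at most `n + 1` of its members. -/
def Shrinks {X : Type u} (τ : TopologicalSpace X) (ι : Type v) (n : ℕ) : Prop :=
  ∀ U : ι → Set X, (∀ i, IsOpen[τ] (U i)) → (⋃ i, U i) = univ →
    ∃ W : ι → Set X, (∀ i, IsOpen[τ] (W i)) ∧ (∀ i, W i ⊆ U i) ∧ (⋃ i, W i) = univ ∧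
      ∀ x, {i | x ∈ W i}.encard ≤ n + 1

/-- In a metrizable space whose topology is the intersection of finer topologies, a set which is a
neighbourhood of `x` for each of the finer topologies is a neighbourhood of `x`. -/
theorem mem_nhds_of_forall {X : Type u} [τ : TopologicalSpace X] [TopologicalSpace.MetrizableSpace X]
    {N : Type w} (σ : N → TopologicalSpace X) (hσ : ∀ i, σ i ≤ τ)
    (hτ : ∀ U : Set X, (∀ i, IsOpen[σ i] U) → IsOpen U) (x : X) (V : Set X) (hx : x ∈ V)
    (hV : ∀ i, V ∈ @nhds X (σ i) x) : V ∈ 𝓝 x := by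
  by_contra hcon
  have h1 : x ∈ closure Vᶜ := by
    rw [mem_closure_iff_nhds]
    intro t ht
    by_contra h2
    apply hcon
    refine Filter.mem_of_superset ht ?_
    intro y hy
    by_contra h3
    exact h2 ⟨y, hy, h3⟩
  obtain ⟨s, hs, hs'⟩ := mem_closure_iff_seq_limit.1 h1
  have hc : IsCompact (insert x (range s)) := hs'.isCompact_insert_range
  have hcl : IsClosed (insert x (range s)) := hc.isClosed
  have h4 : IsOpen (range s)ᶜ := by
    apply hτ
    intro i
    rw [@isOpen_iff_mem_nhds X (σ i)]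
    intro y hy
    by_cases hyx : y = x
    · subst hyx
      refine Filter.mem_of_superset (hV i) ?_
      rintro z hz ⟨k, rfl⟩
      exact hs k hz
    · have h5 : (insert x (range s))ᶜ ∈ 𝓝 y := hcl.isOpen_compl.mem_nhds (by
        simp only [mem_compl_iff, mem_insert_iff, not_or]
        exact ⟨hyx, hy⟩)
      have h6 : (insert x (range s))ᶜ ∈ @nhds X (σ i) y := nhds_mono (hσ i) h5
      refine Filter.mem_of_superset h6 ?_
      intro z hz hz'
      exact hz (mem_insert_of_mem _ hz')
  have hxs : x ∈ (range s)ᶜ := by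
    rintro ⟨k, hk⟩
    exact hs k (hk ▸ hx)
  obtain ⟨k, hk⟩ := (hs'.eventually (h4.mem_nhds hxs)).exists
  exact hk ⟨k, rfl⟩

/-- the number of the points in a chain -/
def hh : ℕ → ℕ
  | 0 => 1
  | (l + 1) => 1 + (l + 1) * hh l

theorem hh_le (l : ℕ) : hh l ≤ (l + 1).factorial := by
  induction l with
  | zero => simp [hh]
  | succ l ih =>
    have h1 : hh (l + 1) = 1 + (l + 1) * hh l := rfl
    have h2 : (l + 1) * hh l ≤ (l + 1) * (l + 1).factorial := Nat.mul_le_mul_left _ ih
    have h3 : (l + 1 + 1).factorial = (l + 1) * (l + 1).factorial + (l + 1).factorial := by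
      rw [Nat.factorial_succ (l + 1)]
      ring
    have h4 : 1 ≤ (l + 1).factorial := Nat.factorial_pos _
    omega

theorem hh_pos (l : ℕ) : 1 ≤ hh l := by
  cases l with
  | zero => exact le_rfl
  | succ l => exact Nat.le_add_right _ _

/-- The last point of a chain and its witness. -/
theorem last_point {X : Type u} [MetricSpace X] {N : Type w} [DecidableEq N] {ι : Type v}
    (P : N → X → ι) (I : Finset N) (a : N) (ε : X → ℝ) (z : X)
    (S : Set X) (hS : ∀ x ∈ S, dist z x < ε x)
    (hI1 : ∀ x ∈ S, ∀ y, dist y x < 2 * ε x → ∃ i ∈ I, P i y = P i x)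
    (hI2 : ∀ x ∈ S, {y | ∃ i ∈ I.erase a, P i y = P i x} ∉ 𝓝 x)
    (hinj : ∀ x ∈ S, ∀ y ∈ S, x ≠ y → P a x ≠ P a y)
    (L : Finset N) (A : Finset X) (hA : (A : Set X) ⊆ S) (hne : A.Nonempty)
    (hk : ∀ k ∈ I.erase a \ L, ∀ x ∈ A, ∀ y ∈ A, P k x = P k y) :
    ∃ b ∈ A, ∃ w : X, ∀ x ∈ A, x ≠ b → ∃ i ∈ L, P i x = P i w := by
  obtain ⟨b, hb, hmin⟩ := Finset.exists_min_image A ε hne
  refine ⟨b, hb, ?_⟩
  have h1 : ∀ᶠ y in 𝓝 b, ∀ x ∈ A, dist y x < 2 * ε x := by
    rw [Finset.eventually_all]
    intro x hx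
    have h2 : dist b x < 2 * ε x := by
      have h3 := hS b (hA hb)
      have h4 := hS x (hA hx)
      have h5 := hmin x hx
      have h6 := dist_triangle_left b x z
      linarith
    exact (continuous_id.dist continuous_const).tendsto b |>.eventually (gt_mem_nhds h2)
  have h2 : ∃ᶠ y in 𝓝 b, ¬ ∃ i ∈ I.erase a, P i y = P i b := by
    intro h3
    apply hI2 b (hA hb)
    refine Filter.mem_of_superset h3 ?_
    intro y hy
    exact not_not.1 hy
  obtain ⟨w, hw1, hw2⟩ := (h2.and_eventually h1).exists
  refine ⟨w, fun x hx hxb => ?_⟩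
  have hwb : P a w = P a b := by
    obtain ⟨i, hi, hi'⟩ := hI1 b (hA hb) w (hw2 b hb)
    by_cases hia : i = a
    · rw [← hia]
      exact hi'
    · exact absurd ⟨i, Finset.mem_erase.2 ⟨hia, hi⟩, hi'⟩ hw1
  obtain ⟨i, hi, hi'⟩ := hI1 x (hA hx) w (hw2 x hx)
  have hia : i ≠ a := by
    rintro rfl
    exact hinj x (hA hx) b (hA hb) hxb (hi'.symm.trans hwb)
  refine ⟨i, ?_, hi'.symm⟩
  by_contra hiL
  apply hw1
  refine ⟨i, Finset.mem_erase.2 ⟨hia, hi⟩, ?_⟩
  rw [hi']
  exact hk i (Finset.mem_sdiff.2 ⟨Finset.mem_erase.2 ⟨hia, hi⟩, hiL⟩) x hx b hb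

/-- The chain lemma. -/
theorem chain {X : Type u} [MetricSpace X] {N : Type w} [DecidableEq N] {ι : Type v}
    (P : N → X → ι) (I : Finset N) (a : N) (ε : X → ℝ) (z : X)
    (S : Set X) (hS : ∀ x ∈ S, dist z x < ε x)
    (hI1 : ∀ x ∈ S, ∀ y, dist y x < 2 * ε x → ∃ i ∈ I, P i y = P i x)
    (hI2 : ∀ x ∈ S, {y | ∃ i ∈ I.erase a, P i y = P i x} ∉ 𝓝 x)
    (hinj : ∀ x ∈ S, ∀ y ∈ S, x ≠ y → P a x ≠ P a y) :
    ∀ (l : ℕ) (L : Finset N), L.card = l → ∀ A : Finset X, (A : Set X) ⊆ S →
      (∀ k ∈ I.erase a \ L, ∀ x ∈ A, ∀ y ∈ A, P k x = P k y) → A.card ≤ hh l := by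
  classical
  intro l
  induction l with
  | zero =>
    intro L hl A hA hk
    rcases A.eq_empty_or_nonempty with rfl | hne
    · simp
    obtain ⟨b, hb, w, hw⟩ := last_point P I a ε z S hS hI1 hI2 hinj L A hA hne hk
    rw [Finset.card_eq_zero] at hl
    have : A ⊆ {b} := by
      intro x hx
      rw [Finset.mem_singleton]
      by_contra hxb
      obtain ⟨i, hi, -⟩ := hw x hx hxb
      simp [hl] at hi
    calc A.card ≤ ({b} : Finset X).card := Finset.card_le_card this
      _ = hh 0 := by simp [hh]
  | succ l ih =>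
    intro L hl A hA hk
    rcases A.eq_empty_or_nonempty with rfl | hne
    · simp
    obtain ⟨b, hb, w, hw⟩ := last_point P I a ε z S hS hI1 hI2 hinj L A hA hne hk
    have h1 : A ⊆ insert b (L.biUnion fun i => A.filter fun x => P i x = P i w) := by
      intro x hx
      rw [Finset.mem_insert]
      by_cases hxb : x = b
      · exact Or.inl hxb
      · right
        obtain ⟨i, hi, hi'⟩ := hw x hx hxb
        rw [Finset.mem_biUnion]
        exact ⟨i, hi, Finset.mem_filter.2 ⟨hx, hi'⟩⟩
    have h2 : ∀ i ∈ L, (A.filter fun x => P i x = P i w).card ≤ hh l := by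
      intro i hi
      refine ih (L.erase i) ?_ _ ?_ ?_
      · rw [Finset.card_erase_of_mem hi, hl]
        rfl
      · intro x hx
        exact hA (Finset.mem_of_mem_filter x hx)
      · intro k hk' x hx y hy
        rw [Finset.mem_filter] at hx hy
        by_cases hki : k = i
        · rw [hki, hx.2, hy.2]
        · refine hk k ?_ x hx.1 y hy.1
          rw [Finset.mem_sdiff] at hk' ⊢
          refine ⟨hk'.1, fun h => hk'.2 (Finset.mem_erase.2 ⟨hki, h⟩)⟩
    calc A.card ≤ (insert b (L.biUnion fun i => A.filter fun x => P i x = P i w)).card :=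
          Finset.card_le_card h1
      _ ≤ (L.biUnion fun i => A.filter fun x => P i x = P i w).card + 1 := Finset.card_insert_le _ _
      _ ≤ (∑ i ∈ L, (A.filter fun x => P i x = P i w).card) + 1 := by
          gcongr
          exact Finset.card_biUnion_le
      _ ≤ L.card • hh l + 1 := by
          gcongr
          exact Finset.sum_le_card_nsmul _ _ _ h2
      _ = hh (l + 1) := by
          rw [hl, smul_eq_mul]
          show (l + 1) * hh l + 1 = 1 + (l + 1) * hh l
          ring

/-- The main theorem. -/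
theorem main {X : Type u} [τ : TopologicalSpace X] [TopologicalSpace.MetrizableSpace X]
    {N : Type w} [Fintype N] (σ : N → TopologicalSpace X) (hσ : ∀ i, σ i ≤ τ)
    (hτ : ∀ U : Set X, (∀ i, IsOpen[σ i] U) → IsOpen U) (ι : Type v)
    (h0 : ∀ i, Shrinks (σ i) ι 0) :
    Shrinks τ ι (2 ^ Fintype.card N * (Fintype.card N).factorial) := by
  classical
  intro U hU hcov
  have hcov' : ∀ x, ∃ i, x ∈ U i := fun x => by
    have : x ∈ ⋃ i, U i := hcov ▸ mem_univ x
    exact mem_iUnion.1 this
  rcases isEmpty_or_nonempty N with hN | hN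
  · choose f hf using hcov'
    refine ⟨fun i => {x | f x = i}, fun i => hτ _ fun j => (hN.false j).elim, ?_, ?_, ?_⟩
    · rintro i x rfl
      exact hf x
    · exact eq_univ_of_forall fun x => mem_iUnion.2 ⟨f x, rfl⟩
    · intro x
      have h1 : {i | x ∈ {x | f x = i}} = {f x} := by
        ext i
        simp [eq_comm]
      rw [h1, Set.encard_singleton]
      exact le_add_self
  let _ : MetricSpace X := TopologicalSpace.metrizableSpaceMetric X
  have hP : ∀ i, ∃ P : X → ι, (∀ x, x ∈ U (P x)) ∧ ∀ x, {y | P y = P x} ∈ @nhds X (σ i) x := by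
    intro i
    obtain ⟨W, hW1, hW2, hW3, hW4⟩ := h0 i U (fun u => hσ i _ (hU u)) hcov
    have h1 : ∀ x, ∃ u, x ∈ W u := fun x => by
      have : x ∈ ⋃ i, W i := hW3 ▸ mem_univ x
      exact mem_iUnion.1 this
    choose P hP using h1
    refine ⟨P, fun x => hW2 _ (hP x), fun x => ?_⟩
    have h2 : W (P x) ∈ @nhds X (σ i) x := @IsOpen.mem_nhds X (σ i) _ _ (hW1 _) (hP x)
    refine Filter.mem_of_superset h2 ?_
    intro y hy
    have h3 := hW4 y
    rw [Nat.cast_zero, zero_add, Set.encard_le_one_iff] at h3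
    exact h3 _ _ (hP y) hy
  choose P hP1 hP2 using hP
  have H1 : ∀ x, {y | ∃ i, P i y = P i x} ∈ 𝓝 x := fun x =>
    mem_nhds_of_forall σ hσ hτ x _ ⟨Classical.arbitrary N, rfl⟩
      (fun i => Filter.mem_of_superset (hP2 i x) (fun y hy => ⟨i, hy⟩))
  have H2 : ∀ x, ∃ I : Finset N, {y | ∃ i ∈ I, P i y = P i x} ∈ 𝓝 x ∧
      ∀ a ∈ I, {y | ∃ i ∈ I.erase a, P i y = P i x} ∉ 𝓝 x := by
    intro x
    obtain ⟨I, hI, hI'⟩ := (inferInstance : WellFoundedLT (Finset N)).wf.has_min
      {I : Finset N | {y | ∃ i ∈ I, P i y = P i x} ∈ 𝓝 x}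
      ⟨Finset.univ, by simpa using H1 x⟩
    exact ⟨I, hI, fun a ha h => hI' _ h (Finset.erase_ssubset ha)⟩
  choose I hI1 hI2 using H2
  have hIne : ∀ x, (I x).Nonempty := by
    intro x
    rw [Finset.nonempty_iff_ne_empty]
    intro h
    have h1 := hI1 x
    rw [h] at h1
    obtain ⟨i, hi, -⟩ := mem_of_mem_nhds h1
    simp at hi
  let a : Finset N → N := fun J => if h : J.Nonempty then h.choose else Classical.arbitrary N
  have ha : ∀ J : Finset N, J.Nonempty → a J ∈ J := by
    intro J hJ
    simp only [a, dif_pos hJ]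
    exact hJ.choose_spec
  have H3 : ∀ x, ∃ e : ℝ, 0 < e ∧ ∀ y, dist y x < 2 * e → ∃ i ∈ I x, P i y = P i x := by
    intro x
    obtain ⟨r, hr, hr'⟩ := Metric.mem_nhds_iff.1 (hI1 x)
    refine ⟨r / 2, half_pos hr, fun y hy => hr' ?_⟩
    rw [Metric.mem_ball]
    linarith
  choose ε hε hε' using H3
  let u : X → ι := fun x => P (a (I x)) x
  refine ⟨fun v => U v ∩ ⋃ x ∈ {x | u x = v}, Metric.ball x (ε x), ?_, ?_, ?_, ?_⟩
  · intro v
    exact (hU v).inter (isOpen_biUnion fun x _ => Metric.isOpen_ball)
  · intro v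
    exact inter_subset_left
  · apply eq_univ_of_forall
    intro x
    rw [mem_iUnion]
    refine ⟨u x, hP1 _ x, ?_⟩
    rw [mem_iUnion₂]
    exact ⟨x, rfl, Metric.mem_ball_self (hε x)⟩
  · intro z
    have key : ∀ F : Finset ι, (∀ v ∈ F, z ∈ U v ∩ ⋃ x ∈ {x | u x = v}, Metric.ball x (ε x)) →
        F.card ≤ 2 ^ Fintype.card N * (Fintype.card N).factorial := by
      intro F hF
      have h1 : ∀ v : F, ∃ x, u x = v ∧ dist z x < ε x := by
        rintro ⟨v, hv⟩
        obtain ⟨-, h2⟩ := hF v hv
        rw [mem_iUnion₂] at h2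
        obtain ⟨x, hx, hx'⟩ := h2
        exact ⟨x, hx, hx'⟩
      choose f hf1 hf2 using h1
      have hfinj : Function.Injective f := by
        intro v v' h
        apply Subtype.ext
        rw [← hf1 v, ← hf1 v', h]
      let A : Finset X := Finset.univ.image f
      have hA : A.card = F.card := by
        rw [Finset.card_image_of_injective _ hfinj, Finset.card_univ, Fintype.card_coe]
      have hA1 : ∀ x ∈ A, dist z x < ε x := by
        intro x hx
        obtain ⟨v, -, rfl⟩ := Finset.mem_image.1 hx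
        exact hf2 v
      have hA2 : ∀ x ∈ A, ∀ y ∈ A, x ≠ y → u x ≠ u y := by
        intro x hx y hy hxy
        obtain ⟨v, -, rfl⟩ := Finset.mem_image.1 hx
        obtain ⟨v', -, rfl⟩ := Finset.mem_image.1 hy
        rw [hf1, hf1]
        intro h
        exact hxy (congrArg f (Subtype.ext h))
      have hJ : ∀ J : Finset N, (A.filter fun x => I x = J).card ≤ (Fintype.card N).factorial := by
        intro J
        rcases J.eq_empty_or_nonempty with rfl | hJne
        · have : (A.filter fun x => I x = ∅) = ∅ := by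
            apply Finset.filter_false_of_mem
            intro x _ h
            exact (Finset.nonempty_iff_ne_empty.1 (hIne x)) h
          rw [this]
          simp
        · have h2 := chain P J (a J) ε z (A.filter fun x => I x = J : Finset X)
            (fun x hx => hA1 x (Finset.mem_of_mem_filter x hx))
            (fun x hx y hy => by
              have h3 : I x = J := (Finset.mem_filter.1 hx).2
              have h4 := hε' x y hy
              rwa [h3] at h4)
            (fun x hx => by
              have h3 : I x = J := (Finset.mem_filter.1 hx).2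
              have h4 := hI2 x (a J) (h3 ▸ ha J hJne)
              rwa [h3] at h4)
            (fun x hx y hy hxy => by
              have h3 : I x = J := (Finset.mem_filter.1 hx).2
              have h4 : I y = J := (Finset.mem_filter.1 hy).2
              have h5 := hA2 x (Finset.mem_of_mem_filter x hx) y (Finset.mem_of_mem_filter y hy) hxy
              simp only [u, h3, h4] at h5
              exact h5)
            _ (J.erase (a J)) rfl _ (le_refl _) (fun k hk => by simp at hk)
          refine h2.trans ((hh_le _).trans ?_)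
          apply Nat.factorial_le
          rw [Finset.card_erase_of_mem (ha J hJne)]
          have h6 : 0 < J.card := Finset.card_pos.2 hJne
          have h7 : J.card ≤ Fintype.card N := Finset.card_le_univ J
          omega
      have h8 : A ⊆ (Finset.univ : Finset (Finset N)).biUnion fun J => A.filter fun x => I x = J := by
        intro x hx
        rw [Finset.mem_biUnion]
        exact ⟨I x, Finset.mem_univ _, Finset.mem_filter.2 ⟨hx, rfl⟩⟩
      calc F.card = A.card := hA.symm
        _ ≤ _ := Finset.card_le_card h8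
        _ ≤ ∑ J ∈ (Finset.univ : Finset (Finset N)), (A.filter fun x => I x = J).card :=
            Finset.card_biUnion_le
        _ ≤ (Finset.univ : Finset (Finset N)).card • (Fintype.card N).factorial :=
            Finset.sum_le_card_nsmul _ _ _ fun J _ => hJ J
        _ = 2 ^ Fintype.card N * (Fintype.card N).factorial := by
            rw [Finset.card_univ, Fintype.card_finset, smul_eq_mul]
    set M := 2 ^ Fintype.card N * (Fintype.card N).factorial with hM
    by_contra hcon
    rw [not_le] at hcon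
    obtain ⟨t, ht, ht'⟩ := Set.exists_subset_encard_eq hcon.le
    have hfin : t.Finite := by
      apply Set.finite_of_encard_eq_coe (k := M + 1)
      rw [ht']
      push_cast
      rfl
    have h9 := key hfin.toFinset (fun v hv => ht (hfin.mem_toFinset.1 hv))
    rw [hfin.encard_eq_coe_toFinset_card] at ht'
    have h10 : hfin.toFinset.card = M + 1 := by exact_mod_cast ht'
    omega

end Pool.Agent.Q147.SNum
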