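import Mathlib

set_option autoImplicit false

/-!
# Countable-dimensional metrizable spaces are intersections of countably many zero-dimensional
metrizable extensions
-/

open Set Topology

namespace Pool.Agent.Q147.SNumUp

universe u

/-- Every finite open cover has an open shrinking in which every point lies in one member. -/
def Zero {Z : Type u} (τ : TopologicalSpace Z) : Prop :=
  ∀ (k : ℕ) (U : Fin k → Set Z), (∀ i, IsOpen[τ] (U i)) → (⋃ i, U i) = univ →
    ∃ W : Fin k → Set Z, (∀ i, IsOpen[τ] (W i)) ∧ (∀ i, W i ⊆ U i) ∧ (⋃ i, W i) = univ ∧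
      ∀ x, {i | x ∈ W i}.encard ≤ 1

theorem clopen_between {Z : Type u} [τ : TopologicalSpace Z] (hZ : Zero τ) (F U : Set Z)
    (hF : IsClosed F) (hU : IsOpen U) (hFU : F ⊆ U) : ∃ C, IsClopen C ∧ F ⊆ C ∧ C ⊆ U := by
  obtain ⟨W, hW1, hW2, hW3, hW4⟩ := hZ 2 ![U, Fᶜ] (by
    intro i
    fin_cases i
    · exact hU
    · exact hF.isOpen_compl) (by
    rw [Set.iUnion_eq_univ_iff]
    intro x
    by_cases hx : x ∈ F
    · exact ⟨0, hFU hx⟩
    · exact ⟨1, hx⟩)
  have hdis : ∀ x, x ∈ W 0 → x ∈ W 1 → False := by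
    intro x h0 h1
    have h2 := hW4 x
    rw [Set.encard_le_one_iff] at h2
    have := h2 0 1 h0 h1
    exact absurd this (by decide)
  have hcov : ∀ x, x ∈ W 0 ∨ x ∈ W 1 := by
    intro x
    obtain ⟨i, hi⟩ := Set.iUnion_eq_univ_iff.1 hW3 x
    fin_cases i
    · exact Or.inl hi
    · exact Or.inr hi
  have hcompl : (W 0)ᶜ = W 1 := by
    ext x
    constructor
    · intro h
      exact (hcov x).resolve_left h
    · intro h h'
      exact hdis x h' h
  refine ⟨W 0, ⟨?_, hW1 0⟩, ?_, hW2 0⟩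
  · rw [← isOpen_compl_iff, hcompl]
    exact hW1 1
  · intro x hx
    by_contra h
    have h1 : x ∈ W 1 := (hcov x).resolve_left h
    exact hW2 1 h1 hx

theorem disjoint_refine {Z : Type u} [τ : TopologicalSpace Z] [TopologicalSpace.MetrizableSpace Z]
    (hZ : Zero τ) {ι : Type u} (U : ι → Set Z) (hU : ∀ i, IsOpen (U i)) (hc : (⋃ i, U i) = univ) :
    ∃ D : ι → Set Z, (∀ i, IsOpen (D i)) ∧ (∀ i, D i ⊆ U i) ∧ (⋃ i, D i) = univ ∧
      ∀ i j x, x ∈ D i → x ∈ D j → i = j := by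
  let _ := TopologicalSpace.metrizableSpaceMetric Z
  obtain ⟨V, hV1, hV2, hV3, hV4⟩ := precise_refinement U hU hc
  obtain ⟨F, hF1, hF2, hF3⟩ := exists_iUnion_eq_closed_subset hV1 (fun x => hV3.point_finite x) hV2
  choose C hC1 hC2 hC3 using fun i => clopen_between hZ (F i) (V i) (hF2 i) (hV1 i) (hF3 i)
  have hclosed : ∀ i, IsClosed (⋃ j, {x | WellOrderingRel j i ∧ x ∈ C j}) := by
    intro i
    apply LocallyFinite.isClosed_iUnion
    · exact hV3.subset fun j x hx => hC3 j hx.2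
    · intro j
      by_cases h : WellOrderingRel j i
      · have : {x | WellOrderingRel j i ∧ x ∈ C j} = C j := by
          ext x
          exact ⟨fun hx => hx.2, fun hx => ⟨h, hx⟩⟩
        rw [this]
        exact (hC1 j).1
      · have : {x | WellOrderingRel j i ∧ x ∈ C j} = ∅ := by
          ext x
          exact ⟨fun hx => h hx.1, fun hx => hx.elim⟩
        rw [this]
        exact isClosed_empty
  refine ⟨fun i => C i \ ⋃ j, {x | WellOrderingRel j i ∧ x ∈ C j},
    fun i => (hC1 i).2.sdiff (hclosed i), fun i x hx => hV4 i (hC3 i hx.1), ?_, ?_⟩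
  · rw [Set.iUnion_eq_univ_iff]
    intro x
    have hne : {i | x ∈ C i}.Nonempty := by
      obtain ⟨i, hi⟩ := Set.iUnion_eq_univ_iff.1 hF1 x
      exact ⟨i, hC2 i hi⟩
    have wf : WellFounded (WellOrderingRel (α := ι)) := IsWellFounded.wf
    refine ⟨wf.min _ hne, wf.min_mem _ hne, ?_⟩
    intro hx
    obtain ⟨j, hj, hj'⟩ := Set.mem_iUnion.1 hx
    exact wf.not_lt_min _ hj' hj
  · rintro i j x ⟨hi, hi'⟩ ⟨hj, hj'⟩
    rcases trichotomous_of (WellOrderingRel (α := ι)) i j with h | h | h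
    · exact absurd (Set.mem_iUnion.2 ⟨i, (⟨h, hi⟩ : x ∈ {x | WellOrderingRel i j ∧ x ∈ C i})⟩) hj'
    · exact h
    · exact absurd (Set.mem_iUnion.2 ⟨j, (⟨h, hj⟩ : x ∈ {x | WellOrderingRel j i ∧ x ∈ C j})⟩) hi'

/-- Cylinder of `x` for the labels `c`. -/
def cyl {X : Type u} (c : ℕ → X → Set X) (n : ℕ) (x : X) : Set X := {y | ∀ m < n, c m y = c m x}

theorem cyl_eq {X : Type u} (c : ℕ → X → Set X) (n : ℕ) (x y : X) (h : y ∈ cyl c n x) :
    cyl c n y = cyl c n x := by
  ext z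
  constructor
  · intro hz m hm
    rw [hz m hm, h m hm]
  · intro hz m hm
    rw [hz m hm, h m hm]

theorem self_cyl {X : Type u} (c : ℕ → X → Set X) (n : ℕ) (x : X) : x ∈ cyl c n x :=
  fun _ _ => rfl

theorem cyl_anti {X : Type u} (c : ℕ → X → Set X) {n m : ℕ} (h : n ≤ m) (x : X) :
    cyl c m x ⊆ cyl c n x := fun _ hy k hk => hy k (hk.trans_le h)

/-- The topology of the labels. -/
@[reducible] def top {X : Type u} (c : ℕ → X → Set X) : TopologicalSpace X where
  IsOpen U := ∀ x ∈ U, ∃ n, cyl c n x ⊆ U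
  isOpen_univ := fun _ _ => ⟨0, subset_univ _⟩
  isOpen_inter := by
    rintro s t hs ht x ⟨hxs, hxt⟩
    obtain ⟨n, hn⟩ := hs x hxs
    obtain ⟨m, hm⟩ := ht x hxt
    exact ⟨max n m, fun y hy => ⟨hn (cyl_anti c (le_max_left _ _) x hy),
      hm (cyl_anti c (le_max_right _ _) x hy)⟩⟩
  isOpen_sUnion := by
    rintro S hS x ⟨t, ht, hxt⟩
    obtain ⟨n, hn⟩ := hS t ht x hxt
    exact ⟨n, fun y hy => ⟨t, ht, hn hy⟩⟩

theorem isOpen_cyl {X : Type u} (c : ℕ → X → Set X) (n : ℕ) (x : X) : IsOpen[top c] (cyl c n x) := by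
  intro y hy
  exact ⟨n, (cyl_eq c n x y hy).le⟩

theorem mem_nhds_top {X : Type u} (c : ℕ → X → Set X) (x : X) (N : Set X) :
    N ∈ @nhds X (top c) x ↔ ∃ n, cyl c n x ⊆ N := by
  rw [@mem_nhds_iff X (top c) x N]
  constructor
  · rintro ⟨t, ht, hto, hxt⟩
    obtain ⟨n, hn⟩ := hto x hxt
    exact ⟨n, hn.trans ht⟩
  · rintro ⟨n, hn⟩
    exact ⟨cyl c n x, hn, isOpen_cyl c n x, self_cyl c n x⟩

theorem top_zero {X : Type u} (c : ℕ → X → Set X) : Zero (top c) := by
  classical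
  intro k U hU hc
  have h1 : ∀ x, ∃ n, ∃ i, cyl c n x ⊆ U i := by
    intro x
    obtain ⟨i, hi⟩ := Set.iUnion_eq_univ_iff.1 hc x
    obtain ⟨n, hn⟩ := hU i x hi
    exact ⟨n, i, hn⟩
  let N : X → ℕ := fun x => Nat.find (h1 x)
  have hN : ∀ x, ∃ i, cyl c (N x) x ⊆ U i := fun x => Nat.find_spec (h1 x)
  have hN' : ∀ x y, y ∈ cyl c (N x) x → N y = N x := by
    intro x y hy
    apply le_antisymm
    · apply Nat.find_min'
      obtain ⟨i, hi⟩ := hN x
      exact ⟨i, by rw [cyl_eq c (N x) x y hy]; exact hi⟩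
    · by_contra hlt
      push Not at hlt
      apply Nat.find_min (h1 x) hlt
      obtain ⟨i, hi⟩ := hN y
      refine ⟨i, ?_⟩
      have h2 : y ∈ cyl c (N y) x := cyl_anti c hlt.le x hy
      rw [← cyl_eq c (N y) x y h2]
      exact hi
  let S : X → Set X := fun x => cyl c (N x) x
  have hS : ∀ x y, y ∈ S x → S y = S x := by
    intro x y hy
    show cyl c (N y) y = cyl c (N x) x
    rw [hN' x y hy]
    exact cyl_eq c (N x) x y hy
  rcases isEmpty_or_nonempty X with hX | hX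
  · refine ⟨fun _ => ∅, fun i x hx => hx.elim, fun i => empty_subset _, ?_, fun x => hX.elim x⟩
    ext x
    exact hX.elim x
  obtain ⟨i0, _⟩ := Set.iUnion_eq_univ_iff.1 hc hX.some
  have hpick : ∃ pick : Set X → Fin k, ∀ T, (∃ i, T ⊆ U i) → T ⊆ U (pick T) := by
    have : ∀ T : Set X, ∃ i : Fin k, (∃ i, T ⊆ U i) → T ⊆ U i := by
      intro T
      by_cases h : ∃ i, T ⊆ U i
      · obtain ⟨i, hi⟩ := h
        exact ⟨i, fun _ => hi⟩
      · exact ⟨i0, fun h' => absurd h' h⟩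
    choose pick hpick using this
    exact ⟨pick, hpick⟩
  obtain ⟨pick, hpick⟩ := hpick
  refine ⟨fun i => {x | pick (S x) = i}, ?_, ?_, ?_, ?_⟩
  · intro i x hx
    refine ⟨N x, fun y hy => ?_⟩
    show pick (S y) = i
    rw [hS x y hy]
    exact hx
  · intro i x hx
    have h2 := hpick (S x) (hN x) (self_cyl c (N x) x)
    have h3 : pick (S x) = i := hx
    rw [h3] at h2
    exact h2
  · rw [Set.iUnion_eq_univ_iff]
    intro x
    exact ⟨pick (S x), rfl⟩
  · intro x
    rw [Set.encard_le_one_iff]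
    intro a b ha hb
    have h2 : pick (S x) = a := ha
    have h3 : pick (S x) = b := hb
    rw [← h2, ← h3]

theorem metrizable_top {X : Type u} (c : ℕ → X → Set X)
    (hinj : ∀ x y, (∀ m, c m x = c m y) → x = y) : @TopologicalSpace.MetrizableSpace X (top c) := by
  let _ : TopologicalSpace (Set X) := ⊥
  have _ : DiscreteTopology (Set X) := ⟨rfl⟩
  let _ : MetricSpace (ℕ → Set X) := PiNat.metricSpace
  let F : X → (ℕ → Set X) := fun x m => c m x
  have h1 : @IsEmbedding X (ℕ → Set X) (top c) _ F := by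
    let _ : TopologicalSpace X := top c
    refine ⟨⟨?_⟩, fun x y h => hinj x y fun m => congrFun h m⟩
    apply le_antisymm
    · rw [← continuous_iff_le_induced]
      apply continuous_pi
      intro m
      rw [continuous_discrete_rng]
      intro a x hx
      refine ⟨m + 1, fun y hy => ?_⟩
      have h2 : c m x = a := hx
      show c m y = a
      rw [hy m (Nat.lt_succ_self m), h2]
    · intro s hs
      have h3 : ∀ x ∈ s, ∃ n, cyl c n x ⊆ s := hs
      choose! n hn using h3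
      have h4 : s = ⋃ x ∈ s, cyl c (n x) x := by
        ext y
        constructor
        · intro hy
          exact Set.mem_iUnion₂.2 ⟨y, hy, self_cyl c _ y⟩
        · intro hy
          obtain ⟨x, hx, hxy⟩ := Set.mem_iUnion₂.1 hy
          exact hn x hx hxy
      rw [h4]
      refine @isOpen_biUnion X X (TopologicalSpace.induced F _) s _ fun x hx => ?_
      refine isOpen_induced_iff.2 ⟨⋂ m ∈ Set.Iio (n x), {f : ℕ → Set X | f m = c m x}, ?_, ?_⟩
      · apply (Set.finite_Iio (n x)).isOpen_biInter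
        intro m hm
        have h5 : Continuous fun f : ℕ → Set X => f m := continuous_apply m
        exact (isOpen_discrete ({c m x} : Set (Set X))).preimage h5
      · ext y
        simp only [Set.mem_preimage, Set.mem_iInter, Set.mem_Iio]
        exact Iff.rfl
  exact @IsEmbedding.metrizableSpace X (ℕ → Set X) (top c) _ _ F h1

/-- Disjoint small open sets of `X` covering a zero-dimensional subspace. -/
theorem exists_open {X : Type u} [MetricSpace X] (Z : Set X)
    (hZ : Zero (inferInstance : TopologicalSpace Z)) (ε : ℝ) (hε : 0 < ε) :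
    ∃ O : X → Set X, (∀ z, IsOpen (O z)) ∧ (∀ x ∈ Z, ∃ z, x ∈ O z) ∧
      (∀ z x y, x ∈ O z → y ∈ O z → dist x y < 4 * ε) ∧
      ∀ z z' x, x ∈ O z → x ∈ O z' → z = z' := by
  classical
  obtain ⟨D, hD1, hD2, hD3, hD4⟩ := disjoint_refine hZ (fun z : Z => Metric.ball z ε)
    (fun z => Metric.isOpen_ball) (by
      rw [Set.iUnion_eq_univ_iff]
      intro z
      exact ⟨z, Metric.mem_ball_self hε⟩)
  have h1 : ∀ y : Z, ∃ r : ℝ, 0 < r ∧ r ≤ ε ∧ ∀ z, y ∈ D z → ∀ w : Z, dist w y < r → w ∈ D z := by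
    intro y
    obtain ⟨z, hz⟩ := Set.iUnion_eq_univ_iff.1 hD3 y
    obtain ⟨r, hr, hr'⟩ := Metric.isOpen_iff.1 (hD1 z) y hz
    refine ⟨min r ε, lt_min hr hε, min_le_right _ _, fun z' hz' w hw => ?_⟩
    have h2 := hD4 z z' y hz hz'
    subst h2
    exact hr' (lt_of_lt_of_le hw (min_le_left _ _))
  choose r hr1 hr2 hr3 using h1
  refine ⟨fun x => ⋃ y : Z, {w | (∃ z : Z, (z : X) = x ∧ y ∈ D z) ∧ dist w y < r y / 2}, ?_, ?_, ?_, ?_⟩
  · intro x
    apply isOpen_iUnion
    intro y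
    by_cases h : ∃ z : Z, (z : X) = x ∧ y ∈ D z
    · have h2 : {w : X | (∃ z : Z, (z : X) = x ∧ y ∈ D z) ∧ dist w y < r y / 2} =
          Metric.ball (y : X) (r y / 2) := by
        ext w
        exact ⟨fun hw => hw.2, fun hw => ⟨h, hw⟩⟩
      rw [h2]
      exact Metric.isOpen_ball
    · have h2 : {w : X | (∃ z : Z, (z : X) = x ∧ y ∈ D z) ∧ dist w y < r y / 2} = ∅ := by
        ext w
        exact ⟨fun hw => h hw.1, fun hw => hw.elim⟩
      rw [h2]
      exact isOpen_empty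
  · intro x hx
    obtain ⟨z, hz⟩ := Set.iUnion_eq_univ_iff.1 hD3 ⟨x, hx⟩
    refine ⟨z, Set.mem_iUnion.2 ⟨⟨x, hx⟩, ⟨z, rfl, hz⟩, ?_⟩⟩
    show dist x x < _
    rw [dist_self]
    exact half_pos (hr1 _)
  · intro z x y hx hy
    obtain ⟨a, ⟨z1, hz1, ha⟩, hxa⟩ := Set.mem_iUnion.1 hx
    obtain ⟨b, ⟨z2, hz2, hb⟩, hyb⟩ := Set.mem_iUnion.1 hy
    have h2 : z1 = z2 := Subtype.ext (hz1.trans hz2.symm)
    subst h2
    have h3 : dist (a : X) z1 < ε := hD2 z1 ha
    have h4 : dist (b : X) z1 < ε := hD2 z1 hb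
    have h5 := hr2 a
    have h6 := hr2 b
    have h7 := dist_triangle x (a : X) z1
    have h8 := dist_triangle y (b : X) z1
    have h9 := dist_triangle_right x y (z1 : X)
    linarith
  · intro z z' x hx hx'
    obtain ⟨a, ⟨z1, hz1, ha⟩, hxa⟩ := Set.mem_iUnion.1 hx
    obtain ⟨b, ⟨z2, hz2, hb⟩, hxb⟩ := Set.mem_iUnion.1 hx'
    have h2 : dist (a : X) b < r a / 2 + r b / 2 := by
      have := dist_triangle_left (a : X) b x
      linarith
    rw [← hz1, ← hz2]
    congr 1
    rcases le_total (r a) (r b) with h | h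
    · have h3 : a ∈ D z2 := hr3 b z2 hb a (by
        show dist (a : X) b < r b
        linarith)
      exact hD4 z1 z2 a ha h3
    · have h3 : b ∈ D z1 := hr3 a z1 ha b (by
        show dist (b : X) a < r a
        rw [dist_comm]
        linarith)
      exact hD4 z1 z2 b h3 hb

/-- For a zero-dimensional subspace `Z` of a metrizable space there is a zero-dimensional
metrizable extension with the same neighbourhoods of the points of `Z`. -/
theorem exists_top {X : Type u} [τ : TopologicalSpace X] [TopologicalSpace.MetrizableSpace X]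
    (Z : Set X) (hZ : Zero (inferInstance : TopologicalSpace Z)) :
    ∃ μ : TopologicalSpace X, (∀ U : Set X, IsOpen[τ] U → IsOpen[μ] U) ∧
      @TopologicalSpace.MetrizableSpace X μ ∧ Zero μ ∧
      ∀ x ∈ Z, ∀ N : Set X, N ∈ @nhds X μ x → N ∈ @nhds X τ x := by
  let _ := TopologicalSpace.metrizableSpaceMetric X
  have h0 : ∀ m : ℕ, (0 : ℝ) < 1 / ((m : ℝ) + 1) := fun m => Nat.one_div_pos_of_nat
  choose O hO1 hO2 hO3 hO4 using fun m : ℕ => exists_open Z hZ (1 / ((m : ℝ) + 1)) (h0 m)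
  let c : ℕ → X → Set X := fun m x => {y | y = x ∨ ∃ z, x ∈ O m z ∧ y ∈ O m z}
  have hc0 : ∀ m x, x ∈ c m x := fun m x => Or.inl rfl
  have hc1 : ∀ m x y, y ∈ c m x → dist y x < 4 * (1 / ((m : ℝ) + 1)) := by
    rintro m x y (rfl | ⟨z, hx, hy⟩)
    · rw [dist_self]
      have := h0 m
      linarith
    · exact hO3 m z y x hy hx
  have hc2 : ∀ m x z, x ∈ O m z → c m x = O m z := by
    intro m x z hx
    ext y
    constructor
    · rintro (rfl | ⟨z', hx', hy'⟩)
      · exact hx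
      · rw [hO4 m z z' x hx hx']
        exact hy'
    · intro hy
      exact Or.inr ⟨z, hx, hy⟩
  have hsmall : ∀ ε : ℝ, 0 < ε → ∃ m : ℕ, 4 * (1 / ((m : ℝ) + 1)) < ε := by
    intro ε hε
    obtain ⟨m, hm⟩ := exists_nat_one_div_lt (div_pos hε (by norm_num : (0 : ℝ) < 4))
    refine ⟨m, ?_⟩
    rw [lt_div_iff₀ (by norm_num)] at hm
    linarith
  refine ⟨top c, ?_, ?_, top_zero c, ?_⟩
  · intro U hU x hx
    obtain ⟨ε, hε, hεU⟩ := Metric.isOpen_iff.1 hU x hx
    obtain ⟨m, hm⟩ := hsmall ε hε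
    refine ⟨m + 1, fun y hy => hεU ?_⟩
    have h1 : y ∈ c m x := by
      rw [← hy m (Nat.lt_succ_self m)]
      exact hc0 m y
    exact (hc1 m x y h1).trans hm
  · apply metrizable_top
    intro x y hxy
    by_contra hne
    obtain ⟨m, hm⟩ := hsmall (dist x y) (dist_pos.2 hne)
    have h1 : x ∈ c m y := by
      rw [← hxy m]
      exact hc0 m x
    exact absurd (hc1 m y x h1) (not_lt.2 hm.le)
  · intro x hx N hN
    rw [mem_nhds_top] at hN
    obtain ⟨n, hn⟩ := hN
    refine Filter.mem_of_superset ?_ hn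
    choose z hz using fun m => hO2 m x hx
    have h1 : (⋂ m ∈ Set.Iio n, O m (z m)) ∈ 𝓝 x := by
      rw [Filter.biInter_mem (Set.finite_Iio n)]
      intro m _
      exact (hO1 m (z m)).mem_nhds (hz m)
    refine Filter.mem_of_superset h1 ?_
    intro y hy m hm
    have h2 : y ∈ O m (z m) := by
      have := Set.mem_iInter₂.1 hy m hm
      exact this
    rw [hc2 m y (z m) h2, hc2 m x (z m) (hz m)]

/-- A metrizable space which is a countable union of zero-dimensional subspaces is the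
intersection of countably many zero-dimensional metrizable extensions. -/
theorem main {X : Type u} (τ : TopologicalSpace X) (hτ : @TopologicalSpace.MetrizableSpace X τ)
    (Z : ℕ → Set X) (hZ : ∀ k, Zero (TopologicalSpace.induced ((↑) : Z k → X) τ))
    (hcov : (⋃ k, Z k) = univ) :
    ∃ μ : ℕ → TopologicalSpace X, (∀ k, (∀ U : Set X, IsOpen[τ] U → IsOpen[μ k] U) ∧
      @TopologicalSpace.MetrizableSpace X (μ k) ∧ Zero (μ k)) ∧
      ∀ U : Set X, IsOpen[τ] U ↔ ∀ k, IsOpen[μ k] U := by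
  choose μ h1 h2 h3 h4 using fun k => @exists_top X τ hτ (Z k) (hZ k)
  refine ⟨μ, fun k => ⟨h1 k, h2 k, h3 k⟩, fun U => ⟨fun hU k => h1 k U hU, fun hU => ?_⟩⟩
  rw [isOpen_iff_mem_nhds]
  intro x hx
  obtain ⟨k, hk⟩ := Set.iUnion_eq_univ_iff.1 hcov x
  apply h4 k x hk
  rw [@mem_nhds_iff X (μ k) x U]
  exact ⟨U, Subset.rfl, hU k, hx⟩

end Pool.Agent.Q147.SNumUp
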