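import Mathlib

/-!
# The Sigma-product in `(ZMod 2)^ι`

The subgroup of all functions with countable support.
-/

namespace Pool.Agent.Q147.SigmaProd

open Set Topology

/-- The subgroup of all functions `ι → ZMod 2` with countable support. -/
def Sg (ι : Type) : AddSubgroup (ι → ZMod 2) where
  carrier := {x | (Function.support x).Countable}
  zero_mem' := by simp
  add_mem' := by
    intro a b ha hb
    exact (ha.union hb).mono (Function.support_add a b)
  neg_mem' := by
    intro a ha
    simpa using ha

theorem mem_Sg {ι : Type} {x : ι → ZMod 2} : x ∈ Sg ι ↔ (Function.support x).Countable :=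
  Iff.rfl

/-- Elements supported in `A`. -/
def KA {ι : Type} (A : Set ι) : Set (Sg ι) := {x | ∀ i, i ∉ A → x.1 i = 0}

theorem isCompact_KA {ι : Type} {A : Set ι} (hA : A.Countable) : IsCompact (KA A) := by
  rw [Subtype.isCompact_iff]
  have : ((↑) : Sg ι → (ι → ZMod 2)) '' (KA A) = {x | ∀ i, i ∉ A → x i = 0} := by
    ext x
    constructor
    · rintro ⟨y, hy, rfl⟩
      exact hy
    · intro hx
      refine ⟨⟨x, ?_⟩, hx, rfl⟩
      rw [mem_Sg]
      refine hA.mono ?_
      intro i hi
      by_contra hiA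
      exact hi (hx i hiA)
  have h2 : IsClosed {x : ι → ZMod 2 | ∀ i, i ∉ A → x i = 0} := by
    simp only [Set.ofPred_forall]
    exact isClosed_iInter fun i => isClosed_iInter fun _ =>
      isClosed_eq (continuous_apply i) continuous_const
  rw [this]
  exact h2.isCompact

theorem exists_KA {ι : Type} {D : Set (Sg ι)} (hD : D.Countable) :
    ∃ A : Set ι, A.Countable ∧ D ⊆ KA A := by
  refine ⟨⋃ x ∈ D, Function.support x.1, hD.biUnion fun x _ => x.2, ?_⟩
  intro x hx i hi
  by_contra h
  exact hi (Set.mem_biUnion hx h)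

theorem exists_compact {ι : Type} {D : Set (Sg ι)} (hD : D.Countable) :
    ∃ K : Set (Sg ι), IsCompact K ∧ D ⊆ K := by
  obtain ⟨A, hA, h⟩ := exists_KA hD
  exact ⟨KA A, isCompact_KA hA, h⟩

/-- Membership in the closure. -/
theorem mem_closure_iff' {ι : Type} {S : Set (Sg ι)} {y : Sg ι} :
    y ∈ closure S ↔ ∀ F : Finset ι, ∃ s ∈ S, ∀ i ∈ F, s.1 i = y.1 i := by
  classical
  constructor
  · intro h F
    have hU : IsOpen {x : Sg ι | ∀ i ∈ F, x.1 i = y.1 i} := by
      have : {x : Sg ι | ∀ i ∈ F, x.1 i = y.1 i} = ⋂ i ∈ F, {x : Sg ι | x.1 i = y.1 i} := by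
        ext x; simp
      rw [this]
      refine isOpen_biInter_finset fun i _ => ?_
      have hc : Continuous fun x : Sg ι => x.1 i := (continuous_apply i).comp continuous_subtype_val
      exact (isOpen_discrete {y.1 i}).preimage hc
    obtain ⟨s, hs, hsS⟩ := mem_closure_iff.1 h _ hU (fun i _ => rfl)
    exact ⟨s, hsS, hs⟩
  · intro h
    rw [mem_closure_iff]
    intro U hU hy
    obtain ⟨V, hV, rfl⟩ := isOpen_induced_iff.1 hU
    obtain ⟨F, u, hu, hsub⟩ := isOpen_pi_iff.1 hV y.1 hy
    obtain ⟨s, hs, hs'⟩ := h F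
    refine ⟨s, hsub ?_, hs⟩
    intro i hi
    rw [hs' i hi]
    exact (hu i hi).2

/-- The Sigma-product is countably tight. -/
theorem tight {ι : Type} {S : Set (Sg ι)} {y : Sg ι} (hy : y ∈ closure S) :
    ∃ D ⊆ S, D.Countable ∧ y ∈ closure D := by
  classical
  have h := mem_closure_iff'.1 hy
  choose s hs hs' using h
  -- close off under supports
  let step : Set ι → Set ι := fun A =>
    A ∪ ⋃ F ∈ {F : Finset ι | (F : Set ι) ⊆ A}, Function.support (s F).1
  have hstep : ∀ A : Set ι, A.Countable → (step A).Countable := by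
    intro A hA
    refine hA.union (Set.Countable.biUnion ?_ fun F _ => (s F).2)
    exact Set.countable_ofPred_finite_subset hA |>.preimage_of_injOn
      (Finset.coe_injective.injOn) |>.mono (by
        intro F hF
        exact ⟨F.finite_toSet, hF⟩)
  obtain ⟨A, hA0, hAs⟩ : ∃ A : ℕ → Set ι, A 0 = Function.support y.1 ∧
      ∀ n, A (n + 1) = step (A n) :=
    ⟨fun n => Nat.rec (Function.support y.1) (fun _ B => step B) n, rfl, fun n => rfl⟩
  have hAc : ∀ n, (A n).Countable := by
    intro n
    induction n with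
    | zero => rw [hA0]; exact y.2
    | succ n ih => rw [hAs]; exact hstep _ ih
  have hmono : Monotone A := monotone_nat_of_le_succ fun n => by
    rw [hAs]; exact Set.subset_union_left
  let B : Set ι := ⋃ n, A n
  have hB : B.Countable := Set.countable_iUnion hAc
  refine ⟨s '' {F : Finset ι | (F : Set ι) ⊆ B}, ?_, ?_, ?_⟩
  · rintro _ ⟨F, -, rfl⟩
    exact hs F
  · refine Set.Countable.image ?_ _
    exact Set.countable_ofPred_finite_subset hB |>.preimage_of_injOn
      (Finset.coe_injective.injOn) |>.mono (by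
        intro F hF
        exact ⟨F.finite_toSet, hF⟩)
  · rw [mem_closure_iff']
    intro F
    let F' : Finset ι := F.filter (fun i => i ∈ B)
    have hF' : (F' : Set ι) ⊆ B := by
      intro i hi
      simpa [F'] using (Finset.mem_filter.1 hi).2
    refine ⟨s F', ⟨F', hF', rfl⟩, ?_⟩
    intro i hi
    by_cases hiB : i ∈ B
    · exact hs' F' i (Finset.mem_filter.2 ⟨hi, hiB⟩)
    · -- both vanish
      have h1 : y.1 i = 0 := by
        by_contra hne
        apply hiB
        refine Set.mem_iUnion.2 ⟨0, ?_⟩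
        rw [hA0]; exact hne
      -- the finite set `F'` is contained in some `A n`
      have h2 : ∃ n, (F' : Set ι) ⊆ A n := by
        have := (F'.finite_toSet)
        have hdir : DirectedOn (· ⊆ ·) (Set.range A) := by
          rintro _ ⟨m, rfl⟩ _ ⟨n, rfl⟩
          exact ⟨A (max m n), ⟨_, rfl⟩, hmono (le_max_left _ _), hmono (le_max_right _ _)⟩
        obtain ⟨_, ⟨n, rfl⟩, hn⟩ := DirectedOn.exists_mem_subset_of_finite_of_subset_sUnion
          (Set.range_nonempty A) hdir this (by rw [Set.sUnion_range]; exact hF')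
        exact ⟨n, hn⟩
      obtain ⟨n, hn⟩ := h2
      have h3 : (s F').1 i = 0 := by
        by_contra hne
        apply hiB
        refine Set.mem_iUnion.2 ⟨n + 1, ?_⟩
        rw [hAs]
        exact Or.inr (Set.mem_biUnion (show F' ∈ {F : Finset ι | (F : Set ι) ⊆ A n} from hn) hne)
      rw [h1, h3]

end Pool.Agent.Q147.SigmaProd
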