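import Mathlib

/-!
# Step functions with values in a topological vector space and a Dugundji extension theorem

For a real topological vector space `E` (not necessarily locally convex) let `SF E` be the space of
functions `ℝ → E` with finite range, with the topology of convergence in (outer Lebesgue) measure
on `[0, 1)`. The constants embed `E` into `SF E`, and each continuous map from a closed subset `Y`
of a metrizable space `X` into `E` extends to a continuous map `X → SF E`.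
-/

universe u v

namespace Pool.Agent.Q147.StepTVS

open Set Filter Topology MeasureTheory Pointwise

section SF

variable (E : Type u) [AddCommGroup E] [Module ℝ E]

/-- functions with finite range -/
def SF : Submodule ℝ (ℝ → E) where
  carrier := {g | (range g).Finite}
  add_mem' := by
    intro f g hf hg
    refine ((hf.prod hg).image fun p : E × E => p.1 + p.2).subset ?_
    rintro _ ⟨t, rfl⟩
    exact ⟨(f t, g t), ⟨⟨t, rfl⟩, ⟨t, rfl⟩⟩, rfl⟩
  zero_mem' := by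
    refine (finite_singleton (0 : E)).subset ?_
    rintro _ ⟨t, rfl⟩
    rfl
  smul_mem' := by
    intro c f hf
    refine (hf.image fun x => c • x).subset ?_
    rintro _ ⟨t, rfl⟩
    exact ⟨f t, ⟨t, rfl⟩, rfl⟩

variable {E}

/-- basic neighbourhoods -/
def nb (U : Set E) (ε : ENNReal) : Set (SF E) :=
  {g | volume {t : ℝ | t ∈ Ico (0 : ℝ) 1 ∧ g.1 t ∉ U} < ε}

theorem nb_mono {U V : Set E} {ε δ : ENNReal} (h : U ⊆ V) (h' : ε ≤ δ) : nb U ε ⊆ nb V δ := by
  intro g hg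
  refine lt_of_le_of_lt (measure_mono ?_) (lt_of_lt_of_le hg h')
  rintro t ⟨h1, h2⟩
  exact ⟨h1, fun h3 => h2 (h h3)⟩

variable [TopologicalSpace E] [IsTopologicalAddGroup E] [ContinuousSMul ℝ E]

variable (E) in
/-- the filter basis -/
def basis : ModuleFilterBasis ℝ (SF E) where
  sets := {S | ∃ U ∈ 𝓝 (0 : E), ∃ ε : ENNReal, 0 < ε ∧ S = nb U ε}
  nonempty := ⟨nb univ 1, univ, univ_mem, 1, one_pos, rfl⟩
  inter_sets := by
    rintro _ _ ⟨U, hU, ε, hε, rfl⟩ ⟨V, hV, δ, hδ, rfl⟩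
    exact ⟨nb (U ∩ V) (min ε δ), ⟨_, inter_mem hU hV, _, lt_min hε hδ, rfl⟩,
      subset_inter (nb_mono inter_subset_left (min_le_left _ _))
        (nb_mono inter_subset_right (min_le_right _ _))⟩
  zero' := by
    rintro _ ⟨U, hU, ε, hε, rfl⟩
    have : {t : ℝ | t ∈ Ico (0 : ℝ) 1 ∧ (0 : SF E).1 t ∉ U} = ∅ := by
      ext t
      simp only [mem_ofPred_eq, mem_empty_iff_false, iff_false, not_and, not_not]
      intro _
      exact mem_of_mem_nhds hU
    change volume {t : ℝ | t ∈ Ico (0 : ℝ) 1 ∧ (0 : SF E).1 t ∉ U} < ε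
    rw [this, measure_empty]
    exact hε
  add' := by
    rintro _ ⟨U, hU, ε, hε, rfl⟩
    have hadd : Tendsto (fun p : E × E => p.1 + p.2) (𝓝 0 ×ˢ 𝓝 0) (𝓝 0) := by
      have := (continuous_add (M := E)).tendsto (0, 0)
      rwa [nhds_prod_eq, add_zero] at this
    obtain ⟨A, hA, B, hB, hAB⟩ := mem_prod_iff.1 (hadd hU)
    refine ⟨nb (A ∩ B) (ε / 2), ⟨_, inter_mem hA hB, _, ENNReal.half_pos hε.ne', rfl⟩, ?_⟩
    rintro _ ⟨f, hf, g, hg, rfl⟩
    change volume _ < ε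
    refine lt_of_le_of_lt (measure_mono (t := {t : ℝ | t ∈ Ico (0 : ℝ) 1 ∧ f.1 t ∉ A ∩ B} ∪
      {t : ℝ | t ∈ Ico (0 : ℝ) 1 ∧ g.1 t ∉ A ∩ B}) ?_) ?_
    · rintro t ⟨h1, h2⟩
      by_contra hcon
      rw [mem_union, not_or] at hcon
      have h3 : f.1 t ∈ A ∩ B := by
        by_contra h
        exact hcon.1 ⟨h1, h⟩
      have h4 : g.1 t ∈ A ∩ B := by
        by_contra h
        exact hcon.2 ⟨h1, h⟩
      have h5 : (f.1 t, g.1 t) ∈ A ×ˢ B := ⟨h3.1, h4.2⟩
      exact h2 (hAB h5)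
    · refine lt_of_le_of_lt (measure_union_le _ _) ?_
      rw [← ENNReal.add_halves ε]
      exact ENNReal.add_lt_add hf hg
  neg' := by
    rintro _ ⟨U, hU, ε, hε, rfl⟩
    refine ⟨nb ((fun x => -x) ⁻¹' U) ε, ⟨_, ?_, _, hε, rfl⟩, fun g hg => hg⟩
    have := (continuous_neg (G := E)).tendsto 0
    rw [neg_zero] at this
    exact this hU
  conj' := by
    rintro g _ ⟨U, hU, ε, hε, rfl⟩
    refine ⟨nb U ε, ⟨U, hU, ε, hε, rfl⟩, fun f hf => ?_⟩
    rw [mem_preimage, add_comm g f, add_assoc, add_neg_cancel, add_zero]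
    exact hf
  smul' := by
    rintro _ ⟨U, hU, ε, hε, rfl⟩
    have hs : Tendsto (fun p : ℝ × E => p.1 • p.2) (𝓝 0 ×ˢ 𝓝 0) (𝓝 0) := by
      have := (continuous_smul (M := ℝ) (X := E)).tendsto (0, 0)
      rwa [nhds_prod_eq, smul_zero] at this
    obtain ⟨A, hA, B, hB, hAB⟩ := mem_prod_iff.1 (hs hU)
    refine ⟨A, hA, nb B ε, ⟨B, hB, ε, hε, rfl⟩, ?_⟩
    rintro _ ⟨c, hc, g, hg, rfl⟩
    refine lt_of_le_of_lt (measure_mono ?_) hg
    rintro t ⟨h1, h2⟩
    refine ⟨h1, fun h3 => h2 ?_⟩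
    exact hAB (show (c, g.1 t) ∈ A ×ˢ B from ⟨hc, h3⟩)
  smul_left' := by
    rintro c _ ⟨U, hU, ε, hε, rfl⟩
    refine ⟨nb ((fun x => c • x) ⁻¹' U) ε, ⟨_, ?_, _, hε, rfl⟩, fun g hg => hg⟩
    have := (continuous_const_smul (T := E) c).tendsto 0
    rw [smul_zero] at this
    exact this hU
  smul_right' := by
    rintro g _ ⟨U, hU, ε, hε, rfl⟩
    have h : ∀ᶠ c : ℝ in 𝓝 0, ∀ x ∈ range g.1, c • x ∈ U := by
      have hfin : (range g.1).Finite := g.2
      rw [hfin.eventually_all]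
      intro x _
      have : Tendsto (fun c : ℝ => c • x) (𝓝 0) (𝓝 0) := by
        have h1 : Continuous fun c : ℝ => c • x := by fun_prop
        have := h1.tendsto 0
        rwa [zero_smul] at this
      exact this hU
    filter_upwards [h] with c hc
    have h2 : {t : ℝ | t ∈ Ico (0 : ℝ) 1 ∧ (c • g).1 t ∉ U} = ∅ := by
      ext t
      simp only [mem_ofPred_eq, mem_empty_iff_false, iff_false, not_and, not_not]
      intro _
      exact hc _ ⟨t, rfl⟩
    change volume {t : ℝ | t ∈ Ico (0 : ℝ) 1 ∧ (c • g).1 t ∉ U} < ε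
    rw [h2, measure_empty]
    exact hε

instance instTop : TopologicalSpace (SF E) := (basis E).topology

instance instAddGroup : IsTopologicalAddGroup (SF E) := (basis E).isTopologicalAddGroup

instance instSMul : ContinuousSMul ℝ (SF E) := (basis E).continuousSMul

theorem mem_nhds_zero {S : Set (SF E)} :
    S ∈ 𝓝 (0 : SF E) ↔ ∃ U ∈ 𝓝 (0 : E), ∃ ε : ENNReal, 0 < ε ∧ nb U ε ⊆ S := by
  rw [(basis E).toAddGroupFilterBasis.nhds_zero_hasBasis.mem_iff]
  constructor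
  · rintro ⟨_, ⟨U, hU, ε, hε, rfl⟩, h⟩
    exact ⟨U, hU, ε, hε, h⟩
  · rintro ⟨U, hU, ε, hε, h⟩
    exact ⟨_, ⟨U, hU, ε, hε, rfl⟩, h⟩

/-- constant functions -/
def const : E →ₗ[ℝ] SF E where
  toFun v := ⟨fun _ => v, by
    refine (finite_singleton v).subset ?_
    rintro _ ⟨t, rfl⟩
    rfl⟩
  map_add' _ _ := rfl
  map_smul' _ _ := rfl

theorem const_inducing : IsInducing (const (E := E)) := by
  rw [show (const (E := E) : E → SF E) = ((const (E := E)).toAddMonoidHom : E → SF E) from rfl,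
    IsTopologicalAddGroup.isInducing_iff_nhds_zero]
  ext S
  rw [mem_comap]
  constructor
  · intro hS
    refine ⟨nb S 1, mem_nhds_zero.2 ⟨S, hS, 1, one_pos, subset_rfl⟩, ?_⟩
    intro v hv
    by_contra hvS
    have h1 : {t : ℝ | t ∈ Ico (0 : ℝ) 1 ∧ (const v).1 t ∉ S} = Ico (0 : ℝ) 1 := by
      ext t
      simp only [mem_ofPred_eq, and_iff_left_iff_imp]
      intro _
      exact hvS
    have h2 : volume {t : ℝ | t ∈ Ico (0 : ℝ) 1 ∧ (const v).1 t ∉ S} < 1 := hv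
    rw [h1, Real.volume_Ico] at h2
    norm_num at h2
  · rintro ⟨T, hT, hTS⟩
    obtain ⟨U, hU, ε, hε, hUT⟩ := mem_nhds_zero.1 hT
    refine mem_of_superset hU fun v hv => hTS (hUT ?_)
    have h1 : {t : ℝ | t ∈ Ico (0 : ℝ) 1 ∧ (const v).1 t ∉ U} = ∅ := by
      ext t
      simp only [mem_ofPred_eq, mem_empty_iff_false, iff_false, not_and, not_not]
      intro _
      exact hv
    change volume {t : ℝ | t ∈ Ico (0 : ℝ) 1 ∧ (const v).1 t ∉ U} < ε
    rw [h1, measure_empty]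
    exact hε

theorem continuousAt_iff {X : Type v} [TopologicalSpace X] (r : X → SF E) (x : X) :
    ContinuousAt r x ↔ ∀ U ∈ 𝓝 (0 : E), ∀ ε : ENNReal, 0 < ε → ∀ᶠ z in 𝓝 x, r z - r x ∈ nb U ε := by
  rw [ContinuousAt, ← tendsto_sub_nhds_zero_iff]
  constructor
  · intro h U hU ε hε
    exact h (mem_nhds_zero.2 ⟨U, hU, ε, hε, subset_rfl⟩)
  · intro h S hS
    obtain ⟨U, hU, ε, hε, hUS⟩ := mem_nhds_zero.1 hS
    exact (h U hU ε hε).mono fun z hz => hUS hz

end SF

section Selection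

variable {Z : Type u} [TopologicalSpace Z] {ι : Type v} [LinearOrder ι] [WellFoundedLT ι]
  (ρ : PartitionOfUnity ι Z univ)

/-- partial sums -/
noncomputable def Sf (i : ι) (z : Z) : ℝ := ∑ᶠ j, if j ≤ i then ρ j z else 0

omit [WellFoundedLT ι] in
theorem continuous_Sf (i : ι) : Continuous (Sf ρ i) := by
  apply continuous_finsum
  · intro j
    by_cases h : j ≤ i
    · simp only [if_pos h]
      exact (ρ j).continuous
    · simp only [if_neg h]
      exact continuous_const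
  · apply ρ.locallyFinite.subset
    intro j z hz
    rw [Function.mem_support] at hz ⊢
    intro h
    apply hz
    rw [h, ite_self]

omit [WellFoundedLT ι] in
theorem Sf_eq (i : ι) (z : Z) : Sf ρ i z = ∑ j ∈ (ρ.finsupport z).filter (· ≤ i), ρ j z := by
  rw [Finset.sum_filter]
  apply finsum_eq_sum_of_support_subset
  intro j hj
  rw [Function.mem_support] at hj
  rw [ρ.coe_finsupport, Function.mem_support]
  intro h
  apply hj
  rw [h, ite_self]

theorem exists_Sf (z : Z) {τ : ℝ} (h1 : τ < 1) : ∃ i, τ < Sf ρ i z := by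
  have hsum := ρ.sum_finsupport (mem_univ z)
  have hne : (ρ.finsupport z).Nonempty := by
    by_contra h
    rw [Finset.not_nonempty_iff_eq_empty] at h
    rw [h, Finset.sum_empty] at hsum
    exact zero_ne_one hsum
  refine ⟨(ρ.finsupport z).max' hne, ?_⟩
  rw [Sf_eq, Finset.filter_true_of_mem fun j hj => Finset.le_max' _ j hj, hsum]
  exact h1

open Classical in
/-- the selected index -/
noncomputable def sel (z : Z) (τ : ℝ) (h1 : τ < 1) : ι :=
  (wellFounded_lt (α := ι)).min {i | τ < Sf ρ i z} (exists_Sf ρ z h1)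

theorem lt_Sf_sel (z : Z) (τ : ℝ) (h1 : τ < 1) : τ < Sf ρ (sel ρ z τ h1) z :=
  (wellFounded_lt (α := ι)).min_mem {i | τ < Sf ρ i z} (exists_Sf ρ z h1)

theorem sel_le (z : Z) (τ : ℝ) (h1 : τ < 1) {i : ι} (hi : τ < Sf ρ i z) : sel ρ z τ h1 ≤ i := by
  by_contra h
  exact (wellFounded_lt (α := ι)).not_lt_min {i | τ < Sf ρ i z} hi (not_le.1 h)

theorem sel_ne (z : Z) {τ : ℝ} (h0 : 0 ≤ τ) (h1 : τ < 1) : ρ (sel ρ z τ h1) z ≠ 0 := by
  intro h
  have hlt := lt_Sf_sel ρ z τ h1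
  rw [Sf_eq] at hlt
  have hne : ((ρ.finsupport z).filter (· ≤ sel ρ z τ h1)).Nonempty := by
    by_contra h'
    rw [Finset.not_nonempty_iff_eq_empty] at h'
    rw [h', Finset.sum_empty] at hlt
    exact absurd hlt (not_lt.2 h0)
  obtain ⟨j, hj, hmax⟩ := Finset.exists_max_image _ id hne
  rw [Finset.mem_filter] at hj
  have hjne : j ≠ sel ρ z τ h1 := by
    intro h'
    rw [← h'] at h
    exact ((ρ.mem_finsupport z).1 hj.1) h
  have hSf : Sf ρ j z = ∑ k ∈ (ρ.finsupport z).filter (· ≤ sel ρ z τ h1), ρ k z := by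
    rw [Sf_eq]
    congr 1
    ext k
    rw [Finset.mem_filter, Finset.mem_filter]
    constructor
    · rintro ⟨h2, h3⟩
      exact ⟨h2, h3.trans hj.2⟩
    · rintro ⟨h2, h3⟩
      exact ⟨h2, hmax k (Finset.mem_filter.2 ⟨h2, h3⟩)⟩
  rw [← hSf] at hlt
  exact absurd (sel_le ρ z τ h1 hlt) (not_le.2 (lt_of_le_of_ne hj.2 hjne))

theorem sel_eventually (z₀ : Z) {ε : ENNReal} (hε : 0 < ε) :
    ∀ᶠ z in 𝓝 z₀, volume {τ : ℝ | ∃ (_ : 0 ≤ τ) (h1 : τ < 1), sel ρ z τ h1 ≠ sel ρ z₀ τ h1} < ε := by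
  obtain ⟨N, hN, hfin⟩ := ρ.locallyFinite z₀
  let J : Finset ι := hfin.toFinset
  have hJ : ∀ z ∈ N, ∀ j, ρ j z ≠ 0 → j ∈ J := fun z hz j hj => hfin.mem_toFinset.2 ⟨z, hj, hz⟩
  obtain ⟨η, hη, hη'⟩ := ENNReal.exists_nnreal_pos_mul_lt (a := 2 * (J.card : ENNReal))
    (ENNReal.mul_ne_top (by norm_num) (ENNReal.natCast_ne_top _)) hε.ne'
  have hcl : ∀ᶠ z in 𝓝 z₀, ∀ j ∈ J, |Sf ρ j z - Sf ρ j z₀| < η := by
    rw [Finset.eventually_all]
    intro j _
    have h := (continuous_Sf ρ j).tendsto z₀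
    rw [Metric.tendsto_nhds] at h
    exact h η (by exact_mod_cast hη)
  filter_upwards [hN, hcl] with z hz hzJ
  have hz₀ : z₀ ∈ N := mem_of_mem_nhds hN
  refine lt_of_le_of_lt (measure_mono (t := ⋃ j ∈ J, Icc (Sf ρ j z₀ - η) (Sf ρ j z₀ + η)) ?_) ?_
  · rintro τ ⟨h0, h1, hne⟩
    by_contra hcon
    simp only [mem_iUnion, not_exists] at hcon
    apply hne
    have hiff : ∀ j ∈ J, τ < Sf ρ j z ↔ τ < Sf ρ j z₀ := by
      intro j hj
      have h2 := hcon j hj
      have h3 := abs_lt.1 (hzJ j hj)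
      rw [mem_Icc, not_and_or, not_le, not_le] at h2
      rcases h2 with h2 | h2
      · exact ⟨fun _ => by linarith [h3.1, h3.2, NNReal.coe_nonneg η], fun _ => by linarith [h3.1, h3.2]⟩
      · exact ⟨fun h => by linarith [h3.1, h3.2], fun h => by linarith [h3.1, h3.2, NNReal.coe_nonneg η]⟩
    have hm := hJ z hz _ (sel_ne ρ z h0 h1)
    have hm₀ := hJ z₀ hz₀ _ (sel_ne ρ z₀ h0 h1)
    exact le_antisymm (sel_le ρ z τ h1 ((hiff _ hm₀).2 (lt_Sf_sel ρ z₀ τ h1)))
      (sel_le ρ z₀ τ h1 ((hiff _ hm).1 (lt_Sf_sel ρ z τ h1)))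
  · refine lt_of_le_of_lt (measure_biUnion_finset_le _ _) ?_
    have h4 : ∀ j ∈ J, volume (Icc (Sf ρ j z₀ - η) (Sf ρ j z₀ + η)) = 2 * (η : ENNReal) := by
      intro j _
      rw [Real.volume_Icc, show Sf ρ j z₀ + η - (Sf ρ j z₀ - η) = 2 * (η : ℝ) by ring,
        ENNReal.ofReal_mul (by norm_num), ENNReal.ofReal_coe_nnreal]
      norm_num
    rw [Finset.sum_congr rfl h4, Finset.sum_const, nsmul_eq_mul]
    calc (J.card : ENNReal) * (2 * η) = η * (2 * J.card) := by ring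
      _ < ε := hη'

end Selection

section Dugundji

variable {X : Type v} [TopologicalSpace X] [TopologicalSpace.MetrizableSpace X]
  {E : Type u} [AddCommGroup E] [Module ℝ E] [TopologicalSpace E] [IsTopologicalAddGroup E]
  [ContinuousSMul ℝ E]

/-- A continuous map from a closed subset of a metrizable space into a topological vector space
`E` extends to a continuous map of the whole space into `SF E`. -/
theorem exists_extension {Y : Set X} (hY : IsClosed Y) (hne : Y.Nonempty) (f : Y → E)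
    (hf : Continuous f) : ∃ r : X → SF E, Continuous r ∧ ∀ y : Y, r y = const (f y) := by
  classical
  let _ : MetricSpace X := TopologicalSpace.metrizableSpaceMetric X
  let δ : X → ℝ := fun x => Metric.infDist x Y
  have hδ : ∀ x : X, x ∉ Y → 0 < δ x := fun x hx => (hY.notMem_iff_infDist_pos hne).1 hx
  let Z : Type v := {x : X // x ∉ Y}
  let _ : LinearOrder Z := IsWellOrder.linearOrder WellOrderingRel
  have _ : WellFoundedLT Z := ⟨(IsWellFounded.wf : WellFounded (WellOrderingRel (α := Z)))⟩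
  obtain ⟨ρ, hρ⟩ := PartitionOfUnity.exists_isSubordinate (X := Z) (ι := Z) isClosed_univ
    (fun i => Metric.ball i (δ i.1 / 4)) (fun i => Metric.isOpen_ball)
    (fun z _ => mem_iUnion.2 ⟨z, Metric.mem_ball_self (by linarith [hδ z.1 z.2])⟩)
  have ha : ∀ i : Z, ∃ a : Y, dist i.1 a.1 < 2 * δ i.1 := by
    intro i
    have h := hδ i.1 i.2
    obtain ⟨y, hy, hy'⟩ := (Metric.infDist_lt_iff (x := i.1) hne).1
      (show Metric.infDist i.1 Y < 2 * δ i.1 by change δ i.1 < _; linarith)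
    exact ⟨⟨y, hy⟩, hy'⟩
  choose a ha using ha
  have hclose : ∀ (z i : Z), ρ i z ≠ 0 → dist z.1 (a i).1 < 3 * δ z.1 := by
    intro z i hi
    have h1 : z ∈ Metric.ball i (δ i.1 / 4) := hρ i (subset_tsupport _ hi)
    have h2 : dist z.1 i.1 < δ i.1 / 4 := h1
    have h3 : δ i.1 ≤ δ z.1 + dist i.1 z.1 := Metric.infDist_le_infDist_add_dist
    have h4 := dist_triangle z.1 i.1 (a i).1
    have h5 := ha i
    rw [dist_comm i.1 z.1] at h3
    linarith
  -- the extension on the complement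
  let rZ : Z → SF E := fun z => ⟨fun τ => if h : 0 ≤ τ ∧ τ < 1 then f (a (sel ρ z τ h.2)) else 0, by
    refine ((((ρ.finsupport z).finite_toSet).image fun i => f (a i)).union
      (finite_singleton (0 : E))).subset ?_
    rintro _ ⟨τ, rfl⟩
    by_cases h : 0 ≤ τ ∧ τ < 1
    · left
      refine ⟨sel ρ z τ h.2, (ρ.mem_finsupport z).2 (sel_ne ρ z h.1 h.2), ?_⟩
      change f (a (sel ρ z τ h.2)) =
        dite (0 ≤ τ ∧ τ < 1) (fun h => f (a (sel ρ z τ h.2))) fun _ => 0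
      rw [dif_pos h]
    · right
      exact dif_neg h⟩
  have hrZ : ∀ (z : Z) (τ : ℝ) (h : 0 ≤ τ ∧ τ < 1), (rZ z).1 τ = f (a (sel ρ z τ h.2)) :=
    fun z τ h => dif_pos h
  have hcZ : Continuous rZ := by
    rw [continuous_iff_continuousAt]
    intro z₀
    rw [continuousAt_iff]
    intro U hU ε hε
    filter_upwards [sel_eventually ρ z₀ hε] with z hz
    refine lt_of_le_of_lt (measure_mono ?_) hz
    rintro τ ⟨⟨h0, h1⟩, h2⟩
    refine ⟨h0, h1, fun heq => h2 ?_⟩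
    have h3 : (rZ z - rZ z₀).1 τ = (rZ z).1 τ - (rZ z₀).1 τ := rfl
    rw [h3, hrZ z τ ⟨h0, h1⟩, hrZ z₀ τ ⟨h0, h1⟩]
    simp only [heq, sub_self]
    exact mem_of_mem_nhds hU
  refine ⟨fun x => if h : x ∈ Y then const (f ⟨x, h⟩) else rZ ⟨x, h⟩, ?_, ?_⟩
  · rw [continuous_iff_continuousAt]
    intro x₀
    by_cases hx₀ : x₀ ∈ Y
    · rw [continuousAt_iff]
      intro U hU ε hε
      have h1 : ∀ᶠ y : Y in 𝓝 ⟨x₀, hx₀⟩, f y - f ⟨x₀, hx₀⟩ ∈ U := by
        have h2 := hf.tendsto ⟨x₀, hx₀⟩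
        rw [← tendsto_sub_nhds_zero_iff] at h2
        exact h2 hU
      obtain ⟨d, hd, hd'⟩ := Metric.eventually_nhds_iff.1 h1
      have h5 : ∀ᶠ x in 𝓝 x₀, dist x x₀ < d / 4 := Metric.eventually_nhds_iff.2
        ⟨d / 4, by linarith, fun _ h => h⟩
      filter_upwards [h5] with x hx
      have hfx₀ : (if h : x₀ ∈ Y then const (f ⟨x₀, h⟩) else rZ ⟨x₀, h⟩) =
          const (f ⟨x₀, hx₀⟩) := dif_pos hx₀
      rw [hfx₀]
      have hemp : {τ : ℝ | τ ∈ Ico (0 : ℝ) 1 ∧ ((if h : x ∈ Y then const (f ⟨x, h⟩)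
          else rZ ⟨x, h⟩) - const (f ⟨x₀, hx₀⟩)).1 τ ∉ U} = ∅ := by
        ext τ
        simp only [mem_ofPred_eq, mem_empty_iff_false, iff_false, not_and, not_not]
        rintro ⟨h0, h1'⟩
        by_cases hxY : x ∈ Y
        · rw [dif_pos hxY]
          exact hd' (y := ⟨x, hxY⟩) (show dist x x₀ < d by linarith)
        · rw [dif_neg hxY]
          change (rZ ⟨x, hxY⟩).1 τ - f ⟨x₀, hx₀⟩ ∈ U
          rw [hrZ ⟨x, hxY⟩ τ ⟨h0, h1'⟩]
          apply hd'
          have h6 := hclose ⟨x, hxY⟩ _ (sel_ne ρ ⟨x, hxY⟩ h0 h1')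
          have h7 : δ x ≤ dist x x₀ := Metric.infDist_le_dist_of_mem hx₀
          have h8 := dist_triangle_left (a (sel ρ ⟨x, hxY⟩ τ h1')).1 x₀ x
          change dist (a (sel ρ ⟨x, hxY⟩ τ h1')).1 x₀ < d
          change dist x _ < 3 * δ x at h6
          linarith
      change volume {τ : ℝ | τ ∈ Ico (0 : ℝ) 1 ∧ ((if h : x ∈ Y then const (f ⟨x, h⟩)
          else rZ ⟨x, h⟩) - const (f ⟨x₀, hx₀⟩)).1 τ ∉ U} < ε
      rw [hemp, measure_empty]
      exact hε
    · have h1 : ContinuousOn (fun x => if h : x ∈ Y then const (f ⟨x, h⟩) else rZ ⟨x, h⟩) Yᶜ := by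
        rw [continuousOn_iff_continuous_domRestrict]
        have h2 : Yᶜ.domRestrict (fun x => if h : x ∈ Y then const (f ⟨x, h⟩) else rZ ⟨x, h⟩) =
            fun z : (Yᶜ : Set X) => rZ ⟨z.1, z.2⟩ := by
          funext z
          exact dif_neg z.2
        rw [h2]
        exact hcZ
      exact h1.continuousAt (hY.isOpen_compl.mem_nhds hx₀)
  · intro y
    exact dif_pos y.2

end Dugundji

end Pool.Agent.Q147.StepTVS
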