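import Mathlib
import Pool.Agent.Q147.QFun

namespace Pool.Agent.Q147.SuslinSpace

open Set Filter Topology Ordinal Pool.Agent.Q147.QFun

/-- `(T, ≤)` with the level function `lev` is a normal `ω`-splitting free Suslin tree. -/
structure FreeSuslin (T : Type) [PartialOrder T] (lev : T → Ordinal.{0}) : Prop where
  nonempty : Nonempty T
  lt_omega_one : ∀ t : T, lev t < ω₁
  lev_lt : ∀ s t : T, s < t → lev s < lev t
  below : ∀ t : T, ∀ α ≤ lev t, ∃ s ≤ t, lev s = α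
  comparable : ∀ s t u : T, s ≤ u → t ≤ u → s ≤ t ∨ t ≤ s
  level_countable : ∀ α : Ordinal.{0}, {t : T | lev t = α}.Countable
  extend : ∀ s : T, ∀ α : Ordinal.{0}, lev s ≤ α → α < ω₁ → ∃ t, s ≤ t ∧ lev t = α
  hausdorff : ∀ s t : T, lev s = lev t → 0 < lev s → (∀ β < lev s, β + 1 < lev s) →
    (∀ r, r < s ↔ r < t) → s = t
  split : ∀ s : T, {t : T | s < t ∧ lev t = lev s + 1}.Infinite
  free : ∀ (n : ℕ) (s : Fin n → T), Function.Injective s → (∀ i j, lev (s i) = lev (s j)) →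
    ∀ A : Set (Fin n → T), (∀ u ∈ A, (∀ i, s i ≤ u i) ∧ ∀ i j, lev (u i) = lev (u j)) →
      (∀ u ∈ A, ∀ v ∈ A, u ≠ v → ¬ ∃ w : Fin n → T, (∀ i, u i ≤ w i) ∧ ∀ i, v i ≤ w i) →
      A.Countable

theorem countable_Iic {δ : Ordinal.{0}} (hδ : δ < ω₁) : (Iic δ).Countable := by
  have h1 : (Iio (δ + 1)).Countable := by
    rw [← Cardinal.le_aleph0_iff_set_countable, ← Order.lt_succ_iff, Cardinal.succ_aleph0,
      Cardinal.mk_Iio_ordinal]
    have h2 : (δ + 1).card < Cardinal.aleph 1 := by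
      rw [← Cardinal.lt_ord, Cardinal.ord_aleph]
      have : Order.IsSuccLimit (ω₁ : Ordinal.{0}) := by
        rw [← Cardinal.ord_aleph]
        exact Cardinal.isSuccLimit_ord (Cardinal.aleph0_le_aleph 1)
      exact this.add_one_lt hδ
    calc Cardinal.lift (δ + 1).card < Cardinal.lift (Cardinal.aleph 1) := Cardinal.lift_lt.mpr h2
      _ = Cardinal.aleph 1 := by simp
  refine h1.mono ?_
  intro x hx
  exact Order.lt_add_one_iff.mpr (mem_Iic.mp hx)

theorem succ_lt {δ : Ordinal.{0}} (hδ : δ < ω₁) : δ + 1 < ω₁ := by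
  have : Order.IsSuccLimit (ω₁ : Ordinal.{0}) := by
    rw [← Cardinal.ord_aleph]
    exact Cardinal.isSuccLimit_ord (Cardinal.aleph0_le_aleph 1)
  exact this.add_one_lt hδ

variable {T : Type} [PartialOrder T] {lev : T → Ordinal.{0}}

/-- Immediate successors. -/
def suc (lev : T → Ordinal.{0}) (s : T) : Set T := {t | s < t ∧ lev t = lev s + 1}

theorem lev_le (hT : FreeSuslin T lev) {s t : T} (h : s ≤ t) : lev s ≤ lev t := by
  rcases h.eq_or_lt with h | h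
  · rw [h]
  · exact (hT.lev_lt s t h).le

theorem eq_of_lev (hT : FreeSuslin T lev) {s t u : T} (hs : s ≤ u) (ht : t ≤ u)
    (h : lev s = lev t) : s = t := by
  rcases hT.comparable s t u hs ht with h1 | h1
  · rcases h1.eq_or_lt with h2 | h2
    · exact h2
    · exact absurd (hT.lev_lt s t h2) (by rw [h]; exact lt_irrefl _)
  · rcases h1.eq_or_lt with h2 | h2
    · exact h2.symm
    · exact absurd (hT.lev_lt t s h2) (by rw [h]; exact lt_irrefl _)

theorem le_of_lev (hT : FreeSuslin T lev) {s t u : T} (hs : s ≤ u) (ht : t ≤ u)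
    (h : lev s ≤ lev t) : s ≤ t := by
  rcases hT.comparable s t u hs ht with h1 | h1
  · exact h1
  · rcases h1.eq_or_lt with h2 | h2
    · exact h2.symm.le
    · exact absurd (hT.lev_lt t s h2) (not_lt.mpr h)

theorem exists_suc (hT : FreeSuslin T lev) {s t : T} (h : s < t) : ∃ r ∈ suc lev s, r ≤ t := by
  have h1 : lev s + 1 ≤ lev t := Order.add_one_le_of_lt (hT.lev_lt s t h)
  obtain ⟨r, hr, hr2⟩ := hT.below t _ h1
  refine ⟨r, ⟨?_, hr2⟩, hr⟩
  have h2 : s ≤ r := le_of_lev hT h.le hr (by rw [hr2]; exact le_self_add)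
  apply lt_of_le_of_ne h2
  intro h3
  have h4 : lev s = lev s + 1 := by
    conv_lhs => rw [h3]
    exact hr2
  exact absurd (lt_add_one (lev s)) (by rw [← h4]; exact lt_irrefl _)

/-- The tree as a space. -/
structure Sp (lev : T → Ordinal.{0}) where
  /-- the underlying node -/
  pt : T

/-- The topology: `G` is a neighbourhood of `t` if it contains the cone of `t` minus the cones
of finitely many immediate successors of `t`. -/
instance topSp : TopologicalSpace (Sp lev) where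
  IsOpen G := ∀ x ∈ G, ∃ F : Set T, F.Finite ∧ F ⊆ suc lev x.pt ∧
    ∀ y : Sp lev, x.pt ≤ y.pt → (∀ r ∈ F, ¬ r ≤ y.pt) → y ∈ G
  isOpen_univ := fun _ _ => ⟨∅, finite_empty, empty_subset _, fun _ _ _ => trivial⟩
  isOpen_inter := by
    rintro G G' h h' t ⟨ht, ht'⟩
    obtain ⟨F, h1, h2, h3⟩ := h t ht
    obtain ⟨F', h1', h2', h3'⟩ := h' t ht'
    exact ⟨F ∪ F', h1.union h1', union_subset h2 h2', fun x hx hr =>
      ⟨h3 x hx (fun r hr' => hr r (Or.inl hr')), h3' x hx (fun r hr' => hr r (Or.inr hr'))⟩⟩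
  isOpen_sUnion := by
    rintro S hS t ⟨G, hG, ht⟩
    obtain ⟨F, h1, h2, h3⟩ := hS G hG t ht
    exact ⟨F, h1, h2, fun x hx hr => ⟨G, hG, h3 x hx hr⟩⟩

theorem isOpen_iff {G : Set (Sp lev)} : IsOpen G ↔
    ∀ x ∈ G, ∃ F : Set T, F.Finite ∧ F ⊆ suc lev x.pt ∧
    ∀ y : Sp lev, x.pt ≤ y.pt → (∀ r ∈ F, ¬ r ≤ y.pt) → y ∈ G := Iff.rfl

/-- The cone of `t`. -/
def cone (lev : T → Ordinal.{0}) (t : T) : Set (Sp lev) := {x | t ≤ x.pt}

theorem isOpen_cone (t : T) : IsOpen (cone lev t) := by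
  rw [isOpen_iff]
  intro s hs
  exact ⟨∅, finite_empty, empty_subset _, fun x hx _ => le_trans hs hx⟩

theorem isClosed_cone (hT : FreeSuslin T lev) (t : T) : IsClosed (cone lev t) := by
  rw [← isOpen_compl_iff, isOpen_iff]
  intro s hs
  by_cases h : s.pt ≤ t
  · have hst : s.pt < t := lt_of_le_of_ne h (fun h' => hs (show t ≤ s.pt from h' ▸ le_rfl))
    obtain ⟨r, hr, hrt⟩ := exists_suc hT hst
    refine ⟨{r}, finite_singleton _, singleton_subset_iff.mpr hr, ?_⟩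
    intro x _ hx2 hx3
    exact hx2 r rfl (hrt.trans hx3)
  · refine ⟨∅, finite_empty, empty_subset _, ?_⟩
    intro x hx _ hx3
    rcases hT.comparable s.pt t x.pt hx hx3 with h1 | h1
    · exact h h1
    · exact hs h1

/-- The basic clopen sets. -/
def nb (lev : T → Ordinal.{0}) (t : T) (F : Set T) : Set (Sp lev) :=
  cone lev t ∩ (⋃ r ∈ F, cone lev r)ᶜ

theorem mem_nb {t : T} {F : Set T} {x : Sp lev} : x ∈ nb lev t F ↔
    t ≤ x.pt ∧ ∀ r ∈ F, ¬ r ≤ x.pt := by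
  constructor
  · rintro ⟨h1, h2⟩
    refine ⟨h1, fun r hr h3 => h2 ?_⟩
    exact mem_biUnion hr h3
  · rintro ⟨h1, h2⟩
    refine ⟨h1, fun h3 => ?_⟩
    simp only [mem_iUnion] at h3
    obtain ⟨r, hr, h4⟩ := h3
    exact h2 r hr h4

theorem isClopen_nb (hT : FreeSuslin T lev) (t : T) {F : Set T} (hF : F.Finite) :
    IsClopen (nb lev t F) := by
  constructor
  · apply (isClosed_cone hT t).inter
    rw [isClosed_compl_iff]
    exact isOpen_biUnion (fun r _ => isOpen_cone r)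
  · apply (isOpen_cone t).inter
    rw [isOpen_compl_iff]
    exact hF.isClosed_biUnion (fun r _ => isClosed_cone hT r)

theorem exists_nb {G : Set (Sp lev)} (hG : IsOpen G) {t : Sp lev}
    (ht : t ∈ G) : ∃ F : Set T, F.Finite ∧ F ⊆ suc lev t.pt ∧
      t ∈ nb lev t.pt F ∧ nb lev t.pt F ⊆ G := by
  obtain ⟨F, h1, h2, h3⟩ := isOpen_iff.mp hG t ht
  refine ⟨F, h1, h2, ?_, ?_⟩
  · rw [mem_nb]
    refine ⟨le_rfl, fun r hr h => ?_⟩
    exact absurd h (not_le_of_gt (h2 hr).1)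
  · intro x hx
    obtain ⟨h4, h5⟩ := mem_nb.mp hx
    exact h3 x h4 h5

theorem exists_cone (hT : FreeSuslin T lev) {G : Set (Sp lev)} (hG : IsOpen G)
    {t : Sp lev} (ht : t ∈ G) : ∃ r : T, cone lev r ⊆ G ∧ t.pt < r := by
  obtain ⟨F, h1, h2, h3, h4⟩ := exists_nb hG ht
  obtain ⟨r, hr, hrF⟩ := (hT.split t.pt).exists_notMem_finite h1
  refine ⟨r, ?_, hr.1⟩
  refine Subset.trans ?_ h4
  intro x hx
  apply mem_nb.mpr
  refine ⟨hr.1.le.trans hx, fun r' hr' hr'x => ?_⟩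
  apply hrF
  have : r = r' := eq_of_lev hT hx hr'x (by rw [hr.2, (h2 hr').2])
  rw [this]
  exact hr'

theorem t2 (hT : FreeSuslin T lev) : T2Space (Sp lev) := by
  refine ⟨?_⟩
  intro x y hxy
  have hpt : x.pt ≠ y.pt := by
    intro h
    apply hxy
    cases x
    cases y
    simp only at h
    rw [h]
  by_cases h : y.pt ≤ x.pt
  · have h' : ¬ x.pt ≤ y.pt := fun h' => hpt (le_antisymm h' h)
    exact ⟨cone lev x.pt, (cone lev x.pt)ᶜ, isOpen_cone _, (isClosed_cone hT _).isOpen_compl,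
      le_refl x.pt, h', disjoint_compl_right⟩
  · exact ⟨(cone lev y.pt)ᶜ, cone lev y.pt, (isClosed_cone hT _).isOpen_compl, isOpen_cone _,
      h, le_refl y.pt, disjoint_compl_left⟩

/-- Semi-regularity. -/
def SemiRegular (X : Type*) [TopologicalSpace X] : Prop :=
  ∀ G : Set X, IsOpen G → ∀ x ∈ G, ∃ V : Set X, interior (closure V) = V ∧ x ∈ V ∧ V ⊆ G

theorem semiRegular (hT : FreeSuslin T lev) : SemiRegular (Sp lev) := by
  intro G hG x hx
  obtain ⟨F, h1, h2, h3, h4⟩ := exists_nb hG hx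
  have h5 := isClopen_nb hT x.pt h1
  exact ⟨_, by rw [h5.1.closure_eq, h5.2.interior_eq], h3, h4⟩

/-- Open Whyburn spaces. -/
def OpenWhyburn (X : Type*) [TopologicalSpace X] : Prop :=
  ∀ A : Set X, IsOpen A → ∀ x ∈ closure A \ A, ∃ B : Set X, IsOpen B ∧ B ⊆ A ∧ closure B \ A = {x}

theorem openWhyburn (hT : FreeSuslin T lev) : OpenWhyburn (Sp lev) := by
  classical
  rintro A hA t ⟨htA, htA'⟩
  have h1 : ∀ r : T, ∃ V : Set (Sp lev), IsClopen V ∧ V ⊆ cone lev r ∩ A ∧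
      ((cone lev r ∩ A).Nonempty → V.Nonempty) := by
    intro r
    by_cases h : (cone lev r ∩ A).Nonempty
    · obtain ⟨x, hx⟩ := h
      obtain ⟨F, h1, h2, h3, h4⟩ := exists_nb ((isOpen_cone r).inter hA) hx
      exact ⟨_, isClopen_nb hT x.pt h1, h4, fun _ => ⟨x, h3⟩⟩
    · exact ⟨∅, isClopen_empty, empty_subset _, fun h' => absurd h' h⟩
  choose V hV1 hV2 hV3 using h1
  refine ⟨⋃ r ∈ suc lev t.pt, V r, isOpen_biUnion (fun r _ => (hV1 r).2), ?_, ?_⟩
  · exact iUnion₂_subset (fun r _ => (hV2 r).trans inter_subset_right)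
  have hBt : (⋃ r ∈ suc lev t.pt, V r) ⊆ cone lev t.pt := by
    apply iUnion₂_subset
    intro r hr x hx
    exact hr.1.le.trans (hV2 r hx).1
  apply subset_antisymm
  · rintro y ⟨hy, hyA⟩
    have hty : t.pt ≤ y.pt := (closure_minimal hBt (isClosed_cone hT t.pt)) hy
    rw [mem_singleton_iff]
    by_contra hne
    have hlt : t.pt < y.pt := lt_of_le_of_ne hty (fun h => hne (by
      cases y
      cases t
      simp only at h
      rw [h]))
    obtain ⟨r, hr, hry⟩ := exists_suc hT hlt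
    have h2 : y ∈ closure (V r) := by
      rw [mem_closure_iff] at hy ⊢
      intro o ho hyo
      obtain ⟨z, ⟨hz1, hz2⟩, hz3⟩ := hy (o ∩ cone lev r) (ho.inter (isOpen_cone r)) ⟨hyo, hry⟩
      simp only [mem_iUnion] at hz3
      obtain ⟨r', hr', hz4⟩ := hz3
      have h5 : r' = r := eq_of_lev hT (hV2 r' hz4).1 hz2 (by rw [hr.2, hr'.2])
      rw [h5] at hz4
      exact ⟨z, hz1, hz4⟩
    rw [(hV1 r).1.closure_eq] at h2
    exact hyA (hV2 r h2).2
  · rw [singleton_subset_iff]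
    refine ⟨?_, htA'⟩
    rw [mem_closure_iff]
    intro o ho hto
    obtain ⟨F, h1, h2, h3, h4⟩ := exists_nb ho hto
    obtain ⟨y, hy1, hy2⟩ := mem_closure_iff.mp htA _ (isClopen_nb hT t.pt h1).2 h3
    obtain ⟨hty, hyF⟩ := mem_nb.mp hy1
    have hlt : t.pt < y.pt :=
      lt_of_le_of_ne hty (fun h => htA' (by
        cases y
        cases t
        simp only at h
        rw [h]
        exact hy2))
    obtain ⟨r, hr, hry⟩ := exists_suc hT hlt
    obtain ⟨z, hz⟩ := hV3 r ⟨y, hry, hy2⟩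
    refine ⟨z, h4 (mem_nb.mpr ⟨?_, ?_⟩), mem_biUnion hr hz⟩
    · exact hr.1.le.trans (hV2 r hz).1
    · intro r' hr' hr'z
      have h5 : r' = r := eq_of_lev hT hr'z (hV2 r hz).1 (by rw [hr.2, (h2 hr').2])
      exact hyF r' hr' (h5 ▸ hry)

theorem regular (hT : FreeSuslin T lev) : RegularSpace (Sp lev) := by
  apply RegularSpace.of_exists_mem_nhds_isClosed_subset
  intro x s hs
  obtain ⟨G, hGs, hG, hx⟩ := mem_nhds_iff.mp hs
  obtain ⟨F, h1, h2, h3, h4⟩ := exists_nb hG hx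
  have h5 := isClopen_nb hT x.pt h1
  exact ⟨_, h5.2.mem_nhds h3, h5.1, h4.trans hGs⟩

theorem firstCountable (hT : FreeSuslin T lev) : FirstCountableTopology (Sp lev) := by
  refine ⟨fun x => ?_⟩
  have hb : (𝓝 x).HasBasis (fun F : Set T => F.Finite ∧ F ⊆ suc lev x.pt)
      (fun F => nb lev x.pt F) := by
    refine ⟨fun s => ?_⟩
    constructor
    · intro hs
      obtain ⟨G, hGs, hG, hx⟩ := mem_nhds_iff.mp hs
      obtain ⟨F, h1, h2, h3, h4⟩ := exists_nb hG hx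
      exact ⟨F, ⟨h1, h2⟩, h4.trans hGs⟩
    · rintro ⟨F, ⟨h1, h2⟩, h3⟩
      refine mem_of_superset ((isClopen_nb hT x.pt h1).2.mem_nhds ?_) h3
      rw [mem_nb]
      exact ⟨le_rfl, fun r hr h => absurd h (not_le_of_gt (h2 hr).1)⟩
  apply Filter.HasCountableBasis.isCountablyGenerated (⟨hb, ?_⟩ :
    Filter.HasCountableBasis (𝓝 x) (fun F : Set T => F.Finite ∧ F ⊆ suc lev x.pt)
      (fun F => nb lev x.pt F))
  apply Set.countable_ofPred_finite_subset
  exact (hT.level_countable (lev x.pt + 1)).mono (fun t ht => ht.2)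

theorem uncountable (hT : FreeSuslin T lev) : ¬ Countable T := by
  intro hc
  have h1 : ⨆ t : T, lev t < ω₁ := Ordinal.iSup_lt_omega_one hT.lt_omega_one
  obtain ⟨t0⟩ := hT.nonempty
  have hb : BddAbove (range lev) := ⟨ω₁, by rintro _ ⟨t, rfl⟩; exact (hT.lt_omega_one t).le⟩
  obtain ⟨t, _, ht⟩ := hT.extend t0 ((⨆ t : T, lev t) + 1)
    ((le_ciSup hb t0).trans le_self_add) (succ_lt h1)
  have h2 : lev t ≤ ⨆ t : T, lev t := le_ciSup hb t
  rw [ht] at h2
  exact absurd (lt_add_one _) (not_lt.mpr h2)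

theorem exists_lev (hT : FreeSuslin T lev) {δ : Ordinal.{0}} (hδ : δ < ω₁) : ∃ t, lev t = δ := by
  obtain ⟨t0⟩ := hT.nonempty
  rcases le_total (lev t0) δ with h | h
  · obtain ⟨t, _, ht⟩ := hT.extend t0 δ h hδ
    exact ⟨t, ht⟩
  · obtain ⟨t, _, ht⟩ := hT.below t0 δ h
    exact ⟨t, ht⟩

/-- Dense open subsets of the derived trees contain a level. -/
theorem free_dense (hT : FreeSuslin T lev) (n : ℕ) (s : Fin n → T) (hs : Function.Injective s)
    (hl : ∀ i j, lev (s i) = lev (s j)) (D : Set (Fin n → T))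
    (hup : ∀ u ∈ D, ∀ v : Fin n → T, (∀ i, u i ≤ v i) → v ∈ D)
    (hd : ∀ u : Fin n → T, ∃ v ∈ D, ∀ i, u i ≤ v i) :
    ∃ γ < ω₁, (∀ i, lev (s i) ≤ γ) ∧
      ∀ u : Fin n → T, (∀ i, s i ≤ u i) → (∀ i, lev (u i) = γ) → u ∈ D := by
  classical
  let PP : Set (Set (Fin n → T)) := {A | (∀ u ∈ A, u ∈ D ∧ (∀ i, s i ≤ u i) ∧
    ∀ i j, lev (u i) = lev (u j)) ∧
    ∀ u ∈ A, ∀ v ∈ A, u ≠ v → ¬ ∃ w : Fin n → T, (∀ i, u i ≤ w i) ∧ ∀ i, v i ≤ w i}
  obtain ⟨A, hA⟩ := zorn_subset PP (by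
    intro c hc hchain
    refine ⟨⋃₀ c, ⟨?_, ?_⟩, fun s hs => subset_sUnion_of_mem hs⟩
    · rintro u ⟨B, hB, hu⟩
      exact (hc hB).1 u hu
    · rintro u ⟨B, hB, hu⟩ v ⟨B', hB', hv⟩ hne
      rcases hchain.total hB hB' with h | h
      · exact (hc hB').2 u (h hu) v hv hne
      · exact (hc hB).2 u hu v (h hv) hne)
  have hA1 := hA.prop
  have hAc : A.Countable := hT.free n s hs hl A (fun u hu => (hA1.1 u hu).2) hA1.2
  have hAc' : Countable A := hAc.to_subtype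
  let γ1 : Ordinal.{0} := ⨆ z : A × Fin n, lev (z.1.1 z.2)
  let γ2 : Ordinal.{0} := ⨆ i, lev (s i)
  have hγ1 : γ1 < ω₁ := Ordinal.iSup_lt_omega_one (fun z => hT.lt_omega_one _)
  have hγ2 : γ2 < ω₁ := Ordinal.iSup_lt_omega_one (fun z => hT.lt_omega_one _)
  have hb1 : BddAbove (range fun z : A × Fin n => lev (z.1.1 z.2)) :=
    ⟨ω₁, by rintro _ ⟨t, rfl⟩; exact (hT.lt_omega_one _).le⟩
  have hb2 : BddAbove (range fun i => lev (s i)) :=
    ⟨ω₁, by rintro _ ⟨t, rfl⟩; exact (hT.lt_omega_one _).le⟩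
  refine ⟨max γ1 γ2, max_lt hγ1 hγ2, fun i => (le_ciSup hb2 i).trans (le_max_right _ _), ?_⟩
  intro u hu hul
  obtain ⟨v, hvD, huv⟩ := hd u
  have hδ : (⨆ i, lev (v i)) < ω₁ := Ordinal.iSup_lt_omega_one (fun z => hT.lt_omega_one _)
  have hbv : BddAbove (range fun i => lev (v i)) :=
    ⟨ω₁, by rintro _ ⟨t, rfl⟩; exact (hT.lt_omega_one _).le⟩
  have hw : ∀ i, ∃ t, v i ≤ t ∧ lev t = ⨆ i, lev (v i) := fun i =>
    hT.extend (v i) _ (le_ciSup hbv i) hδ
  choose w hvw hwl using hw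
  have hwD : w ∈ D := hup v hvD w hvw
  have huw : ∀ i, u i ≤ w i := fun i => (huv i).trans (hvw i)
  have hcompat : ∃ a ∈ A, ∃ x : Fin n → T, (∀ i, a i ≤ x i) ∧ ∀ i, w i ≤ x i := by
    by_contra hno
    push Not at hno
    have h1 : insert w A ∈ PP := by
      constructor
      · rintro a (rfl | ha)
        · exact ⟨hwD, fun i => (hu i).trans (huw i), fun i j => by rw [hwl, hwl]⟩
        · exact hA1.1 a ha
      · rintro a (rfl | ha) b (rfl | hb) hne
        · exact absurd rfl hne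
        · rintro ⟨x, hx1, hx2⟩
          obtain ⟨i, hi⟩ := hno b hb x hx2
          exact hi (hx1 i)
        · rintro ⟨x, hx1, hx2⟩
          obtain ⟨i, hi⟩ := hno a ha x hx1
          exact hi (hx2 i)
        · exact hA1.2 a ha b hb hne
    have h2 : w ∈ A := hA.le_of_ge h1 (subset_insert _ _) (mem_insert _ _)
    obtain ⟨i, hi⟩ := hno w h2 w (fun _ => le_rfl)
    exact hi le_rfl
  obtain ⟨a, haA, x, hx1, hx2⟩ := hcompat
  apply hup a (hA1.1 a haA).1
  intro i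
  apply le_of_lev hT (hx1 i) ((huw i).trans (hx2 i))
  rw [hul]
  exact (le_ciSup hb1 (⟨a, haA⟩, i)).trans (le_max_left _ _)

theorem fu (hT : FreeSuslin T lev) : FU (Qp (Sp lev)) := by
  classical
  intro f A hf
  obtain ⟨t0⟩ := hT.nonempty
  let D : Finset T → ℕ → (m : ℕ) → Set (Fin m → T) := fun F n m => {u | ∃ h ∈ A,
    (∀ x ∈ F, |h.1 ⟨x⟩ - f.1 ⟨x⟩| < 1 / ((n : ℝ) + 1)) ∧
    ∀ i, ∀ y : Sp lev, u i ≤ y.pt → |h.1 y - f.1 y| < 1 / ((n : ℝ) + 1)}
  have hup : ∀ F n m, ∀ u ∈ D F n m, ∀ v : Fin m → T, (∀ i, u i ≤ v i) → v ∈ D F n m := by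
    rintro F n m u ⟨h, hA, h1, h2⟩ v huv
    exact ⟨h, hA, h1, fun i y hy => h2 i y ((huv i).trans hy)⟩
  have hd : ∀ F n m, ∀ u : Fin m → T, ∃ v ∈ D F n m, ∀ i, u i ≤ v i := by
    intro F n m u
    set ε : ℝ := 1 / ((n : ℝ) + 1) / 4 with hε
    have hε0 : 0 < ε := by rw [hε]; positivity
    have h1 : ∀ i, ∃ W : Set (Sp lev), IsOpen W ∧ W.Nonempty ∧ W ⊆ cone lev (u i) ∧
        ∀ y ∈ W, |f.1 y - f.1 ⟨u i⟩| < ε := fun i =>
      f.2.exists_small (isOpen_cone (u i)) (le_refl (u i)) hε0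
    choose W hW1 hW2 hW3 hW4 using h1
    choose w hw using hW2
    let F1 : Set (Sp lev) := ((fun x : T => (⟨x⟩ : Sp lev)) '' (F : Set T)) ∪ range w
    obtain ⟨h, hA, hh⟩ := approx hf F1 ((F.finite_toSet.image _).union (finite_range w)) hε0
    have h2 : ∀ i, ∃ W' : Set (Sp lev), IsOpen W' ∧ W'.Nonempty ∧ W' ⊆ W i ∧
        ∀ y ∈ W', |h.1 y - h.1 (w i)| < ε := fun i =>
      h.2.exists_small (hW1 i) (hw i) hε0
    choose W' hW'1 hW'2 hW'3 hW'4 using h2
    have h3 : ∀ i, ∃ r : T, cone lev r ⊆ W' i := by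
      intro i
      obtain ⟨x, hx⟩ := hW'2 i
      obtain ⟨r, hr, _⟩ := exists_cone hT (hW'1 i) hx
      exact ⟨r, hr⟩
    choose r hr using h3
    refine ⟨r, ⟨h, hA, ?_, ?_⟩, ?_⟩
    · intro x hx
      refine (hh ⟨x⟩ (Or.inl ⟨x, hx, rfl⟩)).trans ?_
      rw [hε]
      have : (0 : ℝ) < 1 / ((n : ℝ) + 1) := by positivity
      linarith
    · intro i y hy
      have hy1 : y ∈ W' i := hr i hy
      have a1 := hW'4 i y hy1
      have a2 := hh (w i) (Or.inr (mem_range_self i))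
      have a3 := hW4 i (w i) (hw i)
      have a4 := hW4 i y (hW'3 i hy1)
      have h4 : 1 / ((n : ℝ) + 1) = 4 * ε := by rw [hε]; ring
      rw [h4]
      rw [abs_lt] at a1 a2 a3 a4 ⊢
      constructor <;> linarith
    · intro i
      exact hW3 i (hW'3 i (hr i (show (⟨r i⟩ : Sp lev) ∈ cone lev (r i) from le_refl (r i))))
  have hγ : ∀ q : (Finset T × ℕ) × (Σ m : ℕ, Fin m → T), ∃ γ < ω₁,
      (Function.Injective q.2.2 → (∀ i j, lev (q.2.2 i) = lev (q.2.2 j)) →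
        (∀ i, lev (q.2.2 i) ≤ γ) ∧ ∀ u : Fin q.2.1 → T, (∀ i, q.2.2 i ≤ u i) →
          (∀ i, lev (u i) = γ) → u ∈ D q.1.1 q.1.2 q.2.1) := by
    rintro ⟨⟨F, n⟩, ⟨m, s⟩⟩
    by_cases h : Function.Injective s ∧ ∀ i j, lev (s i) = lev (s j)
    · obtain ⟨γ, h1, h2, h3⟩ := free_dense hT m s h.1 h.2 (D F n m) (hup F n m) (hd F n m)
      exact ⟨γ, h1, fun _ _ => ⟨h2, h3⟩⟩
    · refine ⟨0, Ordinal.omega_pos 1, fun h1 h2 => absurd ⟨h1, h2⟩ h⟩
  choose γ hγ1 hγ2 using hγ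
  let Δ1 : Finset T → Ordinal.{0} := fun F =>
    ⨆ z : ℕ × (Σ m : ℕ, Fin m → {x // x ∈ F}), γ ((F, z.1), ⟨z.2.1, fun i => (z.2.2 i).1⟩)
  let Δ2 : Finset T → Ordinal.{0} := fun F => ⨆ x : {x // x ∈ F}, (lev x.1 + 1)
  have hΔ1 : ∀ F, Δ1 F < ω₁ := fun F => Ordinal.iSup_lt_omega_one (fun z => hγ1 _)
  have hΔ2 : ∀ F, Δ2 F < ω₁ := fun F =>
    Ordinal.iSup_lt_omega_one (fun z => succ_lt (hT.lt_omega_one _))
  have hbd1 : ∀ F : Finset T, BddAbove (range fun z : ℕ × (Σ m : ℕ, Fin m → {x // x ∈ F}) =>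
      γ ((F, z.1), ⟨z.2.1, fun i => (z.2.2 i).1⟩)) :=
    fun F => ⟨ω₁, by rintro _ ⟨t, rfl⟩; exact (hγ1 _).le⟩
  have hbd2 : ∀ F : Finset T, BddAbove (range fun x : {x // x ∈ F} => lev x.1 + 1) :=
    fun F => ⟨ω₁, by rintro _ ⟨t, rfl⟩; exact (succ_lt (hT.lt_omega_one _)).le⟩
  have hcount : ∀ δ < ω₁, {t : T | lev t ≤ δ}.Countable := by
    intro δ hδ
    have : {t : T | lev t ≤ δ} = ⋃ α ∈ Iic δ, {t | lev t = α} := by
      ext t
      simp
    rw [this]
    exact (countable_Iic hδ).biUnion (fun α _ => hT.level_countable α)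
  obtain ⟨S, hS0, hSc, hS⟩ := exists_countable_closed
    (fun F => {t : T | lev t ≤ max (Δ1 F) (Δ2 F)})
    (fun F => hcount _ (max_lt (hΔ1 F) (hΔ2 F))) {t0} (countable_singleton t0)
  have ht0 : t0 ∈ S := hS0 rfl
  have hSc' : Countable S := hSc.to_subtype
  let α : Ordinal.{0} := ⨆ t : S, (lev t.1 + 1)
  have hα : α < ω₁ := Ordinal.iSup_lt_omega_one (fun t => succ_lt (hT.lt_omega_one _))
  have hbα : BddAbove (range fun t : S => lev t.1 + 1) :=
    ⟨ω₁, by rintro _ ⟨t, rfl⟩; exact (succ_lt (hT.lt_omega_one _)).le⟩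
  have hS1 : ∀ t ∈ S, ∀ t', lev t' ≤ lev t + 1 → t' ∈ S := by
    intro t ht t' ht'
    apply hS {t} (by simpa using ht)
    have h1 : lev t + 1 ≤ Δ2 {t} := le_ciSup (hbd2 {t}) ⟨t, Finset.mem_singleton_self t⟩
    exact (ht'.trans h1).trans (le_max_right _ _)
  have hαS : ∀ t ∈ S, lev t < α := fun t ht =>
    (lt_add_one (lev t)).trans_le (le_ciSup hbα ⟨t, ht⟩)
  have hαlt : ∀ β < α, ∃ t ∈ S, β ≤ lev t := by
    intro β hβ
    by_contra hno
    push Not at hno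
    have : α ≤ β := by
      have hne : Nonempty S := ⟨⟨t0, ht0⟩⟩
      apply ciSup_le
      intro t
      exact Order.add_one_le_of_lt (hno t.1 t.2)
    exact absurd hβ (not_lt.mpr this)
  have hSα : ∀ t, lev t < α → t ∈ S := by
    intro t ht
    obtain ⟨s, hs, hs2⟩ := hαlt _ ht
    exact hS1 s hs t (hs2.trans le_self_add)
  have hlim : ∀ β < α, β + 1 < α := by
    intro β hβ
    obtain ⟨s, hs, hs2⟩ := hαlt _ hβ
    obtain ⟨t, ht⟩ := exists_lev hT (succ_lt (hT.lt_omega_one s))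
    have h1 : t ∈ S := hS1 s hs t ht.le
    have h2 := hαS t h1
    rw [ht] at h2
    exact (add_le_add_left hs2 1).trans_lt h2
  have hα0 : 0 < α := lt_of_le_of_lt zero_le (hαS t0 ht0)
  have hK : ∀ (V F : Finset T) (n : ℕ), (∀ v ∈ V, lev v = α) → (∀ x ∈ F, x ∈ S) →
      ∃ h ∈ A, (∀ x ∈ F, |h.1 ⟨x⟩ - f.1 ⟨x⟩| < 1 / ((n : ℝ) + 1)) ∧
        ∀ v ∈ V, ∀ y : Sp lev, v ≤ y.pt → |h.1 y - f.1 y| < 1 / ((n : ℝ) + 1) := by
    intro V F n hV hF
    let m := V.card
    let u : Fin m → T := fun i => (V.equivFin.symm i).1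
    have huV : ∀ i, u i ∈ V := fun i => (V.equivFin.symm i).2
    have hui : Function.Injective u := Subtype.val_injective.comp V.equivFin.symm.injective
    have hus : ∀ v ∈ V, ∃ i, u i = v := fun v hv => ⟨V.equivFin ⟨v, hv⟩, by simp [u]⟩
    have hδ : ∀ z : Fin m × Fin m, ∃ δ < α, z.1 ≠ z.2 →
        ∀ w, w ≤ u z.1 → w ≤ u z.2 → lev w ≤ δ := by
      rintro ⟨i, j⟩
      by_cases hij : i = j
      · exact ⟨0, hα0, fun h => absurd hij h⟩
      · have h1 : ¬ ∀ r, r < u i ↔ r < u j := by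
          intro h
          apply hij
          apply hui
          have hi := hV _ (huV i)
          apply hT.hausdorff _ _ (by rw [hi, hV _ (huV j)]) (by rw [hi]; exact hα0)
            (by rw [hi]; exact hlim) h
        push Not at h1
        have key : ∀ a b : Fin m, ∀ r, r < u a → ¬ r < u b →
            ∀ w, w ≤ u a → w ≤ u b → lev w ≤ lev r := by
          intro a b r hra hrb w hwa hwb
          by_contra hlt
          rw [not_le] at hlt
          have h2 : r ≤ w := le_of_lev hT hra.le hwa hlt.le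
          have h3 : r < w := lt_of_le_of_ne h2 (fun h => by rw [h] at hlt; exact lt_irrefl _ hlt)
          exact hrb (h3.trans_le hwb)
        obtain ⟨r, hr⟩ := h1
        rcases hr with ⟨h2, h3⟩ | ⟨h2, h3⟩
        · refine ⟨lev r, ?_, fun _ w hw1 hw2 => key i j r h2 h3 w hw1 hw2⟩
          rw [← hV _ (huV i)]
          exact hT.lev_lt _ _ h2
        · refine ⟨lev r, ?_, fun _ w hw1 hw2 => key j i r h3 h2 w hw2 hw1⟩
          rw [← hV _ (huV j)]
          exact hT.lev_lt _ _ h3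
    choose δ hδ1 hδ2 using hδ
    let β : Ordinal.{0} := Finset.univ.sup δ + 1
    have hβ : β < α := by
      apply hlim
      rw [Finset.sup_lt_iff (by simpa using hα0)]
      exact fun z _ => hδ1 z
    have hs : ∀ i, ∃ s ≤ u i, lev s = β := fun i => hT.below (u i) β (by rw [hV _ (huV i)]; exact hβ.le)
    choose s hsu hsl using hs
    have hsS : ∀ i, s i ∈ S := fun i => hSα _ (by rw [hsl]; exact hβ)
    have hsi : Function.Injective s := by
      intro i j hij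
      by_contra hne
      have h1 := hδ2 (i, j) hne (s i) (hsu i) (by rw [hij]; exact hsu j)
      rw [hsl] at h1
      have h2 : δ (i, j) ≤ Finset.univ.sup δ := Finset.le_sup (Finset.mem_univ (i, j))
      exact absurd (h1.trans h2) (not_le.mpr (lt_add_one _))
    let F' : Finset T := F ∪ Finset.univ.image s
    have hF'S : (F' : Set T) ⊆ S := by
      intro x hx
      simp only [F', Finset.coe_union, Finset.coe_image, Finset.coe_univ, image_univ,
        mem_union, Finset.mem_coe, mem_range] at hx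
      rcases hx with h | ⟨i, rfl⟩
      · exact hF x h
      · exact hsS i
    have hsF' : ∀ i, s i ∈ F' := fun i => by simp [F']
    obtain ⟨h1, h2⟩ := hγ2 ((F', n), ⟨m, s⟩) hsi (fun i j => by simp only; rw [hsl, hsl])
    have hγle : γ ((F', n), ⟨m, s⟩) ≤ Δ1 F' :=
      le_ciSup (hbd1 F') (n, ⟨m, fun i => ⟨s i, hsF' i⟩⟩)
    have hΔα : max (Δ1 F') (Δ2 F') < α := by
      obtain ⟨t, ht⟩ := exists_lev hT (max_lt (hΔ1 F') (hΔ2 F'))
      rw [← ht]
      exact hαS t (hS F' hF'S (by simp only [mem_ofPred_eq]; rw [ht]))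
    have hγα : γ ((F', n), ⟨m, s⟩) < α := (hγle.trans (le_max_left _ _)).trans_lt hΔα
    have hv : ∀ i, ∃ v ≤ u i, lev v = γ ((F', n), ⟨m, s⟩) := fun i =>
      hT.below (u i) _ (by rw [hV _ (huV i)]; exact hγα.le)
    choose v hvu hvl using hv
    obtain ⟨h, hA, h3, h4⟩ := h2 v (fun i => le_of_lev hT (hsu i) (hvu i)
      (by rw [hvl]; exact h1 i)) hvl
    refine ⟨h, hA, fun x hx => h3 x (by simp [F', hx]), ?_⟩
    intro w hw y hy
    obtain ⟨i, rfl⟩ := hus w hw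
    exact h4 i y ((hvu i).trans hy)
  obtain ⟨a0, ha0⟩ := exists_lev hT hα
  obtain ⟨eL, heL⟩ := (hT.level_countable α).exists_eq_range ⟨a0, ha0⟩
  obtain ⟨eS, heS⟩ := hSc.exists_eq_range ⟨t0, ht0⟩
  have hK2 : ∀ n : ℕ, ∃ h ∈ A,
      (∀ k ≤ n, |h.1 ⟨eS k⟩ - f.1 ⟨eS k⟩| < 1 / ((n : ℝ) + 1)) ∧
        ∀ k ≤ n, ∀ y : Sp lev, eL k ≤ y.pt → |h.1 y - f.1 y| < 1 / ((n : ℝ) + 1) := by
    intro n
    obtain ⟨h, hA, h1, h2⟩ := hK ((Finset.range (n + 1)).image eL) ((Finset.range (n + 1)).image eS) n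
      (by
        intro v hv
        rw [Finset.mem_image] at hv
        obtain ⟨k, _, rfl⟩ := hv
        have : eL k ∈ {t | lev t = α} := by rw [heL]; exact mem_range_self k
        exact this)
      (by
        intro v hv
        rw [Finset.mem_image] at hv
        obtain ⟨k, _, rfl⟩ := hv
        rw [heS]; exact mem_range_self k)
    refine ⟨h, hA, fun k hk => h1 _ ?_, fun k hk y hy => h2 _ ?_ y hy⟩
    · exact Finset.mem_image_of_mem _ (Finset.mem_range.mpr (by omega))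
    · exact Finset.mem_image_of_mem _ (Finset.mem_range.mpr (by omega))
  choose h hA h1 h2 using hK2
  refine ⟨h, hA, ?_⟩
  apply tendsto_of_pointwise
  intro x
  have hmain : (∃ M : ℕ, ∀ n ≥ M, |(h n).1 x - f.1 x| < 1 / ((n : ℝ) + 1)) →
      Tendsto (fun n => (h n).1 x) atTop (𝓝 (f.1 x)) := by
    rintro ⟨M, hM⟩
    rw [tendsto_iff_dist_tendsto_zero]
    refine squeeze_zero' (Eventually.of_forall fun n => dist_nonneg) ?_
      tendsto_one_div_add_atTop_nhds_zero_nat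
    filter_upwards [eventually_ge_atTop M] with n hn
    rw [Real.dist_eq]
    exact (hM n hn).le
  apply hmain
  rcases lt_or_ge (lev x.pt) α with hx | hx
  · have h3 : x.pt ∈ range eS := by rw [← heS]; exact hSα _ hx
    obtain ⟨k, hk⟩ := h3
    refine ⟨k, fun n hn => ?_⟩
    have h4 := h1 n k hn
    rw [hk] at h4
    exact h4
  · obtain ⟨w, hw, hwl⟩ := hT.below x.pt α hx
    have h3 : w ∈ range eL := by rw [← heL]; exact hwl
    obtain ⟨k, rfl⟩ := h3
    exact ⟨k, fun n hn => h2 n k hn x hw⟩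

end Pool.Agent.Q147.SuslinSpace
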