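import Pool.Agent.Q147.TRLabel

/-!
# A sigma-closed topological Ramsey space with `p < t`
-/

namespace Pool.Agent.Q147.TR

open Set Cardinal

/-- the separative order of a preorder: every extension of `A` is compatible with `B` -/
def SepLe {R : Type} (le : R → R → Prop) (A B : R) : Prop :=
  ∀ C, le C A → ∃ D, le D C ∧ le D B

/-- A **sigma-closed topological Ramsey space** `(R, ≤, ≤*, r)`. -/
structure SigmaTRS extends TRS where
  /-- the order `≤*` -/
  les : R → R → Prop
  les_refl : ∀ A, les A A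
  les_trans : ∀ A B C, les A B → les B C → les A C
  /-- `≤*` coarsens `≤` -/
  coarse : ∀ A B, le A B → les A B
  /-- `≤*` is sigma-closed -/
  sigma : ∀ X : ℕ → R, (∀ n, les (X (n + 1)) (X n)) → ∃ Y, ∀ n, les Y (X n)
  /-- the separative quotients of `≤` and `≤*` are isomorphic: a map `f` induces an
  isomorphism of the quotients of `R` by the equivalence relations of the two separative
  orders -/
  sep : ∃ f : R → R, (∀ A B, SepLe le A B ↔ SepLe les (f A) (f B)) ∧
    ∀ B, ∃ A, SepLe les (f A) B ∧ SepLe les B (f A)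

namespace SigmaTRS

variable (S : SigmaTRS)

/-- `Y` is a pseudointersection of `F` -/
def Pseudo (F : Set S.R) (Y : S.R) : Prop := ∀ X ∈ F, S.les Y X

/-- every finite subfamily has a pseudointersection -/
def SFIP (F : Set S.R) : Prop := ∀ G ⊆ F, G.Finite → ∃ Y, S.Pseudo G Y

/-- a tower: a chain of `≤*` without pseudointersection -/
def IsTower (F : Set S.R) : Prop :=
  (∀ X ∈ F, ∀ Y ∈ F, S.les X Y ∨ S.les Y X) ∧ ¬ ∃ Y, S.Pseudo F Y

/-- the cardinal `p` of the space -/
noncomputable def p : Cardinal :=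
  sInf {κ : Cardinal | ∃ F : Set S.R, S.SFIP F ∧ (¬ ∃ Y, S.Pseudo F Y) ∧ #F = κ}

/-- the cardinal `t` of the space -/
noncomputable def t : Cardinal :=
  sInf {κ : Cardinal | ∃ F : Set S.R, S.IsTower F ∧ #F = κ}

theorem not_countable_tower {F : Set S.R} (hF : S.IsTower F) : ¬ F.Countable := by
  classical
  intro hc
  obtain ⟨hch, hno⟩ := hF
  rcases F.eq_empty_or_nonempty with rfl | hne
  · obtain ⟨Y⟩ := S.ne
    exact hno ⟨Y, fun X hX => absurd hX (Set.notMem_empty X)⟩
  · obtain ⟨f, hf⟩ := hc.exists_eq_range hne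
    let Y : ℕ → S.R := fun n => Nat.rec (f 0)
      (fun n Z => if S.les Z (f (n + 1)) then Z else f (n + 1)) n
    have hY0 : Y 0 = f 0 := rfl
    have hYs : ∀ n, Y (n + 1) = if S.les (Y n) (f (n + 1)) then Y n else f (n + 1) :=
      fun n => rfl
    have hmem : ∀ n, Y n ∈ F := by
      intro n
      induction n with
      | zero => rw [hY0, hf]; exact ⟨0, rfl⟩
      | succ n ih =>
        rw [hYs]
        split_ifs
        · exact ih
        · rw [hf]; exact ⟨n + 1, rfl⟩
    have hle : ∀ n, S.les (Y n) (f n) := by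
      intro n
      cases n with
      | zero => exact S.les_refl _
      | succ n =>
        rw [hYs]
        split_ifs with h
        · exact h
        · exact S.les_refl _
    have hdec : ∀ n, S.les (Y (n + 1)) (Y n) := by
      intro n
      rw [hYs]
      split_ifs with h
      · exact S.les_refl _
      · have hfm : f (n + 1) ∈ F := by rw [hf]; exact ⟨n + 1, rfl⟩
        rcases hch _ hfm _ (hmem n) with h' | h'
        · exact h'
        · exact absurd h' h
    obtain ⟨Z, hZ⟩ := S.sigma Y hdec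
    apply hno
    refine ⟨Z, fun X hX => ?_⟩
    rw [hf] at hX
    obtain ⟨n, rfl⟩ := hX
    exact S.les_trans _ _ _ (hZ n) (hle n)

theorem aleph_one_le_t (h : ∃ F, S.IsTower F) : ℵ₁ ≤ S.t := by
  obtain ⟨F0, hF0⟩ := h
  refine le_csInf ⟨_, F0, hF0, rfl⟩ ?_
  rintro κ ⟨F, hF, rfl⟩
  rw [← Cardinal.succ_aleph0, Order.succ_le_iff]
  by_contra hlt
  rw [not_lt, Cardinal.le_aleph0_iff_set_countable] at hlt
  exact S.not_countable_tower hF hlt

theorem aleph0_le_p (h : ∃ F, S.SFIP F ∧ ¬ ∃ Y, S.Pseudo F Y) : ℵ₀ ≤ S.p := by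
  obtain ⟨F0, hF0, hF0'⟩ := h
  refine le_csInf ⟨_, F0, hF0, hF0', rfl⟩ ?_
  rintro κ ⟨F, hF, hF', rfl⟩
  rw [Cardinal.aleph0_le_mk_iff]
  by_contra hfin
  rw [not_infinite_iff_finite] at hfin
  exact hF' (hF F subset_rfl (Set.toFinite F))

end SigmaTRS

/-! ### The labels -/

/-- the labels -/
inductive Lb
  | A (n : ℕ) : Lb
  | C (k : ℕ) : Lb

/-- the order of the labels: `C k` is below `A n` iff `n ≤ k` -/
def Lb.le : Lb → Lb → Prop
  | .A n, .A m => n = m
  | .C n, .C m => n = m
  | .C k, .A n => n ≤ k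
  | .A _, .C _ => False

instance : PartialOrder Lb where
  le := Lb.le
  le_refl := by
    rintro (n | k)
    · exact rfl
    · exact rfl
  le_trans := by
    rintro (a | a) (b | b) (c | c) h1 h2
    all_goals simp only [Lb.le] at h1 h2 ⊢
    all_goals omega
  le_antisymm := by
    rintro (a | a) (b | b) h1 h2
    all_goals simp only [Lb.le] at h1 h2
    · rw [h1]
    · rw [h1]

theorem Lb.A_le_A {n m : ℕ} : Lb.A n ≤ Lb.A m ↔ n = m := Iff.rfl
theorem Lb.C_le_C {n m : ℕ} : Lb.C n ≤ Lb.C m ↔ n = m := Iff.rfl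
theorem Lb.C_le_A {k n : ℕ} : Lb.C k ≤ Lb.A n ↔ n ≤ k := Iff.rfl
theorem Lb.A_le_C {n k : ℕ} : Lb.A n ≤ Lb.C k ↔ False := Iff.rfl

/-- the lower bound of the sets with a given label -/
def Lb.lb : Lb → ℕ
  | .A _ => 0
  | .C k => k

/-- the number in a label -/
def Lb.idx : Lb → ℕ
  | .A n => n
  | .C k => k

theorem Lb.fin (t : Lb) (N : ℕ) : {l : Lb | l ≤ t ∧ l.lb ≤ N}.Finite := by
  have h : {l : Lb | l ≤ t ∧ l.lb ≤ N} ⊆ {t} ∪ Lb.C '' (Set.Iic N) := by
    rintro (n | k) ⟨h1, h2⟩
    · cases t with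
      | A m => exact Or.inl (by rw [Lb.A_le_A.1 h1]; rfl)
      | C m => exact absurd h1 (by simp [Lb.A_le_C])
    · exact Or.inr ⟨k, h2, rfl⟩
  exact ((Set.finite_singleton t).union ((Set.finite_Iic N).image _)).subset h

theorem Lb.min (t : Lb) : ∃ l ≤ t, ∀ l' ≤ l, l' = l := by
  cases t with
  | A n =>
    refine ⟨Lb.C n, Lb.C_le_A.2 le_rfl, ?_⟩
    rintro (m | m) h
    · exact absurd h (by simp [Lb.A_le_C])
    · rw [Lb.C_le_C.1 h]
  | C k =>
    refine ⟨Lb.C k, le_rfl, ?_⟩
    rintro (m | m) h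
    · exact absurd h (by simp [Lb.A_le_C])
    · rw [Lb.C_le_C.1 h]

/-- the points of the space -/
abbrev P : Type := LSet Lb Lb.lb

/-- the order `≤*` -/
def lles (A B : P) : Prop := A.lab ≤ B.lab ∧ (A.X \ B.X).Finite

theorem lles_trans (A B C : P) (h1 : lles A B) (h2 : lles B C) : lles A C := by
  refine ⟨h1.1.trans h2.1, (h1.2.union h2.2).subset ?_⟩
  rintro x ⟨hx, hx'⟩
  by_cases hB : x ∈ B.X
  · exact Or.inr ⟨hB, hx'⟩
  · exact Or.inl ⟨hx, hB⟩

theorem exists_pseudo (X : ℕ → Set ℕ) (hinf : ∀ n, (X n).Infinite)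
    (h : ∀ n, (X (n + 1) \ X n).Finite) :
    ∃ Y : Set ℕ, Y.Infinite ∧ Y ⊆ X 0 ∧ ∀ n, (Y \ X n).Finite := by
  let W : ℕ → Set ℕ := fun n => {x | ∀ i ≤ n, x ∈ X i}
  have hW : ∀ n, (X n \ W n).Finite := by
    intro n
    induction n with
    | zero =>
      refine Set.finite_empty.subset ?_
      rintro x ⟨hx, hx'⟩
      exact (hx' (fun i hi => by rw [Nat.le_zero.1 hi]; exact hx)).elim
    | succ n ih =>
      refine ((h n).union ih).subset ?_
      rintro x ⟨hx, hx'⟩
      by_cases h1 : x ∈ X n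
      · refine Or.inr ⟨h1, fun h2 => hx' ?_⟩
        intro i hi
        rcases Nat.lt_or_ge n i with h3 | h3
        · rw [show i = n + 1 by omega]; exact hx
        · exact h2 i h3
      · exact Or.inl ⟨hx, h1⟩
  have hWinf : ∀ n, (W n).Infinite := by
    intro n hfin
    refine hinf n (((hW n).union hfin).subset ?_)
    intro x hx
    by_cases h1 : x ∈ W n
    · exact Or.inr h1
    · exact Or.inl ⟨hx, h1⟩
  have step : ∀ n m, ∃ k ∈ W n, m < k := fun n m => (hWinf n).exists_gt m
  choose f hf1 hf2 using step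
  let y : ℕ → ℕ := fun n => Nat.rec (f 0 0) (fun n m => f (n + 1) m) n
  have hy0 : y 0 = f 0 0 := rfl
  have hys : ∀ n, y (n + 1) = f (n + 1) (y n) := fun _ => rfl
  have hyW : ∀ n, y n ∈ W n := by
    intro n
    cases n with
    | zero => rw [hy0]; exact hf1 0 0
    | succ n => rw [hys]; exact hf1 _ _
  have hmono : StrictMono y := strictMono_nat_of_lt_succ fun n => by
    rw [hys]
    exact hf2 _ _
  refine ⟨Set.range y, Set.infinite_range_of_injective hmono.injective, ?_, ?_⟩
  · rintro _ ⟨n, rfl⟩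
    exact hyW n 0 (Nat.zero_le n)
  · intro n
    refine ((Set.finite_Iio n).image y).subset ?_
    rintro _ ⟨⟨i, rfl⟩, hi⟩
    refine ⟨i, ?_, rfl⟩
    by_contra hin
    exact hi (hyW i n (not_lt.1 hin))

theorem lles_sigma (X : ℕ → P) (h : ∀ n, lles (X (n + 1)) (X n)) :
    ∃ Y, ∀ n, lles Y (X n) := by
  -- the labels are eventually constant
  have hanti : ∀ n m, n ≤ m → lles (X m) (X n) := by
    intro n m hnm
    induction m, hnm using Nat.le_induction with
    | base => exact ⟨le_rfl, by simp⟩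
    | succ m _ ih => exact lles_trans _ _ _ (h m) ih
  have hN : ∃ N, ∀ n ≥ N, (X n).lab = (X N).lab := by
    by_cases hC : ∃ N k, (X N).lab = Lb.C k
    · obtain ⟨N, k, hk⟩ := hC
      refine ⟨N, fun n hn => ?_⟩
      have h1 := (hanti N n hn).1
      rw [hk] at h1 ⊢
      cases hl : (X n).lab with
      | A m => rw [hl] at h1; exact absurd h1 (by simp [Lb.A_le_C])
      | C m => rw [hl] at h1; rw [Lb.C_le_C.1 h1]
    · push Not at hC
      refine ⟨0, fun n hn => ?_⟩
      have h1 := (hanti 0 n hn).1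
      cases hl : (X n).lab with
      | A m =>
        cases hl0 : (X 0).lab with
        | A m0 =>
          rw [hl, hl0] at h1
          rw [Lb.A_le_A.1 h1]
        | C m0 => exact absurd hl0 (hC 0 m0)
      | C m => exact absurd hl (hC n m)
  obtain ⟨N, hN⟩ := hN
  obtain ⟨Y, hY, hY0, hYn⟩ := exists_pseudo (fun i => (X (N + i)).X) (fun i => (X (N + i)).inf)
    (fun i => (h (N + i)).2)
  refine ⟨⟨(X N).lab, Y, hY, fun x hx => (X N).bd x (hY0 hx)⟩, ?_⟩
  intro n
  rcases Nat.lt_or_ge n N with hn | hn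
  · refine lles_trans _ (X N) _ ⟨le_rfl, ?_⟩ (hanti n N hn.le)
    exact hYn 0
  · obtain ⟨i, rfl⟩ := Nat.exists_eq_add_of_le hn
    exact ⟨(hN _ (Nat.le_add_right N i)).ge, hYn i⟩

theorem lles_sep (A B : P) : SepLe lle A B ↔ SepLe lles A B := by
  constructor
  · intro h C hC
    have hinf : (C.X ∩ A.X).Infinite := by
      intro hfin
      refine C.inf ((hC.2.union hfin).subset ?_)
      intro x hx
      by_cases hA : x ∈ A.X
      · exact Or.inr ⟨hx, hA⟩
      · exact Or.inl ⟨hx, hA⟩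
    obtain ⟨D, hD1, hD2⟩ := h ⟨C.lab, C.X ∩ A.X, hinf, fun x hx => C.bd x hx.1⟩
      ⟨hC.1, fun x hx => hx.2⟩
    refine ⟨D, ⟨hD1.1, ?_⟩, ⟨hD2.1, ?_⟩⟩
    · refine Set.finite_empty.subset ?_
      rintro x ⟨hx, hx'⟩
      exact (hx' (hD1.2 hx).1).elim
    · refine Set.finite_empty.subset ?_
      rintro x ⟨hx, hx'⟩
      exact (hx' (hD2.2 hx)).elim
  · intro h C hC
    obtain ⟨D, hD1, hD2⟩ := h C ⟨hC.1, Set.finite_empty.subset (by
      rintro x ⟨hx, hx'⟩
      exact (hx' (hC.2 hx)).elim)⟩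
    have hinf : (D.X ∩ (C.X ∩ B.X)).Infinite := by
      intro hfin
      refine D.inf (((hD1.2.union hD2.2).union hfin).subset ?_)
      intro x hx
      by_cases h1 : x ∈ C.X
      · by_cases h2 : x ∈ B.X
        · exact Or.inr ⟨hx, h1, h2⟩
        · exact Or.inl (Or.inr ⟨hx, h2⟩)
      · exact Or.inl (Or.inl ⟨hx, h1⟩)
    exact ⟨⟨D.lab, D.X ∩ (C.X ∩ B.X), hinf, fun x hx => D.bd x hx.1⟩,
      ⟨hD1.1, fun x hx => hx.2.1⟩, ⟨hD2.1, fun x hx => hx.2.2⟩⟩

/-- the space -/
noncomputable def theTRS : TRS := labTRS Lb Lb.lb ⟨Lb.A 0⟩ Lb.fin Lb.min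

/-- **The space with `p < t`** -/
noncomputable def theSpace : SigmaTRS where
  toTRS := theTRS
  les := lles
  les_refl := fun A => ⟨le_rfl, by simp⟩
  les_trans := lles_trans
  coarse := by
    intro A B h
    refine ⟨h.1, Set.finite_empty.subset ?_⟩
    rintro x ⟨hx, hx'⟩
    exact (hx' (h.2 hx)).elim
  sigma := lles_sigma
  sep := ⟨id, fun A B => lles_sep A B, fun B => ⟨B, fun C hC =>
    ⟨C, ⟨le_rfl, by simp⟩, hC⟩, fun C hC => ⟨C, ⟨le_rfl, by simp⟩, hC⟩⟩⟩

theorem exists_half {X : Set ℕ} (hX : X.Infinite) :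
    ∃ Y ⊆ X, Y.Infinite ∧ (X \ Y).Infinite := by
  classical
  have hX' := inf' hX
  have hinj := (Nat.nth_strictMono hX').injective
  refine ⟨Set.range (fun i => Nat.nth (· ∈ X) (2 * i)), ?_, ?_, ?_⟩
  · rintro _ ⟨i, rfl⟩
    exact Nat.nth_mem_of_infinite hX' _
  · refine Set.infinite_range_of_injective ?_
    intro i j hij
    have := hinj hij
    omega
  · have h1 : (Set.range (fun i => Nat.nth (· ∈ X) (2 * i + 1))).Infinite := by
      refine Set.infinite_range_of_injective ?_
      intro i j hij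
      have := hinj hij
      omega
    refine h1.mono ?_
    rintro _ ⟨i, rfl⟩
    refine ⟨Nat.nth_mem_of_infinite hX' _, ?_⟩
    rintro ⟨j, hj⟩
    have := hinj hj
    omega

theorem exists_tower : ∃ F, theSpace.IsTower F := by
  have hM : IsMaxChain lles (maxChain lles) := maxChain_spec
  set M := maxChain lles with hMdef
  refine ⟨M, ?_, ?_⟩
  · intro X hX Y hY
    by_cases h : X = Y
    · subst h
      exact Or.inl (theSpace.les_refl X)
    · exact hM.1 hX hY h
  · rintro ⟨Y, hY⟩
    have hY' : ∀ X ∈ M, lles Y X := hY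
    obtain ⟨Z, hZY, hZ, hZ'⟩ := exists_half (show (Y : P).X.Infinite from (Y : P).inf)
    let Y' : P := ⟨(Y : P).lab, Z, hZ, fun x hx => (Y : P).bd x (hZY hx)⟩
    have h1 : lles Y' Y := by
      refine ⟨le_rfl, Set.finite_empty.subset ?_⟩
      rintro x ⟨hx, hx'⟩
      exact (hx' (hZY hx)).elim
    have hch : IsChain lles (insert Y' M) := by
      refine hM.1.insert ?_
      intro X hX _
      exact Or.inl (lles_trans _ _ _ h1 (hY' X hX))
    have heq := hM.2 hch (Set.subset_insert Y' M)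
    have hmem : Y' ∈ M := by
      rw [heq]
      exact Set.mem_insert _ _
    exact hZ' (hY' Y' hmem).2

/-- the family without pseudointersection -/
def top (n : ℕ) : P := ⟨Lb.A n, Set.univ, Set.infinite_univ, fun x _ => Nat.zero_le x⟩

theorem top_injective : Function.Injective top := by
  intro n m h
  have := congrArg LSet.lab h
  simp only [top, Lb.A.injEq] at this
  exact this

theorem top_sfip : theSpace.SFIP (Set.range top) := by
  intro G hG hfin
  let N : ℕ := hfin.toFinset.sup (fun X : P => X.lab.idx)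
  refine ⟨(⟨Lb.C N, {x | N ≤ x}, Set.Ici_infinite N, fun x hx => hx⟩ : P), ?_⟩
  intro X hX
  obtain ⟨n, rfl⟩ := hG hX
  have hn : n ≤ N := by
    have := Finset.le_sup (f := fun X : P => X.lab.idx) (hfin.mem_toFinset.2 hX)
    exact this
  refine ⟨Lb.C_le_A.2 hn, ?_⟩
  simp [top]

theorem top_no : ¬ ∃ Y, theSpace.Pseudo (Set.range top) Y := by
  rintro ⟨Y, hY⟩
  have h : ∀ n, (Y : P).lab ≤ Lb.A n := fun n => (hY (top n) ⟨n, rfl⟩ : lles Y (top n)).1
  cases hl : (Y : P).lab with
  | A m =>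
    have := h (m + 1)
    rw [hl, Lb.A_le_A] at this
    omega
  | C k =>
    have := h (k + 1)
    rw [hl, Lb.C_le_A] at this
    omega

theorem p_eq : theSpace.p = ℵ₀ := by
  refine le_antisymm ?_ (theSpace.aleph0_le_p ⟨_, top_sfip, top_no⟩)
  refine csInf_le' ⟨Set.range top, top_sfip, top_no, ?_⟩
  have := Cardinal.mk_range_eq top top_injective
  rw [Cardinal.mk_nat] at this
  exact this

instance : Countable Lb := by
  let f : Lb → ℕ ⊕ ℕ := fun l => match l with
    | .A n => Sum.inl n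
    | .C n => Sum.inr n
  have hf : Function.Injective f := by
    rintro (a | a) (b | b) h
    all_goals simp_all [f]
  exact hf.countable

theorem countable_AR : Countable theSpace.AR := by
  let f : Ap Lb Lb.lb → Option (Lb × Finset ℕ) := fun a => match a with
    | Ap.root => none
    | Ap.node l s _ _ => some (l, s)
  have hf : Function.Injective f := by
    intro a b hab
    cases a with
    | root =>
      cases b with
      | root => rfl
      | node l s hs hb => exact absurd hab (by simp [f])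
    | node l s hs hb =>
      cases b with
      | root => exact absurd hab (by simp [f])
      | node l2 s2 hs2 hb2 =>
        simp only [f, Option.some.injEq, Prod.mk.injEq] at hab
        obtain ⟨rfl, rfl⟩ := hab
        rfl
  exact hf.countable

end Pool.Agent.Q147.TR
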