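import Pool.Agent.Q147.TRSpace

/-!
# The topological Ramsey space of labelled infinite sets
-/

namespace Pool.Agent.Q147.TR

open Set

/-- infinite sets of integers with a label `lab`; the elements are at least `lb lab` -/
@[ext] structure LSet (L : Type) (lb : L → ℕ) where
  /-- the label -/
  lab : L
  /-- the set -/
  X : Set ℕ
  inf : X.Infinite
  bd : ∀ x ∈ X, lb lab ≤ x

/-- the approximations: the empty one, and the labelled nonempty finite sets -/
inductive Ap (L : Type) (lb : L → ℕ)
  | root : Ap L lb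
  | node (l : L) (s : Finset ℕ) (hs : s.Nonempty) (hb : ∀ x ∈ s, lb l ≤ x) : Ap L lb

variable {L : Type} {lb : L → ℕ}

theorem ini_nonempty {X : Set ℕ} (hX : X.Infinite) (n : ℕ) : (ini X (n + 1)).Nonempty := by
  rw [← Finset.card_pos, ini_card hX]
  omega

/-- the approximations of a labelled set: its first `n` elements, with the label -/
noncomputable def apr : ℕ → LSet L lb → Ap L lb
  | 0, _ => Ap.root
  | n + 1, A => Ap.node A.lab (ini A.X (n + 1)) (ini_nonempty A.inf n)
      (fun x hx => A.bd x ((ini_isIni A.inf _).1 x hx))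

theorem apr_eq {n : ℕ} (hn : n ≠ 0) (A : LSet L lb) {l : L} {s : Finset ℕ} {hs : s.Nonempty}
    {hb : ∀ x ∈ s, lb l ≤ x} : apr n A = Ap.node l s hs hb ↔ A.lab = l ∧ ini A.X n = s := by
  cases n with
  | zero => exact absurd rfl hn
  | succ n =>
    simp only [apr, Ap.node.injEq]

theorem apr_eq_apr {n : ℕ} (hn : n ≠ 0) (A B : LSet L lb) :
    apr n A = apr n B ↔ A.lab = B.lab ∧ ini A.X n = ini B.X n := by
  cases n with
  | zero => exact absurd rfl hn
  | succ n =>
    simp only [apr, Ap.node.injEq]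

/-- the labelled set with a given initial segment -/
theorem exists_apr (l : L) (s : Finset ℕ) (hs : s.Nonempty) (hb : ∀ x ∈ s, lb l ≤ x)
    (Y : Set ℕ) (hY : Y.Infinite) :
    ∃ C : LSet L lb, C.lab = l ∧ C.X = glue s Y ∧ apr s.card C = Ap.node l s hs hb := by
  obtain ⟨x0, hx0⟩ := hs
  refine ⟨⟨l, glue s Y, glue_infinite hY s, ?_⟩, rfl, rfl, ?_⟩
  · rintro x (hx | ⟨_, hx⟩)
    · exact hb x hx
    · exact (hb x0 hx0).trans (hx x0 hx0).le
  · rw [apr_eq]
    · exact ⟨rfl, ((glue_isIni s Y).eq_ini (glue_infinite hY s)).symm⟩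
    · exact (Finset.card_pos.2 ⟨x0, hx0⟩).ne'

section Order
variable [PartialOrder L]

/-- the order of the labelled sets -/
def lle (A B : LSet L lb) : Prop := A.lab ≤ B.lab ∧ A.X ⊆ B.X

/-- the order of the approximations -/
def apf : Ap L lb → Ap L lb → Prop
  | Ap.root, _ => True
  | Ap.node _ _ _ _, Ap.root => False
  | Ap.node l s _ _, Ap.node l' s' _ _ => l ≤ l' ∧ s ⊆ s'

theorem apf_refl (a : Ap L lb) : apf a a := by
  cases a with
  | root => trivial
  | node l s hs hb => exact ⟨le_rfl, Finset.Subset.refl _⟩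

theorem apf_trans (a b c : Ap L lb) (h1 : apf a b) (h2 : apf b c) : apf a c := by
  cases a with
  | root => trivial
  | node l s hs hb =>
    cases b with
    | root => exact absurd h1 (by simp [apf])
    | node l' s' hs' hb' =>
      cases c with
      | root => exact absurd h2 (by simp [apf])
      | node l'' s'' hs'' hb'' => exact ⟨h1.1.trans h2.1, h1.2.trans h2.2⟩

theorem node_apf_iff {l : L} {s : Finset ℕ} {hs : s.Nonempty} {hb : ∀ x ∈ s, lb l ≤ x} {n : ℕ}
    {B : LSet L lb} : apf (Ap.node l s hs hb) (apr n B) ↔ n ≠ 0 ∧ l ≤ B.lab ∧ s ⊆ ini B.X n := by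
  cases n with
  | zero => simp [apr, apf]
  | succ n => simp [apr, apf]

theorem apf_finite (hfin : ∀ t N, {l : L | l ≤ t ∧ lb l ≤ N}.Finite) (b : Ap L lb) :
    {a | apf a b}.Finite := by
  classical
  cases b with
  | root =>
    refine (Set.finite_singleton (Ap.root : Ap L lb)).subset ?_
    intro a ha
    cases a with
    | root => rfl
    | node l s hs hb => exact absurd ha (by simp [apf])
  | node l' s' hs' hb' =>
    have h1 : ({l : L | l ≤ l' ∧ lb l ≤ s'.max' hs'} ×ˢ
        ((s'.powerset : Finset (Finset ℕ)) : Set (Finset ℕ))).Finite :=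
      (hfin l' _).prod (Finset.finite_toSet _)
    let f : Ap L lb → Option (L × Finset ℕ) := fun a => match a with
      | Ap.root => none
      | Ap.node l s _ _ => some (l, s)
    have hf : Function.Injective f := by
      intro a b hab
      cases a with
      | root =>
        cases b with
        | root => rfl
        | node l s hs hb => exact absurd hab (by simp [f])
      | node l s hs hb =>
        cases b with
        | root => exact absurd hab (by simp [f])
        | node l2 s2 hs2 hb2 =>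
          simp only [f, Option.some.injEq, Prod.mk.injEq] at hab
          obtain ⟨rfl, rfl⟩ := hab
          rfl
    refine Set.Finite.of_finite_image (f := f) ?_ hf.injOn
    refine ((h1.image some).union (Set.finite_singleton none)).subset ?_
    rintro _ ⟨a, ha, rfl⟩
    cases a with
    | root => exact Or.inr rfl
    | node l s hs hb =>
      refine Or.inl ⟨(l, s), ⟨⟨ha.1, ?_⟩, ?_⟩, rfl⟩
      · obtain ⟨x, hx⟩ := hs
        exact (hb x hx).trans (Finset.le_max' _ _ (ha.2 hx))
      · simpa using ha.2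

theorem lle_iff (A B : LSet L lb) : lle A B ↔ ∀ n, ∃ m, apf (apr n A) (apr m B) := by
  constructor
  · rintro ⟨h1, h2⟩ n
    cases n with
    | zero => exact ⟨0, trivial⟩
    | succ n =>
      obtain ⟨m, hm⟩ := exists_ini_finset B.inf (ini A.X (n + 1))
        (fun x hx => h2 ((ini_isIni A.inf _).1 x hx))
      refine ⟨m + 1, ?_⟩
      rw [apr, node_apf_iff]
      exact ⟨Nat.succ_ne_zero m, h1, hm.trans (ini_mono _ (Nat.le_succ m))⟩
  · intro h
    constructor
    · obtain ⟨m, hm⟩ := h 1
      rw [apr, node_apf_iff] at hm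
      exact hm.2.1
    · intro x hx
      obtain ⟨n, hn⟩ := exists_ini A.inf hx
      obtain ⟨m, hm⟩ := h (n + 1)
      rw [apr, node_apf_iff] at hm
      exact (ini_isIni B.inf m).1 x (hm.2.2 (ini_mono _ (Nat.le_succ n) hn))

/-- the meaning of the depth -/
theorem depth_root {B : LSet L lb} {n : ℕ}
    (h : IsLeast {n | apf (Ap.root : Ap L lb) (apr n B)} n) : n = 0 :=
  Nat.le_zero.1 (h.2 (show apf (Ap.root : Ap L lb) (apr 0 B) from trivial))

theorem depth_node {B : LSet L lb} {n : ℕ} {l : L} {s : Finset ℕ} {hs : s.Nonempty}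
    {hb : ∀ x ∈ s, lb l ≤ x} (h : IsLeast {n | apf (Ap.node l s hs hb) (apr n B)} n) :
    n ≠ 0 ∧ l ≤ B.lab ∧ s ⊆ ini B.X n ∧ ∃ t ∈ s, ∀ x ∈ ini B.X n, x ≤ t := by
  have h1 : apf (Ap.node l s hs hb) (apr n B) := h.1
  rw [node_apf_iff] at h1
  obtain ⟨hn, hl, hsub⟩ := h1
  refine ⟨hn, hl, hsub, ?_⟩
  obtain ⟨k, rfl⟩ := Nat.exists_eq_succ_of_ne_zero hn
  obtain ⟨x, hx, hx1, hx2, hx3, hx4⟩ := ini_succ B.inf k
  refine ⟨x, ?_, hx4⟩
  by_contra hxs
  have hsub' : s ⊆ ini B.X k := by
    intro y hy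
    have := hsub hy
    rw [Nat.succ_eq_add_one, hx3] at this
    rcases Finset.mem_insert.1 this with rfl | h'
    · exact absurd hy hxs
    · exact h'
  have hk : k ≠ 0 := by
    rintro rfl
    obtain ⟨y, hy⟩ := hs
    simpa [ini_zero] using hsub' hy
  have : k.succ ≤ k := h.2 (show apf _ _ from node_apf_iff.2 ⟨hk, hl, hsub'⟩)
  omega

omit [PartialOrder L] in
/-- the sets `[a, A]` for `a` not the root -/
theorem basic_node {C : LSet L lb} {l : L} {s : Finset ℕ} {hs : s.Nonempty}
    {hb : ∀ x ∈ s, lb l ≤ x} :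
    (∃ k, apr k C = Ap.node l s hs hb) ↔ C.lab = l ∧ IsIni s C.X := by
  constructor
  · rintro ⟨k, hk⟩
    have hk0 : k ≠ 0 := by
      rintro rfl
      exact absurd hk (by simp [apr])
    rw [apr_eq hk0] at hk
    exact ⟨hk.1, hk.2 ▸ ini_isIni C.inf k⟩
  · rintro ⟨h1, h2⟩
    refine ⟨s.card, ?_⟩
    rw [apr_eq (Finset.card_pos.2 hs).ne']
    exact ⟨h1, (h2.eq_ini C.inf).symm⟩

/-- the labelled set obtained from `B` by thinning it out to `Y` above its first `n` elements -/
theorem exists_thin (B : LSet L lb) (n : ℕ) (Y : Set ℕ) (hY : Y.Infinite) (hYB : Y ⊆ B.X) :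
    ∃ A : LSet L lb, lle A B ∧ apr n A = apr n B ∧ A.lab = B.lab ∧
      A.X = glue (ini B.X n) Y := by
  have hsub : glue (ini B.X n) Y ⊆ B.X := glue_sub (ini_isIni B.inf n).1 hYB
  refine ⟨⟨B.lab, glue (ini B.X n) Y, glue_infinite hY _, fun x hx => B.bd x (hsub hx)⟩,
    ⟨le_rfl, hsub⟩, ?_, rfl, rfl⟩
  rcases Nat.eq_zero_or_pos n with rfl | hn
  · rfl
  · rw [apr_eq_apr hn.ne']
    refine ⟨rfl, ?_⟩
    have := (glue_isIni (ini B.X n) Y).eq_ini (glue_infinite hY _)
    rw [ini_card B.inf] at this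
    exact this.symm

theorem lA3a (B : LSet L lb) (a : Ap L lb) (n : ℕ) (hn : IsLeast {n | apf a (apr n B)} n)
    (A : LSet L lb) (_hAB : lle A B) (hA : apr n A = apr n B) :
    ∃ C, lle C A ∧ ∃ k, apr k C = a := by
  cases a with
  | root => exact ⟨A, ⟨le_rfl, subset_rfl⟩, 0, rfl⟩
  | node l s hs hb =>
    obtain ⟨hn0, hl, hsub, _⟩ := depth_node hn
    rw [apr_eq_apr hn0] at hA
    obtain ⟨C, h1, h2, h3⟩ := exists_apr (lb := lb) l s hs hb A.X A.inf
    refine ⟨C, ⟨?_, ?_⟩, s.card, h3⟩
    · rw [h1, hA.1]; exact hl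
    · rw [h2]
      refine glue_sub (fun x hx => ?_) subset_rfl
      have := hsub hx
      rw [← hA.2] at this
      exact (ini_isIni A.inf n).1 x this

theorem lA3b (B : LSet L lb) (a : Ap L lb) (n : ℕ) (hn : IsLeast {n | apf a (apr n B)} n)
    (A : LSet L lb) (hAB : lle A B) (hA : ∃ C, lle C A ∧ ∃ k, apr k C = a) :
    ∃ A', (lle A' B ∧ apr n A' = apr n B) ∧ (∃ C, lle C A' ∧ ∃ k, apr k C = a) ∧
      ∀ C, lle C A' → (∃ k, apr k C = a) → lle C A := by
  cases a with
  | root =>
    have := depth_root hn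
    subst this
    exact ⟨A, ⟨hAB, rfl⟩, hA, fun C hC _ => hC⟩
  | node l s hs hb =>
    obtain ⟨hn0, hl, hsub, t, hts, ht⟩ := depth_node hn
    obtain ⟨A', h1, h2, h3, h4⟩ := exists_thin B n A.X A.inf hAB.2
    refine ⟨A', ⟨h1, h2⟩, lA3a B _ n hn A' h1 h2, ?_⟩
    intro C hC hk
    obtain ⟨D, hDA, hD⟩ := hA
    rw [basic_node] at hk hD
    refine ⟨?_, ?_⟩
    · rw [hk.1, ← hD.1]
      exact hDA.1
    · intro x hx
      have hx' := hC.2 hx
      rw [h4] at hx'
      rcases hx' with hx' | hx'
      · have hxt := ht x hx'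
        have hxs : x ∈ s := by
          rcases hxt.lt_or_eq with h | h
          · exact hk.2.2 x hx t hts h
          · exact h ▸ hts
        exact hDA.2 (hD.2.1 x hxs)
      · exact hx'.1

theorem lA4 (hmin : ∀ t : L, ∃ l ≤ t, ∀ l' ≤ l, l' = l) (B : LSet L lb) (a : Ap L lb) (n l₀ : ℕ)
    (hn : IsLeast {n | apf a (apr n B)} n) (hl₀ : ∃ A : LSet L lb, apr l₀ A = a)
    (O : Set (Ap L lb)) : ∃ A, (lle A B ∧ apr n A = apr n B) ∧
      ((∀ C, lle C A → (∃ k, apr k C = a) → apr (l₀ + 1) C ∈ O) ∨
        (∀ C, lle C A → (∃ k, apr k C = a) → apr (l₀ + 1) C ∉ O)) := by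
  classical
  -- the two colours
  have split : ∀ (Y : Set ℕ), Y.Infinite → ∀ P : ℕ → Prop,
      {y | y ∈ Y ∧ P y}.Infinite ∨ {y | y ∈ Y ∧ ¬ P y}.Infinite := by
    intro Y hY P
    by_contra h
    push Not at h
    refine hY ((h.1.union h.2).subset ?_)
    intro y hy
    by_cases hp : P y
    · exact Or.inl ⟨hy, hp⟩
    · exact Or.inr ⟨hy, hp⟩
  cases a with
  | root =>
    have := depth_root hn
    subst this
    have hl0 : l₀ = 0 := by
      obtain ⟨A, hA⟩ := hl₀
      cases l₀ with
      | zero => rfl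
      | succ k => exact absurd hA (by simp [apr])
    subst hl0
    obtain ⟨l, hl, hl'⟩ := hmin B.lab
    have hY : {x | x ∈ B.X ∧ lb l ≤ x}.Infinite := by
      refine (infinite_above B.inf (Finset.range (lb l))).mono ?_
      rintro x ⟨hx, hx'⟩
      refine ⟨hx, ?_⟩
      by_contra h
      have := hx' x (Finset.mem_range.2 (by omega))
      omega
    let P : ℕ → Prop := fun y => ∃ h1 h2, (Ap.node l {y} h1 h2 : Ap L lb) ∈ O
    -- both cases at once
    have main : ∀ (Q : Prop → Prop), {y | y ∈ {x | x ∈ B.X ∧ lb l ≤ x} ∧ Q (P y)}.Infinite →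
        ∃ A, (lle A B ∧ apr 0 A = apr 0 B) ∧
          ∀ C, lle C A → (∃ k, apr k C = (Ap.root : Ap L lb)) → Q (apr 1 C ∈ O) := by
      intro Q hQ
      refine ⟨⟨l, {y | y ∈ {x | x ∈ B.X ∧ lb l ≤ x} ∧ Q (P y)}, hQ, fun x hx => hx.1.2⟩,
        ⟨⟨hl, fun x hx => hx.1.1⟩, rfl⟩, ?_⟩
      intro C hC _
      have hlab : C.lab = l := hl' _ hC.1
      obtain ⟨x, hx, _, _, hx3, _⟩ := ini_succ C.inf 0
      rw [ini_zero] at hx3
      have hx4 := (hC.2 hx).2
      have e : (apr 1 C ∈ O) = P x := by
        have hx5 : ini C.X 1 = {x} := by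
          rw [zero_add] at hx3
          rw [hx3]
          rfl
        apply propext
        constructor
        · intro h
          have e1 : apr 1 C = Ap.node l {x} (Finset.singleton_nonempty x)
              (fun y hy => by
                rw [Finset.mem_singleton.1 hy, ← hlab]
                exact C.bd x hx) := by
            rw [apr_eq one_ne_zero]
            exact ⟨hlab, hx5⟩
          rw [e1] at h
          exact ⟨_, _, h⟩
        · rintro ⟨h1, h2, h⟩
          have e1 : apr 1 C = Ap.node l {x} h1 h2 := by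
            rw [apr_eq one_ne_zero]
            exact ⟨hlab, hx5⟩
          rw [e1]
          exact h
      rw [e]
      exact hx4
    rcases split _ hY P with h | h
    · obtain ⟨A, hA, hA'⟩ := main (fun p => p) h
      exact ⟨A, hA, Or.inl hA'⟩
    · obtain ⟨A, hA, hA'⟩ := main (fun p => ¬ p) h
      exact ⟨A, hA, Or.inr hA'⟩
  | node l s hs hb =>
    obtain ⟨hn0, hl, hsub, t, hts, ht⟩ := depth_node hn
    have hl0 : l₀ = s.card := by
      obtain ⟨A, hA⟩ := hl₀
      cases l₀ with
      | zero => exact absurd hA (by simp [apr])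
      | succ k =>
        rw [apr_eq (Nat.succ_ne_zero k)] at hA
        rw [← hA.2, ini_card A.inf]
    subst hl0
    let P : ℕ → Prop := fun y => ∃ h1 h2, (Ap.node l (insert y s) h1 h2 : Ap L lb) ∈ O
    have main : ∀ (Q : Prop → Prop), {y | y ∈ B.X ∧ Q (P y)}.Infinite →
        ∃ A, (lle A B ∧ apr n A = apr n B) ∧
          ∀ C, lle C A → (∃ k, apr k C = Ap.node l s hs hb) → Q (apr (s.card + 1) C ∈ O) := by
      intro Q hQ
      obtain ⟨A, h1, h2, h3, h4⟩ := exists_thin B n _ hQ (fun x hx => hx.1)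
      refine ⟨A, ⟨h1, h2⟩, ?_⟩
      intro C hC hk
      rw [basic_node] at hk
      obtain ⟨x, hx, hxn, hx2, hx3, _⟩ := ini_succ C.inf s.card
      rw [← hk.2.eq_ini C.inf] at hxn hx2 hx3
      have hxQ : Q (P x) := by
        have := hC.2 hx
        rw [h4] at this
        rcases this with h | h
        · have h5 := ht x h
          have h6 := hx2 t hts
          omega
        · exact h.1.2
      have e : (apr (s.card + 1) C ∈ O) = P x := by
        apply propext
        constructor
        · intro h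
          have e1 : apr (s.card + 1) C = Ap.node l (insert x s) (Finset.insert_nonempty x s)
              (fun y hy => by
                rcases Finset.mem_insert.1 hy with rfl | hy
                · rw [← hk.1]
                  exact C.bd _ hx
                · exact hb y hy) := by
            rw [apr_eq (Nat.succ_ne_zero _)]
            exact ⟨hk.1, hx3⟩
          rw [e1] at h
          exact ⟨_, _, h⟩
        · rintro ⟨h1, h2, h⟩
          have e1 : apr (s.card + 1) C = Ap.node l (insert x s) h1 h2 := by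
            rw [apr_eq (Nat.succ_ne_zero _)]
            exact ⟨hk.1, hx3⟩
          rw [e1]
          exact h
      rw [e]
      exact hxQ
    rcases split _ B.inf P with h | h
    · obtain ⟨A, hA, hA'⟩ := main (fun p => p) h
      exact ⟨A, hA, Or.inl hA'⟩
    · obtain ⟨A, hA, hA'⟩ := main (fun p => ¬ p) h
      exact ⟨A, hA, Or.inr hA'⟩

omit [PartialOrder L] in
theorem lclosed (x : ℕ → Ap L lb) (h : ∀ N, ∃ A : LSet L lb, ∀ n ≤ N, apr n A = x n) :
    ∃ A : LSet L lb, ∀ n, apr n A = x n := by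
  choose A hA using h
  -- the labels agree
  have hlab : ∀ n, 1 ≤ n → (A n).lab = (A 1).lab := by
    intro n hn
    have h1 := hA n 1 hn
    have h2 := hA 1 1 le_rfl
    rw [← h2] at h1
    exact ((apr_eq_apr one_ne_zero _ _).1 h1).1
  have hini : ∀ n m, n ≤ m → ini (A m).X n = ini (A n).X n := by
    intro n m hnm
    rcases Nat.eq_zero_or_pos n with rfl | hn
    · rw [ini_zero, ini_zero]
    · have h1 := hA m n hnm
      rw [← hA n n le_rfl] at h1
      exact ((apr_eq_apr hn.ne' _ _).1 h1).2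
  let X : Set ℕ := {y | ∃ n, y ∈ ini (A n).X n}
  have hsub : ∀ n, IsIni (ini (A n).X n) X := by
    intro n
    refine ⟨fun y hy => ⟨n, hy⟩, ?_⟩
    rintro y ⟨m, hy⟩ z hz hyz
    have hy' : y ∈ (A (max m n)).X := by
      rw [← hini m (max m n) (le_max_left _ _)] at hy
      exact (ini_isIni (A _).inf _).1 y hy
    rw [← hini n (max m n) (le_max_right _ _)] at hz ⊢
    exact (ini_isIni (A _).inf n).2 y hy' z hz hyz
  have hinf : X.Infinite := by
    intro hfin
    have h1 := ini_card (A (hfin.toFinset.card + 1)).inf (hfin.toFinset.card + 1)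
    have h2 : ini (A (hfin.toFinset.card + 1)).X (hfin.toFinset.card + 1) ⊆ hfin.toFinset := by
      intro y hy
      exact hfin.mem_toFinset.2 ⟨_, hy⟩
    have := Finset.card_le_card h2
    omega
  refine ⟨⟨(A 1).lab, X, hinf, ?_⟩, ?_⟩
  · rintro y ⟨n, hy⟩
    rcases Nat.eq_zero_or_pos n with rfl | hn
    · rw [ini_zero] at hy
      exact absurd hy (by simp)
    · rw [← hlab n hn]
      exact (A n).bd y ((ini_isIni (A n).inf n).1 y hy)
  · intro n
    rw [← hA n n le_rfl]
    rcases Nat.eq_zero_or_pos n with rfl | hn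
    · rfl
    · rw [apr_eq_apr hn.ne']
      refine ⟨(hlab n hn).symm, ?_⟩
      have := (hsub n).eq_ini hinf
      rw [ini_card (A n).inf] at this
      exact this.symm

/-- **The topological Ramsey space of labelled infinite sets** -/
noncomputable def labTRS (L : Type) [PartialOrder L] (lb : L → ℕ) (hne : Nonempty L)
    (hfin : ∀ t N, {l : L | l ≤ t ∧ lb l ≤ N}.Finite)
    (hmin : ∀ t : L, ∃ l ≤ t, ∀ l' ≤ l, l' = l) : TRS where
  R := LSet L lb
  AR := Ap L lb
  le := lle
  lef := apf
  r := apr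
  ne := ⟨⟨hne.some, {x | lb hne.some ≤ x}, (Set.Ici_infinite (lb hne.some)),
    fun _ h => h⟩⟩
  surj := by
    intro a
    cases a with
    | root =>
      exact ⟨0, ⟨hne.some, {x | lb hne.some ≤ x}, (Set.Ici_infinite (lb hne.some)),
        fun _ h => h⟩, rfl⟩
    | node l s hs hb =>
      obtain ⟨C, _, _, h⟩ := exists_apr (lb := lb) l s hs hb Set.univ Set.infinite_univ
      exact ⟨_, C, h⟩
  le_refl := fun A => ⟨le_rfl, subset_rfl⟩
  le_trans := fun A B C h1 h2 => ⟨h1.1.trans h2.1, h1.2.trans h2.2⟩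
  lef_refl := apf_refl
  lef_trans := apf_trans
  A1a := fun _ _ => rfl
  A1b := by
    intro A B hAB
    by_contra h
    push Not at h
    apply hAB
    have h1 := (apr_eq_apr one_ne_zero _ _).1 (h 1)
    refine LSet.ext h1.1 ?_
    ext x
    constructor
    · intro hx
      obtain ⟨n, hn⟩ := exists_ini A.inf hx
      have h2 := (apr_eq_apr (Nat.succ_ne_zero n) _ _).1 (h (n + 1))
      have h3 := ini_mono _ (Nat.le_succ n) hn
      rw [Nat.succ_eq_add_one, h2.2] at h3
      exact (ini_isIni B.inf _).1 x h3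
    · intro hx
      obtain ⟨n, hn⟩ := exists_ini B.inf hx
      have h2 := (apr_eq_apr (Nat.succ_ne_zero n) _ _).1 (h (n + 1))
      have h3 := ini_mono _ (Nat.le_succ n) hn
      rw [Nat.succ_eq_add_one, ← h2.2] at h3
      exact (ini_isIni A.inf _).1 x h3
  A1c := by
    intro A B m n h
    cases m with
    | zero =>
      cases n with
      | zero => exact ⟨rfl, fun k hk => absurd hk (by omega)⟩
      | succ n => exact absurd h (by simp [apr])
    | succ m =>
      cases n with
      | zero => exact absurd h (by simp [apr])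
      | succ n =>
        simp only [apr, Ap.node.injEq] at h
        have hmn : m + 1 = n + 1 := by
          rw [← ini_card A.inf (m + 1), h.2, ini_card B.inf]
        refine ⟨hmn, ?_⟩
        intro k hk
        rcases Nat.eq_zero_or_pos k with rfl | hk0
        · rfl
        · rw [apr_eq_apr hk0.ne']
          refine ⟨h.1, ?_⟩
          have h2 := h.2
          rw [← hmn] at h2
          exact ini_eq_of A.inf B.inf h2 hk.le
  A2a := apf_finite hfin
  A2b := lle_iff
  A2c := by
    intro a b c hab hbc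
    obtain ⟨A, m, n, hmn, rfl, rfl⟩ := hab
    have hc : ∃ n C, apr n C = c := by
      cases c with
      | root =>
        exact ⟨0, ⟨hne.some, {x | lb hne.some ≤ x}, (Set.Ici_infinite (lb hne.some)),
          fun _ h => h⟩, rfl⟩
      | node l s hs hb =>
        obtain ⟨C, _, _, h⟩ := exists_apr (lb := lb) l s hs hb Set.univ Set.infinite_univ
        exact ⟨_, C, h⟩
    obtain ⟨k, C, hC⟩ := hc
    refine ⟨c, ⟨C, k, k, le_rfl, hC.symm, hC.symm⟩, apf_trans _ _ _ ?_ hbc⟩
    cases m with
    | zero => trivial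
    | succ m =>
      rw [apr, node_apf_iff]
      exact ⟨by omega, le_rfl, ini_mono _ hmn⟩
  A3a := lA3a
  A3b := lA3b
  A4 := fun B a n l h1 h2 O => lA4 hmin B a n l h1 h2 O
  closed := isClosed_of lclosed

end Order

end Pool.Agent.Q147.TR
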