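import Pool.Agent.Q147.TRSpace

/-!
# The topological Ramsey space of all sets of integers, and codes for positive sets
-/

namespace Pool.Agent.Q147.TR

open Set MeasureTheory

/-! ### The space `P(ω)` with the approximations `A ∩ n` -/

/-- the approximations: a bound and a finite set below the bound -/
@[ext] structure Fa where
  /-- the bound -/
  n : ℕ
  /-- the finite set -/
  d : Finset ℕ
  hd : ∀ x ∈ d, x < n

open Classical in
/-- the approximations of a set of integers -/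
noncomputable def fapr (n : ℕ) (A : Set ℕ) : Fa :=
  ⟨n, (Finset.range n).filter (· ∈ A), fun _ hx => Finset.mem_range.1 (Finset.mem_filter.1 hx).1⟩

theorem mem_fapr {n x : ℕ} {A : Set ℕ} : x ∈ (fapr n A).d ↔ x < n ∧ x ∈ A := by
  simp [fapr]

theorem fapr_eq {n : ℕ} {A : Set ℕ} {a : Fa} :
    fapr n A = a ↔ a.n = n ∧ ∀ x, x ∈ a.d ↔ x < n ∧ x ∈ A := by
  constructor
  · rintro rfl
    exact ⟨rfl, fun x => mem_fapr⟩
  · rintro ⟨h1, h2⟩
    refine Fa.ext h1.symm ?_
    ext x
    rw [mem_fapr, h2]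

theorem fapr_self (a : Fa) : fapr a.n (a.d : Set ℕ) = a := by
  rw [fapr_eq]
  refine ⟨rfl, fun x => ⟨fun h => ⟨a.hd x h, h⟩, fun h => h.2⟩⟩

/-- the order of the approximations -/
def fle (a b : Fa) : Prop := a.n ≤ b.n ∧ a.d ⊆ b.d

theorem fle_finite (b : Fa) : {a | fle a b}.Finite := by
  have h1 : ((Set.Iic b.n) ×ˢ ((b.d.powerset : Finset (Finset ℕ)) : Set (Finset ℕ))).Finite :=
    (Set.finite_Iic _).prod (Finset.finite_toSet _)
  let f : Fa → ℕ × Finset ℕ := fun a => (a.n, a.d)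
  have hf : Function.Injective f := by
    intro a b hab
    simp only [f, Prod.mk.injEq] at hab
    exact Fa.ext hab.1 hab.2
  refine Set.Finite.of_finite_image (f := f) ?_ hf.injOn
  refine h1.subset ?_
  rintro _ ⟨a, ha, rfl⟩
  exact ⟨ha.1, by simpa [f] using ha.2⟩

theorem fdepth {B : Set ℕ} {a : Fa} {n : ℕ} (h : IsLeast {n | fle a (fapr n B)} n) :
    n = a.n ∧ ∀ x ∈ a.d, x ∈ B := by
  have h1 : fle a (fapr n B) := h.1
  have h2 : ∀ x ∈ a.d, x ∈ B := fun x hx => (mem_fapr.1 (h1.2 hx)).2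
  refine ⟨le_antisymm (h.2 (show fle a (fapr a.n B) from ⟨le_rfl, fun x hx => ?_⟩)) h1.1, h2⟩
  exact mem_fapr.2 ⟨a.hd x hx, h2 x hx⟩

theorem fA3a (B : Set ℕ) (a : Fa) (n : ℕ) (hn : IsLeast {n | fle a (fapr n B)} n) (A : Set ℕ)
    (hA : fapr n A = fapr n B) : ∃ C, C ⊆ A ∧ ∃ k, fapr k C = a := by
  obtain ⟨hn', hB⟩ := fdepth hn
  subst hn'
  have hd : ∀ x ∈ a.d, x ∈ A := by
    intro x hx
    have : x ∈ (fapr a.n B).d := mem_fapr.2 ⟨a.hd x hx, hB x hx⟩
    rw [← hA] at this
    exact (mem_fapr.1 this).2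
  refine ⟨{x | x ∈ a.d ∨ (x ∈ A ∧ a.n ≤ x)}, ?_, a.n, ?_⟩
  · rintro x (hx | hx)
    · exact hd x hx
    · exact hx.1
  · rw [fapr_eq]
    refine ⟨rfl, fun x => ⟨fun h => ⟨a.hd x h, Or.inl h⟩, ?_⟩⟩
    rintro ⟨h1, h2 | h2⟩
    · exact h2
    · exact absurd h2.2 (not_le.2 h1)

/-- **The topological Ramsey space of all sets of integers** -/
noncomputable def powTRS : TRS where
  R := Set ℕ
  AR := Fa
  le := fun A B => A ⊆ B
  lef := fle
  r := fapr
  ne := ⟨∅⟩
  surj := fun a => ⟨a.n, _, fapr_self a⟩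
  le_refl := fun _ => subset_rfl
  le_trans := fun _ _ _ h1 h2 => h1.trans h2
  lef_refl := fun _ => ⟨le_rfl, Finset.Subset.refl _⟩
  lef_trans := fun _ _ _ h1 h2 => ⟨h1.1.trans h2.1, h1.2.trans h2.2⟩
  A1a := by
    intro A B
    rw [fapr_eq]
    exact ⟨rfl, fun x => by rw [mem_fapr]; simp⟩
  A1b := by
    intro A B hAB
    by_contra h
    push Not at h
    apply hAB
    ext x
    have h1 := h (x + 1)
    have h2 : x ∈ (fapr (x + 1) A).d ↔ x ∈ (fapr (x + 1) B).d := by rw [h1]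
    rw [mem_fapr, mem_fapr] at h2
    simpa using h2
  A1c := by
    intro A B m n h
    have hmn : m = n := congrArg Fa.n h
    refine ⟨hmn, fun k hk => ?_⟩
    subst hmn
    rw [fapr_eq]
    refine ⟨rfl, fun x => ?_⟩
    have h2 : x ∈ (fapr m A).d ↔ x ∈ (fapr m B).d := by rw [h]
    rw [mem_fapr, mem_fapr] at h2
    rw [mem_fapr]
    constructor
    · rintro ⟨h3, h4⟩
      exact ⟨h3, (h2.2 ⟨by omega, h4⟩).2⟩
    · rintro ⟨h3, h4⟩
      exact ⟨h3, (h2.1 ⟨by omega, h4⟩).2⟩
  A2a := fle_finite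
  A2b := by
    intro A B
    constructor
    · intro h n
      exact ⟨n, le_rfl, fun x hx => by
        rw [mem_fapr] at hx ⊢
        exact ⟨hx.1, h hx.2⟩⟩
    · intro h x hx
      obtain ⟨m, hm⟩ := h (x + 1)
      exact (mem_fapr.1 (hm.2 (mem_fapr.2 ⟨Nat.lt_succ_self x, hx⟩))).2
  A2c := by
    intro a b c hab hbc
    obtain ⟨A, m, n, hmn, rfl, rfl⟩ := hab
    refine ⟨c, ⟨(c.d : Set ℕ), c.n, c.n, le_rfl, (fapr_self c).symm, (fapr_self c).symm⟩, ?_⟩
    refine ⟨hmn.trans hbc.1, fun x hx => hbc.2 ?_⟩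
    rw [mem_fapr] at hx ⊢
    exact ⟨by omega, hx.2⟩
  A3a := fun B a n hn A _ hA => fA3a B a n hn A hA
  A3b := by
    intro B a n hn A hAB hA
    obtain ⟨hn', hB⟩ := fdepth hn
    have h1 : fapr n {x | (x < n ∧ x ∈ B) ∨ (n ≤ x ∧ x ∈ A)} = fapr n B := by
      rw [fapr_eq]
      refine ⟨rfl, fun x => ?_⟩
      rw [mem_fapr]
      constructor
      · rintro ⟨h1, h2⟩
        exact ⟨h1, Or.inl ⟨h1, h2⟩⟩
      · rintro ⟨h1, h2 | h2⟩
        · exact ⟨h1, h2.2⟩
        · exact absurd h2.1 (not_le.2 h1)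
    refine ⟨{x | (x < n ∧ x ∈ B) ∨ (n ≤ x ∧ x ∈ A)}, ⟨?_, h1⟩, fA3a B a n hn _ h1, ?_⟩
    · rintro x (hx | hx)
      · exact hx.2
      · exact hAB hx.2
    · rintro C hC ⟨k, hk⟩ x hx
      obtain ⟨D, hDA, k', hk'⟩ := hA
      rw [fapr_eq] at hk hk'
      rcases hC hx with h | h
      · have hxa : x ∈ a.d := (hk.2 x).2 ⟨by omega, hx⟩
        exact hDA ((hk'.2 x).1 hxa).2
      · exact h.2
  A4 := by
    intro B a n l hn hl O
    obtain ⟨hn', hB⟩ := fdepth hn
    obtain ⟨A0, hA0⟩ := hl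
    have hl' : a.n = l := (fapr_eq.1 hA0).1
    refine ⟨{x | x ∈ B ∧ x ≠ n}, ⟨fun x hx => hx.1, ?_⟩, ?_⟩
    · rw [fapr_eq]
      refine ⟨rfl, fun x => ?_⟩
      rw [mem_fapr]
      constructor
      · rintro ⟨h1, h2⟩
        exact ⟨h1, h2, by omega⟩
      · rintro ⟨h1, h2⟩
        exact ⟨h1, h2.1⟩
    · have key : ∀ C : Set ℕ, C ⊆ {x | x ∈ B ∧ x ≠ n} → (∃ k, fapr k C = a) →
          fapr (l + 1) C = fapr (l + 1) (a.d : Set ℕ) := by
        rintro C hC ⟨k, hk⟩
        rw [fapr_eq] at hk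
        rw [fapr_eq]
        refine ⟨rfl, fun x => ?_⟩
        rw [mem_fapr]
        constructor
        · rintro ⟨h1, h2⟩
          exact ⟨h1, ((hk.2 x).1 h2).2⟩
        · rintro ⟨h1, h2⟩
          refine ⟨h1, ?_⟩
          have h3 := (hC h2).2
          exact (hk.2 x).2 ⟨by omega, h2⟩
      by_cases hO : fapr (l + 1) (a.d : Set ℕ) ∈ O
      · exact Or.inl fun C hC hk => by rw [key C hC hk]; exact hO
      · exact Or.inr fun C hC hk => by rw [key C hC hk]; exact hO
  closed := by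
    refine isClosed_of ?_
    intro x h
    choose A hA using h
    refine ⟨{y | y ∈ (x (y + 1)).d}, fun n => ?_⟩
    have hn := hA n n le_rfl
    rw [fapr_eq] at hn ⊢
    refine ⟨hn.1, fun y => ?_⟩
    constructor
    · intro hy
      have h1 := (hn.2 y).1 hy
      refine ⟨h1.1, ?_⟩
      have h2 := fapr_eq.1 (hA n (y + 1) (by omega))
      exact (h2.2 y).2 ⟨by omega, h1.2⟩
    · rintro ⟨h1, h3⟩
      have h2 := fapr_eq.1 (hA n (y + 1) (by omega))
      exact (hn.2 y).2 ⟨h1, ((h2.2 y).1 h3).2⟩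

/-! ### Ramsey null sets and codes -/

namespace TRS
variable (S : TRS)

/-- the set `[s, A]` -/
def bas (s : S.AR) (A : S.R) : Set S.R := {C | S.le C A ∧ ∃ n, S.r n C = s}

/-- Ramsey null sets: every nonempty `[s, A]` contains some `B` with `[s, B]` disjoint from `X` -/
def Null (X : Set S.R) : Prop :=
  ∀ s A, (S.bas s A).Nonempty → ∃ B ∈ S.bas s A, S.bas s B ∩ X = ∅

/-- `s` is an initial segment of `t` -/
def Init (s t : S.AR) : Prop := ∃ A m n, m ≤ n ∧ s = S.r m A ∧ t = S.r n A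

/-- the `n`-th set of approximations coded by `x` -/
def code (e : ℕ × S.AR → ℕ) (x : ℕ → Bool) (n : ℕ) : Set S.AR := {a | x (e (n, a)) = true}

/-- the `G_delta` set coded by `x`: the complement of the union of the sets of branches
`[X_n]` if all the `X_n` are trees, and the empty set otherwise -/
def G (e : ℕ × S.AR → ℕ) (x : ℕ → Bool) : Set S.R :=
  {A | (∀ n s t, S.Init s t → t ∈ S.code e x n → s ∈ S.code e x n) ∧
    ∀ n, ¬ ∀ k, S.r k A ∈ S.code e x n}

/-- the set of codes for `G_delta` Ramsey positive sets -/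
def codes (e : ℕ × S.AR → ℕ) : Set (ℕ → Bool) := {x | ¬ S.Null (S.G e x)}

end TRS

/-- the boldface class `Σ¹₂`: projections of coanalytic sets -/
def Sigma12 (A : Set (ℕ → Bool)) : Prop :=
  ∃ B : Set ((ℕ → Bool) × (ℕ → ℕ)), AnalyticSet Bᶜ ∧ A = {x | ∃ y, (x, y) ∈ B}

/-- `Σ¹₂`-complete sets -/
def Complete12 (C : Set (ℕ → Bool)) : Prop :=
  Sigma12 C ∧ ∀ A, Sigma12 A → ∃ f : (ℕ → Bool) → (ℕ → Bool), Continuous f ∧ A = f ⁻¹' C

instance polish_cantor : PolishSpace (ℕ → Bool) := by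
  have h : Topology.IsClosedEmbedding (fun (x : ℕ → Bool) (n : ℕ) => (x n).toNat) := by
    refine Continuous.isClosedEmbedding ?_ ?_
    · exact continuous_pi fun n =>
        (continuous_of_discreteTopology (f := Bool.toNat)).comp (continuous_apply n)
    · intro x y hxy
      funext n
      have := congrFun hxy n
      cases hx : x n <;> cases hy : y n <;> simp_all
  exact h.polishSpace

theorem sigma12_of_measurable {A : Set (ℕ → Bool)} (hA : MeasurableSet A) : Sigma12 A := by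
  refine ⟨{p | p.1 ∈ A}, ?_, ?_⟩
  · exact ((hA.preimage measurable_fst).compl).analyticSet
  · ext x
    exact ⟨fun h => ⟨0, h⟩, fun ⟨_, h⟩ => h⟩

/-- **A Borel set is not `Σ¹₂`-complete** -/
theorem not_complete_of_measurable {C : Set (ℕ → Bool)} (hC : MeasurableSet C) :
    ¬ Complete12 C := by
  classical
  rintro ⟨_, h⟩
  have : Countable (TopologicalSpace.Clopens (ℕ → Bool)) :=
    TopologicalSpace.Clopens.countable_iff_secondCountable.2 inferInstance
  obtain ⟨K, hK⟩ := exists_surjective_nat (TopologicalSpace.Clopens (ℕ → Bool))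
  have hnc : ¬ Countable (ℕ → Bool) := by
    rw [← Cardinal.mk_le_aleph0_iff]
    simp only [Cardinal.mk_pi, Cardinal.mk_fintype, Fintype.card_bool, Cardinal.prod_const,
      Cardinal.lift_id, Cardinal.mk_nat, not_le]
    exact_mod_cast Cardinal.cantor Cardinal.aleph0
  have hnc' : ¬ Countable (ℕ → ℕ) := by
    intro h'
    apply hnc
    have hinj : Function.Injective (fun (x : ℕ → Bool) (n : ℕ) => (x n).toNat) := by
      intro x y hxy
      funext n
      have := congrFun hxy n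
      cases hx : x n <;> cases hy : y n <;> simp_all
    exact hinj.countable
  let φ : (ℕ → Bool) ≃ᵐ (ℕ → ℕ) := PolishSpace.measurableEquivOfNotCountable hnc hnc'
  let g : (ℕ → Bool) → (ℕ → Bool) := fun x n => decide (x ∈ K (φ x n))
  have hg : Measurable g := by
    rw [measurable_pi_iff]
    intro n
    have hφ : Measurable fun x => φ x n := (measurable_pi_apply n).comp φ.measurable
    refine measurable_to_bool ?_
    have e : (fun x => g x n) ⁻¹' {true} =
        ⋃ k, ({x | φ x n = k} ∩ (K k : Set (ℕ → Bool))) := by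
      ext x
      simp only [g, Set.mem_preimage, Set.mem_singleton_iff, decide_eq_true_eq, Set.mem_iUnion,
        Set.mem_inter_iff]
      constructor
      · intro hx
        exact ⟨φ x n, rfl, hx⟩
      · rintro ⟨k, hk, hx⟩
        rw [show φ x n = k from hk]
        exact hx
    rw [e]
    refine MeasurableSet.iUnion fun k => ?_
    exact (hφ (measurableSet_singleton k)).inter (K k).isClopen.isOpen.measurableSet
  obtain ⟨f, hf, hfD⟩ := h (g ⁻¹' Cᶜ) (sigma12_of_measurable (hg hC.compl))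
  have hcl : ∀ n, IsClopen {x : ℕ → Bool | f x n = true} := by
    intro n
    have : Continuous fun x => f x n := (continuous_apply n).comp hf
    exact (isClopen_discrete ({true} : Set Bool)).preimage this
  choose e he using fun n => hK ⟨{x | f x n = true}, hcl n⟩
  let c := φ.symm e
  have hgc : g c = f c := by
    funext n
    have h1 : φ c n = e n := by
      rw [show φ c = e from φ.apply_symm_apply e]
    have h2 : (c ∈ K (φ c n)) ↔ f c n = true := by
      rw [h1, he]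
      exact Iff.rfl
    by_cases h3 : f c n = true
    · rw [h3]
      simpa [g] using h2.2 h3
    · have h4 : ¬ c ∈ K (φ c n) := fun h5 => h3 (h2.1 h5)
      rw [Bool.not_eq_true] at h3
      rw [h3]
      simpa [g] using h4
  have h5 : c ∈ g ⁻¹' Cᶜ ↔ c ∈ f ⁻¹' C := by rw [hfD]
  rw [Set.mem_preimage, Set.mem_preimage, hgc, Set.mem_compl_iff] at h5
  exact (not_iff_self h5)

/-! ### The positive sets of `P(ω)` -/

theorem pow_null_plain (X : Set (Set ℕ)) :
    powTRS.Null X ↔ ∀ (s : Fa) (A : Set ℕ), (∃ C : Set ℕ, C ⊆ A ∧ ∃ n, fapr n C = s) →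
      ∃ B : Set ℕ, (B ⊆ A ∧ ∃ n, fapr n B = s) ∧
        ∀ D : Set ℕ, D ⊆ B → (∃ n, fapr n D = s) → D ∉ X := by
  constructor
  · intro h s A hA
    obtain ⟨B, hB, hB'⟩ := h s A hA
    refine ⟨B, hB, fun D hD hD' hDX => ?_⟩
    exact Set.eq_empty_iff_forall_notMem.1 hB' D ⟨⟨hD, hD'⟩, hDX⟩
  · intro h s A hA
    obtain ⟨B, hB, hB'⟩ := h s A hA
    refine ⟨B, hB, Set.eq_empty_iff_forall_notMem.2 ?_⟩
    rintro D ⟨⟨hD, hD'⟩, hDX⟩
    exact hB' D hD hD' hDX

theorem pow_null_iff (X : Set (Set ℕ)) :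
    powTRS.Null X ↔ ∀ F : Finset ℕ, (F : Set ℕ) ∉ X := by
  rw [pow_null_plain]
  constructor
  · intro h F hF
    have hb : ∀ B : Set ℕ, B ⊆ (F : Set ℕ) → (∃ n, fapr n B = fapr (F.sup id + 1) F) →
        B = F := by
      rintro B h1 ⟨k, h2⟩
      refine Set.Subset.antisymm h1 ?_
      intro x hx
      have h3 := fapr_eq.1 h2
      have hx' : x ≤ F.sup id := Finset.le_sup (f := id) hx
      have : x ∈ (fapr (F.sup id + 1) (F : Set ℕ)).d := mem_fapr.2 ⟨by omega, hx⟩
      exact ((h3.2 x).1 this).2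
    obtain ⟨B, hB, hB'⟩ := h (fapr (F.sup id + 1) F) (F : Set ℕ) ⟨F, subset_rfl, _, rfl⟩
    have hB2 : B = F := hb B hB.1 hB.2
    subst hB2
    exact hB' _ subset_rfl ⟨_, rfl⟩ hF
  · rintro h s A ⟨C, hC, k, hk⟩
    have hk' := fapr_eq.1 hk
    refine ⟨(s.d : Set ℕ), ⟨?_, s.n, fapr_self s⟩, ?_⟩
    · intro x hx
      exact hC ((hk'.2 x).1 hx).2
    · rintro D h1 ⟨j, h2⟩ hD
      have h2' := fapr_eq.1 h2
      have h4 : D = (s.d : Set ℕ) := by
        refine Set.Subset.antisymm h1 ?_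
        intro x hx
        exact ((h2'.2 x).1 hx).2
      subst h4
      exact h s.d hD

instance : Countable Fa := by
  let f : Fa → ℕ × Finset ℕ := fun a => (a.n, a.d)
  have hf : Function.Injective f := by
    intro a b hab
    simp only [f, Prod.mk.injEq] at hab
    exact Fa.ext hab.1 hab.2
  exact hf.countable

theorem measurable_codes (e : ℕ × Fa → ℕ) : MeasurableSet (powTRS.codes e) := by
  have h1 : ∀ i, Measurable fun x : ℕ → Bool => x i = true := by
    intro i
    have h0 : Measurable fun x : ℕ → Bool => x i := measurable_pi_apply i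
    rw [← measurableSet_setOfPred]
    exact h0 (measurableSet_singleton true)
  have h2 : powTRS.codes e = {x | (∀ n : ℕ, ∀ s t : Fa, powTRS.Init s t →
      x (e (n, t)) = true → x (e (n, s)) = true) ∧
      ∃ F : Finset ℕ, ∀ n : ℕ, ∃ k : ℕ, ¬ x (e (n, fapr k (F : Set ℕ))) = true} := by
    ext x
    simp only [TRS.codes, Set.mem_ofPred_eq]
    rw [pow_null_iff]
    push Not
    constructor
    · rintro ⟨F, hF1, hF2⟩
      refine ⟨hF1, F, fun n => ?_⟩
      have := hF2 n
      push Not at this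
      obtain ⟨k, hk⟩ := this
      exact ⟨k, hk⟩
    · rintro ⟨hF1, F, hF2⟩
      refine ⟨F, hF1, fun n => ?_⟩
      push Not
      obtain ⟨k, hk⟩ := hF2 n
      exact ⟨k, hk⟩
  rw [h2, measurableSet_setOfPred]
  refine Measurable.and ?_ ?_
  · refine Measurable.forall fun n => Measurable.forall fun s => Measurable.forall fun t => ?_
    exact Measurable.imp measurable_const (Measurable.imp (h1 _) (h1 _))
  · exact Measurable.exists fun F => Measurable.forall fun n => Measurable.exists fun k =>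
      (h1 _).not

end Pool.Agent.Q147.TR
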