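import Mathlib

/-!
# Topological Ramsey spaces

The axioms A.1 - A.4 of Todorcevic and, for every partially ordered set `L` of labels satisfying
two finiteness conditions, a topological Ramsey space of labelled infinite sets of integers.
-/

namespace Pool.Agent.Q147.TR

open Set

/-- A **topological Ramsey space**: `R` is the set of the points, `AR` the set of the finite
approximations, `r n A` the `n`-th approximation of `A`, `le` the quasi-order on `R` and `lef` the
quasi-order on `AR` of axiom A.2. -/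
structure TRS where
  /-- the points -/
  R : Type
  /-- the approximations -/
  AR : Type
  /-- the quasi-order on the points -/
  le : R → R → Prop
  /-- the quasi-order on the approximations -/
  lef : AR → AR → Prop
  /-- the approximations of a point -/
  r : ℕ → R → AR
  ne : Nonempty R
  /-- every element of `AR` is an approximation -/
  surj : ∀ a, ∃ n A, r n A = a
  le_refl : ∀ A, le A A
  le_trans : ∀ A B C, le A B → le B C → le A C
  lef_refl : ∀ a, lef a a
  lef_trans : ∀ a b c, lef a b → lef b c → lef a c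
  /-- A.1 -/
  A1a : ∀ A B, r 0 A = r 0 B
  A1b : ∀ A B, A ≠ B → ∃ n, r n A ≠ r n B
  A1c : ∀ A B m n, r m A = r n B → m = n ∧ ∀ k < m, r k A = r k B
  /-- A.2 -/
  A2a : ∀ b, {a | lef a b}.Finite
  A2b : ∀ A B, le A B ↔ ∀ n, ∃ m, lef (r n A) (r m B)
  A2c : ∀ a b c, (∃ A m n, m ≤ n ∧ a = r m A ∧ b = r n A) → lef b c →
    ∃ d, (∃ A m n, m ≤ n ∧ d = r m A ∧ c = r n A) ∧ lef a d
  /-- A.3; the set `[a, A]` is `{C | le C A ∧ ∃ n, r n C = a}`, the set `[n, B]` is
  `{A | le A B ∧ r n A = r n B}`, the depth of `a` in `B` is the least `n` such that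
  `lef a (r n B)`. -/
  A3a : ∀ B a n, IsLeast {n | lef a (r n B)} n → ∀ A, le A B → r n A = r n B →
    ∃ C, le C A ∧ ∃ k, r k C = a
  A3b : ∀ B a n, IsLeast {n | lef a (r n B)} n → ∀ A, le A B → (∃ C, le C A ∧ ∃ k, r k C = a) →
    ∃ A', (le A' B ∧ r n A' = r n B) ∧ (∃ C, le C A' ∧ ∃ k, r k C = a) ∧
      ∀ C, le C A' → (∃ k, r k C = a) → le C A
  /-- A.4; `l` is the length of `a`. -/
  A4 : ∀ B a n l, IsLeast {n | lef a (r n B)} n → (∃ A, r l A = a) → ∀ O : Set AR,
    ∃ A, (le A B ∧ r n A = r n B) ∧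
      ((∀ C, le C A → (∃ k, r k C = a) → r (l + 1) C ∈ O) ∨
        (∀ C, le C A → (∃ k, r k C = a) → r (l + 1) C ∉ O))
  /-- `R` is closed in `AR ^ ω`, where `AR` is discrete. -/
  closed : @IsClosed (ℕ → AR) (@Pi.topologicalSpace ℕ (fun _ => AR) (fun _ => ⊥))
    (Set.range fun A : R => fun n => r n A)

theorem isClosed_of {R AR : Type} {r : ℕ → R → AR}
    (h : ∀ x : ℕ → AR, (∀ N, ∃ A, ∀ n ≤ N, r n A = x n) → ∃ A, ∀ n, r n A = x n) :
    @IsClosed (ℕ → AR) (@Pi.topologicalSpace ℕ (fun _ => AR) (fun _ => ⊥))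
      (Set.range fun A : R => fun n => r n A) := by
  let _ : TopologicalSpace AR := ⊥
  have _ : DiscreteTopology AR := ⟨rfl⟩
  refine isClosed_of_closure_subset ?_
  intro x hx
  have h1 : ∀ N, ∃ A, ∀ n ≤ N, r n A = x n := by
    intro N
    rw [mem_closure_iff] at hx
    have ho : IsOpen {y : ℕ → AR | ∀ n ≤ N, y n = x n} := by
      have : {y : ℕ → AR | ∀ n ≤ N, y n = x n} = (Set.Iic N).pi (fun n => {x n}) := by
        ext y
        simp [Set.mem_pi]
      rw [this]
      exact isOpen_set_pi (Set.finite_Iic N) (fun n _ => isOpen_discrete _)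
    obtain ⟨y, hy, ⟨A, rfl⟩⟩ := hx _ ho (fun n _ => rfl)
    exact ⟨A, hy⟩
  obtain ⟨A, hA⟩ := h x h1
  exact ⟨A, funext hA⟩

/-! ### Initial segments of infinite sets of integers -/

/-- `s` is an initial segment of `X` -/
def IsIni (s : Finset ℕ) (X : Set ℕ) : Prop :=
  (∀ x ∈ s, x ∈ X) ∧ ∀ x ∈ X, ∀ y ∈ s, x < y → x ∈ s

theorem IsIni.comp {s t : Finset ℕ} {X : Set ℕ} (hs : IsIni s X) (ht : IsIni t X) :
    s ⊆ t ∨ t ⊆ s := by
  by_contra h
  push Not at h
  obtain ⟨h1, h2⟩ := h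
  obtain ⟨x, hx, hx'⟩ := Finset.not_subset.1 h1
  obtain ⟨y, hy, hy'⟩ := Finset.not_subset.1 h2
  rcases lt_trichotomy x y with h | h | h
  · exact hx' (ht.2 x (hs.1 x hx) y hy h)
  · exact hx' (h ▸ hy)
  · exact hy' (hs.2 y (ht.1 y hy) x hx h)

theorem IsIni.eq_of_card {s t : Finset ℕ} {X : Set ℕ} (hs : IsIni s X) (ht : IsIni t X)
    (h : s.card = t.card) : s = t := by
  rcases hs.comp ht with h1 | h1
  · exact Finset.eq_of_subset_of_card_le h1 h.ge
  · exact (Finset.eq_of_subset_of_card_le h1 h.le).symm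

theorem inf' {X : Set ℕ} (hX : X.Infinite) : (Set.ofPred (· ∈ X)).Infinite := by
  have : Set.ofPred (· ∈ X) = X := Set.ext fun _ => Iff.rfl
  rw [this]
  exact hX

open Classical in
/-- the first `j` elements of `X` -/
noncomputable def ini (X : Set ℕ) (j : ℕ) : Finset ℕ :=
  (Finset.range j).image (Nat.nth (· ∈ X))

theorem mem_ini {X : Set ℕ} {j x : ℕ} : x ∈ ini X j ↔ ∃ i < j, Nat.nth (· ∈ X) i = x := by
  classical
  simp [ini]

theorem ini_isIni {X : Set ℕ} (hX : X.Infinite) (j : ℕ) : IsIni (ini X j) X := by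
  classical
  have hX' := inf' hX
  constructor
  · intro x hx
    obtain ⟨i, hi, rfl⟩ := mem_ini.1 hx
    exact Nat.nth_mem_of_infinite hX' i
  · intro x hx y hy hxy
    obtain ⟨i, hi, rfl⟩ := mem_ini.1 hy
    have hxr : x ∈ Set.range (Nat.nth (· ∈ X)) := by
      rw [Nat.range_nth_of_infinite hX']
      exact hx
    obtain ⟨k, rfl⟩ := hxr
    refine mem_ini.2 ⟨k, ?_, rfl⟩
    exact lt_trans ((Nat.nth_strictMono hX').lt_iff_lt.1 hxy) hi

theorem ini_card {X : Set ℕ} (hX : X.Infinite) (j : ℕ) : (ini X j).card = j := by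
  classical
  have hX' := inf' hX
  rw [ini, Finset.card_image_of_injective _ (Nat.nth_strictMono hX').injective,
    Finset.card_range]

theorem ini_mono (X : Set ℕ) {i j : ℕ} (h : i ≤ j) : ini X i ⊆ ini X j := by
  intro x hx
  obtain ⟨k, hk, rfl⟩ := mem_ini.1 hx
  exact mem_ini.2 ⟨k, lt_of_lt_of_le hk h, rfl⟩

theorem ini_zero (X : Set ℕ) : ini X 0 = ∅ := by
  ext x
  simp [mem_ini]

theorem IsIni.eq_ini {s : Finset ℕ} {X : Set ℕ} (hX : X.Infinite) (hs : IsIni s X) :
    s = ini X s.card :=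
  hs.eq_of_card (ini_isIni hX _) (ini_card hX _).symm

theorem exists_ini {X : Set ℕ} (hX : X.Infinite) {x : ℕ} (hx : x ∈ X) :
    ∃ j, x ∈ ini X j := by
  classical
  have hX' := inf' hX
  have hxr : x ∈ Set.range (Nat.nth (· ∈ X)) := by
    rw [Nat.range_nth_of_infinite hX']
    exact hx
  obtain ⟨k, rfl⟩ := hxr
  exact ⟨k + 1, mem_ini.2 ⟨k, Nat.lt_succ_self k, rfl⟩⟩

theorem exists_ini_finset {X : Set ℕ} (hX : X.Infinite) (s : Finset ℕ)
    (hs : ∀ x ∈ s, x ∈ X) : ∃ j, s ⊆ ini X j := by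
  classical
  induction s using Finset.induction_on with
  | empty => exact ⟨0, by simp⟩
  | insert a s _ ih =>
    obtain ⟨j, hj⟩ := ih (fun x hx => hs x (Finset.mem_insert_of_mem hx))
    obtain ⟨k, hk⟩ := exists_ini hX (hs a (Finset.mem_insert_self a s))
    refine ⟨max j k, ?_⟩
    intro x hx
    rcases Finset.mem_insert.1 hx with rfl | hx
    · exact ini_mono X (le_max_right _ _) hk
    · exact ini_mono X (le_max_left _ _) (hj hx)

/-- two sets with a common initial segment have the same shorter initial segments -/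
theorem ini_eq_of {X Y : Set ℕ} (hX : X.Infinite) (hY : Y.Infinite) {n : ℕ}
    (h : ini X n = ini Y n) {k : ℕ} (hk : k ≤ n) : ini X k = ini Y k := by
  have h1 : IsIni (ini X k) Y := by
    constructor
    · intro x hx
      have : x ∈ ini Y n := h ▸ ini_mono X hk hx
      exact (ini_isIni hY n).1 x this
    · intro x hx y hy hxy
      have hy' : y ∈ ini Y n := h ▸ ini_mono X hk hy
      have hx' : x ∈ ini Y n := (ini_isIni hY n).2 x hx y hy' hxy
      rw [← h] at hx'
      exact (ini_isIni hX k).2 x ((ini_isIni hX n).1 x hx') y hy hxy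
  have := h1.eq_ini hY
  rw [ini_card hX] at this
  exact this

/-- the elements of `s` and the elements of `Y` above them -/
def glue (s : Finset ℕ) (Y : Set ℕ) : Set ℕ := {x | x ∈ s ∨ (x ∈ Y ∧ ∀ y ∈ s, y < x)}

theorem infinite_above {Y : Set ℕ} (hY : Y.Infinite) (s : Finset ℕ) :
    {x | x ∈ Y ∧ ∀ y ∈ s, y < x}.Infinite := by
  have : Y \ {x | x ≤ s.sup id} ⊆ {x | x ∈ Y ∧ ∀ y ∈ s, y < x} := by
    rintro x ⟨hx, hx'⟩
    refine ⟨hx, fun y hy => ?_⟩
    have h1 : y ≤ s.sup id := Finset.le_sup (f := id) hy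
    have h2 : ¬ x ≤ s.sup id := hx'
    omega
  exact (hY.sdiff (Set.finite_Iic _)).mono this

theorem glue_infinite {Y : Set ℕ} (hY : Y.Infinite) (s : Finset ℕ) : (glue s Y).Infinite :=
  (infinite_above hY s).mono fun _ hx => Or.inr hx

theorem glue_isIni (s : Finset ℕ) (Y : Set ℕ) : IsIni s (glue s Y) := by
  constructor
  · intro x hx
    exact Or.inl hx
  · rintro x (hx | ⟨_, hx⟩) y hy hxy
    · exact hx
    · exact absurd (hx y hy) (by omega)

theorem glue_sub {s : Finset ℕ} {Y X : Set ℕ} (hs : ∀ x ∈ s, x ∈ X) (hY : Y ⊆ X) :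
    glue s Y ⊆ X := by
  rintro x (hx | ⟨hx, _⟩)
  · exact hs x hx
  · exact hY hx

/-- the next element -/
theorem ini_succ {X : Set ℕ} (hX : X.Infinite) (n : ℕ) :
    ∃ x ∈ X, x ∉ ini X n ∧ (∀ y ∈ ini X n, y < x) ∧ ini X (n + 1) = insert x (ini X n) ∧
      ∀ y ∈ ini X (n + 1), y ≤ x := by
  classical
  have hX' := inf' hX
  have hm := Nat.nth_strictMono hX'
  refine ⟨Nat.nth (· ∈ X) n, Nat.nth_mem_of_infinite hX' n, ?_, ?_, ?_, ?_⟩
  · intro h
    obtain ⟨i, hi, h⟩ := mem_ini.1 h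
    exact absurd (hm.injective h) (by omega)
  · intro y hy
    obtain ⟨i, hi, rfl⟩ := mem_ini.1 hy
    exact hm hi
  · rw [ini, Finset.range_add_one, Finset.image_insert]
    rfl
  · intro y hy
    obtain ⟨i, hi, rfl⟩ := mem_ini.1 hy
    exact hm.monotone (by omega)

end Pool.Agent.Q147.TR
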