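import Mathlib
import Pool.Agent.Q147.SigmaProd

/-!
# The group `ℤ × Σ` is weakly pseudocompact
-/

namespace Pool.Agent.Q147.WeakPc

open Set Topology Pool.Agent.Q147.SigmaProd

/-- `X` is weakly pseudocompact: it has a Hausdorff compactification `K` (that is, a compact
Hausdorff space `K` with a dense embedding `i : X → K`) in which (the image of) `X` meets
every nonempty `G_δ`-set. -/
def WeaklyPseudocompact (X : Type) [TopologicalSpace X] : Prop :=
  ∃ (K : Type) (_ : TopologicalSpace K) (i : X → K), CompactSpace K ∧ T2Space K ∧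
    IsDenseEmbedding i ∧ ∀ P : Set K, IsGδ P → P.Nonempty → (P ∩ Set.range i).Nonempty

/-- `G` is precompact: for every neighbourhood `U` of `0` there is a finite set `F ⊆ G` with
`G = F + U`. -/
def Precompact (G : Type) [AddGroup G] [TopologicalSpace G] : Prop :=
  ∀ U ∈ 𝓝 (0 : G), ∃ F : Set G, F.Finite ∧ ∀ g : G, ∃ a ∈ F, ∃ u ∈ U, g = a + u

/-- `G` is `ω`-bounded in Guran's sense: for every neighbourhood `U` of `0` there is a countable
set `C ⊆ G` with `G = C + U`. -/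
def OmegaBounded (G : Type) [AddGroup G] [TopologicalSpace G] : Prop :=
  ∀ U ∈ 𝓝 (0 : G), ∃ C : Set G, C.Countable ∧ ∀ g : G, ∃ a ∈ C, ∃ u ∈ U, g = a + u

/-- Every continuous real-valued function is bounded. -/
def Pseudocompact (X : Type) [TopologicalSpace X] : Prop :=
  ∀ f : X → ℝ, Continuous f → ∃ C : ℝ, ∀ x, |f x| ≤ C

/-- The Sigma-product is `G_δ`-dense in `(ZMod 2)^ι`. -/
theorem gdelta_dense {ι : Type} (y : ι → ZMod 2) (W : ℕ → Set (ι → ZMod 2))
    (hW : ∀ n, IsOpen (W n)) (hy : ∀ n, y ∈ W n) : ∃ x : Sg ι, ∀ n, x.1 ∈ W n := by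
  classical
  have h : ∀ n, ∃ F : Finset ι, ∀ x : ι → ZMod 2, (∀ i ∈ F, x i = y i) → x ∈ W n := by
    intro n
    obtain ⟨F, u, hu, hsub⟩ := isOpen_pi_iff.1 (hW n) y (hy n)
    refine ⟨F, fun x hx => hsub ?_⟩
    intro i hi
    rw [hx i hi]
    exact (hu i hi).2
  choose F hF using h
  let A : Set ι := ⋃ n, (F n : Set ι)
  have hA : A.Countable := Set.countable_iUnion fun n => (F n).countable_toSet
  refine ⟨⟨fun i => if i ∈ A then y i else 0, ?_⟩, ?_⟩
  · rw [mem_Sg]
    refine hA.mono ?_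
    intro i hi
    by_contra hiA
    exact hi (if_neg hiA)
  · intro n
    apply hF n
    intro i hi
    have : i ∈ A := Set.mem_iUnion.2 ⟨n, hi⟩
    simp [this]

/-- The punctured product. -/
abbrev Yp (ι : Type) : Type := {y : ι → ZMod 2 // y ≠ fun _ => 1}

theorem ne_one_of_mem {ι : Type} [Uncountable ι] (x : Sg ι) : x.1 ≠ fun _ => 1 := by
  intro h
  have h2 := x.2
  rw [mem_Sg, h] at h2
  have h3 : Function.support (fun _ : ι => (1 : ZMod 2)) = univ := by
    rw [Set.eq_univ_iff_forall]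
    intro j
    simp
  rw [h3] at h2
  exact Set.not_countable_univ h2

instance (ι : Type) : LocallyCompactSpace (Yp ι) :=
  (isOpen_compl_singleton (x := (fun _ => 1 : ι → ZMod 2))).locallyCompactSpace

/-- The embedding of `ℤ × Σ` into the one-point compactification of `ℤ × ((ZMod 2)^ι \ {p})`. -/
def emb (ι : Type) [Uncountable ι] (g : ℤ × Sg ι) : OnePoint (ℤ × Yp ι) :=
  ((g.1, ⟨g.2.1, ne_one_of_mem g.2⟩) : ℤ × Yp ι)

theorem isEmbedding_emb (ι : Type) [Uncountable ι] : IsEmbedding (emb ι) := by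
  have h1 : IsEmbedding (fun x : Sg ι => (⟨x.1, ne_one_of_mem x⟩ : Yp ι)) := by
    have : IsEmbedding ((Subtype.val : Yp ι → (ι → ZMod 2)) ∘
        (fun x : Sg ι => (⟨x.1, ne_one_of_mem x⟩ : Yp ι))) := IsEmbedding.subtypeVal
    exact (IsEmbedding.of_comp (by fun_prop) continuous_subtype_val this)
  exact OnePoint.isOpenEmbedding_coe.isEmbedding.comp (IsEmbedding.id.prodMap h1)

theorem gdelta_emb (ι : Type) [Uncountable ι] (P : Set (OnePoint (ℤ × Yp ι))) (hP : IsGδ P)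
    (hne : P.Nonempty) : (P ∩ Set.range (emb ι)).Nonempty := by
  obtain ⟨U, hU, rfl⟩ := isGδ_iff_eq_iInter_nat.1 hP
  obtain ⟨q, hq⟩ := hne
  rw [Set.mem_iInter] at hq
  induction q using OnePoint.rec with
  | infty =>
    -- the closed compact sets `C n`
    have hC : ∀ n, IsCompact (((↑) : ℤ × Yp ι → OnePoint (ℤ × Yp ι)) ⁻¹' (U n))ᶜ := fun n =>
      ((OnePoint.isOpen_iff_of_mem (hq n)).1 (hU n)).2
    let D : ℕ → Set (ι → ZMod 2) := fun n =>
      (fun z : ℤ × Yp ι => z.2.1) ''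
        ((((↑) : ℤ × Yp ι → OnePoint (ℤ × Yp ι)) ⁻¹' (U n))ᶜ ∩ {z | z.1 = 0})
    have hD : ∀ n, IsCompact (D n) := fun n => by
      refine ((hC n).inter_right ?_).image (continuous_subtype_val.comp continuous_snd)
      exact isClosed_eq continuous_fst continuous_const
    obtain ⟨x, hx⟩ := gdelta_dense (fun _ => 1 : ι → ZMod 2) (fun n => (D n)ᶜ)
      (fun n => (hD n).isClosed.isOpen_compl) (by
        rintro n ⟨z, -, hz⟩
        exact z.2.2 hz)
    refine ⟨emb ι (0, x), ?_, ⟨_, rfl⟩⟩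
    rw [Set.mem_iInter]
    intro n
    by_contra hcon
    exact hx n ⟨(0, ⟨x.1, ne_one_of_mem x⟩), ⟨hcon, rfl⟩, rfl⟩
  | coe z =>
    obtain ⟨m, y⟩ := z
    have hV : ∀ n, IsOpen ((fun y' : Yp ι => (((m, y') : ℤ × Yp ι) : OnePoint (ℤ × Yp ι))) ⁻¹'
        (U n)) := fun n =>
      (hU n).preimage (OnePoint.continuous_coe.comp (by fun_prop))
    have hW : ∀ n, ∃ W : Set (ι → ZMod 2), IsOpen W ∧ Subtype.val ⁻¹' W =
        ((fun y' : Yp ι => (((m, y') : ℤ × Yp ι) : OnePoint (ℤ × Yp ι))) ⁻¹' (U n)) := fun n =>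
      isOpen_induced_iff.1 (hV n)
    choose W hWo hWe using hW
    obtain ⟨x, hx⟩ := gdelta_dense y.1 W hWo (by
      intro n
      have : y ∈ Subtype.val ⁻¹' W n := by rw [hWe]; exact hq n
      exact this)
    refine ⟨emb ι (m, x), ?_, ⟨_, rfl⟩⟩
    rw [Set.mem_iInter]
    intro n
    have : (⟨x.1, ne_one_of_mem x⟩ : Yp ι) ∈ Subtype.val ⁻¹' W n := hx n
    rw [hWe] at this
    exact this

theorem weaklyPseudocompact (ι : Type) [Uncountable ι] : WeaklyPseudocompact (ℤ × Sg ι) := by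
  refine ⟨OnePoint (ℤ × Yp ι), inferInstance, emb ι, inferInstance, inferInstance, ?_,
    gdelta_emb ι⟩
  refine ⟨⟨(isEmbedding_emb ι).isInducing, ?_⟩, (isEmbedding_emb ι).injective⟩
  rw [DenseRange, dense_iff_inter_open]
  intro U hU hne
  exact gdelta_emb ι U hU.isGδ hne

theorem not_precompact (ι : Type) : ¬ Precompact (ℤ × Sg ι) := by
  intro h
  have hU : {g : ℤ × Sg ι | g.1 = 0} ∈ 𝓝 (0 : ℤ × Sg ι) := by
    refine IsOpen.mem_nhds ?_ rfl
    exact (isOpen_discrete {(0 : ℤ)}).preimage continuous_fst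
  obtain ⟨F, hF, hcov⟩ := h _ hU
  have h2 : (Set.univ : Set ℤ) ⊆ Prod.fst '' F := by
    intro n _
    obtain ⟨a, ha, u, hu, h⟩ := hcov (n, 0)
    refine ⟨a, ha, ?_⟩
    have h3 := congrArg Prod.fst h
    simp only [Prod.fst_add] at h3
    have h4 : u.1 = 0 := hu
    rw [h4, add_zero] at h3
    exact h3.symm
  exact Set.infinite_univ ((hF.image _).subset h2)

theorem not_pseudocompact (ι : Type) : ¬ Pseudocompact (ℤ × Sg ι) := by
  intro h
  have hc : Continuous fun g : ℤ × Sg ι => (g.1 : ℝ) :=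
    (continuous_of_discreteTopology (f := fun n : ℤ => (n : ℝ))).comp continuous_fst
  obtain ⟨C, hC⟩ := h _ hc
  obtain ⟨n, hn⟩ := exists_nat_gt C
  have h1 := hC ((n : ℤ), 0)
  have h2 : |(((n : ℤ) : ℤ) : ℝ)| = n := by simp
  simp only at h1
  rw [h2] at h1
  exact absurd (h1.trans_lt hn) (lt_irrefl _)

theorem omegaBounded (ι : Type) : OmegaBounded (ℤ × Sg ι) := by
  classical
  intro U hU
  -- a neighbourhood in the second factor
  have hU2 : (fun x : Sg ι => ((0 : ℤ), x)) ⁻¹' U ∈ 𝓝 (0 : Sg ι) := by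
    have hc : Continuous fun x : Sg ι => ((0 : ℤ), x) := by fun_prop
    exact hc.continuousAt.preimage_mem_nhds hU
  obtain ⟨V, hVU, hV, h0⟩ := mem_nhds_iff.1 hU2
  obtain ⟨W, hW, rfl⟩ := isOpen_induced_iff.1 hV
  obtain ⟨F, u, hu, hsub⟩ := isOpen_pi_iff.1 hW _ h0
  -- finitely many representatives
  let C : Set (Sg ι) := {x | ∀ i, i ∉ F → x.1 i = 0}
  have hC : C.Finite := by
    refine Set.Finite.of_injOn (f := fun x : Sg ι => fun i : F => x.1 i) (t := Set.univ)
      (fun _ _ => Set.mem_univ _) ?_ (Set.toFinite _)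
    intro x hx y hy hxy
    ext i
    by_cases hi : i ∈ F
    · exact congrFun hxy ⟨i, hi⟩
    · rw [hx i hi, hy i hi]
  refine ⟨(Set.univ : Set ℤ) ×ˢ C, (Set.countable_univ).prod hC.countable, ?_⟩
  rintro ⟨n, g⟩
  let c : Sg ι := ⟨fun i => if i ∈ F then g.1 i else 0, by
    rw [mem_Sg]
    refine (F.countable_toSet).mono ?_
    intro i hi
    by_contra hiF
    exact hi (if_neg hiF)⟩
  refine ⟨(n, c), ⟨Set.mem_univ _, fun i hi => if_neg hi⟩, (0, -c + g), ?_, ?_⟩
  · refine hVU (?_ : (-c + g : Sg ι) ∈ _)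
    apply hsub
    intro i hi
    have h1 : (-c + g : Sg ι).1 i = (0 : Sg ι).1 i := by
      simp only [AddSubgroup.coe_add, NegMemClass.coe_neg, Pi.add_apply, Pi.neg_apply, c,
        ZeroMemClass.coe_zero, Pi.zero_apply]
      rw [if_pos (by exact_mod_cast hi)]
      exact neg_add_cancel _
    rw [h1]
    exact (hu i (by exact_mod_cast hi)).2
  · ext1
    · simp
    · simp

end Pool.Agent.Q147.WeakPc
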