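import Mathlib

/-!
# The `Z`-Scott function space topology need not be regular

For topological spaces `Y`, `Z` the topology `t₁^Z` on `C(Y, Z)` has the subbase of all sets
`{f | f⁻¹(U) ∈ H}` with `H` a `Z`-Scott open family of open subsets of `Y` and `U ⊆ Z` open.
Here `Z = {0,1}` is discrete and `Y = (ℕ × ℕ) ∪ {∞}` where all points of `ℕ × ℕ` are isolated and
the neighbourhoods of `∞` are given by the Fubini square `q ⊗ q` of a free ultrafilter `q`.
-/

namespace Pool.Agent.Q147.ZScott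

open Set Filter Topology TopologicalSpace

/-- The sets `f⁻¹(U)` with `f : Y → Z` continuous and `U ⊆ Z` open. -/
def OZ (Y Z : Type*) [TopologicalSpace Y] [TopologicalSpace Z] : Set (Set Y) :=
  {W | ∃ (f : C(Y, Z)) (U : Set Z), IsOpen U ∧ W = f ⁻¹' U}

/-- A family `H` of open subsets of `Y` is `Z`-Scott open. -/
structure IsZScott (Y Z : Type*) [TopologicalSpace Y] [TopologicalSpace Z] (H : Set (Set Y)) :
    Prop where
  isOpen : ∀ W ∈ H, IsOpen W
  up : ∀ W ∈ H, W ∈ OZ Y Z → ∀ V, IsOpen V → W ⊆ V → V ∈ H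
  cpt : ∀ 𝒲 : Set (Set Y), 𝒲 ⊆ OZ Y Z → ⋃₀ 𝒲 ∈ H → ∃ 𝓕 ⊆ 𝒲, 𝓕.Finite ∧ ⋃₀ 𝓕 ∈ H

/-- The topology `t₁^Z` on `C(Y, Z)`. -/
def t1 (Y Z : Type*) [TopologicalSpace Y] [TopologicalSpace Z] : TopologicalSpace C(Y, Z) :=
  generateFrom {S | ∃ (H : Set (Set Y)) (U : Set Z), IsZScott Y Z H ∧ IsOpen U ∧
    S = {f : C(Y, Z) | f ⁻¹' U ∈ H}}

/-! ### The ultrafilter and the space -/

/-- A free ultrafilter on `ℕ`. -/
noncomputable def q : Ultrafilter ℕ := hyperfilter ℕ

lemma mem_q_of_compl_finite {s : Set ℕ} (h : sᶜ.Finite) : s ∈ q :=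
  mem_hyperfilter_of_finite_compl h

lemma notMem_q_of_finite {s : Set ℕ} (h : s.Finite) : s ∉ q :=
  fun hs => notMem_hyperfilter_of_finite h hs

/-- The Fubini square of `q`. -/
noncomputable def p : Ultrafilter (ℕ × ℕ) := q.bind fun n => q.map (Prod.mk n)

lemma mem_p {s : Set (ℕ × ℕ)} : s ∈ p ↔ {n | {k | (n, k) ∈ s} ∈ q} ∈ q := by
  rfl

lemma ne_mem_p (x : ℕ × ℕ) : {y | y ≠ x} ∈ p := by
  rw [mem_p]
  have : {n | {k | (n, k) ∈ {y : ℕ × ℕ | y ≠ x}} ∈ q} = univ := by
    ext n
    simp only [mem_ofPred_eq, mem_univ, iff_true]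
    apply mem_q_of_compl_finite
    apply (finite_singleton x.2).subset
    intro k hk
    simp only [mem_compl_iff, mem_ofPred_eq, not_not] at hk
    rw [mem_singleton_iff, ← hk]
  rw [this]
  exact univ_mem

lemma compl_finite_mem_p {E : Set (ℕ × ℕ)} (h : E.Finite) : Eᶜ ∈ p := by
  have : Eᶜ = ⋂ x ∈ E, {y | y ≠ x} := by
    ext y
    simp only [mem_compl_iff, mem_iInter, mem_ofPred_eq]
    constructor
    · rintro hy x hx rfl
      exact hy hx
    · intro hy hyE
      exact hy y hyE rfl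
  rw [this]
  exact (biInter_mem h).2 fun x _ => ne_mem_p x

/-- The space `Y = (ℕ × ℕ) ∪ {∞}`. -/
def Y : Type := Option (ℕ × ℕ)

instance : TopologicalSpace Y where
  IsOpen s := (none : Option (ℕ × ℕ)) ∈ s → some ⁻¹' s ∈ p
  isOpen_univ := fun _ => univ_mem
  isOpen_inter s t hs ht := fun h => inter_mem (hs h.1) (ht h.2)
  isOpen_sUnion S hS := by
    rintro ⟨s, hs, h⟩
    exact mem_of_superset (hS s hs h) fun x hx => ⟨s, hs, hx⟩

/-- The point `∞`. -/
def inf : Y := (none : Option (ℕ × ℕ))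

/-- The isolated points. -/
def pt (x : ℕ × ℕ) : Y := (some x : Option (ℕ × ℕ))

lemma isOpen_iff {s : Set Y} : IsOpen s ↔ (inf ∈ s → pt ⁻¹' s ∈ p) := Iff.rfl

lemma isOpen_of_notMem {s : Set Y} (h : inf ∉ s) : IsOpen s := fun h' => (h h').elim

lemma Y_cases (y : Y) : y = inf ∨ ∃ x, y = pt x := by
  rcases y with _ | x
  · exact Or.inl rfl
  · exact Or.inr ⟨x, rfl⟩

lemma pt_ne_inf (x : ℕ × ℕ) : pt x ≠ inf := by
  intro h
  cases h

lemma pt_inj {x y : ℕ × ℕ} (h : pt x = pt y) : x = y := by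
  cases h
  rfl

instance : Countable Y := inferInstanceAs (Countable (Option (ℕ × ℕ)))

lemma isOpen_compl_pt (x : ℕ × ℕ) : IsOpen ({pt x}ᶜ : Set Y) := by
  rw [isOpen_iff]
  intro _
  apply mem_of_superset (ne_mem_p x)
  intro y hy
  simp only [mem_preimage, mem_compl_iff, mem_singleton_iff]
  exact fun h => hy (pt_inj h)

lemma isOpen_pt (x : ℕ × ℕ) : IsOpen ({pt x} : Set Y) :=
  isOpen_of_notMem fun h => pt_ne_inf x h.symm

instance : T2Space Y where
  t2 := by
    intro a b hab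
    have key : ∀ (x : ℕ × ℕ) (c : Y), pt x ≠ c → ∃ u v : Set Y, IsOpen u ∧ IsOpen v ∧ pt x ∈ u ∧
        c ∈ v ∧ Disjoint u v := fun x c hc =>
      ⟨{pt x}, {pt x}ᶜ, isOpen_pt x, isOpen_compl_pt x, rfl, fun h => hc h.symm,
        disjoint_compl_right⟩
    rcases Y_cases a with rfl | ⟨x, rfl⟩
    · rcases Y_cases b with rfl | ⟨x, rfl⟩
      · exact (hab rfl).elim
      · obtain ⟨u, v, hu, hv, h1, h2, h3⟩ := key x inf (pt_ne_inf x)
        exact ⟨v, u, hv, hu, h2, h1, h3.symm⟩
    · exact key x b hab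

/-! ### Continuous maps to `Bool` -/

/-- The map `Y → Bool` with `g(∞) = 1` and `g = 0` exactly on `B ⊆ ℕ × ℕ`, `Bᶜ ∈ p`. -/
noncomputable def ind (B : Set (ℕ × ℕ)) (hB : Bᶜ ∈ p) : C(Y, Bool) where
  toFun y := by
    classical
    exact decide (∀ x ∈ B, y ≠ pt x)
  continuous_toFun := by
    classical
    have hcl : IsClopen {y : Y | ∀ x ∈ B, y ≠ pt x} := by
      constructor
      · rw [← isOpen_compl_iff]
        apply isOpen_of_notMem
        intro h
        apply h
        intro x _ hx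
        exact pt_ne_inf x hx.symm
      · rw [isOpen_iff]
        intro _
        apply mem_of_superset hB
        intro z hz x hx h
        exact hz (pt_inj h ▸ hx)
    rw [continuous_discrete_rng]
    intro b
    rcases b with _ | _
    · have : (fun y : Y => decide (∀ x ∈ B, y ≠ pt x)) ⁻¹' {false}
          = {y : Y | ∀ x ∈ B, y ≠ pt x}ᶜ := by
        ext y
        simp only [mem_preimage, mem_singleton_iff, decide_eq_false_iff_not, mem_compl_iff,
          mem_ofPred_eq]
      rw [this]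
      exact hcl.compl.isOpen
    · have : (fun y : Y => decide (∀ x ∈ B, y ≠ pt x)) ⁻¹' {true}
          = {y : Y | ∀ x ∈ B, y ≠ pt x} := by
        ext y
        simp only [mem_preimage, mem_singleton_iff, decide_eq_true_eq, mem_ofPred_eq]
      rw [this]
      exact hcl.isOpen

lemma ind_inf (B : Set (ℕ × ℕ)) (hB : Bᶜ ∈ p) : ind B hB inf = true := by
  classical
  change decide (∀ x ∈ B, inf ≠ pt x) = true
  rw [decide_eq_true_eq]
  exact fun x _ h => pt_ne_inf x h.symm

lemma ind_pt_mem {B : Set (ℕ × ℕ)} (hB : Bᶜ ∈ p) {x : ℕ × ℕ} (hx : x ∈ B) :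
    ind B hB (pt x) = false := by
  classical
  change decide (∀ z ∈ B, pt x ≠ pt z) = false
  rw [decide_eq_false_iff_not]
  exact fun h => h x hx rfl

lemma ind_pt_notMem {B : Set (ℕ × ℕ)} (hB : Bᶜ ∈ p) {x : ℕ × ℕ} (hx : x ∉ B) :
    ind B hB (pt x) = true := by
  classical
  change decide (∀ z ∈ B, pt x ≠ pt z) = true
  rw [decide_eq_true_eq]
  intro z hz h
  exact hx (pt_inj h ▸ hz)

/-- Clopen sets belong to `OZ Y Bool`. -/
lemma mem_OZ_of_isClopen {X : Type*} [TopologicalSpace X] {W : Set X} (h : IsClopen W) :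
    W ∈ OZ X Bool := by
  classical
  refine ⟨⟨fun y => decide (y ∈ W), ?_⟩, {true}, isOpen_discrete _, ?_⟩
  · rw [continuous_discrete_rng]
    intro b
    rcases b with _ | _
    · have : (fun y : X => decide (y ∈ W)) ⁻¹' {false} = Wᶜ := by
        ext y
        simp
      rw [this]
      exact h.compl.isOpen
    · have : (fun y : X => decide (y ∈ W)) ⁻¹' {true} = W := by
        ext y
        simp
      rw [this]
      exact h.isOpen
  · ext y
    simp

lemma isClopen_pt (x : ℕ × ℕ) : IsClopen ({pt x} : Set Y) :=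
  ⟨isOpen_compl_iff.1 (isOpen_compl_pt x), isOpen_pt x⟩

lemma isClopen_image_finite {E : Set (ℕ × ℕ)} (h : E.Finite) : IsClopen (pt '' E) := by
  rw [← biUnion_of_singleton (pt '' E)]
  apply (h.image _).isClopen_biUnion
  rintro _ ⟨x, _, rfl⟩
  exact isClopen_pt x

/-! ### The family `H` -/

/-- The relation `n → k` iff `(n, k)` lies in `D`. -/
def Edge (D : Set Y) (n k : ℕ) : Prop := pt (n, k) ∈ D

/-- `D` is open, contains `∞`, and from `0` one reaches a vertex with `q`-many successors. -/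
def fam : Set (Set Y) :=
  {D | IsOpen D ∧ inf ∈ D ∧ ∃ n, Relation.ReflTransGen (Edge D) 0 n ∧ {k | Edge D n k} ∈ q}

lemma reach_mono {D D' : Set Y} (h : D ⊆ D') {a b : ℕ}
    (hab : Relation.ReflTransGen (Edge D) a b) : Relation.ReflTransGen (Edge D') a b := by
  induction hab with
  | refl => exact Relation.ReflTransGen.refl
  | tail _ hbc ih => exact ih.tail (h hbc)

lemma reach_finite {𝒲 : Set (Set Y)} {n : ℕ} (h : Relation.ReflTransGen (Edge (⋃₀ 𝒲)) 0 n) :
    ∃ 𝓕 ⊆ 𝒲, 𝓕.Finite ∧ Relation.ReflTransGen (Edge (⋃₀ 𝓕)) 0 n := by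
  induction h with
  | refl => exact ⟨∅, empty_subset _, finite_empty, Relation.ReflTransGen.refl⟩
  | @tail b c _ hbc ih =>
    obtain ⟨𝓕, h𝓕, hfin, hr⟩ := ih
    obtain ⟨W, hW, hx⟩ := hbc
    refine ⟨insert W 𝓕, insert_subset hW h𝓕, hfin.insert W, ?_⟩
    refine (reach_mono (sUnion_subset_sUnion (subset_insert W 𝓕)) hr).tail ?_
    exact ⟨W, mem_insert _ _, hx⟩

lemma isZScott_fam : IsZScott Y Bool fam where
  isOpen W hW := hW.1
  up := by
    rintro W ⟨_, h1, n, h2, h3⟩ _ V hV hWV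
    exact ⟨hV, hWV h1, n, reach_mono hWV h2, mem_of_superset h3 fun k hk => hWV hk⟩
  cpt := by
    rintro 𝒲 h𝒲 ⟨_, h1, n, h2, h3⟩
    have hop : ∀ W ∈ 𝒲, IsOpen W := by
      intro W hW
      obtain ⟨f, U, hU, rfl⟩ := h𝒲 hW
      exact hU.preimage f.continuous
    obtain ⟨W0, hW0, hinf⟩ := h1
    have hA : {n | {k | (n, k) ∈ pt ⁻¹' W0} ∈ q} ∈ q := mem_p.1 (hop W0 hW0 hinf)
    obtain ⟨k, hk1, hk2⟩ := q.nonempty_of_mem (inter_mem h3 hA)
    obtain ⟨W1, hW1, hx⟩ := hk1
    obtain ⟨𝓕, h𝓕, hfin, hr⟩ := reach_finite h2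
    refine ⟨insert W0 (insert W1 𝓕), insert_subset hW0 (insert_subset hW1 h𝓕),
      (hfin.insert W1).insert W0, ?_, ?_, k, ?_, ?_⟩
    · apply isOpen_sUnion
      intro W hW
      exact hop W ((insert_subset hW0 (insert_subset hW1 h𝓕)) hW)
    · exact ⟨W0, mem_insert _ _, hinf⟩
    · refine (reach_mono (sUnion_subset_sUnion ?_) hr).tail ?_
      · exact (subset_insert W1 𝓕).trans (subset_insert W0 _)
      · exact ⟨W1, mem_insert_of_mem _ (mem_insert _ _), hx⟩
    · apply mem_of_superset hk2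
      intro j hj
      exact ⟨W0, mem_insert _ _, hj⟩

/-! ### Neighbourhoods in `t₁` -/

/-- The constant map `1`. -/
def one : C(Y, Bool) := ContinuousMap.const Y true

/-- The filter describing neighbourhoods of the constant map `1`. -/
def G1 (A : Set (ℕ × ℕ)) : Filter C(Y, Bool) where
  sets := {K | ∃ F : Set (ℕ × ℕ), F.Finite ∧ ∀ g : C(Y, Bool), g inf = true →
    (∀ x ∈ A, g (pt x) = true) → (∀ x ∈ F, g (pt x) = true) → g ∈ K}
  univ_sets := ⟨∅, finite_empty, fun _ _ _ _ => mem_univ _⟩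
  sets_of_superset := by
    rintro K L ⟨F, hF, h⟩ hKL
    exact ⟨F, hF, fun g h1 h2 h3 => hKL (h g h1 h2 h3)⟩
  inter_sets := by
    rintro K L ⟨F, hF, h⟩ ⟨F', hF', h'⟩
    exact ⟨F ∪ F', hF.union hF', fun g h1 h2 h3 =>
      ⟨h g h1 h2 fun x hx => h3 x (Or.inl hx), h' g h1 h2 fun x hx => h3 x (Or.inr hx)⟩⟩

/-- The filter describing neighbourhoods of `c`. -/
def G2 (c : C(Y, Bool)) : Filter C(Y, Bool) where
  sets := {K | ∃ E : Set (ℕ × ℕ), E.Finite ∧ (∀ x ∈ E, c (pt x) = false) ∧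
    ∀ g : C(Y, Bool), (∀ y, c y = true → g y = true) → (∀ x ∈ E, g (pt x) = false) → g ∈ K}
  univ_sets := ⟨∅, finite_empty, fun _ h => h.elim, fun _ _ _ => mem_univ _⟩
  sets_of_superset := by
    rintro K L ⟨F, hF, h0, h⟩ hKL
    exact ⟨F, hF, h0, fun g h1 h2 => hKL (h g h1 h2)⟩
  inter_sets := by
    rintro K L ⟨F, hF, h0, h⟩ ⟨F', hF', h0', h'⟩
    refine ⟨F ∪ F', hF.union hF', ?_, fun g h1 h2 =>
      ⟨h g h1 fun x hx => h2 x (Or.inl hx), h' g h1 fun x hx => h2 x (Or.inr hx)⟩⟩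
    rintro x (hx | hx)
    · exact h0 x hx
    · exact h0' x hx

lemma empty_mem_OZ : (∅ : Set Y) ∈ OZ Y Bool := mem_OZ_of_isClopen isClopen_empty

lemma G1_le (A : Set (ℕ × ℕ)) (hA : A ∈ p) : G1 A ≤ @nhds _ (t1 Y Bool) one := by
  rw [t1, nhds_generateFrom]
  refine le_iInf fun s => le_iInf fun hs => ?_
  obtain ⟨hmem, H, U, hH, hU, rfl⟩ := hs
  rw [le_principal_iff]
  change ∃ F : Set (ℕ × ℕ), F.Finite ∧ ∀ g : C(Y, Bool), g inf = true →
    (∀ x ∈ A, g (pt x) = true) → (∀ x ∈ F, g (pt x) = true) → g ⁻¹' U ∈ H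
  change one ⁻¹' U ∈ H at hmem
  have hop : ∀ g : C(Y, Bool), IsOpen (g ⁻¹' U) := fun g => hU.preimage g.continuous
  by_cases ht : true ∈ U
  · have huniv : one ⁻¹' U = univ := by
      ext y
      simp only [mem_preimage, mem_univ, iff_true]
      exact ht
    rw [huniv] at hmem
    -- the cover
    set W0 : Set Y := insert inf (pt '' A) with hW0
    have hW0c : IsClopen W0 := by
      constructor
      · rw [← isOpen_compl_iff]
        exact isOpen_of_notMem fun h => h (mem_insert _ _)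
      · rw [isOpen_iff]
        intro _
        exact mem_of_superset hA fun x hx => mem_insert_of_mem _ ⟨x, hx, rfl⟩
    have hcov : ⋃₀ (insert W0 (range fun x : ℕ × ℕ => ({pt x} : Set Y))) = univ := by
      ext y
      simp only [mem_univ, iff_true]
      rcases Y_cases y with rfl | ⟨x, rfl⟩
      · exact ⟨W0, mem_insert _ _, mem_insert _ _⟩
      · exact ⟨{pt x}, mem_insert_of_mem _ ⟨x, rfl⟩, rfl⟩
    have hclop : ∀ W ∈ insert W0 (range fun x : ℕ × ℕ => ({pt x} : Set Y)), IsClopen W := by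
      rintro W (rfl | ⟨x, rfl⟩)
      · exact hW0c
      · exact isClopen_pt x
    obtain ⟨𝓕, h𝓕, hfin, hm⟩ := hH.cpt (insert W0 (range fun x : ℕ × ℕ => ({pt x} : Set Y)))
      (fun W hW => mem_OZ_of_isClopen (hclop W hW)) (by rw [hcov]; exact hmem)
    refine ⟨{x | ({pt x} : Set Y) ∈ 𝓕}, ?_, ?_⟩
    · apply hfin.preimage (f := fun x : ℕ × ℕ => ({pt x} : Set Y))
      intro x _ y _ hxy
      exact pt_inj (singleton_injective hxy)
    · intro g h1 h2 h3
      refine hH.up _ hm (mem_OZ_of_isClopen ?_) _ (hop g) ?_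
      · rw [sUnion_eq_biUnion]
        exact hfin.isClopen_biUnion fun W hW => hclop W (h𝓕 hW)
      · rintro y ⟨W, hW, hy⟩
        have hgy : g y = true := by
          rcases h𝓕 hW with rfl | ⟨x, rfl⟩
          · rcases hy with rfl | ⟨x, hx, rfl⟩
            · exact h1
            · exact h2 x hx
          · rw [mem_singleton_iff.1 hy]
            exact h3 x hW
        rw [mem_preimage, hgy]
        exact ht
  · have hempty : one ⁻¹' U = ∅ := by
      ext y
      simp only [mem_preimage, mem_empty_iff_false, iff_false]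
      exact ht
    rw [hempty] at hmem
    exact ⟨∅, finite_empty, fun g _ _ _ => hH.up _ hmem empty_mem_OZ _ (hop g) (empty_subset _)⟩

lemma G2_le (c : C(Y, Bool)) (hc : c inf = true) : G2 c ≤ @nhds _ (t1 Y Bool) c := by
  rw [t1, nhds_generateFrom]
  refine le_iInf fun s => le_iInf fun hs => ?_
  obtain ⟨hmem, H, U, hH, hU, rfl⟩ := hs
  rw [le_principal_iff]
  change ∃ E : Set (ℕ × ℕ), E.Finite ∧ (∀ x ∈ E, c (pt x) = false) ∧
    ∀ g : C(Y, Bool), (∀ y, c y = true → g y = true) → (∀ x ∈ E, g (pt x) = false) →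
      g ⁻¹' U ∈ H
  change c ⁻¹' U ∈ H at hmem
  have hop : ∀ g : C(Y, Bool), IsOpen (g ⁻¹' U) := fun g => hU.preimage g.continuous
  have hclop : IsClopen (c ⁻¹' U) :=
    ⟨(isClosed_discrete U).preimage c.continuous, hop c⟩
  by_cases ht : true ∈ U
  · by_cases hf : false ∈ U
    · refine ⟨∅, finite_empty, fun _ h => h.elim, fun g _ _ => ?_⟩
      refine hH.up _ hmem (mem_OZ_of_isClopen hclop) _ (hop g) ?_
      intro y _
      rw [mem_preimage]
      cases g y
      · exact hf
      · exact ht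
    · refine ⟨∅, finite_empty, fun _ h => h.elim, fun g hg _ => ?_⟩
      refine hH.up _ hmem (mem_OZ_of_isClopen hclop) _ (hop g) ?_
      intro y hy
      have hcy : c y = true := by
        by_contra hne
        rw [Bool.not_eq_true] at hne
        rw [mem_preimage, hne] at hy
        exact hf hy
      rw [mem_preimage, hg y hcy]
      exact ht
  · by_cases hf : false ∈ U
    · -- the interesting case
      have hpre : c ⁻¹' U = ⋃₀ ((fun x : ℕ × ℕ => ({pt x} : Set Y)) '' {x | c (pt x) = false}) := by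
        ext y
        constructor
        · intro hy
          have hcy : c y = false := by
            by_contra hne
            rw [Bool.not_eq_false] at hne
            rw [mem_preimage, hne] at hy
            exact ht hy
          rcases Y_cases y with rfl | ⟨x, rfl⟩
          · rw [hc] at hcy
            exact absurd hcy (by decide)
          · exact ⟨{pt x}, ⟨x, hcy, rfl⟩, rfl⟩
        · rintro ⟨_, ⟨x, hx, rfl⟩, hy⟩
          rw [mem_preimage, mem_singleton_iff.1 hy, hx]
          exact hf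
      rw [hpre] at hmem
      obtain ⟨𝓕, h𝓕, hfin, hm⟩ := hH.cpt _ (by
        rintro _ ⟨x, _, rfl⟩
        exact mem_OZ_of_isClopen (isClopen_pt x)) hmem
      refine ⟨{x | ({pt x} : Set Y) ∈ 𝓕}, ?_, ?_, ?_⟩
      · apply hfin.preimage (f := fun x : ℕ × ℕ => ({pt x} : Set Y))
        intro x _ y _ hxy
        exact pt_inj (singleton_injective hxy)
      · intro x hx
        obtain ⟨z, hz, hzx⟩ := h𝓕 hx
        have : z = x := pt_inj (singleton_injective hzx)
        rw [← this]
        exact hz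
      · intro g _ hg
        refine hH.up _ hm (mem_OZ_of_isClopen ?_) _ (hop g) ?_
        · rw [sUnion_eq_biUnion]
          apply hfin.isClopen_biUnion
          intro W hW
          obtain ⟨x, _, rfl⟩ := h𝓕 hW
          exact isClopen_pt x
        · rintro y ⟨W, hW, hy⟩
          obtain ⟨x, _, rfl⟩ := h𝓕 hW
          rw [mem_preimage, mem_singleton_iff.1 hy, hg x hW]
          exact hf
    · refine ⟨∅, finite_empty, fun _ h => h.elim, fun g _ _ => ?_⟩
      refine hH.up _ hmem (mem_OZ_of_isClopen hclop) _ (hop g) ?_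
      intro y hy
      exfalso
      rw [mem_preimage] at hy
      cases h : c y
      · rw [h] at hy
        exact hf hy
      · rw [h] at hy
        exact ht hy

/-! ### The maps `g_m` -/

/-- The rectangle `{0..m} × {m+1, ...}`. -/
def rect (m : ℕ) : Set (ℕ × ℕ) := {x | x.1 ≤ m ∧ m < x.2}

lemma rect_compl_mem (m : ℕ) : (rect m)ᶜ ∈ p := by
  rw [mem_p]
  apply mem_q_of_compl_finite
  apply (finite_Iic m).subset
  intro n hn
  rw [mem_Iic]
  by_contra hlt
  apply hn
  have : {k | (n, k) ∈ (rect m)ᶜ} = univ := by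
    ext k
    simp only [mem_ofPred_eq, mem_univ, iff_true]
    rintro ⟨h1, _⟩
    exact hlt h1
  rw [mem_ofPred_eq, this]
  exact univ_mem

/-- The map vanishing exactly on `rect m`. -/
noncomputable def gm (m : ℕ) : C(Y, Bool) := ind (rect m) (rect_compl_mem m)

lemma gm_notMem_fam (m : ℕ) : gm m ⁻¹' {true} ∉ fam := by
  rintro ⟨_, _, n, h1, h2⟩
  have hedge : ∀ a b, a ≤ m → Edge (gm m ⁻¹' {true}) a b → b ≤ m := by
    intro a b ha hab
    by_contra hb
    have hx : (a, b) ∈ rect m := ⟨ha, not_le.1 hb⟩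
    have h := ind_pt_mem (rect_compl_mem m) hx
    have h' : gm m (pt (a, b)) = true := hab
    rw [gm, h] at h'
    exact absurd h' (by decide)
  have key : ∀ b, Relation.ReflTransGen (Edge (gm m ⁻¹' {true})) 0 b → b ≤ m := by
    intro b hb
    induction hb with
    | refl => exact Nat.zero_le m
    | tail _ hbc ih => exact hedge _ _ ih hbc
  apply notMem_q_of_finite ((finite_Iic m).subset _) h2
  intro k hk
  exact hedge n k (key n h1) hk

/-! ### The theorem -/

/-- The topology `t₁` on `C(Y, Bool)` is not regular. -/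
theorem not_regular : ¬ @RegularSpace C(Y, Bool) (t1 Y Bool) := by
  intro hreg
  let _ : TopologicalSpace C(Y, Bool) := t1 Y Bool
  have hO : IsOpen {f : C(Y, Bool) | f ⁻¹' {true} ∈ fam} :=
    isOpen_generateFrom_of_mem ⟨fam, {true}, isZScott_fam, isOpen_discrete _, rfl⟩
  have h1O : one ∈ {f : C(Y, Bool) | f ⁻¹' {true} ∈ fam} := by
    have huniv : one ⁻¹' {true} = univ := by
      ext y
      simp only [mem_preimage, mem_univ, iff_true]
      rfl
    rw [mem_ofPred_eq, huniv]
    refine ⟨isOpen_univ, mem_univ _, 0, Relation.ReflTransGen.refl, ?_⟩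
    apply mem_of_superset univ_mem
    intro k _
    exact mem_univ _
  obtain ⟨K, ⟨hK, hKcl⟩, hKO⟩ := (closed_nhds_basis (one : C(Y, Bool))).mem_iff.1
    (hO.mem_nhds h1O)
  -- the finite sets `E m`
  have hE : ∀ m, ∃ E : Set (ℕ × ℕ), E.Finite ∧ (∀ x ∈ E, gm m (pt x) = false) ∧
      ∀ g : C(Y, Bool), (∀ y, gm m y = true → g y = true) → (∀ x ∈ E, g (pt x) = false) →
        g ∈ Kᶜ := by
    intro m
    have hmem : Kᶜ ∈ 𝓝 (gm m) :=
      hKcl.isOpen_compl.mem_nhds fun h => gm_notMem_fam m (hKO h)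
    exact G2_le (gm m) (ind_inf _ _) hmem
  choose E hEfin hEgm hEK using hE
  have hErect : ∀ m, E m ⊆ rect m := by
    intro m x hx
    by_contra hn
    have h := ind_pt_notMem (rect_compl_mem m) hn
    have h' := hEgm m x hx
    rw [gm, h] at h'
    exact absurd h' (by decide)
  have hbd : ∀ m, ∃ b, m < b ∧ ∀ x ∈ E m, x.2 ≤ b := by
    intro m
    obtain ⟨b, hb⟩ := ((hEfin m).image Prod.snd).bddAbove
    exact ⟨max b (m + 1), lt_of_lt_of_le (Nat.lt_succ_self m) (le_max_right _ _), fun x hx =>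
      (hb (mem_image_of_mem _ hx)).trans (le_max_left _ _)⟩
  choose b hmb hb using hbd
  let m : ℕ → ℕ := fun i => b^[i] 0
  have hm : ∀ i, m (i + 1) = b (m i) := fun i => Function.iterate_succ_apply' b i 0
  have hmono : StrictMono m := strictMono_nat_of_lt_succ fun i => by
    rw [hm]
    exact hmb _
  have hdisj : ∀ i j, ∀ x, x ∈ E (m i) → x ∈ E (m j) → i = j := by
    have key : ∀ i j, i < j → ∀ x, x ∈ E (m i) → x ∈ E (m j) → False := by
      intro i j hij x hxi hxj
      have h1 : x.2 ≤ m (i + 1) := by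
        rw [hm]
        exact hb _ x hxi
      have h2 : m j < x.2 := (hErect _ hxj).2
      have h3 : m (i + 1) ≤ m j := hmono.monotone hij
      omega
    intro i j x hxi hxj
    rcases lt_trichotomy i j with h | h | h
    · exact (key i j h x hxi hxj).elim
    · exact h
    · exact (key j i h x hxj hxi).elim
  -- one of the two unions is not in `p`
  have hs : ∃ s : ℕ, s < 2 ∧ {x | ∃ i, i % 2 = s ∧ x ∈ E (m i)}ᶜ ∈ p := by
    by_cases h0 : {x | ∃ i, i % 2 = 0 ∧ x ∈ E (m i)} ∈ p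
    · refine ⟨1, by norm_num, ?_⟩
      apply mem_of_superset h0
      rintro x ⟨i, hi, hxi⟩ ⟨j, hj, hxj⟩
      have := hdisj i j x hxi hxj
      omega
    · exact ⟨0, by norm_num, Ultrafilter.compl_mem_iff_notMem.2 h0⟩
  obtain ⟨s, hs2, hA⟩ := hs
  obtain ⟨F, hF, hFK⟩ := G1_le _ hA hK
  obtain ⟨c, hc⟩ := (hF.image Prod.snd).bddAbove
  -- choose a large index of the right parity
  let i : ℕ := 2 * c + s
  have hi2 : i % 2 = s := by omega
  have hmi : c ≤ m i := by
    have : i ≤ m i := hmono.id_le i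
    omega
  have hEc : (E (m i))ᶜ ∈ p := compl_finite_mem_p (hEfin _)
  have hin : ind (E (m i)) hEc ∈ K := by
    apply hFK
    · exact ind_inf _ _
    · intro x hx
      apply ind_pt_notMem
      intro hxE
      exact hx ⟨i, hi2, hxE⟩
    · intro x hx
      apply ind_pt_notMem
      intro hxE
      have h1 : x.2 ≤ c := hc (mem_image_of_mem _ hx)
      have h2 : m i < x.2 := (hErect _ hxE).2
      omega
  have hout : ind (E (m i)) hEc ∈ Kᶜ := by
    apply hEK (m i)
    · intro y hy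
      rcases Y_cases y with rfl | ⟨x, rfl⟩
      · exact ind_inf _ _
      · apply ind_pt_notMem
        intro hxE
        rw [hEgm _ x hxE] at hy
        exact absurd hy (by decide)
    · intro x hx
      exact ind_pt_mem _ hx
  exact hout hin

end Pool.Agent.Q147.ZScott
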